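import Mathlib

/-!
BUILDING, block B. Root bases: the geometric representation attached to a root basis of a Coxeter
matrix, the lemma of Tits and its consequences for the fundamental cone.
-/

set_option autoImplicit false

open Real

namespace Pool.Agent.Work.MP_de2d29_al

variable {S : Type*} {V : Type*} [AddCommGroup V] [Module ℝ V]

/-- A root basis with Coxeter matrix `M`: unit vectors `e s` with
`B (e s) (e t) = - cos (π / M s t)`, and `≤ -1` if `M s t = 0`. -/
structure RootBasis (M : CoxeterMatrix S) (B : LinearMap.BilinForm ℝ V) (e : S → V) : Prop where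
  symm : ∀ x y, B x y = B y x
  fin : ∀ s t, M s t ≠ 0 → B (e s) (e t) = -cos (π / M s t)
  inf : ∀ s t, M s t = 0 → B (e s) (e t) ≤ -1

namespace RootBasis

variable {M : CoxeterMatrix S} {B : LinearMap.BilinForm ℝ V} {e : S → V}

theorem self (h : RootBasis M B e) (s : S) : B (e s) (e s) = 1 := by
  have := h.fin s s (by simp)
  simpa using this

/-- the linear form of the reflection -/
noncomputable def ff (B : LinearMap.BilinForm ℝ V) (e : S → V) (s : S) : Module.Dual ℝ V :=
  (2 : ℝ) • B (e s)

theorem ff_apply (s : S) (x : V) : ff B e s x = 2 * B (e s) x := by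
  simp [ff]

theorem ff_self (h : RootBasis M B e) (s : S) : ff B e s (e s) = 2 := by
  rw [ff_apply, h.self, mul_one]

/-- the reflection in the root `e s` -/
noncomputable def rr (h : RootBasis M B e) (s : S) : V ≃ₗ[ℝ] V := Module.reflection (h.ff_self s)

theorem rr_apply (h : RootBasis M B e) (s : S) (x : V) :
    h.rr s x = x - (2 * B (e s) x) • e s := by
  rw [rr, Module.reflection_apply, ff_apply]

theorem rr_rr (h : RootBasis M B e) (s : S) (x : V) : h.rr s (h.rr s x) = x :=
  Module.involutive_reflection (h.ff_self s) x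

theorem rr_self (h : RootBasis M B e) (s : S) : h.rr s (e s) = -e s := by
  rw [rr_apply, h.self]
  module

theorem B_rr (h : RootBasis M B e) (s : S) (x y : V) : B (h.rr s x) (h.rr s y) = B x y := by
  rw [rr_apply, rr_apply]
  simp only [map_sub, map_smul, LinearMap.sub_apply, LinearMap.smul_apply, smul_eq_mul,
    h.self, h.symm x (e s)]
  ring

theorem rr_pow_eq_one (h : RootBasis M B e) (i j : S) : (h.rr i * h.rr j) ^ (M i j) = 1 := by
  by_cases h0 : M i j = 0
  · rw [h0, pow_zero]
  by_cases hij : i = j
  · subst hij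
    have hinv : h.rr i * h.rr i = 1 := by
      ext1 z
      exact h.rr_rr i z
    rw [M.diagonal, pow_one, hinv]
  have h1 : M i j ≠ 1 := fun h1 => hij (by
    by_contra hne
    exact M.off_diagonal i j hne h1)
  by_cases h2 : M i j = 2
  · -- commuting reflections
    have hk : B (e i) (e j) = 0 := by rw [h.fin i j h0, h2]; simp
    have hk' : B (e j) (e i) = 0 := by rw [h.symm, hk]
    have hc : h.rr i * h.rr j = h.rr j * h.rr i := by
      ext1 z
      show h.rr i (h.rr j z) = h.rr j (h.rr i z)
      simp only [rr_apply, map_sub, map_smul, hk, hk', smul_eq_mul]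
      module
    rw [h2, pow_two, mul_assoc, ← mul_assoc (h.rr j), ← hc]
    ext1 z
    show h.rr i (h.rr i (h.rr j (h.rr j z))) = z
    rw [h.rr_rr, h.rr_rr]
  -- main case m ≥ 3
  have hkk : B (e i) (e j) = -cos (π / M i j) := h.fin i j h0
  have hkk' : B (e j) (e i) = -cos (π / M i j) := by rw [h.symm, hkk]
  generalize hm : M i j = m at *
  have hm3 : 3 ≤ m := by omega
  have hmR : (m : ℝ) ≠ 0 := by positivity
  set φ := 2 * π / m with hφ
  have hk : ff B e i (e j) = -2 * cos (π / m) := by rw [ff_apply, hkk]; ring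
  have hk' : ff B e j (e i) = -2 * cos (π / m) := by rw [ff_apply, hkk']; ring
  have ht : ff B e i (e j) * ff B e j (e i) - 2 = 2 * cos φ := by
    rw [hk, hk']
    have : φ = 2 * (π / m) := by rw [hφ]; ring
    rw [this, cos_two_mul]
    ring
  have hsin : sin φ ≠ 0 := by
    apply ne_of_gt
    apply sin_pos_of_pos_of_lt_pi
    · positivity
    · rw [hφ, div_lt_iff₀ (by positivity)]
      have : (3 : ℝ) ≤ m := by exact_mod_cast hm3
      nlinarith [pi_pos]
  have hS : ∀ k : ℤ, (Polynomial.Chebyshev.S ℝ k).eval (2 * cos φ) = sin ((k + 1) * φ) / sin φ := by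
    intro k
    rw [eq_div_iff hsin, Polynomial.Chebyshev.S_two_mul_real_cos]
  ext1 z
  show ((Module.reflection (h.ff_self i) * Module.reflection (h.ff_self j)) ^ m) z = z
  rw [Module.reflection_mul_reflection_pow_apply (h.ff_self i) (h.ff_self j) m z (2 * cos φ) ht.symm]
  rcases Nat.even_or_odd' m with ⟨k, hk | hk⟩
  · -- even
    have e1 : ((m : ℤ) - 2) / 2 = k - 1 := by omega
    have e2 : ((m : ℤ) - 1) / 2 = k - 1 := by omega
    have hz : (Polynomial.Chebyshev.S ℝ ((k : ℤ) - 1)).eval (2 * cos φ) = 0 := by
      rw [hS]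
      have : ((((k : ℤ) - 1 : ℤ) : ℝ) + 1) * φ = π := by
        rw [hφ]
        push_cast
        have : (m : ℝ) = 2 * k := by exact_mod_cast hk
        rw [this]
        have hk0 : (k : ℝ) ≠ 0 := by
          intro h
          rw [h, mul_zero] at this
          exact hmR this
        field_simp
        ring
      rw [this, sin_pi, zero_div]
    rw [e1, e2, hz]
    simp
  · have e1 : ((m : ℤ) - 1) / 2 = k := by omega
    have e2 : ((m : ℤ) - 3) / 2 = k - 1 := by omega
    have e3 : (m : ℤ) / 2 = k := by omega
    have e4 : ((m : ℤ) - 2) / 2 = k - 1 := by omega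
    have hz : (Polynomial.Chebyshev.S ℝ (k : ℤ)).eval (2 * cos φ) + (Polynomial.Chebyshev.S ℝ ((k : ℤ) - 1)).eval (2 * cos φ) = 0 := by
      rw [hS, hS, ← add_div]
      have h1 : sin ((((k : ℤ) : ℝ) + 1) * φ) = - sin (((((k : ℤ) - 1 : ℤ) : ℝ) + 1) * φ) := by
        have h2 : ((((k : ℤ) : ℝ) + 1) * φ) = 2 * π - ((((k : ℤ) - 1 : ℤ) : ℝ) + 1) * φ := by
          rw [hφ]
          push_cast
          have : (m : ℝ) = 2 * k + 1 := by exact_mod_cast hk
          rw [this]
          have hk0 : (2 * (k : ℝ) + 1) ≠ 0 := by positivity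
          field_simp
          ring
        rw [h2, sin_two_pi_sub]
      rw [h1]
      simp
    rw [e1, e2, e3, e4, hz]
    simp

theorem isLiftable (h : RootBasis M B e) : M.IsLiftable h.rr := fun i j => h.rr_pow_eq_one i j

variable {W : Type*} [Group W] (cs : CoxeterSystem M W)

/-- the geometric representation -/
noncomputable def rho (h : RootBasis M B e) : W →* (V ≃ₗ[ℝ] V) := cs.lift ⟨h.rr, h.isLiftable⟩

@[simp] theorem rho_simple (h : RootBasis M B e) (s : S) : h.rho cs (cs.simple s) = h.rr s :=
  cs.lift_apply_simple h.isLiftable s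

theorem rho_mul (h : RootBasis M B e) (w w' : W) (x : V) :
    h.rho cs (w * w') x = h.rho cs w (h.rho cs w' x) := by
  rw [map_mul]; rfl

theorem rho_one (h : RootBasis M B e) (x : V) : h.rho cs 1 x = x := by
  rw [map_one]; rfl

theorem rho_simple_apply (h : RootBasis M B e) (s : S) (x : V) :
    h.rho cs (cs.simple s) x = x - (2 * B (e s) x) • e s := by
  rw [rho_simple, rr_apply]

theorem rho_inv_apply (h : RootBasis M B e) (w : W) (x : V) :
    h.rho cs w⁻¹ (h.rho cs w x) = x := by
  rw [← rho_mul, inv_mul_cancel, rho_one]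

theorem rho_apply_inv (h : RootBasis M B e) (w : W) (x : V) :
    h.rho cs w (h.rho cs w⁻¹ x) = x := by
  rw [← rho_mul, mul_inv_cancel, rho_one]

/-- induction along a word: every element is a product of simple reflections -/
theorem simple_induction {p : W → Prop} (one : p 1) (mul : ∀ s w, p w → p (cs.simple s * w))
    (w : W) : p w := by
  obtain ⟨ω, -, rfl⟩ := cs.exists_isReduced w
  induction ω with
  | nil => simpa using one
  | cons s ω ih => rw [cs.wordProd_cons]; exact mul _ _ ih

theorem B_rho (h : RootBasis M B e) (w : W) (x y : V) :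
    B (h.rho cs w x) (h.rho cs w y) = B x y := by
  induction w using simple_induction cs with
  | one => rw [rho_one, rho_one]
  | mul s w ih => rw [rho_mul, rho_mul, rho_simple, B_rr, ih]

theorem B_rho_left (h : RootBasis M B e) (w : W) (x y : V) :
    B (h.rho cs w x) y = B x (h.rho cs w⁻¹ y) := by
  conv_lhs => rw [← h.rho_apply_inv cs w y]
  rw [B_rho]

/-! ### The cone of positive combinations -/

/-- the cone of nonnegative combinations of the roots `e s` -/
def cone (e : S → V) : Submodule NNReal V := Submodule.span NNReal (Set.range e)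

theorem mem_cone (s : S) : e s ∈ cone e := Submodule.subset_span ⟨s, rfl⟩

theorem cone_smul {c : ℝ} (hc : 0 ≤ c) {v : V} (hv : v ∈ cone e) : c • v ∈ cone e := by
  have := (cone e).smul_mem (⟨c, hc⟩ : NNReal) hv
  exact this

theorem cone_le {φ : Module.Dual ℝ V} (hφ : ∀ s, φ (e s) ≤ 0) {v : V} (hv : v ∈ cone e) :
    φ v ≤ 0 := by
  induction hv using Submodule.span_induction with
  | mem x hx => obtain ⟨s, rfl⟩ := hx; exact hφ s
  | zero => simp
  | add x y _ _ hx hy => rw [map_add]; linarith
  | smul a x _ hx =>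
    have : a • x = (a : ℝ) • x := rfl
    rw [this, map_smul, smul_eq_mul]
    exact mul_nonpos_of_nonneg_of_nonpos a.2 hx

theorem cone_lt {φ : Module.Dual ℝ V} (hφ : ∀ s, φ (e s) < 0) {v : V} (hv : v ∈ cone e) :
    v = 0 ∨ φ v < 0 := by
  induction hv using Submodule.span_induction with
  | mem x hx => obtain ⟨s, rfl⟩ := hx; exact Or.inr (hφ s)
  | zero => exact Or.inl rfl
  | add x y _ _ hx hy =>
    rcases hx with rfl | hx
    · simpa using hy
    rcases hy with rfl | hy
    · simpa using Or.inr hx
    · right; rw [map_add]; linarith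
  | smul a x _ hx =>
    have : a • x = (a : ℝ) • x := rfl
    rw [this]
    rcases hx with rfl | hx
    · simp
    rcases eq_or_lt_of_le a.2 with ha | ha
    · left
      have : (a : ℝ) = 0 := ha.symm
      rw [this, zero_smul]
    · right
      rw [map_smul, smul_eq_mul]
      exact mul_neg_of_pos_of_neg ha hx

/-! ### Chebyshev numbers -/

/-- `U_(-1), U_0, U_1, ...` -/
noncomputable def uu (c : ℝ) : ℕ → ℝ
  | 0 => 0
  | 1 => 1
  | n + 2 => 2 * c * uu c (n + 1) - uu c n

theorem uu_sin (θ : ℝ) (n : ℕ) : uu (cos θ) n * sin θ = sin (n * θ) := by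
  induction n using Nat.twoStepInduction with
  | zero => simp [uu]
  | one => simp [uu]
  | more n ih0 ih1 =>
    rw [uu, sub_mul, mul_assoc, ih1, ih0]
    have e1 : ((n + 2 : ℕ) : ℝ) * θ = ((n + 1 : ℕ) : ℝ) * θ + θ := by push_cast; ring
    have e2 : (n : ℝ) * θ = ((n + 1 : ℕ) : ℝ) * θ - θ := by push_cast; ring
    rw [e1, e2, sin_add, sin_sub]
    ring

theorem uu_nonneg_fin {m : ℕ} (hm : 2 ≤ m) {n : ℕ} (hn : n ≤ m) : 0 ≤ uu (cos (π / m)) n := by
  have hm' : (2 : ℝ) ≤ m := by exact_mod_cast hm
  have h1 : 0 < sin (π / m) := by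
    apply sin_pos_of_pos_of_lt_pi (by positivity)
    rw [div_lt_iff₀ (by positivity)]
    nlinarith [pi_pos]
  have h2 : 0 ≤ sin (n * (π / m)) := by
    apply sin_nonneg_of_nonneg_of_le_pi (by positivity)
    rw [mul_div_assoc', div_le_iff₀ (by positivity), mul_comm]
    exact mul_le_mul_of_nonneg_left (by exact_mod_cast hn) pi_pos.le
  rw [← uu_sin] at h2
  exact le_of_mul_le_mul_right (by rwa [zero_mul]) h1

theorem uu_nonneg_inf {c : ℝ} (hc : 1 ≤ c) (n : ℕ) : 0 ≤ uu c n := by
  have : ∀ n, 0 ≤ uu c n ∧ uu c n ≤ uu c (n + 1) := by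
    intro n
    induction n with
    | zero => simp [uu]
    | succ n ih =>
      refine ⟨ih.1.trans ih.2, ?_⟩
      rw [uu]
      have h0 : 0 ≤ uu c (n + 1) := ih.1.trans ih.2
      nlinarith [ih.2, mul_nonneg (sub_nonneg.2 hc) h0]
  exact (this n).1

/-- the action of an alternating word on `e s` -/
theorem rho_alt (h : RootBasis M B e) (s t : S) (k : ℕ) :
    h.rho cs (cs.wordProd (CoxeterSystem.alternatingWord s t k)) (e s) =
      if Even k then uu (-B (e s) (e t)) (k + 1) • e s + uu (-B (e s) (e t)) k • e t
      else uu (-B (e s) (e t)) (k + 1) • e t + uu (-B (e s) (e t)) k • e s := by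
  induction k with
  | zero => simp [CoxeterSystem.alternatingWord, uu]
  | succ k ih =>
    rw [CoxeterSystem.alternatingWord_succ', cs.wordProd_cons, rho_mul, ih]
    by_cases hk : Even k
    · have hk' : ¬ Even (k + 1) := by simp [hk, parity_simps]
      simp only [hk, hk', if_true, if_false]
      rw [rho_simple_apply, uu]
      simp only [map_add, map_smul, smul_eq_mul, h.self, h.symm (e t) (e s)]
      module
    · have hk' : Even (k + 1) := by simp [hk, parity_simps]
      simp only [hk, hk', if_true, if_false]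
      rw [rho_simple_apply, uu]
      simp only [map_add, map_smul, smul_eq_mul, h.self]
      module

/-- stripping an alternating suffix -/
theorem strip {w : W} {s t : S} (hs : ¬ cs.IsRightDescent w s) (ht : cs.IsRightDescent w t) :
    ∃ (v : W) (k : ℕ), 1 ≤ k ∧ w = v * cs.wordProd (CoxeterSystem.alternatingWord s t k) ∧
      cs.length v + k = cs.length w ∧ ¬ cs.IsRightDescent v s ∧ ¬ cs.IsRightDescent v t ∧
      (M s t ≠ 0 → k < M s t) := by
  classical
  let a : ℕ → W := fun j => cs.wordProd (CoxeterSystem.alternatingWord s t j)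
  have ha : ∀ j, a (j + 1) = cs.simple (if Even j then t else s) * a j := fun j => by
    simp only [a]
    rw [CoxeterSystem.alternatingWord_succ', cs.wordProd_cons]
  have hla : ∀ j, cs.length (a j) ≤ j := fun j => by
    have := cs.length_wordProd_le (CoxeterSystem.alternatingWord s t j)
    rwa [CoxeterSystem.length_alternatingWord] at this
  let Q : ℕ → Prop := fun j => cs.length (w * (a j)⁻¹) + j = cs.length w
  have hge : ∀ j, cs.length w ≤ cs.length (w * (a j)⁻¹) + j := fun j => by
    have h1 := cs.length_mul_le (w * (a j)⁻¹) (a j)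
    rw [inv_mul_cancel_right] at h1
    have := hla j
    omega
  -- the step
  have hvs : ∀ j, w * (a (j + 1))⁻¹ = w * (a j)⁻¹ * cs.simple (if Even j then t else s) := fun j => by
    rw [ha, mul_inv_rev, cs.inv_simple, mul_assoc]
  have hQdown : ∀ j, Q (j + 1) → Q j := fun j hj => by
    have h1 : w * (a j)⁻¹ = w * (a (j + 1))⁻¹ * cs.simple (if Even j then t else s) := by
      rw [hvs, cs.simple_mul_simple_cancel_right]
    have h2 := cs.length_mul_le (w * (a (j + 1))⁻¹) (cs.simple (if Even j then t else s))
    rw [← h1, cs.length_simple] at h2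
    have h3 := hge j
    simp only [Q] at hj ⊢
    omega
  have hQle : ∀ j k, j ≤ k → Q k → Q j := fun j k hjk hk => by
    induction k, hjk using Nat.le_induction with
    | base => exact hk
    | succ k _ ih => exact ih (hQdown k hk)
  have hQ0 : Q 0 := by simp [Q, a, CoxeterSystem.alternatingWord]
  have hQ1 : Q 1 := by
    have : w * (a 1)⁻¹ = w * cs.simple t := by
      rw [hvs 0]
      simp [a, CoxeterSystem.alternatingWord]
    simp only [Q]
    rw [this]
    exact cs.isRightDescent_iff.1 ht
  set k := Nat.findGreatest Q (cs.length w) with hk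
  have hkQ : Q k := Nat.findGreatest_spec (P := Q) (Nat.zero_le _) hQ0
  have hkmax : ∀ j, k < j → ¬ Q j := fun j hj hQj => by
    have hjl : j ≤ cs.length w := by simp only [Q] at hQj; omega
    exact Nat.findGreatest_is_greatest hj hjl hQj
  have hk1 : 1 ≤ k := by
    by_contra hcon
    exact hkmax 1 (by omega) hQ1
  -- the last removed letter
  have hlast : ¬ cs.IsRightDescent (w * (a k)⁻¹) (if Even (k - 1) then t else s) := by
    intro hd
    have h1 := cs.isRightDescent_iff.1 hd
    obtain ⟨j, hj⟩ : ∃ j, k = j + 1 := ⟨k - 1, by omega⟩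
    have h2 : w * (a k)⁻¹ * cs.simple (if Even (k - 1) then t else s) = w * (a j)⁻¹ := by
      rw [hj, Nat.add_sub_cancel, hvs, cs.simple_mul_simple_cancel_right]
    rw [h2] at h1
    have h3 := hge j
    have h4 := hkQ
    simp only [Q] at h4
    omega
  have hnext : ¬ cs.IsRightDescent (w * (a k)⁻¹) (if Even k then t else s) := by
    intro hd
    have h1 := cs.isRightDescent_iff.1 hd
    apply hkmax (k + 1) (by omega)
    simp only [Q] at hkQ ⊢
    rw [hvs]
    omega
  refine ⟨w * (a k)⁻¹, k, hk1, by simp [a], hkQ, ?_, ?_, ?_⟩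
  · by_cases he : Even k
    · have : ¬ Even (k - 1) := by
        rw [Nat.even_sub hk1]; simp [he]
      simpa [this] using hlast
    · simpa [he] using hnext
  · by_cases he : Even k
    · simpa [he] using hnext
    · have : Even (k - 1) := by
        rw [Nat.even_sub hk1]; simp [he]
      simpa [this] using hlast
  · intro hm0
    by_contra hcon
    push Not at hcon
    have hm := hQle _ _ hcon hkQ
    simp only [Q] at hm
    apply hs
    obtain ⟨m, hmm⟩ : ∃ m, M s t = m + 1 := ⟨M s t - 1, by omega⟩
    have h1 : a (M s t) = cs.wordProd (CoxeterSystem.alternatingWord t s (M s t)) := by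
      have := cs.wordProd_braidWord_eq s t
      simp only [CoxeterSystem.braidWord] at this
      rw [M.symmetric t s] at this
      exact this
    have h2 : cs.wordProd (CoxeterSystem.alternatingWord t s (M s t)) =
        cs.wordProd (CoxeterSystem.alternatingWord s t m) * cs.simple s := by
      rw [hmm, CoxeterSystem.alternatingWord_succ, List.concat_eq_append, cs.wordProd_append]
      simp
    have h3 : w * cs.simple s = w * (a (M s t))⁻¹ *
        cs.wordProd (CoxeterSystem.alternatingWord s t m) := by
      have : w = w * (a (M s t))⁻¹ * (cs.wordProd (CoxeterSystem.alternatingWord s t m) *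
          cs.simple s) := by
        rw [← h2, ← h1, inv_mul_cancel_right]
      conv_lhs => rw [this]
      rw [mul_assoc, mul_assoc _ (cs.simple s), cs.simple_mul_simple_self, mul_one]
    have h4 := cs.length_mul_le (w * (a (M s t))⁻¹)
      (cs.wordProd (CoxeterSystem.alternatingWord s t m))
    rw [← h3] at h4
    have h5 := hla m
    simp only [a] at h5
    show cs.length (w * cs.simple s) < cs.length w
    omega

/-- **Lemma of Tits.** If `w s` is longer than `w` then `w (e s)` is a positive root. -/
theorem rho_mem_cone (h : RootBasis M B e) :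
    ∀ (n : ℕ) (w : W) (s : S), cs.length w ≤ n → ¬ cs.IsRightDescent w s →
      h.rho cs w (e s) ∈ cone e := by
  intro n
  induction n with
  | zero =>
    intro w s hw hs
    have : w = 1 := cs.length_eq_zero_iff.1 (by omega)
    rw [this, rho_one]
    exact mem_cone s
  | succ n ih =>
    intro w s hw hs
    by_cases hw1 : w = 1
    · rw [hw1, rho_one]
      exact mem_cone s
    obtain ⟨t, ht⟩ := cs.exists_rightDescent_of_ne_one hw1
    have hst : s ≠ t := fun hst => hs (hst ▸ ht)
    obtain ⟨v, k, hk1, hwv, hl, hvs, hvt, hkm⟩ := strip cs hs ht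
    have hs' := ih v s (by omega) hvs
    have ht' := ih v t (by omega) hvt
    have hu : 0 ≤ uu (-B (e s) (e t)) (k + 1) ∧ 0 ≤ uu (-B (e s) (e t)) k := by
      by_cases hm0 : M s t = 0
      · have : 1 ≤ -B (e s) (e t) := by
          have := h.inf s t hm0
          linarith
        exact ⟨uu_nonneg_inf this _, uu_nonneg_inf this _⟩
      · have hm1 : M s t ≠ 1 := M.off_diagonal s t hst
        have hlt := hkm hm0
        rw [h.fin s t hm0, neg_neg]
        exact ⟨uu_nonneg_fin (by omega) (by omega), uu_nonneg_fin (by omega) (by omega)⟩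
    rw [hwv, rho_mul, rho_alt]
    split_ifs
    · rw [map_add, map_smul, map_smul]
      exact (cone e).add_mem (cone_smul hu.1 hs') (cone_smul hu.2 ht')
    · rw [map_add, map_smul, map_smul]
      exact (cone e).add_mem (cone_smul hu.1 ht') (cone_smul hu.2 hs')

theorem tits (h : RootBasis M B e) {w : W} {s : S} (hs : ¬ cs.IsRightDescent w s) :
    h.rho cs w (e s) ∈ cone e := h.rho_mem_cone cs _ w s le_rfl hs

theorem tits_neg (h : RootBasis M B e) {w : W} {s : S} (hs : cs.IsRightDescent w s) :
    -h.rho cs w (e s) ∈ cone e := by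
  have h1 : ¬ cs.IsRightDescent (w * cs.simple s) s :=
    cs.isRightDescent_iff_not_isRightDescent_mul.1 hs
  have h2 := h.tits cs h1
  rw [rho_mul, rho_simple, rr_self, map_neg] at h2
  exact h2

/-! ### The fundamental cone -/

/-- the closed fundamental cone -/
def Dom (B : LinearMap.BilinForm ℝ V) (e : S → V) : Set V := {x | ∀ s, B x (e s) ≤ 0}

/-- the open fundamental cone -/
def Int (B : LinearMap.BilinForm ℝ V) (e : S → V) : Set V := {x | ∀ s, B x (e s) < 0}

/-- the walls through a point -/
def walls (B : LinearMap.BilinForm ℝ V) (e : S → V) (x : V) : Set S := {s | B x (e s) = 0}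

theorem Int_subset : Int B e ⊆ Dom B e := fun _ hx s => (hx s).le

theorem Dom_le {x v : V} (hx : x ∈ Dom B e) (hv : v ∈ cone e) : B x v ≤ 0 :=
  cone_le (φ := B x) hx hv

theorem Int_lt {x v : V} (hx : x ∈ Int B e) (hv : v ∈ cone e) (hv0 : v ≠ 0) : B x v < 0 :=
  (cone_lt (φ := B x) hx hv).resolve_left hv0

theorem rho_ne_zero (h : RootBasis M B e) (w : W) (s : S) : h.rho cs w (e s) ≠ 0 := by
  intro h0
  have h1 := h.B_rho cs w (e s) (e s)
  rw [h0, h.self] at h1
  simp at h1

/-- `x` in the closed cone and `w s` longer: `x` is on the negative side of the wall of `w s`. -/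
theorem side_le (h : RootBasis M B e) {w : W} {s : S} {x : V} (hx : x ∈ Dom B e)
    (hs : ¬ cs.IsRightDescent w s) : B x (h.rho cs w (e s)) ≤ 0 :=
  Dom_le hx (h.tits cs hs)

theorem side_ge (h : RootBasis M B e) {w : W} {s : S} {x : V} (hx : x ∈ Dom B e)
    (hs : cs.IsRightDescent w s) : 0 ≤ B x (h.rho cs w (e s)) := by
  have := Dom_le hx (h.tits_neg cs hs)
  rw [map_neg] at this
  linarith

theorem side_lt_iff (h : RootBasis M B e) {w : W} {s : S} {x : V} (hx : x ∈ Int B e) :
    B x (h.rho cs w (e s)) < 0 ↔ ¬ cs.IsRightDescent w s := by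
  constructor
  · intro h1 h2
    exact absurd (h.side_ge cs (Int_subset hx) h2) (not_le.2 h1)
  · intro hs
    exact Int_lt hx (h.tits cs hs) (h.rho_ne_zero cs w s)

theorem side_gt_iff (h : RootBasis M B e) {w : W} {s : S} {x : V} (hx : x ∈ Int B e) :
    0 < B x (h.rho cs w (e s)) ↔ cs.IsRightDescent w s := by
  constructor
  · intro h1
    by_contra h2
    exact absurd (h.side_le cs (Int_subset hx) h2) (not_le.2 h1)
  · intro hs
    have := Int_lt hx (h.tits_neg cs hs) (neg_ne_zero.2 (h.rho_ne_zero cs w s))
    rw [map_neg] at this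
    linarith

/-- the translate `w x` of a point of the closed cone is on the far side of the wall of `s` if
`s` is a left descent of `w` -/
theorem left_ge (h : RootBasis M B e) {w : W} {s : S} {x : V} (hx : x ∈ Dom B e)
    (hs : cs.IsLeftDescent w s) : 0 ≤ B (h.rho cs w x) (e s) := by
  rw [B_rho_left]
  exact h.side_ge cs hx (cs.isRightDescent_inv_iff.2 hs)

theorem left_le (h : RootBasis M B e) {w : W} {s : S} {x : V} (hx : x ∈ Dom B e)
    (hs : ¬ cs.IsLeftDescent w s) : B (h.rho cs w x) (e s) ≤ 0 := by
  rw [B_rho_left]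
  exact h.side_le cs hx (mt cs.isRightDescent_inv_iff.1 hs)

theorem left_gt_iff (h : RootBasis M B e) {w : W} {s : S} {x : V} (hx : x ∈ Int B e) :
    0 < B (h.rho cs w x) (e s) ↔ cs.IsLeftDescent w s := by
  rw [B_rho_left, h.side_gt_iff cs hx, cs.isRightDescent_inv_iff]

theorem left_lt_iff (h : RootBasis M B e) {w : W} {s : S} {x : V} (hx : x ∈ Int B e) :
    B (h.rho cs w x) (e s) < 0 ↔ ¬ cs.IsLeftDescent w s := by
  rw [B_rho_left, h.side_lt_iff cs hx, cs.isRightDescent_inv_iff]

/-- `W_J` -/
def par (cs : CoxeterSystem M W) (J : Set S) : Subgroup W := Subgroup.closure (cs.simple '' J)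

theorem simple_mem_par {J : Set S} {s : S} (hs : s ∈ J) : cs.simple s ∈ par cs J :=
  Subgroup.subset_closure ⟨s, hs, rfl⟩

/-- elements of `W_J` fix every point on the walls of `J` -/
theorem par_fix (h : RootBasis M B e) {x : V} {w : W} (hw : w ∈ par cs (walls B e x)) :
    h.rho cs w x = x := by
  induction hw using Subgroup.closure_induction with
  | mem w hw =>
    obtain ⟨s, hs, rfl⟩ := hw
    have : B (e s) x = 0 := by rw [h.symm]; exact hs
    rw [rho_simple_apply, this]
    simp
  | one => exact h.rho_one cs x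
  | mul a b _ _ ha hb => rw [rho_mul, hb, ha]
  | inv a _ ha =>
    conv_lhs => rw [← ha]
    rw [rho_inv_apply]

/-- **Fundamental domain.** Two points of the closed cone in one orbit are equal, and the group
element lies in the stabiliser `W_(S(x))`. -/
theorem fundamental (h : RootBasis M B e) {x : V} (hx : x ∈ Dom B e) (w : W)
    (hw : h.rho cs w x ∈ Dom B e) : h.rho cs w x = x ∧ w ∈ par cs (walls B e x) := by
  have key : ∀ (n : ℕ) (w : W), cs.length w ≤ n → h.rho cs w x ∈ Dom B e →
      h.rho cs w x = x ∧ w ∈ par cs (walls B e x) := by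
    intro n
    induction n with
    | zero =>
      intro w hn _
      have : w = 1 := cs.length_eq_zero_iff.1 (by omega)
      rw [this]
      exact ⟨h.rho_one cs x, Subgroup.one_mem _⟩
    | succ n ih =>
      intro w hn hw
      by_cases hw1 : w = 1
      · rw [hw1]
        exact ⟨h.rho_one cs x, Subgroup.one_mem _⟩
      obtain ⟨s, hs⟩ := cs.exists_leftDescent_of_ne_one hw1
      have h0 : B (h.rho cs w x) (e s) = 0 := le_antisymm (hw s) (h.left_ge cs hx hs)
      have h1 : h.rho cs (cs.simple s * w) x = h.rho cs w x := by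
        rw [rho_mul, rho_simple_apply, h.symm (e s), h0]
        simp
      have hl := cs.isLeftDescent_iff.1 hs
      obtain ⟨h2, h3⟩ := ih (cs.simple s * w) (by omega) (by rw [h1]; exact hw)
      rw [h1] at h2
      refine ⟨h2, ?_⟩
      rw [h2] at h0
      have : w = cs.simple s * (cs.simple s * w) := by rw [cs.simple_mul_simple_cancel_left]
      rw [this]
      exact Subgroup.mul_mem _ (simple_mem_par cs h0) h3
  exact key _ w le_rfl hw

/-- the translates of the open cone are disjoint -/
theorem eq_one_of_mem (h : RootBasis M B e) {x : V} (hx : x ∈ Int B e) (w : W)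
    (hw : h.rho cs w x ∈ Dom B e) : w = 1 := by
  have h1 := (h.fundamental cs (Int_subset hx) w hw).2
  have h2 : walls B e x = ∅ := by
    ext s
    simp only [walls, Set.mem_ofPred_eq, Set.mem_empty_iff_false, iff_false]
    exact (hx s).ne
  rw [h2] at h1
  simpa [par] using h1

theorem fix_iff (h : RootBasis M B e) {x : V} (hx : x ∈ Dom B e) (w : W) :
    h.rho cs w x = x ↔ w ∈ par cs (walls B e x) :=
  ⟨fun hw => (h.fundamental cs hx w (by rw [hw]; exact hx)).2, fun hw => h.par_fix cs hw⟩

/-- the geometric representation is faithful (if the open cone is not empty) -/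
theorem faithful (h : RootBasis M B e) (hI : (Int B e).Nonempty) :
    Function.Injective (h.rho cs) := by
  obtain ⟨x, hx⟩ := hI
  rw [injective_iff_map_eq_one]
  intro w hw
  refine h.eq_one_of_mem cs hx w ?_
  rw [hw]
  exact Int_subset hx

end RootBasis

end Pool.Agent.Work.MP_de2d29_al
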