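import Pool.Agent.Work.MP_017613_gt.Kit.Defs

/-!
# BUILDING: the abstract pushing lemma

A decreasing sequence of closed sets `K j`, `K j = Q j ∪ K (j+1)`; every map into `Q j` whose
boundary lies in `Q j ∩ K (j+1)` can be pushed into `Q j ∩ K (j+1)`; the drift of all chains of
moves is controlled. Then maps into `K 0` can be pushed to the intersection of the `K j`.
-/

set_option autoImplicit false

open Set Metric Topology Filter

namespace BD

open MG (IsMap)

section Def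

variable {β : Type*}

/-- one move: points of `K (j+1)` stay, points of `Q j` outside `K (j+1)` move to
`Q j ∩ K (j+1)` -/
def Step (K Q : ℕ → Set β) (j : ℕ) (y z : β) : Prop :=
  (y ∈ K (j + 1) ∧ z = y) ∨ (y ∈ Q j ∧ y ∉ K (j + 1) ∧ z ∈ Q j ∧ z ∈ K (j + 1))

/-- a chain of moves -/
def IsChain (K Q : ℕ → Set β) (y : ℕ → β) : Prop := ∀ j, Step K Q j (y j) (y (j + 1))

end Def

variable {α β : Type*} [MetricSpace α] [MetricSpace β]

/-- one step of the pushing construction -/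
theorem push_step {K Q K' : Set β} (hK' : IsClosed K') (hQ : IsClosed Q) (hKQ : K ⊆ Q ∪ K')
    {P : Set α} (cP : IsCompact P)
    (ae : ∀ N A : Set α, IsCompact N → IsClosed A → A ⊆ N → N ⊆ P → ∀ f : α → β,
      IsMap f A (Q ∩ K') → ∃ F : α → β, IsMap F N (Q ∩ K') ∧ EqOn F f A)
    {f : α → β} (hf : IsMap f P K) :
    ∃ g : α → β, IsMap g P K' ∧ ∀ x ∈ P, (f x ∈ K' ∧ g x = f x) ∨
      (f x ∈ Q ∧ f x ∉ K' ∧ g x ∈ Q ∧ g x ∈ K') := by
  have hN : IsClosed (P ∩ f ⁻¹' Q) := hf.cont.preimage_isClosed_of_isClosed cP.isClosed hQ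
  have hL : IsClosed (P ∩ f ⁻¹' K') := hf.cont.preimage_isClosed_of_isClosed cP.isClosed hK'
  have cN : IsCompact (P ∩ f ⁻¹' Q) := cP.of_isClosed_subset hN inter_subset_left
  have hA : IsClosed ((P ∩ f ⁻¹' Q) ∩ (P ∩ f ⁻¹' K')) := hN.inter hL
  obtain ⟨G, hG, hGf⟩ := ae _ _ cN hA inter_subset_left inter_subset_left f
    ⟨hf.cont.mono fun x hx => hx.1.1, fun x hx => ⟨hx.1.2, hx.2.2⟩⟩
  obtain ⟨F, hF, hF1, hF2⟩ := IsMap.glue hN hL (hG.right inter_subset_right)
    (⟨hf.cont.mono inter_subset_left, fun x hx => hx.2⟩ : IsMap f (P ∩ f ⁻¹' K') K')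
    (fun x hx hx' => hGf ⟨hx, hx'⟩)
  have hu : P ∩ f ⁻¹' Q ∪ P ∩ f ⁻¹' K' = P := by
    ext x
    constructor
    · rintro (h | h) <;> exact h.1
    · intro hx
      rcases hKQ (hf.maps hx) with h | h
      · exact Or.inl ⟨hx, h⟩
      · exact Or.inr ⟨hx, h⟩
  rw [hu] at hF
  refine ⟨F, hF, fun x hx => ?_⟩
  by_cases h : f x ∈ K'
  · exact Or.inl ⟨h, hF2 ⟨hx, h⟩⟩
  · have hq : f x ∈ Q := (hKQ (hf.maps hx)).resolve_right h
    refine Or.inr ⟨hq, h, ?_⟩
    rw [hF1 ⟨hx, hq⟩]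
    exact hG.maps ⟨hx, hq⟩

/-- **The abstract pushing lemma.** -/
theorem push_all [CompleteSpace β] {K Q : ℕ → Set β} (hK : ∀ j, IsClosed (K j))
    (hQ : ∀ j, IsClosed (Q j)) (hKQ : ∀ j, K j = Q j ∪ K (j + 1))
    (drift : ∀ ε > 0, ∃ J : ℕ, ∀ y : ℕ → β, y 0 ∈ K 0 → IsChain K Q y → ∀ a ≥ J, ∀ b ≥ a,
      dist (y a) (y b) ≤ ε)
    {P : Set α} (cP : IsCompact P)
    (ae : ∀ j, ∀ N A : Set α, IsCompact N → IsClosed A → A ⊆ N → N ⊆ P → ∀ f : α → β,
      IsMap f A (Q j ∩ K (j + 1)) → ∃ F : α → β, IsMap F N (Q j ∩ K (j + 1)) ∧ EqOn F f A)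
    {F : α → β} (hF : IsMap F P (K 0)) :
    ∃ G : α → β, IsMap G P (⋂ j, K j) ∧ (∀ x ∈ P, (∀ j, F x ∈ K j) → G x = F x) ∧
      ∀ x ∈ P, ∃ y : ℕ → β, y 0 = F x ∧ IsChain K Q y ∧ Tendsto y atTop (𝓝 (G x)) := by
  classical
  -- the sequence of maps
  have hstep : ∀ j, ∀ f : {f : α → β // IsMap f P (K j)}, ∃ g : {f : α → β // IsMap f P (K (j + 1))},
      ∀ x ∈ P, Step K Q j (f.1 x) (g.1 x) := by
    rintro j ⟨f, hf⟩
    obtain ⟨g, hg, hgs⟩ := push_step (hK (j + 1)) (hQ j) (hKQ j).le cP (ae j) hf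
    exact ⟨⟨g, hg⟩, hgs⟩
  choose nxt hnxt using hstep
  let S : (j : ℕ) → {f : α → β // IsMap f P (K j)} := fun j =>
    Nat.rec (motive := fun j => {f : α → β // IsMap f P (K j)}) ⟨F, hF⟩ (fun j f => nxt j f) j
  have hS : ∀ j, S (j + 1) = nxt j (S j) := fun j => rfl
  have hS0 : (S 0).1 = F := rfl
  have hch : ∀ x ∈ P, IsChain K Q fun j => (S j).1 x := fun x hx j => by
    show Step K Q j ((S j).1 x) ((S (j + 1)).1 x)
    rw [hS]
    exact hnxt j (S j) x hx
  -- pointwise limits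
  have hcau : ∀ x ∈ P, CauchySeq fun j => (S j).1 x := by
    intro x hx
    rw [Metric.cauchySeq_iff']
    intro ε hε
    obtain ⟨J, hJ⟩ := drift (ε / 2) (by positivity)
    refine ⟨J, fun b hb => ?_⟩
    rw [dist_comm]
    exact (hJ _ (hF.maps hx) (hch x hx) J le_rfl b hb).trans_lt (by linarith)
  have hlim : ∀ x, ∃ z, x ∈ P → Tendsto (fun j => (S j).1 x) atTop (𝓝 z) := by
    intro x
    by_cases hx : x ∈ P
    · obtain ⟨z, hz⟩ := cauchySeq_tendsto_of_complete (hcau x hx)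
      exact ⟨z, fun _ => hz⟩
    · exact ⟨F x, fun h => absurd h hx⟩
  choose G hG using hlim
  have hunif : ∀ ε > 0, ∃ J : ℕ, ∀ a ≥ J, ∀ x ∈ P, dist ((S a).1 x) (G x) ≤ ε := by
    intro ε hε
    obtain ⟨J, hJ⟩ := drift ε hε
    refine ⟨J, fun a ha x hx => ?_⟩
    refine le_of_tendsto (tendsto_const_nhds.dist (hG x hx)) ?_
    filter_upwards [eventually_ge_atTop a] with b hb
    exact hJ _ (hF.maps hx) (hch x hx) a ha b hb
  refine ⟨G, ⟨?_, ?_⟩, ?_, ?_⟩
  · have hu : TendstoUniformlyOn (fun j => (S j).1) G atTop P := by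
      rw [Metric.tendstoUniformlyOn_iff]
      intro ε hε
      obtain ⟨J, hJ⟩ := hunif (ε / 2) (by positivity)
      filter_upwards [eventually_ge_atTop J] with a ha x hx
      rw [dist_comm]
      exact (hJ a ha x hx).trans_lt (by linarith)
    exact hu.continuousOn (Eventually.frequently (Eventually.of_forall fun j => (S j).2.cont))
  · intro x hx
    rw [mem_iInter]
    intro j
    have hanti : ∀ a b, a ≤ b → K b ⊆ K a := by
      intro a b hab
      induction b, hab using Nat.le_induction with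
      | base => exact le_rfl
      | succ b _ ih => exact (by rw [hKQ b]; exact subset_union_right : K (b + 1) ⊆ K b).trans ih
    refine (hK j).mem_of_tendsto (hG x hx) ?_
    filter_upwards [eventually_ge_atTop j] with b hb
    exact hanti j b hb ((S b).2.maps hx)
  · intro x hx hall
    have hc : ∀ j, (S j).1 x = F x := by
      intro j
      induction j with
      | zero => rfl
      | succ j ih =>
        rcases hch x hx j with ⟨-, h⟩ | ⟨-, h, -⟩
        · exact h.trans ih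
        · exact absurd (show (S j).1 x ∈ K (j + 1) by rw [ih]; exact hall (j + 1)) h
    refine tendsto_nhds_unique (hG x hx) ?_
    simp only [hc]
    exact tendsto_const_nhds
  · exact fun x hx => ⟨fun j => (S j).1 x, rfl, hch x hx, hG x hx⟩

end BD
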