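import Pool.Agent.Work.MP_de2d29_al.APush
import Pool.Agent.Work.MP_017613_gt.RndA
import Pool.Agent.Work.MP_017613_gt.Kit.Eq
import Pool.Agent.Work.MP_017613_gt.Kit.CollarSet

/-!
# BUILDING: consequences of the abstract pushing lemma

`Sys n K Q`: a decreasing sequence of closed subsets of the compact set `K 0` as in `push_all`,
such that the sets `Q j ∩ K (j+1)` are absolute extensors in dimension `≤ n`.
`Rad K0 o H`: a contraction `H` of `K0` to the point `o`.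
The limit `Lim K = ⋂ j, K j` is `ULC n`, `Conn n` and of dimension at most `n`.
-/

set_option autoImplicit false
set_option linter.unusedSectionVars false

open Set Metric Topology Filter

namespace BD

open MG (IsMap Cu dCu)
open Pool.Agent.Work.MP_017613_gt (PushOff)
open Pool.Agent.Work.MP_017613_gt.Rnd (AEk)

variable {α β : Type} [MetricSpace α] [MetricSpace β]

/-- the limit set -/
def Lim (K : ℕ → Set β) : Set β := ⋂ j, K j

/-- a system of sets for the pushing lemma -/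
structure Sys (n : ℕ) (K Q : ℕ → Set β) : Prop where
  cK : IsCompact (K 0)
  clK : ∀ j, IsClosed (K j)
  clQ : ∀ j, IsClosed (Q j)
  un : ∀ j, K j = Q j ∪ K (j + 1)
  ae : ∀ j, AEk n (Q j ∩ K (j + 1))
  off : ∀ j, Disjoint (Q j) (Lim K)
  drift : ∀ ε > 0, ∃ J : ℕ, ∀ y : ℕ → β, y 0 ∈ K 0 → IsChain K Q y → ∀ a ≥ J, ∀ b ≥ a,
    dist (y a) (y b) ≤ ε

variable {n : ℕ} {K Q : ℕ → Set β}

theorem Sys.anti (h : Sys n K Q) {a b : ℕ} (hab : a ≤ b) : K b ⊆ K a := by
  induction b, hab using Nat.le_induction with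
  | base => exact le_rfl
  | succ b _ ih =>
    refine Subset.trans ?_ ih
    rw [h.un b]
    exact subset_union_right

theorem Sys.isClosed (h : Sys n K Q) : IsClosed (Lim K) := isClosed_iInter h.clK

theorem Sys.isCompact (h : Sys n K Q) : IsCompact (Lim K) :=
  h.cK.of_isClosed_subset h.isClosed (iInter_subset _ _)

theorem Lim_subset (j : ℕ) : Lim K ⊆ K j := iInter_subset _ _

/-- pushing to the limit, with control -/
theorem Sys.push_close (h : Sys n K Q) {ε : ℝ} (hε : 0 < ε) :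
    ∃ J : ℕ, ∀ (α : Type) [MetricSpace α] (P : Set α), IsCompact P → PushOff n P →
      ∀ r ≥ J, ∀ F : α → β, IsMap F P (K r) →
      ∃ G : α → β, IsMap G P (Lim K) ∧ (∀ x ∈ P, F x ∈ Lim K → G x = F x) ∧
        ∀ x ∈ P, dist (G x) (F x) ≤ ε := by
  obtain ⟨J, hJ⟩ := h.drift ε hε
  refine ⟨J, fun α _ P cP dP r hr F hF => ?_⟩
  have : CompleteSpace (K 0) := completeSpace_coe_iff_isComplete.2 h.cK.isComplete
  -- work in the complete space `K 0`
  rcases P.eq_empty_or_nonempty with rfl | ⟨x₀, hx₀⟩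
  · exact ⟨F, ⟨continuousOn_empty _, fun x hx => hx.elim⟩, fun x hx => hx.elim,
      fun x hx => hx.elim⟩
  have hF0 : ∀ x ∈ P, F x ∈ K 0 := fun x hx => h.anti (Nat.zero_le r) (hF.maps hx)
  classical
  let K' : ℕ → Set (K 0) := fun j => (↑) ⁻¹' K j
  let Q' : ℕ → Set (K 0) := fun j => (↑) ⁻¹' Q j
  let toK : β → K 0 := fun y => if hy : y ∈ K 0 then ⟨y, hy⟩ else ⟨F x₀, hF0 x₀ hx₀⟩
  have htoK : ∀ y ∈ K 0, (toK y : β) = y := fun y hy => by
    simp only [toK, dif_pos hy]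
  have ctoK : ContinuousOn toK (K 0) := by
    rw [IsInducing.subtypeVal.continuousOn_iff]
    exact continuousOn_id.congr fun y hy => htoK y hy
  have hchain : ∀ y : ℕ → K 0, IsChain K' Q' y → IsChain K Q fun j => (y j : β) := by
    intro y hy j
    rcases hy j with ⟨h1, h2⟩ | ⟨h1, h2, h3, h4⟩
    · exact Or.inl ⟨h1, congrArg Subtype.val h2⟩
    · exact Or.inr ⟨h1, h2, h3, h4⟩
  have ae' : ∀ j, ∀ N A : Set α, IsCompact N → IsClosed A → A ⊆ N → N ⊆ P → ∀ f : α → K 0,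
      IsMap f A (Q' j ∩ K' (j + 1)) → ∃ F : α → K 0, IsMap F N (Q' j ∩ K' (j + 1)) ∧
        EqOn F f A := fun j N A cN cA hAN hNP f hf => by
    obtain ⟨g, hg1, hg2, hg3⟩ := (h.ae j).2 α N A ⟨cN, dP.mono cN hNP, cA, hAN⟩
      (fun x => (f x : β)) (continuous_subtype_val.comp_continuousOn hf.cont)
      (fun x hx => hf.maps hx)
    have hg0 : ∀ x ∈ N, g x ∈ K 0 := fun x hx => h.anti (Nat.zero_le _) (hg2 hx).2
    refine ⟨fun x => toK (g x), ⟨ctoK.comp hg1 hg0, fun x hx => ?_⟩, fun x hx => ?_⟩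
    · show (toK (g x) : β) ∈ Q j ∩ K (j + 1)
      rw [htoK _ (hg0 x hx)]
      exact hg2 hx
    · refine Subtype.ext ?_
      rw [htoK _ (hg0 x (hAN hx))]
      exact hg3 hx
  obtain ⟨G, hG, hG1, hG2⟩ := push_all (K := K') (Q := Q')
    (fun j => (h.clK j).preimage continuous_subtype_val)
    (fun j => (h.clQ j).preimage continuous_subtype_val)
    (fun j => by simp only [K', Q', ← preimage_union, ← h.un j])
    (fun e he => by
      obtain ⟨J', hJ'⟩ := h.drift e he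
      exact ⟨J', fun y _ hy a ha b hb => hJ' _ (y 0).2 (hchain y hy) a ha b hb⟩)
    cP
    ae'
    (F := fun x => toK (F x))
    ⟨ctoK.comp hF.cont hF0, fun x hx => by
      show (toK (F x) : β) ∈ K 0
      rw [htoK _ (hF0 x hx)]
      exact hF0 x hx⟩
  have hlim : ∀ y : K 0, y ∈ ⋂ j, K' j ↔ (y : β) ∈ Lim K := fun y => by
    rw [mem_iInter, Lim, mem_iInter]
    exact Iff.rfl
  refine ⟨fun x => (G x : β), ⟨continuous_subtype_val.comp_continuousOn hG.cont,
    fun x hx => (hlim _).1 (hG.maps hx)⟩, fun x hx hxL => ?_, fun x hx => ?_⟩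
  · have h1 := hG1 x hx fun j => by
      show (toK (F x) : β) ∈ K j
      rw [htoK _ (hF0 x hx)]
      exact Lim_subset j hxL
    show (G x : β) = F x
    rw [h1, htoK _ (hF0 x hx)]
  · obtain ⟨y, hy0, hy, hyl⟩ := hG2 x hx
    have hc := hchain y hy
    have hy0' : (y 0 : β) = F x := by rw [hy0]; exact htoK _ (hF0 x hx)
    -- the chain is constant up to `r`
    have hconst : ∀ j ≤ r, (y j : β) = F x := by
      intro j
      induction j with
      | zero => exact fun _ => hy0'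
      | succ j ih =>
        intro hj
        have h1 := ih (by omega)
        rcases hc j with ⟨-, h2⟩ | ⟨-, h2, -⟩
        · exact h2.trans h1
        · refine absurd ?_ h2
          show (y j : β) ∈ K (j + 1)
          rw [h1]
          exact h.anti hj (hF.maps hx)
    have h2 : Tendsto (fun j => dist (y j : β) (F x)) atTop (𝓝 (dist (G x : β) (F x))) :=
      ((continuous_subtype_val.tendsto _).comp hyl).dist tendsto_const_nhds
    refine le_of_tendsto h2 ?_
    filter_upwards [eventually_ge_atTop r] with b hb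
    rw [← hconst r le_rfl, dist_comm]
    exact hJ _ (y 0).2 hc r hr b hb

/-- pushing to the limit -/
theorem Sys.push (h : Sys n K Q) {P : Set α} (cP : IsCompact P) (dP : PushOff n P) {F : α → β}
    (hF : IsMap F P (K 0)) :
    ∃ G : α → β, IsMap G P (Lim K) ∧ ∀ x ∈ P, F x ∈ Lim K → G x = F x := by
  rcases P.eq_empty_or_nonempty with rfl | hP
  · exact ⟨F, ⟨continuousOn_empty _, fun x hx => hx.elim⟩, fun x hx => hx.elim⟩
  -- push step by step to the level of `push_close`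
  obtain ⟨J, hJ⟩ := h.push_close one_pos
  have key : ∀ r : ℕ, ∃ G : α → β, IsMap G P (K r) ∧ ∀ x ∈ P, F x ∈ Lim K → G x = F x := by
    intro r
    induction r with
    | zero => exact ⟨F, hF, fun _ _ _ => rfl⟩
    | succ r ih =>
      obtain ⟨G, hG, hG1⟩ := ih
      obtain ⟨g, hg, hg1⟩ := push_step (h.clK (r + 1)) (h.clQ r) (h.un r).le cP
        (fun N A cN cA hAN hNP f hf => by
          obtain ⟨g, hg1, hg2, hg3⟩ := (h.ae r).2 α N A ⟨cN, dP.mono cN hNP, cA, hAN⟩ f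
            hf.cont hf.maps
          exact ⟨g, ⟨hg1, hg2⟩, hg3⟩) hG
      refine ⟨g, hg, fun x hx hxL => ?_⟩
      rcases hg1 x hx with ⟨-, h1⟩ | ⟨-, h1, -⟩
      · rw [h1, hG1 x hx hxL]
      · refine absurd ?_ h1
        rw [hG1 x hx hxL]
        exact Lim_subset _ hxL
  obtain ⟨G, hG, hG1⟩ := key J
  obtain ⟨G', hG', hG1', -⟩ := hJ α P cP dP J le_rfl G hG
  refine ⟨G', hG', fun x hx hxL => ?_⟩
  have h1 := hG1 x hx hxL
  rw [hG1' x hx (by rw [h1]; exact hxL), h1]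

/-- `K r` is a neighbourhood of the limit in `K 0` -/
theorem Sys.nhd (h : Sys n K Q) (r : ℕ) :
    ∃ δ > 0, ∀ y ∈ K 0, ∀ z ∈ Lim K, dist y z < δ → y ∈ K r := by
  induction r with
  | zero => exact ⟨1, one_pos, fun y hy _ _ _ => hy⟩
  | succ r ih =>
    obtain ⟨δ, hδ, H⟩ := ih
    have cQ : IsCompact (Q r) := h.cK.of_isClosed_subset (h.clQ r)
      ((by rw [h.un r]; exact subset_union_left : Q r ⊆ K r).trans (h.anti (Nat.zero_le r)))
    obtain ⟨δ', hδ', H'⟩ := (h.off r).exists_thickenings cQ h.isClosed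
    refine ⟨min δ δ', lt_min hδ hδ', fun y hy z hz hd => ?_⟩
    have h1 := H y hy z hz (hd.trans_le (min_le_left _ _))
    rw [h.un r] at h1
    rcases h1 with h1 | h1
    · exact (Set.disjoint_left.1 H' (self_subset_thickening hδ' _ h1) (mem_thickening_iff.2
        ⟨z, hz, hd.trans_le (min_le_right _ _)⟩)).elim
    · exact h1

/-- a contraction of `K0` to `o` -/
structure Rad (K0 : Set β) (o : β) (H : ℝ × β → β) : Prop where
  cont : ContinuousOn H (Icc (0 : ℝ) 1 ×ˢ K0)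
  maps : MapsTo H (Icc (0 : ℝ) 1 ×ˢ K0) K0
  zero : ∀ y ∈ K0, H (0, y) = o
  one : ∀ y ∈ K0, H (1, y) = y

variable {K0 : Set β} {o : β} {H : ℝ × β → β}

theorem Rad.mem (h : Rad K0 o H) (hne : K0.Nonempty) : o ∈ K0 := by
  obtain ⟨y, hy⟩ := hne
  rw [← h.zero y hy]
  exact h.maps ⟨⟨le_rfl, zero_le_one⟩, hy⟩

/-- the homotopy is small near `t = 1` -/
theorem Rad.small (h : Rad K0 o H) (cK : IsCompact K0) {ε : ℝ} (hε : 0 < ε) :
    ∃ t : ℝ, 0 ≤ t ∧ t < 1 ∧ ∀ u ∈ Icc t 1, ∀ y ∈ K0, dist (H (u, y)) y < ε := by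
  obtain ⟨δ, hδ, hu⟩ := Metric.uniformContinuousOn_iff.1
    ((isCompact_Icc.prod cK).uniformContinuousOn_of_continuous h.cont) ε hε
  refine ⟨max 0 (1 - δ / 2), le_max_left _ _, max_lt one_pos (by linarith), fun u hut y hy => ?_⟩
  have hu1 : u ∈ Icc (0 : ℝ) 1 := ⟨(le_max_left _ _).trans hut.1, hut.2⟩
  have h1 := hu (u, y) ⟨hu1, hy⟩ (1, y) ⟨⟨zero_le_one, le_rfl⟩, hy⟩ (by
    rw [Prod.dist_eq, dist_self]
    refine max_lt ?_ hδ
    show dist u 1 < δ
    rw [Real.dist_eq, abs_sub_comm, abs_of_nonneg (by linarith [hut.2])]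
    have := (le_max_right 0 (1 - δ / 2)).trans hut.1
    linarith)
  rwa [h.one y hy] at h1

/-- a contractible set is `Conn n` -/
theorem Rad.conn (h : Rad K0 o H) (hne : K0.Nonempty) (n : ℕ) : MG.Conn n K0 := by
  intro j _ a ha
  obtain ⟨F, hF, hF0, -⟩ := MG.collar (T := K0) (G := fun _ => o)
    (H := fun q => H (1 - q.2, a q.1)) (IsMap.const (h.mem hne))
    ⟨h.cont.comp ((continuousOn_const.sub continuousOn_snd).prodMk
      (ha.cont.comp continuousOn_fst fun q hq => hq.1)) fun q hq =>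
        ⟨⟨by linarith [hq.2.2], by linarith [hq.2.1]⟩, ha.maps hq.1⟩,
      fun q hq => h.maps ⟨⟨by linarith [hq.2.2], by linarith [hq.2.1]⟩, ha.maps hq.1⟩⟩
    (fun x hx => by
      show H (1 - 1, a x) = o
      rw [sub_self]
      exact h.zero _ (ha.maps hx)) one_pos
  refine ⟨F, hF, fun x hx => ?_⟩
  rw [hF0 x hx]
  show H (1 - 0, a x) = a x
  rw [sub_zero]
  exact h.one _ (ha.maps hx)

/-- if the stages `H (t, K0)`, `t < 1`, lie in `ULC n` subsets, then `K0` is `ULC n` -/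
theorem Rad.ulc (h : Rad K0 o H) (cK : IsCompact K0) {n : ℕ}
    (loc : ∀ t : ℝ, 0 ≤ t → t < 1 → ∃ C : Set β, MG.ULC n C ∧ C ⊆ K0 ∧ ∀ y ∈ K0, H (t, y) ∈ C) :
    MG.ULC n K0 := by
  intro ε hε
  obtain ⟨t, ht0, ht1, hsm⟩ := h.small cK (show (0 : ℝ) < ε / 4 by positivity)
  obtain ⟨C, uC, hCK, hC⟩ := loc t ht0 ht1
  obtain ⟨δ₁, hδ₁, hU⟩ := uC (ε / 4) (by positivity)
  have htI : t ∈ Icc (0 : ℝ) 1 := ⟨ht0, ht1.le⟩
  have huc : UniformContinuousOn (fun y => H (t, y)) K0 :=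
    cK.uniformContinuousOn_of_continuous
      (h.cont.comp (continuousOn_const.prodMk continuousOn_id) fun y hy => ⟨htI, hy⟩)
  obtain ⟨δ₂, hδ₂, hu⟩ := Metric.uniformContinuousOn_iff.1 huc δ₁ hδ₁
  refine ⟨min δ₂ (ε / 4), lt_min hδ₂ (by positivity), fun j hj y hy a ha had => ?_⟩
  have ha' : IsMap (fun x => H (t, a x)) (dCu j) C :=
    ⟨h.cont.comp (continuousOn_const.prodMk ha.cont) fun x hx => ⟨htI, ha.maps hx⟩,
      fun x hx => hC _ (ha.maps hx)⟩
  obtain ⟨F', hF', hF'e, hF'd⟩ := hU j hj (H (t, y)) (hC y hy) _ ha'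
    fun x hx => hu _ (ha.maps hx) _ hy ((had x hx).trans_le (min_le_left _ _))
  have hτ : ∀ s ∈ Icc (0 : ℝ) 1, 1 - s * (1 - t) ∈ Icc t 1 := fun s hs => by
    constructor
    · nlinarith [hs.1, hs.2, ht1]
    · nlinarith [hs.1, hs.2, ht1]
  have hτ' : ∀ s ∈ Icc (0 : ℝ) 1, 1 - s * (1 - t) ∈ Icc (0 : ℝ) 1 := fun s hs =>
    ⟨ht0.trans (hτ s hs).1, (hτ s hs).2⟩
  obtain ⟨F, hF, hF0, hFv⟩ := MG.collar (T := K0) (G := F')
    (H := fun q => H (1 - q.2 * (1 - t), a q.1)) (hF'.right hCK)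
    ⟨h.cont.comp ((continuousOn_const.sub (continuousOn_snd.mul continuousOn_const)).prodMk
      (ha.cont.comp continuousOn_fst fun q hq => hq.1)) fun q hq => ⟨hτ' _ hq.2, ha.maps hq.1⟩,
      fun q hq => h.maps ⟨hτ' _ hq.2, ha.maps hq.1⟩⟩
    (fun x hx => by
      show H (1 - 1 * (1 - t), a x) = F' x
      rw [hF'e hx, one_mul, sub_sub_cancel]) one_pos
  refine ⟨F, hF, fun x hx => ?_, fun x hx => ?_⟩
  · rw [hF0 x hx]
    show H (1 - 0 * (1 - t), a x) = a x
    rw [zero_mul, sub_zero]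
    exact h.one _ (ha.maps hx)
  · show dist (F x) y < ε
    rcases hFv x hx with ⟨x', hx', s, hs, he, -⟩ | ⟨x', hx', he, -⟩
    · rw [he]
      have h1 := hsm _ (hτ s hs) _ (ha.maps hx')
      have h2 : dist (a x') y < ε / 4 := (had x' hx').trans_le (min_le_right _ _)
      have h3 := dist_triangle (H (1 - s * (1 - t), a x')) (a x') y
      show dist (H (1 - s * (1 - t), a x')) y < ε
      linarith
    · rw [he]
      have h1 : dist (F' x') (H (t, y)) < ε / 4 := hF'd x' hx'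
      have h2 := hsm t ⟨le_rfl, ht1.le⟩ y hy
      have h3 := dist_triangle (F' x') (H (t, y)) y
      linarith

/-- the limit is `Conn n` -/
theorem Sys.conn (h : Sys n K Q) (hR : Rad (K 0) o H) (hne : (K 0).Nonempty) :
    MG.Conn n (Lim K) := by
  intro j hj a ha
  obtain ⟨F, hF, hFe⟩ := hR.conn hne n j hj a (ha.right (Lim_subset 0))
  obtain ⟨G, hG, hG1⟩ := h.push (MG.isCompact_Cu j) (MG.pushOff_Cu hj) hF
  refine ⟨G, hG, fun x hx => ?_⟩
  have h1 := hFe hx
  rw [hG1 x (MG.dCu_subset j hx) (by rw [h1]; exact ha.maps hx), h1]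

/-- the limit is `ULC n` -/
theorem Sys.ulc (h : Sys n K Q) (u0 : MG.ULC n (K 0)) : MG.ULC n (Lim K) := by
  intro ε hε
  obtain ⟨J, hJ⟩ := h.push_close (show (0 : ℝ) < ε / 2 by positivity)
  obtain ⟨δ₀, hδ₀, hn⟩ := h.nhd J
  obtain ⟨δ, hδ, hU⟩ := u0 (min δ₀ (ε / 2)) (by positivity)
  refine ⟨δ, hδ, fun j hj y hy a ha had => ?_⟩
  obtain ⟨F, hF, hFe, hFd⟩ := hU j hj y (Lim_subset 0 hy) a (ha.right (Lim_subset 0)) had
  have hFJ : IsMap F (Cu j) (K J) := ⟨hF.cont, fun x hx =>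
    hn _ (hF.maps hx) y hy ((hFd x hx).trans_le (min_le_left _ _))⟩
  obtain ⟨G, hG, hG1, hGd⟩ := hJ _ (Cu j) (MG.isCompact_Cu j) (MG.pushOff_Cu hj) J le_rfl F hFJ
  refine ⟨G, hG, fun x hx => ?_, fun x hx => ?_⟩
  · have h1 := hFe hx
    rw [hG1 x (MG.dCu_subset j hx) (by rw [h1]; exact ha.maps hx), h1]
  · have h1 := hGd x hx
    have h2 : dist (F x) y < ε / 2 := (hFd x hx).trans_le (min_le_right _ _)
    have h3 := dist_triangle (G x) (F x) y
    show dist (G x) y < ε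
    linarith

/-- the limit has dimension at most `n`, if it is mapped by the stages `H (t, ·)` into such sets -/
theorem Sys.pushOff (h : Sys n K Q) (hR : Rad (K 0) o H)
    (dim : ∀ t : ℝ, 0 ≤ t → t < 1 → ∃ S : Set β, PushOff n S ∧ ∀ y ∈ Lim K, H (t, y) ∈ S) :
    PushOff n (Lim K) := by
  refine PushOff.of_maps h.isCompact fun ε hε => ?_
  obtain ⟨t, ht0, ht1, hsm⟩ := hR.small h.cK hε
  obtain ⟨S, hS, hSm⟩ := dim t ht0 ht1
  refine ⟨S, fun y => H (t, y), hS, ?_, hSm, fun y hy => hsm t ⟨le_rfl, ht1.le⟩ y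
    (Lim_subset 0 hy)⟩
  exact hR.cont.comp (continuousOn_const.prodMk continuousOn_id)
    fun y hy => ⟨⟨ht0, ht1.le⟩, Lim_subset 0 hy⟩

end BD
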