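import Pool.Agent.Work.MP_de2d29_al.Geo

/-!
Andreev's lemma: in a compact polytope whose adjacent facets make angles at most `π / 2`, the
hyperplanes of two non-adjacent facets are disjoint.  Hence `IsCoxeterPolytope` gives `CoxPoly`.
-/

set_option autoImplicit false

open Set Filter Topology

namespace BD

variable {d : ℕ} {ι : Type}

/-- future time-like vectors -/
def Tim (d : ℕ) : Set (Mink d) := {x | lor x x < 0 ∧ 0 < x 0}

theorem Tim.of_hyp {x : Mink d} (hx : x ∈ Hyp d) : x ∈ Tim d :=
  ⟨by rw [hx.1]; norm_num, hx.2⟩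

theorem Tim.smul {x : Mink d} {c : ℝ} (hc : 0 < c) (hx : x ∈ Tim d) : c • x ∈ Tim d := by
  refine ⟨?_, ?_⟩
  · rw [lor_smul_left, lor_smul_right, ← mul_assoc]
    exact mul_neg_of_pos_of_neg (mul_pos hc hc) hx.1
  · simp only [Pi.smul_apply, smul_eq_mul]
    exact mul_pos hc hx.2

theorem Tim.hyp {x : Mink d} (hx : x ∈ Tim d) : ∃ c : ℝ, 0 < c ∧ c • x ∈ Hyp d := by
  have h := hx.1
  set c := Real.sqrt (-lor x x) with hc'
  have hc : 0 < c := Real.sqrt_pos.2 (by linarith)
  have h2 : c * c = -lor x x := Real.mul_self_sqrt (by linarith)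
  refine ⟨c⁻¹, inv_pos.2 hc, ?_, ?_⟩
  · rw [lor_smul_left, lor_smul_right, show lor x x = -(c * c) by linarith]
    field_simp
  · simp only [Pi.smul_apply, smul_eq_mul]
    exact mul_pos (inv_pos.2 hc) hx.2

theorem Tim.lor_neg {x y : Mink d} (hx : x ∈ Tim d) (hy : y ∈ Tim d) : lor x y < 0 := by
  obtain ⟨a, ha, ha'⟩ := Tim.hyp hx
  obtain ⟨b, hb, hb'⟩ := Tim.hyp hy
  have h := one_le_neg_lor ha' hb'
  rw [lor_smul_left, lor_smul_right] at h
  have h2 : a * (b * lor x y) < 0 := by linarith
  by_contra h3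
  push Not at h3
  have : 0 ≤ a * (b * lor x y) := mul_nonneg ha.le (mul_nonneg hb.le h3)
  linarith

theorem Tim.add {x y : Mink d} (hx : x ∈ Tim d) (hy : y ∈ Tim d) : x + y ∈ Tim d := by
  have h := Tim.lor_neg hx hy
  refine ⟨?_, ?_⟩
  · rw [lor_add_left, lor_add_right, lor_add_right, lor_symm y x]
    have := hx.1
    have := hy.1
    linarith
  · simp only [Pi.add_apply]
    exact add_pos hx.2 hy.2

theorem Tim.of_lor {x y : Mink d} (hx : x ∈ Tim d) (hy : lor y y < 0) (h : lor x y < 0) :
    y ∈ Tim d := by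
  refine ⟨hy, ?_⟩
  by_contra h0
  push Not at h0
  rcases h0.eq_or_lt with h1 | h1
  · unfold lor at hy
    rw [h1] at hy
    have : 0 ≤ ∑ i : Fin d, y i.succ * y i.succ := Finset.sum_nonneg fun i _ => mul_self_nonneg _
    linarith
  · have h2 : -y ∈ Tim d := by
      refine ⟨?_, by simpa using h1⟩
      rw [lor_neg_left, lor_symm, lor_neg_left]
      linarith
    have h3 := Tim.lor_neg hx h2
    rw [lor_symm, lor_neg_left, lor_symm y x] at h3
    linarith

theorem isOpen_tim : IsOpen (Tim d) := by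
  have h1 : Continuous fun x : Mink d => lor x x :=
    continuous_lor.comp (continuous_id.prodMk continuous_id)
  have h2 : Continuous fun x : Mink d => x 0 := continuous_apply 0
  exact (isOpen_lt h1 continuous_const).inter (isOpen_lt continuous_const h2)

theorem adj_of_tim {e : ι → Mink d} {i j : ι} (hij : i ≠ j) {z : Mink d} (hz : z ∈ Tim d)
    (hi : lor z (e i) = 0) (hj : lor z (e j) = 0) (h : ∀ k, k ≠ i → k ≠ j → lor z (e k) < 0) :
    AdjFacets e i j := by
  obtain ⟨c, hc, hc'⟩ := Tim.hyp hz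
  refine ⟨hij, c • z, hc', ?_, ?_, fun k h1 h2 => ?_⟩
  · rw [lor_smul_left, hi, mul_zero]
  · rw [lor_smul_left, hj, mul_zero]
  · rw [lor_smul_left]
    exact mul_neg_of_pos_of_neg hc (h k h1 h2)

variable {M : CoxeterMatrix ι} {e : ι → Mink d}

namespace IsCoxeterPolytope

variable [Finite ι] (hP : IsCoxeterPolytope M e)

include hP

/-- a facet is cut out of its hyperplane by the adjacent facets -/
theorem exit {i : ι} {y : Mink d} (hy : y ∈ Tim d) (hyi : lor y (e i) = 0)
    (hadj : ∀ k, AdjFacets e i k → lor y (e k) ≤ 0) (k : ι) : lor y (e k) ≤ 0 := by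
  classical
  by_contra hcon
  push Not at hcon
  obtain ⟨x0, hx0, hx0i, hx0k⟩ := hP.facet i
  let J := {p : ι × ι // p.1 ≠ i ∧ p.2 ≠ i ∧ p.1 ≠ p.2 ∧ 0 < lor y (e p.1) ∧ 0 < lor y (e p.2)}
  let F : J → (Mink d →ₗ[ℝ] ℝ) := fun p =>
    lorL (lor y (e p.1.2) • e p.1.1 - lor y (e p.1.1) • e p.1.2)
  have hF : ∀ p : J, ∃ v ∈ (LinearMap.ker (lorL (e i)) : Submodule ℝ (Mink d)), F p v ≠ 0 := by
    rintro ⟨⟨k, l⟩, hk, hl, hkl, hbk, hbl⟩
    by_contra hc
    push Not at hc
    simp only at hk hl hkl hbk hbl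
    have key : ∀ x : Mink d, lor x (lor y (e l) • e k - lor y (e k) • e l) =
        lor x (e i) * lor (e i) (lor y (e l) • e k - lor y (e k) • e l) := by
      intro x
      have h1 := hc (x - lor x (e i) • e i) (by
        change lor (x - lor x (e i) • e i) (e i) = 0
        rw [lor_sub_left, lor_smul_left, hP.unit]
        ring)
      change lor (x - lor x (e i) • e i) (lor y (e l) • e k - lor y (e k) • e l) = 0 at h1
      rw [lor_sub_left, lor_smul_left] at h1
      linarith
    set g := lor (e i) (lor y (e l) • e k - lor y (e k) • e l) with hg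
    obtain ⟨xk, hxk, hxkk, hxk'⟩ := hP.facet k
    obtain ⟨xl, hxl, hxll, hxl'⟩ := hP.facet l
    have h1 := key xk
    have h2 := key xl
    rw [lor_sub_right, lor_smul_right, lor_smul_right, hxkk] at h1
    rw [lor_sub_right, lor_smul_right, lor_smul_right, hxll] at h2
    have h3 := hxk' l hkl.symm
    have h4 := hxk' i (Ne.symm hk)
    have h5 := hxl' k hkl
    have h6 := hxl' i (Ne.symm hl)
    have h7 : 0 < lor xk (e i) * g := by
      rw [← h1]
      have := mul_neg_of_pos_of_neg hbk h3
      linarith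
    have h8 : lor xl (e i) * g < 0 := by
      rw [← h2]
      have := mul_neg_of_pos_of_neg hbl h5
      linarith
    have h9 : g < 0 := by
      by_contra hh
      push Not at hh
      have := mul_nonpos_of_nonpos_of_nonneg h4.le hh
      linarith
    have := mul_pos_of_neg_of_neg h6 h9
    linarith
  obtain ⟨w, hw, hw'⟩ := Module.Dual.exists_forall_mem_ne_zero_of_forall_exists
    (LinearMap.ker (lorL (e i)) : Submodule ℝ (Mink d)) F hF
  have hwi : lor w (e i) = 0 := hw
  -- a generic point of the facet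
  have hcont : ∀ v : Mink d, Continuous fun ε : ℝ => lor (x0 + ε • w) v := by
    intro v
    have h1 : (fun ε : ℝ => lor (x0 + ε • w) v) = fun ε => lor x0 v + ε * lor w v := by
      funext ε
      rw [lor_add_left, lor_smul_left]
    rw [h1]
    fun_prop
  have ev1 : ∀ᶠ ε in 𝓝[>] (0 : ℝ), x0 + ε • w ∈ Tim d := by
    have h1 : Continuous fun ε : ℝ => x0 + ε • w := by fun_prop
    have h2 := (isOpen_tim.preimage h1).mem_nhds (x := 0) (by
      change x0 + (0 : ℝ) • w ∈ Tim d
      rw [zero_smul, add_zero]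
      exact Tim.of_hyp hx0)
    exact nhdsWithin_le_nhds h2
  have ev2 : ∀ᶠ ε in 𝓝[>] (0 : ℝ), ∀ k, k ≠ i → lor (x0 + ε • w) (e k) < 0 := by
    refine eventually_all.2 fun k => ?_
    by_cases hk : k = i
    · exact Eventually.of_forall fun ε h => absurd hk h
    · have h2 := (isOpen_Iio.preimage (hcont (e k))).mem_nhds (x := 0) (by
        change lor (x0 + (0 : ℝ) • w) (e k) < 0
        rw [zero_smul, add_zero]
        exact hx0k k hk)
      filter_upwards [nhdsWithin_le_nhds h2] with ε h _ using h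
  have ev3 : ∀ᶠ ε in 𝓝[>] (0 : ℝ), ∀ p : J, F p (x0 + ε • w) ≠ 0 := by
    refine eventually_all.2 fun p => ?_
    by_cases h0 : F p x0 = 0
    · filter_upwards [self_mem_nhdsWithin] with ε hε
      rw [map_add, map_smul, h0, zero_add, smul_eq_mul]
      exact mul_ne_zero (ne_of_gt hε) (hw' p)
    · have h1 : Continuous fun ε : ℝ => F p (x0 + ε • w) := hcont _
      have h2 := (isOpen_ne.preimage h1).mem_nhds (x := 0) (by
        change F p (x0 + (0 : ℝ) • w) ≠ 0
        rw [zero_smul, add_zero]
        exact h0)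
      exact nhdsWithin_le_nhds h2
  obtain ⟨ε, ⟨hxT, hxk⟩, hxg⟩ := ((ev1.and ev2).and ev3).exists
  set x := x0 + ε • w with hx
  have hxi : lor x (e i) = 0 := by rw [hx, lor_add_left, lor_smul_left, hx0i, hwi]; ring
  -- the exit
  obtain ⟨m, hm, hmin⟩ := Set.exists_min_image {k | 0 < lor y (e k)}
    (fun k => -lor x (e k) / lor y (e k)) (Set.toFinite _) ⟨k, hcon⟩
  simp only [mem_setOf_eq] at hm hmin
  have hmi : m ≠ i := by
    rintro rfl
    rw [hyi] at hm
    exact lt_irrefl _ hm
  have ham := hxk m hmi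
  have hz : lor y (e m) • x + (-lor x (e m)) • y ∈ Tim d :=
    Tim.add (Tim.smul hm hxT) (Tim.smul (by linarith) hy)
  have hadj' : AdjFacets e i m := by
    refine adj_of_tim hmi.symm hz ?_ ?_ fun l hl hlm => ?_
    · rw [lor_add_left, lor_smul_left, lor_smul_left, hxi, hyi]
      ring
    · rw [lor_add_left, lor_smul_left, lor_smul_left]
      ring
    · rw [lor_add_left, lor_smul_left, lor_smul_left]
      have hal := hxk l hl
      rcases le_or_gt (lor y (e l)) 0 with hb | hb
      · have h1 := mul_neg_of_pos_of_neg hm hal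
        have h2 : -lor x (e m) * lor y (e l) ≤ 0 :=
          mul_nonpos_of_nonneg_of_nonpos (by linarith) hb
        linarith
      · have h1 := hmin l hb
        rw [div_le_div_iff₀ hm hb] at h1
        have h2 := hxg ⟨(m, l), hmi, hl, hlm.symm, hm, hb⟩
        change lor x (lor y (e l) • e m - lor y (e m) • e l) ≠ 0 at h2
        rw [lor_sub_right, lor_smul_right, lor_smul_right] at h2
        have h3 : lor y (e m) * lor x (e l) + -lor x (e m) * lor y (e l) ≠ 0 := by
          intro h4
          apply h2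
          linarith
        refine lt_of_le_of_ne ?_ h3
        linarith
  exact absurd (hadj m hadj') (not_le.2 hm)

theorem angle_nonpos {i j : ι} (h : AdjFacets e i j) : lor (e i) (e j) ≤ 0 := by
  obtain ⟨h0, h1⟩ := hP.angle i j h
  rw [h1]
  have h2 : (2 : ℝ) ≤ M i j := by
    have h3 : M i j ≠ 1 := M.off_diagonal i j h.1
    have : 2 ≤ M i j := by omega
    exact_mod_cast this
  have h3 : 0 ≤ Real.cos (Real.pi / M i j) := by
    refine Real.cos_nonneg_of_neg_pi_div_two_le_of_le ?_ ?_
    · have : 0 ≤ Real.pi / M i j := by positivity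
      have := Real.pi_pos
      linarith
    · exact div_le_div_of_nonneg_left Real.pi_pos.le (by norm_num) h2
  linarith

/-- the polytope is projected into itself -/
theorem proj {x : Mink d} (hx : x ∈ Tim d) (hx' : ∀ k, lor x (e k) ≤ 0) (i k : ι) :
    lor (x - lor x (e i) • e i) (e k) ≤ 0 := by
  have h0 : lor (x - lor x (e i) • e i) (e i) = 0 := by
    rw [lor_sub_left, lor_smul_left, hP.unit]
    ring
  refine hP.exit (i := i) ?_ h0 (fun l hl => ?_) k
  · refine Tim.of_lor hx ?_ ?_
    · rw [lor_sub_left, lor_sub_right, lor_sub_right, lor_smul_left, lor_smul_right, lor_smul_left,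
        lor_smul_right, hP.unit, lor_symm (e i) x]
      nlinarith [hx.1, sq_nonneg (lor x (e i))]
    · rw [lor_sub_right, lor_smul_right]
      nlinarith [hx.1, sq_nonneg (lor x (e i))]
  · rw [lor_sub_left, lor_smul_left]
    have h1 := hP.angle_nonpos hl
    have h2 : 0 ≤ lor x (e i) * lor (e i) (e l) := mul_nonneg_of_nonpos_of_nonpos (hx' i) h1
    linarith [hx' l]

theorem gram_nonpos {i j : ι} (hij : i ≠ j) : lor (e i) (e j) ≤ 0 := by
  obtain ⟨x, hx, hxj, hxk⟩ := hP.facet j
  have h1 := hP.proj (Tim.of_hyp hx) (fun k => by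
    by_cases hk : k = j
    · rw [hk, hxj]
    · exact (hxk k hk).le) i j
  rw [lor_sub_left, lor_smul_left, hxj] at h1
  have h2 := hxk i hij
  by_contra hc
  push Not at hc
  have := mul_neg_of_neg_of_pos h2 hc
  linarith

theorem adj_of_gt {i j : ι} (hij : i ≠ j) (h : -1 < lor (e i) (e j)) : AdjFacets e i j := by
  obtain ⟨x, hx, hxk⟩ := hP.inter
  have hg := hP.gram_nonpos hij
  set c := lor (e i) (e j) with hc
  have hcc : 0 < 1 - c ^ 2 := by nlinarith
  set a := lor x (e i) with ha
  set b := lor x (e j) with hb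
  have ha0 : a < 0 := hxk i
  have hb0 : b < 0 := hxk j
  -- the projection to the codimension two subspace
  have hz : ∀ v, lor ((1 - c ^ 2) • x - (a - c * b) • e i - (b - c * a) • e j) v =
      (1 - c ^ 2) * lor x v - (a - c * b) * lor (e i) v - (b - c * a) * lor (e j) v := by
    intro v
    rw [lor_sub_left, lor_sub_left, lor_smul_left, lor_smul_left, lor_smul_left]
  set z := (1 - c ^ 2) • x - (a - c * b) • e i - (b - c * a) • e j with hzd
  have hzi : lor z (e i) = 0 := by
    rw [hz, hP.unit, lor_symm (e j) (e i), ← hc, ← ha]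
    ring
  have hzj : lor z (e j) = 0 := by
    rw [hz, hP.unit, ← hc, ← hb]
    ring
  have hA : a - c * b ≤ 0 := by nlinarith
  have hB : b - c * a ≤ 0 := by nlinarith
  have hzx : lor z x = (1 - c ^ 2) * lor x x - (a ^ 2 + b ^ 2 - 2 * c * a * b) := by
    rw [hz, lor_symm (e i) x, lor_symm (e j) x, ← ha, ← hb]
    ring
  have hzz : lor z z = (1 - c ^ 2) * lor z x := by
    have h1 : lor z z = lor z ((1 - c ^ 2) • x - (a - c * b) • e i - (b - c * a) • e j) := rfl
    rw [h1, lor_sub_right, lor_sub_right, lor_smul_right, lor_smul_right, lor_smul_right, hzi, hzj]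
    ring
  have hq : 0 ≤ a ^ 2 + b ^ 2 - 2 * c * a * b := by
    have h1 : 0 ≤ a * b := (mul_pos_of_neg_of_neg ha0 hb0).le
    nlinarith [sq_nonneg a, sq_nonneg b]
  have hzx' : lor z x < 0 := by
    rw [hzx, hx.1]
    linarith
  have hzT : z ∈ Tim d := by
    refine Tim.of_lor (Tim.of_hyp hx) ?_ (by rw [lor_symm]; exact hzx')
    rw [hzz]
    exact mul_neg_of_pos_of_neg hcc hzx'
  refine adj_of_tim hij hzT hzi hzj fun k hki hkj => ?_
  rw [hz]
  have h1 := hP.gram_nonpos (Ne.symm hki)
  have h2 := hP.gram_nonpos (Ne.symm hkj)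
  have h3 := mul_nonneg_of_nonpos_of_nonpos hA h1
  have h4 := mul_nonneg_of_nonpos_of_nonpos hB h2
  have h5 := mul_neg_of_pos_of_neg hcc (hxk k)
  linarith

/-- **Andreev's lemma**: the literal hypotheses on a Coxeter polytope give the Gram matrix. -/
theorem coxPoly : CoxPoly M e where
  unit := hP.unit
  fin i j hij h := by
    by_cases hadj : AdjFacets e i j
    · exact (hP.angle i j hadj).2
    · exact absurd (hP.nonadj i j hij hadj) h
  inf i j h := by
    have hij : i ≠ j := by
      rintro rfl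
      rw [M.diagonal] at h
      exact one_ne_zero h
    by_contra hc
    push Not at hc
    exact (hP.angle i j (hP.adj_of_gt hij hc)).1 h
  inter := hP.inter
  compact := hP.compact

end IsCoxeterPolytope

end BD
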