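import Pool.Agent.Work.MP_de2d29_al.FinCh

/-!
# BUILDING: change of the base point of the compactification

`X` a metric space with radial maps at every point (`BaseCh.Fam rad`). The identity of `X` extends
to a homeomorphism `BC o b : XHat o (rad o) ≃ₜ XHat b (rad b)`, which maps `HBdry o` onto
`HBdry b` (`BCb o b`), and `dist (pr o t z) (pr b t (BC z)) ≤ 2 * dist o b`.
-/

set_option autoImplicit false

open Set Metric Topology Filter Real

namespace BD

/-- a metric space with radial maps at every point, which satisfy the comparison inequality -/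
structure RadFam (X : Type) [MetricSpace X] (rad : X → ℝ → X → X) : Prop where
  hc : ∀ o, HCat X o (rad o)
  hr : ∀ o, RadSp X o (rad o)

section point

variable {X : Type} [MetricSpace X] {o : X} {p : ℝ → X → X} (H : RadSp X o p)
include H

theorem RadSp.pr_min {s t : ℝ} (hs : 0 ≤ s) (ht : 0 ≤ t) (z : XHat o p) :
    p s (RadSp.pr o p t z) = RadSp.pr o p (min s t) z := by
  rcases le_total s t with hst | hst
  · rw [min_eq_left hst, H.pr_pr hs hst]
  · rw [min_eq_right hst]
    exact H.fix s _ ((H.norm_pr ht z).trans hst)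

/-- a generalised ray is close to its points -/
theorem RadSp.dist_ι_pr {t : ℝ} (ht : 0 ≤ t) (z : XHat o p) :
    dist (H.ι (RadSp.pr o p t z)) z ≤ exp (-t) := by
  refine XHat.dist_le fun r => ?_
  have hr : (0 : ℝ) ≤ r := Nat.cast_nonneg r
  rw [H.ι_coord, H.pr_min hr ht, ← H.pr_nat r z]
  rcases le_total (r : ℝ) t with h1 | h1
  · rw [min_eq_left h1, dist_self, mul_zero]
    exact (exp_pos _).le
  · rw [min_eq_right h1]
    have h2 := H.dist_pr ht hr z
    rw [abs_sub_comm, abs_of_nonneg (by linarith : (0 : ℝ) ≤ r - t)] at h2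
    have h3 : (r : ℝ) - t ≤ exp (r - t) := by
      have := add_one_le_exp ((r : ℝ) - t)
      linarith
    have h4 := mul_le_mul_of_nonneg_left (h2.trans h3) (exp_pos (-(r : ℝ))).le
    refine h4.trans (le_of_eq ?_)
    rw [← exp_add]
    congr 1
    ring

theorem RadSp.dist_ι_p {t : ℝ} (ht : 0 ≤ t) (x : X) : dist (H.ι (p t x)) (H.ι x) ≤ exp (-t) := by
  have h1 := H.dist_ι_pr ht (H.ι x)
  rwa [H.pr_ι ht] at h1

theorem RadSp.tendsto_ι_pr (z : XHat o p) :
    Tendsto (fun n : ℕ => H.ι (RadSp.pr o p n z)) atTop (𝓝 z) := by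
  rw [tendsto_iff_dist_tendsto_zero]
  refine squeeze_zero (fun _ => dist_nonneg) (fun n => H.dist_ι_pr (Nat.cast_nonneg n) z) ?_
  exact (tendsto_exp_neg_atTop_nhds_zero).comp tendsto_natCast_atTop_atTop

theorem RadSp.denseRange_ι : DenseRange H.ι := fun z =>
  mem_closure_of_tendsto (H.tendsto_ι_pr z) (Eventually.of_forall fun _ => mem_range_self _)

theorem RadSp.isDenseInducing_ι : IsDenseInducing H.ι :=
  ⟨H.isOpenEmbedding_ι.isInducing, H.denseRange_ι⟩

end point

namespace RadFam

variable {X : Type} [MetricSpace X] {rad : X → ℝ → X → X} (F : RadFam X rad) (o b : X)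
include F

/-- comparison of the radial projections -/
theorem compare (x : X) {t : ℝ} (h0 : 0 ≤ t) (h1 : t ≤ dist o x) :
    ∃ s, 0 ≤ s ∧ |s - t| ≤ dist o b ∧ s ≤ dist b x ∧
      dist (rad o t x) (rad b s x) ≤ dist o b := by
  set D := dist o x with hD
  set D' := dist b x with hD'
  have hu : 0 ≤ D - t := by linarith
  obtain ⟨e1, e2⟩ := (F.hc o).dist_left h0 h1
  -- the point of the segment from `x` to `o`
  have e3 : rad o t x = rad x (D - t) o := by
    have h2 := (F.hc x).uniq (x := o) (y := rad o t x) (by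
      rw [dist_comm x (rad o t x), dist_comm (rad o t x) o, e1, e2, dist_comm x o]
      linarith)
    rwa [dist_comm x (rad o t x), e2] at h2
  have e4 : dist (rad x (D - t) o) (rad x (D - t) b) ≤ dist o b := (F.hc x).lip hu o b
  -- the point of the segment from `x` to `b`
  have hm0 : 0 ≤ min (D - t) D' := le_min hu dist_nonneg
  have hm1 : min (D - t) D' ≤ dist x b := by
    rw [dist_comm x b]
    exact min_le_right _ _
  have e5 : rad x (D - t) b = rad x (min (D - t) D') b := by
    have h2 := (F.hc x).eq_min (D - t) b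
    rwa [dist_comm x b] at h2
  obtain ⟨e6, e7⟩ := (F.hc x).dist_left hm0 hm1
  have e8 : dist b x = D' := rfl
  have e9 : rad x (min (D - t) D') b = rad b (D' - min (D - t) D') x := by
    have h2 := (F.hc b).uniq (x := x) (y := rad x (min (D - t) D') b) (by
      rw [dist_comm b (rad x _ b), dist_comm (rad x _ b) x, e6, e7, dist_comm x b]
      ring)
    rwa [dist_comm b (rad x _ b), e7, dist_comm x b] at h2
  have hDD : |D - D'| ≤ dist o b := by
    have := abs_dist_sub_le o b x
    exact this
  obtain ⟨h5, h6⟩ := abs_le.1 hDD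
  refine ⟨D' - min (D - t) D', ?_, ?_, ?_, ?_⟩
  · have := min_le_right (D - t) D'
    linarith
  · rcases le_total (D - t) D' with h2 | h2
    · rw [min_eq_left h2, abs_le]
      constructor <;> linarith
    · rw [min_eq_right h2, abs_le]
      constructor <;> linarith
  · linarith
  · rw [← e9, ← e5, e3]
    exact e4

/-- the radial maps of two base points -/
theorem dist_rad_le (x : X) {t : ℝ} (h0 : 0 ≤ t) :
    dist (rad o t x) (rad b t x) ≤ 2 * dist o b := by
  rcases le_total t (dist o x) with h1 | h1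
  · obtain ⟨s, s0, s1, s2, s3⟩ := F.compare o b x h0 h1
    have h2 := (F.hr b).move' s0 h0 x
    have h3 := dist_triangle (rad o t x) (rad b s x) (rad b t x)
    linarith
  · rw [(F.hc o).big t x h1]
    have hDD := abs_dist_sub_le o b x
    obtain ⟨h5, h6⟩ := abs_le.1 hDD
    rcases le_total (dist b x) t with h2 | h2
    · rw [(F.hc b).big t x h2, dist_self]
      positivity
    · obtain ⟨e1, e2⟩ := (F.hc b).dist_left h0 h2
      rw [dist_comm, e2]
      have := dist_nonneg (x := o) (y := b)
      linarith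

theorem dist_ι_rad (x : X) {t : ℝ} (h0 : 0 ≤ t) :
    dist ((F.hr b).ι (rad o t x)) ((F.hr b).ι x) ≤
      (1 + 2 * sinh (dist o b / 2)) * exp (dist o b) * exp (-t) := by
  have hK : 0 ≤ (1 + 2 * sinh (dist o b / 2)) * exp (dist o b) * exp (-t) := by
    have : 0 ≤ sinh (dist o b / 2) := sinh_nonneg_iff.2 (by positivity)
    positivity
  rcases le_total (dist o x) t with h1 | h1
  · rw [(F.hc o).big t x h1, dist_self]
    exact hK
  · obtain ⟨s, s0, s1, s2, s3⟩ := F.compare o b x h0 h1
    obtain ⟨h5, h6⟩ := abs_le.1 s1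
    have h2 := (F.hr b).dist_ι_p s0 x
    have hS : dist ((F.hr b).ι (rad o t x)) ((F.hr b).ι (rad b s x)) ≤
        2 * sinh (dist o b / 2) * exp (-(max 0 (t - dist o b))) := by
      refine (F.hc b).size (F.hr b) (le_max_left _ _) ?_ ?_ s3
      · refine max_le dist_nonneg ?_
        have e1 := ((F.hc o).dist_left h0 h1).1
        have e2 := dist_triangle o b (rad o t x)
        linarith
      · refine max_le dist_nonneg ?_
        have e1 := ((F.hc b).dist_left s0 s2).1
        rw [e1]
        linarith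
    have h3 : exp (-(max 0 (t - dist o b))) ≤ exp (dist o b) * exp (-t) := by
      rw [← exp_add]
      refine exp_le_exp.2 ?_
      have := le_max_right 0 (t - dist o b)
      linarith
    have h4 : exp (-s) ≤ exp (dist o b) * exp (-t) := by
      rw [← exp_add]
      exact exp_le_exp.2 (by linarith)
    have h7 : 0 ≤ 2 * sinh (dist o b / 2) := by
      have : 0 ≤ sinh (dist o b / 2) := sinh_nonneg_iff.2 (by positivity)
      positivity
    have h8 := mul_le_mul_of_nonneg_left h3 h7
    have h9 := dist_triangle ((F.hr b).ι (rad o t x)) ((F.hr b).ι (rad b s x)) ((F.hr b).ι x)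
    have h10 : (1 + 2 * sinh (dist o b / 2)) * exp (dist o b) * exp (-t) =
        exp (dist o b) * exp (-t) + 2 * sinh (dist o b / 2) * (exp (dist o b) * exp (-t)) := by
      ring
    rw [h10]
    linarith

/-- the identity is uniformly continuous for the metrics induced by the compactifications -/
theorem unif {ε : ℝ} (hε : 0 < ε) : ∃ δ > 0, ∀ x y : X,
    dist ((F.hr o).ι x) ((F.hr o).ι y) < δ → dist ((F.hr b).ι x) ((F.hr b).ι y) < ε := by
  set K := (1 + 2 * sinh (dist o b / 2)) * exp (dist o b) with hK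
  have ht : Tendsto (fun n : ℕ => K * exp (-(n : ℝ))) atTop (𝓝 0) := by
    have h1 := ((tendsto_exp_neg_atTop_nhds_zero).comp
      (tendsto_natCast_atTop_atTop (R := ℝ))).const_mul K
    rw [mul_zero] at h1
    exact h1
  obtain ⟨n, hn⟩ := (ht.eventually (gt_mem_nhds (show (0 : ℝ) < ε / 4 by linarith))).exists
  refine ⟨ε / 4 * exp (-((n : ℝ) + 1)), by positivity, fun x y hxy => ?_⟩
  have hn0 : (0 : ℝ) ≤ n := Nat.cast_nonneg n
  have h1 := F.dist_ι_rad o b x hn0
  have h2 := F.dist_ι_rad o b y hn0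
  have h3 : dist (rad o n x) (rad o n y) ≤ exp ((n : ℝ) + 1) *
      dist ((F.hr o).ι x) ((F.hr o).ι y) := by
    have := (F.hr o).lip_pr hn0 ((F.hr o).ι x) ((F.hr o).ι y)
    rwa [(F.hr o).pr_ι hn0, (F.hr o).pr_ι hn0] at this
  have h4 : exp ((n : ℝ) + 1) * dist ((F.hr o).ι x) ((F.hr o).ι y) < ε / 4 := by
    have h5 := mul_lt_mul_of_pos_left hxy (exp_pos ((n : ℝ) + 1))
    have h6 : exp ((n : ℝ) + 1) * (ε / 4 * exp (-((n : ℝ) + 1))) = ε / 4 := by
      rw [mul_comm (ε / 4), ← mul_assoc, ← exp_add, add_neg_cancel, exp_zero, one_mul]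
    linarith
  have h7 : dist ((F.hr b).ι (rad o n x)) ((F.hr b).ι (rad o n y)) ≤
      dist (rad o n x) (rad o n y) := by
    refine (F.hr b).dist_ι_le fun r => ?_
    refine ((F.hr b).lip r _ _ (Nat.cast_nonneg r)).trans ?_
    have h8 : 1 ≤ exp (r : ℝ) := one_le_exp (Nat.cast_nonneg r)
    have h9 : 0 ≤ dist (rad o n x) (rad o n y) := dist_nonneg
    nlinarith
  have h10 := dist_triangle4 ((F.hr b).ι x) ((F.hr b).ι (rad o n x)) ((F.hr b).ι (rad o n y))
    ((F.hr b).ι y)
  rw [dist_comm ((F.hr b).ι x) ((F.hr b).ι (rad o n x))] at h10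
  linarith

/-- the extension of the identity, as a map -/
noncomputable def bcFun (z : XHat o (rad o)) : XHat b (rad b) :=
  (F.hr o).isDenseInducing_ι.extend (F.hr b).ι z

theorem continuous_bcFun : Continuous (F.bcFun o b) := by
  have hcomp := (F.hr b).compactSpace
  refine (F.hr o).isDenseInducing_ι.continuous_extend fun z => ?_
  have hne := (F.hr o).isDenseInducing_ι.comap_nhds_neBot z
  have hC : Cauchy (map (F.hr b).ι (comap (F.hr o).ι (𝓝 z))) := by
    rw [Metric.cauchy_iff]
    refine ⟨hne.map _, fun ε hε => ?_⟩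
    obtain ⟨δ, hδ, hd⟩ := F.unif o b hε
    refine ⟨(F.hr b).ι '' ((F.hr o).ι ⁻¹' ball z (δ / 2)), image_mem_map
      (preimage_mem_comap (ball_mem_nhds z (half_pos hδ))), ?_⟩
    rintro _ ⟨x, hx, rfl⟩ _ ⟨y, hy, rfl⟩
    refine hd x y ?_
    have h1 := mem_ball.1 hx
    have h2 := mem_ball.1 hy
    have h3 := dist_triangle_right ((F.hr o).ι x) ((F.hr o).ι y) z
    linarith
  obtain ⟨c, hc⟩ := CompleteSpace.complete hC
  exact ⟨c, hc⟩

theorem bcFun_ι (x : X) : F.bcFun o b ((F.hr o).ι x) = (F.hr b).ι x :=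
  (F.hr o).isDenseInducing_ι.extend_eq (F.hr b).continuous_ι x

theorem bcFun_bcFun (z : XHat o (rad o)) : F.bcFun b o (F.bcFun o b z) = z := by
  have h1 : (F.bcFun b o) ∘ (F.bcFun o b) = id :=
    (F.hr o).denseRange_ι.equalizer ((F.continuous_bcFun b o).comp (F.continuous_bcFun o b))
      continuous_id (funext fun x => by
        simp only [Function.comp, id]
        rw [F.bcFun_ι, F.bcFun_ι])
  exact congrFun h1 z

/-- **change of the base point** -/
noncomputable def BC : XHat o (rad o) ≃ₜ XHat b (rad b) where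
  toFun := F.bcFun o b
  invFun := F.bcFun b o
  left_inv := F.bcFun_bcFun o b
  right_inv := F.bcFun_bcFun b o
  continuous_toFun := F.continuous_bcFun o b
  continuous_invFun := F.continuous_bcFun b o

theorem BC_ι (x : X) : F.BC o b ((F.hr o).ι x) = (F.hr b).ι x := F.bcFun_ι o b x

theorem BC_symm : (F.BC o b).symm = F.BC b o := rfl

theorem BC_BC (z : XHat o (rad o)) : F.BC b o (F.BC o b z) = z := F.bcFun_bcFun o b z

theorem BC_mem (z : XHat o (rad o)) : F.BC o b z ∈ HBdry b (rad b) ↔ z ∈ HBdry o (rad o) := by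
  rw [← not_iff_not, (F.hr b).not_mem_HBdry, (F.hr o).not_mem_HBdry]
  constructor
  · rintro ⟨x, hx⟩
    refine ⟨x, ?_⟩
    rw [← F.BC_BC o b z, ← hx, F.BC_ι]
  · rintro ⟨x, rfl⟩
    exact ⟨x, (F.BC_ι o b x).symm⟩

/-- the rays from two base points to the same boundary point stay close -/
theorem dist_pr_BC {t : ℝ} (ht : 0 ≤ t) (z : XHat o (rad o)) :
    dist (RadSp.pr o (rad o) t z) (RadSp.pr b (rad b) t (F.BC o b z)) ≤ 2 * dist o b := by
  have hcl : IsClosed {z : XHat o (rad o) |
      dist (RadSp.pr o (rad o) t z) (RadSp.pr b (rad b) t (F.BC o b z)) ≤ 2 * dist o b} :=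
    isClosed_le (((F.hr o).continuous_pr ht).dist
      (((F.hr b).continuous_pr ht).comp (F.BC o b).continuous)) continuous_const
  refine (F.hr o).denseRange_ι.induction_on z hcl fun x => ?_
  rw [F.BC_ι, (F.hr o).pr_ι ht, (F.hr b).pr_ι ht]
  exact F.dist_rad_le o b x ht

/-- the ray from `b` is the limit of the segments -/
theorem tendsto_BC {r : ℝ} (hr : 0 ≤ r) (z : XHat o (rad o)) :
    Tendsto (fun n : ℕ => rad b r (z.1 n)) atTop (𝓝 (RadSp.pr b (rad b) r (F.BC o b z))) := by
  have h1 := ((((F.hr b).continuous_pr hr).comp (F.BC o b).continuous).tendsto z).comp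
    ((F.hr o).tendsto_ι_pr z)
  refine h1.congr fun n => ?_
  simp only [Function.comp]
  rw [F.BC_ι, (F.hr b).pr_ι hr, (F.hr o).pr_nat]

/-- the projection to the ray from `b` of the points of the ray from `o` -/
theorem dist_rad_pr_le {t : ℝ} (ht : 0 ≤ t) (z : XHat o (rad o)) :
    dist ((F.hr b).ι (RadSp.pr o (rad o) t z)) (F.BC o b z) ≤
      (1 + 2 * sinh (dist o b / 2)) * exp (dist o b) * exp (-t) := by
  have hcl : IsClosed {z : XHat o (rad o) |
      dist ((F.hr b).ι (RadSp.pr o (rad o) t z)) (F.BC o b z) ≤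
        (1 + 2 * sinh (dist o b / 2)) * exp (dist o b) * exp (-t)} :=
    isClosed_le (((F.hr b).continuous_ι.comp ((F.hr o).continuous_pr ht)).dist
      (F.BC o b).continuous) continuous_const
  refine (F.hr o).denseRange_ι.induction_on z hcl fun x => ?_
  rw [F.BC_ι, (F.hr o).pr_ι ht]
  exact F.dist_ι_rad o b x ht

/-- **change of the base point, for the boundaries** -/
noncomputable def BCb : HBdry o (rad o) ≃ₜ HBdry b (rad b) :=
  (F.BC o b).subtype fun z => (F.BC_mem o b z).symm

theorem BCb_coe (z : HBdry o (rad o)) : ((F.BCb o b z : HBdry b (rad b)) : XHat b (rad b)) =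
    F.BC o b z := rfl

theorem BCb_symm : (F.BCb o b).symm = F.BCb b o := rfl

theorem BC_image : F.BC o b '' HBdry o (rad o) = HBdry b (rad b) := by
  ext z
  constructor
  · rintro ⟨w, hw, rfl⟩
    exact (F.BC_mem o b w).2 hw
  · intro hz
    exact ⟨F.BC b o z, (F.BC_mem b o z).2 hz, F.BC_BC b o z⟩

end RadFam

/-- the realisation of a locally finite building has radial maps at every point -/
theorem Mdl.radFam {ι C X : Type} {d : ℕ} {M : CoxeterMatrix ι} {e : ι → Mink d} [MetricSpace X]
    {h : CoxPoly M e} {Δ : Building M C} {mk : C → poly e → X} [Finite ι] (m : Mdl h Δ mk)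
    (hL : Δ.LocFinite) : RadFam X m.rad := ⟨m.hcat, m.radSp' hL⟩

end BD
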