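import Pool.Agent.Work.MP_de2d29_al.HypT

/-!
# The tangent space of hyperbolic space at a point

`tin m : EuclideanSpace ℝ (Fin d) →ₗ Mink d` is a linear isometry onto the orthogonal complement of
`m ∈ Hyp d`; `tout m` is its inverse on the orthogonal complement.
-/

set_option autoImplicit false

open Real Set

namespace BD

open scoped InnerProductSpace

variable {d : ℕ}

/-- `∑ m_i v_i` -/
def sp (m : Mink d) (v : EuclideanSpace ℝ (Fin d)) : ℝ := ∑ i : Fin d, m i.succ * v i

theorem sp_add (m : Mink d) (v w : EuclideanSpace ℝ (Fin d)) : sp m (v + w) = sp m v + sp m w := by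
  simp only [sp, PiLp.add_apply, mul_add, Finset.sum_add_distrib]

theorem sp_smul (m : Mink d) (t : ℝ) (v : EuclideanSpace ℝ (Fin d)) :
    sp m (t • v) = t * sp m v := by
  simp only [sp, PiLp.smul_apply, smul_eq_mul, Finset.mul_sum]
  exact Finset.sum_congr rfl fun i _ => by ring

/-- the isometry onto the orthogonal complement of `m` -/
noncomputable def tin (m : Mink d) : EuclideanSpace ℝ (Fin d) →ₗ[ℝ] Mink d where
  toFun v := Fin.cons (sp m v) fun i => v i + sp m v / (1 + m 0) * m i.succ
  map_add' v w := by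
    funext i
    refine Fin.cases ?_ (fun i => ?_) i
    · simp [sp_add]
    · simp only [Fin.cons_succ, Pi.add_apply, PiLp.add_apply, sp_add]
      ring
  map_smul' t v := by
    funext i
    refine Fin.cases ?_ (fun i => ?_) i
    · simp [sp_smul]
    · simp only [Fin.cons_succ, Pi.smul_apply, PiLp.smul_apply, sp_smul, smul_eq_mul,
        RingHom.id_apply]
      ring

/-- the inverse of `tin m` -/
noncomputable def tout (m : Mink d) : Mink d →ₗ[ℝ] EuclideanSpace ℝ (Fin d) where
  toFun y := WithLp.toLp 2 fun i => y i.succ - y 0 / (1 + m 0) * m i.succ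
  map_add' v w := by
    ext i
    simp only [Pi.add_apply, PiLp.add_apply]
    ring
  map_smul' t v := by
    ext i
    simp only [Pi.smul_apply, PiLp.smul_apply, smul_eq_mul, RingHom.id_apply]
    ring

theorem tin_zero_apply (m : Mink d) (v : EuclideanSpace ℝ (Fin d)) : tin m v 0 = sp m v := by
  simp [tin]

theorem tin_succ_apply (m : Mink d) (v : EuclideanSpace ℝ (Fin d)) (i : Fin d) :
    tin m v i.succ = v i + sp m v / (1 + m 0) * m i.succ := by
  simp [tin]

theorem tout_apply (m y : Mink d) (i : Fin d) :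
    tout m y i = y i.succ - y 0 / (1 + m 0) * m i.succ := by
  simp [tout]

theorem sum_sq {m : Mink d} (hm : m ∈ Hyp d) : ∑ i : Fin d, m i.succ * m i.succ = m 0 ^ 2 - 1 := by
  have h := hm.1
  unfold lor at h
  nlinarith

variable {m : Mink d}

theorem lor_tin_self (hm : m ∈ Hyp d) (v : EuclideanSpace ℝ (Fin d)) : lor (tin m v) m = 0 := by
  have h0 : 1 + m 0 ≠ 0 := by have := hm.2; positivity
  have h1 : ∑ i : Fin d, tin m v i.succ * m i.succ =
      sp m v + sp m v / (1 + m 0) * (m 0 ^ 2 - 1) := by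
    rw [← sum_sq hm, sp, Finset.mul_sum, ← Finset.sum_add_distrib]
    refine Finset.sum_congr rfl fun i _ => ?_
    rw [tin_succ_apply, sp]
    ring
  rw [lor, h1, tin_zero_apply]
  field_simp
  ring

theorem lor_tin_tin (hm : m ∈ Hyp d) (v w : EuclideanSpace ℝ (Fin d)) :
    lor (tin m v) (tin m w) = ⟪v, w⟫_ℝ := by
  have h0 : 1 + m 0 ≠ 0 := by have := hm.2; positivity
  have h1 : ∑ i : Fin d, tin m v i.succ * tin m w i.succ = ⟪v, w⟫_ℝ +
      2 * (sp m v * sp m w) / (1 + m 0) +
      sp m v * sp m w / (1 + m 0) ^ 2 * (m 0 ^ 2 - 1) := by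
    have e1 : ⟪v, w⟫_ℝ = ∑ i : Fin d, v i * w i := by
      rw [PiLp.inner_apply]
      exact Finset.sum_congr rfl fun i _ => by simp [mul_comm]
    have e2 : 2 * (sp m v * sp m w) / (1 + m 0) = ∑ i : Fin d,
        (sp m w / (1 + m 0) * (m i.succ * v i) + sp m v / (1 + m 0) * (m i.succ * w i)) := by
      rw [Finset.sum_add_distrib, ← Finset.mul_sum, ← Finset.mul_sum]
      change _ = sp m w / (1 + m 0) * sp m v + sp m v / (1 + m 0) * sp m w
      ring
    rw [e1, e2, ← sum_sq hm, Finset.mul_sum, ← Finset.sum_add_distrib, ← Finset.sum_add_distrib]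
    refine Finset.sum_congr rfl fun i _ => ?_
    rw [tin_succ_apply, tin_succ_apply]
    field_simp
    ring
  rw [lor, h1, tin_zero_apply, tin_zero_apply]
  field_simp
  ring

theorem tout_tin (hm : m ∈ Hyp d) (v : EuclideanSpace ℝ (Fin d)) : tout m (tin m v) = v := by
  ext i
  rw [tout_apply, tin_succ_apply, tin_zero_apply]
  ring

theorem tin_tout (hm : m ∈ Hyp d) {y : Mink d} (hy : lor y m = 0) : tin m (tout m y) = y := by
  have h0 : 1 + m 0 ≠ 0 := by have := hm.2; positivity
  have h1 : sp m (tout m y) = y 0 := by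
    have e1 : sp m (tout m y) = (∑ i : Fin d, y i.succ * m i.succ) -
        y 0 / (1 + m 0) * ∑ i : Fin d, m i.succ * m i.succ := by
      rw [sp, Finset.mul_sum, ← Finset.sum_sub_distrib]
      refine Finset.sum_congr rfl fun i _ => ?_
      rw [tout_apply]
      ring
    have e2 : ∑ i : Fin d, y i.succ * m i.succ = y 0 * m 0 := by
      unfold lor at hy
      linarith
    rw [e1, e2, sum_sq hm]
    field_simp
    ring
  funext i
  refine Fin.cases ?_ (fun i => ?_) i
  · rw [tin_zero_apply, h1]
  · rw [tin_succ_apply, h1, tout_apply]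
    ring

theorem inner_tout (hm : m ∈ Hyp d) {x y : Mink d} (hx : lor x m = 0) (hy : lor y m = 0) :
    ⟪tout m x, tout m y⟫_ℝ = lor x y := by
  rw [← lor_tin_tin hm, tin_tout hm hx, tin_tout hm hy]

theorem inner_tout_left (hm : m ∈ Hyp d) {x : Mink d} (hx : lor x m = 0)
    (v : EuclideanSpace ℝ (Fin d)) : ⟪tout m x, v⟫_ℝ = lor x (tin m v) := by
  rw [← lor_tin_tin hm, tin_tout hm hx]

theorem continuous_tin (m : Mink d) : Continuous (tin m) :=
  (tin m).continuous_of_finiteDimensional

theorem continuous_tout (m : Mink d) : Continuous (tout m) :=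
  (tout m).continuous_of_finiteDimensional

end BD
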