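import Pool.Agent.Work.MP_de2d29_al.CSkel

/-!
# BUILDING, block C: finite unions of closed convex sets (helper71)

* `exists_proj`: nearest point projection onto a closed convex set of a Euclidean space.
* `aek_convex`: a non-empty closed convex set of a finite dimensional space is `AEk k` for all `k`.
* `aek_union`: so is a finite union of closed convex sets with a common point.
* `j_CONE`: the joint `J_CONE`.
-/

set_option autoImplicit false

open Set Metric Topology

namespace BD.Cn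

open Pool.Agent.Work.MP_017613_gt.Rnd
open Pool.Agent.Work.MP_de2d29_al
open scoped InnerProductSpace

/-- the nearest point projection -/
theorem exists_proj {F : Type*} [NormedAddCommGroup F] [InnerProductSpace ℝ F] [CompleteSpace F]
    {K : Set F} (hne : K.Nonempty) (hcl : IsClosed K) (hK : Convex ℝ K) :
    ∃ π : F → F, (∀ x y, ‖π x - π y‖ ≤ ‖x - y‖) ∧ (∀ x, π x ∈ K) ∧ ∀ x ∈ K, π x = x := by
  choose π h1 h2 using exists_norm_eq_iInf_of_complete_convex hne hcl.isComplete hK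
  have h3 : ∀ x, ∀ w ∈ K, ⟪x - π x, w - π x⟫_ℝ ≤ 0 := fun x =>
    (norm_eq_iInf_iff_real_inner_le_zero hK (h1 x)).1 (h2 x)
  refine ⟨π, fun x y => ?_, h1, fun x hx => ?_⟩
  · have e1 := h3 x (π y) (h1 y)
    have e2 := h3 y (π x) (h1 x)
    have e3 : ⟪x - π x, π y - π x⟫_ℝ + ⟪y - π y, π x - π y⟫_ℝ =
        ‖π x - π y‖ ^ 2 - ⟪x - y, π x - π y⟫_ℝ := by
      rw [← real_inner_self_eq_norm_sq]
      simp only [inner_sub_left, inner_sub_right]
      rw [real_inner_comm (π y) (π x)]
      ring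
    have e4 := real_inner_le_norm (x - y) (π x - π y)
    have e5 : ‖π x - π y‖ ^ 2 ≤ ‖x - y‖ * ‖π x - π y‖ := by linarith
    rcases (norm_nonneg (π x - π y)).eq_or_lt with e6 | e6
    · rw [← e6]
      positivity
    · rw [pow_two] at e5
      exact le_of_mul_le_mul_right e5 e6
  · have e1 := h3 x x hx
    rw [real_inner_self_eq_norm_sq] at e1
    have e2 : ‖x - π x‖ = 0 := by
      have := sq_nonneg ‖x - π x‖
      exact pow_eq_zero_iff (two_ne_zero) |>.1 (le_antisymm e1 this)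
    exact (sub_eq_zero.1 (norm_eq_zero.1 e2)).symm

/-- closed convex sets of a finite dimensional space are retracts -/
theorem exists_retract {E : Type*} [NormedAddCommGroup E] [NormedSpace ℝ E]
    [FiniteDimensional ℝ E] {K : Set E} (hne : K.Nonempty) (hcl : IsClosed K) (hK : Convex ℝ K) :
    ∃ r : E → E, Continuous r ∧ (∀ x, r x ∈ K) ∧ ∀ x ∈ K, r x = x := by
  let φ : E ≃L[ℝ] EuclideanSpace ℝ (Fin (Module.finrank ℝ E)) :=
    ContinuousLinearEquiv.ofFinrankEq (by simp)
  obtain ⟨π, h1, h2, h3⟩ := exists_proj (K := φ.symm ⁻¹' K)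
    (by
      obtain ⟨x, hx⟩ := hne
      exact ⟨φ x, by simpa using hx⟩)
    (hcl.preimage φ.symm.continuous)
    (hK.linear_preimage (φ.symm : EuclideanSpace ℝ (Fin (Module.finrank ℝ E)) →ₗ[ℝ] E))
  have hπ : Continuous π := by
    refine (LipschitzWith.of_dist_le_mul (K := 1) fun x y => ?_).continuous
    rw [dist_eq_norm, dist_eq_norm, NNReal.coe_one, one_mul]
    exact h1 x y
  refine ⟨fun x => φ.symm (π (φ x)), by fun_prop, fun x => h2 _, fun x hx => ?_⟩
  show φ.symm (π (φ x)) = x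
  rw [h3 (φ x) (by simpa using hx), ContinuousLinearEquiv.symm_apply_apply]

/-- non-empty closed convex sets are absolute extensors -/
theorem aek_convex {E : Type} [NormedAddCommGroup E] [NormedSpace ℝ E]
    [FiniteDimensional ℝ E] (k : ℕ) {K : Set E} (hne : K.Nonempty) (hcl : IsClosed K)
    (hK : Convex ℝ K) : AEk k K := by
  refine ⟨hne, ?_⟩
  intro γ _ P A hP f₀ hc hm
  obtain ⟨r, h1, h2, h3⟩ := exists_retract hne hcl hK
  obtain ⟨F, hF⟩ := ContinuousMap.exists_restrict_eq hP.cA ⟨A.domRestrict f₀, hc.domRestrict⟩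
  refine ⟨fun x => r (F x), (h1.comp F.continuous).continuousOn, fun x _ => h2 _, fun x hx => ?_⟩
  have h4 : F x = f₀ x := by
    have := DFunLike.congr_fun hF ⟨x, hx⟩
    exact this
  show r (F x) = f₀ x
  rw [h4, h3 _ (hm hx)]

/-- finite unions of closed convex sets with a common point are absolute extensors -/
theorem aek_insert_union {E : Type} [NormedAddCommGroup E] [NormedSpace ℝ E]
    [FiniteDimensional ℝ E] (k : ℕ) {ι : Type*} (p : E) (s : Finset ι) :
    ∀ (Y : Set E) (X : ι → Set E), p ∈ Y → IsClosed Y → Convex ℝ Y →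
      (∀ i ∈ s, p ∈ X i ∧ IsClosed (X i) ∧ Convex ℝ (X i)) → AEk k (Y ∪ ⋃ i ∈ s, X i) := by
  classical
  induction s using Finset.induction_on with
  | empty =>
    intro Y X hp hY hYc _
    simpa using aek_convex k ⟨p, hp⟩ hY hYc
  | insert a s ha ih =>
    intro Y X hp hY hYc hX
    have hXs : ∀ i ∈ s, p ∈ X i ∧ IsClosed (X i) ∧ Convex ℝ (X i) := fun i hi =>
      hX i (Finset.mem_insert_of_mem hi)
    obtain ⟨ha1, ha2, ha3⟩ := hX a (Finset.mem_insert_self a s)
    have e1 : Y ∪ ⋃ i ∈ insert a s, X i = X a ∪ (Y ∪ ⋃ i ∈ s, X i) := by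
      rw [Finset.set_biUnion_insert]
      ext x
      simp only [mem_union]
      tauto
    have e2 : X a ∩ (Y ∪ ⋃ i ∈ s, X i) = (X a ∩ Y) ∪ ⋃ i ∈ s, (X a ∩ X i) := by
      rw [inter_union_distrib_left, inter_iUnion₂]
    rw [e1]
    refine AEk.union ha2 ?_ (aek_convex k ⟨p, ha1⟩ ha2 ha3) (ih Y X hp hY hYc hXs) ?_
    · refine hY.union ?_
      exact isClosed_biUnion_finset fun i hi => (hXs i hi).2.1
    · rw [e2]
      exact ih (X a ∩ Y) (fun i => X a ∩ X i) ⟨ha1, hp⟩ (ha2.inter hY) (ha3.inter hYc)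
        fun i hi => ⟨⟨ha1, (hXs i hi).1⟩, ha2.inter (hXs i hi).2.1, ha3.inter (hXs i hi).2.2⟩

/-- finite unions of closed convex sets with a common point are absolute extensors -/
theorem aek_iUnion {E : Type} [NormedAddCommGroup E] [NormedSpace ℝ E]
    [FiniteDimensional ℝ E] (k : ℕ) {ι : Type*} [Finite ι] [Nonempty ι] (p : E) (X : ι → Set E)
    (hX : ∀ i, p ∈ X i ∧ IsClosed (X i) ∧ Convex ℝ (X i)) : AEk k (⋃ i, X i) := by
  classical
  have := Fintype.ofFinite ι
  have i₀ : ι := Classical.arbitrary ι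
  have h := aek_insert_union k p (Finset.univ : Finset ι) (X i₀) X (hX i₀).1 (hX i₀).2.1
    (hX i₀).2.2 fun i _ => hX i
  have e : X i₀ ∪ ⋃ i ∈ (Finset.univ : Finset ι), X i = ⋃ i, X i := by
    simp only [Finset.mem_univ, iUnion_true]
    exact union_eq_right.2 (subset_iUnion X i₀)
  rwa [e] at h

/-- the joint `J_CONE` -/
theorem j_CONE : BD.C.J_CONE := by
  intro J V R _ _ _ _ _ M e h Δ k
  have := Δ.ne
  have hlin : ∀ c : R, ∃ L : V →ₗ[ℝ] (R → V), ∀ x, L x = BD.C.mk h Δ c x := fun c =>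
    ⟨LinearMap.pi fun d => (h.rho M.toCoxeterSystem (Δ.δ d c) : V →ₗ[ℝ] V), fun x => rfl⟩
  have hinj : ∀ c : R, Function.Injective (BD.C.mk h Δ c) := by
    intro c x y hxy
    have h1 := congrFun hxy c
    exact (h.rho M.toCoxeterSystem (Δ.δ c c)).injective h1
  have hDc : IsClosed (RootBasis.Dom (BD.C.ip V) e) := by
    have : RootBasis.Dom (BD.C.ip V) e = ⋂ s, {x : V | ⟪x, e s⟫_ℝ ≤ 0} := by
      ext x
      simp only [RootBasis.Dom, mem_iInter, mem_ofPred_eq]
      rfl
    rw [this]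
    exact isClosed_iInter fun s => isClosed_le (by fun_prop) continuous_const
  have hDv : Convex ℝ (RootBasis.Dom (BD.C.ip V) e) := by
    intro x hx y hy a b ha hb _ s
    have h1 := hx s
    have h2 := hy s
    simp only [map_add, map_smul, LinearMap.add_apply, LinearMap.smul_apply, smul_eq_mul]
    nlinarith [mul_nonneg ha (neg_nonneg.2 h1), mul_nonneg hb (neg_nonneg.2 h2)]
  have hD0 : (0 : V) ∈ RootBasis.Dom (BD.C.ip V) e := fun s => by simp
  have e1 : BD.C.Cone h Δ = ⋃ c : R, BD.C.mk h Δ c '' RootBasis.Dom (BD.C.ip V) e := by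
    ext f
    simp only [BD.C.Cone, mem_ofPred_eq, mem_iUnion, mem_image]
    constructor
    · rintro ⟨c, x, hx, rfl⟩
      exact ⟨c, x, hx, rfl⟩
    · rintro ⟨c, x, hx, rfl⟩
      exact ⟨c, x, hx, rfl⟩
  rw [e1]
  refine aek_iUnion k 0 _ fun c => ?_
  obtain ⟨L, hL⟩ := hlin c
  have hLe : (BD.C.mk h Δ c) = L := funext fun x => (hL x).symm
  refine ⟨⟨0, hD0, by rw [hLe, map_zero]⟩, ?_, ?_⟩
  · have hci : Topology.IsClosedEmbedding L :=
      LinearMap.isClosedEmbedding_of_injective (LinearMap.ker_eq_bot.2 (hLe ▸ hinj c))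
    rw [hLe]
    exact hci.isClosedMap _ hDc
  · rw [hLe]
    exact hDv.linear_image L

end BD.Cn
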