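import Pool.Agent.Work.MP_de2d29_al.Tits

/-!
# Coxeter groups: fold lemma, exchange condition, parabolic subgroups, weak order
-/

set_option autoImplicit false

open Set

namespace BD

open Pool.Agent.Work.MP_de2d29_al

/-! ### The universal root basis -/

section univ

variable {S : Type*} (M : CoxeterMatrix S)

/-- the space of the universal root basis -/
abbrev UV (S : Type*) : Type _ := (S →₀ ℝ) × (S → ℝ)

/-- entries of the Gram matrix -/
noncomputable def gm (s t : S) : ℝ := if M s t = 0 then -1 else -Real.cos (Real.pi / M s t)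

theorem gm_symm (s t : S) : gm M s t = gm M t s := by
  rw [gm, gm, M.symmetric s t]

/-- the form on finitely supported functions -/
noncomputable def ugram : LinearMap.BilinForm ℝ (S →₀ ℝ) :=
  Finsupp.lsum ℝ fun s => LinearMap.toSpanSingleton ℝ ((S →₀ ℝ) →ₗ[ℝ] ℝ)
    (Finsupp.lsum ℝ fun t => LinearMap.toSpanSingleton ℝ ℝ (gm M s t))

theorem ugram_single (s t : S) (a b : ℝ) :
    ugram M (Finsupp.single s a) (Finsupp.single t b) = a * b * gm M s t := by
  simp [ugram, mul_comm]
  try ring

/-- the pairing between finitely supported functions and functions -/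
noncomputable def pr (x : S →₀ ℝ) (g : S → ℝ) : ℝ := x.sum fun s a => a * g s

theorem pr_add_left (x y : S →₀ ℝ) (g : S → ℝ) : pr (x + y) g = pr x g + pr y g :=
  Finsupp.sum_add_index' (fun _ => by simp) (fun _ _ _ => by ring)

theorem pr_add_right (x : S →₀ ℝ) (g g' : S → ℝ) : pr x (g + g') = pr x g + pr x g' := by
  simp [pr, mul_add, Finsupp.sum_add]

theorem pr_smul_left (c : ℝ) (x : S →₀ ℝ) (g : S → ℝ) : pr (c • x) g = c * pr x g := by
  rw [pr, pr, Finsupp.sum_smul_index' (fun _ => by simp), Finsupp.mul_sum]
  simp [mul_assoc]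

theorem pr_smul_right (c : ℝ) (x : S →₀ ℝ) (g : S → ℝ) : pr x (c • g) = c * pr x g := by
  rw [pr, pr, Finsupp.mul_sum]
  refine Finsupp.sum_congr fun s _ => ?_
  simp only [Pi.smul_apply, smul_eq_mul]
  ring

theorem pr_single (s : S) (a : ℝ) (g : S → ℝ) : pr (Finsupp.single s a) g = a * g s := by
  simp [pr]

/-- the universal form -/
noncomputable def ubil : LinearMap.BilinForm ℝ (UV S) :=
  LinearMap.mk₂ ℝ (fun p q => ugram M p.1 q.1 + pr p.1 q.2 + pr q.1 p.2)
    (fun p q r => by
      simp only [Prod.fst_add, Prod.snd_add, map_add, LinearMap.add_apply, pr_add_left,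
        pr_add_right]
      ring)
    (fun c p q => by
      simp only [Prod.smul_fst, Prod.smul_snd, map_smul, LinearMap.smul_apply, pr_smul_left,
        pr_smul_right, smul_eq_mul]
      ring)
    (fun p q r => by
      simp only [Prod.fst_add, Prod.snd_add, map_add, pr_add_left, pr_add_right]
      ring)
    (fun c p q => by
      simp only [Prod.smul_fst, Prod.smul_snd, map_smul, pr_smul_left, pr_smul_right,
        smul_eq_mul]
      ring)

theorem ubil_apply (p q : UV S) :
    ubil M p q = ugram M p.1 q.1 + pr p.1 q.2 + pr q.1 p.2 := rfl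

/-- the universal roots -/
noncomputable def uroot (s : S) : UV S := (Finsupp.single s 1, 0)

theorem ugram_symm (x y : S →₀ ℝ) : ugram M x y = ugram M y x := by
  induction x using Finsupp.induction_linear with
  | zero => simp
  | add f g hf hg => simp only [map_add, LinearMap.add_apply, hf, hg]
  | single s a =>
    induction y using Finsupp.induction_linear with
    | zero => simp
    | add f g hf hg => simp only [map_add, LinearMap.add_apply, hf, hg]
    | single t b => rw [ugram_single, ugram_single, gm_symm]; ring

theorem pr_zero (x : S →₀ ℝ) : pr x (0 : S → ℝ) = 0 := by simp [pr]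

theorem ubil_root (s t : S) : ubil M (uroot s) (uroot t) = gm M s t := by
  rw [ubil_apply]
  simp only [uroot, ugram_single, pr_zero]
  ring

theorem uroot_basis : RootBasis M (ubil M) (uroot (S := S)) where
  symm p q := by
    rw [ubil_apply, ubil_apply, ugram_symm M p.1 q.1]
    ring
  fin s t h := by rw [ubil_root, gm, if_neg h]
  inf s t h := by rw [ubil_root, gm, if_pos h]

theorem ubil_root_apply (p : UV S) (hp : p.1 = 0) (s : S) : ubil M p (uroot s) = p.2 s := by
  rw [ubil_apply, hp, uroot, pr_single]
  simp [pr]

theorem uInt_nonempty : (RootBasis.Int (ubil M) (uroot (S := S))).Nonempty := by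
  refine ⟨(0, fun _ => -1), fun s => ?_⟩
  rw [ubil_root_apply M _ rfl]
  norm_num

/-- coordinates of elements of the cone of the universal roots -/
theorem ucone_nonneg {v : UV S} (hv : v ∈ RootBasis.cone (uroot (S := S))) :
    (∀ s, 0 ≤ v.1 s) ∧ v.2 = 0 := by
  induction hv using Submodule.span_induction with
  | mem x hx =>
    obtain ⟨s, rfl⟩ := hx
    refine ⟨fun t => ?_, rfl⟩
    rw [uroot]
    classical
    simp only [Finsupp.single_apply]
    split_ifs <;> norm_num
  | zero => exact ⟨fun s => le_refl _, rfl⟩
  | add x y _ _ hx hy =>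
    refine ⟨fun s => ?_, ?_⟩
    · rw [Prod.fst_add, Finsupp.add_apply]
      exact add_nonneg (hx.1 s) (hy.1 s)
    · rw [Prod.snd_add, hx.2, hy.2, add_zero]
  | smul a x _ hx =>
    have h : a • x = (a : ℝ) • x := rfl
    rw [h]
    refine ⟨fun s => ?_, ?_⟩
    · rw [Prod.smul_fst, Finsupp.smul_apply, smul_eq_mul]
      exact mul_nonneg a.2 (hx.1 s)
    · rw [Prod.smul_snd, hx.2, smul_zero]

end univ

section fold

variable {S : Type*} {M : CoxeterMatrix S} {W : Type*} [Group W] (cs : CoxeterSystem M W)

/-- **Folding lemma.** If `g t` is longer than `g` and `s g t` is shorter than `s g` then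
`s g = g t`. -/
theorem fold {g : W} {s t : S} (h1 : ¬ cs.IsRightDescent g t)
    (h2 : cs.IsRightDescent (cs.simple s * g) t) : cs.simple s * g = g * cs.simple t := by
  have hR := uroot_basis M
  set β := hR.rho cs g (uroot t) with hβ
  have hb1 := (ucone_nonneg (hR.tits cs h1))
  have hb2 := (ucone_nonneg (hR.tits_neg cs h2))
  rw [← hβ] at hb1
  rw [hR.rho_mul, ← hβ, hR.rho_simple_apply] at hb2
  have hc : β = (β.1 s) • uroot s := by
    refine Prod.ext ?_ ?_
    · ext r
      by_cases hr : r = s
      · subst hr
        simp [uroot]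
      · have e1 := hb1.1 r
        have e2 := hb2.1 r
        have hz : (uroot s : UV S).1 r = 0 := by
          classical
          simp [uroot, Ne.symm hr]
        simp only [Prod.fst_neg, Prod.fst_sub, Prod.smul_fst, Finsupp.coe_neg, Finsupp.coe_sub,
          Finsupp.coe_smul, Pi.neg_apply, Pi.sub_apply, Pi.smul_apply, smul_eq_mul, hz] at e2
        simp only [Prod.smul_fst, Finsupp.smul_apply, smul_eq_mul, hz]
        linarith
    · rw [hb1.2, Prod.smul_snd, uroot, smul_zero]
  have hself : ubil M β β = 1 := by rw [hβ, hR.B_rho, hR.self]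
  have hc2 : (β.1 s) = 1 := by
    rw [hc, map_smul, LinearMap.map_smul₂, hR.self] at hself
    have h0 := hb1.1 s
    simp only [smul_eq_mul, mul_one] at hself
    nlinarith
  rw [hc2, one_smul] at hc
  have h3 : g * cs.simple t * g⁻¹ = cs.simple s := by
    apply hR.faithful cs (uInt_nonempty M)
    ext1 x
    rw [hR.rho_mul, hR.rho_mul, hR.rho_simple_apply, hR.rho_simple_apply, map_sub, map_smul,
      hR.rho_apply_inv, ← hβ, hc, hR.symm, hR.B_rho_left, inv_inv, ← hβ, hc, hR.symm]
  rw [← h3]
  group

/-- **Exchange condition**, for arbitrary words -/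
theorem exchange (f : List S) {s : S} (h : cs.IsRightDescent (cs.wordProd f) s) :
    ∃ i < f.length, cs.wordProd f * cs.simple s = cs.wordProd (f.eraseIdx i) := by
  induction f with
  | nil => simp [CoxeterSystem.IsRightDescent] at h
  | cons r f ih =>
    by_cases h1 : cs.IsRightDescent (cs.wordProd f) s
    · obtain ⟨i, hi, h2⟩ := ih h1
      refine ⟨i + 1, by simpa using hi, ?_⟩
      rw [List.eraseIdx_cons_succ, cs.wordProd_cons, cs.wordProd_cons, mul_assoc, h2]
    · rw [cs.wordProd_cons] at h
      have h2 := fold cs h1 h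
      refine ⟨0, by simp, ?_⟩
      rw [List.eraseIdx_cons_zero, cs.wordProd_cons, h2, cs.simple_mul_simple_cancel_right]

theorem length_mul_of_not {w : W} {s : S} (h : ¬ cs.IsRightDescent w s) :
    cs.length (w * cs.simple s) = cs.length w + 1 := cs.not_isRightDescent_iff.1 h

/-- **Deletion condition** -/
theorem deletion (f : List S) (h : ¬ cs.IsReduced f) :
    ∃ g : List S, g.Sublist f ∧ g.length < f.length ∧ cs.wordProd g = cs.wordProd f := by
  induction f using List.reverseRecOn with
  | nil => exact absurd (by simp [CoxeterSystem.IsReduced]) h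
  | append_singleton f s ih =>
    by_cases hf : cs.IsReduced f
    · have hd : cs.IsRightDescent (cs.wordProd f) s := by
        by_contra hd
        apply h
        rw [CoxeterSystem.IsReduced, cs.wordProd_append, cs.wordProd_singleton,
          length_mul_of_not cs hd, hf.eq]
        simp
      obtain ⟨i, hi, h2⟩ := exchange cs f hd
      refine ⟨f.eraseIdx i, (List.eraseIdx_sublist f i).trans (List.sublist_append_left f [s]), ?_,
        ?_⟩
      · rw [List.length_eraseIdx_of_lt hi, List.length_append]
        have : [s].length = 1 := rfl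
        omega
      · rw [← h2, cs.wordProd_append, cs.wordProd_singleton]
    · obtain ⟨g, h1, h2, h3⟩ := ih hf
      refine ⟨g ++ [s], h1.append (List.Sublist.refl _), ?_, ?_⟩
      · simp
        omega
      · rw [cs.wordProd_append, h3, cs.wordProd_append]

theorem exists_reduced_sublist (f : List S) :
    ∃ g : List S, g.Sublist f ∧ cs.IsReduced g ∧ cs.wordProd g = cs.wordProd f := by
  suffices H : ∀ n : ℕ, ∀ f : List S, f.length = n →
      ∃ g : List S, g.Sublist f ∧ cs.IsReduced g ∧ cs.wordProd g = cs.wordProd f from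
    H _ f rfl
  intro n
  induction n using Nat.strong_induction_on with
  | _ n ih =>
    intro f hf
    by_cases h : cs.IsReduced f
    · exact ⟨f, List.Sublist.refl _, h, rfl⟩
    · obtain ⟨g, h1, h2, h3⟩ := deletion cs f h
      obtain ⟨g', h4, h5, h6⟩ := ih g.length (by omega) g rfl
      exact ⟨g', h4.trans h1, h5, h6.trans h3⟩

open RootBasis

theorem exists_word_par {J : Set S} {v : W} (hv : v ∈ par cs J) :
    ∃ f : List S, (∀ s ∈ f, s ∈ J) ∧ cs.wordProd f = v := by
  induction hv using Subgroup.closure_induction with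
  | mem w hw =>
    obtain ⟨s, hs, rfl⟩ := hw
    exact ⟨[s], by simpa using hs, by simp⟩
  | one => exact ⟨[], by simp, by simp⟩
  | mul a b _ _ ha hb =>
    obtain ⟨f, h1, h2⟩ := ha
    obtain ⟨g, h3, h4⟩ := hb
    refine ⟨f ++ g, fun s hs => ?_, by rw [cs.wordProd_append, h2, h4]⟩
    rcases List.mem_append.1 hs with h | h
    · exact h1 s h
    · exact h3 s h
  | inv a _ ha =>
    obtain ⟨f, h1, h2⟩ := ha
    exact ⟨f.reverse, fun s hs => h1 s (List.mem_reverse.1 hs), by rw [cs.wordProd_reverse, h2]⟩

theorem wordProd_mem_par {J : Set S} {f : List S} (hf : ∀ s ∈ f, s ∈ J) :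
    cs.wordProd f ∈ par cs J := by
  induction f with
  | nil => rw [cs.wordProd_nil]; exact Subgroup.one_mem _
  | cons s f ih =>
    rw [cs.wordProd_cons]
    exact Subgroup.mul_mem _ (simple_mem_par cs (hf s (by simp)))
      (ih fun t ht => hf t (List.mem_cons_of_mem _ ht))

/-- elements of `W_J` have reduced words in the letters of `J` -/
theorem exists_reduced_par {J : Set S} {v : W} (hv : v ∈ par cs J) :
    ∃ f : List S, (∀ s ∈ f, s ∈ J) ∧ cs.IsReduced f ∧ cs.wordProd f = v := by
  obtain ⟨f, h1, h2⟩ := exists_word_par cs hv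
  obtain ⟨g, h3, h4, h5⟩ := exists_reduced_sublist cs f
  exact ⟨g, fun s hs => h1 s (h3.subset hs), h4, h5.trans h2⟩

/-- minimal representatives of the cosets of `W_J`, in the strong form -/
def MinRep (J : Set S) (u : W) : Prop :=
  ∀ v ∈ par cs J, cs.length (u * v) = cs.length u + cs.length v

theorem exists_minRep (J : Set S) (w : W) :
    ∃ u, ∃ v ∈ par cs J, w = u * v ∧ MinRep cs J u := by
  classical
  -- an element of minimal length in the coset
  have hex : ∃ n, ∃ u, u⁻¹ * w ∈ par cs J ∧ cs.length u = n :=
    ⟨_, w, by rw [inv_mul_cancel]; exact Subgroup.one_mem _, rfl⟩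
  obtain ⟨u, hu1, hu2⟩ := Nat.find_spec hex
  have hmin : ∀ u', u'⁻¹ * w ∈ par cs J → cs.length u ≤ cs.length u' := by
    intro u' hu'
    rw [hu2]
    exact Nat.find_min' hex ⟨u', hu', rfl⟩
  refine ⟨u, u⁻¹ * w, hu1, by group, ?_⟩
  intro v hv
  obtain ⟨f, hf1, hf2, rfl⟩ := exists_reduced_par cs hv
  obtain ⟨ω, hω1, hω2⟩ := cs.exists_isReduced u
  clear hv
  induction f using List.reverseRecOn with
  | nil => simp
  | append_singleton g s ih =>
    have hg : cs.IsReduced g := by
      have := hf2.take g.length
      rwa [List.take_left'] at this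
      rfl
    have hgJ : ∀ t ∈ g, t ∈ J := fun t ht => hf1 t (by simp [ht])
    have hs : s ∈ J := hf1 s (by simp)
    have ih' := ih hgJ hg
    have hlen : cs.length (cs.wordProd g * cs.simple s) = g.length + 1 := by
      have := hf2.eq
      rw [cs.wordProd_append, cs.wordProd_singleton] at this
      simpa using this
    rw [cs.wordProd_append, cs.wordProd_singleton, hlen, ← mul_assoc]
    by_cases hd : cs.IsRightDescent (u * cs.wordProd g) s
    · exfalso
      have hprod : cs.wordProd (ω ++ g) = u * cs.wordProd g := by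
        rw [cs.wordProd_append, ← hω2]
      rw [← hprod] at hd
      obtain ⟨i, hi, h2⟩ := exchange cs _ hd
      rw [hprod] at h2
      by_cases hiω : i < ω.length
      · rw [List.eraseIdx_append_of_lt_length hiω, cs.wordProd_append] at h2
        have h3 : cs.wordProd (ω.eraseIdx i) =
            u * (cs.wordProd g * cs.simple s * (cs.wordProd g)⁻¹) := by
          rw [← mul_assoc, ← mul_assoc, h2]
          group
        have h4 : (cs.wordProd (ω.eraseIdx i))⁻¹ * w ∈ par cs J := by
          have : (cs.wordProd (ω.eraseIdx i))⁻¹ * w =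
              (cs.wordProd g * cs.simple s * (cs.wordProd g)⁻¹)⁻¹ * (u⁻¹ * w) := by
            rw [h3]
            group
          rw [this]
          have hgm := wordProd_mem_par cs hgJ
          exact Subgroup.mul_mem _ (Subgroup.inv_mem _ (Subgroup.mul_mem _ (Subgroup.mul_mem _ hgm
            (simple_mem_par cs hs)) (Subgroup.inv_mem _ hgm))) hu1
        have h5 := hmin _ h4
        have h6 := cs.length_wordProd_le (ω.eraseIdx i)
        rw [List.length_eraseIdx_of_lt hiω] at h6
        have h7 : cs.length u = ω.length := by rw [hω2]; exact hω1.eq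
        omega
      · rw [List.eraseIdx_append_of_length_le (not_lt.1 hiω), cs.wordProd_append, ← hω2,
          mul_assoc] at h2
        have h3 := mul_left_cancel h2
        have h4 := cs.length_wordProd_le (g.eraseIdx (i - ω.length))
        have hi' : i - ω.length < g.length := by
          rw [List.length_append] at hi
          omega
        rw [← h3, hlen, List.length_eraseIdx_of_lt hi'] at h4
        omega
    · rw [length_mul_of_not cs hd, ih', hg.eq]
      ring

theorem MinRep.unique {J : Set S} {u u' : W} (h : MinRep cs J u) (h' : MinRep cs J u')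
    (hv : u⁻¹ * u' ∈ par cs J) : u = u' := by
  have h1 := h _ hv
  have h2 := h' _ (Subgroup.inv_mem _ hv)
  have e1 : u * (u⁻¹ * u') = u' := by group
  have e2 : u' * (u⁻¹ * u')⁻¹ = u := by group
  rw [e1] at h1
  rw [e2, cs.length_inv] at h2
  have h3 : cs.length (u⁻¹ * u') = 0 := by omega
  rw [cs.length_eq_zero_iff] at h3
  exact inv_mul_eq_one.1 h3

theorem minRep_of_not {J : Set S} {u : W} (h : ∀ s ∈ J, ¬ cs.IsRightDescent u s) :
    MinRep cs J u := by
  obtain ⟨u₀, v, hv, rfl, h0⟩ := exists_minRep cs J u
  obtain ⟨f, hf1, hf2, rfl⟩ := exists_reduced_par cs hv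
  rcases List.eq_nil_or_concat' f with rfl | ⟨g, s, rfl⟩
  · rw [cs.wordProd_nil, mul_one]
    exact h0
  · exfalso
    apply h s (hf1 s (by simp))
    have h1 := h0 _ hv
    rw [CoxeterSystem.IsRightDescent, h1, hf2.eq, cs.wordProd_append, cs.wordProd_singleton,
      mul_assoc, cs.simple_mul_simple_cancel_right]
    have h2 := cs.length_mul_le u₀ (cs.wordProd g)
    have h3 := cs.length_wordProd_le g
    rw [List.length_append, List.length_singleton]
    omega

theorem MinRep.not {J : Set S} {u : W} (h : MinRep cs J u) {s : S} (hs : s ∈ J) :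
    ¬ cs.IsRightDescent u s := by
  intro hd
  have := h _ (simple_mem_par cs hs)
  rw [cs.length_simple] at this
  rw [CoxeterSystem.IsRightDescent] at hd
  omega

/-! ### The weak order and walls -/

section weak

variable {V : Type*} [AddCommGroup V] [Module ℝ V] {B : LinearMap.BilinForm ℝ V} {e : S → V}

/-- `y` is at least as close to the fundamental cone as `y'`: every wall which separates `y`
strictly from the cone separates `y'` strictly from the cone. -/
def Leq (h : RootBasis M B e) (y y' : V) : Prop :=
  ∀ (g : W) (t : S), ¬ cs.IsRightDescent g t →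
    0 < B y (h.rho cs g (e t)) → 0 < B y' (h.rho cs g (e t))

theorem Leq.refl (h : RootBasis M B e) (y : V) : Leq cs h y y := fun _ _ _ h => h

theorem Leq.trans {h : RootBasis M B e} {y y' y'' : V} (h1 : Leq cs h y y')
    (h2 : Leq cs h y' y'') : Leq cs h y y'' := fun g t hg h3 => h2 g t hg (h1 g t hg h3)

/-- `a y + b p` with `p` in the fundamental cone is below `y` -/
theorem leq_combo (h : RootBasis M B e) {y p : V} (hp : p ∈ Dom B e) {a b : ℝ} (ha : 0 ≤ a)
    (hb : 0 ≤ b) : Leq cs h (a • y + b • p) y := by
  intro g t hg h1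
  have h2 := h.side_le cs hp hg
  rw [map_add, map_smul, map_smul, LinearMap.add_apply, LinearMap.smul_apply,
    LinearMap.smul_apply, smul_eq_mul, smul_eq_mul] at h1
  by_contra h3
  have h4 := mul_nonpos_of_nonneg_of_nonpos ha (not_lt.1 h3)
  have h5 := mul_nonpos_of_nonneg_of_nonpos hb h2
  linarith

/-- if `s g = g t` then `g (e t) = e s`, provided that `g t` is longer than `g` -/
theorem rho_eq_of_fold (h : RootBasis M B e) (hI : (Int B e).Nonempty) {g : W} {s t : S}
    (hg : ¬ cs.IsRightDescent g t) (hst : cs.simple s * g = g * cs.simple t) :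
    h.rho cs g (e t) = e s := by
  set β := h.rho cs g (e t) with hβ
  have h1 : h.rho cs (cs.simple s * g) (e t) = h.rho cs (g * cs.simple t) (e t) := by rw [hst]
  rw [h.rho_mul, h.rho_mul, h.rho_simple_apply, h.rho_simple_apply, h.self, ← hβ] at h1
  have h2 : h.rho cs g (e t - (2 * (1 : ℝ)) • e t) = -β := by
    rw [hβ, ← map_neg]
    congr 1
    module
  rw [h2] at h1
  have h3 : β = (B (e s) β) • e s := by
    have : (2 : ℝ) • β = (2 : ℝ) • ((B (e s) β) • e s) := by
      rw [smul_smul]
      have h4 : β - (2 * B (e s) β) • e s + β = 0 := by rw [h1]; simp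
      have h5 : (2 : ℝ) • β = (β - (2 * B (e s) β) • e s + β) + (2 * B (e s) β) • e s := by module
      rw [h5, h4, zero_add]
    exact smul_right_injective V (two_ne_zero) this
  set c := B (e s) β with hc
  have hself : B β β = 1 := by rw [hβ, h.B_rho, h.self]
  have hc2 : c * c = 1 := by
    rw [h3, map_smul, LinearMap.map_smul₂, h.self] at hself
    simpa using hself
  obtain ⟨x, hx⟩ := hI
  have h4 := (h.side_lt_iff cs hx).2 hg
  rw [← hβ, h3, map_smul, smul_eq_mul] at h4
  have h5 := hx s
  have h6 : 0 < c := by
    by_contra h6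
    have := mul_nonneg_of_nonpos_of_nonpos (not_lt.1 h6) h5.le
    linarith
  have h7 : c = 1 := by nlinarith
  rw [h3, h7, one_smul]

/-- **Weak order.** If `u` is the minimal element with `y ∈ u D`, and `y` is below `y' = w x'`, then
`u` lies below `w` in the weak order. -/
theorem weak_order (h : RootBasis M B e) (hI : (Int B e).Nonempty) {u w : W} {x x' : V}
    (hx : x ∈ Dom B e) (hx' : x' ∈ Dom B e) (hu : MinRep cs (walls B e x) u)
    (hyy : Leq cs h (h.rho cs u x) (h.rho cs w x')) :
    cs.length w = cs.length u + cs.length (u⁻¹ * w) := by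
  suffices H : ∀ n : ℕ, ∀ u w : W, cs.length u = n → MinRep cs (walls B e x) u →
      Leq cs h (h.rho cs u x) (h.rho cs w x') →
      cs.length w = cs.length u + cs.length (u⁻¹ * w) from H _ u w rfl hu hyy
  clear hu hyy u w
  intro n
  induction n with
  | zero =>
    intro u w hn _ _
    have : u = 1 := cs.length_eq_zero_iff.1 hn
    subst this
    simp
  | succ n ih =>
    intro u w hn hu hyy
    have hu1 : u ≠ 1 := by
      rintro rfl
      rw [cs.length_one] at hn
      omega
    obtain ⟨s, hs⟩ := cs.exists_leftDescent_of_ne_one hu1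
    have hl := cs.isLeftDescent_iff.1 hs
    set y := h.rho cs u x with hy
    set y' := h.rho cs w x' with hy'
    have h0 := h.left_ge cs hx hs
    rw [← hy] at h0
    have hpos : 0 < B y (e s) := by
      rcases h0.lt_or_eq with h1 | h1
      · exact h1
      · exfalso
        have h2 : h.rho cs (cs.simple s * u) x = h.rho cs u x := by
          rw [h.rho_mul, ← hy, h.rho_simple_apply, h.symm (e s), ← h1]
          simp
        have h3 : h.rho cs (u⁻¹ * (cs.simple s * u)) x = x := by
          rw [h.rho_mul, h2, h.rho_inv_apply]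
        have h4 := (h.fix_iff cs hx _).1 h3
        have h5 := hu _ h4
        rw [mul_inv_cancel_left] at h5
        omega
    have hs1 : ¬ cs.IsRightDescent (1 : W) s := cs.not_isRightDescent_one s
    have hpos' : 0 < B y' (e s) := by
      have := hyy 1 s hs1 (by rw [h.rho_one]; exact hpos)
      rwa [h.rho_one] at this
    have hws : cs.IsLeftDescent w s := by
      by_contra hws
      have := h.left_le cs hx' hws
      rw [← hy'] at this
      linarith
    have hwl := cs.isLeftDescent_iff.1 hws
    have hrec := ih (cs.simple s * u) (cs.simple s * w) (by omega) ?_ ?_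
    · have e1 : (cs.simple s * u)⁻¹ * (cs.simple s * w) = u⁻¹ * w := by
        rw [mul_inv_rev, mul_assoc, inv_mul_cancel_left]
      rw [e1] at hrec
      omega
    · intro v hv
      have h1 := hu v hv
      have h2 := cs.length_mul_le (cs.simple s) (cs.simple s * u * v)
      rw [mul_assoc, cs.simple_mul_simple_cancel_left, cs.length_simple] at h2
      have h3 := cs.length_mul_le (cs.simple s * u) v
      rw [mul_assoc] at h3
      rw [mul_assoc]
      omega
    · intro g t hg h1
      rw [h.rho_mul, ← hy, h.B_rho_left, cs.inv_simple, ← h.rho_mul] at h1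
      rw [h.rho_mul, ← hy', h.B_rho_left, cs.inv_simple, ← h.rho_mul]
      by_cases h2 : cs.IsRightDescent (cs.simple s * g) t
      · exfalso
        have h3 := fold cs hg h2
        have h4 := rho_eq_of_fold cs h hI hg h3
        rw [h.rho_mul, h4, h.rho_simple, h.rr_self, map_neg] at h1
        linarith
      · exact hyy _ _ h2 h1

end weak

end fold

end BD
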