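import Pool.Agent.Work.MP_de2d29_al.Defs
import Pool.Agent.Work.MP_de2d29_al.Cox

/-!
# Galleries, symmetry of the Weyl distance, residues
-/

set_option autoImplicit false

open Set

namespace BD

variable {ι : Type} {M : CoxeterMatrix ι} {C : Type}

/-- the length on the Coxeter group of type `M` -/
noncomputable abbrev ll (M : CoxeterMatrix ι) (w : M.Group) : ℕ := M.toCoxeterSystem.length w

/-- the product of a word -/
noncomputable abbrev wp (M : CoxeterMatrix ι) (f : List ι) : M.Group :=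
  M.toCoxeterSystem.wordProd f

theorem ll_one : ll M 1 = 0 := M.toCoxeterSystem.length_one

theorem ll_eq_zero {w : M.Group} : ll M w = 0 ↔ w = 1 := M.toCoxeterSystem.length_eq_zero_iff

theorem ll_inv (w : M.Group) : ll M w⁻¹ = ll M w := M.toCoxeterSystem.length_inv w

theorem ll_mul_le (v w : M.Group) : ll M (v * w) ≤ ll M v + ll M w :=
  M.toCoxeterSystem.length_mul_le v w

theorem ll_simple (i : ι) : ll M (M.simple i) = 1 := M.toCoxeterSystem.length_simple i

theorem simple_mul_self (i : ι) : M.simple i * M.simple i = 1 :=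
  M.toCoxeterSystem.simple_mul_simple_self i

theorem simple_inv (i : ι) : (M.simple i)⁻¹ = M.simple i :=
  M.toCoxeterSystem.inv_simple i

theorem simple_mul_cancel (i : ι) (w : M.Group) : M.simple i * (M.simple i * w) = w := by
  rw [← mul_assoc, simple_mul_self, one_mul]

theorem mul_simple_cancel (i : ι) (w : M.Group) : w * M.simple i * M.simple i = w := by
  rw [mul_assoc, simple_mul_self, mul_one]

theorem simple_ne_one (i : ι) : M.simple i ≠ 1 := by
  intro h
  have h1 : ll M (M.simple i) = 1 := ll_simple i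
  rw [h, ll_one] at h1
  exact absurd h1 (by norm_num)

theorem ll_simple_mul (i : ι) (w : M.Group) :
    ll M (M.simple i * w) = ll M w + 1 ∨ ll M (M.simple i * w) + 1 = ll M w :=
  M.toCoxeterSystem.length_simple_mul w i

theorem ll_mul_simple (w : M.Group) (i : ι) :
    ll M (w * M.simple i) = ll M w + 1 ∨ ll M (w * M.simple i) + 1 = ll M w :=
  M.toCoxeterSystem.length_mul_simple w i

theorem exists_left {w : M.Group} (hw : w ≠ 1) :
    ∃ i u, w = M.simple i * u ∧ ll M w = ll M u + 1 := by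
  obtain ⟨i, hi⟩ := M.toCoxeterSystem.exists_leftDescent_of_ne_one hw
  refine ⟨i, M.simple i * w, (simple_mul_cancel i w).symm, ?_⟩
  exact ((M.toCoxeterSystem.isLeftDescent_iff).1 hi).symm

theorem exists_right {w : M.Group} (hw : w ≠ 1) :
    ∃ i u, w = u * M.simple i ∧ ll M w = ll M u + 1 := by
  obtain ⟨i, hi⟩ := M.toCoxeterSystem.exists_rightDescent_of_ne_one hw
  refine ⟨i, w * M.simple i, (mul_simple_cancel i w).symm, ?_⟩
  exact ((M.toCoxeterSystem.isRightDescent_iff).1 hi).symm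

/-- induction on the length, letters on the left -/
theorem left_induction {p : M.Group → Prop} (one : p 1)
    (mul : ∀ i u, ll M (M.simple i * u) = ll M u + 1 → p u → p (M.simple i * u))
    (w : M.Group) : p w := by
  suffices h : ∀ n : ℕ, ∀ w : M.Group, ll M w = n → p w from h _ w rfl
  intro n
  induction n with
  | zero => intro w hw; rw [ll_eq_zero.1 hw]; exact one
  | succ n ih =>
    intro w hw
    have hw1 : w ≠ 1 := by
      rintro rfl
      rw [ll_one] at hw
      omega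
    obtain ⟨i, u, rfl, hu⟩ := exists_left hw1
    exact mul i u hu (ih u (by omega))

/-- induction on the length, letters on the right -/
theorem right_induction {p : M.Group → Prop} (one : p 1)
    (mul : ∀ u i, ll M (u * M.simple i) = ll M u + 1 → p u → p (u * M.simple i))
    (w : M.Group) : p w := by
  suffices h : ∀ n : ℕ, ∀ w : M.Group, ll M w = n → p w from h _ w rfl
  intro n
  induction n with
  | zero => intro w hw; rw [ll_eq_zero.1 hw]; exact one
  | succ n ih =>
    intro w hw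
    have hw1 : w ≠ 1 := by
      rintro rfl
      rw [ll_one] at hw
      omega
    obtain ⟨i, u, rfl, hu⟩ := exists_right hw1
    exact mul u i hu (ih u (by omega))

namespace Building

variable (Δ : Building M C)

theorem δ_self (c : C) : Δ.δ c c = 1 := (Δ.eq_one c c).2 rfl

theorem eq_of_δ {c d : C} (h : Δ.δ c d = 1) : c = d := (Δ.eq_one c d).1 h

theorem adj_symm {c d : C} {i : ι} (h : Δ.δ c d = M.simple i) : Δ.δ d c = M.simple i := by
  rcases Δ.step c d c i h with h1 | h1
  · rw [Δ.δ_self] at h1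
    have h2 := congrArg (fun x => M.simple i * x) h1
    simp only [simple_mul_cancel, mul_one] at h2
    exact h2.symm
  · rw [Δ.δ_self] at h1
    have := Δ.eq_of_δ h1.symm
    subst this
    rw [Δ.δ_self] at h
    exact absurd h.symm (simple_ne_one i)

/-- the Weyl distance is multiplicative along reduced decompositions -/
theorem δ_mul {a b c : C} (h : ll M (Δ.δ a b * Δ.δ b c) = ll M (Δ.δ a b) + ll M (Δ.δ b c)) :
    Δ.δ a c = Δ.δ a b * Δ.δ b c := by
  suffices H : ∀ u v : M.Group, ∀ a, Δ.δ a b = u → Δ.δ b c = v →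
      ll M (u * v) = ll M u + ll M v → Δ.δ a c = u * v from H _ _ a rfl rfl h
  intro u v
  induction u using left_induction with
  | one =>
    intro a h1 h2 _
    rw [Δ.eq_of_δ h1, h2, one_mul]
  | mul i u hu ih =>
    intro a h1 h2 h3
    obtain ⟨a', ha1, ha2⟩ := Δ.exist a b i
    rw [h1, simple_mul_cancel] at ha2
    have h4 : ll M (u * v) = ll M u + ll M v := by
      have h5 := ll_mul_le u v
      have h6 : ll M (M.simple i * u * v) ≤ 1 + ll M (u * v) := by
        rw [mul_assoc]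
        have := ll_mul_le (M.simple i) (u * v)
        rwa [ll_simple] at this
      omega
    have h7 := ih a' ha2 h2 h4
    have h8 := Δ.step_up a a' c i (Δ.adj_symm ha1) (by
      rw [h7, ← mul_assoc]
      change ll M _ = ll M _ + 1
      omega)
    rw [h8, h7, mul_assoc]

theorem δ_symm (a b : C) : Δ.δ b a = (Δ.δ a b)⁻¹ := by
  suffices H : ∀ u : M.Group, ∀ a, Δ.δ a b = u → Δ.δ b a = u⁻¹ from H _ a rfl
  intro u
  induction u using left_induction with
  | one =>
    intro a h1
    rw [Δ.eq_of_δ h1, Δ.δ_self, inv_one]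
  | mul i u hu ih =>
    intro a h1
    obtain ⟨a', ha1, ha2⟩ := Δ.exist a b i
    rw [h1, simple_mul_cancel] at ha2
    have h2 := ih a' ha2
    have h3 := Δ.δ_mul (a := b) (b := a') (c := a) (by
      rw [h2, ha1, ll_inv, ll_simple]
      have : u⁻¹ * M.simple i = (M.simple i * u)⁻¹ := by rw [mul_inv_rev, simple_inv]
      rw [this, ll_inv, hu])
    rw [h3, h2, ha1, mul_inv_rev, simple_inv]

theorem step_right {a c c' : C} {i : ι} (h : Δ.δ c c' = M.simple i) :
    Δ.δ a c' = Δ.δ a c * M.simple i ∨ Δ.δ a c' = Δ.δ a c := by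
  rcases Δ.step c' c a i (Δ.adj_symm h) with h1 | h1
  · left
    rw [Δ.δ_symm c' a, h1, mul_inv_rev, simple_inv, ← Δ.δ_symm c a]
  · right
    rw [Δ.δ_symm c' a, h1, ← Δ.δ_symm c a]

theorem step_right_up {a c c' : C} {i : ι} (h : Δ.δ c c' = M.simple i)
    (hl : ll M (Δ.δ a c * M.simple i) = ll M (Δ.δ a c) + 1) :
    Δ.δ a c' = Δ.δ a c * M.simple i := by
  rw [← h]
  exact Δ.δ_mul (by rw [h, ll_simple, hl])

theorem exist_right (a c : C) (i : ι) :
    ∃ c', Δ.δ c c' = M.simple i ∧ Δ.δ a c' = Δ.δ a c * M.simple i := by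
  obtain ⟨c', h1, h2⟩ := Δ.exist c a i
  refine ⟨c', Δ.adj_symm h1, ?_⟩
  rw [Δ.δ_symm c' a, h2, mul_inv_rev, simple_inv, ← Δ.δ_symm c a]

/-- two chambers adjacent to a third one in the same panel are equal or adjacent -/
theorem adj_trans {a b c : C} {i : ι} (h1 : Δ.δ a b = M.simple i) (h2 : Δ.δ b c = M.simple i) :
    a = c ∨ Δ.δ a c = M.simple i := by
  rcases Δ.step a b c i h1 with h | h
  · rw [h2, simple_mul_self] at h
    exact Or.inl (Δ.eq_of_δ h)
  · rw [h2] at h
    exact Or.inr h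

/-- the projection on a panel is unique -/
theorem adj_unique {a c c₁ c₂ : C} {i : ι} (h1 : Δ.δ c c₁ = M.simple i)
    (h2 : Δ.δ c c₂ = M.simple i) (h3 : Δ.δ a c₁ = Δ.δ a c * M.simple i)
    (h4 : Δ.δ a c₂ = Δ.δ a c * M.simple i)
    (hl : ll M (Δ.δ a c * M.simple i) + 1 = ll M (Δ.δ a c)) : c₁ = c₂ := by
  rcases Δ.adj_trans (Δ.adj_symm h1) h2 with h | h
  · exact h
  · have h5 := Δ.step_right_up (a := a) h (by
      rw [h3, mul_simple_cancel]
      omega)
    rw [h3, h4, mul_simple_cancel] at h5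
    rw [h5] at hl
    omega

/-- galleries of a given type: there is one for every word with the right product -/
theorem exists_gallery (f : List ι) : ∀ a b : C, Δ.δ a b = wp M f → f ≠ [] →
    ∃ i g c, f = i :: g ∧ Δ.δ a c = M.simple i ∧ Δ.δ c b = wp M g := by
  intro a b h hf
  obtain ⟨i, g, rfl⟩ := List.exists_cons_of_ne_nil hf
  obtain ⟨c, h1, h2⟩ := Δ.exist a b i
  refine ⟨i, g, c, rfl, Δ.adj_symm h1, ?_⟩
  rw [h2, h, wp, M.toCoxeterSystem.wordProd_cons]
  exact simple_mul_cancel i _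

/-- existence of the intermediate chamber, for every decomposition -/
theorem exists_between (e c : C) (w v : M.Group) (h : Δ.δ e c = w * v) :
    ∃ c', Δ.δ e c' = w ∧ Δ.δ c' c = v := by
  induction w using left_induction generalizing e with
  | one => exact ⟨e, Δ.δ_self e, by rw [h, one_mul]⟩
  | mul i u hu ih =>
    obtain ⟨a', h1, h2⟩ := Δ.exist e c i
    rw [h, mul_assoc, simple_mul_cancel] at h2
    obtain ⟨c', h3, h4⟩ := ih a' h2
    refine ⟨c', ?_, h4⟩
    have h5 := Δ.adj_symm h1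
    have h6 := Δ.δ_mul (a := e) (b := a') (c := c') (by
      rw [h5, h3, hu, ll_simple]
      omega)
    rw [h6, h5, h3]

/-- uniqueness of the intermediate chamber, for reduced decompositions -/
theorem between_unique {e c c₁ c₂ : C} {w v : M.Group} (hl : ll M (w * v) = ll M w + ll M v)
    (h1 : Δ.δ e c₁ = w) (h1' : Δ.δ c₁ c = v) (h2 : Δ.δ e c₂ = w) (h2' : Δ.δ c₂ c = v) :
    c₁ = c₂ := by
  induction v using right_induction generalizing c with
  | one => rw [Δ.eq_of_δ h1', Δ.eq_of_δ h2']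
  | mul u i hu ih =>
    have hle : ll M (w * u) = ll M w + ll M u := by
      have h3 := ll_mul_le w u
      have h4 := ll_mul_le (w * u) (M.simple i)
      rw [ll_simple, mul_assoc] at h4
      omega
    have hec : Δ.δ e c = w * (u * M.simple i) := by
      have := Δ.δ_mul (a := e) (b := c₁) (c := c) (by rw [h1, h1', hl])
      rw [this, h1, h1']
    -- the chamber before `c`
    have key : ∀ c', Δ.δ e c' = w → Δ.δ c' c = u * M.simple i →
        ∃ d, Δ.δ c d = M.simple i ∧ Δ.δ c' d = u ∧ Δ.δ e d = w * u := by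
      intro c' h3 h4
      obtain ⟨d, h5, h6⟩ := Δ.exist_right c' c i
      rw [h4, mul_simple_cancel] at h6
      refine ⟨d, h5, h6, ?_⟩
      have := Δ.δ_mul (a := e) (b := c') (c := d) (by rw [h3, h6, hle])
      rw [this, h3, h6]
    obtain ⟨d₁, ha1, hb1, hc1⟩ := key c₁ h1 h1'
    obtain ⟨d₂, ha2, hb2, hc2⟩ := key c₂ h2 h2'
    have hd : d₁ = d₂ := by
      have h5 : Δ.δ e c * M.simple i = w * u := by
        rw [hec, ← mul_assoc, mul_simple_cancel]
      refine Δ.adj_unique (a := e) ha1 ha2 (by rw [hc1, h5]) (by rw [hc2, h5]) ?_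
      rw [h5, hec]
      omega
    subst hd
    exact ih hle hb1 hb2

theorem existsUnique_between {e c : C} {w v : M.Group} (h : Δ.δ e c = w * v)
    (hl : ll M (w * v) = ll M w + ll M v) : ∃! c', Δ.δ e c' = w ∧ Δ.δ c' c = v := by
  obtain ⟨c', h1, h2⟩ := Δ.exists_between e c w v h
  exact ⟨c', ⟨h1, h2⟩, fun c'' h3 => Δ.between_unique hl h3.1 h3.2 h1 h2⟩

/-- `b` lies on a minimal gallery from `a` to `c` -/
def Btw (a b c : C) : Prop :=
  Δ.δ a c = Δ.δ a b * Δ.δ b c ∧ ll M (Δ.δ a c) = ll M (Δ.δ a b) + ll M (Δ.δ b c)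

variable {Δ}

theorem Btw.of_length {a b c : C}
    (h : ll M (Δ.δ a b * Δ.δ b c) = ll M (Δ.δ a b) + ll M (Δ.δ b c)) : Δ.Btw a b c := by
  have := Δ.δ_mul h
  exact ⟨this, by rw [this, h]⟩

theorem Btw.symm {a b c : C} (h : Δ.Btw a b c) : Δ.Btw c b a := by
  obtain ⟨h1, h2⟩ := h
  refine ⟨?_, ?_⟩
  · rw [Δ.δ_symm a c, h1, mul_inv_rev, ← Δ.δ_symm, ← Δ.δ_symm]
  · rw [Δ.δ_symm a c, Δ.δ_symm b c, Δ.δ_symm a b, ll_inv, ll_inv, ll_inv, h2, add_comm]

theorem Btw.left (a b : C) : Δ.Btw a a b := by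
  refine ⟨by rw [Δ.δ_self, one_mul], ?_⟩
  rw [Δ.δ_self, ll_one, zero_add]

theorem Btw.right (a b : C) : Δ.Btw a b b := by
  refine ⟨by rw [Δ.δ_self, mul_one], ?_⟩
  rw [Δ.δ_self, ll_one, add_zero]

/-- `a b c` and `a c d` give `b c d` -/
theorem Btw.trans₁ {a b c d : C} (h1 : Δ.Btw a b c) (h2 : Δ.Btw a c d) : Δ.Btw b c d := by
  apply Btw.of_length
  have e1 : Δ.δ a d = Δ.δ a b * (Δ.δ b c * Δ.δ c d) := by rw [h2.1, h1.1, mul_assoc]
  have e2 := ll_mul_le (Δ.δ a b) (Δ.δ b c * Δ.δ c d)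
  have e3 := ll_mul_le (Δ.δ b c) (Δ.δ c d)
  rw [← e1] at e2
  have e4 := h1.2
  have e5 := h2.2
  omega

/-- `a b c` and `a c d` give `a b d` -/
theorem Btw.trans₂ {a b c d : C} (h1 : Δ.Btw a b c) (h2 : Δ.Btw a c d) : Δ.Btw a b d := by
  have h3 := h1.trans₁ h2
  refine ⟨by rw [h2.1, h1.1, h3.1, mul_assoc], ?_⟩
  have e4 := h1.2
  have e5 := h2.2
  have e6 := h3.2
  omega

theorem Btw.eq_of_δ_eq {a b b' c : C} (h : Δ.Btw a b c) (h' : Δ.Btw a b' c)
    (hb : Δ.δ a b = Δ.δ a b') : b = b' := by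
  have e1 : Δ.δ b' c = Δ.δ b c := by
    have := h.1.symm.trans h'.1
    rw [hb] at this
    exact (mul_left_cancel this).symm
  exact Δ.between_unique (w := Δ.δ a b) (v := Δ.δ b c) (by rw [← h.1, h.2]) rfl rfl hb.symm e1

theorem exists_btw {a c : C} {w v : M.Group} (h : Δ.δ a c = w * v)
    (hl : ll M (Δ.δ a c) = ll M w + ll M v) : ∃ b, Δ.Btw a b c ∧ Δ.δ a b = w ∧ Δ.δ b c = v := by
  obtain ⟨b, h1, h2⟩ := Δ.exists_between a c w v h
  exact ⟨b, ⟨by rw [h, h1, h2], by rw [hl, h1, h2]⟩, h1, h2⟩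

/-! ### Residues -/

variable (M) in
/-- the parabolic subgroup of type `J` -/
noncomputable abbrev Par (J : Set ι) : Subgroup M.Group :=
  Pool.Agent.Work.MP_de2d29_al.RootBasis.par M.toCoxeterSystem J

theorem simple_mem_Par {J : Set ι} {i : ι} (hi : i ∈ J) : M.simple i ∈ Par M J :=
  Pool.Agent.Work.MP_de2d29_al.RootBasis.simple_mem_par M.toCoxeterSystem hi

theorem Par_mono {J J' : Set ι} (h : J ⊆ J') : Par M J ≤ Par M J' :=
  Subgroup.closure_mono (Set.image_mono h)

theorem δ_par_left {J : Set ι} {a b : C} (c : C) (h : Δ.δ a b ∈ Par M J) :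
    ∃ v ∈ Par M J, Δ.δ a c = v * Δ.δ b c := by
  obtain ⟨f, hf, hfe⟩ := exists_word_par M.toCoxeterSystem h
  induction f generalizing a with
  | nil =>
    rw [M.toCoxeterSystem.wordProd_nil] at hfe
    rw [Δ.eq_of_δ hfe.symm]
    exact ⟨1, Subgroup.one_mem _, by rw [one_mul]⟩
  | cons i f ih =>
    obtain ⟨a', h1, h2⟩ := Δ.exist a b i
    have h3 : Δ.δ a' b = M.toCoxeterSystem.wordProd f := by
      rw [h2, ← hfe, M.toCoxeterSystem.wordProd_cons]
      exact simple_mul_cancel i _
    have hf' : ∀ s ∈ f, s ∈ J := fun s hs => hf s (List.mem_cons_of_mem _ hs)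
    obtain ⟨v, hv, hv2⟩ := ih (a := a') (by rw [h3]; exact wordProd_mem_par _ hf') hf' h3.symm
    rcases Δ.step a a' c i (Δ.adj_symm h1) with h4 | h4
    · refine ⟨M.simple i * v, Subgroup.mul_mem _ (simple_mem_Par (hf i (by simp))) hv, ?_⟩
      rw [h4, hv2, mul_assoc]
    · exact ⟨v, hv, by rw [h4, hv2]⟩

theorem δ_par_right {J : Set ι} {b c : C} (a : C) (h : Δ.δ b c ∈ Par M J) :
    ∃ v ∈ Par M J, Δ.δ a c = Δ.δ a b * v := by
  obtain ⟨v, hv, h1⟩ := Δ.δ_par_left (a := c) (b := b) a (by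
    rw [Δ.δ_symm b c]; exact Subgroup.inv_mem _ h)
  refine ⟨v⁻¹, Subgroup.inv_mem _ hv, ?_⟩
  rw [Δ.δ_symm c a, h1, mul_inv_rev, ← Δ.δ_symm]

theorem res_symm {J : Set ι} {a b : C} (h : Δ.δ a b ∈ Par M J) : Δ.δ b a ∈ Par M J := by
  rw [Δ.δ_symm a b]
  exact Subgroup.inv_mem _ h

theorem res_trans {J : Set ι} {a b c : C} (h1 : Δ.δ a b ∈ Par M J) (h2 : Δ.δ b c ∈ Par M J) :
    Δ.δ a c ∈ Par M J := by
  obtain ⟨v, hv, h3⟩ := Δ.δ_par_left c h1
  rw [h3]
  exact Subgroup.mul_mem _ hv h2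

theorem res_self {J : Set ι} (a : C) : Δ.δ a a ∈ Par M J := by
  rw [Δ.δ_self]
  exact Subgroup.one_mem _

/-- in a residue, the distances from a chamber are in one coset -/
theorem inv_mul_mem_par {J : Set ι} {b c : C} (a : C) (h : Δ.δ b c ∈ Par M J) :
    (Δ.δ a b)⁻¹ * Δ.δ a c ∈ Par M J := by
  obtain ⟨v, hv, h1⟩ := Δ.δ_par_right a h
  rw [h1, inv_mul_cancel_left]
  exact hv

/-- `p` is the projection of `e` on its residue of type `J` -/
def IsProj (Δ : Building M C) (J : Set ι) (e p : C) : Prop := MinRep M.toCoxeterSystem J (Δ.δ e p)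

theorem IsProj.btw {J : Set ι} {e p d : C} (h : Δ.IsProj J e p) (hd : Δ.δ p d ∈ Par M J) :
    Δ.Btw e p d := Btw.of_length (h _ hd)

variable (Δ) in
theorem exists_proj (J : Set ι) (e c : C) : ∃ p, Δ.δ p c ∈ Par M J ∧ Δ.IsProj J e p := by
  obtain ⟨u, v, hv, h1, h2⟩ := exists_minRep M.toCoxeterSystem J (Δ.δ e c)
  obtain ⟨p, h3, h4⟩ := Δ.exists_between e c u v h1
  exact ⟨p, by rw [h4]; exact hv, by rw [IsProj, h3]; exact h2⟩

theorem IsProj.unique {J : Set ι} {e p p' : C} (h : Δ.IsProj J e p) (h' : Δ.IsProj J e p')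
    (hd : Δ.δ p p' ∈ Par M J) : p = p' := by
  have h1 := MinRep.unique M.toCoxeterSystem h h' (Δ.inv_mul_mem_par e hd)
  exact (h.btw hd).eq_of_δ_eq (Btw.right e p') h1

end Building

/-! ### Folding -/

section foldB

open Pool.Agent.Work.MP_de2d29_al RootBasis

variable {V : Type*} [AddCommGroup V] [Module ℝ V] {B : LinearMap.BilinForm ℝ V} {e : ι → V}

/-- the action of the Coxeter group given by a root basis -/
noncomputable abbrev act (h : RootBasis M B e) (w : M.Group) (x : V) : V :=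
  h.rho M.toCoxeterSystem w x

theorem fold_le (h : RootBasis M B e) (Δ : Building M C) {a d : V} (ha : a ∈ Dom B e)
    (hd : d ∈ Dom B e) (x c c' : C) :
    B a (act h (Δ.δ x c') d) ≤ B a (act h (Δ.δ x c) (act h (Δ.δ c c') d)) := by
  suffices H : ∀ v : M.Group, ∀ c, Δ.δ c c' = v →
      B a (act h (Δ.δ x c') d) ≤ B a (act h (Δ.δ x c) (act h v d)) from H _ c rfl
  intro v
  induction v using left_induction with
  | one =>
    intro c hc
    rw [Δ.eq_of_δ hc]
    simp only [act]
    rw [h.rho_one]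
  | mul i v hv ih =>
    intro c hc
    obtain ⟨c₁, h1, h2⟩ := Δ.exist c c' i
    rw [hc, simple_mul_cancel] at h2
    have h3 := ih c₁ h2
    refine h3.trans ?_
    rcases Δ.step_right (a := x) (Δ.adj_symm h1) with h4 | h4
    · rw [h4]
      simp only [act]
      rw [← h.rho_mul, ← h.rho_mul, mul_assoc]
    · rw [h4]
      -- `i` is a right descent of `δ x c`
      have hdesc : M.toCoxeterSystem.IsRightDescent (Δ.δ x c) i := by
        by_contra hn
        have h5 := Δ.step_right_up (a := x) (Δ.adj_symm h1)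
          (M.toCoxeterSystem.not_isRightDescent_iff.1 hn)
        rw [h4] at h5
        exact simple_ne_one i (mul_left_cancel (a := Δ.δ x c) (by rw [mul_one]; exact h5.symm))
      have hnl : ¬ M.toCoxeterSystem.IsLeftDescent v i := by
        intro hl
        have h5 := M.toCoxeterSystem.isLeftDescent_iff.1 hl
        change ll M (M.simple i * v) + 1 = ll M v at h5
        omega
      have e1 := h.left_le M.toCoxeterSystem hd hnl
      have e2 := h.side_ge M.toCoxeterSystem ha hdesc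
      have e3 : act h (M.simple i * v) d = act h v d - (2 * B (e i) (act h v d)) • e i := by
        simp only [act]
        rw [h.rho_mul]
        exact h.rho_simple_apply M.toCoxeterSystem i _
      rw [e3]
      simp only [act, map_sub, map_smul, smul_eq_mul]
      rw [h.symm (e i)]
      have := mul_nonneg_of_nonpos_of_nonpos e1 (neg_nonpos.2 e2)
      nlinarith

/-- retractions are `1`-Lipschitz, in terms of the form -/
theorem retr_le (h : RootBasis M B e) (Δ : Building M C) {x y : V} (hx : x ∈ Dom B e)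
    (hy : y ∈ Dom B e) (o c c' : C) :
    B x (act h (Δ.δ c c') y) ≤ B (act h (Δ.δ o c) x) (act h (Δ.δ o c') y) := by
  have h1 := fold_le h Δ hx hy c o c'
  refine h1.trans_eq ?_
  simp only [act]
  rw [Δ.δ_symm o c, ← h.B_rho_left]

end foldB

end BD
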