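import Mathlib

/-!
# Closed hemispheres in cone complexes

`C` is the cone over a spherical complex all of whose chambers are copies of one cone
`D = {x | ∀ i, 0 ≤ ⟪x, α i⟫}`, `mk c x` is the point of type `x` in the chamber `c`. On the chamber
`c` there is the linear function `x ↦ ⟪U c, x⟫`. If there are opposite points (the maps `G`), then
`C ∖ 0` retracts onto the union of the faces on which the function is `≤ 0`.
-/

set_option autoImplicit false

open Set Metric Topology Filter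

namespace BC

/-! ## Nearest points of cones -/

section Cone

variable {V : Type*} [NormedAddCommGroup V] [InnerProductSpace ℝ V]

/-- `m` is the nearest point of the cone `F` to `u` -/
def IsNp (F : Set V) (u m : V) : Prop :=
  m ∈ F ∧ (∀ y ∈ F, inner ℝ u y ≤ inner ℝ m y) ∧ inner ℝ u m = ‖m‖ ^ 2

theorem IsNp.sub_sq {F G : Set V} {u m m' : V} (h : IsNp F u m) (h' : IsNp G u m') (hGF : G ⊆ F) :
    ‖m - m'‖ ^ 2 ≤ ‖m‖ ^ 2 - ‖m'‖ ^ 2 := by
  have h1 := h.2.1 m' (hGF h'.1)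
  rw [h'.2.2] at h1
  rw [norm_sub_sq_real]
  linarith

theorem IsNp.norm_le {F G : Set V} {u m m' : V} (h : IsNp F u m) (h' : IsNp G u m')
    (hGF : G ⊆ F) : ‖m'‖ ≤ ‖m‖ := by
  have h1 := h.sub_sq h' hGF
  have h2 : 0 ≤ ‖m - m'‖ ^ 2 := sq_nonneg _
  exact le_of_sq_le_sq (by linarith) (norm_nonneg _)

theorem IsNp.eq_of_norm_eq {F G : Set V} {u m m' : V} (h : IsNp F u m) (h' : IsNp G u m')
    (hGF : G ⊆ F) (e : ‖m'‖ = ‖m‖) : m' = m := by
  have h1 := h.sub_sq h' hGF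
  rw [e, sub_self] at h1
  have h2 : ‖m - m'‖ = 0 := by
    have := sq_nonneg ‖m - m'‖
    exact pow_eq_zero_iff (two_ne_zero) |>.1 (le_antisymm h1 this)
  exact (sub_eq_zero.1 (norm_eq_zero.1 h2)).symm

theorem IsNp.unique {F : Set V} {u m m' : V} (h : IsNp F u m) (h' : IsNp F u m') : m' = m :=
  h.eq_of_norm_eq h' subset_rfl (le_antisymm (h.norm_le h' subset_rfl) (h'.norm_le h subset_rfl))

theorem IsNp.of_subset {F G : Set V} {u m : V} (h : IsNp F u m) (hGF : G ⊆ F) (hm : m ∈ G) :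
    IsNp G u m := ⟨hm, fun y hy => h.2.1 y (hGF hy), h.2.2⟩

theorem IsNp.congr {F : Set V} {u u' m : V} (h : IsNp F u m)
    (e : ∀ y ∈ F, inner ℝ u y = (inner ℝ u' y : ℝ)) : IsNp F u' m :=
  ⟨h.1, fun y hy => (e y hy).symm.le.trans (h.2.1 y hy), (e m h.1).symm.trans h.2.2⟩

/-- the face cones -/
def fc {ι : Type*} (α : ι → V) (J : Set ι) : Set V :=
  {x | (∀ i, 0 ≤ (inner ℝ x (α i) : ℝ)) ∧ ∀ i ∈ J, (inner ℝ x (α i) : ℝ) = 0}

variable {ι : Type*} {α : ι → V}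

theorem fc_anti {J K : Set ι} (h : J ⊆ K) : fc α K ⊆ fc α J := fun _ hx =>
  ⟨hx.1, fun i hi => hx.2 i (h hi)⟩

theorem isClosed_fc (J : Set ι) : IsClosed (fc α J) := by
  have e : fc α J = (⋂ i, {x | 0 ≤ (inner ℝ x (α i) : ℝ)}) ∩ ⋂ i ∈ J, {x | (inner ℝ x (α i) : ℝ) = 0} := by
    ext x
    simp [fc]
  rw [e]
  refine IsClosed.inter (isClosed_iInter fun i => isClosed_le continuous_const (by fun_prop)) ?_
  exact isClosed_iInter fun i => isClosed_iInter fun _ => isClosed_eq (by fun_prop) continuous_const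

theorem zero_mem_fc (J : Set ι) : (0 : V) ∈ fc α J := by simp [fc]

theorem fc_add {J : Set ι} {x y : V} (hx : x ∈ fc α J) (hy : y ∈ fc α J) : x + y ∈ fc α J := by
  refine ⟨fun i => ?_, fun i hi => ?_⟩
  · rw [inner_add_left]
    exact add_nonneg (hx.1 i) (hy.1 i)
  · rw [inner_add_left, hx.2 i hi, hy.2 i hi, add_zero]

theorem fc_smul {J : Set ι} {x : V} (hx : x ∈ fc α J) {t : ℝ} (ht : 0 ≤ t) : t • x ∈ fc α J := by
  refine ⟨fun i => ?_, fun i hi => ?_⟩
  · rw [real_inner_smul_left]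
    exact mul_nonneg ht (hx.1 i)
  · rw [real_inner_smul_left, hx.2 i hi, mul_zero]

theorem convex_fc (J : Set ι) : Convex ℝ (fc α J) := by
  intro x hx y hy a b ha hb _
  exact fc_add (fc_smul hx ha) (fc_smul hy hb)

theorem exists_isNp [CompleteSpace V] (J : Set ι) (u : V) : ∃ m, IsNp (fc α J) u m := by
  obtain ⟨m, hm, hmin⟩ := exists_norm_eq_iInf_of_complete_convex
    ⟨0, zero_mem_fc (α := α) J⟩ (isClosed_fc J).isComplete (convex_fc J) u
  have h1 := (norm_eq_iInf_iff_real_inner_le_zero (convex_fc J) hm).1 hmin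
  have h2 := h1 0 (zero_mem_fc J)
  have h3 := h1 ((2 : ℝ) • m) (fc_smul hm (by norm_num))
  have e2 : (2 : ℝ) • m - m = m := by
    rw [two_smul]
    abel
  rw [e2, inner_sub_left, real_inner_self_eq_norm_sq] at h3
  rw [zero_sub, inner_neg_right, inner_sub_left, real_inner_self_eq_norm_sq] at h2
  refine ⟨m, hm, fun y hy => ?_, by linarith⟩
  have h4 := h1 y hy
  rw [inner_sub_right, inner_sub_left, inner_sub_left, real_inner_self_eq_norm_sq] at h4
  linarith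

/-- the set of types of a point -/
def ty (α : ι → V) (x : V) : Set ι := {i | (inner ℝ x (α i) : ℝ) = 0}

theorem mem_fc_ty {x : V} (hx : ∀ i, 0 ≤ (inner ℝ x (α i) : ℝ)) : x ∈ fc α (ty α x) :=
  ⟨hx, fun _ h => h⟩

theorem ty_of_mem {J : Set ι} {x : V} (hx : x ∈ fc α J) : J ⊆ ty α x := fun i hi => hx.2 i hi

/-- **The exit parameter.** -/
theorem exists_lam [Finite ι] {μ : V} (hμ : ∀ i, 0 ≤ (inner ℝ μ (α i) : ℝ))
    (hμ' : ∃ i, 0 < (inner ℝ μ (α i) : ℝ)) :
    ∃ lam : V → ℝ, Continuous lam ∧ ∀ x, (∀ i, 0 ≤ (inner ℝ x (α i) : ℝ)) → 0 ≤ lam x ∧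
      (∀ i, 0 ≤ (inner ℝ (x - lam x • μ) (α i) : ℝ)) ∧
      ∃ i, 0 < (inner ℝ μ (α i) : ℝ) ∧ (inner ℝ (x - lam x • μ) (α i) : ℝ) = 0 := by
  classical
  have : Fintype ι := Fintype.ofFinite ι
  let s : Finset ι := Finset.univ.filter fun i => 0 < (inner ℝ μ (α i) : ℝ)
  have hs : s.Nonempty := by
    obtain ⟨i, hi⟩ := hμ'
    exact ⟨i, by simpa [s] using hi⟩
  have hmem : ∀ i, i ∈ s ↔ 0 < (inner ℝ μ (α i) : ℝ) := by
    intro i
    simp [s]
  refine ⟨fun x => s.inf' hs fun i => (inner ℝ x (α i) : ℝ) / inner ℝ μ (α i), ?_, fun x hx => ?_⟩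
  · refine Continuous.finset_inf'_apply hs fun i _ => ?_
    fun_prop
  · have hle : ∀ i ∈ s, (s.inf' hs fun i => (inner ℝ x (α i) : ℝ) / inner ℝ μ (α i)) ≤
        (inner ℝ x (α i) : ℝ) / inner ℝ μ (α i) := fun i hi =>
      Finset.inf'_le (fun i => (inner ℝ x (α i) : ℝ) / inner ℝ μ (α i)) hi
    set l := s.inf' hs fun i => (inner ℝ x (α i) : ℝ) / inner ℝ μ (α i) with hl
    have h0 : 0 ≤ l := by
      refine Finset.le_inf' hs _ fun i hi => ?_
      exact div_nonneg (hx i) (hμ i)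
    refine ⟨h0, fun i => ?_, ?_⟩
    · rw [inner_sub_left, real_inner_smul_left]
      by_cases hi : i ∈ s
      · have h1 := hle i hi
        rw [le_div_iff₀ ((hmem i).1 hi)] at h1
        linarith
      · have h1 : (inner ℝ μ (α i) : ℝ) = 0 := by
          by_contra h2
          exact hi ((hmem i).2 (lt_of_le_of_ne (hμ i) (Ne.symm h2)))
        rw [h1, mul_zero, sub_zero]
        exact hx i
    · obtain ⟨i, hi, hi'⟩ := Finset.exists_mem_eq_inf' hs
        fun i => (inner ℝ x (α i) : ℝ) / inner ℝ μ (α i)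
      refine ⟨i, (hmem i).1 hi, ?_⟩
      rw [inner_sub_left, real_inner_smul_left]
      change (inner ℝ x (α i) : ℝ) - l * inner ℝ μ (α i) = 0
      rw [hl, hi', div_mul_cancel₀, sub_self]
      exact ((hmem i).1 hi).ne'

/-- uniqueness of the exit parameter -/
theorem lam_unique {μ x : V} {a b : ℝ} (ha : ∀ i, 0 ≤ (inner ℝ (x - a • μ) (α i) : ℝ))
    (hb : ∃ i, 0 < (inner ℝ μ (α i) : ℝ) ∧ (inner ℝ (x - b • μ) (α i) : ℝ) = 0) : a ≤ b := by
  obtain ⟨i, hi, hi'⟩ := hb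
  have h1 := ha i
  rw [inner_sub_left, real_inner_smul_left] at h1 hi'
  have h2 : a * inner ℝ μ (α i) ≤ b * inner ℝ μ (α i) := by linarith
  exact le_of_mul_le_mul_right h2 hi

end Cone

/-! ## Gluing over finite closed covers -/

theorem continuousOn_cover {X Y κ : Type*} [TopologicalSpace X] [TopologicalSpace Y] [Finite κ]
    {F : κ → Set X} (hF : ∀ k, IsClosed (F k)) {S : Set X} {f : X → Y}
    (h : ∀ k, ContinuousOn f (S ∩ F k)) : ContinuousOn f (S ∩ ⋃ k, F k) := by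
  intro x hx
  rw [ContinuousWithinAt, inter_iUnion, nhdsWithin_iUnion, tendsto_iSup]
  intro k
  by_cases hk : x ∈ F k
  · exact h k x ⟨hx.1, hk⟩
  · have h1 : 𝓝[S ∩ F k] x = ⊥ := by
      rw [← notMem_closure_iff_nhdsWithin_eq_bot]
      intro h2
      exact hk ((hF k).closure_subset (closure_mono inter_subset_right h2))
    rw [h1]
    exact tendsto_bot

/-! ## An inequality -/

/-- the level of `b - lam • m` -/
theorem level_ineq {V : Type*} [NormedAddCommGroup V] [InnerProductSpace ℝ V] {b m : V}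
    {A s t lam : ℝ} (hs : ‖m‖ = s) (hst : t < s) (ht : 0 ≤ t) (hlam : 0 ≤ lam)
    (hA : A ≤ t * ‖b‖) : A - lam * s ^ 2 ≤ t * ‖b - lam • m‖ := by
  have h0 : 0 < s := lt_of_le_of_lt ht hst
  by_cases h1 : A - lam * s ^ 2 ≤ 0
  · exact h1.trans (mul_nonneg ht (norm_nonneg _))
  push Not at h1
  have hls : 0 ≤ lam * s ^ 2 := by positivity
  have hA0 : 0 < A := by linarith
  have hb0 : 0 < ‖b‖ := by
    rcases (norm_nonneg b).lt_or_eq with h | h
    · exact h
    · rw [← h, mul_zero] at hA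
      linarith
  -- enough: (A - lam s²) |b| ≤ A |b - lam m|
  have key : (A - lam * s ^ 2) * ‖b‖ ≤ A * ‖b - lam • m‖ := by
    have h2 : ((A - lam * s ^ 2) * ‖b‖) ^ 2 ≤ (A * ‖b - lam • m‖) ^ 2 := by
      rw [mul_pow, mul_pow, norm_sub_sq_real, real_inner_smul_right, norm_smul, mul_pow, hs,
        Real.norm_eq_abs, sq_abs]
      set β : ℝ := inner ℝ b m with hβ
      have h3 : |β| ≤ ‖b‖ * s := by
        rw [hβ, ← hs]
        exact abs_real_inner_le_norm b m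
      have h4 : β ^ 2 ≤ s ^ 2 * ‖b‖ ^ 2 := by
        rw [← sq_abs β]
        calc |β| ^ 2 ≤ (‖b‖ * s) ^ 2 := pow_le_pow_left₀ (abs_nonneg _) h3 2
          _ = s ^ 2 * ‖b‖ ^ 2 := by ring
      have h5 : A ^ 2 ≤ s ^ 2 * ‖b‖ ^ 2 := by
        have h6 : A ≤ s * ‖b‖ := hA.trans (mul_le_mul_of_nonneg_right hst.le hb0.le)
        calc A ^ 2 ≤ (s * ‖b‖) ^ 2 := pow_le_pow_left₀ hA0.le h6 2
          _ = s ^ 2 * ‖b‖ ^ 2 := by ring
      set N : ℝ := ‖b‖ ^ 2 with hN
      set T : ℝ := s ^ 2 with hT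
      have hT0 : 0 < T := by positivity
      have h7 : 2 * β * A - A ^ 2 ≤ T * N := by nlinarith [sq_nonneg (A - β)]
      have h8 : lam * T ≤ A := by linarith
      -- the difference is lam * (2 A (T N - β A) - lam T (T N - A²))
      have h9 : 0 ≤ T * N - A ^ 2 := by linarith
      have h10 : lam * T * (T * N - A ^ 2) ≤ A * (T * N - A ^ 2) :=
        mul_le_mul_of_nonneg_right h8 h9
      have h11 : A * (T * N - A ^ 2) ≤ 2 * A * (T * N - β * A) := by
        nlinarith [mul_le_mul_of_nonneg_left h7 hA0.le]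
      have h12 := mul_le_mul_of_nonneg_left (h10.trans h11) hlam
      nlinarith
    exact le_of_sq_le_sq h2 (mul_nonneg hA0.le (norm_nonneg _))
  have h13 : (A - lam * s ^ 2) * ‖b‖ ≤ (t * ‖b - lam • m‖) * ‖b‖ := by
    calc (A - lam * s ^ 2) * ‖b‖ ≤ A * ‖b - lam • m‖ := key
      _ ≤ (t * ‖b‖) * ‖b - lam • m‖ := mul_le_mul_of_nonneg_right hA (norm_nonneg _)
      _ = (t * ‖b - lam • m‖) * ‖b‖ := by ring
  exact le_of_mul_le_mul_right h13 hb0

/-! ## Cone complexes -/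

section CC

variable {V : Type*} [NormedAddCommGroup V] [InnerProductSpace ℝ V]
variable {ι Ch C : Type*} [TopologicalSpace C]

/-- a cone complex with a function which is linear on the chambers -/
structure CC (α : ι → V) (mk : Ch → V → C) (co : C → V) (U : Ch → V) : Prop where
  mk_cont : ∀ c, ContinuousOn (mk c) (fc α ∅)
  co_cont : Continuous co
  co_mk : ∀ c, ∀ x ∈ fc α ∅, co (mk c x) = x
  co_mem : ∀ z, co z ∈ fc α ∅
  surj : ∀ z, ∃ c, mk c (co z) = z
  face : ∀ c c', ∀ x ∈ fc α ∅, ∀ y ∈ fc α ∅, mk c x = mk c' x → ty α x ⊆ ty α y →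
    mk c y = mk c' y
  hU : ∀ c c', ∀ x ∈ fc α ∅, mk c x = mk c' x → inner ℝ (U c) x = (inner ℝ (U c') x : ℝ)
  hU0 : ∀ c x, (∀ i, (inner ℝ x (α i) : ℝ) = 0) → (inner ℝ (U c) x : ℝ) = 0

variable {α : ι → V} {mk : Ch → V → C} {co : C → V} {U : Ch → V}

/-- the hypothesis of opposite points -/
def HasOpp (α : ι → V) (mk : Ch → V → C) (co : C → V) (U : Ch → V) : Prop :=
  ∀ p : C, co p ≠ 0 → ∃ G : C → ℝ → C,
    ContinuousOn (fun q : C × ℝ => G q.1 q.2) {q | 0 ≤ q.2} ∧ (∀ z, G z 0 = z) ∧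
    ∀ c, mk c (co p) = p → ∀ v ∈ fc α ∅, ∀ l : ℝ, 0 ≤ l → ∃ c' d, d ∈ fc α ∅ ∧
      G (mk c v) l = mk c' d ∧ ‖d‖ = ‖v - l • co p‖ ∧
      (inner ℝ (U c') d : ℝ) ≤ inner ℝ (U c) (v - l • co p)

/-- the union of the faces on which the function is `≤ 0` -/
def Lset (α : ι → V) (mk : Ch → V → C) (co : C → V) (U : Ch → V) : Set C :=
  {z | ∀ c, mk c (co z) = z → ∀ y ∈ fc α (ty α (co z)), (inner ℝ (U c) y : ℝ) ≤ 0}

namespace CC

/-- a chamber containing the point -/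
noncomputable def ch (h : CC α mk co U) (z : C) : Ch := (h.surj z).choose

theorem mk_ch (h : CC α mk co U) (z : C) : mk (h.ch z) (co z) = z := (h.surj z).choose_spec

/-- the function -/
noncomputable def Hf (h : CC α mk co U) (z : C) : ℝ := inner ℝ (U (h.ch z)) (co z)

theorem Hf_mk (h : CC α mk co U) (c : Ch) {x : V} (hx : x ∈ fc α ∅) :
    h.Hf (mk c x) = inner ℝ (U c) x := by
  have h1 := h.mk_ch (mk c x)
  rw [h.co_mk c x hx] at h1
  rw [Hf, h.co_mk c x hx]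
  exact h.hU _ _ x hx h1

theorem mk_eq (h : CC α mk co U) {c c' : Ch} {z : C} (hc : mk c (co z) = z)
    (hc' : mk c' (co z) = z) {y : V} (hy : y ∈ fc α (ty α (co z))) : mk c y = mk c' y :=
  h.face c c' (co z) (h.co_mem z) y (fc_anti (empty_subset _) hy) (hc.trans hc'.symm)
    (ty_of_mem hy)

/-- nearest points of face cones -/
noncomputable def np [CompleteSpace V] (_h : CC α mk co U) (c : Ch) (J : Set ι) : V :=
  (exists_isNp (α := α) J (U c)).choose

theorem np_spec [CompleteSpace V] (h : CC α mk co U) (c : Ch) (J : Set ι) :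
    IsNp (fc α J) (U c) (h.np c J) := (exists_isNp (α := α) J (U c)).choose_spec

/-- the nearest point of the smallest face -/
noncomputable def ms [CompleteSpace V] (h : CC α mk co U) (z : C) : V :=
  h.np (h.ch z) (ty α (co z))

theorem ms_spec [CompleteSpace V] (h : CC α mk co U) {c : Ch} {z : C} (hc : mk c (co z) = z) :
    IsNp (fc α (ty α (co z))) (U c) (h.ms z) := by
  refine (h.np_spec (h.ch z) (ty α (co z))).congr fun y hy => ?_
  exact h.hU _ _ y (fc_anti (empty_subset _) hy) (h.mk_eq (h.mk_ch z) hc hy)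

/-- the closed faces -/
def Fs (mk : Ch → V → C) (co : C → V) (α : ι → V) (p : Ch × Set ι) : Set C :=
  {z | mk p.1 (co z) = z ∧ co z ∈ fc α p.2}

theorem isClosed_Fs [T2Space C] (h : CC α mk co U) (p : Ch × Set ι) :
    IsClosed (Fs mk co α p) := by
  have h1 : Continuous fun z => mk p.1 (co z) :=
    (h.mk_cont p.1).comp_continuous h.co_cont h.co_mem
  exact (isClosed_eq h1 continuous_id).inter ((isClosed_fc p.2).preimage h.co_cont)

theorem mem_Fs (h : CC α mk co U) {c : Ch} {z : C} (hc : mk c (co z) = z) :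
    z ∈ Fs mk co α (c, ty α (co z)) := ⟨hc, mem_fc_ty (h.co_mem z).1⟩

theorem ms_le [CompleteSpace V] (h : CC α mk co U) {p : Ch × Set ι} {z : C}
    (hz : z ∈ Fs mk co α p) : ‖h.ms z‖ ≤ ‖h.np p.1 p.2‖ :=
  (h.np_spec p.1 p.2).norm_le (h.ms_spec hz.1) (fc_anti (ty_of_mem hz.2))

theorem ms_eq [CompleteSpace V] (h : CC α mk co U) {p : Ch × Set ι} {z : C}
    (hz : z ∈ Fs mk co α p) (e : ‖h.ms z‖ = ‖h.np p.1 p.2‖) : h.ms z = h.np p.1 p.2 :=
  (h.np_spec p.1 p.2).eq_of_norm_eq (h.ms_spec hz.1) (fc_anti (ty_of_mem hz.2)) e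

/-- the set of levels -/
def lev [CompleteSpace V] (h : CC α mk co U) : Set ℝ :=
  range fun p : Ch × Set ι => ‖h.np p.1 p.2‖

theorem ms_mem_lev [CompleteSpace V] (h : CC α mk co U) (z : C) : ‖h.ms z‖ ∈ h.lev :=
  ⟨(h.ch z, ty α (co z)), rfl⟩

theorem finite_lev [CompleteSpace V] [Finite ι] [Finite Ch] (h : CC α mk co U) :
    h.lev.Finite := finite_range _

/-- positive levels have nearest points with nonempty support -/
theorem exists_pos [CompleteSpace V] (h : CC α mk co U) {c : Ch} {J : Set ι}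
    (hp : h.np c J ≠ 0) : ∃ i, 0 < (inner ℝ (h.np c J) (α i) : ℝ) := by
  by_contra hc
  push Not at hc
  have h1 := h.np_spec c J
  have h2 : ∀ i, (inner ℝ (h.np c J) (α i) : ℝ) = 0 := fun i =>
    le_antisymm (hc i) (h1.1.1 i)
  have h3 := h.hU0 c _ h2
  rw [h1.2.2] at h3
  exact hp (norm_eq_zero.1 (pow_eq_zero_iff two_ne_zero |>.1 h3))

/-- the exit parameter -/
noncomputable def lam (α : ι → V) (μ x : V) : ℝ :=
  open Classical in
  if hμ : ∃ f : V → ℝ, Continuous f ∧ ∀ x, (∀ i, 0 ≤ (inner ℝ x (α i) : ℝ)) → 0 ≤ f x ∧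
      (∀ i, 0 ≤ (inner ℝ (x - f x • μ) (α i) : ℝ)) ∧
      ∃ i, 0 < (inner ℝ μ (α i) : ℝ) ∧ (inner ℝ (x - f x • μ) (α i) : ℝ) = 0 then
    hμ.choose x else 0

theorem lam_spec [Finite ι] {μ : V} (hμ : ∀ i, 0 ≤ (inner ℝ μ (α i) : ℝ))
    (hμ' : ∃ i, 0 < (inner ℝ μ (α i) : ℝ)) :
    Continuous (lam α μ) ∧ ∀ x, (∀ i, 0 ≤ (inner ℝ x (α i) : ℝ)) → 0 ≤ lam α μ x ∧
      (∀ i, 0 ≤ (inner ℝ (x - lam α μ x • μ) (α i) : ℝ)) ∧
      ∃ i, 0 < (inner ℝ μ (α i) : ℝ) ∧ (inner ℝ (x - lam α μ x • μ) (α i) : ℝ) = 0 := by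
  have h := exists_lam hμ hμ'
  have e : lam α μ = h.choose := by
    funext x
    rw [lam, dif_pos h]
  rw [e]
  exact h.choose_spec

/-- the base point of `x` seen from `μ` -/
noncomputable def bs (α : ι → V) (μ x : V) : V := x - lam α μ x • μ

theorem bs_mem [Finite ι] {J : Set ι} {μ x : V} (hμ : μ ∈ fc α J)
    (hμ' : ∃ i, 0 < (inner ℝ μ (α i) : ℝ)) (hx : x ∈ fc α J) : bs α μ x ∈ fc α J := by
  refine ⟨((lam_spec hμ.1 hμ').2 x hx.1).2.1, fun i hi => ?_⟩
  rw [bs, inner_sub_left, real_inner_smul_left, hx.2 i hi, hμ.2 i hi, mul_zero, sub_zero]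

theorem continuous_bs [Finite ι] {μ : V} (hμ : ∀ i, 0 ≤ (inner ℝ μ (α i) : ℝ))
    (hμ' : ∃ i, 0 < (inner ℝ μ (α i) : ℝ)) : Continuous (bs α μ) := by
  have h1 := (lam_spec hμ hμ').1
  unfold bs
  fun_prop

/-- on a closed face the exit parameter vanishes at the points of lower level -/
theorem lam_eq_zero [CompleteSpace V] [Finite ι] (h : CC α mk co U) {p : Ch × Set ι} {z : C}
    (hz : z ∈ Fs mk co α p) (hp : h.np p.1 p.2 ≠ 0) (hlt : ‖h.ms z‖ < ‖h.np p.1 p.2‖) :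
    lam α (h.np p.1 p.2) (co z) = 0 := by
  have hs := lam_spec (h.np_spec p.1 p.2).1.1 (h.exists_pos hp)
  have h1 : h.np p.1 p.2 ∉ fc α (ty α (co z)) := by
    intro hmem
    have h2 := (h.np_spec p.1 p.2).of_subset (fc_anti (ty_of_mem hz.2)) hmem
    have h3 := h2.unique (h.ms_spec hz.1)
    rw [h3] at hlt
    exact lt_irrefl _ hlt
  have h4 : ∃ i ∈ ty α (co z), (inner ℝ (h.np p.1 p.2) (α i) : ℝ) ≠ 0 := by
    by_contra hc
    push Not at hc
    exact h1 ⟨(h.np_spec p.1 p.2).1.1, hc⟩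
  obtain ⟨i, hi, hi'⟩ := h4
  have h5 : 0 < (inner ℝ (h.np p.1 p.2) (α i) : ℝ) :=
    lt_of_le_of_ne ((h.np_spec p.1 p.2).1.1 i) (Ne.symm hi')
  obtain ⟨h6, h7, -⟩ := hs.2 (co z) (h.co_mem z).1
  have h8 := h7 i
  rw [inner_sub_left, real_inner_smul_left] at h8
  have h9 : (inner ℝ (co z) (α i) : ℝ) = 0 := hi
  rw [h9] at h8
  nlinarith

/-- the base point has a lower level -/
theorem ms_bs_lt [CompleteSpace V] [Finite ι] (h : CC α mk co U) {p : Ch × Set ι} {z : C}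
    (hz : z ∈ Fs mk co α p) (hp : h.np p.1 p.2 ≠ 0) :
    ‖h.ms (mk p.1 (bs α (h.np p.1 p.2) (co z)))‖ < ‖h.np p.1 p.2‖ := by
  have hμ := (h.np_spec p.1 p.2).1
  have hμ' := h.exists_pos hp
  have hb := bs_mem hμ hμ' hz.2
  have hb0 : bs α (h.np p.1 p.2) (co z) ∈ fc α ∅ := fc_anti (empty_subset _) hb
  set w := mk p.1 (bs α (h.np p.1 p.2) (co z)) with hw
  have hcw : co w = bs α (h.np p.1 p.2) (co z) := h.co_mk _ _ hb0
  have hw1 : w ∈ Fs mk co α p := ⟨by rw [hcw], by rw [hcw]; exact hb⟩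
  refine lt_of_le_of_ne (h.ms_le hw1) fun e => ?_
  have h1 := h.ms_eq hw1 e
  have h2 := (h.ms_spec hw1.1).1
  rw [h1] at h2
  obtain ⟨i, hi, hi'⟩ := ((lam_spec hμ.1 hμ').2 (co z) (h.co_mem z).1).2.2
  have h3 : i ∈ ty α (co w) := by
    rw [hcw]
    exact hi'
  have h4 := h2.2 i h3
  rw [h4] at hi
  exact lt_irrefl _ hi

/-- points of level at most `t` -/
theorem Hf_le [CompleteSpace V] (h : CC α mk co U) (z : C) : h.Hf z ≤ ‖h.ms z‖ * ‖co z‖ := by
  have h1 := (h.ms_spec (h.mk_ch z)).2.1 (co z) (mem_fc_ty (h.co_mem z).1)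
  exact h1.trans (real_inner_le_norm _ _)

theorem mem_Lset [CompleteSpace V] (h : CC α mk co U) {z : C} :
    z ∈ Lset α mk co U ↔ h.ms z = 0 := by
  constructor
  · intro hz
    have h1 := h.ms_spec (h.mk_ch z)
    have h2 := hz _ (h.mk_ch z) _ h1.1
    rw [h1.2.2] at h2
    have h3 := sq_nonneg ‖h.ms z‖
    exact norm_eq_zero.1 (pow_eq_zero_iff two_ne_zero |>.1 (le_antisymm h2 h3))
  · intro hz c hc y hy
    have h1 := (h.ms_spec hc).2.1 y hy
    rw [hz, inner_zero_left] at h1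
    exact h1

/-- continuity on a level set -/
theorem cont_level [CompleteSpace V] [T2Space C] [Finite ι] [Finite Ch] {Y : Type*}
    [TopologicalSpace Y] (h : CC α mk co U) {s : ℝ} {f : C → Y} {S : Set C}
    (hf : ∀ p : Ch × Set ι, ‖h.np p.1 p.2‖ ≤ s → ContinuousOn f (S ∩ Fs mk co α p)) :
    ContinuousOn f (S ∩ {z | ‖h.ms z‖ ≤ s}) := by
  have h1 : {z | ‖h.ms z‖ ≤ s} =
      ⋃ p : {p : Ch × Set ι // ‖h.np p.1 p.2‖ ≤ s}, Fs mk co α p.1 := by
    ext z
    rw [mem_iUnion]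
    constructor
    · intro hz
      exact ⟨⟨(h.ch z, ty α (co z)), hz⟩, h.mem_Fs (h.mk_ch z)⟩
    · rintro ⟨p, hp⟩
      exact (h.ms_le hp).trans p.2
  rw [h1]
  exact continuousOn_cover (F := fun p : {p : Ch × Set ι // ‖h.np p.1 p.2‖ ≤ s} =>
    Fs mk co α p.1) (fun p => h.isClosed_Fs p.1) fun p => hf p.1 p.2

/-- **The elementary retraction** `E`: `K_s → K_t`, `t` the preceding level. -/
theorem exists_E [CompleteSpace V] [T2Space C] [Finite ι] [Finite Ch] (h : CC α mk co U)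
    {s t : ℝ} (ht : 0 ≤ t) (hts : t < s) (hgap : ∀ r ∈ h.lev, r < s → r ≤ t) :
    ∃ E : C → C, ContinuousOn E {z | ‖h.ms z‖ ≤ s} ∧ (∀ z, ‖h.ms z‖ ≤ s → ‖h.ms (E z)‖ ≤ t) ∧
      (∀ c, 0 ≤ c → c < s → ∀ z, co z ≠ 0 → ‖h.ms z‖ ≤ s → h.Hf z ≤ c * ‖co z‖ →
        co (E z) ≠ 0 ∧ h.Hf (E z) ≤ c * ‖co (E z)‖) ∧
      ∀ z, ‖h.ms z‖ ≤ t → E z = z := by
  classical
  have hs0 : 0 < s := lt_of_le_of_lt ht hts
  let E : C → C := fun z => if ‖h.ms z‖ < s then z else mk (h.ch z) (bs α (h.ms z) (co z))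
  have hE1 : ∀ z, ‖h.ms z‖ < s → E z = z := fun z hz => if_pos hz
  have hE2 : ∀ z, ‖h.ms z‖ = s → E z = mk (h.ch z) (bs α (h.ms z) (co z)) := fun z hz =>
    if_neg (by rw [hz]; exact lt_irrefl _)
  -- on a closed face of level s
  have hE3 : ∀ p : Ch × Set ι, ‖h.np p.1 p.2‖ = s → ∀ z ∈ Fs mk co α p,
      E z = mk p.1 (bs α (h.np p.1 p.2) (co z)) := by
    intro p hp z hz
    have hp0 : h.np p.1 p.2 ≠ 0 := by
      intro h0
      rw [h0, norm_zero] at hp
      exact hs0.ne hp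
    rcases (h.ms_le hz).lt_or_eq with hlt | heq
    · rw [hE1 z (by rwa [hp] at hlt), bs, h.lam_eq_zero hz hp0 hlt, zero_smul, sub_zero, hz.1]
    · have hms := h.ms_eq hz heq
      rw [hE2 z (by rw [heq, hp]), hms]
      refine h.mk_eq (h.mk_ch z) hz.1 ?_
      have h1 := (h.ms_spec hz.1).1
      rw [hms] at h1
      exact bs_mem h1 (h.exists_pos hp0) (mem_fc_ty (h.co_mem z).1)
  refine ⟨E, ?_, fun z hz => ?_, fun c hc hcs z hz0 hz hH => ?_, fun z hz => ?_⟩
  · have h1 : ContinuousOn E (univ ∩ {z | ‖h.ms z‖ ≤ s}) := by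
      refine h.cont_level fun p hp => ?_
      rcases hp.lt_or_eq with hlt | heq
      · refine continuousOn_id.congr fun z hz => ?_
        exact hE1 z ((h.ms_le hz.2).trans_lt hlt)
      · have hp0 : h.np p.1 p.2 ≠ 0 := by
          intro h0
          rw [h0, norm_zero] at heq
          exact hs0.ne heq
        have hμ := (h.np_spec p.1 p.2).1
        have hμ' := h.exists_pos hp0
        have h2 : ContinuousOn (fun z => mk p.1 (bs α (h.np p.1 p.2) (co z)))
            (univ ∩ Fs mk co α p) := by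
          refine (h.mk_cont p.1).comp
            ((continuous_bs hμ.1 hμ').comp h.co_cont).continuousOn fun z hz => ?_
          exact fc_anti (empty_subset _) (bs_mem hμ hμ' hz.2.2)
        exact h2.congr fun z hz => hE3 p heq z hz.2
    rwa [univ_inter] at h1
  · rcases hz.lt_or_eq with hlt | heq
    · rw [hE1 z hlt]
      exact hgap _ (h.ms_mem_lev z) hlt
    · have hz' := h.mem_Fs (h.mk_ch z)
      have hp : ‖h.np (h.ch z) (ty α (co z))‖ = s := heq
      have hp0 : h.np (h.ch z) (ty α (co z)) ≠ 0 := by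
        intro h0
        rw [h0, norm_zero] at hp
        exact hs0.ne hp
      refine hgap _ (h.ms_mem_lev _) ?_
      rw [hE3 _ hp z hz']
      exact (h.ms_bs_lt hz' hp0).trans_eq hp
  · rcases hz.lt_or_eq with hlt | heq
    · rw [hE1 z hlt]
      exact ⟨hz0, hH⟩
    · have hz' := h.mem_Fs (h.mk_ch z)
      have hp : ‖h.np (h.ch z) (ty α (co z))‖ = s := heq
      have hp0 : h.np (h.ch z) (ty α (co z)) ≠ 0 := by
        intro h0
        rw [h0, norm_zero] at hp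
        exact hs0.ne hp
      have hμ := h.np_spec (h.ch z) (ty α (co z))
      have hμ' := h.exists_pos hp0
      rw [hE3 _ hp z hz']
      simp only
      set μ := h.np (h.ch z) (ty α (co z)) with hμdef
      have hb := bs_mem hμ.1 hμ' hz'.2
      have hb0 : bs α μ (co z) ∈ fc α ∅ := fc_anti (empty_subset _) hb
      rw [h.Hf_mk _ hb0, h.co_mk _ _ hb0]
      have hlam := ((lam_spec hμ.1.1 hμ').2 (co z) (h.co_mem z).1).1
      set l := lam α μ (co z) with hl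
      have hx : co z = bs α μ (co z) + l • μ := by
        rw [bs, ← hl]
        abel
      have hHz : h.Hf z = inner ℝ (U (h.ch z)) (bs α μ (co z)) + l * s ^ 2 := by
        rw [Hf]
        conv_lhs => rw [hx]
        rw [inner_add_right, real_inner_smul_right, hμ.2.2, hp]
      have hn : ‖co z‖ ≤ ‖bs α μ (co z)‖ + l * s := by
        conv_lhs => rw [hx]
        refine (norm_add_le _ _).trans ?_
        rw [norm_smul, Real.norm_eq_abs, abs_of_nonneg hlam, hp]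
      constructor
      · intro hb0'
        rw [hb0', inner_zero_right, zero_add] at hHz
        rw [hb0', norm_zero, zero_add] at hn
        rw [hb0', zero_add] at hx
        have hl0 : 0 < l := by
          rcases hlam.lt_or_eq with h1 | h1
          · exact h1
          · rw [← h1, zero_smul] at hx
            exact absurd hx hz0
        have h2 : c * ‖co z‖ ≤ c * (l * s) := mul_le_mul_of_nonneg_left hn hc
        have h3 : c * (l * s) < s * (l * s) := mul_lt_mul_of_pos_right hcs (by positivity)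
        nlinarith
      · have h2 : c * ‖co z‖ ≤ c * (‖bs α μ (co z)‖ + l * s) := mul_le_mul_of_nonneg_left hn hc
        have h3 : c * (l * s) ≤ s * (l * s) :=
          mul_le_mul_of_nonneg_right hcs.le (by positivity)
        nlinarith
  · exact hE1 z (hz.trans_lt hts)

/-- **The retraction of `{H ≤ t}` onto `K_t`.** -/
theorem exists_Ret [CompleteSpace V] [T2Space C] [Finite ι] [Finite Ch] (h : CC α mk co U)
    (n : ℕ) : ∀ t : ℝ, 0 ≤ t → (h.lev ∩ Ioi t).ncard ≤ n →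
    ∃ R : C → C, ContinuousOn R {z | co z ≠ 0 ∧ h.Hf z ≤ t * ‖co z‖} ∧
      (∀ z, co z ≠ 0 → h.Hf z ≤ t * ‖co z‖ → ‖h.ms (R z)‖ ≤ t) ∧
      (∀ c, 0 ≤ c → c ≤ t → ∀ z, co z ≠ 0 → h.Hf z ≤ c * ‖co z‖ →
        co (R z) ≠ 0 ∧ h.Hf (R z) ≤ c * ‖co (R z)‖) ∧
      ∀ z, ‖h.ms z‖ ≤ t → R z = z := by
  have hfin : ∀ t, (h.lev ∩ Ioi t).Finite := fun t => h.finite_lev.subset inter_subset_left
  have hbase : ∀ t : ℝ, 0 ≤ t → h.lev ∩ Ioi t = ∅ →
      ∃ R : C → C, ContinuousOn R {z | co z ≠ 0 ∧ h.Hf z ≤ t * ‖co z‖} ∧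
      (∀ z, co z ≠ 0 → h.Hf z ≤ t * ‖co z‖ → ‖h.ms (R z)‖ ≤ t) ∧
      (∀ c, 0 ≤ c → c ≤ t → ∀ z, co z ≠ 0 → h.Hf z ≤ c * ‖co z‖ →
        co (R z) ≠ 0 ∧ h.Hf (R z) ≤ c * ‖co (R z)‖) ∧
      ∀ z, ‖h.ms z‖ ≤ t → R z = z := by
    intro t _ he
    refine ⟨id, continuousOn_id, fun z _ _ => ?_, fun c _ _ z h1 h2 => ⟨h1, h2⟩, fun z _ => rfl⟩
    by_contra hc
    push Not at hc
    have h1 : ‖h.ms z‖ ∈ h.lev ∩ Ioi t := ⟨h.ms_mem_lev z, hc⟩
    rw [he] at h1
    exact h1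
  induction n with
  | zero =>
    intro t ht hn
    refine hbase t ht ?_
    exact (ncard_eq_zero (hfin t)).1 (Nat.le_zero.1 hn)
  | succ n ih =>
    intro t ht hn
    by_cases he : h.lev ∩ Ioi t = ∅
    · exact hbase t ht he
    obtain ⟨s, hs, hmin⟩ := (hfin t).exists_minimalFor id _ (nonempty_iff_ne_empty.2 he)
    have hts : t < s := hs.2
    have hgap : ∀ r ∈ h.lev, r < s → r ≤ t := by
      intro r hr hrs
      by_contra hc
      push Not at hc
      have := hmin ⟨hr, hc⟩ hrs.le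
      exact absurd hrs (not_lt.2 this)
    have hcard : (h.lev ∩ Ioi s).ncard ≤ n := by
      have h1 : h.lev ∩ Ioi s ⊂ h.lev ∩ Ioi t := by
        refine ⟨fun r hr => ⟨hr.1, hts.trans hr.2⟩, fun hc => ?_⟩
        exact lt_irrefl s (hc hs).2
      have h2 := ncard_lt_ncard h1 (hfin t)
      omega
    obtain ⟨R, hR1, hR2, hR3, hR4⟩ := ih s (ht.trans hts.le) hcard
    obtain ⟨E, hE1, hE2, hE3, hE4⟩ := h.exists_E ht hts hgap
    have hts' : ∀ z, h.Hf z ≤ t * ‖co z‖ → h.Hf z ≤ s * ‖co z‖ := fun z hz =>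
      hz.trans (mul_le_mul_of_nonneg_right hts.le (norm_nonneg _))
    refine ⟨fun z => E (R z), ?_, fun z hz hH => ?_, fun c hc hct z hz hH => ?_, fun z hz => ?_⟩
    · refine hE1.comp (hR1.mono fun z hz => ⟨hz.1, hts' z hz.2⟩) fun z hz => ?_
      exact hR2 z hz.1 (hts' z hz.2)
    · exact hE2 _ (hR2 z hz (hts' z hH))
    · obtain ⟨h1, h2⟩ := hR3 c hc (hct.trans hts.le) z hz hH
      have h3 : h.Hf z ≤ s * ‖co z‖ :=
        hH.trans (mul_le_mul_of_nonneg_right (hct.trans hts.le) (norm_nonneg _))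
      exact hE3 c hc (hct.trans_lt hts) _ h1 (hR2 z hz h3) h2
    · have h1 : ‖h.ms z‖ ≤ s := hz.trans hts.le
      simp only [hR4 z h1]
      exact hE4 z hz

/-- **One step of the retraction of `C ∖ 0`.** -/
theorem exists_step [CompleteSpace V] [T2Space C] [Finite ι] [Finite Ch] (h : CC α mk co U)
    (hop : HasOpp α mk co U) {s t : ℝ} (ht : 0 ≤ t) (hts : t < s)
    (hgap : ∀ r ∈ h.lev, r < s → r ≤ t) :
    ∃ R : C → C, ContinuousOn R {z | co z ≠ 0 ∧ ‖h.ms z‖ ≤ s} ∧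
      (∀ z, co z ≠ 0 → ‖h.ms z‖ ≤ s → co (R z) ≠ 0 ∧ ‖h.ms (R z)‖ ≤ t) ∧
      ∀ z, ‖h.ms z‖ ≤ t → R z = z := by
  classical
  have hs0 : 0 < s := lt_of_le_of_lt ht hts
  obtain ⟨Rt, hR1, hR2, hR3, hR4⟩ := h.exists_Ret _ t ht le_rfl
  choose! G hG1 hG2 hG3 using hop
  let J : C → C := fun z => if ‖h.ms z‖ < s then z else
    G (mk (h.ch z) (h.ms z)) (mk (h.ch z) (bs α (h.ms z) (co z))) (lam α (h.ms z) (co z))
  have hJ1 : ∀ z, ‖h.ms z‖ < s → J z = z := fun z hz => if_pos hz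
  have hJ2 : ∀ z, ‖h.ms z‖ = s → J z = G (mk (h.ch z) (h.ms z))
      (mk (h.ch z) (bs α (h.ms z) (co z))) (lam α (h.ms z) (co z)) := fun z hz =>
    if_neg (by rw [hz]; exact lt_irrefl _)
  have hne : ∀ p : Ch × Set ι, ‖h.np p.1 p.2‖ = s → h.np p.1 p.2 ≠ 0 := by
    intro p hp h0
    rw [h0, norm_zero] at hp
    exact hs0.ne hp
  have hμ0 : ∀ p : Ch × Set ι, h.np p.1 p.2 ∈ fc α ∅ := fun p =>
    fc_anti (empty_subset _) (h.np_spec p.1 p.2).1
  have hpt : ∀ p : Ch × Set ι, ‖h.np p.1 p.2‖ = s → co (mk p.1 (h.np p.1 p.2)) ≠ 0 := by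
    intro p hp
    rw [h.co_mk _ _ (hμ0 p)]
    exact hne p hp
  -- on a closed face of level s
  have hJ3 : ∀ p : Ch × Set ι, ‖h.np p.1 p.2‖ = s → ∀ z ∈ Fs mk co α p,
      J z = G (mk p.1 (h.np p.1 p.2)) (mk p.1 (bs α (h.np p.1 p.2) (co z)))
        (lam α (h.np p.1 p.2) (co z)) := by
    intro p hp z hz
    have hp0 := hne p hp
    rcases (h.ms_le hz).lt_or_eq with hlt | heq
    · rw [hJ1 z (by rwa [hp] at hlt), bs, h.lam_eq_zero hz hp0 hlt, zero_smul, sub_zero, hz.1,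
        hG2 _ (hpt p hp)]
    · have hms := h.ms_eq hz heq
      have h1 := (h.ms_spec hz.1).1
      have h2 : mk (h.ch z) (h.ms z) = mk p.1 (h.ms z) := h.mk_eq (h.mk_ch z) hz.1 h1
      rw [hJ2 z (by rw [heq, hp]), h2, hms]
      rw [hms] at h1
      rw [h.mk_eq (h.mk_ch z) hz.1 (bs_mem h1 (h.exists_pos hp0) (mem_fc_ty (h.co_mem z).1))]
  -- the value of J
  have hJ4 : ∀ z, co z ≠ 0 → ‖h.ms z‖ ≤ s → co (J z) ≠ 0 ∧ h.Hf (J z) ≤ t * ‖co (J z)‖ := by
    intro z hz0 hz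
    rcases hz.lt_or_eq with hlt | heq
    · rw [hJ1 z hlt]
      refine ⟨hz0, (h.Hf_le z).trans ?_⟩
      exact mul_le_mul_of_nonneg_right (hgap _ (h.ms_mem_lev z) hlt) (norm_nonneg _)
    · have hz' := h.mem_Fs (h.mk_ch z)
      have hp : ‖h.np (h.ch z) (ty α (co z))‖ = s := heq
      have hp0 := hne (h.ch z, ty α (co z)) hp
      have hμ := h.np_spec (h.ch z) (ty α (co z))
      have hμ' := h.exists_pos hp0
      have hbl := h.ms_bs_lt hz' hp0
      have hpt' := hpt (h.ch z, ty α (co z)) hp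
      have hcm := h.co_mk (h.ch z) _ (hμ0 (h.ch z, ty α (co z)))
      rw [hJ3 _ hp z hz']
      simp only at hbl hcm hpt' ⊢
      simp only at hp0
      set μ := h.np (h.ch z) (ty α (co z)) with hμdef
      have hb := bs_mem hμ.1 hμ' hz'.2
      have hb0 : bs α μ (co z) ∈ fc α ∅ := fc_anti (empty_subset _) hb
      obtain ⟨hlam, -, i, hi, hi'⟩ := (lam_spec hμ.1.1 hμ').2 (co z) (h.co_mem z).1
      obtain ⟨c', d, hd, hGd, hnd, hHd⟩ := hG3 (mk (h.ch z) μ) hpt' (h.ch z) (by rw [hcm])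
        (bs α μ (co z)) hb0 (lam α μ (co z)) hlam
      rw [hcm] at hnd hHd
      rw [hGd, h.Hf_mk _ hd, h.co_mk _ _ hd]
      set l := lam α μ (co z) with hl
      have hx : co z = bs α μ (co z) + l • μ := by
        rw [bs, ← hl]
        abel
      have hA : (inner ℝ (U (h.ch z)) (bs α μ (co z)) : ℝ) ≤ t * ‖bs α μ (co z)‖ := by
        have h1 := h.Hf_le (mk (h.ch z) (bs α μ (co z)))
        rw [h.Hf_mk _ hb0, h.co_mk _ _ hb0] at h1
        refine h1.trans (mul_le_mul_of_nonneg_right ?_ (norm_nonneg _))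
        exact hgap _ (h.ms_mem_lev _) (hbl.trans_eq hp)
      refine ⟨?_, ?_⟩
      · intro hd0
        rw [hd0, norm_zero] at hnd
        have h1 : bs α μ (co z) - l • μ = 0 := norm_eq_zero.1 hnd.symm
        have h2 : (inner ℝ (bs α μ (co z) - l • μ) (α i) : ℝ) = 0 := by rw [h1, inner_zero_left]
        have h3 : (inner ℝ (bs α μ (co z)) (α i) : ℝ) = 0 := hi'
        rw [inner_sub_left, real_inner_smul_left, h3, zero_sub, neg_eq_zero] at h2
        have h4 : l = 0 := by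
          rcases mul_eq_zero.1 h2 with h5 | h5
          · exact h5
          · rw [h5] at hi
            exact absurd hi (lt_irrefl _)
        rw [h4, zero_smul, sub_zero] at h1
        rw [h1, h4, zero_smul, add_zero] at hx
        exact hz0 hx
      · rw [hnd]
        refine hHd.trans ?_
        rw [inner_sub_right, real_inner_smul_right, hμ.2.2, hp]
        exact level_ineq hp hts ht hlam hA
  have hJc : ContinuousOn J {z | co z ≠ 0 ∧ ‖h.ms z‖ ≤ s} := by
    have h1 : ContinuousOn J ({z | co z ≠ 0} ∩ {z | ‖h.ms z‖ ≤ s}) := by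
      refine h.cont_level fun p hp => ?_
      rcases hp.lt_or_eq with hlt | heq
      · refine continuousOn_id.congr fun z hz => ?_
        exact hJ1 z ((h.ms_le hz.2).trans_lt hlt)
      · have hp0 := hne p heq
        have hμ := (h.np_spec p.1 p.2).1
        have hμ' := h.exists_pos hp0
        have h2 : ContinuousOn (fun z => mk p.1 (bs α (h.np p.1 p.2) (co z)))
            ({z | co z ≠ 0} ∩ Fs mk co α p) := by
          refine (h.mk_cont p.1).comp
            ((continuous_bs hμ.1 hμ').comp h.co_cont).continuousOn fun z hz => ?_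
          exact fc_anti (empty_subset _) (bs_mem hμ hμ' hz.2.2)
        have h3 : ContinuousOn (fun z => lam α (h.np p.1 p.2) (co z))
            ({z | co z ≠ 0} ∩ Fs mk co α p) :=
          ((lam_spec hμ.1 hμ').1.comp h.co_cont).continuousOn
        have h4 : ContinuousOn (fun z => G (mk p.1 (h.np p.1 p.2))
            (mk p.1 (bs α (h.np p.1 p.2) (co z))) (lam α (h.np p.1 p.2) (co z)))
            ({z | co z ≠ 0} ∩ Fs mk co α p) := by
          refine (hG1 _ (hpt p heq)).comp (h2.prodMk h3) fun z hz => ?_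
          exact ((lam_spec hμ.1 hμ').2 (co z) (h.co_mem z).1).1
        exact h4.congr fun z hz => hJ3 p heq z hz.2
    exact h1
  refine ⟨fun z => Rt (J z), ?_, fun z hz hs => ?_, fun z hz => ?_⟩
  · exact hR1.comp hJc fun z hz => hJ4 z hz.1 hz.2
  · obtain ⟨h1, h2⟩ := hJ4 z hz hs
    exact ⟨(hR3 t ht le_rfl _ h1 h2).1, hR2 _ h1 h2⟩
  · simp only [hJ1 z (hz.trans_lt hts)]
    exact hR4 z hz

/-- the retraction of `C ∖ 0` onto `K_t ∖ 0` -/
theorem exists_rho [CompleteSpace V] [T2Space C] [Finite ι] [Finite Ch] (h : CC α mk co U)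
    (hop : HasOpp α mk co U) (n : ℕ) : ∀ t : ℝ, 0 ≤ t → (h.lev ∩ Ioi t).ncard ≤ n →
    ∃ R : C → C, ContinuousOn R {z | co z ≠ 0} ∧
      (∀ z, co z ≠ 0 → co (R z) ≠ 0 ∧ ‖h.ms (R z)‖ ≤ t) ∧ ∀ z, ‖h.ms z‖ ≤ t → R z = z := by
  have hfin : ∀ t, (h.lev ∩ Ioi t).Finite := fun t => h.finite_lev.subset inter_subset_left
  have hbase : ∀ t : ℝ, 0 ≤ t → h.lev ∩ Ioi t = ∅ →
      ∃ R : C → C, ContinuousOn R {z | co z ≠ 0} ∧
      (∀ z, co z ≠ 0 → co (R z) ≠ 0 ∧ ‖h.ms (R z)‖ ≤ t) ∧ ∀ z, ‖h.ms z‖ ≤ t → R z = z := by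
    intro t _ he
    refine ⟨id, continuousOn_id, fun z h1 => ⟨h1, ?_⟩, fun z _ => rfl⟩
    by_contra hc
    push Not at hc
    have h1 : ‖h.ms z‖ ∈ h.lev ∩ Ioi t := ⟨h.ms_mem_lev z, hc⟩
    rw [he] at h1
    exact h1
  induction n with
  | zero =>
    intro t ht hn
    refine hbase t ht ?_
    exact (ncard_eq_zero (hfin t)).1 (Nat.le_zero.1 hn)
  | succ n ih =>
    intro t ht hn
    by_cases he : h.lev ∩ Ioi t = ∅
    · exact hbase t ht he
    obtain ⟨s, hs, hmin⟩ := (hfin t).exists_minimalFor id _ (nonempty_iff_ne_empty.2 he)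
    have hts : t < s := hs.2
    have hgap : ∀ r ∈ h.lev, r < s → r ≤ t := by
      intro r hr hrs
      by_contra hc
      push Not at hc
      have := hmin ⟨hr, hc⟩ hrs.le
      exact absurd hrs (not_lt.2 this)
    have hcard : (h.lev ∩ Ioi s).ncard ≤ n := by
      have h1 : h.lev ∩ Ioi s ⊂ h.lev ∩ Ioi t := by
        refine ⟨fun r hr => ⟨hr.1, hts.trans hr.2⟩, fun hc => ?_⟩
        exact lt_irrefl s (hc hs).2
      have h2 := ncard_lt_ncard h1 (hfin t)
      omega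
    obtain ⟨R, hR1, hR2, hR3⟩ := ih s (ht.trans hts.le) hcard
    obtain ⟨E, hE1, hE2, hE3⟩ := h.exists_step hop ht hts hgap
    refine ⟨fun z => E (R z), ?_, fun z hz => ?_, fun z hz => ?_⟩
    · exact hE1.comp hR1 fun z hz => hR2 z hz
    · obtain ⟨h1, h2⟩ := hR2 z hz
      exact hE2 _ h1 h2
    · simp only [hR3 z (hz.trans hts.le)]
      exact hE3 z hz

/-- **Closed hemispheres are retracts.** -/
theorem exists_retract [CompleteSpace V] [T2Space C] [Finite ι] [Finite Ch] (h : CC α mk co U)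
    (hop : HasOpp α mk co U) : ∃ R : C → C, ContinuousOn R {z | co z ≠ 0} ∧
      (∀ z, co z ≠ 0 → co (R z) ≠ 0 ∧ R z ∈ Lset α mk co U) ∧
      ∀ z ∈ Lset α mk co U, R z = z := by
  obtain ⟨R, h1, h2, h3⟩ := h.exists_rho hop _ 0 le_rfl le_rfl
  refine ⟨R, h1, fun z hz => ⟨(h2 z hz).1, ?_⟩, fun z hz => h3 z ?_⟩
  · rw [h.mem_Lset]
    exact norm_le_zero_iff.1 (h2 z hz).2
  · rw [h.mem_Lset.1 hz, norm_zero]

end CC

end CC

end BC
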