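import Pool.Agent.Work.MP_de2d29_al.CSkel
import Pool.Agent.Work.MP_de2d29_al.Gal
import Pool.Agent.Work.MP_de2d29_al.Hemi

/-!
# BUILDING, block C: the hemisphere theorem for spherical buildings

The cone complex of a finite building is a cone complex in the sense of `Hemi.lean`; the maps
required there are the contractions `G` of `J_LIFT` towards opposite points, the estimate is the
folding inequality `fold_le`.
-/

set_option autoImplicit false

open Set Metric Topology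

namespace BD.C

open Pool.Agent.Work.MP_de2d29_al
open Pool.Agent.Work.MP_017613_gt (PushOff Rnd.AEk)
open scoped InnerProductSpace

/-- OPPOSITE POINTS -/
def J_OPP : Prop :=
  ∀ (J V R : Type) [Finite J] [NormedAddCommGroup V] [InnerProductSpace ℝ V]
    (M : CoxeterMatrix J) [Finite M.Group] (e : J → V) (h : RootBasis M (ip V) e)
    (Δ : Building M R), (RootBasis.Int (ip V) e).Nonempty → ∀ (c₁ : R) (a : V),
    a ∈ RootBasis.Dom (ip V) e →
    ∃ o : R, ∃ p ∈ RootBasis.Dom (ip V) e, ∀ c, mk h Δ c a = mk h Δ c₁ a → act h (Δ.δ c o) p = -a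

/-- THE HEMISPHERE THEOREM, outside the origin -/
def J_HEMI' : Prop :=
  ∀ (J V R : Type) [Finite J] [Fintype R] [NormedAddCommGroup V] [InnerProductSpace ℝ V]
    [FiniteDimensional ℝ V] (M : CoxeterMatrix J) [Finite M.Group] (e : J → V)
    (h : RootBasis M (ip V) e) (Δ : Building M R) (e₀ : R) (u : V),
    (RootBasis.Int (ip V) e).Nonempty → u ∈ RootBasis.Dom (ip V) e →
    (∀ y, (∀ i, ⟪y, e i⟫_ℝ = 0) → ⟪u, y⟫_ℝ = 0) →
    ∃ r : (R → V) → (R → V), ContinuousOn r (Cone h Δ \ {0}) ∧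
      (∀ z ∈ Cone h Δ, z ≠ 0 → r z ∈ Hemi h Δ e₀ u ∧ r z ≠ 0) ∧
      ∀ z ∈ Hemi h Δ e₀ u, r z = z

variable {J V R : Type} [NormedAddCommGroup V] [InnerProductSpace ℝ V]

namespace Hem

section basic

variable {M : CoxeterMatrix J} {e : J → V} (h : RootBasis M (ip V) e) (Δ : Building M R)

theorem ip_apply (x y : V) : ip V x y = ⟪x, y⟫_ℝ := rfl

theorem act_one (x : V) : act h 1 x = x := h.rho_one _ x

theorem act_mul (w w' : M.Group) (x : V) : act h (w * w') x = act h w (act h w' x) :=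
  h.rho_mul _ w w' x

theorem act_inv_act (w : M.Group) (x : V) : act h w⁻¹ (act h w x) = x := h.rho_inv_apply _ w x

theorem act_act_inv (w : M.Group) (x : V) : act h w (act h w⁻¹ x) = x := h.rho_apply_inv _ w x

theorem inner_act (w : M.Group) (x y : V) : ⟪act h w x, act h w y⟫_ℝ = ⟪x, y⟫_ℝ :=
  h.B_rho _ w x y

theorem inner_act_left (w : M.Group) (x y : V) : ⟪act h w x, y⟫_ℝ = ⟪x, act h w⁻¹ y⟫_ℝ :=
  h.B_rho_left _ w x y

theorem norm_act (w : M.Group) (x : V) : ‖act h w x‖ = ‖x‖ := by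
  rw [← sq_eq_sq₀ (norm_nonneg _) (norm_nonneg _), ← real_inner_self_eq_norm_sq,
    ← real_inner_self_eq_norm_sq, inner_act]

theorem act_zero (w : M.Group) : act h w 0 = 0 := map_zero (h.rho M.toCoxeterSystem w)

theorem act_sub (w : M.Group) (x y : V) : act h w (x - y) = act h w x - act h w y :=
  map_sub (h.rho M.toCoxeterSystem w) x y

theorem act_add (w : M.Group) (x y : V) : act h w (x + y) = act h w x + act h w y :=
  map_add (h.rho M.toCoxeterSystem w) x y

theorem act_smul (w : M.Group) (t : ℝ) (x : V) : act h w (t • x) = t • act h w x :=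
  map_smul (h.rho M.toCoxeterSystem w) t x

theorem act_eq_zero {w : M.Group} {x : V} : act h w x = 0 ↔ x = 0 := by
  rw [← norm_eq_zero, norm_act, norm_eq_zero]

theorem continuous_act (w : M.Group) : Continuous (act h w) := by
  have h1 : LipschitzWith 1 (act h w) := LipschitzWith.of_dist_le_mul fun x y => by
    rw [NNReal.coe_one, one_mul, dist_eq_norm, dist_eq_norm, ← act_sub, norm_act]
  exact h1.continuous

theorem mk_self (c : R) (x : V) : mk h Δ c x c = x := by
  show act h (Δ.δ c c) x = x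
  rw [Δ.δ_self, act_one]

/-- equality of points -/
theorem mk_eq_mk {c c' : R} {x x' : V} (hx : x ∈ RootBasis.Dom (ip V) e)
    (hx' : x' ∈ RootBasis.Dom (ip V) e) : mk h Δ c x = mk h Δ c' x' ↔ x = x' ∧
      Δ.δ c c' ∈ RootBasis.par M.toCoxeterSystem (RootBasis.walls (ip V) e x) := by
  constructor
  · intro h1
    have h2 := congrFun h1 c
    rw [mk_self] at h2
    have h3 : h.rho M.toCoxeterSystem (Δ.δ c c') x' = x := h2.symm
    obtain ⟨h4, h5⟩ := h.fundamental M.toCoxeterSystem hx' (Δ.δ c c') (by rw [h3]; exact hx)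
    have h6 : x = x' := h3.symm.trans h4
    refine ⟨h6, ?_⟩
    rw [h6]
    exact h5
  · rintro ⟨rfl, h1⟩
    funext d
    obtain ⟨v, hv, h2⟩ := Δ.δ_par_right d h1
    show act h (Δ.δ d c) x = act h (Δ.δ d c') x
    rw [h2, act_mul]
    congr 1
    exact (h.par_fix M.toCoxeterSystem hv).symm

/-- `⟪x, w x'⟫ ≤ ⟪x, x'⟫` -/
theorem inner_act_le {x x' : V} (hx : x ∈ RootBasis.Dom (ip V) e)
    (hx' : x' ∈ RootBasis.Dom (ip V) e) (w : M.Group) : ⟪x, act h w x'⟫_ℝ ≤ ⟪x, x'⟫_ℝ := by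
  induction w using left_induction with
  | one => rw [act_one]
  | mul i w hw ih =>
    refine le_trans ?_ ih
    have hnl : ¬ M.toCoxeterSystem.IsLeftDescent w i := by
      intro hl
      have h5 := M.toCoxeterSystem.isLeftDescent_iff.1 hl
      change ll M (M.simple i * w) + 1 = ll M w at h5
      omega
    have e1 : ⟪act h w x', e i⟫_ℝ ≤ 0 := h.left_le M.toCoxeterSystem hx' hnl
    have e2 : ⟪x, e i⟫_ℝ ≤ 0 := hx i
    have e3 : act h (M.simple i * w) x' = act h w x' - (2 * ⟪e i, act h w x'⟫_ℝ) • e i := by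
      rw [act_mul]
      exact h.rho_simple_apply M.toCoxeterSystem i _
    rw [e3, inner_sub_right, real_inner_smul_right]
    rw [real_inner_comm] at e1
    nlinarith [mul_nonneg_of_nonpos_of_nonpos e1 e2]

theorem norm_sub_le_act {x x' : V} (hx : x ∈ RootBasis.Dom (ip V) e)
    (hx' : x' ∈ RootBasis.Dom (ip V) e) (w w' : M.Group) :
    ‖x - x'‖ ≤ ‖act h w x - act h w' x'‖ := by
  have h1 : ‖act h w x - act h w' x'‖ ^ 2 = ‖x‖ ^ 2 - 2 * ⟪x, act h (w⁻¹ * w') x'⟫_ℝ + ‖x'‖ ^ 2 := by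
    rw [norm_sub_sq_real, norm_act, norm_act, inner_act_left, act_mul]
  have h2 : ‖x - x'‖ ^ 2 ≤ ‖act h w x - act h w' x'‖ ^ 2 := by
    rw [h1, norm_sub_sq_real]
    linarith [inner_act_le h hx hx' (w⁻¹ * w')]
  exact le_of_sq_le_sq h2 (norm_nonneg _)

theorem zero_mem_Dom : (0 : V) ∈ RootBasis.Dom (ip V) e := fun s => by simp

theorem mk_eq_zero {c : R} {x : V} : mk h Δ c x = 0 ↔ x = 0 := by
  constructor
  · intro h1
    have h2 := congrFun h1 c
    rwa [mk_self] at h2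
  · rintro rfl
    funext d
    exact act_zero h _

end basic

/-! ## The cone complex as an abstract cone complex -/

section inst

variable {M : CoxeterMatrix J} {e : J → V} (h : RootBasis M (ip V) e) (Δ : Building M R)

theorem fc_empty : BC.fc (fun i => -e i) ∅ = RootBasis.Dom (ip V) e := by
  ext x
  constructor
  · intro hx i
    have := hx.1 i
    rw [inner_neg_right] at this
    rw [ip_apply]
    linarith
  · intro hx
    refine ⟨fun i => ?_, fun i hi => absurd hi (notMem_empty i)⟩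
    have : ⟪x, e i⟫_ℝ ≤ 0 := hx i
    rw [inner_neg_right]
    linarith

theorem ty_eq (x : V) : BC.ty (fun i => -e i) x = RootBasis.walls (ip V) e x := by
  ext i
  show (⟪x, -e i⟫_ℝ = 0) ↔ (⟪x, e i⟫_ℝ = 0)
  rw [inner_neg_right, neg_eq_zero]

theorem mk_mem {c : R} {x : V} (hx : x ∈ RootBasis.Dom (ip V) e) : mk h Δ c x ∈ Cone h Δ :=
  ⟨c, x, hx, rfl⟩

open Classical in
/-- the points of the cone complex -/
noncomputable def mk' (c : R) (x : V) : Cone h Δ :=
  if hx : x ∈ RootBasis.Dom (ip V) e then ⟨mk h Δ c x, mk_mem h Δ hx⟩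
  else ⟨mk h Δ c 0, mk_mem h Δ zero_mem_Dom⟩

theorem mk'_val {c : R} {x : V} (hx : x ∈ RootBasis.Dom (ip V) e) :
    (mk' h Δ c x : R → V) = mk h Δ c x := by
  rw [mk', dif_pos hx]

/-- the type of a point -/
noncomputable def co (z : Cone h Δ) : V := z.2.choose_spec.choose

theorem co_spec (z : Cone h Δ) : co h Δ z ∈ RootBasis.Dom (ip V) e ∧
    (z : R → V) = mk h Δ z.2.choose (co h Δ z) := z.2.choose_spec.choose_spec

theorem co_mk' {c : R} {x : V} (hx : x ∈ RootBasis.Dom (ip V) e) : co h Δ (mk' h Δ c x) = x := by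
  obtain ⟨h1, h2⟩ := co_spec h Δ (mk' h Δ c x)
  exact ((mk_eq_mk h Δ hx h1).1 ((mk'_val h Δ hx).symm.trans h2)).1.symm

theorem continuous_co [Fintype R] : Continuous (co h Δ) := by
  obtain ⟨c₀⟩ := Δ.ne
  have h1 : LipschitzWith 1 (co h Δ) := LipschitzWith.of_dist_le_mul fun z z' => by
    rw [NNReal.coe_one, one_mul]
    obtain ⟨h1, h2⟩ := co_spec h Δ z
    obtain ⟨h3, h4⟩ := co_spec h Δ z'
    rw [dist_eq_norm]
    refine (norm_sub_le_act h h1 h3 (Δ.δ c₀ z.2.choose) (Δ.δ c₀ z'.2.choose)).trans ?_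
    have h5 := dist_le_pi_dist (z : R → V) (z' : R → V) c₀
    rw [h2, h4, ← h2, ← h4] at h5
    have e1 : (z : R → V) c₀ = act h (Δ.δ c₀ z.2.choose) (co h Δ z) := congrFun h2 c₀
    have e2 : (z' : R → V) c₀ = act h (Δ.δ c₀ z'.2.choose) (co h Δ z') := congrFun h4 c₀
    rw [← e1, ← e2, ← dist_eq_norm]
    exact h5
  exact h1.continuous

theorem co_eq_zero {z : Cone h Δ} : co h Δ z = 0 ↔ (z : R → V) = 0 := by
  obtain ⟨h1, h2⟩ := co_spec h Δ z
  conv_rhs => rw [h2]
  exact (mk_eq_zero h Δ).symm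

/-- the linear function on the chamber `c` -/
noncomputable def UU (e₀ : R) (u : V) (c : R) : V := act h (Δ.δ e₀ c)⁻¹ u

theorem inner_UU (e₀ : R) (u : V) (c : R) (x : V) : ⟪UU h Δ e₀ u c, x⟫_ℝ = ⟪u, mk h Δ c x e₀⟫_ℝ := by
  rw [UU, inner_act_left, inv_inv]
  rfl

theorem cc [Fintype R] (e₀ : R) (u : V) (hu : ∀ y, (∀ i, ⟪y, e i⟫_ℝ = 0) → ⟪u, y⟫_ℝ = 0) :
    BC.CC (fun i => -e i) (mk' h Δ) (co h Δ) (UU h Δ e₀ u) where
  mk_cont c := by
    rw [fc_empty, continuousOn_iff_continuous_domRestrict]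
    refine Continuous.subtype_mk (f := fun x : RootBasis.Dom (ip V) e => mk h Δ c x)
      (continuous_pi fun d => (continuous_act h _).comp continuous_subtype_val)
      (fun x => mk_mem h Δ x.2) |>.congr fun x => ?_
    apply Subtype.ext
    show mk h Δ c x = (mk' h Δ c x : R → V)
    rw [mk'_val h Δ x.2]
  co_cont := continuous_co h Δ
  co_mk c x hx := by
    rw [fc_empty] at hx
    exact co_mk' h Δ hx
  co_mem z := by
    rw [fc_empty]
    exact (co_spec h Δ z).1
  surj z := by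
    obtain ⟨h1, h2⟩ := co_spec h Δ z
    refine ⟨z.2.choose, Subtype.ext ?_⟩
    rw [mk'_val h Δ h1]
    exact h2.symm
  face c c' x hx y hy h1 h2 := by
    rw [fc_empty] at hx hy
    rw [ty_eq, ty_eq] at h2
    have h3 := congrArg Subtype.val h1
    rw [mk'_val h Δ hx, mk'_val h Δ hx, mk_eq_mk h Δ hx hx] at h3
    apply Subtype.ext
    rw [mk'_val h Δ hy, mk'_val h Δ hy, mk_eq_mk h Δ hy hy]
    exact ⟨rfl, Building.Par_mono h2 h3.2⟩
  hU c c' x hx h1 := by
    rw [fc_empty] at hx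
    have h3 := congrArg Subtype.val h1
    rw [mk'_val h Δ hx, mk'_val h Δ hx] at h3
    rw [inner_UU, inner_UU, h3]
  hU0 c x hx := by
    have h1 : ∀ i, ⟪x, e i⟫_ℝ = 0 := fun i => by
      have := hx i
      rwa [inner_neg_right, neg_eq_zero] at this
    rw [inner_UU]
    have h2 : mk h Δ c x e₀ = x := by
      refine h.par_fix M.toCoxeterSystem ?_
      have h3 : RootBasis.walls (ip V) e x = univ := by
        ext i
        exact ⟨fun _ => mem_univ _, fun _ => h1 i⟩
      rw [h3, RootBasis.par, image_univ]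
      have h4 := M.toCoxeterSystem.subgroup_closure_range_simple
      rw [h4]
      exact Subgroup.mem_top _
    rw [h2]
    exact hu x h1

end inst

/-- opposite points give the maps needed in `Hemi.lean` -/
theorem hasOpp (hL : J_LIFT) (hO : J_OPP) [Finite J] [Fintype R] [FiniteDimensional ℝ V]
    {M : CoxeterMatrix J} [Finite M.Group] {e : J → V} (h : RootBasis M (ip V) e)
    (Δ : Building M R) (hI : (RootBasis.Int (ip V) e).Nonempty) (e₀ : R) {u : V}
    (hu : u ∈ RootBasis.Dom (ip V) e) :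
    BC.HasOpp (fun i => -e i) (mk' h Δ) (co h Δ) (UU h Δ e₀ u) := by
  classical
  intro p _
  obtain ⟨hp1, hp2⟩ := co_spec h Δ p
  set a := co h Δ p with ha
  set c₁ := p.2.choose with hc₁
  obtain ⟨o, q, hq, hoq⟩ := hO J V R M e h Δ hI c₁ a hp1
  obtain ⟨G, hG1, hG2, hG3⟩ := hL J V R M e h Δ o q hI hq
  have hGm : ∀ (z : Cone h Δ) (l : ℝ), 0 ≤ l → G z l ∈ Cone h Δ := by
    rintro ⟨z, c, v, hv, rfl⟩ l hl
    obtain ⟨c', d, hd, h1, -⟩ := hG3 c v hv l hl
    exact ⟨c', d, hd, h1⟩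
  refine ⟨fun z l => if hl : 0 ≤ l then ⟨G z l, hGm z l hl⟩ else z, ?_, fun z => ?_,
    fun c hc v hv l hl => ?_⟩
  · rw [continuousOn_iff_continuous_domRestrict]
    have h1 : Continuous fun q : {q : Cone h Δ × ℝ // 0 ≤ q.2} =>
        (⟨G q.1.1 q.1.2, hGm q.1.1 q.1.2 q.2⟩ : Cone h Δ) := by
      refine Continuous.subtype_mk ?_ _
      exact hG1.comp_continuous ((continuous_subtype_val.comp
        (continuous_fst.comp continuous_subtype_val)).prodMk
        (continuous_snd.comp continuous_subtype_val)) fun q => ⟨q.1.1.2, q.2⟩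
    refine h1.congr fun q => ?_
    have hq : 0 ≤ q.1.2 := q.2
    simp only [domRestrict_apply, dif_pos hq]
  · apply Subtype.ext
    show ((if hl : (0 : ℝ) ≤ 0 then ⟨G z 0, hGm z 0 hl⟩ else z : Cone h Δ) : R → V) = z
    rw [dif_pos le_rfl]
    exact hG2 z z.2
  · rw [fc_empty] at hv
    obtain ⟨c', d, hd, h1, h2, h3⟩ := hG3 c v hv l hl
    have hc' : mk h Δ c a = mk h Δ c₁ a := by
      have := congrArg Subtype.val hc
      rw [mk'_val h Δ hp1] at this
      exact this.trans hp2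
    have hcq := hoq c hc'
    have hsym : Δ.δ o c = (Δ.δ c o)⁻¹ := Δ.δ_symm c o
    -- `δ c c' d = v - l a`
    have hd1 : act h (Δ.δ c c') d = v - l • a := by
      have e1 : Δ.δ c c' = (Δ.δ o c)⁻¹ * Δ.δ o c' := by
        rw [← h3, mul_inv_rev, inv_mul_cancel_right]
        exact Δ.δ_symm c' c
      rw [e1, act_mul, h2, act_add, act_inv_act, act_smul, hsym, inv_inv, hcq, smul_neg,
        ← sub_eq_add_neg]
    refine ⟨c', d, by rw [fc_empty]; exact hd, ?_, ?_, ?_⟩
    · apply Subtype.ext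
      rw [mk'_val h Δ hd]
      show ((if hl : (0 : ℝ) ≤ l then ⟨G (mk' h Δ c v) l, hGm _ l hl⟩ else mk' h Δ c v :
        Cone h Δ) : R → V) = _
      rw [dif_pos hl, ← h1]
      show G (mk' h Δ c v : R → V) l = _
      rw [mk'_val h Δ hv]
    · rw [← hd1, norm_act]
    · rw [inner_UU, UU, inner_act_left, inv_inv, ← hd1]
      exact fold_le h Δ hu hd e₀ c c'

end Hem

open Hem

/-- **The hemisphere theorem.** -/
theorem j_hemi' (hL : J_LIFT) (hO : J_OPP) : J_HEMI' := by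
  classical
  intro J V R _ _ _ _ _ M _ e h Δ e₀ u hI hu hu0
  have hc := cc h Δ e₀ u hu0
  obtain ⟨r, hr1, hr2, hr3⟩ := hc.exists_retract (hasOpp hL hO h Δ hI e₀ hu)
  -- the hemisphere complex
  have hiff : ∀ z : Cone h Δ, z ∈ BC.Lset (fun i => -e i) (mk' h Δ) (co h Δ) (UU h Δ e₀ u) ↔
      (z : R → V) ∈ Hemi h Δ e₀ u := by
    intro z
    constructor
    · intro hz
      obtain ⟨h1, h2⟩ := co_spec h Δ z
      refine ⟨z.2.choose, co h Δ z, h1, h2, fun y hy hw => ?_⟩
      rw [← inner_UU]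
      refine hz z.2.choose ?_ y ⟨?_, fun i hi => ?_⟩
      · apply Subtype.ext
        rw [mk'_val h Δ h1]
        exact h2.symm
      · rw [← fc_empty] at hy
        exact hy.1
      · rw [ty_eq] at hi
        have h3 := hw hi
        rw [← ty_eq] at h3
        exact h3
    · rintro ⟨c, x, hx, h1, h2⟩ c' hc' y hy
      have hz1 := (co_spec h Δ z).1
      have h3 : z = mk' h Δ c x := Subtype.ext (by rw [mk'_val h Δ hx, h1])
      have h4 : co h Δ z = x := by rw [h3, co_mk' h Δ hx]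
      rw [h4] at hc' hy
      have hy0 : y ∈ RootBasis.Dom (ip V) e := by
        rw [← fc_empty]
        exact BC.fc_anti (empty_subset _) hy
      have h5 : RootBasis.walls (ip V) e x ⊆ RootBasis.walls (ip V) e y := by
        rw [← ty_eq, ← ty_eq]
        exact BC.ty_of_mem hy
      have h6 : mk h Δ c' y = mk h Δ c y := by
        have h7 := congrArg Subtype.val (hc'.trans h3)
        rw [mk'_val h Δ hx, mk'_val h Δ hx, mk_eq_mk h Δ hx hx] at h7
        rw [mk_eq_mk h Δ hy0 hy0]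
        exact ⟨rfl, Building.Par_mono h5 h7.2⟩
      rw [inner_UU, h6]
      exact h2 y hy0 h5
  refine ⟨fun f => if hf : f ∈ Cone h Δ then (r ⟨f, hf⟩ : R → V) else f, ?_, fun z hz hz0 => ?_,
    fun z hz => ?_⟩
  · rw [continuousOn_iff_continuous_domRestrict]
    have h1 : Continuous fun q : (Cone h Δ \ {0} : Set (R → V)) => (r ⟨q.1, q.2.1⟩ : R → V) := by
      refine continuous_subtype_val.comp (hr1.comp_continuous (by fun_prop) fun q => ?_)
      show co h Δ ⟨q.1, q.2.1⟩ ≠ 0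
      rw [Ne, co_eq_zero]
      exact q.2.2
    refine h1.congr fun q => ?_
    simp only [domRestrict_apply, dif_pos q.2.1]
  · simp only [dif_pos hz]
    have h1 : co h Δ ⟨z, hz⟩ ≠ 0 := by
      rw [Ne, co_eq_zero]
      exact hz0
    obtain ⟨h2, h3⟩ := hr2 ⟨z, hz⟩ h1
    refine ⟨(hiff _).1 h3, ?_⟩
    rw [Ne, co_eq_zero] at h2
    exact h2
  · have hz' : z ∈ Cone h Δ := by
      obtain ⟨c, x, hx, h1, -⟩ := hz
      exact ⟨c, x, hx, h1⟩
    simp only [dif_pos hz']
    rw [hr3 ⟨z, hz'⟩ ((hiff _).2 hz)]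

/-- **The main theorem of block C**, from Solomon-Tits, LIFT and OPP. -/
theorem j_main (hS : J_ST) (hL : J_LIFT) (hO : J_OPP) : J_MAIN := by
  intro J V R _ _ _ _ _ M _ e h Δ e₀ u n hI hu hu0 hn
  obtain ⟨r, hr1, hr2, hr3⟩ := j_hemi' hL hO J V R M e h Δ e₀ u hI hu hu0
  obtain ⟨⟨z, hz⟩, hA⟩ := hS J V R M e h Δ n hI hn
  have hsub : Hemi h Δ e₀ u ⊆ Cone h Δ := by
    rintro f ⟨c, x, hx, h1, -⟩
    exact ⟨c, x, hx, h1⟩
  refine ⟨⟨r z, (hr2 z hz.1 hz.2).1, (hr2 z hz.1 hz.2).2⟩, fun γ _ P A hP f₀ hf hm => ?_⟩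
  obtain ⟨F, hF1, hF2, hF3⟩ := hA γ P A hP f₀ hf fun x hx => ⟨hsub (hm hx).1, (hm hx).2⟩
  refine ⟨fun x => r (F x), hr1.comp hF1 hF2, fun x hx => ?_, fun x hx => ?_⟩
  · have h1 := hF2 hx
    exact ⟨(hr2 _ h1.1 h1.2).1, (hr2 _ h1.1 h1.2).2⟩
  · show r (F x) = f₀ x
    rw [hF3 hx]
    exact hr3 _ (hm hx).1

end BD.C
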