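import Pool.Agent.Work.MP_de2d29_al.CMain

/-!
# BUILDING, block C: the hemisphere theorem with arbitrary pole

The vector `u` need not lie in the chamber `e₀`: if the antipode of a point `m` is taken in an
apartment containing `m` and `e₀`, then the retraction centred at `e₀` maps every half circle between
`m` and its antipode to a half circle, since it is 1-Lipschitz.
-/

set_option autoImplicit false

open Set Metric Topology

namespace BD.C

open Pool.Agent.Work.MP_de2d29_al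
open Pool.Agent.Work.MP_017613_gt (PushOff Rnd.AEk)
open scoped InnerProductSpace

/-- the longest element is additive -/
theorem longest_add {J V : Type} [NormedAddCommGroup V] [InnerProductSpace ℝ V]
    {M : CoxeterMatrix J} {e : J → V} (h : RootBasis M (ip V) e)
    (hI : (RootBasis.Int (ip V) e).Nonempty) {w₀ : M.Group}
    (hw : ∀ s, M.toCoxeterSystem.IsLeftDescent w₀ s) (u : M.Group) :
    ll M w₀ = ll M u + ll M (u⁻¹ * w₀) := by
  obtain ⟨x, hx⟩ := hI
  have hxD : x ∈ RootBasis.Dom (ip V) e := RootBasis.Int_subset hx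
  have hwx : RootBasis.walls (ip V) e x = ∅ := by
    ext s
    simp only [RootBasis.walls, mem_ofPred_eq, mem_empty_iff_false, iff_false]
    exact (hx s).ne
  refine BD.weak_order M.toCoxeterSystem h ⟨x, hx⟩ (x := x) (x' := x) hxD hxD ?_ ?_
  · intro v hv
    rw [hwx] at hv
    have hv1 : v = 1 := by simpa [RootBasis.par] using hv
    rw [hv1, mul_one, M.toCoxeterSystem.length_one, add_zero]
  · intro g t hg _
    have h1 : -(h.rho M.toCoxeterSystem w₀ x) ∈ RootBasis.Int (ip V) e := by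
      intro s
      have h2 := (h.left_gt_iff M.toCoxeterSystem hx).2 (hw s)
      rw [map_neg]
      simp only [LinearMap.neg_apply]
      linarith
    have h3 := RootBasis.Int_lt h1 (h.tits M.toCoxeterSystem hg)
      (h.rho_ne_zero M.toCoxeterSystem g t)
    rw [map_neg] at h3
    simp only [LinearMap.neg_apply] at h3
    linarith

/-- OPPOSITE POINTS in an apartment containing a given chamber -/
theorem exists_opp {J V R : Type} [Finite J] [NormedAddCommGroup V] [InnerProductSpace ℝ V]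
    {M : CoxeterMatrix J} [Finite M.Group] {e : J → V} (h : RootBasis M (ip V) e)
    (Δ : Building M R) (hI : (RootBasis.Int (ip V) e).Nonempty) (e₀ c₁ : R) {a : V}
    (ha : a ∈ RootBasis.Dom (ip V) e) :
    ∃ o : R, ∃ p ∈ RootBasis.Dom (ip V) e,
      (∀ c, mk h Δ c a = mk h Δ c₁ a → act h (Δ.δ c o) p = -a) ∧
      act h (Δ.δ e₀ o) p = -act h (Δ.δ e₀ c₁) a := by
  classical
  have : Fintype J := Fintype.ofFinite J
  obtain ⟨w₀, hl, hr⟩ := exists_longest M
  -- `w₀` is an involution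
  have hinv : w₀ * w₀ = 1 := by
    have h1 := longest_add h hI hl w₀⁻¹
    rw [inv_inv] at h1
    have h2 : ll M w₀⁻¹ = ll M w₀ := ll_inv w₀
    have h3 : ll M (w₀ * w₀) = 0 := by omega
    exact M.toCoxeterSystem.length_eq_zero_iff.1 h3
  obtain ⟨o, ho⟩ := exists_delta_right Δ e₀ (Δ.δ e₀ c₁ * w₀)
  have hco : Δ.δ c₁ o = w₀ := by
    have h1 := longest_add h hI hl (Δ.δ c₁ e₀)
    have h2 : (Δ.δ c₁ e₀)⁻¹ = Δ.δ e₀ c₁ := (Δ.δ_symm c₁ e₀).symm
    rw [h2] at h1
    have h3 : Δ.δ c₁ e₀ * (Δ.δ e₀ c₁ * w₀) = w₀ := by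
      rw [← h2, mul_inv_cancel_left]
    have h4 := Δ.δ_mul (a := c₁) (b := e₀) (c := o) (by rw [ho, h3, h1])
    rw [h4, ho, h3]
  have hoc : Δ.δ o c₁ = w₀ := by
    rw [Δ.δ_symm c₁ o, hco]
    exact inv_eq_of_mul_eq_one_left hinv
  refine ⟨o, -act h w₀ a, neg_act_mem_Dom h hl ha, fun c hc => ?_, ?_⟩
  · have h1 : act h (Δ.δ o c) a = act h w₀ a := act_opp h Δ hoc hc
    have h2 : Δ.δ c o = (Δ.δ o c)⁻¹ := Δ.δ_symm o c
    rw [h2, act_neg, ← h1, act_inv_apply]
  · rw [ho, act_neg, act_mul, ← act_mul h w₀ w₀, hinv, act_one]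

/-- THE HEMISPHERE THEOREM, arbitrary pole -/
def J_HEMI2 : Prop :=
  ∀ (J V R : Type) [Finite J] [Fintype R] [NormedAddCommGroup V] [InnerProductSpace ℝ V]
    [FiniteDimensional ℝ V] (M : CoxeterMatrix J) [Finite M.Group] (e : J → V)
    (h : RootBasis M (ip V) e) (Δ : Building M R) (e₀ : R) (u : V),
    (RootBasis.Int (ip V) e).Nonempty →
    (∀ y, (∀ i, ⟪y, e i⟫_ℝ = 0) → ⟪u, y⟫_ℝ = 0) →
    ∃ r : (R → V) → (R → V), ContinuousOn r (Cone h Δ \ {0}) ∧
      (∀ z ∈ Cone h Δ, z ≠ 0 → r z ∈ Hemi h Δ e₀ u ∧ r z ≠ 0) ∧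
      ∀ z ∈ Hemi h Δ e₀ u, r z = z

/-- THE MAIN THEOREM, arbitrary pole -/
def J_MAIN2 : Prop :=
  ∀ (J V R : Type) [Finite J] [Fintype R] [NormedAddCommGroup V] [InnerProductSpace ℝ V]
    [FiniteDimensional ℝ V] (M : CoxeterMatrix J) [Finite M.Group] (e : J → V)
    (h : RootBasis M (ip V) e) (Δ : Building M R) (e₀ : R) (u : V) (n : ℕ),
    (RootBasis.Int (ip V) e).Nonempty →
    (∀ y, (∀ i, ⟪y, e i⟫_ℝ = 0) → ⟪u, y⟫_ℝ = 0) → Module.finrank ℝ V = n + 1 →
    Pool.Agent.Work.MP_017613_gt.Rnd.AEk n (Hemi h Δ e₀ u \ {0})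

open Hem in
/-- the maps of `Hemi.lean` for an arbitrary pole `u` -/
theorem hasOpp2 {J V R : Type} [NormedAddCommGroup V] [InnerProductSpace ℝ V] [Finite J]
    [Fintype R] [FiniteDimensional ℝ V] {M : CoxeterMatrix J} [Finite M.Group] {e : J → V}
    (h : RootBasis M (ip V) e) (Δ : Building M R) (hI : (RootBasis.Int (ip V) e).Nonempty)
    (e₀ : R) (u : V) :
    BC.HasOpp (fun i => -e i) (mk' h Δ) (co h Δ) (UU h Δ e₀ u) := by
  classical
  intro p _
  obtain ⟨hp1, hp2⟩ := co_spec h Δ p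
  set a := co h Δ p with ha
  set c₁ := p.2.choose with hc₁
  obtain ⟨o, q, hq, hoq, hoq2⟩ := exists_opp h Δ hI e₀ c₁ hp1
  obtain ⟨G, hG1, hG2, hG3⟩ := j_LIFT J V R M e h Δ o q hI hq
  have hGm : ∀ (z : Cone h Δ) (l : ℝ), 0 ≤ l → G z l ∈ Cone h Δ := by
    rintro ⟨z, c, v, hv, rfl⟩ l hl
    obtain ⟨c', d, hd, h1, -⟩ := hG3 c v hv l hl
    exact ⟨c', d, hd, h1⟩
  refine ⟨fun z l => if hl : 0 ≤ l then ⟨G z l, hGm z l hl⟩ else z, ?_, fun z => ?_,
    fun c hc v hv l hl => ?_⟩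
  · rw [continuousOn_iff_continuous_domRestrict]
    have h1 : Continuous fun q : {q : Cone h Δ × ℝ // 0 ≤ q.2} =>
        (⟨G q.1.1 q.1.2, hGm q.1.1 q.1.2 q.2⟩ : Cone h Δ) := by
      refine Continuous.subtype_mk ?_ _
      exact hG1.comp_continuous ((continuous_subtype_val.comp
        (continuous_fst.comp continuous_subtype_val)).prodMk
        (continuous_snd.comp continuous_subtype_val)) fun q => ⟨q.1.1.2, q.2⟩
    refine h1.congr fun q => ?_
    have hq : 0 ≤ q.1.2 := q.2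
    simp only [domRestrict_apply, dif_pos hq]
  · apply Subtype.ext
    show ((if hl : (0 : ℝ) ≤ 0 then ⟨G z 0, hGm z 0 hl⟩ else z : Cone h Δ) : R → V) = z
    rw [dif_pos le_rfl]
    exact hG2 z z.2
  · rw [fc_empty] at hv
    obtain ⟨c', d, hd, h1, h2, h3⟩ := hG3 c v hv l hl
    have hc' : mk h Δ c a = mk h Δ c₁ a := by
      have := congrArg Subtype.val hc
      rw [mk'_val h Δ hp1] at this
      exact this.trans hp2
    have hcq := hoq c hc'
    have hsym : Δ.δ o c = (Δ.δ c o)⁻¹ := Δ.δ_symm c o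
    -- `δ c c' d = v - l a`
    have hd1 : act h (Δ.δ c c') d = v - l • a := by
      have e1 : Δ.δ c c' = (Δ.δ o c)⁻¹ * Δ.δ o c' := by
        rw [← h3, mul_inv_rev, inv_mul_cancel_right]
        exact Δ.δ_symm c' c
      rw [e1, Hem.act_mul, h2, Hem.act_add, Hem.act_inv_act, Hem.act_smul, hsym, inv_inv, hcq,
        smul_neg, ← sub_eq_add_neg]
    have hnd : ‖d‖ = ‖v - l • a‖ := by rw [← hd1, norm_act]
    -- the retraction centred at `e₀` is unbroken
    have key : act h (Δ.δ e₀ c') d = act h (Δ.δ e₀ c) (v - l • a) := by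
      set z := act h (Δ.δ e₀ c') d with hz
      set m := act h (Δ.δ e₀ c) a with hm
      set x := act h (Δ.δ e₀ c) v with hx
      have hm1 : m = act h (Δ.δ e₀ c₁) a := congrFun hc' e₀
      have hzn : ‖z‖ = ‖v - l • a‖ := by rw [hz, norm_act, hnd]
      -- lower bounds by the 1-Lipschitz property
      have l1 : ⟪v, v - l • a⟫_ℝ ≤ ⟪x, z⟫_ℝ := by
        have := retr_le h Δ hv hd e₀ c c'
        rw [← hd1]
        exact this
      have l2 : ⟪x, z⟫_ℝ ≤ ⟪x, z⟫_ℝ := le_rfl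
      have l3 : ⟪-a, v - l • a⟫_ℝ ≤ ⟪-m, z⟫_ℝ := by
        have h4 := retr_le h Δ hq hd e₀ o c'
        have e2 : ⟪q, act h (Δ.δ o c') d⟫_ℝ = ⟪-a, v - l • a⟫_ℝ := by
          rw [h2, ← inner_act h (Δ.δ c o) q, hcq, Hem.act_add, Hem.act_smul, hcq, hsym,
            Hem.act_act_inv, smul_neg, ← sub_eq_add_neg]
        have e3 : act h (Δ.δ e₀ o) q = -m := by rw [hoq2, hm1]
        rw [← e2, ← e3]
        exact h4
      have hxm : ‖x - l • m‖ = ‖v - l • a‖ := by
        rw [hx, hm, ← Hem.act_smul, ← act_sub, norm_act]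
      have h5 : ‖z - (x - l • m)‖ ^ 2 ≤ 0 := by
        rw [norm_sub_sq_real, hzn, hxm, inner_sub_right, real_inner_smul_right,
          real_inner_comm x z, real_inner_comm m z]
        have h6 : ‖v - l • a‖ ^ 2 = ⟪v, v - l • a⟫_ℝ - l * ⟪a, v - l • a⟫_ℝ := by
          rw [← real_inner_self_eq_norm_sq]
          conv_lhs => rw [inner_sub_left, real_inner_smul_left]
        rw [inner_neg_left, inner_neg_left] at l3
        have l4 := mul_le_mul_of_nonneg_left l3 hl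
        rw [h6]
        linarith
      have h7 : ‖z - (x - l • m)‖ = 0 := by
        have := sq_nonneg ‖z - (x - l • m)‖
        exact pow_eq_zero_iff two_ne_zero |>.1 (le_antisymm h5 this)
      have h8 : z = x - l • m := sub_eq_zero.1 (norm_eq_zero.1 h7)
      rw [h8, hx, hm, act_sub, Hem.act_smul]
    refine ⟨c', d, by rw [fc_empty]; exact hd, ?_, hnd, ?_⟩
    · apply Subtype.ext
      rw [mk'_val h Δ hd]
      show ((if hl : (0 : ℝ) ≤ l then ⟨G (mk' h Δ c v) l, hGm _ l hl⟩ else mk' h Δ c v :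
        Cone h Δ) : R → V) = _
      rw [dif_pos hl, ← h1]
      show G (mk' h Δ c v : R → V) l = _
      rw [mk'_val h Δ hv]
    · rw [inner_UU, inner_UU]
      show ⟪u, act h (Δ.δ e₀ c') d⟫_ℝ ≤ ⟪u, act h (Δ.δ e₀ c) (v - l • a)⟫_ℝ
      rw [key]

open Hem in
/-- **The hemisphere theorem**, arbitrary pole. -/
theorem j_HEMI2 : J_HEMI2 := by
  classical
  intro J V R _ _ _ _ _ M _ e h Δ e₀ u hI hu0
  have hc := cc h Δ e₀ u hu0
  obtain ⟨r, hr1, hr2, hr3⟩ := hc.exists_retract (hasOpp2 h Δ hI e₀ u)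
  -- the hemisphere complex
  have hiff : ∀ z : Cone h Δ, z ∈ BC.Lset (fun i => -e i) (mk' h Δ) (co h Δ) (UU h Δ e₀ u) ↔
      (z : R → V) ∈ Hemi h Δ e₀ u := by
    intro z
    constructor
    · intro hz
      obtain ⟨h1, h2⟩ := co_spec h Δ z
      refine ⟨z.2.choose, co h Δ z, h1, h2, fun y hy hw => ?_⟩
      rw [← inner_UU]
      refine hz z.2.choose ?_ y ⟨?_, fun i hi => ?_⟩
      · apply Subtype.ext
        rw [mk'_val h Δ h1]
        exact h2.symm
      · rw [← fc_empty] at hy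
        exact hy.1
      · rw [ty_eq] at hi
        have h3 := hw hi
        rw [← ty_eq] at h3
        exact h3
    · rintro ⟨c, x, hx, h1, h2⟩ c' hc' y hy
      have hz1 := (co_spec h Δ z).1
      have h3 : z = mk' h Δ c x := Subtype.ext (by rw [mk'_val h Δ hx, h1])
      have h4 : co h Δ z = x := by rw [h3, co_mk' h Δ hx]
      rw [h4] at hc' hy
      have hy0 : y ∈ RootBasis.Dom (ip V) e := by
        rw [← fc_empty]
        exact BC.fc_anti (empty_subset _) hy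
      have h5 : RootBasis.walls (ip V) e x ⊆ RootBasis.walls (ip V) e y := by
        rw [← ty_eq, ← ty_eq]
        exact BC.ty_of_mem hy
      have h6 : mk h Δ c' y = mk h Δ c y := by
        have h7 := congrArg Subtype.val (hc'.trans h3)
        rw [mk'_val h Δ hx, mk'_val h Δ hx, mk_eq_mk h Δ hx hx] at h7
        rw [mk_eq_mk h Δ hy0 hy0]
        exact ⟨rfl, Building.Par_mono h5 h7.2⟩
      rw [inner_UU, h6]
      exact h2 y hy0 h5
  refine ⟨fun f => if hf : f ∈ Cone h Δ then (r ⟨f, hf⟩ : R → V) else f, ?_, fun z hz hz0 => ?_,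
    fun z hz => ?_⟩
  · rw [continuousOn_iff_continuous_domRestrict]
    have h1 : Continuous fun q : (Cone h Δ \ {0} : Set (R → V)) => (r ⟨q.1, q.2.1⟩ : R → V) := by
      refine continuous_subtype_val.comp (hr1.comp_continuous (by fun_prop) fun q => ?_)
      show co h Δ ⟨q.1, q.2.1⟩ ≠ 0
      rw [Ne, co_eq_zero]
      exact q.2.2
    refine h1.congr fun q => ?_
    simp only [domRestrict_apply, dif_pos q.2.1]
  · simp only [dif_pos hz]
    have h1 : co h Δ ⟨z, hz⟩ ≠ 0 := by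
      rw [Ne, co_eq_zero]
      exact hz0
    obtain ⟨h2, h3⟩ := hr2 ⟨z, hz⟩ h1
    refine ⟨(hiff _).1 h3, ?_⟩
    rw [Ne, co_eq_zero] at h2
    exact h2
  · have hz' : z ∈ Cone h Δ := by
      obtain ⟨c, x, hx, h1, -⟩ := hz
      exact ⟨c, x, hx, h1⟩
    simp only [dif_pos hz']
    rw [hr3 ⟨z, hz'⟩ ((hiff _).2 hz)]


/-- **The main theorem of block C** for an arbitrary pole, from Solomon-Tits. -/
theorem j_MAIN2_of_ST (hS : J_ST) : J_MAIN2 := by
  intro J V R _ _ _ _ _ M _ e h Δ e₀ u n hI hu0 hn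
  obtain ⟨r, hr1, hr2, hr3⟩ := j_HEMI2 J V R M e h Δ e₀ u hI hu0
  obtain ⟨⟨z, hz⟩, hA⟩ := hS J V R M e h Δ n hI hn
  have hsub : Hemi h Δ e₀ u ⊆ Cone h Δ := by
    rintro f ⟨c, x, hx, h1, -⟩
    exact ⟨c, x, hx, h1⟩
  refine ⟨⟨r z, (hr2 z hz.1 hz.2).1, (hr2 z hz.1 hz.2).2⟩, fun γ _ P A hP f₀ hf hm => ?_⟩
  obtain ⟨F, hF1, hF2, hF3⟩ := hA γ P A hP f₀ hf fun x hx => ⟨hsub (hm hx).1, (hm hx).2⟩
  refine ⟨fun x => r (F x), hr1.comp hF1 hF2, fun x hx => ?_, fun x hx => ?_⟩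
  · have h1 := hF2 hx
    exact ⟨(hr2 _ h1.1 h1.2).1, (hr2 _ h1.1 h1.2).2⟩
  · show r (F x) = f₀ x
    rw [hF3 hx]
    exact hr3 _ (hm hx).1

end BD.C
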