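import Pool.Agent.Work.MP_de2d29_al.CSkel
import Pool.Agent.Work.MP_de2d29_al.Gal

/-!
# BUILDING, block C: dual basis, the vector `κ`, the longest element, opposite chambers (helper70)
-/

set_option autoImplicit false
set_option linter.unusedSectionVars false

open Set

namespace BD.C

open Pool.Agent.Work.MP_de2d29_al
open scoped InnerProductSpace

variable {J V R : Type} [NormedAddCommGroup V] [InnerProductSpace ℝ V]
variable {M : CoxeterMatrix J} {e : J → V}

/-! ### the action -/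

section act

variable (h : RootBasis M (ip V) e)

theorem act_one (x : V) : act h 1 x = x := h.rho_one M.toCoxeterSystem x

theorem act_mul (w w' : M.Group) (x : V) : act h (w * w') x = act h w (act h w' x) :=
  h.rho_mul M.toCoxeterSystem w w' x

theorem act_add (w : M.Group) (x y : V) : act h w (x + y) = act h w x + act h w y :=
  map_add _ x y

theorem act_smul (w : M.Group) (a : ℝ) (x : V) : act h w (a • x) = a • act h w x :=
  map_smul _ a x

theorem act_neg (w : M.Group) (x : V) : act h w (-x) = -act h w x := map_neg _ x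

theorem act_inner (w : M.Group) (x y : V) : ⟪act h w x, act h w y⟫_ℝ = ⟪x, y⟫_ℝ :=
  h.B_rho M.toCoxeterSystem w x y

theorem act_simple (s : J) (x : V) : act h (M.simple s) x = x - (2 * ⟪e s, x⟫_ℝ) • e s :=
  h.rho_simple_apply M.toCoxeterSystem s x

theorem act_inv_apply (w : M.Group) (x : V) : act h w⁻¹ (act h w x) = x :=
  h.rho_inv_apply M.toCoxeterSystem w x

theorem act_apply_inv (w : M.Group) (x : V) : act h w (act h w⁻¹ x) = x :=
  h.rho_apply_inv M.toCoxeterSystem w x

end act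

/-! ### the Gram matrix -/

theorem inner_self (h : RootBasis M (ip V) e) (i : J) : ⟪e i, e i⟫_ℝ = 1 := h.self i

theorem inner_nonpos (h : RootBasis M (ip V) e) {i j : J} (hij : i ≠ j) : ⟪e i, e j⟫_ℝ ≤ 0 := by
  rcases eq_or_ne (M i j) 0 with h0 | h0
  · have := h.inf i j h0
    change ⟪e i, e j⟫_ℝ ≤ -1 at this
    linarith
  · have h1 := h.fin i j h0
    change ⟪e i, e j⟫_ℝ = _ at h1
    rw [h1]
    have h2 : (2 : ℝ) ≤ M i j := by
      have h3 : M i j ≠ 1 := M.off_diagonal i j hij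
      have : 2 ≤ M i j := by omega
      exact_mod_cast this
    have h3 : 0 ≤ Real.cos (Real.pi / M i j) := by
      refine Real.cos_nonneg_of_neg_pi_div_two_le_of_le ?_ ?_
      · have : 0 ≤ Real.pi / M i j := by positivity
        have := Real.pi_pos
        linarith
      · exact div_le_div_of_nonneg_left Real.pi_pos.le (by norm_num) h2
    linarith

variable [Fintype J]

/-- two combinations with non-negative coefficients and disjoint supports -/
theorem inner_sum_nonpos (h : RootBasis M (ip V) e) {a b : J → ℝ} (ha : ∀ i, 0 ≤ a i)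
    (hb : ∀ i, 0 ≤ b i) (hab : ∀ i, a i * b i = 0) :
    ⟪∑ i, a i • e i, ∑ i, b i • e i⟫_ℝ ≤ 0 := by
  rw [sum_inner]
  refine Finset.sum_nonpos fun i _ => ?_
  rw [inner_sum]
  refine Finset.sum_nonpos fun j _ => ?_
  rw [real_inner_smul_left, real_inner_smul_right]
  rcases eq_or_ne i j with rfl | hij
  · have : a i * (b i * ⟪e i, e i⟫_ℝ) = a i * b i * ⟪e i, e i⟫_ℝ := by ring
    rw [this, hab, zero_mul]
  · exact mul_nonpos_of_nonneg_of_nonpos (ha i)
      (mul_nonpos_of_nonneg_of_nonpos (hb j) (inner_nonpos h hij))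

theorem sum_pos_sub_neg (c : J → ℝ) :
    ∑ i, c i • e i = ∑ i, max (c i) 0 • e i - ∑ i, max (-c i) 0 • e i := by
  rw [← Finset.sum_sub_distrib]
  refine Finset.sum_congr rfl fun i _ => ?_
  rw [← sub_smul]
  congr 1
  rcases le_total (c i) 0 with h | h
  · rw [max_eq_right h, max_eq_left (by linarith)]
    ring
  · rw [max_eq_left h, max_eq_right (by linarith)]
    ring

theorem max_mul_max (c : ℝ) : max c 0 * max (-c) 0 = 0 := by
  rcases le_total c 0 with h | h
  · rw [max_eq_right h, zero_mul]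
  · rw [max_eq_right (a := -c) (by linarith), mul_zero]

/-- the roots are linearly independent -/
theorem linearIndependent (h : RootBasis M (ip V) e) (hI : (RootBasis.Int (ip V) e).Nonempty) :
    LinearIndependent ℝ e := by
  obtain ⟨x, hx⟩ := hI
  rw [Fintype.linearIndependent_iff]
  intro g hg i
  rw [sum_pos_sub_neg] at hg
  set p := ∑ i, max (g i) 0 • e i with hp
  set q := ∑ i, max (-g i) 0 • e i with hq
  have hpq : p = q := sub_eq_zero.1 hg
  have h1 : ⟪p, q⟫_ℝ ≤ 0 := inner_sum_nonpos h (fun i => le_max_right _ _)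
    (fun i => le_max_right _ _) fun i => max_mul_max _
  have hp0 : p = 0 := by
    rw [← hpq] at h1
    exact inner_self_eq_zero.1 (le_antisymm h1 real_inner_self_nonneg)
  have key : ∀ b : J → ℝ, (∀ i, 0 ≤ b i) → ∑ i, b i • e i = 0 → ∀ i, b i = 0 := by
    intro b hb h0 i
    have h2 : ∑ i, b i * ⟪x, e i⟫_ℝ = 0 := by
      have h3 : ⟪x, ∑ i, b i • e i⟫_ℝ = 0 := by rw [h0, inner_zero_right]
      rw [inner_sum] at h3
      rw [← h3]
      exact Finset.sum_congr rfl fun i _ => by rw [real_inner_smul_right]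
    have h4 : ∀ i ∈ Finset.univ, b i * ⟪x, e i⟫_ℝ ≤ 0 := fun i _ =>
      mul_nonpos_of_nonneg_of_nonpos (hb i) (le_of_lt (hx i))
    have h5 := (Finset.sum_eq_zero_iff_of_nonpos h4).1 h2 i (Finset.mem_univ i)
    exact (mul_eq_zero.1 h5).resolve_right (ne_of_lt (hx i))
  have h6 := key _ (fun i => le_max_right _ _) (hp.symm.trans hp0) i
  have h7 := key _ (fun i => le_max_right _ _) (hq.symm.trans (hpq ▸ hp0)) i
  have h8 : g i ≤ 0 := max_eq_right_iff.1 h6
  have h9 : -g i ≤ 0 := max_eq_right_iff.1 h7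
  linarith

/-- the dual basis -/
theorem exists_dual [FiniteDimensional ℝ V] [DecidableEq J] (h : RootBasis M (ip V) e)
    (hI : (RootBasis.Int (ip V) e).Nonempty) :
    ∃ ω : J → V, (∀ i, ω i ∈ Submodule.span ℝ (range e)) ∧
      ∀ i j, ⟪ω i, e j⟫_ℝ = if i = j then -1 else 0 := by
  have hl := linearIndependent h hI
  let b := Module.Basis.span hl
  have hb : ∀ i, (b i : V) = e i := fun i => congrArg Subtype.val (Module.Basis.span_apply hl i)
  have key : ∀ i, ∃ v : Submodule.span ℝ (range e), ∀ u, ⟪v, u⟫_ℝ = -(b.coord i u) := by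
    intro i
    refine ⟨(InnerProductSpace.toDual ℝ (Submodule.span ℝ (range e))).symm
      (LinearMap.toContinuousLinearMap (-(b.coord i))), fun u => ?_⟩
    rw [InnerProductSpace.toDual_symm_apply]
    rfl
  choose v hv using key
  refine ⟨fun i => v i, fun i => (v i).2, fun i j => ?_⟩
  have h1 := hv i (b j)
  rw [Submodule.coe_inner, hb] at h1
  rw [h1, Module.Basis.coord_apply, Module.Basis.repr_self, Finsupp.single_apply]
  rcases eq_or_ne i j with rfl | hij
  · simp
  · rw [if_neg (Ne.symm hij), if_neg hij, neg_zero]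

/-- the vector `κ` -/
theorem exists_kappa [FiniteDimensional ℝ V] (h : RootBasis M (ip V) e)
    (hI : (RootBasis.Int (ip V) e).Nonempty) :
    ∃ κ : V, ∃ k : J → ℝ, (∀ i, 0 < k i) ∧ κ ∈ RootBasis.Int (ip V) e ∧
      κ = -∑ i, k i • e i := by
  obtain ⟨x, hx⟩ := hI
  set U := Submodule.span ℝ (range e)
  set κ : V := U.starProjection x with hκ
  have hκU : κ ∈ U := U.starProjection_apply_mem x
  have hκe : ∀ i, ⟪κ, e i⟫_ℝ = ⟪x, e i⟫_ℝ := by
    intro i
    have h1 : ⟪x - κ, e i⟫_ℝ = 0 :=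
      U.starProjection_inner_eq_zero x (e i) (Submodule.subset_span ⟨i, rfl⟩)
    rw [inner_sub_left] at h1
    linarith
  have hκI : κ ∈ RootBasis.Int (ip V) e := fun i => by
    change ⟪κ, e i⟫_ℝ < 0
    rw [hκe]
    exact hx i
  obtain ⟨c, hc⟩ := (Submodule.mem_span_range_iff_exists_fun ℝ).1 hκU
  have hneg : ∀ i, ⟪κ, e i⟫_ℝ < 0 := hκI
  have hle : ∀ i, c i ≤ 0 := by
    set p := ∑ i, max (c i) 0 • e i with hp
    set q := ∑ i, max (-c i) 0 • e i with hq
    have hκpq : κ = p - q := by rw [← hc, sum_pos_sub_neg]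
    have h1 : ⟪q, p⟫_ℝ ≤ 0 := inner_sum_nonpos h (fun i => le_max_right _ _)
      (fun i => le_max_right _ _) fun i => by rw [mul_comm]; exact max_mul_max _
    have h2 : 0 ≤ ⟪κ, p⟫_ℝ := by
      rw [hκpq, inner_sub_left]
      have := real_inner_self_nonneg (x := p)
      linarith
    have h3 : ⟪κ, p⟫_ℝ = ∑ i, max (c i) 0 * ⟪κ, e i⟫_ℝ := by
      rw [hp, inner_sum]
      exact Finset.sum_congr rfl fun i _ => by rw [real_inner_smul_right]
    have h4 : ∀ i ∈ Finset.univ, max (c i) 0 * ⟪κ, e i⟫_ℝ ≤ 0 := fun i _ =>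
      mul_nonpos_of_nonneg_of_nonpos (le_max_right _ _) (hneg i).le
    have h5 : ∑ i, max (c i) 0 * ⟪κ, e i⟫_ℝ = 0 :=
      le_antisymm (Finset.sum_nonpos h4) (h3 ▸ h2)
    intro i
    have h6 := (Finset.sum_eq_zero_iff_of_nonpos h4).1 h5 i (Finset.mem_univ i)
    exact max_eq_right_iff.1 ((mul_eq_zero.1 h6).resolve_right (hneg i).ne)
  refine ⟨κ, fun i => -c i, fun i => ?_, hκI, ?_⟩
  · rcases (hle i).eq_or_lt with h0 | h0
    · exfalso
      have h1 : ⟪κ, e i⟫_ℝ = ∑ j, c j * ⟪e j, e i⟫_ℝ := by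
        rw [← hc, sum_inner]
        exact Finset.sum_congr rfl fun j _ => by rw [real_inner_smul_left]
      have h2 : 0 ≤ ∑ j, c j * ⟪e j, e i⟫_ℝ := by
        refine Finset.sum_nonneg fun j _ => ?_
        rcases eq_or_ne j i with rfl | hji
        · rw [h0, zero_mul]
        · exact mul_nonneg_of_nonpos_of_nonpos (hle j) (inner_nonpos h hji)
      have := hneg i
      linarith
    · linarith
  · rw [← hc, ← Finset.sum_neg_distrib]
    exact Finset.sum_congr rfl fun i _ => by rw [neg_smul, neg_neg]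

/-! ### the dominance order -/

theorem act_sub_mem_cone (h : RootBasis M (ip V) e) {d : V} (hd : d ∈ RootBasis.Dom (ip V) e) :
    ∀ (n : ℕ) (w : M.Group), M.toCoxeterSystem.length w ≤ n →
      act h w d - d ∈ RootBasis.cone e := by
  intro n
  induction n with
  | zero =>
    intro w hw
    have h1 : w = 1 := M.toCoxeterSystem.length_eq_zero_iff.1 (by omega)
    rw [h1, act_one, sub_self]
    exact Submodule.zero_mem _
  | succ n ih =>
    intro w hw
    rcases eq_or_ne w 1 with rfl | h1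
    · rw [act_one, sub_self]
      exact Submodule.zero_mem _
    obtain ⟨s, hs⟩ := M.toCoxeterSystem.exists_leftDescent_of_ne_one h1
    have h2 : ¬ M.toCoxeterSystem.IsLeftDescent (M.simple s * w) s :=
      M.toCoxeterSystem.isLeftDescent_iff_not_isLeftDescent_mul.1 hs
    have h3 : M.toCoxeterSystem.length (M.simple s * w) ≤ n := by
      have h4 : M.toCoxeterSystem.length (M.simple s * w) < M.toCoxeterSystem.length w := hs
      omega
    have h5 := ih _ h3
    have h6 : ⟪act h (M.simple s * w) d, e s⟫_ℝ ≤ 0 := h.left_le M.toCoxeterSystem hd h2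
    have h7 : act h w d = act h (M.simple s) (act h (M.simple s * w) d) := by
      rw [← act_mul, ← mul_assoc]
      have : M.simple s * M.simple s = 1 := M.toCoxeterSystem.simple_mul_simple_self s
      rw [this, one_mul]
    have h8 : act h w d - d = (-(2 * ⟪e s, act h (M.simple s * w) d⟫_ℝ)) • e s +
        (act h (M.simple s * w) d - d) := by
      rw [h7, act_simple, neg_smul]
      abel
    rw [h8]
    refine Submodule.add_mem _ (RootBasis.cone_smul ?_ (RootBasis.mem_cone s)) h5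
    rw [real_inner_comm] at h6
    linarith

/-- **DOM** -/
theorem inner_act_lt (h : RootBasis M (ip V) e) {κ d : V} (hκ : κ ∈ RootBasis.Int (ip V) e)
    (hd : d ∈ RootBasis.Dom (ip V) e) {w : M.Group} (hw : act h w d ≠ d) :
    ⟪κ, act h w d⟫_ℝ < ⟪κ, d⟫_ℝ := by
  have h1 := act_sub_mem_cone h hd _ w le_rfl
  have h2 : ⟪κ, act h w d - d⟫_ℝ < 0 := RootBasis.Int_lt hκ h1 (sub_ne_zero.2 hw)
  rw [inner_sub_right] at h2
  linarith

theorem inner_act_lt' (h : RootBasis M (ip V) e) {κ d : V} (hκ : κ ∈ RootBasis.Int (ip V) e)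
    (hd : d ∈ RootBasis.Dom (ip V) e) {w : M.Group} (hw : act h w d ∉ RootBasis.Dom (ip V) e) :
    ⟪κ, act h w d⟫_ℝ < ⟪κ, d⟫_ℝ :=
  inner_act_lt h hκ hd fun h0 => hw (by rw [h0]; exact hd)

theorem inner_act_le (h : RootBasis M (ip V) e) {u d : V} (hu : u ∈ RootBasis.Dom (ip V) e)
    (hd : d ∈ RootBasis.Dom (ip V) e) (w : M.Group) : ⟪u, act h w d⟫_ℝ ≤ ⟪u, d⟫_ℝ := by
  have h1 := act_sub_mem_cone h hd _ w le_rfl
  have h2 : ⟪u, act h w d - d⟫_ℝ ≤ 0 := RootBasis.Dom_le hu h1
  rw [inner_sub_right] at h2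
  linarith

/-! ### coordinates -/

section coord

variable [DecidableEq J] {ω : J → V} (hω : ∀ i j, ⟪ω i, e j⟫_ℝ = if i = j then -1 else 0)

include hω

theorem omega_mem_Dom (i : J) : ω i ∈ RootBasis.Dom (ip V) e := fun j => by
  change ⟪ω i, e j⟫_ℝ ≤ 0
  rw [hω]
  split_ifs <;> norm_num

theorem omega_ne_zero (i : J) : ω i ≠ 0 := by
  intro h0
  have := hω i i
  rw [h0, inner_zero_left, if_pos rfl] at this
  norm_num at this

theorem inner_sum_omega (a : J → ℝ) (j : J) : ⟪∑ i, a i • ω i, e j⟫_ℝ = -a j := by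
  rw [sum_inner, Finset.sum_eq_single j]
  · rw [real_inner_smul_left, hω, if_pos rfl, mul_neg_one]
  · intro i _ hij
    rw [real_inner_smul_left, hω, if_neg hij, mul_zero]
  · intro hj
    exact absurd (Finset.mem_univ j) hj

/-- the coordinates `x_i = -⟪x, e i⟫`: the rest is orthogonal to the roots -/
theorem inner_rest (x : V) (j : J) : ⟪x - ∑ i, (-⟪x, e i⟫_ℝ) • ω i, e j⟫_ℝ = 0 := by
  rw [inner_sub_left, inner_sum_omega hω]
  ring

theorem inner_kappa_omega {κ : V} {k : J → ℝ} (hk : κ = -∑ i, k i • e i) (j : J) :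
    ⟪κ, ω j⟫_ℝ = k j := by
  rw [hk, inner_neg_left, sum_inner, Finset.sum_eq_single j]
  · rw [real_inner_smul_left, real_inner_comm, hω, if_pos rfl]
    ring
  · intro i _ hij
    rw [real_inner_smul_left, real_inner_comm, hω, if_neg (Ne.symm hij), mul_zero]
  · intro hj
    exact absurd (Finset.mem_univ j) hj

omit [DecidableEq J] hω in
theorem inner_kappa {κ : V} {k : J → ℝ} (hk : κ = -∑ i, k i • e i) (x : V) :
    ⟪κ, x⟫_ℝ = ∑ i, k i * (-⟪x, e i⟫_ℝ) := by
  rw [hk, inner_neg_left, sum_inner, ← Finset.sum_neg_distrib]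
  refine Finset.sum_congr rfl fun i _ => ?_
  rw [real_inner_smul_left, real_inner_comm]
  ring

end coord

/-! ### the longest element -/

omit [Fintype J] in
theorem exists_longest (M : CoxeterMatrix J) [Finite M.Group] :
    ∃ w₀ : M.Group, (∀ s, M.toCoxeterSystem.IsLeftDescent w₀ s) ∧
      ∀ s, M.toCoxeterSystem.IsRightDescent w₀ s := by
  obtain ⟨w₀, -, hw⟩ := Set.exists_max_image univ M.toCoxeterSystem.length
    (Set.toFinite (univ : Set M.Group)) ⟨1, mem_univ _⟩
  refine ⟨w₀, fun s => ?_, fun s => ?_⟩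
  · have h1 := hw (M.toCoxeterSystem.simple s * w₀) (mem_univ _)
    have h2 := M.toCoxeterSystem.length_simple_mul_ne w₀ s
    exact lt_of_le_of_ne h1 h2
  · have h1 := hw (w₀ * M.toCoxeterSystem.simple s) (mem_univ _)
    have h2 := M.toCoxeterSystem.length_mul_simple_ne w₀ s
    exact lt_of_le_of_ne h1 h2

omit [Fintype J] in
/-- `-w₀ D ⊆ D` -/
theorem neg_act_mem_Dom (h : RootBasis M (ip V) e) {w₀ : M.Group}
    (hw : ∀ s, M.toCoxeterSystem.IsLeftDescent w₀ s) {x : V}
    (hx : x ∈ RootBasis.Dom (ip V) e) : -act h w₀ x ∈ RootBasis.Dom (ip V) e := fun s => by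
  change ⟪-act h w₀ x, e s⟫_ℝ ≤ 0
  rw [inner_neg_left]
  have : 0 ≤ ⟪act h w₀ x, e s⟫_ℝ := h.left_ge M.toCoxeterSystem hx (hw s)
  linarith

omit [Fintype J] in
/-- `D ⊆ -w₀ D` -/
theorem exists_neg_act (h : RootBasis M (ip V) e) {w₀ : M.Group}
    (hw : ∀ s, M.toCoxeterSystem.IsRightDescent w₀ s) {y : V}
    (hy : y ∈ RootBasis.Dom (ip V) e) :
    ∃ x ∈ RootBasis.Dom (ip V) e, act h w₀ x = -y := by
  refine ⟨-act h w₀⁻¹ y, neg_act_mem_Dom h (fun s => ?_) hy, ?_⟩
  · exact M.toCoxeterSystem.isLeftDescent_inv_iff.2 (hw s)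
  · rw [act_neg, act_apply_inv]

omit [Fintype J] in
/-- a chamber at every Weyl distance -/
theorem exists_delta (Δ : Building M R) (c : R) (w : M.Group) : ∃ c', Δ.δ c' c = w := by
  induction w using RootBasis.simple_induction M.toCoxeterSystem with
  | one => exact ⟨c, (Δ.eq_one c c).2 rfl⟩
  | mul s w ih =>
    obtain ⟨c₁, h1⟩ := ih
    obtain ⟨c₂, -, h3⟩ := Δ.exist c₁ c s
    exact ⟨c₂, by rw [h3, h1]; rfl⟩

omit [Fintype J] in
theorem exists_delta_right (Δ : Building M R) (c : R) (w : M.Group) : ∃ c', Δ.δ c c' = w := by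
  obtain ⟨c', hc⟩ := exists_delta Δ c w⁻¹
  exact ⟨c', by rw [Δ.δ_symm c' c, hc, inv_inv]⟩

omit [Fintype J] in
/-- `p = -w₀ x` is the point opposite to the point `(c₁, x)` as seen from an opposite chamber -/
theorem act_opp (h : RootBasis M (ip V) e) (Δ : Building M R) {c₁ c ê : R} {x : V}
    {w₀ : M.Group} (he : Δ.δ ê c₁ = w₀) (hc : mk h Δ c x = mk h Δ c₁ x) :
    act h (Δ.δ ê c) x = act h w₀ x := by
  have h1 := congrFun hc ê
  unfold mk at h1
  rw [h1, he]

end BD.C
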