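import Pool.Agent.Work.MP_de2d29_al.Gal

/-!
# Lifting of contractions (BUILDING, LIFT)

Points of a realisation are represented by pairs `(c, v)`, `v` in the fundamental cone. For a
chamber `e` and a point `(c, v)` with retraction `y' = δ(e,c) v`, every `y ∈ W D` below `y'` has a
unique lift on the minimal galleries from `e` to `c`.
-/

set_option autoImplicit false

open Set

namespace BD

open Pool.Agent.Work.MP_de2d29_al RootBasis

variable {ι : Type} {M : CoxeterMatrix ι} {C : Type} {V : Type*} [AddCommGroup V] [Module ℝ V]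
  {B : LinearMap.BilinForm ℝ V} {E : ι → V}

/-- the orbit of the fundamental cone -/
def TC (h : RootBasis M B E) : Set V := {y | ∃ w : M.Group, ∃ x ∈ Dom B E, act h w x = y}

theorem act_mul (h : RootBasis M B E) (w w' : M.Group) (x : V) :
    act h (w * w') x = act h w (act h w' x) := h.rho_mul _ w w' x

theorem act_one (h : RootBasis M B E) (x : V) : act h 1 x = x := h.rho_one _ x

theorem act_inv_act (h : RootBasis M B E) (w : M.Group) (x : V) : act h w⁻¹ (act h w x) = x :=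
  h.rho_inv_apply _ w x

theorem act_act_inv (h : RootBasis M B E) (w : M.Group) (x : V) : act h w (act h w⁻¹ x) = x :=
  h.rho_apply_inv _ w x

theorem act_par (h : RootBasis M B E) {x : V} {v : M.Group} (hv : v ∈ Building.Par M (walls B E x)) :
    act h v x = x := h.par_fix _ hv

/-- every point of the Tits cone has a minimal representation -/
theorem exists_min_rep (h : RootBasis M B E) {y : V} (hy : y ∈ TC h) :
    ∃ u : M.Group, ∃ x ∈ Dom B E, act h u x = y ∧
      MinRep M.toCoxeterSystem (walls B E x) u := by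
  obtain ⟨w, x, hx, rfl⟩ := hy
  obtain ⟨u, v, hv, rfl, hu⟩ := exists_minRep M.toCoxeterSystem (walls B E x) w
  exact ⟨u, x, hx, by rw [act_mul, act_par h hv], hu⟩

/-- representations of a point of the Tits cone differ by the stabiliser -/
theorem rep_unique (h : RootBasis M B E) {u u' : M.Group} {x x' : V} (hx : x ∈ Dom B E)
    (hx' : x' ∈ Dom B E) (heq : act h u x = act h u' x') :
    x = x' ∧ u⁻¹ * u' ∈ Building.Par M (walls B E x) := by
  have h1 : act h (u'⁻¹ * u) x = x' := by rw [act_mul, heq, act_inv_act]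
  have h2 := h.fundamental M.toCoxeterSystem hx (u'⁻¹ * u) (by
    change act h (u'⁻¹ * u) x ∈ _
    rw [h1]; exact hx')
  refine ⟨?_, ?_⟩
  · rw [← h1]
    exact h2.1.symm
  · have := Subgroup.inv_mem _ h2.2
    rwa [mul_inv_rev, inv_inv] at this

variable (Δ : Building M C)

/-- the chambers `c'` with `y` in their image and on a minimal gallery from `e` to `c` -/
def Good (h : RootBasis M B E) (e c : C) (y : V) (c' : C) (d : V) : Prop :=
  d ∈ Dom B E ∧ act h (Δ.δ e c') d = y ∧ Δ.Btw e c' c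

variable {Δ}

/-- the projection to the residue of the lift also is a solution -/
theorem Good.proj {h : RootBasis M B E} {e c c' : C} {y d : V} (hg : Good Δ h e c y c' d) :
    ∃ p, Good Δ h e c y p d ∧ Δ.δ p c' ∈ Building.Par M (walls B E d) ∧ Δ.IsProj (walls B E d) e p := by
  obtain ⟨hd, hy, hb⟩ := hg
  obtain ⟨p, hp1, hp2⟩ := Δ.exists_proj (walls B E d) e c'
  refine ⟨p, ⟨hd, ?_, (hp2.btw hp1).trans₂ hb⟩, hp1, hp2⟩
  rw [← hy, (hp2.btw hp1).1, act_mul, act_par h hp1]

/-- **LIFT, existence** -/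
theorem exists_lift (h : RootBasis M B E) (hI : (Int B E).Nonempty) (e c : C) {v y : V}
    (hv : v ∈ Dom B E) (hy : y ∈ TC h) (hle : Leq M.toCoxeterSystem h y (act h (Δ.δ e c) v)) :
    ∃ c' d, ∀ c₂, Δ.δ c c₂ ∈ Building.Par M (walls B E v) → Good Δ h e c₂ y c' d := by
  obtain ⟨u, d, hd, hyd, hu⟩ := exists_min_rep h hy
  obtain ⟨p, hp1, hp2⟩ := Δ.exists_proj (walls B E v) e c
  have hpv : act h (Δ.δ e p) v = act h (Δ.δ e c) v := by
    rw [(hp2.btw hp1).1, act_mul, act_par h hp1]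
  have hlen := weak_order M.toCoxeterSystem h hI (u := u) (w := Δ.δ e p) hd hv hu (by
    change Leq _ h (act h u d) (act h (Δ.δ e p) v)
    rw [hyd, hpv]
    exact hle)
  obtain ⟨c', hb, hc1, hc2⟩ := Building.exists_btw (Δ := Δ) (a := e) (c := p) (w := u)
    (v := u⁻¹ * Δ.δ e p) (by group) hlen
  refine ⟨c', d, fun c₂ hc₂ => ⟨hd, by rw [hc1, hyd], ?_⟩⟩
  exact hb.trans₂ (hp2.btw (Δ.res_trans hp1 hc₂))

/-- **LIFT, uniqueness** -/
theorem lift_unique (h : RootBasis M B E) (hI : (Int B E).Nonempty) {e c c₂ c₁' c₂' : C}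
    {v y d₁ d₂ : V} (hv : v ∈ Dom B E) (hle : Leq M.toCoxeterSystem h y (act h (Δ.δ e c) v))
    (hc : Δ.δ c c₂ ∈ Building.Par M (walls B E v)) (h1 : Good Δ h e c y c₁' d₁)
    (h2 : Good Δ h e c₂ y c₂' d₂) :
    d₁ = d₂ ∧ Δ.δ c₁' c₂' ∈ Building.Par M (walls B E d₁) := by
  have hy : y ∈ TC h := ⟨_, d₁, h1.1, h1.2.1⟩
  obtain ⟨c', d, hg⟩ := exists_lift (Δ := Δ) h hI e c hv hy hle
  -- every solution over `c₂` is equivalent to this one
  have key : ∀ c₃ c₃' d₃, Δ.δ c c₃ ∈ Building.Par M (walls B E v) → Good Δ h e c₃ y c₃' d₃ →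
      d₃ = d ∧ Δ.δ c₃' c' ∈ Building.Par M (walls B E d) := by
    intro c₃ c₃' d₃ hc₃ hg₃
    obtain ⟨p, hp1, hp2, hp3⟩ := hg₃.proj
    obtain ⟨q, hq1, hq2, hq3⟩ := (hg c₃ hc₃).proj
    have hr := rep_unique h hp1.1 hq1.1 (hp1.2.1.trans hq1.2.1.symm)
    obtain ⟨hdd, hr2⟩ := hr
    subst hdd
    have e1 := MinRep.unique M.toCoxeterSystem hp3 hq3 hr2
    have e2 := hp1.2.2.eq_of_δ_eq hq1.2.2 e1
    subst e2
    exact ⟨rfl, Δ.res_trans (Δ.res_symm hp2) hq2⟩
  obtain ⟨e1, e2⟩ := key c c₁' d₁ (Δ.res_self c) h1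
  obtain ⟨e3, e4⟩ := key c₂ c₂' d₂ hc h2
  subst e1
  subst e3
  exact ⟨rfl, Δ.res_trans e2 (Δ.res_symm e4)⟩

/-- the point itself -/
theorem Good.refl (h : RootBasis M B E) (e c : C) {v : V} (hv : v ∈ Dom B E) :
    Good Δ h e c (act h (Δ.δ e c) v) c v := ⟨hv, rfl, Building.Btw.right e c⟩

/-- composition of lifts -/
theorem Good.trans {h : RootBasis M B E} {e c c' c'' : C} {y y₂ d d' : V}
    (h1 : Good Δ h e c y c' d) (h2 : Good Δ h e c' y₂ c'' d') : Good Δ h e c y₂ c'' d' :=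
  ⟨h2.1, h2.2.1, h2.2.2.trans₂ h1.2.2⟩

/-- the image of a lift under the retraction centred at another chamber, in terms of the form -/
theorem Good.fold_le {h : RootBasis M B E} {e c c' : C} {y d : V} (hg : Good Δ h e c y c' d)
    {a : V} (ha : a ∈ Dom B E) (x : C) :
    B a (act h (Δ.δ x c') d) ≤ B a (act h (Δ.δ x c) (act h (Δ.δ e c)⁻¹ y)) := by
  have h1 := BD.fold_le h Δ ha hg.1 x c c'
  have h2 : act h (Δ.δ c c') d = act h (Δ.δ e c)⁻¹ y := by
    rw [← hg.2.1, hg.2.2.1, mul_inv_rev, act_mul, act_inv_act, Δ.δ_symm c' c]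
  rwa [h2] at h1

/-- the Tits cone of a finite group is everything -/
theorem tc_of_finite [Finite M.Group] (h : RootBasis M B E) (hI : (Int B E).Nonempty) (y : V) :
    y ∈ TC h := by
  obtain ⟨a, ha⟩ := hI
  obtain ⟨w, hw⟩ := Finite.exists_max fun w : M.Group => B a (act h w y)
  refine ⟨w⁻¹, act h w y, fun s => ?_, act_inv_act h w y⟩
  have h1 := hw (M.simple s * w)
  have h2 : act h (M.simple s * w) y = act h w y - (2 * B (E s) (act h w y)) • E s := by
    rw [act_mul]
    exact h.rho_simple_apply M.toCoxeterSystem s _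
  rw [h2, map_sub, map_smul, smul_eq_mul] at h1
  have h3 := ha s
  rw [h.symm (act h w y)]
  by_contra h4
  have h5 := mul_pos_of_neg_of_neg h3 (neg_lt_zero.2 (not_le.1 h4))
  nlinarith

end BD
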