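import Pool.Agent.Work.MP_de2d29_al.CSkel
import Pool.Agent.Work.MP_de2d29_al.Lift

/-!
# BUILDING, block C: the joints J_FOLD, J_MK, J_LIFT
-/

set_option autoImplicit false
set_option linter.unusedSectionVars false

open Set Metric Topology

namespace BD.C

open Pool.Agent.Work.MP_de2d29_al
open scoped InnerProductSpace

theorem j_FOLD : J_FOLD := by
  intro J V R _ _ M e h Δ a c c' u d hu hd
  have h1 := BD.fold_le h Δ hu hd a c c'
  rw [← BD.act_mul] at h1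
  exact h1

theorem j_MK : J_MK := by
  intro J V R _ _ M e h Δ c c' x x' hx hx'
  constructor
  · intro heq
    have h1 : mk h Δ c x c = mk h Δ c' x' c := by rw [heq]
    simp only [mk, act, Δ.δ_self] at h1
    rw [h.rho_one] at h1
    have h2 := h.fundamental M.toCoxeterSystem hx' (Δ.δ c c') (by rw [← h1]; exact hx)
    have h3 : x = x' := h1.trans h2.1
    exact ⟨h3, by rw [h3]; exact h2.2⟩
  · rintro ⟨rfl, hp⟩
    funext d
    obtain ⟨v, hv, h1⟩ := Δ.δ_par_right d hp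
    simp only [mk, act]
    rw [h1, h.rho_mul, h.par_fix _ hv]

section lift

variable {J V R : Type} [Finite J] [Fintype R] [NormedAddCommGroup V] [InnerProductSpace ℝ V]
  [FiniteDimensional ℝ V] {M : CoxeterMatrix J} [Finite M.Group] {e : J → V}
  (h : RootBasis M (ip V) e) (Δ : Building M R)

theorem isClosed_Dom : IsClosed (RootBasis.Dom (ip V) e) := by
  have : RootBasis.Dom (ip V) e = ⋂ s, {x : V | ⟪x, e s⟫_ℝ ≤ 0} := by
    ext x
    simp only [RootBasis.Dom, mem_iInter, mem_ofPred_eq]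
    rfl
  rw [this]
  exact isClosed_iInter fun s => isClosed_le (by fun_prop) continuous_const

theorem continuous_act (w : M.Group) : Continuous fun x : V => BD.act h w x :=
  (h.rho M.toCoxeterSystem w).toLinearMap.continuous_of_finiteDimensional

theorem continuous_mk (c : R) : Continuous fun x : V => mk h Δ c x :=
  continuous_pi fun d => continuous_act h (Δ.δ d c)

theorem mk_self (c : R) (x : V) : mk h Δ c x c = x := by
  simp only [mk, act, Δ.δ_self]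
  exact h.rho_one _ x

theorem mem_mk_iff {c : R} {z : R → V} :
    z ∈ mk h Δ c '' RootBasis.Dom (ip V) e ↔
      z c ∈ RootBasis.Dom (ip V) e ∧ z = mk h Δ c (z c) := by
  constructor
  · rintro ⟨x, hx, rfl⟩
    rw [mk_self]
    exact ⟨hx, rfl⟩
  · rintro ⟨h1, h2⟩
    exact ⟨_, h1, h2.symm⟩

theorem isClosed_mk_image (c : R) : IsClosed (mk h Δ c '' RootBasis.Dom (ip V) e) := by
  have : mk h Δ c '' RootBasis.Dom (ip V) e =
      {z | z c ∈ RootBasis.Dom (ip V) e} ∩ {z | z = mk h Δ c (z c)} := by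
    ext z
    exact mem_mk_iff h Δ
  rw [this]
  exact (isClosed_Dom.preimage (continuous_apply c)).inter
    (isClosed_eq continuous_id ((continuous_mk h Δ c).comp (continuous_apply c)))

/-- the relation `z' = G z l` -/
def Lf (a : R) (p : V) (z : R → V) (l : ℝ) (z' : R → V) : Prop :=
  ∃ c, ∃ v ∈ RootBasis.Dom (ip V) e, z = mk h Δ c v ∧
    ∃ c' d, BD.Good Δ h a c (z a + l • p) c' d ∧ z' = mk h Δ c' d

open Classical in
/-- the contraction towards `(a, p)` -/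
noncomputable def GG (a : R) (p : V) (z : R → V) (l : ℝ) : R → V :=
  if hz : ∃ z', Lf h Δ a p z l z' then hz.choose else 0

variable {h Δ}

theorem leq_add {a c : R} {p v : V} {l : ℝ} (hp : p ∈ RootBasis.Dom (ip V) e) (hl : 0 ≤ l) :
    BD.Leq M.toCoxeterSystem h (mk h Δ c v a + l • p) (BD.act h (Δ.δ a c) v) := by
  have := BD.leq_combo M.toCoxeterSystem h (y := BD.act h (Δ.δ a c) v) hp zero_le_one hl
  rwa [one_smul] at this

theorem GG_eq (hI : (RootBasis.Int (ip V) e).Nonempty) {a c c' : R} {p v d : V} {l : ℝ}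
    (hp : p ∈ RootBasis.Dom (ip V) e) (hv : v ∈ RootBasis.Dom (ip V) e) (hl : 0 ≤ l)
    (hg : BD.Good Δ h a c (mk h Δ c v a + l • p) c' d) :
    GG h Δ a p (mk h Δ c v) l = mk h Δ c' d := by
  have hex : ∃ z', Lf h Δ a p (mk h Δ c v) l z' := ⟨_, c, v, hv, rfl, c', d, hg, rfl⟩
  rw [GG, dif_pos hex]
  obtain ⟨c₂, v₂, hv₂, hz, c₂', d₂, hg₂, hz'⟩ := hex.choose_spec
  rw [hz']
  obtain ⟨rfl, hcc⟩ := (j_MK J V R M e h Δ c c₂ v v₂ hv hv₂).1 hz
  obtain ⟨rfl, h2⟩ := BD.lift_unique h hI hv (leq_add hp hl) hcc hg hg₂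
  exact ((j_MK J V R M e h Δ c' c₂' d d hg.1 hg.1).2 ⟨rfl, h2⟩).symm

theorem exists_good (hI : (RootBasis.Int (ip V) e).Nonempty) {a c : R} {p v : V} {l : ℝ}
    (hp : p ∈ RootBasis.Dom (ip V) e) (hv : v ∈ RootBasis.Dom (ip V) e) (hl : 0 ≤ l) :
    ∃ c' d, BD.Good Δ h a c (mk h Δ c v a + l • p) c' d := by
  obtain ⟨c', d, hg⟩ := BD.exists_lift (Δ := Δ) h hI a c hv (BD.tc_of_finite h hI _)
    (leq_add hp hl)
  exact ⟨c', d, hg c (Δ.res_self c)⟩

theorem continuousOn_GG (hI : (RootBasis.Int (ip V) e).Nonempty) {a : R} {p : V}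
    (hp : p ∈ RootBasis.Dom (ip V) e) :
    ContinuousOn (fun q : (R → V) × ℝ => GG h Δ a p q.1 q.2) (Cone h Δ ×ˢ Ici 0) := by
  set T : {cc : R × R // Δ.Btw a cc.2 cc.1} → Set ((R → V) × ℝ) := fun i =>
    {q | q.1 ∈ mk h Δ i.1.1 '' RootBasis.Dom (ip V) e ∧ 0 ≤ q.2 ∧
      BD.act h (Δ.δ a i.1.2)⁻¹ (q.1 a + q.2 • p) ∈ RootBasis.Dom (ip V) e} with hT
  have hcont : ∀ i : {cc : R × R // Δ.Btw a cc.2 cc.1}, Continuous
      fun q : (R → V) × ℝ => BD.act h (Δ.δ a i.1.2)⁻¹ (q.1 a + q.2 • p) := fun i =>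
    (continuous_act h _).comp (by fun_prop)
  have hU : Cone h Δ ×ˢ Ici 0 ⊆ ⋃ i, T i := by
    rintro ⟨z, l⟩ ⟨⟨c, v, hv, rfl⟩, hl⟩
    obtain ⟨c', d, hg⟩ := exists_good (h := h) (Δ := Δ) hI (a := a) (c := c) hp hv hl
    refine mem_iUnion.2 ⟨⟨(c, c'), hg.2.2⟩, mem_image_of_mem _ hv, hl, ?_⟩
    have h1 := hg.2.1
    change BD.act h (Δ.δ a c')⁻¹ (mk h Δ c v a + l • p) ∈ _
    rw [← h1, BD.act_inv_act]
    exact hg.1
  refine ContinuousOn.mono (LocallyFinite.continuousOn_iUnion (locallyFinite_of_finite T)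
    (fun i => ?_) (fun i => ?_)) hU
  · have : T i = {q | q.1 ∈ mk h Δ i.1.1 '' RootBasis.Dom (ip V) e} ∩ ({q | 0 ≤ q.2} ∩
        {q | BD.act h (Δ.δ a i.1.2)⁻¹ (q.1 a + q.2 • p) ∈ RootBasis.Dom (ip V) e}) := rfl
    rw [this]
    exact ((isClosed_mk_image h Δ _).preimage continuous_fst).inter
      ((isClosed_le continuous_const continuous_snd).inter (isClosed_Dom.preimage (hcont i)))
  · refine ContinuousOn.congr (f := fun q : (R → V) × ℝ =>
      mk h Δ i.1.2 (BD.act h (Δ.δ a i.1.2)⁻¹ (q.1 a + q.2 • p)))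
      ((continuous_mk h Δ _).comp (hcont i)).continuousOn ?_
    rintro ⟨z, l⟩ ⟨⟨v, hv, rfl⟩, hl, hd⟩
    exact GG_eq hI hp hv hl ⟨hd, BD.act_act_inv h _ _, i.2⟩

end lift

theorem j_LIFT : J_LIFT := by
  intro J V R _ _ _ _ _ M _ e h Δ a p hI hp
  refine ⟨GG h Δ a p, continuousOn_GG hI hp, ?_, ?_⟩
  · rintro z ⟨c, v, hv, rfl⟩
    refine GG_eq hI hp hv le_rfl ?_
    rw [zero_smul, add_zero]
    exact BD.Good.refl h a c hv
  · intro c v hv l hl
    obtain ⟨c', d, hg⟩ := exists_good (h := h) (Δ := Δ) hI (a := a) (c := c) hp hv hl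
    exact ⟨c', d, hg.1, GG_eq hI hp hv hl hg, hg.2.1, hg.2.2.1.symm⟩

end BD.C
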