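import Pool.Agent.Work.MP_de2d29_al.CHemi
import Pool.Agent.Work.MP_de2d29_al.CKap
import Pool.Agent.Work.MP_de2d29_al.CLift

/-!
# BUILDING, block C: opposite points, and the main theorem from Solomon-Tits
-/

set_option autoImplicit false

open Set Metric Topology

namespace BD.C

open Pool.Agent.Work.MP_de2d29_al
open scoped InnerProductSpace

theorem j_OPP : J_OPP := by
  classical
  intro J V R _ _ _ M _ e h Δ _ c₁ a ha
  have : Fintype J := Fintype.ofFinite J
  obtain ⟨w₀, hl, hr⟩ := exists_longest M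
  obtain ⟨o, ho⟩ := exists_delta Δ c₁ w₀
  refine ⟨o, -act h w₀ a, neg_act_mem_Dom h hl ha, fun c hc => ?_⟩
  have h1 : act h (Δ.δ o c) a = act h w₀ a := act_opp h Δ ho hc
  have h2 : Δ.δ c o = (Δ.δ o c)⁻¹ := Δ.δ_symm o c
  rw [h2, act_neg, ← h1, act_inv_apply]

/-- the hemisphere theorem -/
theorem j_HEMI' : J_HEMI' := j_hemi' j_LIFT j_OPP

/-- the main theorem of block C from Solomon-Tits -/
theorem j_MAIN_of_ST (hS : J_ST) : J_MAIN := j_main hS j_LIFT j_OPP

end BD.C
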