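import Pool.Agent.Work.MP_de2d29_al.Defs
import Pool.Agent.Work.MP_de2d29_al.Tits
import Pool.Agent.Work.MP_017613_gt.RndA

/-!
# BUILDING, block C: spherical buildings (helper27): definitions and joints

A finite building `Δ` of type `M` is realised over the fundamental cone `D` of a root basis `e` of
a Euclidean space `V` (the roots need not span `V`): the point `(c, x)` is the function
`d ↦ δ(d,c) x`; `Cone` is the set of all points. `Hemi`: the points whose smallest face lies in the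
closed hemisphere opposite to `u`. A joint is a `def J_... : Prop`.
-/

set_option autoImplicit false

open Set Metric Topology

namespace BD.C

open Pool.Agent.Work.MP_de2d29_al
open Pool.Agent.Work.MP_017613_gt (PushOff Rnd.AEk)
open scoped InnerProductSpace

variable {J V R : Type} [NormedAddCommGroup V] [InnerProductSpace ℝ V]

/-- the inner product as a bilinear form -/
noncomputable abbrev ip (V : Type) [NormedAddCommGroup V] [InnerProductSpace ℝ V] :
    LinearMap.BilinForm ℝ V := innerₗ V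

/-- the action of the Coxeter group -/
noncomputable def act {M : CoxeterMatrix J} {e : J → V} (h : RootBasis M (ip V) e) (w : M.Group)
    (x : V) : V := h.rho M.toCoxeterSystem w x

/-- the point `(c, x)` -/
noncomputable def mk {M : CoxeterMatrix J} {e : J → V} (h : RootBasis M (ip V) e)
    (Δ : Building M R) (c : R) (x : V) : R → V := fun d => act h (Δ.δ d c) x

/-- the cone complex -/
def Cone {M : CoxeterMatrix J} {e : J → V} (h : RootBasis M (ip V) e) (Δ : Building M R) :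
    Set (R → V) := {f | ∃ c, ∃ x ∈ RootBasis.Dom (ip V) e, f = mk h Δ c x}

/-- the hemisphere complex of `u` (at the chamber `e₀`): all points whose face cone is contained
in the half-space `⟪u, ·⟫ ≤ 0` -/
def Hemi {M : CoxeterMatrix J} {e : J → V} (h : RootBasis M (ip V) e) (Δ : Building M R)
    (e₀ : R) (u : V) : Set (R → V) :=
  {f | ∃ c, ∃ x ∈ RootBasis.Dom (ip V) e, f = mk h Δ c x ∧ ∀ y ∈ RootBasis.Dom (ip V) e,
    RootBasis.walls (ip V) e x ⊆ RootBasis.walls (ip V) e y → ⟪u, mk h Δ c y e₀⟫_ℝ ≤ 0}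

/-! ## Joints -/

/-- FOLD -/
def J_FOLD : Prop :=
  ∀ (J V R : Type) [NormedAddCommGroup V] [InnerProductSpace ℝ V] (M : CoxeterMatrix J)
    (e : J → V) (h : RootBasis M (ip V) e) (Δ : Building M R) (a c c' : R) (u d : V),
    u ∈ RootBasis.Dom (ip V) e → d ∈ RootBasis.Dom (ip V) e →
    ⟪u, act h (Δ.δ a c') d⟫_ℝ ≤ ⟪u, act h (Δ.δ a c * Δ.δ c c') d⟫_ℝ

/-- equality of points -/
def J_MK : Prop :=
  ∀ (J V R : Type) [NormedAddCommGroup V] [InnerProductSpace ℝ V] (M : CoxeterMatrix J)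
    (e : J → V) (h : RootBasis M (ip V) e) (Δ : Building M R) (c c' : R) (x x' : V),
    x ∈ RootBasis.Dom (ip V) e → x' ∈ RootBasis.Dom (ip V) e →
    (mk h Δ c x = mk h Δ c' x' ↔ x = x' ∧
      Δ.δ c c' ∈ RootBasis.par M.toCoxeterSystem (RootBasis.walls (ip V) e x))

/-- LIFT: geodesic contraction towards the point `(a, p)`, `p` in the closed cone -/
def J_LIFT : Prop :=
  ∀ (J V R : Type) [Finite J] [Fintype R] [NormedAddCommGroup V] [InnerProductSpace ℝ V]
    [FiniteDimensional ℝ V] (M : CoxeterMatrix J) [Finite M.Group] (e : J → V)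
    (h : RootBasis M (ip V) e) (Δ : Building M R) (a : R) (p : V),
    (RootBasis.Int (ip V) e).Nonempty → p ∈ RootBasis.Dom (ip V) e →
    ∃ G : (R → V) → ℝ → (R → V),
      ContinuousOn (fun q : (R → V) × ℝ => G q.1 q.2) (Cone h Δ ×ˢ Ici 0) ∧
      (∀ z ∈ Cone h Δ, G z 0 = z) ∧
      ∀ c, ∀ v ∈ RootBasis.Dom (ip V) e, ∀ l : ℝ, 0 ≤ l → ∃ c', ∃ d ∈ RootBasis.Dom (ip V) e,
        G (mk h Δ c v) l = mk h Δ c' d ∧
        act h (Δ.δ a c') d = act h (Δ.δ a c) v + l • p ∧
        Δ.δ a c' * Δ.δ c' c = Δ.δ a c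

/-- the cone complex is an absolute extensor -/
def J_CONE : Prop :=
  ∀ (J V R : Type) [Finite J] [Fintype R] [NormedAddCommGroup V] [InnerProductSpace ℝ V]
    [FiniteDimensional ℝ V] (M : CoxeterMatrix J) (e : J → V) (h : RootBasis M (ip V) e)
    (Δ : Building M R) (k : ℕ), Pool.Agent.Work.MP_017613_gt.Rnd.AEk k (Cone h Δ)

/-- SOLOMON-TITS -/
def J_ST : Prop :=
  ∀ (J V R : Type) [Finite J] [Fintype R] [NormedAddCommGroup V] [InnerProductSpace ℝ V]
    [FiniteDimensional ℝ V] (M : CoxeterMatrix J) [Finite M.Group] (e : J → V)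
    (h : RootBasis M (ip V) e) (Δ : Building M R) (n : ℕ),
    (RootBasis.Int (ip V) e).Nonempty → Module.finrank ℝ V = n + 1 →
    Pool.Agent.Work.MP_017613_gt.Rnd.AEk n (Cone h Δ \ {0})

/-- THE HEMISPHERE THEOREM -/
def J_HEMI : Prop :=
  ∀ (J V R : Type) [Finite J] [Fintype R] [NormedAddCommGroup V] [InnerProductSpace ℝ V]
    [FiniteDimensional ℝ V] (M : CoxeterMatrix J) [Finite M.Group] (e : J → V)
    (h : RootBasis M (ip V) e) (Δ : Building M R) (e₀ : R) (u : V),
    (RootBasis.Int (ip V) e).Nonempty → u ∈ RootBasis.Dom (ip V) e →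
    (∀ y, (∀ i, ⟪y, e i⟫_ℝ = 0) → ⟪u, y⟫_ℝ = 0) →
    ∃ r : (R → V) → (R → V), ContinuousOn r (Cone h Δ) ∧
      (∀ z ∈ Cone h Δ, r z ∈ Hemi h Δ e₀ u ∧ (z ≠ 0 → r z ≠ 0)) ∧
      ∀ z ∈ Hemi h Δ e₀ u, r z = z

/-- MAIN THEOREM OF THE BLOCK: the punctured hemisphere complex is `AE(n)`, `dim V = n + 1` -/
def J_MAIN : Prop :=
  ∀ (J V R : Type) [Finite J] [Fintype R] [NormedAddCommGroup V] [InnerProductSpace ℝ V]
    [FiniteDimensional ℝ V] (M : CoxeterMatrix J) [Finite M.Group] (e : J → V)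
    (h : RootBasis M (ip V) e) (Δ : Building M R) (e₀ : R) (u : V) (n : ℕ),
    (RootBasis.Int (ip V) e).Nonempty → u ∈ RootBasis.Dom (ip V) e →
    (∀ y, (∀ i, ⟪y, e i⟫_ℝ = 0) → ⟪u, y⟫_ℝ = 0) → Module.finrank ℝ V = n + 1 →
    Pool.Agent.Work.MP_017613_gt.Rnd.AEk n (Hemi h Δ e₀ u \ {0})

end BD.C
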