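import Pool.Agent.Work.MP_de2d29_al.CHemi2
import Pool.Agent.Work.MP_de2d29_al.CCone

/-!
# BUILDING, block C: the theorem of Solomon-Tits

The punctured cone over a spherical building of dimension `n` is an absolute extensor in dimension
`n`: a map into the cone is changed such that its composition with the retraction centred at the
chamber `a` misses the point `-ε p`, and contracted towards the interior point `p` of `a`.
-/

set_option autoImplicit false

open Set Metric Topology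

namespace BD.C

open Pool.Agent.Work.MP_de2d29_al
open Pool.Agent.Work.MP_017613_gt (PushOff Rnd.AEk)
open scoped InnerProductSpace

/-- pushing off the origin in a space of dimension `n + 1` -/
theorem pushOff_V {α V : Type} [MetricSpace α] [NormedAddCommGroup V] [InnerProductSpace ℝ V]
    [FiniteDimensional ℝ V] {n : ℕ} (hn : Module.finrank ℝ V = n + 1) {P : Set α}
    (hP : PushOff n P) {φ : α → V} (hφ : ContinuousOn φ P) {η : ℝ} (hη : 0 < η) :
    ∃ g : α → V, ContinuousOn g P ∧ (∀ x ∈ P, ‖g x - φ x‖ < η) ∧ ∀ x ∈ P, g x ≠ 0 := by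
  have hd : Module.finrank ℝ V = Module.finrank ℝ (Fin (n + 1) → ℝ) := by
    rw [hn, Module.finrank_fin_fun]
  let L : V ≃L[ℝ] (Fin (n + 1) → ℝ) := ContinuousLinearEquiv.ofFinrankEq hd
  set K : ℝ := ‖(L.symm : (Fin (n + 1) → ℝ) →L[ℝ] V)‖ + 1 with hK
  have hK0 : 0 < K := by positivity
  obtain ⟨g, hg1, hg2, hg3⟩ := hP (fun x => L (φ x)) (L.continuous.comp_continuousOn hφ) (η / K)
    (by positivity)
  refine ⟨fun x => L.symm (g x), L.symm.continuous.comp_continuousOn hg1, fun x hx => ?_,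
    fun x hx h0 => hg3 x hx ?_⟩
  · have e1 : L.symm (g x) - φ x = L.symm (g x - L (φ x)) := by
      rw [map_sub, L.symm_apply_apply]
    rw [e1]
    have h1 := (L.symm : (Fin (n + 1) → ℝ) →L[ℝ] V).le_opNorm (g x - L (φ x))
    have h2 := hg2 x hx
    rw [dist_eq_norm, lt_div_iff₀ hK0] at h2
    refine lt_of_le_of_lt (h1.trans ?_) h2
    rw [mul_comm]
    exact mul_le_mul_of_nonneg_left (by rw [hK]; linarith) (norm_nonneg _)
  · have h1 := congrArg L h0
    simp only [L.apply_symm_apply, map_zero] at h1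
    exact h1

section st

variable {J V R : Type} [NormedAddCommGroup V] [InnerProductSpace ℝ V]
variable {M : CoxeterMatrix J} {e : J → V} (h : RootBasis M (ip V) e) (Δ : Building M R)

theorem isOpen_Int [Finite J] : IsOpen (RootBasis.Int (ip V) e) := by
  have h1 : RootBasis.Int (ip V) e = ⋂ i, {x | ⟪x, e i⟫_ℝ < 0} := by
    ext x
    simp only [RootBasis.Int, mem_ofPred_eq, mem_iInter]
    rfl
  rw [h1]
  exact isOpen_iInter_of_finite fun i => isOpen_lt (by fun_prop) continuous_const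

/-- points opposite to interior points lie in a translate of the fundamental cone by the longest
element -/
theorem leftDesc_of_neg {w : M.Group} {v : V} (hv : v ∈ RootBasis.Dom (ip V) e)
    (hw : -act h w v ∈ RootBasis.Int (ip V) e) (s : J) : M.toCoxeterSystem.IsLeftDescent w s := by
  by_contra hs
  have h1 : ⟪act h w v, e s⟫_ℝ ≤ 0 := h.left_le M.toCoxeterSystem hv hs
  have h2 : ⟪-act h w v, e s⟫_ℝ < 0 := hw s
  rw [inner_neg_left] at h2
  linarith

/-- a chamber is determined by an interior point -/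
theorem eq_of_mk_int {c c' : R} {v v' : V} (hv : v ∈ RootBasis.Int (ip V) e)
    (hv' : v' ∈ RootBasis.Dom (ip V) e) (he : mk h Δ c v = mk h Δ c' v') : c = c' ∧ v = v' := by
  obtain ⟨h1, h2⟩ := (Hem.mk_eq_mk h Δ (RootBasis.Int_subset hv) hv').1 he
  refine ⟨?_, h1⟩
  have h3 : RootBasis.walls (ip V) e v = ∅ := by
    ext s
    simp only [RootBasis.walls, mem_ofPred_eq, mem_empty_iff_false, iff_false]
    exact (hv s).ne
  rw [h3] at h2
  have h4 : Δ.δ c c' = 1 := by simpa [RootBasis.par] using h2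
  exact Δ.eq_of_δ h4

include h in
/-- an element with all left descents has all right descents -/
theorem rightDesc_of_left (hI : (RootBasis.Int (ip V) e).Nonempty) {w : M.Group}
    (hw : ∀ s, M.toCoxeterSystem.IsLeftDescent w s) (s : J) :
    M.toCoxeterSystem.IsRightDescent w s := by
  by_contra hs
  have h1 : ll M (w * M.simple s) = ll M w + 1 := M.toCoxeterSystem.not_isRightDescent_iff.1 hs
  have h2 := longest_add h hI hw (w * M.simple s)
  omega

/-- `w v` opposite to an interior point, `v` in the closed cone: `v` is an interior point -/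
theorem int_of_neg (hI : (RootBasis.Int (ip V) e).Nonempty) {w : M.Group} {v : V}
    (hv : v ∈ RootBasis.Dom (ip V) e) (hw : -act h w v ∈ RootBasis.Int (ip V) e) :
    v ∈ RootBasis.Int (ip V) e := by
  intro s
  refine lt_of_le_of_ne (hv s) fun h0 => ?_
  have h0' : ⟪v, e s⟫_ℝ = 0 := h0
  have h1 : act h (w * M.simple s) v = act h w v := by
    rw [Hem.act_mul]
    congr 1
    have := h.rho_simple_apply M.toCoxeterSystem s v
    change act h (M.simple s) v = _ at this
    rw [this]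
    change v - (2 * ⟪e s, v⟫_ℝ) • e s = v
    rw [real_inner_comm, h0', mul_zero, zero_smul, sub_zero]
  have h2 := leftDesc_of_neg h hv hw
  have h3 := leftDesc_of_neg h (w := w * M.simple s) hv (by rw [h1]; exact hw)
  have h4 := longest_add h hI h2 (w * M.simple s)
  have h5 := longest_add h hI h3 w
  have h6 : ll M (w * M.simple s) = ll M w := by omega
  rcases M.toCoxeterSystem.length_mul_simple w s with h7 | h7
  · change ll M (w * M.simple s) = ll M w + 1 at h7
    omega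
  · change ll M (w * M.simple s) + 1 = ll M w at h7
    omega

/-- the inverse of the longest element maps the opposite cone to the fundamental cone -/
theorem inv_mem_Dom (hI : (RootBasis.Int (ip V) e).Nonempty) {w : M.Group}
    (hw : ∀ s, M.toCoxeterSystem.IsLeftDescent w s) {y : V}
    (hy : -y ∈ RootBasis.Dom (ip V) e) : act h w⁻¹ y ∈ RootBasis.Dom (ip V) e := by
  intro s
  change ⟪act h w⁻¹ y, e s⟫_ℝ ≤ 0
  rw [Hem.inner_act_left, inv_inv]
  have h1 := h.tits_neg M.toCoxeterSystem (rightDesc_of_left h hI hw s)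
  have h2 := RootBasis.Dom_le hy h1
  change ⟪-y, -act h w (e s)⟫_ℝ ≤ 0 at h2
  rwa [inner_neg_neg] at h2

/-- maps into the cone can be pushed off the fibre over a point opposite to an interior point -/
theorem exists_off [Finite J] [Finite M.Group] [Fintype R] [FiniteDimensional ℝ V]
    (hI : (RootBasis.Int (ip V) e).Nonempty) {n : ℕ} (hn : Module.finrank ℝ V = n + 1)
    {α : Type} [MetricSpace α] {P : Set α} (cP : IsCompact P) (hP : PushOff n P)
    {F : α → (R → V)} (hF : ContinuousOn F P) (hFC : MapsTo F P (Cone h Δ)) (a : R) {q : V}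
    (hq : -q ∈ RootBasis.Int (ip V) e) {ρ₀ : ℝ} (hρ₀ : 0 < ρ₀) :
    ∃ F' : α → (R → V), ContinuousOn F' P ∧ MapsTo F' P (Cone h Δ) ∧ (∀ x ∈ P, F' x a ≠ q) ∧
      ∀ x ∈ P, ρ₀ ≤ ‖F x a - q‖ → F' x = F x := by
  classical
  -- the radius
  obtain ⟨ρ, hρ, hρle, hball⟩ : ∃ ρ : ℝ, 0 < ρ ∧ ρ ≤ ρ₀ ∧ ∀ y, ‖y - q‖ < 2 * ρ →
      -y ∈ RootBasis.Int (ip V) e := by
    obtain ⟨δ, hδ, hδ'⟩ := Metric.isOpen_iff.1 (isOpen_Int (V := V) (e := e)) (-q) hq
    refine ⟨min ρ₀ (δ / 2), lt_min hρ₀ (by positivity), min_le_left _ _, fun y hy => hδ' ?_⟩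
    rw [mem_ball, dist_eq_norm, neg_sub_neg, norm_sub_rev]
    have := min_le_right ρ₀ (δ / 2)
    linarith
  have hFa : ContinuousOn (fun x => F x a) P := (continuous_apply a).comp_continuousOn hF
  have hφ : ContinuousOn (fun x => F x a - q) P := hFa.sub continuousOn_const
  obtain ⟨g, hg1, hg2, hg3⟩ := pushOff_V hn hP hφ (show 0 < ρ / 4 by positivity)
  let θ : α → ℝ := fun x => min 1 (max 0 (2 - 2 * ‖F x a - q‖ / ρ))
  have hθ0 : ∀ x, 0 ≤ θ x := fun x => le_min zero_le_one (le_max_left _ _)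
  have hθ1 : ∀ x, θ x ≤ 1 := fun x => min_le_left _ _
  have hθc : ContinuousOn θ P := by
    have h1 : Continuous fun t : ℝ => min 1 (max 0 (2 - 2 * t / ρ)) := by fun_prop
    exact h1.comp_continuousOn hφ.norm
  have hθa : ∀ x, ‖F x a - q‖ ≤ ρ / 2 → θ x = 1 := by
    intro x hx
    have h1 : 2 * ‖F x a - q‖ / ρ ≤ 1 := by
      rw [div_le_one hρ]
      linarith
    exact min_eq_left (le_max_of_le_right (by linarith))
  have hθb : ∀ x, ρ ≤ ‖F x a - q‖ → θ x = 0 := by
    intro x hx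
    have h1 : 2 ≤ 2 * ‖F x a - q‖ / ρ := by
      rw [le_div_iff₀ hρ]
      linarith
    have h2 : max 0 (2 - 2 * ‖F x a - q‖ / ρ) = 0 := max_eq_left (by linarith)
    show min 1 (max 0 (2 - 2 * ‖F x a - q‖ / ρ)) = 0
    rw [h2]
    exact min_eq_right zero_le_one
  let φ' : α → V := fun x => (F x a - q) + θ x • (g x - (F x a - q))
  have hφ'c : ContinuousOn φ' P := hφ.add (hθc.smul (hg1.sub hφ))
  have hφ'n : ∀ x ∈ P, ‖θ x • (g x - (F x a - q))‖ ≤ ρ / 4 := by
    intro x hx
    rw [norm_smul, Real.norm_eq_abs, abs_of_nonneg (hθ0 x)]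
    calc θ x * ‖g x - (F x a - q)‖ ≤ 1 * (ρ / 4) :=
          mul_le_mul (hθ1 x) (hg2 x hx).le (norm_nonneg _) zero_le_one
      _ = ρ / 4 := one_mul _
  have hφ'0 : ∀ x ∈ P, φ' x ≠ 0 := by
    intro x hx
    by_cases hx2 : ‖F x a - q‖ ≤ ρ / 2
    · show (F x a - q) + θ x • (g x - (F x a - q)) ≠ 0
      rw [hθa x hx2, one_smul, add_sub_cancel]
      exact hg3 x hx
    · push Not at hx2
      intro h0
      have h1 : F x a - q = -(θ x • (g x - (F x a - q))) := eq_neg_of_add_eq_zero_left h0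
      have h2 : ‖F x a - q‖ ≤ ρ / 4 := by
        refine (congrArg norm h1).le.trans ?_
        rw [norm_neg]
        exact hφ'n x hx
      linarith
  have hφ'int : ∀ x ∈ P, ‖F x a - q‖ ≤ ρ → -(φ' x + q) ∈ RootBasis.Int (ip V) e := by
    intro x hx hx2
    refine hball _ ?_
    rw [add_sub_cancel_right]
    calc ‖φ' x‖ ≤ ‖F x a - q‖ + ‖θ x • (g x - (F x a - q))‖ := norm_add_le _ _
      _ ≤ ρ + ρ / 4 := add_le_add hx2 (hφ'n x hx)
      _ < 2 * ρ := by linarith
  -- the chambers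
  let ψ : R → α → (R → V) := fun c x => mk h Δ c (act h (Δ.δ a c)⁻¹ (φ' x + q))
  let E : α → R → Prop := fun x c => F x ∈ mk h Δ c '' RootBasis.Dom (ip V) e ∧ ‖F x a - q‖ ≤ ρ
  let F' : α → (R → V) := fun x => if hx : ∃ c, E x c then ψ hx.choose x else F x
  have hint : ∀ x c v, v ∈ RootBasis.Dom (ip V) e → mk h Δ c v = F x → ‖F x a - q‖ ≤ ρ →
      v ∈ RootBasis.Int (ip V) e ∧ ∀ s, M.toCoxeterSystem.IsLeftDescent (Δ.δ a c) s := by
    intro x c v hv hx hx2
    have h1 : -act h (Δ.δ a c) v ∈ RootBasis.Int (ip V) e := by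
      refine hball _ ?_
      have h2 : act h (Δ.δ a c) v = F x a := congrFun hx a
      rw [h2]
      linarith
    exact ⟨int_of_neg h hI hv h1, leftDesc_of_neg h hv h1⟩
  have huniq : ∀ x c c', E x c → E x c' → c = c' := by
    rintro x c c' ⟨⟨v, hv, hv2⟩, hx⟩ ⟨⟨v', hv', hv'2⟩, -⟩
    exact (eq_of_mk_int h Δ (hint x c v hv hv2 hx).1 hv' (hv2.trans hv'2.symm)).1
  have hF'1 : ∀ x c, E x c → F' x = ψ c x := by
    intro x c hc
    have hex : ∃ c, E x c := ⟨c, hc⟩
    have h1 : F' x = ψ hex.choose x := dif_pos hex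
    rw [h1, huniq x _ _ hex.choose_spec hc]
  have hF'2 : ∀ x, ρ ≤ ‖F x a - q‖ → F' x = F x := by
    intro x hx
    by_cases hex : ∃ c, E x c
    · obtain ⟨c, hc⟩ := hex
      rw [hF'1 x c hc]
      obtain ⟨⟨v, hv, hv2⟩, -⟩ := hc
      have h1 : φ' x + q = F x a := by
        show (F x a - q) + θ x • (g x - (F x a - q)) + q = F x a
        rw [hθb x hx, zero_smul, add_zero, sub_add_cancel]
      have h2 : F x a = act h (Δ.δ a c) v := (congrFun hv2 a).symm
      show mk h Δ c (act h (Δ.δ a c)⁻¹ (φ' x + q)) = F x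
      rw [h1, h2, Hem.act_inv_act, hv2]
    · exact dif_neg hex
  have hψa : ∀ x c, ψ c x a = φ' x + q := fun x c => Hem.act_act_inv h _ _
  refine ⟨F', ?_, fun x hx => ?_, fun x hx => ?_, fun x hx hx2 => hF'2 x (hρle.trans hx2)⟩
  · let κ : Option R → Set α := fun k => k.elim (P ∩ F ⁻¹' {z | ρ ≤ ‖z a - q‖})
      fun c => P ∩ F ⁻¹' (mk h Δ c '' RootBasis.Dom (ip V) e ∩ {z | ‖z a - q‖ ≤ ρ})
    have hκ : ∀ k, IsClosed (κ k) := by
      rintro (_ | c)
      · exact hF.preimage_isClosed_of_isClosed cP.isClosed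
          (isClosed_le continuous_const (by fun_prop))
      · exact hF.preimage_isClosed_of_isClosed cP.isClosed
          ((isClosed_mk_image h Δ c).inter (isClosed_le (by fun_prop) continuous_const))
    have hcov : P ∩ ⋃ k, κ k = P := by
      refine inter_eq_left.2 fun x hx => ?_
      rcases le_total ρ ‖F x a - q‖ with h1 | h1
      · exact mem_iUnion.2 ⟨none, hx, h1⟩
      · obtain ⟨c, v, hv, hv2⟩ := hFC hx
        exact mem_iUnion.2 ⟨some c, hx, ⟨v, hv, hv2.symm⟩, h1⟩
    rw [← hcov]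
    refine BC.continuousOn_cover hκ ?_
    rintro (_ | c)
    · exact (hF.mono inter_subset_left).congr fun x hx => hF'2 x hx.2.2
    · have h1 : ContinuousOn (ψ c) P := by
        refine continuousOn_pi.2 fun d => ?_
        exact (Hem.continuous_act h _).comp_continuousOn
          ((Hem.continuous_act h _).comp_continuousOn (hφ'c.add continuousOn_const))
      exact (h1.mono inter_subset_left).congr fun x hx => hF'1 x c hx.2.2
  · by_cases hex : ∃ c, E x c
    · obtain ⟨c, hc⟩ := hex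
      rw [hF'1 x c hc]
      obtain ⟨⟨v, hv, hv2⟩, hx2⟩ := hc
      exact ⟨c, _, inv_mem_Dom h hI (hint x c v hv hv2 hx2).2
        (RootBasis.Int_subset (hφ'int x hx hx2)), rfl⟩
    · have h1 : F' x = F x := dif_neg hex
      rw [h1]
      exact hFC hx
  · by_cases hex : ∃ c, E x c
    · obtain ⟨c, hc⟩ := hex
      rw [hF'1 x c hc, hψa]
      intro h0
      exact hφ'0 x hx (by simpa using h0)
    · have h1 : F' x = F x := dif_neg hex
      rw [h1]
      intro h0
      obtain ⟨c, v, hv, hv2⟩ := hFC hx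
      refine hex ⟨c, ⟨v, hv, hv2.symm⟩, ?_⟩
      rw [h0, sub_self, norm_zero]
      exact hρ.le

end st

/-- **Solomon-Tits.** -/
theorem j_ST : J_ST := by
  classical
  intro J V R _ _ _ _ _ M _ e h Δ n hI hn
  have hne : Nonempty R := Δ.ne
  obtain ⟨a⟩ := hne
  -- a unit vector in the open cone
  obtain ⟨p, hp, hp1⟩ : ∃ p ∈ RootBasis.Int (ip V) e, ‖p‖ = 1 := by
    have hscale : ∀ p ∈ RootBasis.Int (ip V) e, p ≠ 0 → ∃ p ∈ RootBasis.Int (ip V) e, ‖p‖ = 1 := by
      intro p hp hp0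
      have hn0 : 0 < ‖p‖ := norm_pos_iff.2 hp0
      refine ⟨‖p‖⁻¹ • p, fun s => ?_, ?_⟩
      · have h1 : ⟪p, e s⟫_ℝ < 0 := hp s
        change ⟪‖p‖⁻¹ • p, e s⟫_ℝ < 0
        rw [real_inner_smul_left]
        exact mul_neg_of_pos_of_neg (inv_pos.2 hn0) h1
      · rw [norm_smul, norm_inv, norm_norm, inv_mul_cancel₀ hn0.ne']
    obtain ⟨p, hp⟩ := hI
    by_cases hp0 : p = 0
    · have hJ : IsEmpty J := by
        constructor
        intro s
        have h1 : ⟪p, e s⟫_ℝ < 0 := hp s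
        rw [hp0, inner_zero_left] at h1
        exact lt_irrefl _ h1
      have hnt : Nontrivial V := by
        refine Module.nontrivial_of_finrank_pos (R := ℝ) ?_
        rw [hn]
        omega
      obtain ⟨v, hv⟩ := exists_ne (0 : V)
      exact hscale v (fun s => (hJ.false s).elim) hv
    · exact hscale p hp hp0
  have hpD : p ∈ RootBasis.Dom (ip V) e := RootBasis.Int_subset hp
  have hnorm : ∀ z ∈ Cone h Δ, z ≠ 0 → 0 < ‖z a‖ := by
    rintro z ⟨c, v, hv, rfl⟩ hz
    show 0 < ‖act h (Δ.δ a c) v‖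
    rw [Hem.norm_act]
    refine norm_pos_iff.2 fun h0 => hz ?_
    rw [h0]
    exact (Hem.mk_eq_zero h Δ).2 rfl
  refine ⟨⟨mk h Δ a p, ⟨a, p, hpD, rfl⟩, ?_⟩, fun γ _ P A hP f₀ hf hm => ?_⟩
  · intro h0
    have h1 := (Hem.mk_eq_zero h Δ).1 h0
    rw [h1, norm_zero] at hp1
    exact zero_ne_one hp1
  -- an extension into the cone
  obtain ⟨-, hCA⟩ := BD.Cn.j_CONE J V R M e h Δ n
  obtain ⟨F, hF1, hF2, hF3⟩ := hCA γ P A hP f₀ hf fun x hx => (hm hx).1
  -- the size
  obtain ⟨ε, hε, hεA⟩ : ∃ ε : ℝ, 0 < ε ∧ ∀ x ∈ A, 4 * ε ≤ ‖f₀ x a‖ := by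
    rcases A.eq_empty_or_nonempty with rfl | hAne
    · exact ⟨1, one_pos, by simp⟩
    · have cA : IsCompact A := hP.cP.of_isClosed_subset hP.cA hP.sub
      obtain ⟨x₀, hx₀, hmin⟩ := cA.exists_isMinOn hAne
        ((continuous_apply a).comp_continuousOn hf).norm
      have h1 := hnorm _ (hm hx₀).1 (hm hx₀).2
      refine ⟨‖f₀ x₀ a‖ / 4, by positivity, fun x hx => ?_⟩
      have h2 : ‖f₀ x₀ a‖ ≤ ‖f₀ x a‖ := hmin hx
      linarith
  have hqI : -(-(ε • p)) ∈ RootBasis.Int (ip V) e := by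
    rw [neg_neg]
    intro s
    have h1 : ⟪p, e s⟫_ℝ < 0 := hp s
    change ⟪ε • p, e s⟫_ℝ < 0
    rw [real_inner_smul_left]
    exact mul_neg_of_pos_of_neg hε h1
  obtain ⟨F', hF'1, hF'2, hF'3, hF'4⟩ := exists_off h Δ hI hn hP.cP hP.dP hF1 hF2 a hqI hε
  have hF'A : ∀ x ∈ A, F' x = f₀ x := by
    intro x hx
    rw [hF'4 x (hP.sub hx) ?_, hF3 hx]
    rw [hF3 hx]
    have h1 := norm_sub_norm_le (f₀ x a) (-(ε • p))
    rw [norm_neg, norm_smul, hp1, mul_one, Real.norm_eq_abs, abs_of_pos hε] at h1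
    have h2 := hεA x hx
    linarith
  obtain ⟨G, hG1, hG2, hG3⟩ := j_LIFT J V R M e h Δ a p hI hpD
  let l : γ → ℝ := fun x => max (2 * ε - ‖F' x a‖) 0
  have hl0 : ∀ x, 0 ≤ l x := fun x => le_max_right _ _
  have hlc : ContinuousOn l P := by
    have h1 : Continuous fun t : ℝ => max (2 * ε - t) 0 := by fun_prop
    exact h1.comp_continuousOn ((continuous_apply a).comp_continuousOn hF'1).norm
  refine ⟨fun x => G (F' x) (l x), hG1.comp (hF'1.prodMk hlc) fun x hx => ⟨hF'2 hx, hl0 x⟩,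
    fun x hx => ?_, fun x hx => ?_⟩
  · obtain ⟨c, v, hv, hcv⟩ := hF'2 hx
    obtain ⟨c', d, hd, h1, h2, -⟩ := hG3 c v hv (l x) (hl0 x)
    show G (F' x) (l x) ∈ Cone h Δ \ {0}
    rw [hcv, h1]
    refine ⟨⟨c', d, hd, rfl⟩, fun h0 => ?_⟩
    have hd0 := (Hem.mk_eq_zero h Δ).1 h0
    rw [hd0, Hem.act_zero] at h2
    have h3 : F' x a = act h (Δ.δ a c) v := by rw [hcv]; rfl
    rw [← h3] at h2
    have h4 : F' x a = -(l x • p) := (neg_eq_of_add_eq_zero_left h2.symm).symm
    have h5 : ‖F' x a‖ = l x := by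
      rw [h4, norm_neg, norm_smul, hp1, mul_one, Real.norm_eq_abs, abs_of_nonneg (hl0 x)]
    rcases le_total (2 * ε - ‖F' x a‖) 0 with h6 | h6
    · have h7 : l x = 0 := max_eq_right h6
      rw [h5, h7] at h6
      linarith
    · have h7 : l x = 2 * ε - ‖F' x a‖ := max_eq_left h6
      have h8 : l x = ε := by linarith
      rw [h8] at h4
      exact hF'3 x hx h4
  · have h1 : l x = 0 := by
      refine max_eq_right ?_
      rw [hF'A x hx]
      have := hεA x hx
      linarith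
    show G (F' x) (l x) = f₀ x
    rw [h1, hF'A x hx]
    exact hG2 _ (hm hx).1

/-- the main theorem of block C -/
theorem j_MAIN : J_MAIN := j_MAIN_of_ST j_ST

/-- the main theorem of block C, arbitrary pole -/
theorem j_MAIN2 : J_MAIN2 := j_MAIN2_of_ST j_ST

end BD.C
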