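import Pool.Agent.Work.MP_de2d29_al.ChainDrift

/-!
# BUILDING: complexes of cells with heights, the filtration by classes

`CellCx β ι`: closed cells `cell σ` in `β` (the compactification of the building), a continuous
function `g = exp (-height)`, `g = 0` exactly at infinity, the point `m σ` is the unique maximum of
`g` on the cell `σ` (nearest point to the base point), every point at finite height has a smallest
cell, finitely many cells reach above every positive value of `g`.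

The classes are the points of `range m`; they are enumerated with decreasing `g` (`exists_enum`);
`K j` = infinity and all cells of index `≥ j`, `Q j` = union of the cells of index `j`.
-/

set_option autoImplicit false

open Set Metric Topology Filter

namespace BD

/-- enumeration of an infinite set with finite superlevel sets -/
theorem exists_enum {β : Type*} {T : Set β} (hT : T.Infinite) {g : β → ℝ}
    (hg : ∀ p ∈ T, {q | q ∈ T ∧ g p ≤ g q}.Finite) :
    ∃ μ : ℕ → β, Function.Injective μ ∧ range μ = T ∧ ∀ i j, i ≤ j → g (μ j) ≤ g (μ i) := by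
  classical
  have hmax : ∀ F : Finset β, ∃ q, (q ∈ T ∧ q ∉ F) ∧ ∀ q', q' ∈ T ∧ q' ∉ F → g q' ≤ g q := by
    intro F
    obtain ⟨p, hp, hpF⟩ := hT.exists_notMem_finset F
    have hfin : {q | (q ∈ T ∧ q ∉ F) ∧ g p ≤ g q}.Finite :=
      (hg p hp).subset fun q hq => ⟨hq.1.1, hq.2⟩
    obtain ⟨q, hq, hq'⟩ := Set.exists_max_image _ g hfin ⟨p, ⟨hp, hpF⟩, le_rfl⟩
    refine ⟨q, hq.1, fun q' h => ?_⟩
    by_cases h1 : g p ≤ g q'
    · exact hq' q' ⟨h, h1⟩
    · exact (not_le.1 h1).le.trans hq.2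
  choose nx hnx1 hnx2 using hmax
  let F : ℕ → Finset β := fun k => Nat.rec (motive := fun _ => Finset β) ∅
    (fun _ F => insert (nx F) F) k
  have hF : ∀ k, F (k + 1) = insert (nx (F k)) (F k) := fun k => rfl
  have hFmono : Monotone F := monotone_nat_of_le_succ fun k => by
    rw [hF]; exact Finset.subset_insert _ _
  have hmem : ∀ i j, i < j → nx (F i) ∈ F j := by
    intro i j hij
    apply hFmono (Nat.succ_le_of_lt hij)
    rw [Nat.succ_eq_add_one, hF]
    exact Finset.mem_insert_self _ _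
  have hinj : Function.Injective fun k => nx (F k) := by
    intro i j h
    rcases lt_trichotomy i j with h1 | h1 | h1
    · have h2 := (hnx1 (F j)).2
      rw [← show nx (F i) = nx (F j) from h] at h2
      exact absurd (hmem i j h1) h2
    · exact h1
    · have h2 := (hnx1 (F i)).2
      rw [show nx (F i) = nx (F j) from h] at h2
      exact absurd (hmem j i h1) h2
  refine ⟨fun k => nx (F k), hinj, ?_, ?_⟩
  · apply Subset.antisymm
    · rintro _ ⟨k, rfl⟩
      exact (hnx1 (F k)).1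
    · intro p hp
      by_contra hcon
      have h1 : ∀ k, p ∉ F k := by
        intro k
        induction k with
        | zero => exact Finset.notMem_empty _
        | succ k ih =>
          rw [hF, Finset.mem_insert, not_or]
          exact ⟨fun h => hcon ⟨k, h.symm⟩, ih⟩
      have h2 : ∀ k, nx (F k) ∈ {q | q ∈ T ∧ g p ≤ g q} := fun k =>
        ⟨(hnx1 (F k)).1, hnx2 (F k) p ⟨hp, h1 k⟩⟩
      exact Set.infinite_of_injective_forall_mem hinj h2 (hg p hp)
  · intro i j hij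
    refine hnx2 (F i) _ ⟨(hnx1 (F j)).1, fun h => ?_⟩
    exact (hnx1 (F j)).2 (hFmono hij h)

/-- complexes of cells with heights -/
structure CellCx (β : Type*) [TopologicalSpace β] (ι : Type*) where
  /-- the closed cells -/
  cell : ι → Set β
  /-- `exp (-height)` -/
  g : β → ℝ
  /-- the nearest point -/
  m : ι → β
  closed : ∀ σ, IsClosed (cell σ)
  cont : Continuous g
  nonneg : ∀ u, 0 ≤ g u
  pos : ∀ σ, ∀ u ∈ cell σ, 0 < g u
  mem : ∀ σ, m σ ∈ cell σ
  max : ∀ σ, ∀ u ∈ cell σ, u ≠ m σ → g u < g (m σ)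
  carrier : ∀ u, 0 < g u → ∃ τ, u ∈ cell τ ∧ ∀ σ, u ∈ cell σ → cell τ ⊆ cell σ
  fin : ∀ t > 0, {σ | t ≤ g (m σ)}.Finite

namespace CellCx

variable {β ι : Type*} [TopologicalSpace β] (X : CellCx β ι)

/-- the star of the class `p` -/
def star (p : β) : Set β := ⋃ σ, ⋃ (_ : X.m σ = p), X.cell σ

/-- the link of the class `p`: the faces of the cells of the class which do not contain `p` -/
def link (p : β) : Set β :=
  ⋃ σ, ⋃ (_ : X.m σ = p), ⋃ τ, ⋃ (_ : X.cell τ ⊆ X.cell σ), ⋃ (_ : X.m τ ≠ p), X.cell τ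

/-- the points at infinity -/
def bd : Set β := {u | X.g u = 0}

variable {X}

lemma mem_star {p u : β} : u ∈ X.star p ↔ ∃ σ, X.m σ = p ∧ u ∈ X.cell σ := by
  simp only [star, mem_iUnion, exists_prop]

lemma mem_link {p u : β} : u ∈ X.link p ↔ ∃ σ, X.m σ = p ∧ ∃ τ, X.cell τ ⊆ X.cell σ ∧
    X.m τ ≠ p ∧ u ∈ X.cell τ := by
  simp only [link, mem_iUnion, exists_prop]

lemma g_le {σ : ι} {u : β} (hu : u ∈ X.cell σ) : X.g u ≤ X.g (X.m σ) := by
  by_cases h : u = X.m σ
  · rw [h]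
  · exact (X.max σ u hu h).le

variable (X) in
/-- the filtration by an enumeration `μ` of the classes -/
def K (μ : ℕ → β) (j : ℕ) : Set β := X.bd ∪ ⋃ k, ⋃ (_ : j ≤ k), X.star (μ k)

lemma mem_K {μ : ℕ → β} {j : ℕ} {u : β} :
    u ∈ X.K μ j ↔ X.g u = 0 ∨ ∃ k, j ≤ k ∧ u ∈ X.star (μ k) := by
  simp only [K, bd, mem_union, mem_ofPred_eq, mem_iUnion, exists_prop]

/-- finite unions of cells of positive `g` are closed, even with infinity added -/
theorem isClosed_aux {S : Set ι} : IsClosed (X.bd ∪ ⋃ σ ∈ S, X.cell σ) := by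
  rw [← isOpen_compl_iff, isOpen_iff_mem_nhds]
  intro u hu
  rw [mem_compl_iff, mem_union, not_or] at hu
  have hpos : 0 < X.g u := lt_of_le_of_ne (X.nonneg u) fun h => hu.1 h.symm
  have hfin := X.fin (X.g u / 2) (by positivity)
  have h1 : {v | X.g u / 2 < X.g v} ∈ 𝓝 u :=
    (isOpen_lt continuous_const X.cont).mem_nhds (by show X.g u / 2 < X.g u; linarith)
  have h2 : IsClosed (⋃ σ ∈ S ∩ {σ | X.g u / 2 ≤ X.g (X.m σ)}, X.cell σ) :=
    (hfin.subset inter_subset_right).isClosed_biUnion fun σ _ => X.closed σ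
  have h3 : (⋃ σ ∈ S ∩ {σ | X.g u / 2 ≤ X.g (X.m σ)}, X.cell σ)ᶜ ∈ 𝓝 u := by
    refine h2.isOpen_compl.mem_nhds fun h => hu.2 ?_
    simp only [mem_iUnion, exists_prop] at h ⊢
    obtain ⟨σ, hσ, hu⟩ := h
    exact ⟨σ, hσ.1, hu⟩
  filter_upwards [h1, h3] with v hv1 hv2
  rw [mem_compl_iff, mem_union, not_or]
  constructor
  · intro h
    have h0 : X.g v = 0 := h
    have h1 : X.g u / 2 < X.g v := hv1
    rw [h0] at h1
    linarith
  · intro h
    simp only [mem_iUnion, exists_prop] at h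
    obtain ⟨σ, hσ, hv⟩ := h
    refine hv2 ?_
    simp only [mem_iUnion, exists_prop]
    exact ⟨σ, ⟨hσ, (le_of_lt hv1).trans (g_le hv)⟩, hv⟩

theorem isClosed_K (μ : ℕ → β) (j : ℕ) : IsClosed (X.K μ j) := by
  have : X.K μ j = X.bd ∪ ⋃ σ ∈ {σ | ∃ k, j ≤ k ∧ X.m σ = μ k}, X.cell σ := by
    ext u
    simp only [mem_K, mem_star, mem_union, mem_iUnion, exists_prop, bd, mem_ofPred_eq]
    constructor
    · rintro (h | ⟨k, hk, σ, hσ, hu⟩)
      · exact Or.inl h
      · exact Or.inr ⟨σ, ⟨k, hk, hσ⟩, hu⟩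
    · rintro (h | ⟨σ, ⟨k, hk, hσ⟩, hu⟩)
      · exact Or.inl h
      · exact Or.inr ⟨k, hk, σ, hσ, hu⟩
  rw [this]
  exact isClosed_aux

theorem finite_class (p : β) : {σ | X.m σ = p}.Finite := by
  rcases ({σ | X.m σ = p} : Set ι).eq_empty_or_nonempty with h | ⟨σ, hσ⟩
  · rw [h]; exact Set.finite_empty
  · have hσ' : X.m σ = p := hσ
    have hp : 0 < X.g p := by rw [← hσ']; exact X.pos σ _ (X.mem σ)
    refine (X.fin _ hp).subset fun σ' hσ' => ?_
    rw [mem_ofPred_eq] at hσ' ⊢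
    rw [hσ']

theorem isClosed_star (p : β) : IsClosed (X.star p) := by
  have : X.star p = ⋃ σ ∈ {σ | X.m σ = p}, X.cell σ := rfl
  rw [this]
  exact (finite_class p).isClosed_biUnion fun σ _ => X.closed σ

lemma K_eq (μ : ℕ → β) (j : ℕ) : X.K μ j = X.star (μ j) ∪ X.K μ (j + 1) := by
  ext u
  rw [mem_union, mem_K, mem_K]
  constructor
  · rintro (h | ⟨k, hk, hu⟩)
    · exact Or.inr (Or.inl h)
    · rcases Nat.eq_or_lt_of_le hk with rfl | hk
      · exact Or.inl hu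
      · exact Or.inr (Or.inr ⟨k, hk, hu⟩)
  · rintro (h | h | ⟨k, hk, hu⟩)
    · exact Or.inr ⟨j, le_rfl, h⟩
    · exact Or.inl h
    · exact Or.inr ⟨k, by omega, hu⟩

section Enum

variable {μ : ℕ → β} (hrange : range μ = range X.m)
  (hanti : ∀ i j, i ≤ j → X.g (μ j) ≤ X.g (μ i))
include hanti

lemma lt_of_g_lt {i j : ℕ} (h : X.g (μ j) < X.g (μ i)) : i < j := by
  by_contra hcon
  exact absurd (hanti j i (by omega)) (not_le.2 h)

include hrange

/-- **Two consecutive moves.** -/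
theorem exists_cell_of_move {i j : ℕ} {u : β} (hi : u ∈ X.star (μ i))
    (hj : u ∈ X.star (μ j)) (hj' : u ∉ X.K μ (j + 1)) :
    ∃ σ, X.m σ = μ i ∧ μ j ∈ X.cell σ := by
  obtain ⟨σ, hσ, huσ⟩ := mem_star.1 hi
  obtain ⟨σ', hσ', huσ'⟩ := mem_star.1 hj
  obtain ⟨τ, huτ, hτ⟩ := X.carrier u (X.pos σ u huσ)
  have h1 : X.m τ ∈ X.cell σ' := hτ σ' huσ' (X.mem τ)
  have h2 : X.m τ = μ j := by
    by_contra hne
    have h3 := X.max σ' _ h1 (by rw [hσ']; exact hne)
    obtain ⟨k, hk⟩ : X.m τ ∈ range μ := by rw [hrange]; exact ⟨τ, rfl⟩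
    rw [hσ', ← hk] at h3
    have h4 : j < k := lt_of_g_lt hanti h3
    exact hj' (mem_K.2 (Or.inr ⟨k, h4, mem_star.2 ⟨τ, hk.symm, huτ⟩⟩))
  exact ⟨σ, hσ, hτ σ huσ (h2 ▸ X.mem τ)⟩

/-- `Q j ∩ K (j + 1)` is the link of the class -/
theorem star_inter_K (hinj : Function.Injective μ) (j : ℕ) :
    X.star (μ j) ∩ X.K μ (j + 1) = X.link (μ j) := by
  ext u
  rw [mem_inter_iff, mem_star, mem_link]
  constructor
  · rintro ⟨⟨σ, hσ, hu⟩, hK⟩
    obtain ⟨τ, huτ, hτ⟩ := X.carrier u (X.pos σ u hu)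
    refine ⟨σ, hσ, τ, hτ σ hu, fun hm => ?_, huτ⟩
    rcases mem_K.1 hK with h | ⟨k, hk, h⟩
    · exact absurd h (X.pos σ u hu).ne'
    · obtain ⟨σ', hσ', hu'⟩ := mem_star.1 h
      have h1 : μ j ∈ X.cell σ' := hτ σ' hu' (hm ▸ X.mem τ)
      have h2 : μ j ≠ X.m σ' := by
        rw [hσ']
        intro h
        have := hinj h
        omega
      have h3 := X.max σ' _ h1 h2
      rw [hσ'] at h3
      have := lt_of_g_lt hanti h3
      omega
  · rintro ⟨σ, hσ, τ, hτσ, hτ, hu⟩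
    refine ⟨⟨σ, hσ, hτσ hu⟩, ?_⟩
    have h1 := X.max σ _ (hτσ (X.mem τ)) (by rw [hσ]; exact hτ)
    obtain ⟨k, hk⟩ : X.m τ ∈ range μ := by rw [hrange]; exact ⟨τ, rfl⟩
    rw [hσ, ← hk] at h1
    exact mem_K.2 (Or.inr ⟨k, lt_of_g_lt hanti h1, mem_star.2 ⟨τ, hk.symm, hu⟩⟩)

end Enum

/-- if no link is empty, there are infinitely many classes -/
theorem infinite_classes [Nonempty ι] (hne : ∀ σ, (X.link (X.m σ)).Nonempty) :
    (range X.m).Infinite := by
  intro hfin
  obtain ⟨_, ⟨σ, rfl⟩, hmin⟩ := Set.exists_min_image _ X.g hfin (range_nonempty X.m)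
  obtain ⟨u, hu⟩ := hne σ
  obtain ⟨σ', hσ', τ, hτσ, hτ, -⟩ := mem_link.1 hu
  have h1 := X.max σ' _ (hτσ (X.mem τ)) (by rw [hσ']; exact hτ)
  rw [hσ'] at h1
  exact absurd (hmin _ ⟨τ, rfl⟩) (not_le.2 h1)

/-- **The enumeration of the classes.** -/
theorem exists_enum [Nonempty ι] (hne : ∀ σ, (X.link (X.m σ)).Nonempty) :
    ∃ μ : ℕ → β, Function.Injective μ ∧ range μ = range X.m ∧
      ∀ i j, i ≤ j → X.g (μ j) ≤ X.g (μ i) := by
  refine BD.exists_enum (infinite_classes hne) ?_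
  rintro _ ⟨σ, rfl⟩
  refine ((X.fin _ (X.pos σ _ (X.mem σ))).image X.m).subset ?_
  rintro _ ⟨⟨σ', rfl⟩, h⟩
  exact ⟨σ', h, rfl⟩

/-- `K 0` is everything -/
theorem K_zero {μ : ℕ → β} (hrange : range μ = range X.m) : X.K μ 0 = univ := by
  rw [eq_univ_iff_forall]
  intro u
  rw [mem_K]
  rcases (X.nonneg u).eq_or_lt with h | h
  · exact Or.inl h.symm
  · obtain ⟨τ, hu, -⟩ := X.carrier u h
    obtain ⟨k, hk⟩ : X.m τ ∈ range μ := by rw [hrange]; exact ⟨τ, rfl⟩
    exact Or.inr ⟨k, Nat.zero_le _, mem_star.2 ⟨τ, hk.symm, hu⟩⟩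

/-- the heights of the classes tend to infinity -/
theorem tendsto_g {μ : ℕ → β} (hinj : Function.Injective μ) (hrange : range μ = range X.m) :
    Tendsto (fun j => X.g (μ j)) atTop (𝓝 0) := by
  rw [Metric.tendsto_atTop]
  intro ε hε
  have hfin : {k | ε ≤ X.g (μ k)}.Finite := by
    refine Set.Finite.of_finite_image (f := μ) (((X.fin ε hε).image X.m).subset ?_) hinj.injOn
    rintro _ ⟨k, hk, rfl⟩
    obtain ⟨σ, hσ⟩ : μ k ∈ range X.m := by rw [← hrange]; exact ⟨k, rfl⟩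
    refine ⟨σ, ?_, hσ⟩
    rw [mem_ofPred_eq, hσ]
    exact hk
  obtain ⟨J, hJ⟩ := hfin.bddAbove
  refine ⟨J + 1, fun k hk => ?_⟩
  rw [Real.dist_eq, sub_zero, abs_of_nonneg (X.nonneg _)]
  by_contra hcon
  have := hJ (show k ∈ {k | ε ≤ X.g (μ k)} from not_lt.1 hcon)
  omega

/-- the intersection of the filtration is infinity -/
theorem iInter_K {μ : ℕ → β} (hinj : Function.Injective μ) (hrange : range μ = range X.m) : ⋂ j, X.K μ j = X.bd := by
  apply Subset.antisymm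
  · intro u hu
    by_contra hcon
    have hpos : 0 < X.g u := lt_of_le_of_ne (X.nonneg u) fun h => hcon h.symm
    obtain ⟨J, hJ⟩ := (Metric.tendsto_atTop.1 (tendsto_g hinj hrange)) _ hpos
    rcases mem_K.1 (mem_iInter.1 hu J) with h | ⟨k, hk, h⟩
    · exact hcon h
    · obtain ⟨σ, hσ, hu⟩ := mem_star.1 h
      have h1 := hJ k hk
      rw [Real.dist_eq, sub_zero, abs_of_nonneg (X.nonneg _), ← hσ] at h1
      exact absurd (g_le hu) (not_le.2 h1)
  · intro u hu
    exact mem_iInter.2 fun j => mem_K.2 (Or.inl hu)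

/-- points of small `g` lie in `K j`, up to the size of the cells: if `g ≥ c g (m σ)` on all cells -/
theorem mem_K_of_g_lt {μ : ℕ → β} (hrange : range μ = range X.m)
    (hanti : ∀ i j, i ≤ j → X.g (μ j) ≤ X.g (μ i)) {c : ℝ}
    (hc : ∀ σ, ∀ u ∈ X.cell σ, c * X.g (X.m σ) ≤ X.g u) {j : ℕ} {u : β} (hcpos : 0 < c)
    (hu : X.g u < c * X.g (μ j)) : u ∈ X.K μ j := by
  rw [mem_K]
  rcases (X.nonneg u).eq_or_lt with h | h
  · exact Or.inl h.symm
  · obtain ⟨τ, huτ, -⟩ := X.carrier u h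
    obtain ⟨k, hk⟩ : X.m τ ∈ range μ := by rw [hrange]; exact ⟨τ, rfl⟩
    refine Or.inr ⟨k, ?_, mem_star.2 ⟨τ, hk.symm, huτ⟩⟩
    have h1 := hc τ u huτ
    have h2 : c * X.g (μ k) < c * X.g (μ j) := by rw [hk]; linarith
    exact (lt_of_g_lt hanti (lt_of_mul_lt_mul_left h2 hcpos.le)).le

end CellCx

end BD
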