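import Pool.Agent.Work.MP_de2d29_al.CellCx
import Pool.Agent.Work.MP_de2d29_al.APushC

/-!
# BUILDING: the system of sets of a cell complex with heights

`CellCx.sys`: a cell complex with heights in a compact metric space, whose links are absolute
extensors in dimension `≤ n`, is a system `Sys n K Q` as in the pushing lemma, with limit `bd`.
-/

set_option autoImplicit false

open Set Metric Topology Filter

namespace BD

open Pool.Agent.Work.MP_017613_gt.Rnd (AEk)

namespace CellCx

variable {β : Type} {ι : Type*} [MetricSpace β] [CompactSpace β] (X : CellCx β ι)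

/-- **The system of a cell complex.** `C`: the size of the cells; `z`: images of the class points
in a metric space `Y`; `(near)`: a class point of the cell `σ` of nearly the same height as the
nearest point is close to the nearest point (in `Y`); `(ball)`: at most `N` class points of
different heights are mapped into a unit ball. -/
theorem sys [Nonempty ι] {n : ℕ} (ae : ∀ σ, AEk n (X.link (X.m σ)))
    {C : ℝ} (hC : 0 ≤ C) (size : ∀ σ, ∀ u ∈ X.cell σ, dist (X.m σ) u ≤ C * X.g (X.m σ))
    {Y : Type*} [MetricSpace Y] {z : β → Y} {N : ℕ} {δ : ℝ} (hδ : 0 < δ)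
    (near : ∀ σ τ, X.m τ ∈ X.cell σ → X.g (X.m σ) < Real.exp δ * X.g (X.m τ) →
      dist (z (X.m σ)) (z (X.m τ)) ≤ 1 / (N + 1))
    (ball : ∀ F : Finset β, (∀ p ∈ F, p ∈ range X.m) → (∀ p ∈ F, ∀ q ∈ F, X.g p = X.g q → p = q) →
      (∃ y, ∀ p ∈ F, dist (z p) y ≤ 1) → F.card ≤ N) :
    ∃ μ : ℕ → β, range μ = range X.m ∧ (∀ i j, i ≤ j → X.g (μ j) ≤ X.g (μ i)) ∧
      Sys n (X.K μ) (fun j => X.star (μ j)) ∧ Lim (X.K μ) = X.bd ∧ X.K μ 0 = univ := by
  have hne : ∀ σ, (X.link (X.m σ)).Nonempty := fun σ => by
    obtain ⟨-, h⟩ := ae σ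
    obtain ⟨g, -, hg, -⟩ := h ℝ {0} ∅ ⟨isCompact_singleton, by
      intro f _ ε hε
      refine ⟨fun x => if f 0 = 0 then fun _ => ε / 2 else f 0, continuousOn_const, ?_, ?_⟩
      · intro x hx
        rw [mem_singleton_iff.1 hx]
        by_cases h0 : f 0 = 0
        · rw [if_pos h0, h0, dist_zero_right, pi_norm_const]
          rw [Real.norm_eq_abs, abs_of_pos (by positivity)]
          linarith
        · rw [if_neg h0, dist_self]
          exact hε
      · intro x _
        by_cases h0 : f 0 = 0
        · rw [if_pos h0]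
          intro h
          have := congrFun h 0
          simp only [Pi.zero_apply] at this
          linarith
        · rw [if_neg h0]
          exact h0, isClosed_empty, empty_subset _⟩ (fun _ => X.m σ) (continuousOn_empty _)
        (fun x hx => hx.elim)
    exact ⟨_, hg (mem_singleton 0)⟩
  obtain ⟨μ, hinj, hrange, hanti⟩ := X.exists_enum hne
  have hμ : ∀ j, ∃ σ, X.m σ = μ j := fun j => by
    have : μ j ∈ range X.m := by rw [← hrange]; exact ⟨j, rfl⟩
    exact this
  have hpos : ∀ j, 0 < X.g (μ j) := fun j => by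
    obtain ⟨σ, hσ⟩ := hμ j
    rw [← hσ]
    exact X.pos σ _ (X.mem σ)
  have hlim : Lim (X.K μ) = X.bd := iInter_K hinj hrange
  let h : ℕ → ℝ := fun j => -Real.log (X.g (μ j))
  have hexp : ∀ j, Real.exp (-h j) = X.g (μ j) := fun j => by
    simp only [h, neg_neg]
    exact Real.exp_log (hpos j)
  have hmono : Monotone h := fun i j hij => by
    simp only [h]
    have := Real.log_le_log (hpos j) (hanti i j hij)
    linarith
  refine ⟨μ, hrange, hanti, ⟨isClosed_univ.isCompact.of_isClosed_subset (isClosed_K μ 0)
    (subset_univ _), isClosed_K μ, fun j => isClosed_star _, K_eq μ, ?_, ?_, ?_⟩, hlim,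
    K_zero hrange⟩
  · intro j
    rw [star_inter_K hrange hanti hinj j]
    obtain ⟨σ, hσ⟩ := hμ j
    rw [← hσ]
    exact ae σ
  · intro j
    rw [hlim, Set.disjoint_left]
    intro u hu hu0
    obtain ⟨σ, -, hu⟩ := mem_star.1 hu
    exact (X.pos σ u hu).ne' hu0
  · intro ε hε
    have hlt : Real.exp (-δ) < 1 := by rw [Real.exp_lt_one_iff]; linarith
    set B : ℝ := 2 * C * (N * (1 - Real.exp (-δ))⁻¹) with hB
    have hB0 : 0 ≤ B := by
      have h1 : 0 ≤ (1 - Real.exp (-δ))⁻¹ := inv_nonneg.2 (by linarith)
      positivity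
    obtain ⟨J, hJ⟩ := (Metric.tendsto_atTop.1 (tendsto_g hinj hrange)) (ε / (B + 1))
      (by positivity)
    refine ⟨J, fun y _ hy a ha b hb => ?_⟩
    have hdr := chain_drift (K := X.K μ) (Q := fun j => X.star (μ j)) (h := h)
      (z := fun j => z (μ j)) (N := N) hδ hmono ?_ ?_ (D := fun u v => dist u v)
      (fun u => dist_self u) (fun u v w => dist_triangle u v w) (C := 2 * C) (by positivity) ?_
      hy hb
    · have h1 := hJ a ha
      rw [Real.dist_eq, sub_zero, abs_of_nonneg (X.nonneg _)] at h1
      rw [hexp] at hdr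
      calc dist (y a) (y b) ≤ B * X.g (μ a) := hdr
        _ ≤ (B + 1) * (ε / (B + 1)) := by
            refine mul_le_mul (by linarith) h1.le (X.nonneg _) (by linarith)
        _ = ε := by field_simp
    · -- consecutive moves
      intro i j hij u hi _ hj hj'
      obtain ⟨σ, hσ, hp⟩ := exists_cell_of_move hrange hanti hi hj hj'
      obtain ⟨τ, hτ⟩ := hμ j
      have hne : μ j ≠ X.m σ := by
        rw [hσ]
        intro h
        have := hinj h
        omega
      have h1 := X.max σ _ hp hne
      rw [hσ] at h1
      constructor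
      · simp only [h]
        have := Real.log_lt_log (hpos j) h1
        linarith
      · intro h2
        have h3 : X.g (X.m σ) < Real.exp δ * X.g (X.m τ) := by
          rw [hσ, hτ, ← hexp i, ← hexp j, ← Real.exp_add]
          apply Real.exp_lt_exp.2
          linarith
        have h4 := near σ τ (by rw [hτ]; exact hp) h3
        rw [hσ, hτ] at h4
        exact h4
    · -- the ball
      classical
      intro F hF hy
      have h1 : (F.image μ).card = F.card := Finset.card_image_of_injective F hinj
      rw [← h1]
      refine ball _ ?_ ?_ ?_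
      · intro p hp
        obtain ⟨i, -, rfl⟩ := Finset.mem_image.1 hp
        rw [← hrange]
        exact ⟨i, rfl⟩
      · intro p hp q hq hpq
        obtain ⟨i, hi, rfl⟩ := Finset.mem_image.1 hp
        obtain ⟨j, hj, rfl⟩ := Finset.mem_image.1 hq
        have h2 : h i = h j := by simp only [h, hpq]
        rcases lt_trichotomy i j with h3 | h3 | h3
        · exact absurd h2 (hF i hi j hj h3).ne
        · rw [h3]
        · exact absurd h2 (hF j hj i hi h3).ne'
      · obtain ⟨w, hw⟩ := hy
        refine ⟨w, fun p hp => ?_⟩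
        obtain ⟨i, hi, rfl⟩ := Finset.mem_image.1 hp
        exact hw i hi
    · -- the size
      intro j u hu v hv
      obtain ⟨σ, hσ, hu⟩ := mem_star.1 hu
      obtain ⟨σ', hσ', hv⟩ := mem_star.1 hv
      have h1 := size σ u hu
      have h2 := size σ' v hv
      rw [hσ] at h1
      rw [hσ'] at h2
      rw [hexp]
      have h3 := dist_triangle u (μ j) v
      rw [dist_comm u (μ j)] at h3
      show dist u v ≤ 2 * C * X.g (μ j)
      linarith

end CellCx

end BD
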