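import Mathlib

/-!
# BUILDING: the drift bound (combinatorial part)

Moves `i ∈ T` with strictly increasing heights `h i` and points `z i`; consecutive moves of nearly
equal height are close to each other; every unit ball contains at most `N` of the points `z i`.
Then at most `N` moves have heights in an interval of length `δ`, and `∑ exp (-h i)` is bounded by
a constant times `exp (- smallest height)`.
-/

set_option autoImplicit false

open Set Metric Topology Filter

namespace BD

variable {Y : Type*} [MetricSpace Y]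

/-- at most `N` moves in a window of heights of length `δ` -/
theorem card_window_le {N : ℕ} {δ : ℝ} {T : Finset ℕ} {z : ℕ → Y} {h : ℕ → ℝ}
    (hmono : ∀ i ∈ T, ∀ j ∈ T, i < j → h i < h j)
    (hcons : ∀ i ∈ T, ∀ j ∈ T, i < j → (∀ k ∈ T, i < k → j ≤ k) → h j < h i + δ →
      dist (z i) (z j) ≤ 1 / (N + 1))
    (hball : ∀ F : Finset ℕ, F ⊆ T → (∃ y, ∀ i ∈ F, dist (z i) y ≤ 1) → F.card ≤ N) (s : ℝ) :
    (T.filter fun i => s ≤ h i ∧ h i < s + δ).card ≤ N := by
  classical
  set T' := T.filter fun i => s ≤ h i ∧ h i < s + δ with hT'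
  by_contra hlt
  push Not at hlt
  -- the first `N + 1` elements of the window
  obtain ⟨c, hc⟩ : ∃ c, c = T'.card := ⟨_, rfl⟩
  let e := T'.orderEmbOfFin hc.symm
  have hcN : N + 1 ≤ c := by omega
  have hmem : ∀ i : Fin c, e i ∈ T' := fun i => Finset.orderEmbOfFin_mem _ _ _
  have hdist : ∀ k : ℕ, ∀ hk : k < c, dist (z (e ⟨0, by omega⟩)) (z (e ⟨k, hk⟩)) ≤ k / (N + 1) := by
    intro k
    induction k with
    | zero => intro hk; simp
    | succ k ih =>
      intro hk
      have h1 := ih (by omega)
      have hlt : e ⟨k, by omega⟩ < e ⟨k + 1, hk⟩ := e.strictMono (by simp [Fin.lt_def])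
      have ha := Finset.mem_filter.1 (hmem ⟨k, by omega⟩)
      have hb := Finset.mem_filter.1 (hmem ⟨k + 1, hk⟩)
      have h2 : dist (z (e ⟨k, by omega⟩)) (z (e ⟨k + 1, hk⟩)) ≤ 1 / (N + 1) := by
        refine hcons _ ha.1 _ hb.1 hlt ?_ (by linarith [ha.2.1, hb.2.2])
        intro i hi hki
        by_contra hcon
        push Not at hcon
        have hiT' : i ∈ T' := by
          rw [hT', Finset.mem_filter]
          refine ⟨hi, ?_, ?_⟩
          · exact ha.2.1.trans (hmono _ ha.1 _ hi hki).le
          · exact (hmono _ hi _ hb.1 hcon).trans hb.2.2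
        have hir : i ∈ Set.range e := by
          rw [Finset.range_orderEmbOfFin]
          exact hiT'
        obtain ⟨l, rfl⟩ := hir
        have h3 : (⟨k, by omega⟩ : Fin c) < l := e.lt_iff_lt.1 hki
        have h4 : l < (⟨k + 1, hk⟩ : Fin c) := e.lt_iff_lt.1 hcon
        rw [Fin.lt_def] at h3 h4
        simp only at h3 h4
        omega
      calc dist (z (e ⟨0, by omega⟩)) (z (e ⟨k + 1, hk⟩))
          ≤ dist (z (e ⟨0, by omega⟩)) (z (e ⟨k, by omega⟩)) +
            dist (z (e ⟨k, by omega⟩)) (z (e ⟨k + 1, hk⟩)) := dist_triangle _ _ _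
        _ ≤ k / (N + 1) + 1 / (N + 1) := add_le_add h1 h2
        _ = ((k + 1 : ℕ) : ℝ) / (N + 1) := by push_cast; ring
  -- contradiction
  let F : Finset ℕ := Finset.univ.image fun k : Fin (N + 1) => e ⟨k.1, by omega⟩
  have hFcard : F.card = N + 1 := by
    rw [Finset.card_image_of_injective]
    · simp
    · intro k k' hkk
      have := e.injective hkk
      rw [Fin.mk.injEq] at this
      exact Fin.ext this
  have hFT : F ⊆ T := by
    intro i hi
    obtain ⟨k, -, rfl⟩ := Finset.mem_image.1 hi
    exact (Finset.mem_filter.1 (hmem _)).1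
  have := hball F hFT ⟨z (e ⟨0, by omega⟩), fun i hi => by
    obtain ⟨k, -, rfl⟩ := Finset.mem_image.1 hi
    rw [dist_comm]
    refine (hdist k.1 (by omega)).trans ?_
    rw [div_le_one (by positivity)]
    have : k.1 ≤ N + 1 := k.2.le
    exact_mod_cast this⟩
  omega

/-- **The drift bound.** -/
theorem sum_exp_le {N : ℕ} {δ : ℝ} (hδ : 0 < δ) {T : Finset ℕ} {z : ℕ → Y} {h : ℕ → ℝ}
    (hmono : ∀ i ∈ T, ∀ j ∈ T, i < j → h i < h j)
    (hcons : ∀ i ∈ T, ∀ j ∈ T, i < j → (∀ k ∈ T, i < k → j ≤ k) → h j < h i + δ →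
      dist (z i) (z j) ≤ 1 / (N + 1))
    (hball : ∀ F : Finset ℕ, F ⊆ T → (∃ y, ∀ i ∈ F, dist (z i) y ≤ 1) → F.card ≤ N)
    {s : ℝ} (hs : ∀ i ∈ T, s ≤ h i) :
    ∑ i ∈ T, Real.exp (-h i) ≤ N * (1 - Real.exp (-δ))⁻¹ * Real.exp (-s) := by
  classical
  -- the window of `i`
  let w : ℕ → ℕ := fun i => ⌊(h i - s) / δ⌋₊
  have hw : ∀ i ∈ T, s + w i * δ ≤ h i ∧ h i < s + w i * δ + δ := by
    intro i hi
    have h0 : 0 ≤ (h i - s) / δ := div_nonneg (by linarith [hs i hi]) hδ.le
    have h1 := Nat.floor_le h0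
    have h2 := Nat.lt_floor_add_one ((h i - s) / δ)
    rw [le_div_iff₀ hδ] at h1
    rw [div_lt_iff₀ hδ] at h2
    constructor
    · simp only [w]; linarith
    · simp only [w]; linarith
  obtain ⟨R, hR⟩ : ∃ R : ℕ, ∀ i ∈ T, w i < R := by
    refine ⟨T.sup w + 1, fun i hi => Nat.lt_succ_of_le (Finset.le_sup hi)⟩
  have hq0 : 0 < Real.exp (-δ) := Real.exp_pos _
  have hq1 : Real.exp (-δ) < 1 := by rw [Real.exp_lt_one_iff]; linarith
  calc ∑ i ∈ T, Real.exp (-h i)
      = ∑ k ∈ Finset.range R, ∑ i ∈ T.filter (fun i => w i = k), Real.exp (-h i) := by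
        rw [Finset.sum_fiberwise_of_maps_to]
        intro i hi
        exact Finset.mem_range.2 (hR i hi)
    _ ≤ ∑ k ∈ Finset.range R, N * (Real.exp (-s) * Real.exp (-δ) ^ k) := by
        refine Finset.sum_le_sum fun k _ => ?_
        have h1 : (T.filter (fun i => w i = k)).card ≤ N := by
          refine le_trans (Finset.card_le_card ?_)
            (card_window_le hmono hcons hball (s + k * δ))
          intro i hi
          rw [Finset.mem_filter] at hi ⊢
          obtain ⟨hiT, rfl⟩ := hi
          exact ⟨hiT, hw i hiT⟩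
        calc ∑ i ∈ T.filter (fun i => w i = k), Real.exp (-h i)
            ≤ ∑ i ∈ T.filter (fun i => w i = k), Real.exp (-s) * Real.exp (-δ) ^ k := by
              refine Finset.sum_le_sum fun i hi => ?_
              rw [Finset.mem_filter] at hi
              rw [← Real.exp_nat_mul, ← Real.exp_add]
              apply Real.exp_le_exp.2
              have := (hw i hi.1).1
              rw [hi.2] at this
              linarith
          _ = (T.filter (fun i => w i = k)).card * (Real.exp (-s) * Real.exp (-δ) ^ k) := by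
              rw [Finset.sum_const, nsmul_eq_mul]
          _ ≤ N * (Real.exp (-s) * Real.exp (-δ) ^ k) := by
              have : ((T.filter (fun i => w i = k)).card : ℝ) ≤ N := by exact_mod_cast h1
              exact mul_le_mul_of_nonneg_right this (by positivity)
    _ = N * Real.exp (-s) * ∑ k ∈ Finset.range R, Real.exp (-δ) ^ k := by
        rw [Finset.mul_sum]
        exact Finset.sum_congr rfl fun k _ => by ring
    _ ≤ N * Real.exp (-s) * (1 - Real.exp (-δ))⁻¹ := by
        refine mul_le_mul_of_nonneg_left ?_ (by positivity)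
        have h1 := tsum_geometric_of_lt_one hq0.le hq1
        rw [← h1]
        exact (summable_geometric_of_lt_one hq0.le hq1).sum_le_tsum _ fun _ _ => by positivity
    _ = N * (1 - Real.exp (-δ))⁻¹ * Real.exp (-s) := by ring

end BD
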