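import Pool.Agent.Work.MP_de2d29_al.APush
import Pool.Agent.Work.MP_de2d29_al.Drift

/-!
# BUILDING: the drift of a chain of moves

`chain_drift`: the drift of chains from local data: heights `h j` of the classes (monotone), points
`z j` in a metric space `Y` (the images in the hyperbolic space of the nearest points of the
classes), `(G)` for two consecutive moves `i < j` the heights increase and the points are close if
the heights are, at most `N` of the points in a unit ball, and the size of `Q j` is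
`≤ C exp (-h j)`.
-/

set_option autoImplicit false

open Set Metric Topology Filter

namespace BD

variable {β : Type*}

section Chain

variable {K Q : ℕ → Set β} {y : ℕ → β}

/-- a chain does not change between two moves -/
theorem IsChain.const (hy : IsChain K Q y) {a b : ℕ} (hab : a ≤ b)
    (h : ∀ k, a ≤ k → k < b → y k ∈ K (k + 1)) : y b = y a := by
  induction b, hab using Nat.le_induction with
  | base => rfl
  | succ b hb ih =>
    rcases hy b with ⟨-, h1⟩ | ⟨-, h1, -⟩
    · exact h1.trans (ih fun k h2 h3 => h k h2 (by omega))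
    · exact absurd (h b hb (Nat.lt_succ_self b)) h1

open Classical in
/-- the moves of a chain between the times `a` and `b` -/
noncomputable def moves (K : ℕ → Set β) (y : ℕ → β) (a b : ℕ) : Finset ℕ :=
  (Finset.Ico a b).filter fun j => y j ∉ K (j + 1)

theorem mem_moves {a b j : ℕ} : j ∈ moves K y a b ↔ (a ≤ j ∧ j < b) ∧ y j ∉ K (j + 1) := by
  classical
  rw [moves, Finset.mem_filter, Finset.mem_Ico]

/-- the drift of a chain is at most the sum of the sizes of the moves -/
theorem IsChain.dist_le (hy : IsChain K Q y) {D : β → β → ℝ} (D0 : ∀ u, D u u = 0)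
    (Dt : ∀ u v w, D u w ≤ D u v + D v w) {E : ℕ → ℝ}
    (hE : ∀ j, ∀ u ∈ Q j, ∀ v ∈ Q j, D u v ≤ E j) {a b : ℕ} (hab : a ≤ b) :
    D (y a) (y b) ≤ ∑ j ∈ moves K y a b, E j := by
  classical
  induction b, hab using Nat.le_induction with
  | base => simp [D0, moves]
  | succ b hb ih =>
    have hin : y b ∉ K (b + 1) → moves K y a (b + 1) = insert b (moves K y a b) := by
      intro h
      ext j
      rw [Finset.mem_insert, mem_moves, mem_moves]
      constructor
      · rintro ⟨⟨h2, h3⟩, h4⟩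
        rcases Nat.lt_succ_iff_lt_or_eq.1 h3 with h5 | rfl
        · exact Or.inr ⟨⟨h2, h5⟩, h4⟩
        · exact Or.inl rfl
      · rintro (rfl | ⟨⟨h2, h3⟩, h4⟩)
        · exact ⟨⟨hb, Nat.lt_succ_self _⟩, h⟩
        · exact ⟨⟨h2, by omega⟩, h4⟩
    have hout : y b ∈ K (b + 1) → moves K y a (b + 1) = moves K y a b := by
      intro h
      ext j
      rw [mem_moves, mem_moves]
      constructor
      · rintro ⟨⟨h2, h3⟩, h4⟩
        rcases Nat.lt_succ_iff_lt_or_eq.1 h3 with h5 | rfl
        · exact ⟨⟨h2, h5⟩, h4⟩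
        · exact absurd h h4
      · rintro ⟨⟨h2, h3⟩, h4⟩
        exact ⟨⟨h2, by omega⟩, h4⟩
    rcases hy b with ⟨h2, h3⟩ | ⟨h2, h3, h4, h5⟩
    · rw [hout h2, h3]
      exact ih
    · rw [hin h3, Finset.sum_insert (by rw [mem_moves]; omega)]
      calc D (y a) (y (b + 1)) ≤ D (y a) (y b) + D (y b) (y (b + 1)) := Dt _ _ _
        _ ≤ ∑ j ∈ moves K y a b, E j + E b := add_le_add ih (hE b _ h2 _ h4)
        _ = E b + ∑ j ∈ moves K y a b, E j := add_comm _ _

end Chain

/-- **The drift of chains.** -/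
theorem chain_drift {Y : Type*} [MetricSpace Y] {K Q : ℕ → Set β} {h : ℕ → ℝ} {z : ℕ → Y}
    {N : ℕ} {δ : ℝ} (hδ : 0 < δ) (hh : Monotone h)
    (hG : ∀ i j, i < j → ∀ u, u ∈ Q i → u ∈ K (i + 1) → u ∈ Q j → u ∉ K (j + 1) →
      h i < h j ∧ (h j < h i + δ → dist (z i) (z j) ≤ 1 / (N + 1)))
    (hball : ∀ F : Finset ℕ, (∀ i ∈ F, ∀ j ∈ F, i < j → h i < h j) →
      (∃ y, ∀ i ∈ F, dist (z i) y ≤ 1) → F.card ≤ N)
    {D : β → β → ℝ} (D0 : ∀ u, D u u = 0) (Dt : ∀ u v w, D u w ≤ D u v + D v w) {C : ℝ}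
    (hC : 0 ≤ C) (hE : ∀ j, ∀ u ∈ Q j, ∀ v ∈ Q j, D u v ≤ C * Real.exp (-h j))
    {y : ℕ → β} (hy : IsChain K Q y) {a b : ℕ} (hab : a ≤ b) :
    D (y a) (y b) ≤ C * (N * (1 - Real.exp (-δ))⁻¹) * Real.exp (-h a) := by
  have hQ : ∀ j ∈ moves K y a b, y j ∈ Q j ∧ y j ∉ K (j + 1) ∧ y (j + 1) ∈ Q j ∧
      y (j + 1) ∈ K (j + 1) := by
    intro j hj
    rw [mem_moves] at hj
    rcases hy j with ⟨h1, -⟩ | h1
    · exact absurd h1 hj.2
    · exact h1
  -- consecutive moves
  have hcon : ∀ i ∈ moves K y a b, ∀ j ∈ moves K y a b, i < j →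
      (∀ k ∈ moves K y a b, i < k → j ≤ k) →
      h i < h j ∧ (h j < h i + δ → dist (z i) (z j) ≤ 1 / (N + 1)) := by
    intro i hi j hj hij hk
    have h1 : y j = y (i + 1) := hy.const (by omega) (by
      intro k hk1 hk2
      by_contra hk3
      have := hk k (by
        rw [mem_moves] at hi hj ⊢
        exact ⟨⟨by omega, by omega⟩, hk3⟩) (by omega)
      omega)
    obtain ⟨-, -, h2, h3⟩ := hQ i hi
    obtain ⟨h4, h5, -, -⟩ := hQ j hj
    rw [h1] at h4 h5
    exact hG i j hij _ h2 h3 h4 h5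
  have hmono : ∀ i ∈ moves K y a b, ∀ j ∈ moves K y a b, i < j → h i < h j := by
    intro i hi j hj hij
    -- the first move after `i`
    classical
    let S := (moves K y a b).filter fun k => i < k
    have hS : S.Nonempty := ⟨j, Finset.mem_filter.2 ⟨hj, hij⟩⟩
    have h1 := Finset.mem_filter.1 (S.min'_mem hS)
    have h2 := (hcon i hi _ h1.1 h1.2 fun k hk hik =>
      S.min'_le k (Finset.mem_filter.2 ⟨hk, hik⟩)).1
    exact h2.trans_le (hh (S.min'_le j (Finset.mem_filter.2 ⟨hj, hij⟩)))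
  calc D (y a) (y b) ≤ ∑ j ∈ moves K y a b, C * Real.exp (-h j) := hy.dist_le D0 Dt hE hab
    _ = C * ∑ j ∈ moves K y a b, Real.exp (-h j) := by rw [Finset.mul_sum]
    _ ≤ C * (N * (1 - Real.exp (-δ))⁻¹ * Real.exp (-h a)) := by
        refine mul_le_mul_of_nonneg_left ?_ hC
        refine sum_exp_le hδ hmono (fun i hi j hj hij hk => (hcon i hi j hj hij hk).2) ?_ ?_
        · intro F hF hy
          exact hball F (fun i hi j hj hij => hmono i (hF hi) j (hF hj) hij) hy
        · intro i hi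
          rw [mem_moves] at hi
          exact hh hi.1.1
    _ = C * (N * (1 - Real.exp (-δ))⁻¹) * Real.exp (-h a) := by ring

end BD
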