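import Pool.Agent.Work.MP_de2d29_al.Defs

/-!
# The translates of a Coxeter polytope cover hyperbolic space

`TitsRep cs e ρ`: `ρ` is a representation of a Coxeter group on Minkowski space, the simple
reflection `i` acts as the reflection in `e i`, and Tits' theorem on signs holds. From this:
discreteness of the orbits, the covering theorem, finiteness of stabilisers, and a uniform bound
for the number of tiles meeting a ball of given radius.
-/

set_option autoImplicit false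

open Set

namespace BD.Cov

variable {d : ℕ}

/-! ### the form -/

theorem lor_comm (x y : Mink d) : lor x y = lor y x := by
  simp only [lor, mul_comm]

theorem lor_add_left (x y z : Mink d) : lor (x + y) z = lor x z + lor y z := by
  simp only [lor, Pi.add_apply, add_mul, Finset.sum_add_distrib]
  ring

theorem lor_smul_left (a : ℝ) (x z : Mink d) : lor (a • x) z = a * lor x z := by
  simp only [lor, Pi.smul_apply, smul_eq_mul, mul_sub, Finset.mul_sum, mul_assoc]

theorem lor_add_right (x y z : Mink d) : lor x (y + z) = lor x y + lor x z := by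
  rw [lor_comm, lor_add_left, lor_comm y, lor_comm z]

theorem lor_smul_right (a : ℝ) (x z : Mink d) : lor x (a • z) = a * lor x z := by
  rw [lor_comm, lor_smul_left, lor_comm z]

theorem lor_neg_left (x z : Mink d) : lor (-x) z = -lor x z := by
  have := lor_smul_left (-1) x z
  simpa using this

theorem lor_neg_right (x z : Mink d) : lor x (-z) = -lor x z := by
  rw [lor_comm, lor_neg_left, lor_comm]

theorem lor_sub_left (x y z : Mink d) : lor (x - y) z = lor x z - lor y z := by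
  rw [sub_eq_add_neg, lor_add_left, lor_neg_left]
  ring

theorem lor_sub_right (x y z : Mink d) : lor x (y - z) = lor x y - lor x z := by
  rw [lor_comm, lor_sub_left, lor_comm y, lor_comm z]

theorem continuous_lor : Continuous fun p : Mink d × Mink d => lor p.1 p.2 := by
  unfold lor
  fun_prop

theorem continuous_lor_left (y : Mink d) : Continuous fun x : Mink d => lor x y := by
  unfold lor
  fun_prop

theorem continuous_lor_self : Continuous fun x : Mink d => lor x x := by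
  unfold lor
  fun_prop

/-! ### timelike vectors -/

/-- spatial Cauchy-Schwarz -/
theorem sq_sum_le (x y : Mink d) : (∑ i : Fin d, x i.succ * y i.succ) ^ 2 ≤
    (∑ i : Fin d, x i.succ * x i.succ) * (∑ i : Fin d, y i.succ * y i.succ) := by
  have h := Finset.sum_mul_sq_le_sq_mul_sq Finset.univ (fun i : Fin d => x i.succ)
    (fun i : Fin d => y i.succ)
  simpa only [sq] using h

theorem sum_self_nonneg (x : Mink d) : 0 ≤ ∑ i : Fin d, x i.succ * x i.succ :=
  Finset.sum_nonneg fun _ _ => mul_self_nonneg _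

theorem lor_nonpos {p q : Mink d} (hp : lor p p ≤ 0) (hp0 : 0 ≤ p 0) (hq : lor q q ≤ 0)
    (hq0 : 0 ≤ q 0) : lor p q ≤ 0 := by
  have h := sq_sum_le p q
  simp only [lor] at hp hq ⊢
  have hP := sum_self_nonneg p
  have hQ := sum_self_nonneg q
  set P := ∑ i : Fin d, p i.succ * p i.succ
  set Q := ∑ i : Fin d, q i.succ * q i.succ
  set R := ∑ i : Fin d, p i.succ * q i.succ
  have h1 : R ^ 2 ≤ (p 0 * q 0) ^ 2 := by
    calc R ^ 2 ≤ P * Q := h
      _ ≤ (p 0 * p 0) * (q 0 * q 0) := by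
        apply mul_le_mul <;> nlinarith
      _ = (p 0 * q 0) ^ 2 := by ring
  have h2 : R ≤ p 0 * q 0 := (abs_le_of_sq_le_sq' h1 (by positivity)).2
  linarith

/-- the reverse Cauchy-Schwarz inequality -/
theorem lor_sq_ge {p q : Mink d} (hp : lor p p ≤ 0) (hp0 : 0 ≤ p 0) (hq : lor q q ≤ 0)
    (hq0 : 0 ≤ q 0) : lor p p * lor q q ≤ lor p q ^ 2 := by
  have h := sq_sum_le p q
  have h0 := lor_nonpos hp hp0 hq hq0
  simp only [lor] at hp hq h0 ⊢
  have hP := sum_self_nonneg p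
  have hQ := sum_self_nonneg q
  set P := ∑ i : Fin d, p i.succ * p i.succ
  set Q := ∑ i : Fin d, q i.succ * q i.succ
  set R := ∑ i : Fin d, p i.succ * q i.succ
  set a := p 0
  set b := q 0
  -- `R ≤ √P √Q`
  have hs : R ≤ √P * √Q := by
    rw [← Real.sqrt_mul hP]
    exact Real.le_sqrt_of_sq_le h
  have hsP := Real.sq_sqrt hP
  have hsQ := Real.sq_sqrt hQ
  have hsP0 := Real.sqrt_nonneg P
  have hsQ0 := Real.sqrt_nonneg Q
  have h1 : √P * √Q ≤ a * b := by
    apply mul_le_mul _ _ hsQ0 hp0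
    · exact Real.sqrt_le_iff.2 ⟨hp0, by nlinarith⟩
    · exact Real.sqrt_le_iff.2 ⟨hq0, by nlinarith⟩
  have h2 : (a * b - √P * √Q) ^ 2 ≤ (R - a * b) ^ 2 := by
    rw [← neg_sub (a * b) R, neg_sq]
    exact pow_le_pow_left₀ (by linarith) (by linarith) 2
  refine le_trans ?_ h2
  have h3 : 0 ≤ (a * √Q - b * √P) ^ 2 := sq_nonneg _
  have h4 : (P - a * a) * (Q - b * b) = (√P ^ 2 - a * a) * (√Q ^ 2 - b * b) := by rw [hsP, hsQ]
  rw [h4]
  nlinarith

/-- orientation -/
theorem pos_of_lor_neg {x z : Mink d} (hx : lor x x ≤ 0) (hx0 : 0 ≤ x 0) (hz : lor z z < 0)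
    (hxz : lor x z < 0) : 0 < z 0 := by
  by_contra hcon
  push Not at hcon
  have h := lor_nonpos hx hx0 (q := -z) (by rw [lor_neg_left, lor_neg_right, neg_neg]; exact hz.le)
    (by simpa using hcon)
  rw [lor_neg_right] at h
  linarith

theorem Hyp.le {x : Mink d} (hx : x ∈ Hyp d) : lor x x ≤ 0 := by
  rw [hx.1]
  norm_num

theorem one_le_neg_lor {x y : Mink d} (hx : x ∈ Hyp d) (hy : y ∈ Hyp d) : 1 ≤ -lor x y := by
  have h1 := lor_sq_ge (Hyp.le hx) hx.2.le (Hyp.le hy) hy.2.le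
  have h2 := lor_nonpos (Hyp.le hx) hx.2.le (Hyp.le hy) hy.2.le
  rw [hx.1, hy.1] at h1
  nlinarith

/-- two points on different sides of a wall -/
theorem gap {x y a : Mink d} (hx : x ∈ Hyp d) (hy : y ∈ Hyp d) (ha : lor a a = 1)
    (hxa : lor x a ≤ 0) (hya : 0 ≤ lor y a) : 1 + lor x a ^ 2 ≤ lor x y ^ 2 := by
  set r := lor x a with hr
  set t := lor y a with ht
  -- components orthogonal to `a`
  have e1 : lor (x - r • a) (x - r • a) = -1 - r ^ 2 := by
    rw [lor_sub_left, lor_sub_right, lor_sub_right, lor_smul_left, lor_smul_left, lor_smul_right,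
      lor_smul_right, ha, hx.1, lor_comm a x, ← hr]
    ring
  have e2 : lor (y - t • a) (y - t • a) = -1 - t ^ 2 := by
    rw [lor_sub_left, lor_sub_right, lor_sub_right, lor_smul_left, lor_smul_left, lor_smul_right,
      lor_smul_right, ha, hy.1, lor_comm a y, ← ht]
    ring
  have e3 : lor (x - r • a) (y - t • a) = lor x y - r * t := by
    rw [lor_sub_left, lor_sub_right, lor_sub_right, lor_smul_left, lor_smul_left, lor_smul_right,
      lor_smul_right, ha, lor_comm a y, ← hr, ← ht]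
    ring
  have e4 : lor x (x - r • a) = -1 - r ^ 2 := by
    rw [lor_sub_right, lor_smul_right, hx.1, ← hr]
    ring
  have e5 : lor y (y - t • a) = -1 - t ^ 2 := by
    rw [lor_sub_right, lor_smul_right, hy.1, ← ht]
    ring
  have p1 := pos_of_lor_neg (Hyp.le hx) hx.2.le (z := x - r • a) (by rw [e1]; nlinarith)
    (by rw [e4]; nlinarith)
  have p2 := pos_of_lor_neg (Hyp.le hy) hy.2.le (z := y - t • a) (by rw [e2]; nlinarith)
    (by rw [e5]; nlinarith)
  have h1 := lor_sq_ge (by rw [e1]; nlinarith) p1.le (by rw [e2]; nlinarith) p2.le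
  have h2 := lor_nonpos (by rw [e1]; nlinarith : lor (x - r • a) (x - r • a) ≤ 0) p1.le
    (by rw [e2]; nlinarith) p2.le
  rw [e1, e2, e3] at h1
  rw [e3] at h2
  -- `(lor x y - r t)^2 ≥ (1 + r^2)(1 + t^2)`, `r t ≤ 0`
  have h3 : r * t ≤ 0 := mul_nonpos_of_nonpos_of_nonneg hxa hya
  have h4 : (lor x y - r * t) ^ 2 ≤ lor x y ^ 2 := by
    rw [← neg_sq (lor x y - r * t), ← neg_sq (lor x y)]
    exact pow_le_pow_left₀ (by linarith) (by linarith) 2
  nlinarith [sq_nonneg t, mul_nonneg (sq_nonneg r) (sq_nonneg t)]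

theorem refl_mem {x a : Mink d} (hx : x ∈ Hyp d) (ha : lor a a = 1) : refl a x ∈ Hyp d := by
  have e1 : lor (refl a x) (refl a x) = -1 := by
    rw [refl, lor_sub_left, lor_sub_right, lor_sub_right, lor_smul_left, lor_smul_left,
      lor_smul_right, lor_smul_right, ha, hx.1, lor_comm a x]
    ring
  have e2 : lor x (refl a x) = -1 - 2 * lor x a ^ 2 := by
    rw [refl, lor_sub_right, lor_smul_right, hx.1]
    ring
  exact ⟨e1, pos_of_lor_neg (Hyp.le hx) hx.2.le (by rw [e1]; norm_num) (by rw [e2]; nlinarith)⟩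

theorem lor_refl_refl {a : Mink d} (ha : lor a a = 1) (x y : Mink d) :
    lor (refl a x) (refl a y) = lor x y := by
  rw [refl, refl, lor_sub_left, lor_sub_right, lor_sub_right, lor_smul_left, lor_smul_left,
      lor_smul_right, lor_smul_right, ha, lor_comm a y]
  ring

/-- change of base point for the height -/
theorem height_le {x y : Mink d} (hx : x ∈ Hyp d) (hy : y ∈ Hyp d) :
    y 0 ≤ 2 * x 0 * -lor x y := by
  have hx1 := hx.1
  have hy1 := hy.1
  have hx0 := hx.2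
  have hy0 := hy.2
  have h := sq_sum_le x y
  simp only [lor] at hx1 hy1 ⊢
  have hP := sum_self_nonneg x
  have hQ := sum_self_nonneg y
  set P := ∑ i : Fin d, x i.succ * x i.succ
  set Q := ∑ i : Fin d, y i.succ * y i.succ
  set R := ∑ i : Fin d, x i.succ * y i.succ
  set a := x 0
  set b := y 0
  have ha1 : 1 ≤ a := by nlinarith
  -- `R ≤ (a - 1/(2a)) b`
  have h1 : (2 * a * R) ^ 2 ≤ ((2 * a ^ 2 - 1) * b) ^ 2 := by
    have h2 : R ^ 2 ≤ (a ^ 2 - 1) * (b ^ 2 - 1) := by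
      calc R ^ 2 ≤ P * Q := h
        _ = (a ^ 2 - 1) * (b ^ 2 - 1) := by
          rw [show P = a ^ 2 - 1 by linarith, show Q = b ^ 2 - 1 by linarith]
    have h3 : 0 ≤ 4 * a ^ 2 := by positivity
    nlinarith [mul_le_mul_of_nonneg_left h2 h3, sq_nonneg b, mul_nonneg h3 (by nlinarith : 0 ≤ a ^ 2 - 1)]
  have h4 : 2 * a * R ≤ (2 * a ^ 2 - 1) * b :=
    (abs_le_of_sq_le_sq' h1 (mul_nonneg (by nlinarith) hy0.le)).2
  nlinarith

/-! ### compactness -/

theorem isClosed_Hyp : IsClosed (Hyp d) := by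
  have : Hyp d = {x | lor x x = -1} ∩ {x | 1 ≤ x 0} := by
    ext x
    constructor
    · intro hx
      refine ⟨hx.1, ?_⟩
      have h1 := hx.1
      have hP := sum_self_nonneg x
      simp only [lor] at h1
      have := hx.2
      show 1 ≤ x 0
      nlinarith
    · rintro ⟨h1, h2⟩
      have h2' : 1 ≤ x 0 := h2
      exact ⟨h1, by linarith⟩
  rw [this]
  exact (isClosed_eq continuous_lor_self continuous_const).inter
    (isClosed_le continuous_const (continuous_apply 0))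

theorem one_le_height {x : Mink d} (hx : x ∈ Hyp d) : 1 ≤ x 0 := by
  have h1 := hx.1
  have hP := sum_self_nonneg x
  simp only [lor] at h1
  have := hx.2
  nlinarith

theorem abs_le_height {x : Mink d} (hx : x ∈ Hyp d) (i : Fin (d + 1)) : |x i| ≤ x 0 := by
  refine Fin.cases (abs_of_pos hx.2).le (fun j => ?_) i
  have h1 := hx.1
  simp only [lor] at h1
  have h2 : x j.succ * x j.succ ≤ ∑ i : Fin d, x i.succ * x i.succ :=
    Finset.single_le_sum (f := fun i : Fin d => x i.succ * x i.succ)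
      (fun _ _ => mul_self_nonneg _) (Finset.mem_univ j)
  exact abs_le_of_sq_le_sq (by nlinarith) hx.2.le

theorem isCompact_height (C : ℝ) : IsCompact {x : Mink d | x ∈ Hyp d ∧ x 0 ≤ C} := by
  have hcl : IsClosed {x : Mink d | x ∈ Hyp d ∧ x 0 ≤ C} :=
    isClosed_Hyp.inter (isClosed_le (continuous_apply 0) continuous_const)
  refine Metric.isCompact_of_isClosed_isBounded hcl ?_
  refine (Metric.isBounded_closedBall (x := (0 : Mink d)) (r := C)).subset fun x hx => ?_
  rw [mem_closedBall_zero_iff, pi_norm_le_iff_of_nonneg (hx.1.2.le.trans hx.2)]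
  exact fun i => (abs_le_height hx.1 i).trans hx.2

/-- a family of points with a uniform gap is locally finite -/
theorem finite_of_gap {ι' : Type*} {f : ι' → Mink d} (hf : ∀ w, f w ∈ Hyp d) {ε : ℝ} (hε : 0 < ε)
    (hgap : ∀ w w', w ≠ w' → 1 + ε ≤ -lor (f w) (f w')) (C : ℝ) : {w | f w 0 ≤ C}.Finite := by
  have hK := isCompact_height (d := d) C
  -- small neighbourhoods
  have hU : ∀ z ∈ {x : Mink d | x ∈ Hyp d ∧ x 0 ≤ C}, ∃ U ∈ nhds z, ∀ a ∈ U, ∀ b ∈ U,
      -lor a b < 1 + ε := by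
    rintro z ⟨hz, -⟩
    have h1 : ∀ᶠ p : Mink d × Mink d in nhds (z, z), -lor p.1 p.2 < 1 + ε := by
      apply (continuous_lor.neg.tendsto (z, z)).eventually_lt_const
      show -lor z z < 1 + ε
      rw [hz.1]
      linarith
    rw [nhds_prod_eq, Filter.eventually_prod_iff] at h1
    obtain ⟨pa, ha, pb, hb, hab⟩ := h1
    exact ⟨{x | pa x ∧ pb x}, ha.and hb, fun a ha b hb => hab ha.1 hb.2⟩
  choose! U hUn hUl using hU
  obtain ⟨t, ht, htK⟩ := hK.elim_nhds_subcover U hUn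
  have hmem : ∀ w ∈ {w | f w 0 ≤ C}, ∃ z ∈ t, f w ∈ U z := by
    intro w hw
    have := htK ⟨hf w, hw⟩
    simpa using this
  choose! g hg hgU using hmem
  refine Set.Finite.of_finite_image (f := g) (t.finite_toSet.subset ?_) ?_
  · rintro _ ⟨w, hw, rfl⟩
    exact hg w hw
  · intro w hw w' hw' h
    by_contra hne
    have h1 := hUl (g w) (ht _ (hg w hw)) (f w) (hgU w hw) (f w') (h ▸ hgU w' hw')
    have h2 := hgap w w' hne
    linarith

/-! ### the group -/

section group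

variable {ι W : Type*} [Group W] {M : CoxeterMatrix ι} (cs : CoxeterSystem M W) (e : ι → Mink d)
  (ρ : W →* (Mink d ≃ₗ[ℝ] Mink d))

/-- a reflection representation for which Tits' theorem holds -/
structure TitsRep : Prop where
  unit : ∀ i, lor (e i) (e i) = 1
  simple : ∀ i x, ρ (cs.simple i) x = refl (e i) x
  sign : ∀ w i, cs.length (cs.simple i * w) < cs.length w → ∀ p, (∀ j, lor p (e j) < 0) →
    0 < lor (ρ w p) (e i)

variable {cs e ρ}

namespace TitsRep

variable (T : TitsRep cs e ρ)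

include T

theorem lor_ρ (w : W) (x y : Mink d) : lor (ρ w x) (ρ w y) = lor x y := by
  induction w using cs.simple_induction_left with
  | one => simp
  | mul_simple_left w i ih =>
    rw [map_mul, LinearEquiv.mul_apply, LinearEquiv.mul_apply, T.simple, T.simple,
      lor_refl_refl (T.unit i), ih]

theorem ρ_mem (w : W) {x : Mink d} (hx : x ∈ Hyp d) : ρ w x ∈ Hyp d := by
  induction w using cs.simple_induction_left with
  | one => simpa using hx
  | mul_simple_left w i ih =>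
    rw [map_mul, LinearEquiv.mul_apply, T.simple]
    exact refl_mem ih (T.unit i)

omit T in
theorem ρ_inv_ρ (w : W) (x : Mink d) : ρ w⁻¹ (ρ w x) = x := by
  rw [← LinearEquiv.mul_apply, ← map_mul, inv_mul_cancel, map_one]
  rfl

omit T in
theorem ρ_ρ_inv (w : W) (x : Mink d) : ρ w (ρ w⁻¹ x) = x := by
  rw [← LinearEquiv.mul_apply, ← map_mul, mul_inv_cancel, map_one]
  rfl

theorem lor_ρ_left (w : W) (x y : Mink d) : lor (ρ w x) y = lor x (ρ w⁻¹ y) := by
  rw [← T.lor_ρ w x, ρ_ρ_inv]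

/-- at a maximum of the form over the orbit of an interior point, the point is in the closed
chamber -/
theorem mem_of_max {p y : Mink d} (hp : ∀ j, lor p (e j) < 0) {w : W} {i : ι}
    (hmax : lor (ρ (w * cs.simple i) p) y ≤ lor (ρ w p) y) : lor (ρ w⁻¹ y) (e i) ≤ 0 := by
  rw [map_mul, LinearEquiv.mul_apply, T.lor_ρ_left, T.lor_ρ_left w, T.simple, refl, lor_sub_left,
    lor_smul_left, lor_comm (e i)] at hmax
  have h1 : 0 ≤ 2 * lor p (e i) * lor (ρ w⁻¹ y) (e i) := by linarith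
  by_contra hcon
  push Not at hcon
  have := mul_neg_of_neg_of_pos (hp i) hcon
  linarith

/-- finite sets stable under right multiplication by simple reflections -/
theorem exists_mem_of_finite {p : Mink d} (hp : ∀ j, lor p (e j) < 0) {G : Set W}
    (hG : G.Finite) (hne : G.Nonempty) {J : Set ι} (hJ : ∀ w ∈ G, ∀ i ∈ J, w * cs.simple i ∈ G)
    (y : Mink d) : ∃ w ∈ G, ∀ i ∈ J, lor (ρ w⁻¹ y) (e i) ≤ 0 := by
  obtain ⟨w, hw, hmax⟩ := hG.exists_maximalFor (fun w => lor (ρ w p) y) G hne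
  refine ⟨w, hw, fun i hi => T.mem_of_max hp ?_⟩
  by_contra hcon
  push Not at hcon
  have := hmax (hJ w hw i hi) hcon.le
  exact absurd this (not_le.2 hcon)

/-- the gap of the orbit of an interior point -/
theorem exists_gap [Finite ι] {p : Mink d} (hpH : p ∈ Hyp d) (hp : ∀ j, lor p (e j) < 0) :
    ∃ ε > 0, ∀ w w' : W, w ≠ w' → 1 + ε ≤ -lor (ρ w p) (ρ w' p) := by
  classical
  have := Fintype.ofFinite ι
  -- `δ ≤ lor p (e i) ^ 2`
  obtain ⟨δ, hδ, hδi⟩ : ∃ δ > 0, ∀ i, δ ≤ lor p (e i) ^ 2 := by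
    by_cases hne : (Finset.univ : Finset ι).Nonempty
    · obtain ⟨i₀, -, hi₀⟩ := Finset.exists_min_image Finset.univ (fun i => lor p (e i) ^ 2) hne
      exact ⟨_, (by have := sq_pos_of_neg (hp i₀); exact this), fun i => hi₀ i (Finset.mem_univ i)⟩
    · refine ⟨1, one_pos, fun i => absurd ⟨i, Finset.mem_univ i⟩ hne⟩
  refine ⟨√(1 + δ) - 1, ?_, ?_⟩
  · have : √1 < √(1 + δ) := Real.sqrt_lt_sqrt (by norm_num) (by linarith)
    rw [Real.sqrt_one] at this
    linarith
  -- the case `w = 1`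
  have key : ∀ w : W, w ≠ 1 → √(1 + δ) ≤ -lor p (ρ w p) := by
    intro w hw
    obtain ⟨i, hi⟩ := cs.exists_leftDescent_of_ne_one hw
    have h1 := T.sign w i hi p hp
    have h2 := gap hpH (T.ρ_mem w hpH) (T.unit i) (hp i).le h1.le
    have h3 := one_le_neg_lor hpH (T.ρ_mem w hpH)
    apply Real.sqrt_le_iff.2 ⟨by linarith, ?_⟩
    have := hδi i
    nlinarith
  intro w w' hww'
  have h1 := key (w⁻¹ * w') (fun h => hww' (inv_mul_eq_one.1 h))
  rw [T.lor_ρ_left, ← LinearEquiv.mul_apply, ← map_mul]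
  linarith

theorem finite_height [Finite ι] {p : Mink d} (hpH : p ∈ Hyp d) (hp : ∀ j, lor p (e j) < 0)
    (C : ℝ) : {w | (ρ w p) 0 ≤ C}.Finite := by
  obtain ⟨ε, hε, hgap⟩ := T.exists_gap hpH hp
  exact finite_of_gap (fun w => T.ρ_mem w hpH) hε hgap C

theorem finite_lor [Finite ι] {p y : Mink d} (hpH : p ∈ Hyp d) (hp : ∀ j, lor p (e j) < 0)
    (hy : y ∈ Hyp d) (C : ℝ) : {w | -lor (ρ w p) y ≤ C}.Finite := by
  refine (T.finite_height hpH hp (2 * y 0 * C)).subset fun w hw => ?_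
  have h1 := height_le hy (T.ρ_mem w hpH)
  have hw' : -lor (ρ w p) y ≤ C := hw
  rw [lor_comm] at hw'
  exact h1.trans (mul_le_mul_of_nonneg_left hw' (by have := hy.2; positivity))

/-- **The covering theorem.** -/
theorem exists_mem_poly [Finite ι] {p : Mink d} (hpH : p ∈ Hyp d) (hp : ∀ j, lor p (e j) < 0)
    {y : Mink d} (hy : y ∈ Hyp d) : ∃ w : W, ∀ i, lor (ρ w⁻¹ y) (e i) ≤ 0 := by
  have hfin := T.finite_lor hpH hp hy (-lor p y)
  have hne : {w | -lor (ρ w p) y ≤ -lor p y}.Nonempty := ⟨1, by simp⟩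
  obtain ⟨w, hw, hmax⟩ := hfin.exists_maximalFor (fun w => lor (ρ w p) y) _ hne
  have hw' : -lor (ρ w p) y ≤ -lor p y := hw
  refine ⟨w, fun i => T.mem_of_max hp ?_⟩
  by_contra hcon
  push Not at hcon
  have h1 : w * cs.simple i ∈ {w | -lor (ρ w p) y ≤ -lor p y} := by
    show -lor (ρ (w * cs.simple i) p) y ≤ -lor p y
    linarith
  exact absurd (hmax h1 hcon.le) (not_le.2 hcon)

/-- stabilisers are finite -/
theorem finite_stab [Finite ι] {p x : Mink d} (hpH : p ∈ Hyp d) (hp : ∀ j, lor p (e j) < 0)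
    (hx : x ∈ Hyp d) : {w | ρ w x = x}.Finite := by
  refine (T.finite_lor hpH hp hx (-lor p x)).subset fun w hw => ?_
  have hw' : ρ w x = x := hw
  show -lor (ρ w p) x ≤ -lor p x
  rw [T.lor_ρ_left]
  have : ρ w⁻¹ x = x := by
    conv_lhs => rw [← hw']
    exact ρ_inv_ρ w x
  rw [this]

/-- a uniform bound on the number of tiles meeting a ball -/
theorem exists_card_tiles [Finite ι] {p : Mink d} (hpH : p ∈ Hyp d) (hp : ∀ j, lor p (e j) < 0)
    (hcomp : IsCompact {x : Mink d | x ∈ Hyp d ∧ ∀ i, lor x (e i) ≤ 0}) (R : ℝ) :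
    ∃ N : ℕ, ∀ x ∈ Hyp d, {w | ∃ y ∈ Hyp d, (∀ i, lor y (e i) ≤ 0) ∧
      -lor x (ρ w y) ≤ R}.Finite ∧ {w | ∃ y ∈ Hyp d, (∀ i, lor y (e i) ≤ 0) ∧
      -lor x (ρ w y) ≤ R}.ncard ≤ N := by
  obtain ⟨A, hA⟩ : ∃ A : ℝ, ∀ x : Mink d, x ∈ Hyp d → (∀ i, lor x (e i) ≤ 0) → x 0 ≤ A := by
    obtain ⟨A, hA⟩ := (hcomp.image (continuous_apply 0)).bddAbove
    exact ⟨A, fun x h1 h2 => hA ⟨x, ⟨h1, h2⟩, rfl⟩⟩
  obtain ⟨D, hD⟩ : ∃ D : ℝ, ∀ x : Mink d, x ∈ Hyp d → (∀ i, lor x (e i) ≤ 0) →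
      -lor x p ≤ D := by
    obtain ⟨D, hD⟩ := (hcomp.image (continuous_lor_left p).neg).bddAbove
    exact ⟨D, fun x h1 h2 => hD ⟨x, ⟨h1, h2⟩, rfl⟩⟩
  set C : ℝ := 2 * (2 * A * R) * D with hC
  have hfin := T.finite_height hpH hp C
  refine ⟨{w : W | (ρ w p) 0 ≤ C}.ncard, fun x hx => ?_⟩
  obtain ⟨v, hv⟩ := T.exists_mem_poly hpH hp hx
  have hx' : ρ v⁻¹ x ∈ Hyp d := T.ρ_mem _ hx
  have hsub : (fun w => v⁻¹ * w) '' {w | ∃ y ∈ Hyp d, (∀ i, lor y (e i) ≤ 0) ∧
      -lor x (ρ w y) ≤ R} ⊆ {w : W | (ρ w p) 0 ≤ C} := by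
    rintro _ ⟨w, ⟨y, hy, hyi, hyR⟩, rfl⟩
    show (ρ (v⁻¹ * w) p) 0 ≤ C
    have e1 : ∀ z, ρ (v⁻¹ * w) z = ρ v⁻¹ (ρ w z) := fun z => by
      rw [map_mul, LinearEquiv.mul_apply]
    have h1 := height_le hx' (T.ρ_mem (v⁻¹ * w) hy)
    have h2 := height_le (T.ρ_mem (v⁻¹ * w) hy) (T.ρ_mem (v⁻¹ * w) hpH)
    rw [e1 y, T.lor_ρ] at h1
    rw [T.lor_ρ] at h2
    have h3 := hA _ hx' hv
    have h4 := hD y hy hyi
    have h5 := one_le_neg_lor hx (T.ρ_mem w hy)
    have h6 := one_le_neg_lor hy hpH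
    have h7 := one_le_height hx'
    have h8 : (ρ (v⁻¹ * w) y) 0 ≤ 2 * A * R := by
      rw [e1]
      calc (ρ v⁻¹ (ρ w y)) 0 ≤ 2 * (ρ v⁻¹ x) 0 * -lor x (ρ w y) := h1
        _ ≤ 2 * A * R := by
          apply mul_le_mul (by linarith) hyR (by linarith) (by linarith)
    have h9 := one_le_height (T.ρ_mem (v⁻¹ * w) hy)
    calc (ρ (v⁻¹ * w) p) 0 ≤ 2 * (ρ (v⁻¹ * w) y) 0 * -lor y p := h2
      _ ≤ 2 * (2 * A * R) * D := by
        apply mul_le_mul (by linarith) h4 (by linarith) (by linarith)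
  have hinj : Function.Injective (fun w : W => v⁻¹ * w) := mul_right_injective _
  have hf : {w | ∃ y ∈ Hyp d, (∀ i, lor y (e i) ≤ 0) ∧ -lor x (ρ w y) ≤ R}.Finite :=
    Set.Finite.of_finite_image (hfin.subset hsub) hinj.injOn
  refine ⟨hf, ?_⟩
  rw [← Set.ncard_image_of_injective _ hinj]
  exact Set.ncard_le_ncard hsub hfin

/-- local finiteness of the tiling -/
theorem finite_tiles [Finite ι] {p : Mink d} (hpH : p ∈ Hyp d) (hp : ∀ j, lor p (e j) < 0)
    (hcomp : IsCompact {x : Mink d | x ∈ Hyp d ∧ ∀ i, lor x (e i) ≤ 0}) (C : ℝ) :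
    {w | ∃ y ∈ Hyp d, (∀ i, lor y (e i) ≤ 0) ∧ (ρ w y) 0 ≤ C}.Finite := by
  obtain ⟨D, hD⟩ : ∃ D : ℝ, ∀ x : Mink d, x ∈ Hyp d → (∀ i, lor x (e i) ≤ 0) →
      -lor x p ≤ D := by
    obtain ⟨D, hD⟩ := (hcomp.image (continuous_lor_left p).neg).bddAbove
    exact ⟨D, fun x h1 h2 => hD ⟨x, ⟨h1, h2⟩, rfl⟩⟩
  refine (T.finite_height hpH hp (2 * C * D)).subset ?_
  rintro w ⟨y, hy, hyi, hyC⟩
  have h2 := height_le (T.ρ_mem w hy) (T.ρ_mem w hpH)
  rw [T.lor_ρ] at h2
  have h4 := hD y hy hyi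
  have h6 := one_le_neg_lor hy hpH
  have h9 := one_le_height (T.ρ_mem w hy)
  calc (ρ w p) 0 ≤ 2 * (ρ w y) 0 * -lor y p := h2
    _ ≤ 2 * C * D := by
      apply mul_le_mul (by linarith) h4 (by linarith) (by linarith)

end TitsRep

end group

end BD.Cov
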