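import Pool.Agent.Work.MP_de2d29_al.HypT
import Pool.Agent.Work.MP_de2d29_al.Tits

/-!
BUILDING, block B: the reflection group of a Coxeter polytope acts on hyperbolic space.
-/

set_option autoImplicit false

open Set

namespace BD

open Pool.Agent.Work.MP_de2d29_al

variable {d : ℕ}

/-- the Lorentz form as a bilinear form -/
noncomputable def lorB (d : ℕ) : LinearMap.BilinForm ℝ (Mink d) :=
  LinearMap.mk₂ ℝ lor
    (fun x y z => by
      simp only [lor, Pi.add_apply, add_mul, Finset.sum_add_distrib]; ring)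
    (fun c x y => by
      simp only [lor, Pi.smul_apply, smul_eq_mul, mul_assoc, ← Finset.mul_sum]; ring)
    (fun x y z => by
      simp only [lor, Pi.add_apply, mul_add, Finset.sum_add_distrib]; ring)
    (fun c x y => by
      simp only [lor, Pi.smul_apply, smul_eq_mul, mul_left_comm _ c, ← Finset.mul_sum]; ring)

@[simp] theorem lorB_apply (x y : Mink d) : lorB d x y = lor x y := rfl

theorem lor_sum_left {κ : Type*} (s : Finset κ) (f : κ → Mink d) (y : Mink d) :
    lor (∑ i ∈ s, f i) y = ∑ i ∈ s, lor (f i) y := by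
  rw [lor_symm, ← lorB_apply, map_sum]
  exact Finset.sum_congr rfl fun i _ => by rw [lorB_apply, lor_symm]

/-! ### Reverse Cauchy-Schwarz -/

theorem sum_sq_of_Hyp {x : Mink d} (hx : x ∈ Hyp d) : ∑ i : Fin d, x i.succ ^ 2 = x 0 ^ 2 - 1 := by
  have h := hx.1
  unfold lor at h
  have : ∑ i : Fin d, x i.succ ^ 2 = ∑ i : Fin d, x i.succ * x i.succ :=
    Finset.sum_congr rfl fun i _ => sq _
  rw [this]
  linarith

/-- reverse Cauchy-Schwarz inequality on the hyperboloid -/
theorem lor_le_neg_one {x y : Mink d} (hx : x ∈ Hyp d) (hy : y ∈ Hyp d) : lor x y ≤ -1 := by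
  have h1 := Finset.sum_mul_sq_le_sq_mul_sq Finset.univ (fun i : Fin d => x i.succ)
    (fun i : Fin d => y i.succ)
  rw [sum_sq_of_Hyp hx, sum_sq_of_Hyp hy] at h1
  have hx1 : 1 ≤ x 0 ^ 2 := by
    have : 0 ≤ ∑ i : Fin d, x i.succ ^ 2 := Finset.sum_nonneg fun i _ => sq_nonneg _
    rw [sum_sq_of_Hyp hx] at this
    linarith
  have hy1 : 1 ≤ y 0 ^ 2 := by
    have : 0 ≤ ∑ i : Fin d, y i.succ ^ 2 := Finset.sum_nonneg fun i _ => sq_nonneg _
    rw [sum_sq_of_Hyp hy] at this
    linarith
  have hx0 : 1 ≤ x 0 := by nlinarith [hx.2]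
  have hy0 : 1 ≤ y 0 := by nlinarith [hy.2]
  have h2 : (∑ i : Fin d, x i.succ * y i.succ) ^ 2 ≤ (x 0 * y 0 - 1) ^ 2 := by
    refine h1.trans ?_
    nlinarith [sq_nonneg (x 0 - y 0)]
  have h3 : 0 ≤ x 0 * y 0 - 1 := by nlinarith
  have h4 := abs_le_of_sq_le_sq' h2 h3
  unfold lor
  linarith [h4.2]

theorem lor_neg {x y : Mink d} (hx : x ∈ Hyp d) (hy : y ∈ Hyp d) : lor x y < 0 :=
  lt_of_le_of_lt (lor_le_neg_one hx hy) (by norm_num)

/-- a unit timelike vector which has negative product with a point of the hyperboloid is a point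
of the hyperboloid -/
theorem mem_Hyp_of_lor {x y : Mink d} (hx : x ∈ Hyp d) (hy : lor y y = -1) (hxy : lor x y < 0) :
    y ∈ Hyp d := by
  refine ⟨hy, ?_⟩
  by_contra hcon
  rcases lt_or_eq_of_le (not_lt.1 hcon) with h0 | h0
  · have hy' : -y ∈ Hyp d := by
      refine ⟨by rw [lor_neg_left, lor_neg_right, neg_neg, hy], ?_⟩
      rw [Pi.neg_apply]; linarith
    have := lor_neg hx hy'
    rw [lor_neg_right] at this
    linarith
  · have h1 : 0 ≤ lor y y := by
      unfold lor
      rw [h0, mul_zero, sub_zero]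
      exact Finset.sum_nonneg fun i _ => mul_self_nonneg _
    linarith

theorem refl_mem_Hyp {a x : Mink d} (ha : lor a a = 1) (hx : x ∈ Hyp d) : refl a x ∈ Hyp d := by
  have h1 : lor (refl a x) (refl a x) = -1 := by
    unfold refl
    simp only [lor_sub_left, lor_sub_right, lor_smul_left, lor_smul_right, ha, hx.1, lor_symm a x]
    ring
  refine mem_Hyp_of_lor hx h1 ?_
  unfold refl
  rw [lor_sub_right, lor_smul_right, hx.1]
  nlinarith [sq_nonneg (lor x a)]

/-! ### The representation -/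

variable {ι : Type} {M : CoxeterMatrix ι} {e : ι → Mink d}

theorem CoxPoly.rootBasis (h : CoxPoly M e) : RootBasis M (lorB d) e where
  symm := fun x y => lor_symm x y
  fin := fun s t hst => by
    by_cases hs : s = t
    · subst hs
      rw [lorB_apply, h.unit]
      simp
    · exact h.fin s t hs hst
  inf := fun s t hst => h.inf s t hst

/-- the action of the Coxeter group on Minkowski space -/
noncomputable def CoxPoly.rep (h : CoxPoly M e) : M.Group →* (Mink d ≃ₗ[ℝ] Mink d) :=
  h.rootBasis.rho M.toCoxeterSystem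

namespace CoxPoly

theorem rep_simple (h : CoxPoly M e) (i : ι) (x : Mink d) :
    h.rep (M.simple i) x = refl (e i) x := by
  have := h.rootBasis.rho_simple_apply M.toCoxeterSystem i x
  rw [M.toCoxeterSystem_simple] at this
  rw [rep, this, lorB_apply, lor_symm]
  rfl

theorem rep_mul (h : CoxPoly M e) (w w' : M.Group) (x : Mink d) :
    h.rep (w * w') x = h.rep w (h.rep w' x) := h.rootBasis.rho_mul _ w w' x

@[simp] theorem rep_one (h : CoxPoly M e) (x : Mink d) : h.rep 1 x = x :=
  h.rootBasis.rho_one M.toCoxeterSystem x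

theorem rep_inv_apply (h : CoxPoly M e) (w : M.Group) (x : Mink d) :
    h.rep w⁻¹ (h.rep w x) = x := h.rootBasis.rho_inv_apply _ w x

theorem rep_apply_inv (h : CoxPoly M e) (w : M.Group) (x : Mink d) :
    h.rep w (h.rep w⁻¹ x) = x := h.rootBasis.rho_apply_inv _ w x

theorem lor_rep (h : CoxPoly M e) (w : M.Group) (x y : Mink d) :
    lor (h.rep w x) (h.rep w y) = lor x y := h.rootBasis.B_rho M.toCoxeterSystem w x y

theorem lor_rep_left (h : CoxPoly M e) (w : M.Group) (x y : Mink d) :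
    lor (h.rep w x) y = lor x (h.rep w⁻¹ y) := h.rootBasis.B_rho_left M.toCoxeterSystem w x y

theorem lor_rep_right (h : CoxPoly M e) (w : M.Group) (x y : Mink d) :
    lor x (h.rep w y) = lor (h.rep w⁻¹ x) y := by
  rw [lor_rep_left, inv_inv]

theorem hdist_rep (h : CoxPoly M e) (w : M.Group) (x y : Mink d) :
    hdist (h.rep w x) (h.rep w y) = hdist x y := by
  unfold hdist
  rw [lor_rep]

theorem simple_induction {p : M.Group → Prop} (one : p 1)
    (mul : ∀ i w, p w → p (M.simple i * w)) (w : M.Group) : p w :=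
  RootBasis.simple_induction M.toCoxeterSystem one mul w

theorem rep_mem_Hyp (h : CoxPoly M e) (w : M.Group) {x : Mink d} (hx : x ∈ Hyp d) :
    h.rep w x ∈ Hyp d := by
  induction w using simple_induction with
  | one => rwa [rep_one]
  | mul i w ih =>
    rw [rep_mul, rep_simple]
    exact refl_mem_Hyp (h.unit i) ih

theorem rep_mem_Hyp_iff (h : CoxPoly M e) (w : M.Group) {x : Mink d} :
    h.rep w x ∈ Hyp d ↔ x ∈ Hyp d :=
  ⟨fun hx => by have := h.rep_mem_Hyp w⁻¹ hx; rwa [rep_inv_apply] at this, h.rep_mem_Hyp w⟩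

theorem mem_Dom {x : Mink d} (hx : x ∈ poly e) : x ∈ RootBasis.Dom (lorB d) e := hx.2

/-- the facets containing a point -/
def _root_.BD.wallsOf (e : ι → Mink d) (x : Mink d) : Set ι := {i | lor x (e i) = 0}

/-- the standard parabolic subgroup `W_J` -/
def _root_.BD.parab (M : CoxeterMatrix ι) (J : Set ι) : Subgroup M.Group :=
  Subgroup.closure (M.simple '' J)

theorem _root_.BD.simple_mem_parab {J : Set ι} {i : ι} (hi : i ∈ J) : M.simple i ∈ parab M J :=
  Subgroup.subset_closure ⟨i, hi, rfl⟩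

theorem parab_fix (h : CoxPoly M e) {x : Mink d} {w : M.Group} (hw : w ∈ parab M (wallsOf e x)) :
    h.rep w x = x := h.rootBasis.par_fix M.toCoxeterSystem hw

/-- the polytope is a fundamental domain -/
theorem fundamental (h : CoxPoly M e) {x : Mink d} (hx : x ∈ poly e) (w : M.Group)
    (hw : h.rep w x ∈ poly e) : h.rep w x = x ∧ w ∈ parab M (wallsOf e x) :=
  h.rootBasis.fundamental M.toCoxeterSystem (mem_Dom hx) w hw.2

theorem fix_iff (h : CoxPoly M e) {x : Mink d} (hx : x ∈ poly e) (w : M.Group) :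
    h.rep w x = x ↔ w ∈ parab M (wallsOf e x) :=
  h.rootBasis.fix_iff M.toCoxeterSystem (mem_Dom hx) w

/-- two translates of points of the polytope coincide iff the points coincide and the group
elements differ by an element of the stabiliser -/
theorem rep_eq_iff (h : CoxPoly M e) {x y : Mink d} (hx : x ∈ poly e) (hy : y ∈ poly e)
    (w w' : M.Group) : h.rep w x = h.rep w' y ↔ x = y ∧ w⁻¹ * w' ∈ parab M (wallsOf e x) := by
  constructor
  · intro heq
    have h1 : h.rep (w⁻¹ * w') y = x := by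
      rw [rep_mul, ← heq, rep_inv_apply]
    obtain ⟨h2, h3⟩ := h.fundamental hy (w⁻¹ * w') (by rw [h1]; exact hx)
    rw [h1] at h2
    subst h2
    exact ⟨rfl, h3⟩
  · rintro ⟨rfl, h1⟩
    have h2 := h.parab_fix h1
    rw [rep_mul] at h2
    conv_lhs => rw [← h2]
    rw [rep_apply_inv]

theorem eq_one_of_mem (h : CoxPoly M e) {x : Mink d} (hx : ∀ i, lor x (e i) < 0) (w : M.Group)
    (hw : ∀ i, lor (h.rep w x) (e i) ≤ 0) : w = 1 :=
  h.rootBasis.eq_one_of_mem M.toCoxeterSystem hx w hw

theorem faithful (h : CoxPoly M e) : Function.Injective h.rep := by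
  obtain ⟨x, -, hx⟩ := h.inter
  exact h.rootBasis.faithful M.toCoxeterSystem ⟨x, hx⟩

/-! ### Sides of walls and descents -/

/-- `w P` is on the far side of the wall of `i` iff `i` is a left descent of `w` -/
theorem left_gt_iff (h : CoxPoly M e) {w : M.Group} {i : ι} {x : Mink d}
    (hx : ∀ j, lor x (e j) < 0) :
    0 < lor (h.rep w x) (e i) ↔ M.toCoxeterSystem.IsLeftDescent w i :=
  h.rootBasis.left_gt_iff M.toCoxeterSystem hx

theorem left_lt_iff (h : CoxPoly M e) {w : M.Group} {i : ι} {x : Mink d}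
    (hx : ∀ j, lor x (e j) < 0) :
    lor (h.rep w x) (e i) < 0 ↔ ¬ M.toCoxeterSystem.IsLeftDescent w i :=
  h.rootBasis.left_lt_iff M.toCoxeterSystem hx

theorem left_le (h : CoxPoly M e) {w : M.Group} {i : ι} {x : Mink d}
    (hx : ∀ j, lor x (e j) ≤ 0) (hi : ¬ M.toCoxeterSystem.IsLeftDescent w i) :
    lor (h.rep w x) (e i) ≤ 0 := h.rootBasis.left_le M.toCoxeterSystem hx hi

theorem left_ge (h : CoxPoly M e) {w : M.Group} {i : ι} {x : Mink d}
    (hx : ∀ j, lor x (e j) ≤ 0) (hi : M.toCoxeterSystem.IsLeftDescent w i) :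
    0 ≤ lor (h.rep w x) (e i) := h.rootBasis.left_ge M.toCoxeterSystem hx hi

/-- the wall of the panel `i` of `w P`: seen from `x ∈ P` -/
theorem right_lt_iff (h : CoxPoly M e) {w : M.Group} {i : ι} {x : Mink d}
    (hx : ∀ j, lor x (e j) < 0) :
    lor x (h.rep w (e i)) < 0 ↔ ¬ M.toCoxeterSystem.IsRightDescent w i :=
  h.rootBasis.side_lt_iff M.toCoxeterSystem hx

theorem right_gt_iff (h : CoxPoly M e) {w : M.Group} {i : ι} {x : Mink d}
    (hx : ∀ j, lor x (e j) < 0) :
    0 < lor x (h.rep w (e i)) ↔ M.toCoxeterSystem.IsRightDescent w i :=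
  h.rootBasis.side_gt_iff M.toCoxeterSystem hx

theorem right_le (h : CoxPoly M e) {w : M.Group} {i : ι} {x : Mink d}
    (hx : ∀ j, lor x (e j) ≤ 0) (hi : ¬ M.toCoxeterSystem.IsRightDescent w i) :
    lor x (h.rep w (e i)) ≤ 0 := h.rootBasis.side_le M.toCoxeterSystem hx hi

theorem right_ge (h : CoxPoly M e) {w : M.Group} {i : ι} {x : Mink d}
    (hx : ∀ j, lor x (e j) ≤ 0) (hi : M.toCoxeterSystem.IsRightDescent w i) :
    0 ≤ lor x (h.rep w (e i)) := h.rootBasis.side_ge M.toCoxeterSystem hx hi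

end CoxPoly

end BD
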