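import Pool.Agent.Work.MP_de2d29_al.Cover
import Pool.Agent.Work.MP_de2d29_al.Rep

/-!
# The tiling of hyperbolic space by the translates of a Coxeter polytope

The theorems of `Cover.lean` for the representation `CoxPoly.rep`.
-/

set_option autoImplicit false

open Set

namespace BD

variable {d : ℕ} {ι : Type} {M : CoxeterMatrix ι} {e : ι → Mink d}

namespace CoxPoly

theorem titsRep (h : CoxPoly M e) : Cov.TitsRep M.toCoxeterSystem e h.rep where
  unit := h.unit
  simple := fun i x => by rw [M.toCoxeterSystem_simple, rep_simple]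
  sign := fun w i hi p hp => (h.left_gt_iff hp).2 hi

/-- **The covering theorem**: the translates of the polytope cover hyperbolic space. -/
theorem cover [Finite ι] (h : CoxPoly M e) {y : Mink d} (hy : y ∈ Hyp d) :
    ∃ w : M.Group, ∃ x ∈ poly e, h.rep w x = y := by
  obtain ⟨p, hpH, hp⟩ := h.inter
  obtain ⟨w, hw⟩ := h.titsRep.exists_mem_poly hpH hp hy
  exact ⟨w, h.rep w⁻¹ y, ⟨h.rep_mem_Hyp _ hy, hw⟩, h.rep_apply_inv w y⟩

theorem cover_inv [Finite ι] (h : CoxPoly M e) {y : Mink d} (hy : y ∈ Hyp d) :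
    ∃ w : M.Group, h.rep w⁻¹ y ∈ poly e := by
  obtain ⟨w, x, hx, rfl⟩ := h.cover hy
  exact ⟨w, by rwa [rep_inv_apply]⟩

/-- stabilisers are finite -/
theorem finite_stab [Finite ι] (h : CoxPoly M e) {x : Mink d} (hx : x ∈ Hyp d) :
    {w : M.Group | h.rep w x = x}.Finite := by
  obtain ⟨p, hpH, hp⟩ := h.inter
  exact h.titsRep.finite_stab hpH hp hx

theorem finite_parab [Finite ι] (h : CoxPoly M e) {x : Mink d} (hx : x ∈ Hyp d) :
    (parab M (wallsOf e x) : Set M.Group).Finite :=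
  (h.finite_stab hx).subset fun _ hw => h.parab_fix hw

/-- the chamber of a finite parabolic subgroup is a fundamental domain on the whole space -/
theorem exists_parab_chamber (h : CoxPoly M e) {J : Set ι}
    (hJ : (parab M J : Set M.Group).Finite) (y : Mink d) :
    ∃ w ∈ parab M J, ∀ i ∈ J, lor (h.rep w⁻¹ y) (e i) ≤ 0 := by
  obtain ⟨p, hpH, hp⟩ := h.inter
  refine h.titsRep.exists_mem_of_finite hp hJ ⟨1, one_mem _⟩ (J := J) (fun w hw i hi => ?_) y
  rw [M.toCoxeterSystem_simple]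
  exact mul_mem hw (simple_mem_parab hi)

/-- the chamber of the link at a point of the polytope -/
theorem exists_link_chamber [Finite ι] (h : CoxPoly M e) {x : Mink d} (hx : x ∈ Hyp d)
    (y : Mink d) : ∃ w ∈ parab M (wallsOf e x), ∀ i ∈ wallsOf e x, lor (h.rep w⁻¹ y) (e i) ≤ 0 :=
  h.exists_parab_chamber (h.finite_parab hx) y

/-- a uniform bound on the number of tiles meeting a ball -/
theorem exists_card_tiles [Finite ι] (h : CoxPoly M e) (R : ℝ) :
    ∃ N : ℕ, ∀ x ∈ Hyp d, {w : M.Group | ∃ y ∈ poly e, -lor x (h.rep w y) ≤ R}.Finite ∧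
      {w : M.Group | ∃ y ∈ poly e, -lor x (h.rep w y) ≤ R}.ncard ≤ N := by
  obtain ⟨p, hpH, hp⟩ := h.inter
  obtain ⟨N, hN⟩ := h.titsRep.exists_card_tiles hpH hp h.compact R
  refine ⟨N, fun x hx => ?_⟩
  have := hN x hx
  simpa only [poly, mem_ofPred_eq, and_assoc] using this

/-- a uniform bound on the number of tiles meeting a ball -/
theorem exists_card_tiles_dist [Finite ι] (h : CoxPoly M e) (R : ℝ) :
    ∃ N : ℕ, ∀ x ∈ Hyp d, {w : M.Group | ∃ y ∈ poly e, hdist x (h.rep w y) ≤ R}.Finite ∧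
      {w : M.Group | ∃ y ∈ poly e, hdist x (h.rep w y) ≤ R}.ncard ≤ N := by
  obtain ⟨N, hN⟩ := h.exists_card_tiles (Real.cosh R)
  refine ⟨N, fun x hx => ?_⟩
  have hsub : {w : M.Group | ∃ y ∈ poly e, hdist x (h.rep w y) ≤ R} ⊆
      {w : M.Group | ∃ y ∈ poly e, -lor x (h.rep w y) ≤ Real.cosh R} := by
    rintro w ⟨y, hy, hyR⟩
    refine ⟨y, hy, ?_⟩
    have h1 := Cov.one_le_neg_lor hx (h.rep_mem_Hyp w hy.1)
    rw [← Real.cosh_arcosh h1]
    apply Real.cosh_le_cosh.2
    have h2 : 0 ≤ Real.arcosh (-lor x (h.rep w y)) := Real.arcosh_nonneg h1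
    have h3 : Real.arcosh (-lor x (h.rep w y)) ≤ R := hyR
    rw [abs_of_nonneg h2, abs_of_nonneg (h2.trans h3)]
    exact h3
  exact ⟨(hN x hx).1.subset hsub, (Set.ncard_le_ncard hsub (hN x hx).1).trans (hN x hx).2⟩

/-- local finiteness of the tiling -/
theorem finite_tiles [Finite ι] (h : CoxPoly M e) (C : ℝ) :
    {w : M.Group | ∃ y ∈ poly e, (h.rep w y) 0 ≤ C}.Finite := by
  obtain ⟨p, hpH, hp⟩ := h.inter
  have := h.titsRep.finite_tiles hpH hp h.compact C
  simpa only [poly, mem_ofPred_eq, and_assoc] using this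

/-- the polytope is bounded -/
theorem exists_bound (h : CoxPoly M e) :
    ∃ D : ℝ, 1 ≤ D ∧ ∀ x ∈ poly e, ∀ y ∈ poly e, -lor x y ≤ D := by
  obtain ⟨D, hD⟩ := ((h.compact.prod h.compact).image Cov.continuous_lor.neg).bddAbove
  refine ⟨max D 1, le_max_right _ _, fun x hx y hy => le_max_of_le_left ?_⟩
  exact hD ⟨(x, y), ⟨hx, hy⟩, rfl⟩

theorem exists_diam (h : CoxPoly M e) :
    ∃ D : ℝ, 0 ≤ D ∧ ∀ x ∈ poly e, ∀ y ∈ poly e, hdist x y ≤ D := by
  obtain ⟨D, hD1, hD⟩ := h.exists_bound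
  refine ⟨Real.arcosh D, Real.arcosh_nonneg hD1, fun x hx y hy => ?_⟩
  have h1 := Cov.one_le_neg_lor hx.1 hy.1
  exact (Real.arcosh_le_arcosh (by linarith) (by linarith)).2 (hD x hx y hy)

end CoxPoly

end BD
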