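import Pool.Agent.Work.MP_de2d29_al.Tits

/-!
BUILDING, block B: combinatorics of Coxeter groups (any Coxeter matrix), from the lemma of Tits in
the standard representation: descents in parabolic subgroups, minimal coset representatives,
elements with all descents, longest elements, exchange condition.
-/

set_option autoImplicit false

open Real

namespace Pool.Agent.Work.MP_de2d29_al

variable {S : Type*}

/-! ### The standard root basis -/

section std

variable (M : CoxeterMatrix S)

/-- the Gram matrix of the standard representation -/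
noncomputable def gram (i j : S) : ℝ := if M i j = 0 then -1 else -cos (π / M i j)

theorem gram_symm (i j : S) : gram M i j = gram M j i := by
  simp [gram, M.symmetric i j]

/-- the standard bilinear form -/
noncomputable def stdB : LinearMap.BilinForm ℝ (S →₀ ℝ) :=
  Finsupp.linearCombination ℝ fun i => Finsupp.linearCombination ℝ (gram M i)

theorem stdB_single (i j : S) :
    stdB M (Finsupp.single i 1) (Finsupp.single j 1) = gram M i j := by
  simp [stdB]

theorem stdB_symm (x y : S →₀ ℝ) : stdB M x y = stdB M y x := by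
  have h : stdB M = (stdB M).flip := by
    refine Finsupp.lhom_ext' fun i => LinearMap.ext_ring ?_
    refine Finsupp.lhom_ext' fun j => LinearMap.ext_ring ?_
    change stdB M (Finsupp.single i 1) (Finsupp.single j 1) =
      stdB M (Finsupp.single j 1) (Finsupp.single i 1)
    rw [stdB_single, stdB_single]
    exact gram_symm M i j
  conv_lhs => rw [h]
  rfl

/-- the simple roots of the standard representation -/
noncomputable def stdE (S : Type*) (i : S) : S →₀ ℝ := Finsupp.single i 1

theorem stdE_self (i : S) : stdE S i i = 1 := by simp [stdE]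

theorem stdE_ne {i j : S} (h : i ≠ j) : stdE S j i = 0 := by
  rw [stdE, Finsupp.single_eq_of_ne h]

theorem stdRoot : RootBasis M (stdB M) (stdE S) where
  symm := stdB_symm M
  fin := fun s t h => by simp [stdE, stdB_single, gram, h]
  inf := fun s t h => by simp [stdE, stdB_single, gram, h]

theorem mem_cone_std {v : S →₀ ℝ} : v ∈ RootBasis.cone (stdE S) ↔ ∀ i, 0 ≤ v i := by
  constructor
  · intro hv i
    induction hv using Submodule.span_induction with
    | mem x hx =>
      obtain ⟨j, rfl⟩ := hx
      classical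
      rw [stdE, Finsupp.single_apply]
      split_ifs <;> norm_num
    | zero => simp
    | add x y _ _ hx hy => rw [Finsupp.add_apply]; linarith
    | smul a x _ hx =>
      have : (a • x) i = (a : ℝ) * x i := rfl
      rw [this]
      exact mul_nonneg a.2 hx
  · intro hv
    have : v = v.sum fun i c => c • stdE S i := by
      conv_lhs => rw [← Finsupp.sum_single v]
      refine Finsupp.sum_congr fun i _ => ?_
      rw [stdE, Finsupp.smul_single, smul_eq_mul, mul_one]
    rw [this]
    refine Submodule.sum_mem _ fun i _ => ?_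
    exact RootBasis.cone_smul (hv i) (RootBasis.mem_cone i)

end std

namespace Cox

variable {M : CoxeterMatrix S} {W : Type*} [Group W] (cs : CoxeterSystem M W)

/-- the standard representation -/
noncomputable def geo : W →* ((S →₀ ℝ) ≃ₗ[ℝ] (S →₀ ℝ)) := (stdRoot M).rho cs

theorem geo_mul (w w' : W) (x : S →₀ ℝ) : geo cs (w * w') x = geo cs w (geo cs w' x) :=
  (stdRoot M).rho_mul cs w w' x

theorem geo_simple (s : S) (x : S →₀ ℝ) :
    geo cs (cs.simple s) x = x - (2 * stdB M (stdE S s) x) • stdE S s :=
  (stdRoot M).rho_simple_apply cs s x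

theorem geo_ne_zero (w : W) (s : S) : geo cs w (stdE S s) ≠ 0 :=
  (stdRoot M).rho_ne_zero cs w s

/-- a positive root -/
def Pos (v : S →₀ ℝ) : Prop := ∀ i, 0 ≤ v i

theorem pos_of_not_descent {w : W} {s : S} (h : ¬ cs.IsRightDescent w s) :
    Pos (geo cs w (stdE S s)) := mem_cone_std.1 ((stdRoot M).tits cs h)

theorem neg_of_descent {w : W} {s : S} (h : cs.IsRightDescent w s) :
    Pos (-geo cs w (stdE S s)) := mem_cone_std.1 ((stdRoot M).tits_neg cs h)

theorem not_pos_neg {v : S →₀ ℝ} (hv : v ≠ 0) (h1 : Pos v) (h2 : Pos (-v)) : False := by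
  apply hv
  ext i
  have h3 := h1 i
  have h4 := h2 i
  rw [Finsupp.neg_apply] at h4
  rw [Finsupp.zero_apply]
  linarith

theorem descent_iff {w : W} {s : S} :
    cs.IsRightDescent w s ↔ Pos (-geo cs w (stdE S s)) :=
  ⟨neg_of_descent cs, fun h => by
    by_contra h1
    exact not_pos_neg (geo_ne_zero cs w s) (pos_of_not_descent cs h1) h⟩

theorem not_descent_iff {w : W} {s : S} :
    ¬ cs.IsRightDescent w s ↔ Pos (geo cs w (stdE S s)) :=
  ⟨pos_of_not_descent cs, fun h h1 => not_pos_neg (geo_ne_zero cs w s) h (neg_of_descent cs h1)⟩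

/-! ### Parabolic subgroups -/

/-- the standard parabolic subgroup `W_J` -/
abbrev par (J : Set S) : Subgroup W := RootBasis.par cs J

theorem simple_mem_par {J : Set S} {s : S} (hs : s ∈ J) : cs.simple s ∈ par cs J :=
  RootBasis.simple_mem_par cs hs

/-- induction in `W_J` by multiplication with simple reflections from the right -/
theorem par_induction {J : Set S} {p : W → Prop} (one : p 1)
    (mul : ∀ u ∈ par cs J, ∀ s ∈ J, p u → p (u * cs.simple s)) {u : W} (hu : u ∈ par cs J) :
    p u := by
  induction hu using Subgroup.closure_induction_right with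
  | one => exact one
  | mul_right x hx y hy ih =>
    obtain ⟨s, hs, rfl⟩ := hy
    exact mul x hx s hs ih
  | mul_inv_cancel x hx y hy ih =>
    obtain ⟨s, hs, rfl⟩ := hy
    rw [cs.inv_simple]
    exact mul x hx s hs ih

/-- the span of the simple roots of `J` -/
def Supp (J : Set S) (v : S →₀ ℝ) : Prop := ∀ i, i ∉ J → v i = 0

theorem geo_supp {J : Set S} {u : W} (hu : u ∈ par cs J) {v : S →₀ ℝ} (hv : Supp J v) :
    Supp J (geo cs u v) := by
  revert v
  induction hu using Subgroup.closure_induction_right with
  | one => intro v hv; simpa [geo] using hv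
  | mul_right x hx y hy ih =>
    intro v hv
    obtain ⟨s, hs, rfl⟩ := hy
    rw [geo_mul]
    refine ih fun i hi => ?_
    rw [geo_simple, Finsupp.sub_apply, hv i hi, Finsupp.smul_apply,
      stdE_ne (fun h => hi (by rw [h]; exact hs))]
    simp
  | mul_inv_cancel x hx y hy ih =>
    intro v hv
    obtain ⟨s, hs, rfl⟩ := hy
    rw [cs.inv_simple, geo_mul]
    refine ih fun i hi => ?_
    rw [geo_simple, Finsupp.sub_apply, hv i hi, Finsupp.smul_apply,
      stdE_ne (fun h => hi (by rw [h]; exact hs))]
    simp

theorem supp_stdE {J : Set S} {s : S} (hs : s ∈ J) : Supp J (stdE S s) := fun i hi =>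
  stdE_ne fun h => hi (by rw [h]; exact hs)

/-- a positive vector supported in `J` is sent to a positive vector by `w` if `w` sends the simple
roots of `J` to positive vectors -/
theorem pos_geo {J : Set S} {w : W} (hw : ∀ j ∈ J, Pos (geo cs w (stdE S j))) {v : S →₀ ℝ}
    (hv : Pos v) (hJ : Supp J v) : Pos (geo cs w v) := by
  have : v = v.sum fun i c => c • stdE S i := by
    conv_lhs => rw [← Finsupp.sum_single v]
    refine Finsupp.sum_congr fun i _ => ?_
    rw [stdE, Finsupp.smul_single, smul_eq_mul, mul_one]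
  rw [this, Finsupp.sum, map_sum]
  intro i
  rw [Finsupp.finsetSum_apply]
  refine Finset.sum_nonneg fun j hj => ?_
  rw [map_smul, Finsupp.smul_apply, smul_eq_mul]
  have hjJ : j ∈ J := by
    by_contra h
    exact (Finsupp.mem_support_iff.1 hj) (hJ j h)
  exact mul_nonneg (hv j) (hw j hjJ i)

theorem neg_geo {J : Set S} {w : W} (hw : ∀ j ∈ J, Pos (-geo cs w (stdE S j))) {v : S →₀ ℝ}
    (hv : Pos v) (hJ : Supp J v) : Pos (-geo cs w v) := by
  have : v = v.sum fun i c => c • stdE S i := by
    conv_lhs => rw [← Finsupp.sum_single v]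
    refine Finsupp.sum_congr fun i _ => ?_
    rw [stdE, Finsupp.smul_single, smul_eq_mul, mul_one]
  rw [this, Finsupp.sum, map_sum, ← Finset.sum_neg_distrib]
  intro i
  rw [Finsupp.finsetSum_apply]
  refine Finset.sum_nonneg fun j hj => ?_
  rw [map_smul, ← smul_neg, Finsupp.smul_apply, smul_eq_mul]
  have hjJ : j ∈ J := by
    by_contra h
    exact (Finsupp.mem_support_iff.1 hj) (hJ j h)
  exact mul_nonneg (hv j) (hw j hjJ i)

theorem supp_neg {J : Set S} {v : S →₀ ℝ} (h : Supp J v) : Supp J (-v) := fun i hi => by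
  rw [Finsupp.neg_apply, h i hi, neg_zero]

/-- If `w` has no right descent in `J`, the right descents of `w u` in `J` are those of `u`. -/
theorem descent_mul_iff {J : Set S} {w : W} (hw : ∀ j ∈ J, ¬ cs.IsRightDescent w j) {u : W}
    (hu : u ∈ par cs J) {s : S} (hs : s ∈ J) :
    cs.IsRightDescent (w * u) s ↔ cs.IsRightDescent u s := by
  have hw' : ∀ j ∈ J, Pos (geo cs w (stdE S j)) := fun j hj => pos_of_not_descent cs (hw j hj)
  have hJ := geo_supp cs hu (supp_stdE hs)
  by_cases h : cs.IsRightDescent u s
  · refine ⟨fun _ => h, fun _ => ?_⟩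
    rw [descent_iff, geo_mul, ← map_neg]
    exact pos_geo cs hw' (neg_of_descent cs h) (supp_neg hJ)
  · refine ⟨fun h1 => ?_, fun h1 => absurd h1 h⟩
    exfalso
    refine (not_descent_iff cs).2 ?_ h1
    rw [geo_mul]
    exact pos_geo cs hw' (pos_of_not_descent cs h) hJ

/-- **Minimal coset representatives**: if `w` has no right descent in `J` then
`l(w u) = l(w) + l(u)` for `u ∈ W_J`. -/
theorem length_mul_of_min {J : Set S} {w : W} (hw : ∀ j ∈ J, ¬ cs.IsRightDescent w j) {u : W}
    (hu : u ∈ par cs J) : cs.length (w * u) = cs.length w + cs.length u := by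
  refine par_induction cs (p := fun u => cs.length (w * u) = cs.length w + cs.length u) (by simp)
    (fun u hu s hs ih => ?_) hu
  · rw [← mul_assoc]
    by_cases h : cs.IsRightDescent u s
    · have h1 := (descent_mul_iff cs hw hu hs).2 h
      rw [cs.isRightDescent_iff] at h h1
      omega
    · have h1 := mt (descent_mul_iff cs hw hu hs).1 h
      rw [cs.not_isRightDescent_iff] at h h1
      omega

/-- If all elements of `J` are right descents of `w`, then `l(w u) + l(u) = l(w)` for
`u ∈ W_J`. -/
theorem length_mul_of_max {J : Set S} {w : W} (hw : ∀ j ∈ J, cs.IsRightDescent w j) {u : W}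
    (hu : u ∈ par cs J) : cs.length (w * u) + cs.length u = cs.length w := by
  have hw' : ∀ j ∈ J, Pos (-geo cs w (stdE S j)) := fun j hj => neg_of_descent cs (hw j hj)
  refine par_induction cs (p := fun u => cs.length (w * u) + cs.length u = cs.length w) (by simp)
    (fun u hu s hs ih => ?_) hu
  · have hJ := geo_supp cs hu (supp_stdE hs)
    rw [← mul_assoc]
    by_cases h : cs.IsRightDescent u s
    · have h1 : ¬ cs.IsRightDescent (w * u) s := by
        rw [not_descent_iff, geo_mul]
        have := neg_geo cs hw' (neg_of_descent cs h) (supp_neg hJ)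
        rwa [map_neg, neg_neg] at this
      rw [cs.isRightDescent_iff] at h
      rw [cs.not_isRightDescent_iff] at h1
      omega
    · have h1 : cs.IsRightDescent (w * u) s := by
        rw [descent_iff, geo_mul]
        exact neg_geo cs hw' (pos_of_not_descent cs h) hJ
      rw [cs.not_isRightDescent_iff] at h
      rw [cs.isRightDescent_iff] at h1
      omega

theorem par_inv {J : Set S} {u : W} : u⁻¹ ∈ par cs J ↔ u ∈ par cs J := Subgroup.inv_mem_iff _

/-- left version of `length_mul_of_min` -/
theorem length_mul_of_min' {J : Set S} {w : W} (hw : ∀ j ∈ J, ¬ cs.IsLeftDescent w j) {u : W}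
    (hu : u ∈ par cs J) : cs.length (u * w) = cs.length u + cs.length w := by
  have h := length_mul_of_min cs (w := w⁻¹) (J := J)
    (fun j hj => by rw [cs.isRightDescent_inv_iff]; exact hw j hj) ((par_inv cs).2 hu)
  rw [← mul_inv_rev, cs.length_inv, cs.length_inv, cs.length_inv] at h
  omega

theorem length_mul_of_max' {J : Set S} {w : W} (hw : ∀ j ∈ J, cs.IsLeftDescent w j) {u : W}
    (hu : u ∈ par cs J) : cs.length (u * w) + cs.length u = cs.length w := by
  have h := length_mul_of_max cs (w := w⁻¹) (J := J)
    (fun j hj => by rw [cs.isRightDescent_inv_iff]; exact hw j hj) ((par_inv cs).2 hu)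
  rwa [← mul_inv_rev, cs.length_inv, cs.length_inv, cs.length_inv] at h

/-- every coset `w W_J` contains an element without right descents in `J` -/
theorem exists_min (J : Set S) (w : W) : ∃ v, (∀ j ∈ J, ¬ cs.IsRightDescent v j) ∧
    ∃ u ∈ par cs J, w = v * u ∧ cs.length w = cs.length v + cs.length u := by
  classical
  have hex : ∃ n, ∃ u ∈ par cs J, cs.length (w * u) = n := ⟨_, 1, Subgroup.one_mem _, rfl⟩
  obtain ⟨u, hu, hn⟩ := Nat.find_spec hex
  have hmin : ∀ j ∈ J, ¬ cs.IsRightDescent (w * u) j := by
    intro j hj h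
    have h1 := cs.isRightDescent_iff.1 h
    have h2 : cs.length (w * (u * cs.simple j)) < Nat.find hex := by
      rw [← mul_assoc]
      omega
    exact Nat.find_min hex h2 ⟨_, Subgroup.mul_mem _ hu (simple_mem_par cs hj), rfl⟩
  refine ⟨w * u, hmin, u⁻¹, (par_inv cs).2 hu, by group, ?_⟩
  have := length_mul_of_min cs hmin ((par_inv cs).2 hu)
  rwa [mul_inv_cancel_right] at this

theorem exists_min' (J : Set S) (w : W) : ∃ v, (∀ j ∈ J, ¬ cs.IsLeftDescent v j) ∧
    ∃ u ∈ par cs J, w = u * v ∧ cs.length w = cs.length u + cs.length v := by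
  obtain ⟨v, hv, u, hu, h1, h2⟩ := exists_min cs J w⁻¹
  refine ⟨v⁻¹, fun j hj => ?_, u⁻¹, (par_inv cs).2 hu, ?_, ?_⟩
  · rw [cs.isLeftDescent_inv_iff]
    exact hv j hj
  · rw [← mul_inv_rev, ← h1, inv_inv]
  · rw [cs.length_inv, cs.length_inv, ← cs.length_inv w, h2, add_comm]

/-- uniqueness of the minimal coset representative -/
theorem min_unique {J : Set S} {v v' : W} (hv : ∀ j ∈ J, ¬ cs.IsRightDescent v j)
    (hv' : ∀ j ∈ J, ¬ cs.IsRightDescent v' j) (h : v⁻¹ * v' ∈ par cs J) : v = v' := by
  have h1 := length_mul_of_min cs hv h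
  rw [mul_inv_cancel_left] at h1
  have h2 := length_mul_of_min cs hv' ((par_inv cs).2 h)
  have h3 : v' * (v⁻¹ * v')⁻¹ = v := by group
  rw [h3, cs.length_inv] at h2
  have h4 : cs.length (v⁻¹ * v') = 0 := by omega
  rw [cs.length_eq_zero_iff] at h4
  rw [inv_mul_eq_one] at h4
  exact h4

/-- elements of bounded length of a finitely generated Coxeter group -/
theorem finite_length_le [Finite S] (n : ℕ) : {w : W | cs.length w ≤ n}.Finite := by
  have h : {w : W | cs.length w ≤ n} ⊆ cs.wordProd '' {ω : List S | ω.length ≤ n} := by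
    intro w hw
    obtain ⟨ω, h1, h2⟩ := cs.exists_isReduced w
    refine ⟨ω, ?_, h2.symm⟩
    have h3 := h1.eq
    rw [← h2] at h3
    have h4 : cs.length w ≤ n := hw
    show ω.length ≤ n
    omega
  exact ((List.finite_length_le S n).image _).subset h

/-- if some `w` has all elements of `J` as right descents then `W_J` is finite -/
theorem par_finite [Finite S] {J : Set S} {w : W} (hw : ∀ j ∈ J, cs.IsRightDescent w j) :
    (par cs J : Set W).Finite := by
  refine (finite_length_le cs (cs.length w)).subset fun u hu => ?_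
  have := length_mul_of_max cs hw hu
  show cs.length u ≤ cs.length w
  omega

/-- **Longest elements.** A finite parabolic subgroup has an element `w_J` with
`l(w_J u) + l(u) = l(w_J) = l(u w_J) + l(u)` for all `u ∈ W_J`. -/
theorem exists_longest {J : Set S} (hJ : (par cs J : Set W).Finite) :
    ∃ w₀ ∈ par cs J, w₀ * w₀ = 1 ∧ (∀ j ∈ J, cs.IsRightDescent w₀ j) ∧
      (∀ j ∈ J, cs.IsLeftDescent w₀ j) ∧
      (∀ u ∈ par cs J, cs.length (w₀ * u) + cs.length u = cs.length w₀) ∧
      (∀ u ∈ par cs J, cs.length (u * w₀) + cs.length u = cs.length w₀) ∧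
      ∀ u ∈ par cs J, cs.length u = cs.length w₀ → u = w₀ := by
  obtain ⟨w₀, hw₀, hmax⟩ := hJ.exists_maximalFor cs.length _ ⟨1, Subgroup.one_mem _⟩
  have hle : ∀ u ∈ par cs J, cs.length u ≤ cs.length w₀ := fun u hu => by
    by_contra h
    exact h (hmax hu (le_of_lt (not_le.1 h)))
  have hr : ∀ j ∈ J, cs.IsRightDescent w₀ j := by
    intro j hj
    by_contra h
    have h1 := cs.not_isRightDescent_iff.1 h
    have h2 := hle _ (Subgroup.mul_mem _ hw₀ (simple_mem_par cs hj))
    omega
  have hl : ∀ j ∈ J, cs.IsLeftDescent w₀ j := by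
    intro j hj
    by_contra h
    have h1 := cs.not_isLeftDescent_iff.1 h
    have h2 := hle _ (Subgroup.mul_mem _ (simple_mem_par cs hj) hw₀)
    omega
  have h1 : ∀ u ∈ par cs J, cs.length (w₀ * u) + cs.length u = cs.length w₀ := fun u hu =>
    length_mul_of_max cs hr hu
  have h2 : ∀ u ∈ par cs J, cs.length (u * w₀) + cs.length u = cs.length w₀ := fun u hu =>
    length_mul_of_max' cs hl hu
  refine ⟨w₀, hw₀, ?_, hr, hl, h1, h2, fun u hu h => ?_⟩
  · have h3 := h1 w₀ hw₀
    exact cs.length_eq_zero_iff.1 (by omega)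
  · have h3 := h2 u⁻¹ ((par_inv cs).2 hu)
    rw [cs.length_inv] at h3
    have h4 : u⁻¹ * w₀ = 1 := cs.length_eq_zero_iff.1 (by omega)
    rw [inv_mul_eq_one] at h4
    exact h4

theorem coeff_pos {J : Set S} {s : S} (hs : s ∉ J) {u : W} (hu : u ∈ par cs J) :
    0 < geo cs u (stdE S s) s := by
  induction hu using Subgroup.closure_induction_left with
  | one =>
    have : geo cs 1 (stdE S s) = stdE S s := (stdRoot M).rho_one cs _
    rw [this, stdE_self]
    exact one_pos
  | mul_left x hx y hy ih =>
    obtain ⟨j, hj, rfl⟩ := hx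
    rw [geo_mul, geo_simple, Finsupp.sub_apply, Finsupp.smul_apply,
      stdE_ne (fun h => hs (by rw [h]; exact hj))]
    simpa using ih
  | inv_mul_cancel x hx y hy ih =>
    obtain ⟨j, hj, rfl⟩ := hx
    rw [cs.inv_simple, geo_mul, geo_simple, Finsupp.sub_apply, Finsupp.smul_apply,
      stdE_ne (fun h => hs (by rw [h]; exact hj))]
    simpa using ih

theorem descent_mem {J : Set S} {u : W} (hu : u ∈ par cs J) {s : S}
    (hs : cs.IsRightDescent u s) : s ∈ J := by
  by_contra hsJ
  have h2 := coeff_pos cs hsJ hu
  have h3 := neg_of_descent cs hs s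
  rw [Finsupp.neg_apply] at h3
  linarith

theorem descent_mem' {J : Set S} {u : W} (hu : u ∈ par cs J) {s : S}
    (hs : cs.IsLeftDescent u s) : s ∈ J :=
  descent_mem cs ((par_inv cs).2 hu) (cs.isRightDescent_inv_iff.2 hs)

/-- simple reflections in `W_J` are those of `J` -/
theorem mem_of_simple_mem {J : Set S} {s : S} (h : cs.simple s ∈ par cs J) : s ∈ J := by
  refine descent_mem cs h ?_
  show cs.length (cs.simple s * cs.simple s) < cs.length (cs.simple s)
  rw [cs.simple_mul_simple_self, cs.length_one, cs.length_simple]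
  exact one_pos

/-- reduced words of elements of `W_J` use only letters of `J` -/
theorem mem_of_isReduced {J : Set S} : ∀ (ω : List S), cs.IsReduced ω →
    cs.wordProd ω ∈ par cs J → ∀ s ∈ ω, s ∈ J := by
  intro ω
  induction ω using List.reverseRecOn with
  | nil => intro _ _ s hs; simp at hs
  | append_singleton ω t ih =>
    intro hred hmem s hs
    have hred' : cs.IsReduced ω := by
      have := hred.take ω.length
      simpa using this
    have hp : cs.wordProd (ω ++ [t]) = cs.wordProd ω * cs.simple t := by
      rw [cs.wordProd_append]; simp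
    have htd : cs.IsRightDescent (cs.wordProd (ω ++ [t])) t := by
      show cs.length _ < cs.length _
      rw [hp, cs.simple_mul_simple_cancel_right, ← hp]
      have h1 := hred.eq
      have h2 := hred'.eq
      rw [List.length_append, List.length_singleton] at h1
      omega
    have htJ := descent_mem cs hmem htd
    have hmem' : cs.wordProd ω ∈ par cs J := by
      have h3 : cs.wordProd ω = cs.wordProd (ω ++ [t]) * cs.simple t := by
        rw [hp, cs.simple_mul_simple_cancel_right]
      rw [h3]
      exact Subgroup.mul_mem _ hmem (simple_mem_par cs htJ)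
    rcases List.mem_append.1 hs with h | h
    · exact ih hred' hmem' s h
    · rw [List.mem_singleton.1 h]; exact htJ

/-- `W_J ∩ W_K = W_(J ∩ K)` -/
theorem par_inter (J K : Set S) {u : W} (hJ : u ∈ par cs J) (hK : u ∈ par cs K) :
    u ∈ par cs (J ∩ K) := by
  obtain ⟨ω, h1, h2⟩ := cs.exists_isReduced u
  have h3 : ∀ s ∈ ω, s ∈ J ∩ K := fun s hs =>
    ⟨mem_of_isReduced cs ω h1 (by rw [← h2]; exact hJ) s hs,
      mem_of_isReduced cs ω h1 (by rw [← h2]; exact hK) s hs⟩
  rw [h2]
  clear h1 h2 hJ hK
  induction ω with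
  | nil => simp
  | cons s ω ih =>
    rw [cs.wordProd_cons]
    exact Subgroup.mul_mem _ (simple_mem_par cs (h3 s (by simp)))
      (ih fun t ht => h3 t (by simp [ht]))

end Cox

end Pool.Agent.Work.MP_de2d29_al
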