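import Pool.Agent.Work.MP_de2d29_al.DevDD

/-!
# BUILDING: the device of a panel, from foldings

* `exists_dev`: finitely many disjoint open sets `V j` with common closed complement `dM`, foldings
  of `V i` onto `V j` relative to `dM`: a device with open set the union of the `V j`, `j ≠ j₀`.
* `Dev.map`: transport of a device along a homeomorphism.
-/

set_option autoImplicit false

open Set Metric Topology Filter

namespace BD

variable {Z : Type} [TopologicalSpace Z]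

/-- gluing along finitely many closed pieces `V j ∪ dM` -/
theorem exists_glue {J : Type} [Finite J] (V : J → Set Z) (dM : Set Z)
    (hd : ∀ i j, i ≠ j → Disjoint (V i) (V j)) (hdM : ∀ j, Disjoint (V j) dM)
    (hcl : ∀ j, IsClosed (V j ∪ dM)) (hun : ∀ z, z ∈ dM ∨ ∃ j, z ∈ V j) (hne : Nonempty J)
    (f : J → Z → Z) (hf : ∀ j, ContinuousOn (f j) (V j ∪ dM)) (hfM : ∀ j, ∀ z ∈ dM, f j z = z) :
    ∃ F : C(Z, Z), (∀ z ∈ dM, F z = z) ∧ ∀ j, ∀ z ∈ V j, F z = f j z := by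
  classical
  let g : Z → Z := fun z => if hz : ∃ j, z ∈ V j then f hz.choose z else z
  have hgV : ∀ j, ∀ z ∈ V j, g z = f j z := by
    intro j z hz
    have hex : ∃ j, z ∈ V j := ⟨j, hz⟩
    have h1 : hex.choose = j := by
      by_contra hne
      exact Set.disjoint_left.1 (hd _ _ hne) hex.choose_spec hz
    show (if hz : ∃ j, z ∈ V j then f hz.choose z else z) = f j z
    rw [dif_pos hex, h1]
  have hgM : ∀ z ∈ dM, g z = z := by
    intro z hz
    have hex : ¬ ∃ j, z ∈ V j := fun ⟨j, hj⟩ => Set.disjoint_left.1 (hdM j) hj hz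
    show (if hz : ∃ j, z ∈ V j then f hz.choose z else z) = z
    rw [dif_neg hex]
  have hgj : ∀ j, ContinuousOn g (V j ∪ dM) := by
    intro j
    refine (hf j).congr fun z hz => ?_
    rcases hz with hz | hz
    · exact hgV j z hz
    · rw [hgM z hz, hfM j z hz]
  have hg : Continuous g := by
    have hcov : (⋃ j, (V j ∪ dM)) = univ := by
      rw [eq_univ_iff_forall]
      intro z
      rcases hun z with hz | ⟨j, hz⟩
      · exact mem_iUnion.2 ⟨hne.some, Or.inr hz⟩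
      · exact mem_iUnion.2 ⟨j, Or.inl hz⟩
    exact (locallyFinite_of_finite fun j => V j ∪ dM).continuous hcov hcl hgj
  exact ⟨⟨g, hg⟩, hgM, hgV⟩

/-- **The device of a panel.** -/
theorem exists_dev {J : Type} [Finite J] (V : J → Set Z) (dM : Set Z)
    (hd : ∀ i j, i ≠ j → Disjoint (V i) (V j)) (hdM : ∀ j, Disjoint (V j) dM)
    (hcl : ∀ j, IsClosed (V j ∪ dM)) (hun : ∀ z, z ∈ dM ∨ ∃ j, z ∈ V j)
    {j₀ j₁ j₂ : J} (h01 : j₁ ≠ j₀) (h02 : j₂ ≠ j₀) (h12 : j₁ ≠ j₂)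
    (fold : ∀ i j, i ≠ j → i ≠ j₀ → j ≠ j₀ → ∃ Ψ : Z → Z, ContinuousOn Ψ (V i ∪ dM) ∧
      (∀ z ∈ dM, Ψ z = z) ∧ MapsTo Ψ (V i) (V j)) :
    ∃ D : Dev Z, D.V = ⋃ j ∈ {j | j ≠ j₀}, V j := by
  classical
  have hid : ∃ Ψ : Z → Z, Continuous Ψ ∧ ∀ z, Ψ z = z := ⟨id, continuous_id, fun _ => rfl⟩
  -- the first map: `V j₁` onto `V j₂`
  obtain ⟨Ψ, hΨc, hΨM, hΨV⟩ := fold j₁ j₂ h12 h01 h02
  obtain ⟨φ, hφM, hφV⟩ := exists_glue V dM hd hdM hcl hun ⟨j₀⟩
    (fun j => if j = j₁ then Ψ else id)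
    (fun j => by
      by_cases h : j = j₁
      · subst h
        simp only [if_true]
        exact hΨc
      · simp only [if_neg h]
        exact continuousOn_id)
    (fun j z hz => by
      by_cases h : j = j₁
      · simp only [if_pos h]
        exact hΨM z hz
      · simp only [if_neg h, id])
  -- the second map: `V j` onto `V j₁`
  have hex : ∀ j, ∃ Θ : Z → Z, ContinuousOn Θ (V j ∪ dM) ∧ (∀ z ∈ dM, Θ z = z) ∧
      ((j ≠ j₁ ∧ j ≠ j₀ → MapsTo Θ (V j) (V j₁)) ∧ (¬(j ≠ j₁ ∧ j ≠ j₀) → ∀ z, Θ z = z)) := by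
    intro j
    by_cases h : j ≠ j₁ ∧ j ≠ j₀
    · obtain ⟨Θ, h1, h2, h3⟩ := fold j j₁ h.1 h.2 h01
      exact ⟨Θ, h1, h2, fun _ => h3, fun hn => absurd h hn⟩
    · exact ⟨id, continuousOn_id, fun _ _ => rfl, fun hp => absurd hp h, fun _ _ => rfl⟩
  choose Θ hΘc hΘM hΘV hΘi using hex
  obtain ⟨ψ, hψM, hψV⟩ := exists_glue V dM hd hdM hcl hun ⟨j₀⟩ Θ hΘc hΘM
  -- values
  have hφ1 : ∀ z ∈ V j₁, φ z ∈ V j₂ := fun z hz => by
    rw [hφV j₁ z hz]
    simp only [if_true]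
    exact hΨV hz
  have hφi : ∀ j, j ≠ j₁ → ∀ z ∈ V j, φ z = z := fun j hj z hz => by
    rw [hφV j z hz]
    simp only [if_neg hj, id]
  have hmem : ∀ z, z ∈ (⋃ j ∈ {j | j ≠ j₀}, V j) ↔ ∃ j, j ≠ j₀ ∧ z ∈ V j := fun z => by
    rw [mem_iUnion₂]
    exact ⟨fun ⟨j, h1, h2⟩ => ⟨j, h1, h2⟩, fun ⟨j, h1, h2⟩ => ⟨j, h1, h2⟩⟩
  refine ⟨⟨⋃ j ∈ {j | j ≠ j₀}, V j, φ, ψ, ?_, ?_, ?_, ?_, ?_⟩, rfl⟩
  · intro z hz
    rw [hmem] at hz
    rcases hun z with h | ⟨j, hj⟩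
    · exact hφM z h
    · have h1 : j = j₀ := by
        by_contra h2
        exact hz ⟨j, h2, hj⟩
      subst h1
      exact hφi j (Ne.symm h01) z hj
  · intro z hz
    rw [hmem] at hz
    rcases hun z with h | ⟨j, hj⟩
    · exact hψM z h
    · have h1 : j = j₀ := by
        by_contra h2
        exact hz ⟨j, h2, hj⟩
      subst h1
      rw [hψV j z hj, hΘi j (fun h2 => h2.2 rfl)]
  · intro z hz
    rw [hmem] at hz ⊢
    obtain ⟨j, hj, hz⟩ := hz
    by_cases h1 : j = j₁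
    · subst h1
      exact ⟨j₂, h02, hφ1 z hz⟩
    · refine ⟨j, hj, ?_⟩
      rw [hφi j h1 z hz]
      exact hz
  · intro z hz
    rw [hmem] at hz ⊢
    obtain ⟨j, hj, hz⟩ := hz
    refine ⟨j₁, h01, ?_⟩
    rw [hψV j z hz]
    by_cases h1 : j = j₁
    · subst h1
      rw [hΘi j (fun h2 => h2.1 rfl)]
      exact hz
    · exact hΘV j ⟨h1, hj⟩ hz
  · intro x hx y hy hxy
    rw [hmem] at hx hy
    obtain ⟨i, hi, hx⟩ := hx
    obtain ⟨j, hj, hy⟩ := hy
    -- `ψ y` is in `V j₁`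
    have h1 : ψ y ∈ V j₁ := by
      rw [hψV j y hy]
      by_cases h1 : j = j₁
      · subst h1
        rw [hΘi j (fun h2 => h2.1 rfl)]
        exact hy
      · exact hΘV j ⟨h1, hj⟩ hy
    rw [← hxy] at h1
    by_cases h2 : i = j₁
    · subst h2
      exact Set.disjoint_left.1 (hd _ _ h12) h1 (hφ1 x hx)
    · rw [hφi i h2 x hx] at h1
      exact Set.disjoint_left.1 (hd _ _ h2) hx h1

/-- transport of a device along a homeomorphism -/
def Dev.map {Z' : Type} [TopologicalSpace Z'] (D : Dev Z) (e : Z ≃ₜ Z') : Dev Z' where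
  V := e.symm ⁻¹' D.V
  φ := ⟨fun z => e (D.φ (e.symm z)), by fun_prop⟩
  ψ := ⟨fun z => e (D.ψ (e.symm z)), by fun_prop⟩
  φ_id := fun z hz => by
    show e (D.φ (e.symm z)) = z
    rw [D.φ_id _ hz, e.apply_symm_apply]
  ψ_id := fun z hz => by
    show e (D.ψ (e.symm z)) = z
    rw [D.ψ_id _ hz, e.apply_symm_apply]
  φ_mem := fun z hz => by
    show e.symm (e (D.φ (e.symm z))) ∈ D.V
    rw [e.symm_apply_apply]
    exact D.φ_mem _ hz
  ψ_mem := fun z hz => by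
    show e.symm (e (D.ψ (e.symm z))) ∈ D.V
    rw [e.symm_apply_apply]
    exact D.ψ_mem _ hz
  disj := fun x hx y hy h => D.disj _ hx _ hy (e.injective h)

theorem Dev.map_V {Z' : Type} [TopologicalSpace Z'] (D : Dev Z) (e : Z ≃ₜ Z') :
    (D.map e).V = e.symm ⁻¹' D.V := rfl

theorem Dev.isOpen_map_V {Z' : Type} [TopologicalSpace Z'] {D : Dev Z} (hD : IsOpen D.V)
    (e : Z ≃ₜ Z') : IsOpen (D.map e).V := hD.preimage e.symm.continuous

end BD
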