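import Pool.Agent.Work.MP_de2d29_al.GoodF
import Pool.Agent.Work.MP_de2d29_al.BaseCh
import Pool.Agent.Work.MP_de2d29_al.DevPan

/-!
# BUILDING: thin devices on the boundary, from the foldings of half buildings

* `X.Folds`: the folding statement for the panel `s` of `c`, seen from `b = mk c b₀`.
* `X.exists_dev_b`: the device of the panel, on the boundary seen from `b`.
* `X.exists_dev_o`: thin devices around every point of the boundary seen from `o`.
-/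

set_option autoImplicit false

open Set Metric Topology Filter

namespace BD

variable {d : ℕ} {ι C : Type} {M : CoxeterMatrix ι} {e : ι → Mink d} [Finite ι]

/-- **the folding statement** for two chambers of the `s`-panel of `c`, both different from `c`, seen
from the point `b = mk c b₀` in the interior of `c` -/
def X.Folds (hP : CoxPoly M e) (Δ : Building M C) : Prop :=
  ∀ (c : C) (s : ι) (b₀ : poly e), (∀ i, lor (b₀ : Mink d) (e i) < 0) →
    ∀ c' c'' : C, PanAdj Δ s c c' → c ≠ c' → PanAdj Δ s c c'' → c ≠ c'' → c' ≠ c'' →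
    ∃ Ψ : X.Hat hP Δ (X.mk hP Δ c b₀) → X.Hat hP Δ (X.mk hP Δ c b₀),
      ContinuousOn Ψ ((X.Bd hP Δ (X.mk hP Δ c b₀) ∩ X.VO b₀ c c' s) ∪
        (X.Bd hP Δ (X.mk hP Δ c b₀) ∩ {z | X.asyA c s b₀ z = 0})) ∧
      EqOn Ψ id (X.Bd hP Δ (X.mk hP Δ c b₀) ∩ {z | X.asyA c s b₀ z = 0}) ∧
      MapsTo Ψ (X.Bd hP Δ (X.mk hP Δ c b₀) ∩ X.VO b₀ c c' s)
        (X.Bd hP Δ (X.mk hP Δ c b₀) ∩ X.VO b₀ c c'' s)

variable {hP : CoxPoly M e} {Δ : Building M C}

/-- **the device of a panel**, seen from a point `b` in the interior of a chamber `c` of the panel -/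
theorem X.exists_dev_b (hL : Δ.LocFinite) (hT : Δ.Thick) (hF : X.Folds hP Δ) (c : C) (s : ι)
    (b₀ : poly e) (hb₀ : ∀ i, lor (b₀ : Mink d) (e i) < 0) :
    ∃ D : Dev (X.Bd hP Δ (X.mk hP Δ c b₀)), D.V = {z | 0 < X.asyA c s b₀ z.1} := by
  classical
  have hb := hb₀ s
  set J := {c' : C // PanAdj Δ s c c'} with hJ
  have hfin : Finite J := by
    have h1 : {c' : C | PanAdj Δ s c c'} ⊆ insert c {c' | Δ.δ c' c = M.simple s} := by
      rintro c' (h | h)
      · exact Or.inl h.symm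
      · exact Or.inr (Δ.adj_symm h)
    exact (((hL c s).insert c).subset h1).to_subtype
  let V : J → Set (X.Bd hP Δ (X.mk hP Δ c b₀)) := fun j =>
    if j.1 = c then {z | X.asyA c s b₀ z.1 < 0} else {z | z.1 ∈ X.VO b₀ c j.1 s}
  let dM : Set (X.Bd hP Δ (X.mk hP Δ c b₀)) := {z | X.asyA c s b₀ z.1 = 0}
  have hV0 : ∀ j : J, j.1 = c → ∀ z, z ∈ V j ↔ X.asyA c s b₀ z.1 < 0 := fun j hj z => by
    show z ∈ (if j.1 = c then _ else _) ↔ _
    rw [if_pos hj]
    exact Iff.rfl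
  have hV1 : ∀ j : J, j.1 ≠ c → ∀ z, z ∈ V j ↔ z.1 ∈ X.VO b₀ c j.1 s := fun j hj z => by
    show z ∈ (if j.1 = c then _ else _) ↔ _
    rw [if_neg hj]
    exact Iff.rfl
  have hpos : ∀ j : J, j.1 ≠ c → ∀ z ∈ V j, 0 < X.asyA c s b₀ z.1 := fun j hj z hz =>
    ((X.vo_iff hL hb j.2 (Ne.symm hj) z.2).1 ((hV1 j hj z).1 hz)).1
  -- thickness
  obtain ⟨c₁, c₂, h12, hc₁, hc₂⟩ := hT c s
  have hc₁' : PanAdj Δ s c c₁ := Or.inr (Δ.adj_symm hc₁)
  have hc₂' : PanAdj Δ s c c₂ := Or.inr (Δ.adj_symm hc₂)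
  have hne : ∀ {a : C}, Δ.δ a c = M.simple s → a ≠ c := fun {a} h h1 => by
    rw [h1, Δ.δ_self] at h
    exact simple_ne_one s h.symm
  let j₀ : J := ⟨c, PanAdj.refl c⟩
  let j₁ : J := ⟨c₁, hc₁'⟩
  let j₂ : J := ⟨c₂, hc₂'⟩
  have hval : ∀ {i j : J}, i ≠ j → i.1 ≠ j.1 := fun {i j} h h1 => h (Subtype.ext h1)
  have hex : ∃ D : Dev (X.Bd hP Δ (X.mk hP Δ c b₀)), D.V = ⋃ j ∈ {j | j ≠ j₀}, V j := by
    refine exists_dev V dM ?_ ?_ ?_ ?_ (j₀ := j₀) (j₁ := j₁) (j₂ := j₂)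
      (fun h => hne hc₁ (congrArg Subtype.val h)) (fun h => hne hc₂ (congrArg Subtype.val h))
      (fun h => h12 (congrArg Subtype.val h)) ?_
    · -- disjoint
      intro i j hij
      rw [Set.disjoint_left]
      intro z hi hj
      by_cases h1 : i.1 = c
      · have h2 : j.1 ≠ c := fun h => hval hij (h1.trans h.symm)
        have h3 := (hV0 i h1 z).1 hi
        have h4 := hpos j h2 z hj
        linarith
      · by_cases h2 : j.1 = c
        · have h3 := (hV0 j h2 z).1 hj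
          have h4 := hpos i h1 z hi
          linarith
        · exact hval hij (X.vo_disj hL hb i.2 (Ne.symm h1) j.2 (Ne.symm h2) z.2
            ((hV1 i h1 z).1 hi) ((hV1 j h2 z).1 hj))
    · -- disjoint from `dM`
      intro j
      rw [Set.disjoint_left]
      intro z hj hz
      have hz' : X.asyA c s b₀ z.1 = 0 := hz
      by_cases h1 : j.1 = c
      · have h3 := (hV0 j h1 z).1 hj
        linarith
      · have h3 := hpos j h1 z hj
        linarith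
    · -- closed
      intro j
      by_cases h1 : j.1 = c
      · have h2 : V j ∪ dM = {z | X.asyA c s b₀ z.1 ≤ 0} := by
          ext z
          rw [mem_union, hV0 j h1 z]
          show X.asyA c s b₀ z.1 < 0 ∨ X.asyA c s b₀ z.1 = 0 ↔ X.asyA c s b₀ z.1 ≤ 0
          exact le_iff_lt_or_eq.symm
        rw [h2]
        exact isClosed_le ((X.continuous_asyA hL).comp continuous_subtype_val) continuous_const
      · have h2 : V j ∪ dM = Subtype.val ⁻¹' (X.Bd hP Δ (X.mk hP Δ c b₀) ∩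
            (X.VO b₀ c j.1 s ∪ {z | X.asyA c s b₀ z = 0})) := by
          ext z
          rw [mem_union, hV1 j h1 z]
          exact ⟨fun h => ⟨z.2, h⟩, fun h => h.2⟩
        rw [h2]
        exact (X.isClosed_vo_dm hL hb j.2 (Ne.symm h1)).preimage continuous_subtype_val
    · -- cover
      intro z
      rcases lt_trichotomy (X.asyA c s b₀ z.1) 0 with h | h | h
      · exact Or.inr ⟨j₀, (hV0 j₀ rfl z).2 h⟩
      · exact Or.inl h
      · obtain ⟨c', h1, h2, h3⟩ := X.vo_cover hL hb z.2 h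
        exact Or.inr ⟨⟨c', h1⟩, (hV1 ⟨c', h1⟩ (Ne.symm h2) z).2 h3⟩
    · -- foldings
      intro i j hij hi hj
      have hi' : i.1 ≠ c := hval hi
      have hj' : j.1 ≠ c := hval hj
      obtain ⟨Ψ, hΨc, hΨi, hΨm⟩ := hF c s b₀ hb₀ i.1 j.1 i.2 (Ne.symm hi') j.2 (Ne.symm hj')
        (hval hij)
      have hBd : ∀ z : X.Bd hP Δ (X.mk hP Δ c b₀), z ∈ V i ∪ dM →
          Ψ z.1 ∈ X.Bd hP Δ (X.mk hP Δ c b₀) := by
        rintro z (hz | hz)
        · exact (hΨm ⟨z.2, (hV1 i hi' z).1 hz⟩).1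
        · rw [hΨi ⟨z.2, hz⟩]
          exact z.2
      let Φ : X.Bd hP Δ (X.mk hP Δ c b₀) → X.Bd hP Δ (X.mk hP Δ c b₀) := fun z =>
        if h : z ∈ V i ∪ dM then ⟨Ψ z.1, hBd z h⟩ else z
      have hΦ : ∀ z, z ∈ V i ∪ dM → (Φ z).1 = Ψ z.1 := fun z hz => by
        show (if h : z ∈ V i ∪ dM then (⟨Ψ z.1, hBd z h⟩ : X.Bd hP Δ (X.mk hP Δ c b₀)) else z).1 = _
        rw [dif_pos hz]
      refine ⟨Φ, ?_, ?_, ?_⟩
      · have h1 : ContinuousOn (fun z : X.Bd hP Δ (X.mk hP Δ c b₀) => Ψ z.1) (V i ∪ dM) := by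
          refine hΨc.comp continuous_subtype_val.continuousOn ?_
          rintro z (hz | hz)
          · exact Or.inl ⟨z.2, (hV1 i hi' z).1 hz⟩
          · exact Or.inr ⟨z.2, hz⟩
        rw [Topology.IsInducing.subtypeVal.continuousOn_iff]
        exact h1.congr fun z hz => hΦ z hz
      · intro z hz
        refine Subtype.ext ?_
        rw [hΦ z (Or.inr hz), hΨi ⟨z.2, hz⟩]
        rfl
      · intro z hz
        rw [hV1 j hj', hΦ z (Or.inl hz)]
        exact (hΨm ⟨z.2, (hV1 i hi' z).1 hz⟩).2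
  obtain ⟨D, hD⟩ := hex
  refine ⟨D, ?_⟩
  rw [hD]
  ext z
  rw [mem_iUnion₂]
  constructor
  · rintro ⟨j, hj, hz⟩
    exact hpos j (hval hj) z hz
  · intro hz
    obtain ⟨c', h1, h2, h3⟩ := X.vo_cover hL hb z.2 hz
    refine ⟨⟨c', h1⟩, fun h => h2 (congrArg Subtype.val h).symm, ?_⟩
    exact (hV1 ⟨c', h1⟩ (Ne.symm h2) z).2 h3

/-- **thin devices** around every point of the boundary -/
theorem X.exists_dev_o (hP : CoxPoly M e) : ∃ C₁ : ℝ, ∀ (C : Type) (Δ : Building M C),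
    Δ.LocFinite → Δ.Thick → X.Folds hP Δ → ∀ (o : X hP Δ) (r : ℕ) (z : X.Bd hP Δ o),
      ∃ D : Dev (X.Bd hP Δ o), IsOpen D.V ∧ z ∈ D.V ∧
        ∀ x ∈ D.V, ∀ y ∈ D.V, dist (x.1.1 r) (y.1.1 r) ≤ C₁ := by
  obtain ⟨C₁, hC₁⟩ := X.good_final hP
  refine ⟨C₁, fun C Δ hL hT hF o r z => ?_⟩
  obtain ⟨c, s, b₀, hb₀, hβ⟩ := hC₁ C Δ hL o z r
  obtain ⟨D, hD⟩ := X.exists_dev_b hL hT hF c s b₀ hb₀
  have hfam := (X.mdl hP Δ).radFam hL
  have hdist : ∀ (x : X.Bd hP Δ o) (N : ℕ), dist (x.1.1 N)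
      (((hfam.BCb o (X.mk hP Δ c b₀)) x).1.1 N) ≤ 2 * dist o (X.mk hP Δ c b₀) := by
    intro x N
    have h1 := hfam.dist_pr_BC o (X.mk hP Δ c b₀) (t := (N : ℝ)) (Nat.cast_nonneg N) x.1
    rw [(hfam.hr o).pr_nat, (hfam.hr (X.mk hP Δ c b₀)).pr_nat] at h1
    exact h1
  obtain ⟨h1, h2⟩ := hβ (hfam.BCb o (X.mk hP Δ c b₀)) _ hdist
  have hopen : IsOpen D.V := by
    rw [hD]
    exact isOpen_lt continuous_const ((X.continuous_asyA hL).comp continuous_subtype_val)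
  refine ⟨D.map (hfam.BCb o (X.mk hP Δ c b₀)).symm, Dev.isOpen_map_V hopen _, ?_, ?_⟩
  · show hfam.BCb o (X.mk hP Δ c b₀) z ∈ D.V
    rw [hD]
    exact h1
  · intro x hx y hy
    have hx' : hfam.BCb o (X.mk hP Δ c b₀) x ∈ D.V := hx
    have hy' : hfam.BCb o (X.mk hP Δ c b₀) y ∈ D.V := hy
    rw [hD] at hx' hy'
    exact h2 x y hx' hy'

end BD
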