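import Mathlib

/-!
# Hyperbolic buildings: basic definitions (problem de2d29)

* `Mink d`, `lor`, `Hyp d`, `hdist`: hyperbolic space of dimension `d`, hyperboloid model.
* `poly e`: the polytope cut out by the half-spaces `lor x (e i) ≤ 0`.
* `IsCoxeterPolytope M e`: `poly e` is a compact polytope with facets `e i`, whose dihedral angles
  are `π / M i j`; `CoxPoly M e`: the same in terms of the Gram matrix.
* `Building M C`: buildings of type `M` with set of chambers `C`, as sets with a Weyl distance.
-/

set_option autoImplicit false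

open Set

namespace BD

/-! ## Hyperbolic space -/

section hyp

variable {d : ℕ}

/-- Minkowski space of signature `(d, 1)` -/
abbrev Mink (d : ℕ) : Type := Fin (d + 1) → ℝ

/-- the Lorentz form -/
def lor (x y : Mink d) : ℝ := (∑ i : Fin d, x i.succ * y i.succ) - x 0 * y 0

/-- hyperbolic space of dimension `d` -/
def Hyp (d : ℕ) : Set (Mink d) := {x | lor x x = -1 ∧ 0 < x 0}

/-- the hyperbolic distance -/
noncomputable def hdist (x y : Mink d) : ℝ := Real.arcosh (-lor x y)

/-- the reflection in the hyperplane orthogonal to the vector `a` with `lor a a = 1` -/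
def refl (a x : Mink d) : Mink d := x - (2 * lor x a) • a

end hyp

/-! ## Coxeter polytopes -/

section polytope

variable {d : ℕ} {ι : Type}

/-- the polytope cut out by the half-spaces `lor x (e i) ≤ 0` -/
def poly (e : ι → Mink d) : Set (Mink d) := {x | x ∈ Hyp d ∧ ∀ i, lor x (e i) ≤ 0}

/-- the facets `i` and `j` of `poly e` are adjacent: they meet in a face of codimension two -/
def AdjFacets (e : ι → Mink d) (i j : ι) : Prop :=
  i ≠ j ∧ ∃ x ∈ Hyp d, lor x (e i) = 0 ∧ lor x (e j) = 0 ∧
    ∀ k, k ≠ i → k ≠ j → lor x (e k) < 0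

/-- `poly e` is a compact convex polytope in hyperbolic space, with non-empty interior, facets `i`
with outer unit normal vectors `e i`, and the dihedral angle of adjacent facets `i`, `j` is
`π / M i j`; `M i j = 0` (no relation) if the facets are not adjacent. -/
structure IsCoxeterPolytope (M : CoxeterMatrix ι) (e : ι → Mink d) : Prop where
  unit : ∀ i, lor (e i) (e i) = 1
  inter : ∃ x ∈ Hyp d, ∀ i, lor x (e i) < 0
  facet : ∀ i, ∃ x ∈ Hyp d, lor x (e i) = 0 ∧ ∀ j, j ≠ i → lor x (e j) < 0
  compact : IsCompact (poly e)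
  angle : ∀ i j, AdjFacets e i j → M i j ≠ 0 ∧ lor (e i) (e j) = -Real.cos (Real.pi / M i j)
  nonadj : ∀ i j, i ≠ j → ¬ AdjFacets e i j → M i j = 0

/-- Coxeter polytopes in terms of the Gram matrix -/
structure CoxPoly (M : CoxeterMatrix ι) (e : ι → Mink d) : Prop where
  unit : ∀ i, lor (e i) (e i) = 1
  fin : ∀ i j, i ≠ j → M i j ≠ 0 → lor (e i) (e j) = -Real.cos (Real.pi / M i j)
  inf : ∀ i j, M i j = 0 → lor (e i) (e j) ≤ -1
  inter : ∃ x ∈ Hyp d, ∀ i, lor x (e i) < 0
  compact : IsCompact (poly e)

end polytope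

/-! ## Buildings -/

section building

variable {ι : Type}

/-- A building of type `M`, given by the Weyl distance on its set of chambers. -/
structure Building (M : CoxeterMatrix ι) (C : Type) where
  /-- the Weyl distance -/
  δ : C → C → M.Group
  ne : Nonempty C
  /-- (WD1) -/
  eq_one : ∀ c d, δ c d = 1 ↔ c = d
  /-- (WD2), first part -/
  step : ∀ c' c d i, δ c' c = M.simple i → δ c' d = M.simple i * δ c d ∨ δ c' d = δ c d
  /-- (WD2), second part -/
  step_up : ∀ c' c d i, δ c' c = M.simple i → M.toCoxeterSystem.length (M.simple i * δ c d) =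
    M.toCoxeterSystem.length (δ c d) + 1 → δ c' d = M.simple i * δ c d
  /-- (WD3) -/
  exist : ∀ c d i, ∃ c', δ c' c = M.simple i ∧ δ c' d = M.simple i * δ c d

variable {M : CoxeterMatrix ι} {C : Type}

/-- every panel lies in at least three chambers -/
def Building.Thick (Δ : Building M C) : Prop :=
  ∀ c i, ∃ c' c'', c' ≠ c'' ∧ Δ.δ c' c = M.simple i ∧ Δ.δ c'' c = M.simple i

/-- every panel lies in finitely many chambers -/
def Building.LocFinite (Δ : Building M C) : Prop :=
  ∀ c i, {c' | Δ.δ c' c = M.simple i}.Finite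

end building

end BD
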