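import Pool.Agent.Work.MP_017613_gt.ZSet

/-!
# BUILDING: devices and disjoint approximations

* `Dev Z`: a device, a set `V` and two maps of `Z` which are the identity outside of `V`, map `V`
  to `V` and have disjoint images on `V`.
* `Dev.cφ`, `Dev.cψ`: the compositions over a list; `Dev.disjoint`: they have disjoint images if the
  sets `V` cover `Z`.
* `dd_of_groups`: disjoint approximations of the identity from coverings by finitely many groups of
  devices, the chains of sets of each group being small.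
-/

set_option autoImplicit false

open Set Metric Topology Filter
open Pool.Agent.Work.MP_017613_gt (DD)

namespace BD

/-- a device -/
structure Dev (Z : Type) [TopologicalSpace Z] where
  /-- the support -/
  V : Set Z
  /-- the first map -/
  φ : C(Z, Z)
  /-- the second map -/
  ψ : C(Z, Z)
  φ_id : ∀ z, z ∉ V → φ z = z
  ψ_id : ∀ z, z ∉ V → ψ z = z
  φ_mem : ∀ z ∈ V, φ z ∈ V
  ψ_mem : ∀ z ∈ V, ψ z ∈ V
  disj : ∀ x ∈ V, ∀ y ∈ V, φ x ≠ ψ y

namespace Dev

variable {Z : Type} [TopologicalSpace Z]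

/-- the composition of the first maps, the head of the list is applied last -/
def cφ : List (Dev Z) → C(Z, Z)
  | [] => ContinuousMap.id Z
  | d :: l => d.φ.comp (cφ l)

/-- the composition of the second maps -/
def cψ : List (Dev Z) → C(Z, Z)
  | [] => ContinuousMap.id Z
  | d :: l => d.ψ.comp (cψ l)

/-- the device with the maps exchanged -/
def swap (D : Dev Z) : Dev Z where
  V := D.V
  φ := D.ψ
  ψ := D.φ
  φ_id := D.ψ_id
  ψ_id := D.φ_id
  φ_mem := D.ψ_mem
  ψ_mem := D.φ_mem
  disj := fun x hx y hy h => D.disj y hy x hx h.symm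

theorem cφ_swap (l : List (Dev Z)) : cφ (l.map swap) = cψ l := by
  induction l with
  | nil => rfl
  | cons d l ih => rw [List.map_cons, cφ, cψ, ih]; rfl

theorem cφ_append (l l' : List (Dev Z)) : cφ (l ++ l') = (cφ l).comp (cφ l') := by
  induction l with
  | nil => rfl
  | cons d l ih => rw [List.cons_append, cφ, ih]; rfl

theorem cψ_append (l l' : List (Dev Z)) : cψ (l ++ l') = (cψ l).comp (cψ l') := by
  induction l with
  | nil => rfl
  | cons d l ih => rw [List.cons_append, cψ, ih]; rfl

/-- a common value of the two compositions lies outside of all supports -/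
theorem not_mem_of_eq (l : List (Dev Z)) : ∀ x y, cφ l x = cψ l y → ∀ d ∈ l, cφ l x ∉ d.V := by
  induction l with
  | nil => intro x y _ d hd; exact absurd hd List.not_mem_nil
  | cons a l ih =>
    intro x y hxy d hd
    have e1 : cφ (a :: l) x = a.φ (cφ l x) := rfl
    have e2 : cψ (a :: l) y = a.ψ (cψ l y) := rfl
    have h1 : cφ l x ∉ a.V := by
      intro hx
      by_cases hy : cψ l y ∈ a.V
      · exact a.disj _ hx _ hy (by rw [← e1, ← e2]; exact hxy)
      · have h2 := a.φ_mem _ hx
        rw [← e1, hxy, e2, a.ψ_id _ hy] at h2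
        exact hy h2
    have h2 : cφ (a :: l) x = cφ l x := by rw [e1, a.φ_id _ h1]
    have h3 : cψ l y ∉ a.V := by
      intro hy
      have h4 := a.ψ_mem _ hy
      rw [← e2, ← hxy, h2] at h4
      exact h1 h4
    have h4 : cψ (a :: l) y = cψ l y := by rw [e2, a.ψ_id _ h3]
    rw [h2, h4] at hxy
    rw [h2]
    rcases List.mem_cons.1 hd with rfl | hd
    · exact h1
    · exact ih x y hxy d hd

/-- **the device lemma** -/
theorem disjoint_of_cover {l : List (Dev Z)} (hl : ∀ z, ∃ d ∈ l, z ∈ d.V) (x y : Z) :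
    cφ l x ≠ cψ l y := by
  intro h
  obtain ⟨d, hd, hz⟩ := hl (cφ l x)
  exact not_mem_of_eq l x y h d hd hz

/-- two points are joined by a set of the group -/
def Rel (G : List (Dev Z)) (a b : Z) : Prop := ∃ d ∈ G, a ∈ d.V ∧ b ∈ d.V

theorem Rel.mono {G G' : List (Dev Z)} (h : ∀ d ∈ G, d ∈ G') {a b : Z} (hab : Rel G a b) :
    Rel G' a b := by
  obtain ⟨d, hd, h1⟩ := hab
  exact ⟨d, h d hd, h1⟩

theorem rel_swap (G : List (Dev Z)) {a b : Z} : Rel (G.map swap) a b ↔ Rel G a b := by
  constructor
  · rintro ⟨d, hd, h1⟩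
    obtain ⟨d', hd', rfl⟩ := List.mem_map.1 hd
    exact ⟨d', hd', h1⟩
  · rintro ⟨d, hd, h1⟩
    exact ⟨d.swap, List.mem_map.2 ⟨d, hd, rfl⟩, h1⟩

theorem chain_cφ (G : List (Dev Z)) (z : Z) : Relation.ReflTransGen (Rel G) z (cφ G z) := by
  induction G with
  | nil => exact Relation.ReflTransGen.refl
  | cons d G ih =>
    have h1 : Relation.ReflTransGen (Rel (d :: G)) z (cφ G z) :=
      ih.lift id fun _ _ h => Rel.mono (fun _ hd' => List.mem_cons_of_mem d hd') h
    by_cases hz : cφ G z ∈ d.V
    · exact h1.tail ⟨d, List.mem_cons_self, hz, d.φ_mem _ hz⟩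
    · have e1 : cφ (d :: G) z = cφ G z := d.φ_id _ hz
      rw [e1]
      exact h1

end Dev

variable {Z : Type} [MetricSpace Z]

/-- displacement of the composition over a list of groups -/
theorem Dev.dist_cφ_le {c : ℝ} (L : List (List (Dev Z)))
    (hL : ∀ G ∈ L, ∀ a b, Relation.ReflTransGen (Dev.Rel G) a b → dist a b ≤ c) (z : Z) :
    dist (Dev.cφ L.flatten z) z ≤ L.length * c := by
  induction L with
  | nil => simp [Dev.cφ]
  | cons G L ih =>
    have h1 := ih fun G' hG' => hL G' (List.mem_cons_of_mem G hG')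
    have h2 := hL G List.mem_cons_self _ _ (Dev.chain_cφ G (Dev.cφ L.flatten z))
    rw [List.flatten_cons, Dev.cφ_append, ContinuousMap.comp_apply, List.length_cons]
    push_cast
    have h3 := dist_triangle (Dev.cφ G (Dev.cφ L.flatten z)) (Dev.cφ L.flatten z) z
    rw [dist_comm] at h2
    linarith

theorem Dev.dist_cψ_le {c : ℝ} (L : List (List (Dev Z)))
    (hL : ∀ G ∈ L, ∀ a b, Relation.ReflTransGen (Dev.Rel G) a b → dist a b ≤ c) (z : Z) :
    dist (Dev.cψ L.flatten z) z ≤ L.length * c := by
  have h1 := Dev.dist_cφ_le (L.map fun G => G.map Dev.swap) (c := c) (fun G' hG' a b hab => by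
    obtain ⟨G, hG, rfl⟩ := List.mem_map.1 hG'
    exact hL G hG a b (hab.lift id fun _ _ h => (Dev.rel_swap G).1 h)) z
  have h2 : (L.map fun G => G.map Dev.swap).flatten = L.flatten.map Dev.swap :=
    (List.map_flatten (f := Dev.swap) (L := L)).symm
  rw [h2, Dev.cφ_swap, List.length_map] at h1
  exact h1

/-- **Disjoint approximations from groups of devices.** -/
theorem dd_of_groups
    (H : ∀ ε > 0, ∃ (L : List (List (Dev Z))) (c : ℝ), (∀ z, ∃ G ∈ L, ∃ d ∈ G, z ∈ d.V) ∧
      (∀ G ∈ L, ∀ a b, Relation.ReflTransGen (Dev.Rel G) a b → dist a b ≤ c) ∧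
      L.length * c < ε) : DD Z := by
  intro ε hε
  obtain ⟨L, c, h1, h2, h3⟩ := H ε hε
  refine ⟨Dev.cφ L.flatten, Dev.cψ L.flatten, fun x => (Dev.dist_cφ_le L h2 x).trans_lt h3,
    fun x => (Dev.dist_cψ_le L h2 x).trans_lt h3, Dev.disjoint_of_cover fun z => ?_⟩
  obtain ⟨G, hG, d, hd, hz⟩ := h1 z
  exact ⟨d, List.mem_flatten.2 ⟨G, hG, hd⟩, hz⟩

/-- a greedy colouring -/
theorem exists_colouring {α : Type*} (R : α → α → Prop) (N : ℕ)
    (hfin : ∀ a, {b | R a b ∨ R b a}.Finite) (hN : ∀ a, {b | R a b ∨ R b a}.ncard ≤ N)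
    (T : Finset α) :
    ∃ κ : α → Fin (N + 1), ∀ a ∈ T, ∀ b ∈ T, a ≠ b → R a b → κ a ≠ κ b := by
  classical
  induction T using Finset.induction_on with
  | empty => exact ⟨fun _ => 0, fun a ha => absurd ha (Finset.notMem_empty a)⟩
  | insert x T hx ih =>
    obtain ⟨κ, hκ⟩ := ih
    -- a colour which is not used by the neighbours of `x`
    obtain ⟨k, hk⟩ : ∃ k : Fin (N + 1), ∀ b, (R x b ∨ R b x) → κ b ≠ k := by
      by_contra hcon
      push Not at hcon
      have h1 : (univ : Set (Fin (N + 1))) ⊆ κ '' {b | R x b ∨ R b x} := by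
        intro k _
        obtain ⟨b, hb, hbk⟩ := hcon k
        exact ⟨b, hb, hbk⟩
      have h2 := ncard_le_ncard h1 ((hfin x).image κ)
      have h3 := ncard_image_le (f := κ) (hfin x)
      rw [ncard_univ, Nat.card_eq_fintype_card, Fintype.card_fin] at h2
      have := hN x
      omega
    refine ⟨Function.update κ x k, fun a ha b hb hab hR => ?_⟩
    rcases Finset.mem_insert.1 ha with rfl | ha'
    · rcases Finset.mem_insert.1 hb with rfl | hb'
      · exact absurd rfl hab
      · rw [Function.update_self, Function.update_of_ne (Ne.symm hab)]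
        exact (hk b (Or.inl hR)).symm
    · rcases Finset.mem_insert.1 hb with rfl | hb'
      · rw [Function.update_self, Function.update_of_ne hab]
        exact hk a (Or.inr hR)
      · have ha2 : a ≠ x := fun h => hx (h ▸ ha')
        have hb2 : b ≠ x := fun h => hx (h ▸ hb')
        rw [Function.update_of_ne ha2, Function.update_of_ne hb2]
        exact hκ a ha' b hb' hab hR

end BD
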