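import Pool.Agent.Work.MP_de2d29_al.HalfB
import Pool.Agent.Work.MP_de2d29_al.DevPan

/-!
# BUILDING: the device of a panel (block F, piece DV)

`X.exists_dev`: base point `b = mk c b₀` with `lor b₀ (e s) < 0`. If the half `V_c'` of the boundary
can be folded onto the half `V_c''`, for all chambers `c' ≠ c''` of the `s`-panel of `c` different
from `c`, then there is a device on the boundary whose open set consists of the rays from `b` which
cross the wall of the panel.
-/

set_option autoImplicit false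

open Set Metric Topology Filter

namespace BD

variable {d : ℕ} {ι C : Type} {M : CoxeterMatrix ι} {e : ι → Mink d} {hP : CoxPoly M e}
  {Δ : Building M C} [Finite ι]

/-- **The device of a panel.** -/
theorem X.exists_dev (hT : Δ.Thick) (hL : Δ.LocFinite) {c : C} {s : ι} {b₀ : poly e}
    (hb : lor (b₀ : Mink d) (e s) < 0)
    (fold : ∀ c' c'' : C, PanAdj Δ s c c' → PanAdj Δ s c c'' → c ≠ c' → c ≠ c'' → c' ≠ c'' →
      ∃ Ψ : X.Hat hP Δ (X.mk hP Δ c b₀) → X.Hat hP Δ (X.mk hP Δ c b₀),
        ContinuousOn Ψ (X.Bd hP Δ (X.mk hP Δ c b₀) ∩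
          (X.VO b₀ c c' s ∪ {z | X.asyA c s b₀ z = 0})) ∧
        (∀ z ∈ X.Bd hP Δ (X.mk hP Δ c b₀), X.asyA c s b₀ z = 0 → Ψ z = z) ∧
        ∀ z ∈ X.Bd hP Δ (X.mk hP Δ c b₀), z ∈ X.VO b₀ c c' s →
          Ψ z ∈ X.Bd hP Δ (X.mk hP Δ c b₀) ∧ Ψ z ∈ X.VO b₀ c c'' s) :
    ∃ D : Dev (X.Bd hP Δ (X.mk hP Δ c b₀)), IsOpen D.V ∧
      D.V = {z | 0 < X.asyA c s b₀ z.1} := by
  classical
  set b := X.mk hP Δ c b₀ with hbdef
  let J₁ : Type := {c' : C // PanAdj Δ s c c' ∧ c ≠ c'}
  have hJ₁ : Finite J₁ := by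
    have h1 : {c' : C | PanAdj Δ s c c' ∧ c ≠ c'}.Finite := by
      refine (hL c s).subset fun c' hc' => ?_
      exact Δ.adj_symm (hc'.1.adj hc'.2)
    exact h1.to_subtype
  let dM : Set (X.Bd hP Δ b) := {z | X.asyA c s b₀ z.1 = 0}
  let V : Option J₁ → Set (X.Bd hP Δ b) := fun j => match j with
    | none => {z | X.asyA c s b₀ z.1 < 0}
    | some c' => {z | z.1 ∈ X.VO b₀ c c'.1 s}
  have hA : Continuous fun z : X.Bd hP Δ b => X.asyA c s b₀ z.1 :=
    (X.continuous_asyA hL).comp continuous_subtype_val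
  have hVpos : ∀ (c' : J₁) (z : X.Bd hP Δ b), z.1 ∈ X.VO b₀ c c'.1 s → 0 < X.asyA c s b₀ z.1 :=
    fun c' z hz => ((X.vo_iff hL hb c'.2.1 c'.2.2 z.2).1 hz).1
  obtain ⟨a₁, a₂, h12, ha₁, ha₂⟩ := hT c s
  have hne : ∀ a : C, Δ.δ a c = M.simple s → PanAdj Δ s c a ∧ c ≠ a := by
    intro a ha
    refine ⟨Or.inr (Δ.adj_symm ha), ?_⟩
    rintro rfl
    rw [(Δ.eq_one c c).2 rfl] at ha
    have h1 := M.toCoxeterSystem.length_simple s
    rw [M.toCoxeterSystem_simple, ← ha, M.toCoxeterSystem.length_one] at h1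
    exact absurd h1 (by norm_num)
  let j₁ : J₁ := ⟨a₁, hne a₁ ha₁⟩
  let j₂ : J₁ := ⟨a₂, hne a₂ ha₂⟩
  have hj : j₁ ≠ j₂ := fun h => h12 (congrArg Subtype.val h)
  suffices H : ∃ D : Dev (X.Bd hP Δ b), D.V = ⋃ j ∈ {j | j ≠ none}, V j by
    obtain ⟨D, hD⟩ := H
    have hDV : D.V = {z | 0 < X.asyA c s b₀ z.1} := by
      rw [hD]
      ext z
      rw [mem_iUnion₂]
      constructor
      · rintro ⟨j, hj, hz⟩
        cases j with
        | none => exact absurd rfl hj
        | some c' => exact hVpos c' z hz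
      · intro hz
        obtain ⟨c', h1, h2, h3⟩ := X.vo_cover hL hb z.2 hz
        exact ⟨some ⟨c', h1, h2⟩, Option.some_ne_none _, h3⟩
    exact ⟨D, by rw [hDV]; exact isOpen_lt continuous_const hA, hDV⟩
  refine BD.exists_dev V dM ?_ ?_ ?_ ?_ (j₀ := none) (j₁ := some j₁) (j₂ := some j₂)
    (Option.some_ne_none _) (Option.some_ne_none _) (fun h => hj (Option.some.inj h)) ?_
  · -- disjoint
    intro i j hij
    rw [Set.disjoint_left]
    intro z hi hj
    cases i with
    | none =>
      cases j with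
      | none => exact hij rfl
      | some c' =>
        have h1 : X.asyA c s b₀ z.1 < 0 := hi
        exact absurd (hVpos c' z hj) (not_lt.2 h1.le)
    | some c' =>
      cases j with
      | none =>
        have h1 : X.asyA c s b₀ z.1 < 0 := hj
        exact absurd (hVpos c' z hi) (not_lt.2 h1.le)
      | some c'' =>
        refine hij (congrArg some (Subtype.ext ?_))
        exact X.vo_disj hL hb c'.2.1 c'.2.2 c''.2.1 c''.2.2 z.2 hi hj
  · -- disjoint from the wall
    intro j
    rw [Set.disjoint_left]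
    intro z hz hz0
    have h0 : X.asyA c s b₀ z.1 = 0 := hz0
    cases j with
    | none =>
      have h1 : X.asyA c s b₀ z.1 < 0 := hz
      linarith
    | some c' =>
      have h1 := hVpos c' z hz
      linarith
  · -- closed
    intro j
    cases j with
    | none =>
      have : V none ∪ dM = {z | X.asyA c s b₀ z.1 ≤ 0} := by
        ext z
        exact (le_iff_lt_or_eq (a := X.asyA c s b₀ z.1) (b := 0)).symm
      rw [this]
      exact isClosed_le hA continuous_const
    | some c' =>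
      have h1 := (X.isClosed_vo_dm hL hb c'.2.1 c'.2.2).preimage
        (continuous_subtype_val (p := fun z => z ∈ X.Bd hP Δ b))
      have h2 : V (some c') ∪ dM = Subtype.val ⁻¹' (X.Bd hP Δ (X.mk hP Δ c b₀) ∩
          (X.VO b₀ c c'.1 s ∪ {z | X.asyA c s b₀ z = 0})) := by
        ext z
        constructor
        · intro h
          exact ⟨z.2, h⟩
        · rintro ⟨-, h⟩
          exact h
      rw [h2]
      exact h1
  · -- cover
    intro z
    rcases lt_trichotomy (X.asyA c s b₀ z.1) 0 with h | h | h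
    · exact Or.inr ⟨none, h⟩
    · exact Or.inl h
    · obtain ⟨c', h1, h2, h3⟩ := X.vo_cover hL hb z.2 h
      exact Or.inr ⟨some ⟨c', h1, h2⟩, h3⟩
  · -- the foldings
    intro i j hij hi hj
    cases i with
    | none => exact absurd rfl hi
    | some c' =>
      cases j with
      | none => exact absurd rfl hj
      | some c'' =>
        obtain ⟨Ψ, h1, h2, h3⟩ := fold c'.1 c''.1 c'.2.1 c''.2.1 c'.2.2 c''.2.2
          (fun h => hij (congrArg some (Subtype.ext h)))
        let Θ : X.Bd hP Δ b → X.Bd hP Δ b := fun z =>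
          if h : Ψ z.1 ∈ X.Bd hP Δ b then ⟨Ψ z.1, h⟩ else z
        have hΘ : ∀ z : X.Bd hP Δ b, Ψ z.1 ∈ X.Bd hP Δ b → (Θ z).1 = Ψ z.1 := by
          intro z hz
          simp only [Θ, dif_pos hz]
        have hmem : ∀ z : X.Bd hP Δ b, z ∈ V (some c') ∪ dM → Ψ z.1 ∈ X.Bd hP Δ b := by
          rintro z (hz | hz)
          · exact (h3 z.1 z.2 hz).1
          · rw [h2 z.1 z.2 hz]
            exact z.2
        refine ⟨Θ, ?_, ?_, ?_⟩
        · have h4 : ContinuousOn (fun z : X.Bd hP Δ b => (Θ z).1) (V (some c') ∪ dM) := by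
            refine ((h1.comp continuous_subtype_val.continuousOn fun z hz => ?_)).congr
              fun z hz => hΘ z (hmem z hz)
            exact ⟨z.2, hz⟩
          exact continuousOn_iff_continuous_domRestrict.2
            (continuous_induced_rng.2 (continuousOn_iff_continuous_domRestrict.1 h4))
        · intro z hz
          refine Subtype.ext ?_
          rw [hΘ z (hmem z (Or.inr hz))]
          exact h2 z.1 z.2 hz
        · intro z hz
          show (Θ z).1 ∈ X.VO b₀ c c''.1 s
          rw [hΘ z (hmem z (Or.inl hz))]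
          exact (h3 z.1 z.2 hz).2

end BD
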