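import Pool.Agent.Work.MP_de2d29_al.HypT

/-!
# Geodesic segments in hyperbolic space

* `geo x y t`: the point at distance `t` from `x` on the geodesic segment from `x` to `y`.
-/

set_option autoImplicit false

open Set

namespace BD

variable {d : ℕ}

theorem sum_sq_eq {x : Mink d} (hx : x ∈ Hyp d) : ∑ i : Fin d, x i.succ ^ 2 = x 0 ^ 2 - 1 := by
  have h := hx.1
  unfold lor at h
  have : ∑ i : Fin d, x i.succ * x i.succ = ∑ i : Fin d, x i.succ ^ 2 :=
    Finset.sum_congr rfl fun i _ => by ring
  rw [this] at h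
  nlinarith

theorem one_le_time {x : Mink d} (hx : x ∈ Hyp d) : 1 ≤ x 0 := by
  have h1 := sum_sq_eq hx
  have h2 : 0 ≤ ∑ i : Fin d, x i.succ ^ 2 := Finset.sum_nonneg fun i _ => sq_nonneg _
  have h3 := hx.2
  nlinarith

theorem hdist_eq_of_cosh {x y : Mink d} {t : ℝ} (ht : 0 ≤ t) (h : -lor x y = Real.cosh t) :
    hdist x y = t := by
  unfold hdist
  rw [h]
  exact Real.arcosh_cosh ht

/-! ## Geodesic segments -/

/-- the point at distance `t` from `x` on the geodesic segment from `x` to `y` -/
noncomputable def geo (x y : Mink d) (t : ℝ) : Mink d :=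
  (Real.sinh (hdist x y - t) / Real.sinh (hdist x y)) • x +
    (Real.sinh t / Real.sinh (hdist x y)) • y

section geo

variable {x y : Mink d} (hx : x ∈ Hyp d) (hy : y ∈ Hyp d) (hne : x ≠ y)

include hx hy hne

theorem hdist_pos : 0 < hdist x y :=
  lt_of_le_of_ne (hdist_nonneg hx hy) fun h => hne (eq_of_hdist hx hy h.symm)

theorem lor_geo_left (t : ℝ) : lor (geo x y t) x = -Real.cosh t := by
  have hs : Real.sinh (hdist x y) ≠ 0 := (Real.sinh_pos_iff.2 (hdist_pos hx hy hne)).ne'
  have hc : lor y x = -Real.cosh (hdist x y) := by rw [cosh_hdist hx hy, lor_symm]; ring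
  unfold geo
  rw [lor_add_left, lor_smul_left, lor_smul_left, hx.1, hc, Real.sinh_sub]
  field_simp
  ring

theorem lor_geo_right (t : ℝ) : lor (geo x y t) y = -Real.cosh (hdist x y - t) := by
  have hs : Real.sinh (hdist x y) ≠ 0 := (Real.sinh_pos_iff.2 (hdist_pos hx hy hne)).ne'
  have hc : lor x y = -Real.cosh (hdist x y) := by rw [cosh_hdist hx hy]; ring
  unfold geo
  rw [lor_add_left, lor_smul_left, lor_smul_left, hy.1, hc, Real.sinh_sub, Real.cosh_sub]
  field_simp
  have := Real.cosh_sq (hdist x y)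
  linear_combination Real.sinh t * this

theorem lor_geo_self (t : ℝ) : lor (geo x y t) (geo x y t) = -1 := by
  have hs : Real.sinh (hdist x y) ≠ 0 := (Real.sinh_pos_iff.2 (hdist_pos hx hy hne)).ne'
  have h1 := lor_geo_left hx hy hne t
  have h2 := lor_geo_right hx hy hne t
  have h3 : lor (geo x y t) (geo x y t) =
      (Real.sinh (hdist x y - t) / Real.sinh (hdist x y)) * lor (geo x y t) x +
      (Real.sinh t / Real.sinh (hdist x y)) * lor (geo x y t) y := by
    conv_lhs => rw [show lor (geo x y t) (geo x y t) = lor (geo x y t)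
      ((Real.sinh (hdist x y - t) / Real.sinh (hdist x y)) • x +
        (Real.sinh t / Real.sinh (hdist x y)) • y) from rfl]
    rw [lor_add_right, lor_smul_right, lor_smul_right]
  rw [h3, h1, h2]
  have h4 : Real.sinh (hdist x y) = Real.sinh (hdist x y - t) * Real.cosh t +
      Real.cosh (hdist x y - t) * Real.sinh t := by
    rw [← Real.sinh_add]; congr 1; ring
  field_simp
  linarith

theorem geo_mem {t : ℝ} (h0 : 0 ≤ t) (h1 : t ≤ hdist x y) : geo x y t ∈ Hyp d := by
  refine ⟨lor_geo_self hx hy hne t, ?_⟩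
  have hs : 0 < Real.sinh (hdist x y) := Real.sinh_pos_iff.2 (hdist_pos hx hy hne)
  have h2 : 0 ≤ Real.sinh (hdist x y - t) := Real.sinh_nonneg_iff.2 (by linarith)
  have h3 : 0 ≤ Real.sinh t := Real.sinh_nonneg_iff.2 h0
  have h4 : 0 < Real.sinh (hdist x y - t) + Real.sinh t := by
    rcases h0.eq_or_lt with h | h
    · rw [← h, sub_zero, Real.sinh_zero, add_zero]; exact hs
    · have := Real.sinh_pos_iff.2 h
      linarith
  show 0 < (Real.sinh (hdist x y - t) / Real.sinh (hdist x y)) * x 0 +
    (Real.sinh t / Real.sinh (hdist x y)) * y 0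
  have e : (Real.sinh (hdist x y - t) / Real.sinh (hdist x y)) * x 0 +
    (Real.sinh t / Real.sinh (hdist x y)) * y 0 =
    (Real.sinh (hdist x y - t) * x 0 + Real.sinh t * y 0) / Real.sinh (hdist x y) := by
    field_simp
  rw [e]
  apply div_pos _ hs
  have h5 := one_le_time hx
  have h6 := one_le_time hy
  nlinarith

theorem hdist_geo_left {t : ℝ} (h0 : 0 ≤ t) : hdist x (geo x y t) = t := by
  apply hdist_eq_of_cosh h0
  rw [lor_symm, lor_geo_left hx hy hne, neg_neg]

theorem hdist_geo_right {t : ℝ} (h1 : t ≤ hdist x y) :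
    hdist (geo x y t) y = hdist x y - t := by
  apply hdist_eq_of_cosh (by linarith)
  rw [lor_geo_right hx hy hne, neg_neg]

theorem geo_zero : geo x y 0 = x := by
  have hs : Real.sinh (hdist x y) ≠ 0 := (Real.sinh_pos_iff.2 (hdist_pos hx hy hne)).ne'
  unfold geo
  rw [sub_zero, Real.sinh_zero, zero_div, zero_smul, add_zero, div_self hs, one_smul]

theorem geo_end : geo x y (hdist x y) = y := by
  have hs : Real.sinh (hdist x y) ≠ 0 := (Real.sinh_pos_iff.2 (hdist_pos hx hy hne)).ne'
  unfold geo
  rw [sub_self, Real.sinh_zero, zero_div, zero_smul, zero_add, div_self hs, one_smul]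

omit hx hy hne in
theorem continuous_geo (x y : Mink d) : Continuous (geo x y) := by
  unfold geo
  exact ((Real.continuous_sinh.comp (continuous_const.sub continuous_id)).div_const _ |>.smul
    continuous_const).add ((Real.continuous_sinh.div_const _).smul continuous_const)

end geo

end BD
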