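import Pool.Agent.Work.MP_de2d29_al.XRad
import Pool.Agent.Work.MP_de2d29_al.Geo

/-!
# BUILDING: the retraction of the realisation onto hyperbolic space and the radial maps

* `HypSp d`: hyperbolic space as a metric space, with distance `hdist`.
* `hrad o`: its radial maps, `hcat_hyp`: they satisfy the comparison inequality.
* `Mdl.ret c₀`: the retraction centred at the chamber `c₀`; `Mdl.ret_mk`, `Mdl.dist_ret_le`,
  `Mdl.dist_ret`.
* `Mdl.ret_rad`: the retraction commutes with the radial maps.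
-/

set_option autoImplicit false

open Set
open Pool.Agent.Work.MP_de2d29_al RootBasis

namespace BD

variable {d : ℕ}

/-- hyperbolic space -/
@[ext] structure HypSp (d : ℕ) : Type where
  /-- the point of the hyperboloid -/
  val : Mink d
  mem : val ∈ Hyp d

noncomputable instance HypSp.instMetricSpace : MetricSpace (HypSp d) where
  dist x y := hdist x.1 y.1
  dist_self x := hdist_self x.2
  dist_comm x y := hdist_symm x.1 y.1
  dist_triangle x y z := hdist_triangle x.2 y.2 z.2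
  eq_of_dist_eq_zero {x y} h := HypSp.ext (eq_of_hdist x.2 y.2 h)

theorem HypSp.dist_eq (x y : HypSp d) : dist x y = hdist x.1 y.1 := rfl

theorem HypSp.cosh_dist (x y : HypSp d) : Real.cosh (dist x y) = -lor x.1 y.1 :=
  cosh_hdist x.2 y.2

theorem HypSp.ne_of_lt {o x : HypSp d} {t : ℝ} (h : 0 ≤ t ∧ t < dist o x) : o.1 ≠ x.1 := by
  intro h1
  have h2 : o = x := HypSp.ext h1
  rw [h2, dist_self] at h
  exact absurd h.1 (not_le.2 h.2)

/-- the radial maps of hyperbolic space -/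
noncomputable def hrad (o : HypSp d) (t : ℝ) (x : HypSp d) : HypSp d := by
  classical
  exact if h : 0 ≤ t ∧ t < dist o x then
    ⟨geo o.1 x.1 t, geo_mem o.2 x.2 (HypSp.ne_of_lt h) h.1 h.2.le⟩ else x

theorem hrad_val {o x : HypSp d} {t : ℝ} (h : 0 ≤ t ∧ t < dist o x) :
    (hrad o t x).1 = geo o.1 x.1 t := by
  unfold hrad
  rw [dif_pos h]

theorem hrad_of_le {o x : HypSp d} {t : ℝ} (h : dist o x ≤ t) : hrad o t x = x := by
  unfold hrad
  rw [dif_neg]
  rintro ⟨-, h2⟩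
  exact absurd h (not_le.2 h2)

/-- **the comparison inequality** (an equality) -/
theorem hcat_hyp (o : HypSp d) : HCat (HypSp d) o (hrad o) where
  big t x hx := hrad_of_le hx
  cat t x y h0 h1 := by
    have hs : 0 < Real.sinh (dist o x) := Real.sinh_pos_iff.2 (h0.trans_lt h1)
    rw [HypSp.cosh_dist, HypSp.cosh_dist, HypSp.cosh_dist, hrad_val ⟨h0, h1⟩]
    unfold geo
    rw [lor_add_left, lor_smul_left, lor_smul_left, ← HypSp.dist_eq]
    refine le_of_eq ?_
    field_simp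
    ring

namespace Mdl

variable {ι C X : Type} {M : CoxeterMatrix ι} {e : ι → Mink d} [MetricSpace X]
variable {h : CoxPoly M e} {Δ : Building M C} {mk : C → poly e → X} (m : Mdl h Δ mk)
include m

/-- the retraction centred at `c₀` -/
noncomputable def ret (c₀ : C) (q : X) : HypSp d :=
  ⟨h.rep (Δ.δ c₀ (m.surj q).choose) (m.surj q).choose_spec.choose,
    h.rep_mem_Hyp _ (m.surj q).choose_spec.choose.2.1⟩

theorem hdist_rep_le (c₀ c : C) (x : poly e) (c' : C) (y : poly e) :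
    hdist (h.rep (Δ.δ c₀ c) (x : Mink d)) (h.rep (Δ.δ c₀ c') (y : Mink d)) ≤
      dist (mk c x) (mk c' y) := by
  have h1 := h.rep_mem_Hyp (Δ.δ c₀ c) x.2.1
  have h2 := h.rep_mem_Hyp (Δ.δ c₀ c') y.2.1
  refine le_of_cosh_le (hdist_nonneg h1 h2) dist_nonneg ?_
  rw [m.cosh_dist, cosh_hdist h1 h2]
  exact neg_le_neg (retr_le h.rootBasis Δ x.2.2 y.2.2 c₀ c c')

theorem ret_mk (c₀ c : C) (x : poly e) :
    m.ret c₀ (mk c x) = ⟨h.rep (Δ.δ c₀ c) x, h.rep_mem_Hyp _ x.2.1⟩ := by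
  refine HypSp.ext ?_
  have h0 := (m.surj (mk c x)).choose_spec.choose_spec
  have h1 := m.hdist_rep_le c₀ (m.surj (mk c x)).choose (m.surj (mk c x)).choose_spec.choose c x
  rw [h0, dist_self] at h1
  have h2 := h.rep_mem_Hyp (Δ.δ c₀ (m.surj (mk c x)).choose)
    (m.surj (mk c x)).choose_spec.choose.2.1
  have h3 := h.rep_mem_Hyp (Δ.δ c₀ c) x.2.1
  exact eq_of_hdist h2 h3 (le_antisymm h1 (hdist_nonneg h2 h3))

theorem ret_mk_val (c₀ c : C) (x : poly e) : (m.ret c₀ (mk c x)).1 = h.rep (Δ.δ c₀ c) x := by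
  rw [m.ret_mk]

theorem ret_self (c₀ : C) (x : poly e) : m.ret c₀ (mk c₀ x) = ⟨x, x.2.1⟩ := by
  rw [m.ret_mk]
  refine HypSp.ext ?_
  show h.rep (Δ.δ c₀ c₀) (x : Mink d) = x
  rw [(Δ.eq_one c₀ c₀).2 rfl, h.rep_one]

/-- the retraction is `1`-Lipschitz -/
theorem dist_ret_le (c₀ : C) (p q : X) : dist (m.ret c₀ p) (m.ret c₀ q) ≤ dist p q := by
  obtain ⟨c, x, rfl⟩ := m.surj p
  obtain ⟨c', y, rfl⟩ := m.surj q
  rw [m.ret_mk, m.ret_mk]
  exact m.hdist_rep_le c₀ c x c' y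

/-- the retraction preserves the distance to the points of the central chamber -/
theorem dist_ret (c₀ : C) (x : poly e) (q : X) :
    dist (mk c₀ x) q = dist (⟨x, x.2.1⟩ : HypSp d) (m.ret c₀ q) := by
  obtain ⟨c', y, rfl⟩ := m.surj q
  rw [m.ret_mk, m.dist_mk]
  rfl

theorem continuous_ret (c₀ : C) : Continuous (m.ret c₀) :=
  (LipschitzWith.of_dist_le_mul (K := 1) fun x y => by
    rw [NNReal.coe_one, one_mul]
    exact m.dist_ret_le c₀ x y).continuous

/-- **the retraction commutes with the radial maps** -/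
theorem ret_rad [Finite ι] (c₀ : C) (o₀ : poly e) {t : ℝ} (ht : 0 ≤ t) (q : X) :
    m.ret c₀ (m.rad (mk c₀ o₀) t q) = hrad ⟨o₀, o₀.2.1⟩ t (m.ret c₀ q) := by
  have hX := m.hcat (mk c₀ o₀)
  have hH := hcat_hyp (⟨o₀, o₀.2.1⟩ : HypSp d)
  have hq := m.dist_ret c₀ o₀ q
  rcases le_or_gt (dist (mk c₀ o₀) q) t with h1 | h1
  · rw [hX.big t q h1, hrad_of_le (by rw [← hq]; exact h1)]
  obtain ⟨e1, e2⟩ := hX.dist_left ht h1.le
  have hz := m.dist_ret c₀ o₀ (m.rad (mk c₀ o₀) t q)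
  have h2 := m.dist_ret_le c₀ (m.rad (mk c₀ o₀) t q) q
  have h3 := dist_triangle (⟨o₀, o₀.2.1⟩ : HypSp d) (m.ret c₀ (m.rad (mk c₀ o₀) t q))
    (m.ret c₀ q)
  have h4 := hH.uniq (x := m.ret c₀ q) (y := m.ret c₀ (m.rad (mk c₀ o₀) t q)) (by
    apply le_antisymm _ h3
    rw [← hz, ← hq]
    linarith)
  rw [← hz, e1] at h4
  exact h4

end Mdl

end BD
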