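import Pool.Agent.Work.MP_de2d29_al.XRad

/-!
# BUILDING: local finiteness

* `Building.finite_δ`: in a locally finite building there are finitely many chambers with given
  Weyl distance from a chamber.
* `Mdl.hfin`: finitely many chambers meet a ball.
* `Mdl.radSp'`, `Mdl.pushOff_sphere'`: the results of `XRad` for locally finite buildings.
-/

set_option autoImplicit false

open Set Metric Topology Filter
open Pool.Agent.Work.MP_de2d29_al RootBasis

namespace BD

variable {ι C X : Type} {n d : ℕ} {M : CoxeterMatrix ι} {e : ι → Mink d}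

theorem Building.finite_δ' {Δ : Building M C} (hL : Δ.LocFinite) (c₀ : C) (w : M.Group) :
    {c | Δ.δ c c₀ = w}.Finite := by
  induction w using CoxPoly.simple_induction with
  | one =>
    refine (finite_singleton c₀).subset fun c hc => ?_
    exact (Δ.eq_one c c₀).1 hc
  | mul i w ih =>
    refine (ih.biUnion fun c' _ => hL c' i).subset fun c hc => ?_
    have hc' : Δ.δ c c₀ = M.simple i * w := hc
    obtain ⟨c', h1, h2⟩ := Δ.exist c c₀ i
    rw [hc', ← mul_assoc] at h2
    have h3 : M.simple i * M.simple i = 1 := by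
      have := M.toCoxeterSystem.simple_mul_simple_self i
      rwa [M.toCoxeterSystem_simple] at this
    rw [h3, one_mul] at h2
    refine mem_biUnion (show c' ∈ {c | Δ.δ c c₀ = w} from h2) ?_
    show Δ.δ c c' = M.simple i
    exact Δ.adj_symm h1

theorem Building.finite_δ {Δ : Building M C} (hL : Δ.LocFinite) (c₀ : C) (w : M.Group) :
    {c | Δ.δ c₀ c = w}.Finite := by
  refine (Building.finite_δ' hL c₀ w⁻¹).subset fun c hc => ?_
  show Δ.δ c c₀ = w⁻¹
  rw [Δ.δ_symm c₀ c]
  exact congrArg _ hc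

variable [MetricSpace X] {h : CoxPoly M e} {Δ : Building M C} {mk : C → poly e → X}

/-- **finitely many chambers meet a ball** -/
theorem Mdl.hfin [Finite ι] (m : Mdl h Δ mk) (hL : Δ.LocFinite) (o : X) (r : ℝ) :
    {c : C | ∃ x : poly e, dist o (mk c x) ≤ r}.Finite := by
  obtain ⟨c₀, o₀, rfl⟩ := m.surj o
  obtain ⟨N, hN⟩ := h.exists_card_tiles_dist r
  refine ((hN (o₀ : Mink d) o₀.2.1).1.biUnion fun w _ => Building.finite_δ hL c₀ w).subset
    fun c hc => ?_
  obtain ⟨x, hx⟩ := hc
  rw [m.dist_mk] at hx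
  exact mem_biUnion (show Δ.δ c₀ c ∈ {w : M.Group | ∃ y ∈ poly e,
    hdist (o₀ : Mink d) (h.rep w y) ≤ r} from ⟨x, x.2, hx⟩) rfl

theorem Mdl.radSp' [Finite ι] (m : Mdl h Δ mk) (hL : Δ.LocFinite) (o : X) :
    RadSp X o (m.rad o) := m.radSp (m.hfin hL) o

theorem Mdl.pushOff_sphere' {e : ι → Mink (n + 1)} {h : CoxPoly M e} {mk : C → poly e → X}
    [Finite ι] (m : Mdl h Δ mk) (hL : Δ.LocFinite) (o : X) (t : ℝ) :
    Pool.Agent.Work.MP_017613_gt.PushOff n (sphere o t) := m.pushOff_sphere (m.hfin hL) o t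

/-- **The boundary**: everything except the filtration by cells -/
theorem Mdl.bdry_of {e : ι → Mink (n + 1)} {h : CoxPoly M e} {mk : C → poly e → X}
    [Finite ι] (m : Mdl h Δ mk) (hL : Δ.LocFinite) (o : X)
    {K Q : ℕ → Set (XHat o (m.rad o))} (hS : Sys n K Q) (h0 : K 0 = univ)
    (hlim : Lim K = HBdry o (m.rad o)) :
    Pool.Agent.Work.MP_017613_gt.PushOff n (HBdry o (m.rad o)) ∧ MG.ULC n (HBdry o (m.rad o)) ∧
      MG.Conn n (HBdry o (m.rad o)) :=
  (m.radSp' hL o).bdry_props hS h0 hlim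
    (fun t => (m.radSp' hL o).ball_in_ulc (fun x => ⟨_, m.radSp' hL x⟩) n t)
    fun t _ => m.pushOff_sphere' hL o t

end BD
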