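import Pool.Agent.Work.MP_de2d29_al.JChain
import Pool.Agent.Work.MP_de2d29_al.FinCh

/-!
# BUILDING: chains with small steps over a small ball of the model

* `CoxPoly.lor_rep_le`: the folding onto the polytope is `1`-Lipschitz.
* `CoxPoly.exists_star`: a Lebesgue number of the polytope for the open stars of its points.
* `Mdl.star_chain`: a chain of points of the realisation with small steps whose retractions stay in
  a small ball stays in the star of one point.
-/

set_option autoImplicit false

open Set Metric Topology Filter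

namespace BD

variable {ι C X : Type} {d : ℕ} {M : CoxeterMatrix ι} {e : ι → Mink d}

namespace CoxPoly

/-- the folding onto the polytope does not increase distances, in terms of the form -/
theorem lor_rep_le (h : CoxPoly M e) {x y : Mink d} (hx : x ∈ poly e) (hy : y ∈ poly e)
    (w : M.Group) : lor x (h.rep w y) ≤ lor x y := by
  suffices H : ∀ n, ∀ w : M.Group, M.toCoxeterSystem.length w = n →
      lor x (h.rep w y) ≤ lor x y from H _ w rfl
  intro n
  induction n with
  | zero =>
    intro w hw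
    rw [M.toCoxeterSystem.length_eq_zero_iff.1 hw, h.rep_one]
  | succ n ih =>
    intro w hw
    have hw1 : w ≠ 1 := fun h1 => by
      rw [h1, M.toCoxeterSystem.length_one] at hw
      omega
    obtain ⟨i, hi⟩ := Building.length_simple_mul_lt hw1
    have hl := Building.length_succ hi
    set v := M.simple i * w with hv
    have hwv : w = M.simple i * v := by rw [hv, ← mul_assoc, Building.simple_mul_simple, one_mul]
    have h1 := ih v (by omega)
    have h2 : ¬ M.toCoxeterSystem.IsLeftDescent v i := by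
      intro h3
      have h4 := M.toCoxeterSystem.isLeftDescent_iff.1 h3
      rw [M.toCoxeterSystem_simple, ← hwv] at h4
      omega
    have h3 : lor (h.rep v y) (e i) ≤ 0 := h.left_le hy.2 h2
    rw [hwv, h.rep_mul, h.rep_simple]
    unfold refl
    rw [lor_sub_right, lor_smul_right]
    have h4 := hx.2 i
    nlinarith

theorem hdist_le_rep (h : CoxPoly M e) {x y : Mink d} (hx : x ∈ poly e) (hy : y ∈ poly e)
    (w : M.Group) : hdist x y ≤ hdist x (h.rep w y) := by
  have h1 := h.lor_rep_le hx hy w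
  have h2 := one_le_neg_lor hx.1 hy.1
  unfold hdist
  exact (Real.arcosh_le_arcosh (by linarith) (by linarith)).2 (by linarith)

/-- folding two arbitrary points -/
theorem hdist_le_rep_rep (h : CoxPoly M e) {x y : Mink d} (hx : x ∈ poly e) (hy : y ∈ poly e)
    (w w' : M.Group) : hdist x y ≤ hdist (h.rep w x) (h.rep w' y) := by
  have h1 := h.hdist_le_rep hx hy (w⁻¹ * w')
  rwa [h.rep_mul, ← h.hdist_rep w x (h.rep w⁻¹ _), h.rep_apply_inv] at h1

end CoxPoly

variable [MetricSpace X] {h : CoxPoly M e} {Δ : Building M C} {mk : C → poly e → X}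

/-- **Lebesgue number** for the open stars of the points of the polytope -/
theorem Mdl.exists_star [Finite ι] (m : Mdl h Δ mk) :
    ∃ η > 0, ∀ p ∈ poly e, ∃ v ∈ poly e, ∀ q ∈ poly e, hdist p q < η →
      ∀ i, lor q (e i) = 0 → lor v (e i) = 0 := by
  classical
  obtain ⟨c⟩ := Δ.ne
  -- locally
  have hloc : ∀ v : poly e, ∃ η > 0, ∀ q : poly e, dist (mk c v) (mk c q) < η →
      ∀ i, lor (q : Mink d) (e i) = 0 → lor (v : Mink d) (e i) = 0 := by
    intro v
    have : CompactSpace (poly e) := isCompact_iff_compactSpace.1 h.compact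
    let B : Set (poly e) := ⋃ i ∈ {i : ι | lor (v : Mink d) (e i) ≠ 0},
      {q : poly e | lor (q : Mink d) (e i) = 0}
    have hB : IsClosed B := by
      refine (Set.toFinite _).isClosed_biUnion fun i _ => ?_
      exact isClosed_eq ((continuous_lor_left (e i)).comp continuous_subtype_val)
        continuous_const
    have hK : IsClosed (mk c '' B) := (hB.isCompact.image (m.continuous_mk c)).isClosed
    have hv : mk c v ∉ mk c '' B := by
      rintro ⟨q, hq, hqv⟩
      rw [m.injective_mk c hqv] at hq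
      obtain ⟨i, hi, h1⟩ := mem_iUnion₂.1 hq
      exact hi h1
    obtain ⟨η, hη, hb⟩ := Metric.isOpen_iff.1 hK.isOpen_compl _ hv
    refine ⟨η, hη, fun q hq i hi => ?_⟩
    by_contra hcon
    refine hb (mem_ball'.2 hq) ⟨q, mem_iUnion₂.2 ⟨i, hcon, hi⟩, rfl⟩
  choose η hη hstar using hloc
  obtain ⟨δ, hδ, hleb⟩ := lebesgue_number_lemma_of_metric (c := fun v : poly e =>
    ball (mk c v) (η v)) (m.compact_range c) (fun v => isOpen_ball) (by
      rintro _ ⟨v, rfl⟩
      exact mem_iUnion.2 ⟨v, mem_ball_self (hη v)⟩)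
  refine ⟨δ, hδ, fun p hp => ?_⟩
  obtain ⟨v, hv⟩ := hleb (mk c ⟨p, hp⟩) ⟨_, rfl⟩
  refine ⟨v, v.2, fun q hq hpq i hi => ?_⟩
  refine hstar v ⟨q, hq⟩ ?_ i hi
  rw [dist_comm]
  refine mem_ball.1 (hv ?_)
  rw [mem_ball, dist_comm, m.isometry_like]
  exact hpq

/-- passing through a facet at a point of the facet -/
theorem Mdl.mk_pass (m : Mdl h Δ mk) {c c' : C} {i : ι} (hc : Δ.δ c c' = M.simple i)
    {v : poly e} (hv : lor (v : Mink d) (e i) = 0) : mk c v = mk c' v := by
  rw [← dist_eq_zero, m.dist_mk, hc, h.rep_simple]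
  have h1 : refl (e i) (v : Mink d) = v := by
    unfold refl
    rw [hv, mul_zero, zero_smul, sub_zero]
  rw [h1]
  exact hdist_self v.2.1

theorem Chain.nonneg {p q : C × poly e} {L : ℝ} (hc : Chain e Δ p q L) : 0 ≤ L := by
  induction hc with
  | nil p => exact le_rfl
  | move c x y q L _ ih => exact add_nonneg (hdist_nonneg x.2.1 y.2.1) ih
  | pass c c' i x q L _ _ _ ih => exact ih

/-- a short chain stays in the star of a point -/
theorem Mdl.chain_star (m : Mdl h Δ mk) {v : poly e} {p q : C × poly e} {L : ℝ}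
    (hc : Chain e Δ p q L)
    (hv : ∀ x : poly e, hdist (p.2 : Mink d) x ≤ L → ∀ i, lor (x : Mink d) (e i) = 0 →
      lor (v : Mink d) (e i) = 0) : mk p.1 v = mk q.1 v := by
  induction hc with
  | nil p => rfl
  | move c x y q L hq ih =>
    refine ih fun x' hx' i hi => hv x' ?_ i hi
    have := hdist_triangle x.2.1 y.2.1 x'.2.1
    exact this.trans (add_le_add_right hx' _)
  | pass c c' i x q L h1 h2 hq ih =>
    have h3 : lor (v : Mink d) (e i) = 0 := hv x (by
      show hdist (x : Mink d) x ≤ L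
      rw [hdist_self x.2.1]
      exact hq.nonneg) i h2
    show mk c v = mk q.1 v
    rw [m.mk_pass h1 h3]
    exact ih hv

/-- **Chains with small steps over a small ball are short.** -/
theorem Mdl.star_chain [Finite ι] (m : Mdl h Δ mk) :
    ∃ η > 0, ∃ D : ℝ, ∀ (c₀ : C) (R : X → Mink d)
      (_ : ∀ c (x : poly e), R (mk c x) = h.rep (Δ.δ c₀ c) x) (x y : X),
      Relation.ReflTransGen (fun a b => dist a b < η ∧ hdist (R b) (R x) < η) x y →
      dist x y ≤ D := by
  obtain ⟨η, hη, hst⟩ := m.exists_star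
  obtain ⟨D, hD0, hD⟩ := h.exists_diam
  refine ⟨η / 2, half_pos hη, 2 * D, fun c₀ R hR x y hxy => ?_⟩
  obtain ⟨c, p, rfl⟩ := m.surj x
  obtain ⟨v, hv, hst⟩ := hst p p.2
  suffices H : ∀ y, Relation.ReflTransGen
      (fun a b => dist a b < η / 2 ∧ hdist (R b) (R (mk c p)) < η / 2) (mk c p) y →
      ∃ (c' : C) (q : poly e), mk c' q = y ∧ hdist (q : Mink d) p < η / 2 ∧
        mk c ⟨v, hv⟩ = mk c' ⟨v, hv⟩ by
    obtain ⟨c', q, rfl, -, h2⟩ := H y hxy
    have h3 := dist_triangle (mk c p) (mk c ⟨v, hv⟩) (mk c' q)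
    have h4 : dist (mk c p) (mk c ⟨v, hv⟩) ≤ D := by
      rw [m.isometry_like]
      exact hD _ p.2 _ hv
    have h5 : dist (mk c ⟨v, hv⟩) (mk c' q) ≤ D := by
      rw [h2, m.isometry_like]
      exact hD _ hv _ q.2
    linarith
  intro y hy
  induction hy with
  | refl => exact ⟨c, p, rfl, by rw [hdist_self p.2.1]; exact half_pos hη, rfl⟩
  | @tail a b _ hab ih =>
    obtain ⟨c', q, rfl, h1, h2⟩ := ih
    obtain ⟨c'', q', rfl⟩ := m.surj b
    obtain ⟨h3, h4⟩ := hab
    refine ⟨c'', q', rfl, ?_, ?_⟩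
    · rw [hR, hR] at h4
      exact (h.hdist_le_rep_rep q'.2 p.2 _ _).trans_lt h4
    · rw [h2]
      rw [m.dist_mk] at h3
      refine m.chain_star (exists_chain h _ c' c'' q q' rfl) fun x hx i hi => ?_
      refine hst x x.2 ?_ i hi
      have h5 := hdist_triangle p.2.1 q.2.1 x.2.1
      rw [hdist_symm (p : Mink d) q] at h5
      have h6 : hdist (q : Mink d) x < η / 2 := lt_of_le_of_lt hx h3
      linarith

end BD
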