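import Pool.Agent.Work.MP_de2d29_al.DevXHat
import Pool.Agent.Work.MP_de2d29_al.StarX
import Pool.Agent.Work.MP_de2d29_al.RetRad

/-!
# BUILDING: disjoint approximations on the boundary from thin devices

`Mdl.dd_of_dev`: the ideal boundary (seen from `o`) of the realisation of a locally finite building
has disjoint approximations of the identity, if every ray lies, for every time `r`, in the open set
of a device which is thin at the time `r`.
-/

set_option autoImplicit false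

open Set Metric Topology Filter
open Pool.Agent.Work.MP_017613_gt (DD)

namespace BD

variable {ι C X : Type} {d : ℕ} {M : CoxeterMatrix ι} {e : ι → Mink d} [MetricSpace X]
  {h : CoxPoly M e} {Δ : Building M C} {mk : C → poly e → X}

/-- **Disjoint approximations of the identity of the boundary from thin devices.** -/
theorem Mdl.dd_of_dev [Finite ι] (m : Mdl h Δ mk) (hL : Δ.LocFinite) (o : X) (C₁ : ℝ)
    (H : ∀ (r : ℕ) (z : HBdry o (m.rad o)), ∃ E : Dev (HBdry o (m.rad o)), IsOpen E.V ∧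
      z ∈ E.V ∧ ∀ x ∈ E.V, ∀ y ∈ E.V, dist (x.1.1 r) (y.1.1 r) ≤ C₁) :
    DD (HBdry o (m.rad o)) := by
  obtain ⟨c₀, o₀, rfl⟩ := m.surj o
  obtain ⟨η, hη, D, hstar⟩ := m.star_chain
  obtain ⟨D₁, hD₁, hdiam⟩ := h.exists_diam
  have hmem : ∀ w : M.Group, h.rep w (o₀ : Mink d) ∈ Hyp d := fun w => h.rep_mem_Hyp w o₀.2.1
  refine dd_of_dev_abs (Y := HypSp d) (m.radSp' hL _) (m.hcat _) (hcat_hyp ⟨(o₀ : Mink d), o₀.2.1⟩)
    (m.ret c₀) (m.dist_ret_le c₀) (fun x => (m.dist_ret c₀ o₀ x).symm)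
    (fun t x ht => m.ret_rad c₀ o₀ ht x) (η := η) (D := D) hη
    (fun x y hxy => hstar c₀ (fun q => (m.ret c₀ q).1) (fun c x => m.ret_mk_val c₀ c x) x y hxy)
    (W := M.Group) (fun w => ⟨h.rep w (o₀ : Mink d), hmem w⟩) (D₁ := D₁) ?_ ?_ H
  · intro x
    obtain ⟨c, p, rfl⟩ := m.surj x
    refine ⟨Δ.δ c₀ c, ?_⟩
    show hdist (h.rep (Δ.δ c₀ c) (o₀ : Mink d)) (m.ret c₀ (mk c p)).1 ≤ D₁
    rw [m.ret_mk_val, h.hdist_rep]
    exact hdiam _ o₀.2 _ p.2
  · intro R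
    obtain ⟨N, hN⟩ := h.exists_card_tiles_dist R
    refine ⟨N, fun w => ?_⟩
    have hsub : {w' : M.Group | dist (⟨h.rep w (o₀ : Mink d), hmem w⟩ : HypSp d)
        ⟨h.rep w' (o₀ : Mink d), hmem w'⟩ ≤ R} ⊆
        {w' : M.Group | ∃ y ∈ poly e, hdist (h.rep w (o₀ : Mink d)) (h.rep w' y) ≤ R} :=
      fun w' hw' => ⟨o₀, o₀.2, hw'⟩
    have h1 := hN _ (hmem w)
    exact ⟨h1.1.subset hsub, (ncard_le_ncard hsub h1.1).trans h1.2⟩

end BD
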