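import Pool.Agent.Work.MP_de2d29_al.XCat
import Pool.Agent.Work.MP_de2d29_al.DevDD

/-!
# BUILDING: disjoint approximations on the boundary from thin devices

`dd_of_dev_abs`: the boundary `HBdry o p` has disjoint approximations of the identity if every ray
lies, for every time `r`, in the open set of a device which is thin at the time `r`. The
displacement is controlled by a `1`-Lipschitz map `ret` to a model `Y`: chains of points of `X` with
small steps over a small ball of `Y` are short.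
-/

set_option autoImplicit false

open Set Metric Topology Filter Real
open Pool.Agent.Work.MP_017613_gt (DD)

namespace BD

variable {X Y : Type} [MetricSpace X] [MetricSpace Y] {o : X} {p : ℝ → X → X}

/-- two rays which are close at the time `t` -/
theorem HBdry.dist_le_of_coord (hX : RadSp X o p) (hC : HCat X o p) {D : ℝ} (hD : 0 ≤ D) {t : ℕ}
    (ht : 0 < t) {a b : HBdry o p} (h : dist (a.1.1 t) (b.1.1 t) ≤ D) :
    dist a b ≤ (2 * sinh (D / 2) + 2 + D) * exp (-t) := by
  have hsD : 0 ≤ sinh (D / 2) := sinh_nonneg_iff.2 (by linarith)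
  rw [Subtype.dist_eq]
  refine XHat.dist_le fun s => ?_
  rcases le_or_gt s t with hst | hst
  · have h1 := hC.visual (r := (s : ℝ)) (s := (t : ℝ)) (x := a.1.1 t) (y := b.1.1 t) (δ := D)
      (Nat.cast_nonneg s) (by exact_mod_cast hst) (by exact_mod_cast ht) (a.2 t).ge (b.2 t).ge h
    rw [hX.coord_min hst, hX.coord_min hst] at h1
    have h2 := mul_le_mul_of_nonneg_left h1 (exp_pos (-(s : ℝ))).le
    refine h2.trans ?_
    have h3 : exp (-(s : ℝ)) * (2 * sinh (D / 2) * exp ((s : ℝ) - t)) =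
        2 * sinh (D / 2) * exp (-(t : ℝ)) := by
      have : exp (-(t : ℝ)) = exp (-(s : ℝ)) * exp ((s : ℝ) - t) := by
        rw [← exp_add]; congr 1; ring
      rw [this]; ring
    rw [h3]
    have := exp_pos (-(t : ℝ))
    nlinarith
  · have hst' : (t : ℝ) ≤ s := by exact_mod_cast hst.le
    have hmv : ∀ x : HBdry o p, dist (x.1.1 t) (x.1.1 s) ≤ (s : ℝ) - t := by
      intro x
      have h1 := hX.move (t : ℝ) (s : ℝ) (x.1.1 s) (Nat.cast_nonneg t) hst'
      rwa [hX.coord_min hst.le, hX.fix _ _ (x.1.2 s).1] at h1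
    have h1 : dist (a.1.1 s) (b.1.1 s) ≤ 2 * ((s : ℝ) - t) + D := by
      have e1 := dist_triangle (a.1.1 s) (a.1.1 t) (b.1.1 s)
      have e2 := dist_triangle (a.1.1 t) (b.1.1 t) (b.1.1 s)
      have e3 := hmv a
      have e4 := hmv b
      rw [dist_comm] at e3
      linarith
    have h2 := mul_le_mul_of_nonneg_left h1 (exp_pos (-(s : ℝ))).le
    refine h2.trans ?_
    set u : ℝ := (s : ℝ) - t with hu
    have hu0 : 0 ≤ u := by linarith
    have e1 : exp (-(s : ℝ)) = exp (-(t : ℝ)) * exp (-u) := by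
      rw [← exp_add]; congr 1; rw [hu]; ring
    have e2 : exp (-u) ≤ 1 := exp_le_one_iff.2 (by linarith)
    have e3 : exp (-u) * u ≤ 1 := by
      have h3 : u ≤ exp u := by linarith [add_one_le_exp u]
      have h4 : exp (-u) * exp u = 1 := by rw [← exp_add]; simp
      calc exp (-u) * u ≤ exp (-u) * exp u := mul_le_mul_of_nonneg_left h3 (exp_pos _).le
        _ = 1 := h4
    rw [e1, mul_assoc, mul_comm _ (exp (-(t : ℝ)))]
    refine mul_le_mul_of_nonneg_left ?_ (exp_pos _).le
    have e4 : exp (-u) * D ≤ D := by nlinarith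
    nlinarith

/-- **Disjoint approximations from thin devices**, abstract form. -/
theorem dd_of_dev_abs (hX : RadSp X o p) (hC : HCat X o p)
    {oY : Y} {q : ℝ → Y → Y} (hY : HCat Y oY q) (ret : X → Y)
    (ret_le : ∀ x y, dist (ret x) (ret y) ≤ dist x y)
    (ret_o : ∀ x, dist oY (ret x) = dist o x)
    (ret_p : ∀ t x, 0 ≤ t → ret (p t x) = q t (ret x))
    {η D : ℝ} (hη : 0 < η)
    (hstar : ∀ x y : X, Relation.ReflTransGen
      (fun a b => dist a b < η ∧ dist (ret b) (ret x) < η) x y → dist x y ≤ D)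
    {W : Type} (bw : W → Y) {D₁ : ℝ} (hbw : ∀ x : X, ∃ w, dist (bw w) (ret x) ≤ D₁)
    (hcard : ∀ R : ℝ, ∃ N : ℕ, ∀ w, {w' | dist (bw w) (bw w') ≤ R}.Finite ∧
      {w' | dist (bw w) (bw w') ≤ R}.ncard ≤ N)
    {C₁ : ℝ} (H : ∀ (r : ℕ) (z : HBdry o p), ∃ E : Dev (HBdry o p), IsOpen E.V ∧ z ∈ E.V ∧
      ∀ x ∈ E.V, ∀ y ∈ E.V, dist (x.1.1 r) (y.1.1 r) ≤ C₁) : DD (HBdry o p) := by
  classical
  have cX := hX.compactSpace
  have cB : CompactSpace (HBdry o p) := isCompact_iff_compactSpace.1 isClosed_HBdry.isCompact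
  by_cases hne : Nonempty (HBdry o p)
  swap
  · exact fun ε _ => ⟨ContinuousMap.id _, ContinuousMap.id _, fun x => (hne ⟨x⟩).elim,
      fun x => (hne ⟨x⟩).elim, fun x => (hne ⟨x⟩).elim⟩
  obtain ⟨z₀⟩ := hne
  -- signs of the constants
  have hC₁ : 0 ≤ C₁ := by
    obtain ⟨E, -, hz, hE⟩ := H 0 z₀
    exact dist_nonneg.trans (hE z₀ hz z₀ hz)
  have hD₁ : 0 ≤ D₁ := by
    obtain ⟨w, hw⟩ := hbw o
    exact dist_nonneg.trans hw
  have hD : 0 ≤ D := by
    have := hstar o o Relation.ReflTransGen.refl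
    rwa [dist_self] at this
  set C₂ : ℝ := 2 * (C₁ + D₁) with hC₂
  have hC₂0 : 0 ≤ C₂ := by positivity
  set S : ℝ := 2 * sinh (C₁ / 2) + 2 * sinh (C₂ / 2) with hS
  have hs1 : 0 ≤ sinh (C₁ / 2) := sinh_nonneg_iff.2 (by linarith)
  have hs2 : 0 ≤ sinh (C₂ / 2) := sinh_nonneg_iff.2 (by linarith)
  have htend : Tendsto (fun n : ℕ => exp (-(n : ℝ))) atTop (𝓝 0) :=
    (Real.tendsto_exp_neg_atTop_nhds_zero).comp tendsto_natCast_atTop_atTop
  obtain ⟨L, hL⟩ : ∃ L : ℕ, S * exp (-(L : ℝ)) < η := by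
    have h1 := htend.const_mul S
    rw [mul_zero] at h1
    exact (h1.eventually (gt_mem_nhds hη)).exists
  obtain ⟨N, hN⟩ := hcard C₂
  set K : ℝ := 2 * sinh (D / 2) + 2 + D with hK
  apply dd_of_groups
  intro ε hε
  obtain ⟨t, ht0, ht⟩ : ∃ t : ℕ, 0 < t ∧ ((N + 1 : ℕ) : ℝ) * (K * exp (-(t : ℝ))) < ε := by
    have h1 := (htend.const_mul K).const_mul ((N + 1 : ℕ) : ℝ)
    rw [mul_zero, mul_zero] at h1
    obtain ⟨t, h2, h3⟩ := ((eventually_gt_atTop 0).and (h1.eventually (gt_mem_nhds hε))).exists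
    exact ⟨t, h2, h3⟩
  -- the devices
  choose E hEo hEz hEC using H (t + L)
  choose w hw using fun z : HBdry o p => hbw (z.1.1 (t + L))
  obtain ⟨F, hF⟩ := isCompact_univ.elim_nhds_subcover (fun z : HBdry o p => (E z).V)
    fun z _ => (hEo z).mem_nhds (hEz z)
  have hsymm : ∀ a : W, {b | dist (bw a) (bw b) ≤ C₂ ∨ dist (bw b) (bw a) ≤ C₂} =
      {b | dist (bw a) (bw b) ≤ C₂} := by
    intro a
    ext b
    simp only [mem_ofPred_eq]
    rw [dist_comm (bw b), or_self]
  obtain ⟨κ, hκ⟩ := exists_colouring (fun a b : W => dist (bw a) (bw b) ≤ C₂) N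
    (fun a => by rw [hsymm]; exact (hN a).1) (fun a => by rw [hsymm]; exact (hN a).2)
    (F.image w)
  let G : Fin (N + 1) → List (Dev (HBdry o p)) := fun k =>
    (F.filter fun z => κ (w z) = k).toList.map E
  have hG : ∀ k d, d ∈ G k ↔ ∃ z ∈ F, κ (w z) = k ∧ E z = d := by
    intro k d
    simp only [G, List.mem_map, Finset.mem_toList, Finset.mem_filter]
    constructor
    · rintro ⟨z, ⟨h1, h2⟩, h3⟩
      exact ⟨z, h1, h2, h3⟩
    · rintro ⟨z, h1, h2, h3⟩
      exact ⟨z, ⟨h1, h2⟩, h3⟩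
  refine ⟨(List.finRange (N + 1)).map G, K * exp (-(t : ℝ)), ?_, ?_, ?_⟩
  · intro z
    obtain ⟨z', hz', hzz⟩ := mem_iUnion₂.1 (hF.2 (mem_univ z))
    exact ⟨G (κ (w z')), List.mem_map.2 ⟨_, List.mem_finRange _, rfl⟩, E z',
      (hG _ _).2 ⟨z', hz', rfl, rfl⟩, hzz⟩
  swap
  · rw [List.length_map, List.length_finRange]
    exact ht
  rintro _ hGk a b hab
  obtain ⟨k, -, rfl⟩ := List.mem_map.1 hGk
  -- `ret` of the rays of the set of a device
  have hret : ∀ z x, x ∈ (E z).V → dist (bw (w z)) (ret (x.1.1 (t + L))) ≤ C₁ + D₁ := by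
    intro z x hx
    have h1 := dist_triangle (bw (w z)) (ret (z.1.1 (t + L))) (ret (x.1.1 (t + L)))
    have h2 := ret_le (z.1.1 (t + L)) (x.1.1 (t + L))
    have h3 := hEC z z (hEz z) x hx
    have h4 := hw z
    linarith
  by_cases ha : ∃ z ∈ F, κ (w z) = k ∧ a ∈ (E z).V
  swap
  · have : b = a := by
      rcases hab.cases_head with h1 | ⟨c, ⟨d, hd, hda, -⟩, -⟩
      · exact h1.symm
      · obtain ⟨z, h1, h2, rfl⟩ := (hG _ _).1 hd
        exact absurd ⟨z, h1, h2, hda⟩ ha
    rw [this, dist_self]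
    have : 0 ≤ sinh (D / 2) := sinh_nonneg_iff.2 (by linarith)
    positivity
  obtain ⟨za, hza, hka, hva⟩ := ha
  have key : ∀ b, Relation.ReflTransGen (Dev.Rel (G k)) a b →
      (∃ z ∈ F, κ (w z) = k ∧ w z = w za ∧ b ∈ (E z).V) ∧
      Relation.ReflTransGen (fun x y => dist x y < η ∧ dist (ret y) (ret (a.1.1 t)) < η)
        (a.1.1 t) (b.1.1 t) := by
    intro b hab
    induction hab with
    | refl => exact ⟨⟨za, hza, hka, rfl, hva⟩, Relation.ReflTransGen.refl⟩
    | @tail b c _ hbc ih =>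
      obtain ⟨⟨z, hz, hkz, hwz, hbz⟩, hch⟩ := ih
      obtain ⟨d, hd, hbd, hcd⟩ := hbc
      obtain ⟨z', hz', hkz', rfl⟩ := (hG _ _).1 hd
      -- the label does not change
      have hlab : w z' = w za := by
        rw [← hwz]
        by_contra hne
        refine hκ (w z') (Finset.mem_image_of_mem w hz') (w z) (Finset.mem_image_of_mem w hz) hne
          ?_ (by rw [hkz, hkz'])
        have h1 := hret z' b hbd
        have h2 := hret z b hbz
        have h3 := dist_triangle (bw (w z')) (ret (b.1.1 (t + L))) (bw (w z))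
        rw [dist_comm (ret _)] at h3
        show dist (bw (w z')) (bw (w z)) ≤ C₂
        rw [hC₂]
        linarith
      refine ⟨⟨z', hz', hkz', hlab, hcd⟩, hch.tail ⟨?_, ?_⟩⟩
      · -- the step is small
        have h1 := hC.visual (r := (t : ℝ)) (s := ((t + L : ℕ) : ℝ)) (x := b.1.1 (t + L))
          (y := c.1.1 (t + L)) (δ := C₁) (Nat.cast_nonneg t)
          (by push_cast; linarith [Nat.cast_nonneg (α := ℝ) L])
          (by exact_mod_cast (by omega : 0 < t + L)) (b.2 _).ge (c.2 _).ge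
          (hEC z' b hbd c hcd)
        rw [hX.coord_min (Nat.le_add_right t L), hX.coord_min (Nat.le_add_right t L)] at h1
        refine h1.trans_lt (lt_of_le_of_lt ?_ hL)
        have h2 : (t : ℝ) - ((t + L : ℕ) : ℝ) = -(L : ℝ) := by push_cast; ring
        rw [h2]
        refine mul_le_mul_of_nonneg_right ?_ (exp_pos _).le
        rw [hS]
        linarith
      · -- the image in the model stays in a small ball
        have hc := hret z' c hcd
        have ha' := hret za a hva
        rw [hlab] at hc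
        have h0 : dist (ret (c.1.1 (t + L))) (ret (a.1.1 (t + L))) ≤ C₂ := by
          have h3 := dist_triangle (ret (c.1.1 (t + L))) (bw (w za)) (ret (a.1.1 (t + L)))
          rw [dist_comm (ret (c.1.1 (t + L))) (bw (w za))] at h3
          rw [hC₂]
          linarith
        have hn : ∀ x : HBdry o p, ((t + L : ℕ) : ℝ) ≤ dist oY (ret (x.1.1 (t + L))) := by
          intro x
          rw [ret_o]
          exact (x.2 _).ge
        have h1 := hY.visual (r := (t : ℝ)) (s := ((t + L : ℕ) : ℝ)) (x := ret (c.1.1 (t + L)))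
          (y := ret (a.1.1 (t + L))) (δ := C₂) (Nat.cast_nonneg t)
          (by push_cast; linarith [Nat.cast_nonneg (α := ℝ) L])
          (by exact_mod_cast (by omega : 0 < t + L)) (hn c) (hn a) h0
        rw [← ret_p _ _ (Nat.cast_nonneg t), ← ret_p _ _ (Nat.cast_nonneg t),
          hX.coord_min (Nat.le_add_right t L), hX.coord_min (Nat.le_add_right t L)] at h1
        refine h1.trans_lt (lt_of_le_of_lt ?_ hL)
        have h2 : (t : ℝ) - ((t + L : ℕ) : ℝ) = -(L : ℝ) := by push_cast; ring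
        rw [h2]
        refine mul_le_mul_of_nonneg_right ?_ (exp_pos _).le
        rw [hS]
        linarith
  exact HBdry.dist_le_of_coord hX hC hD ht0 (hstar _ _ (key b hab).2)

end BD
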