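import Mathlib

/-!
# Radial retraction of a polyhedral cone from an element `m`

`l i : V →ₗ[ℝ] ℝ`, `m` with `l i m < 0` for `i ∈ U`. `ext U l m x = min_{i ∈ U} l i x / l i m` is the
time at which the ray `x - t m` leaves the cone `{l i ≤ 0}`.
-/

open Set

namespace Bld

variable {V S : Type*} [AddCommGroup V] [Module ℝ V]

/-- exit time -/
noncomputable def ext (U : Finset S) (hU : U.Nonempty) (l : S → V →ₗ[ℝ] ℝ) (m x : V) : ℝ :=
  U.inf' hU fun i => l i x / l i m

variable {U : Finset S} {hU : U.Nonempty} {l : S → V →ₗ[ℝ] ℝ} {m x : V}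

theorem ext_le {i : S} (hi : i ∈ U) : ext U hU l m x ≤ l i x / l i m :=
  Finset.inf'_le _ hi

theorem le_ext_iff {t : ℝ} : t ≤ ext U hU l m x ↔ ∀ i ∈ U, t ≤ l i x / l i m := by
  simp [ext, Finset.le_inf'_iff]

theorem exists_ext_eq : ∃ i ∈ U, ext U hU l m x = l i x / l i m := by
  obtain ⟨i, hi, h⟩ := Finset.exists_mem_eq_inf' hU (fun i => l i x / l i m)
  exact ⟨i, hi, h⟩

theorem ext_nonneg (hm : ∀ i ∈ U, l i m < 0) (hx : ∀ i ∈ U, l i x ≤ 0) :
    0 ≤ ext U hU l m x :=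
  le_ext_iff.2 fun i hi => div_nonneg_of_nonpos (hx i hi) (hm i hi).le

theorem ext_add_smul (hm : ∀ i ∈ U, l i m < 0) (t : ℝ) :
    ext U hU l m (x + t • m) = ext U hU l m x + t := by
  have h : ∀ i ∈ U, l i (x + t • m) / l i m = l i x / l i m + t := fun i hi => by
    rw [map_add, map_smul, smul_eq_mul, add_div, mul_div_assoc, div_self (hm i hi).ne, mul_one]
  apply le_antisymm
  · obtain ⟨i, hi, h1⟩ := exists_ext_eq (hU := hU) (l := l) (m := m) (x := x)
    rw [h1, ← h i hi]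
    exact ext_le hi
  · rw [le_ext_iff]
    intro i hi
    rw [h i hi]
    exact add_le_add_left (ext_le hi) t

theorem ext_smul {t : ℝ} (ht : 0 ≤ t) : ext U hU l m (t • x) = t * ext U hU l m x := by
  have h : ∀ i ∈ U, l i (t • x) / l i m = t * (l i x / l i m) := fun i _ => by
    rw [map_smul, smul_eq_mul, mul_div_assoc]
  apply le_antisymm
  · obtain ⟨i, hi, h1⟩ := exists_ext_eq (hU := hU) (l := l) (m := m) (x := x)
    rw [h1, ← h i hi]
    exact ext_le hi
  · rw [le_ext_iff]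
    intro i hi
    rw [h i hi]
    exact mul_le_mul_of_nonneg_left (ext_le hi) ht

/-- the radial retraction -/
noncomputable def rtr (U : Finset S) (hU : U.Nonempty) (l : S → V →ₗ[ℝ] ℝ) (m x : V) : V :=
  x - ext U hU l m x • m

theorem rtr_le (hm : ∀ i ∈ U, l i m < 0) {i : S} (hi : i ∈ U) : l i (rtr U hU l m x) ≤ 0 := by
  have h1 := ext_le (hU := hU) (l := l) (m := m) (x := x) hi
  rw [le_div_iff_of_neg (hm i hi)] at h1
  rw [rtr, map_sub, map_smul, smul_eq_mul]
  linarith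

/-- on the functionals vanishing at `m` nothing is changed -/
theorem rtr_of_zero {f : V →ₗ[ℝ] ℝ} (hf : f m = 0) : f (rtr U hU l m x) = f x := by
  rw [rtr, map_sub, map_smul, hf, smul_zero, sub_zero]

theorem exists_rtr_eq_zero (hm : ∀ i ∈ U, l i m < 0) : ∃ i ∈ U, l i (rtr U hU l m x) = 0 := by
  obtain ⟨i, hi, h1⟩ := exists_ext_eq (hU := hU) (l := l) (m := m) (x := x)
  refine ⟨i, hi, ?_⟩
  rw [rtr, map_sub, map_smul, h1, smul_eq_mul, div_mul_cancel₀ _ (hm i hi).ne, sub_self]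

/-- points of the outer faces are fixed -/
theorem ext_eq_zero (hm : ∀ i ∈ U, l i m < 0) (hx : ∀ i ∈ U, l i x ≤ 0) {i : S} (hi : i ∈ U)
    (h : l i x = 0) : ext U hU l m x = 0 := by
  apply le_antisymm
  · have := ext_le (hU := hU) (l := l) (m := m) (x := x) hi
    rwa [h, zero_div] at this
  · exact ext_nonneg hm hx

theorem rtr_eq_self (hm : ∀ i ∈ U, l i m < 0) (hx : ∀ i ∈ U, l i x ≤ 0) {i : S} (hi : i ∈ U)
    (h : l i x = 0) : rtr U hU l m x = x := by
  rw [rtr, ext_eq_zero hm hx hi h, zero_smul, sub_zero]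

theorem rtr_add_smul (hm : ∀ i ∈ U, l i m < 0) (t : ℝ) :
    rtr U hU l m (x + t • m) = rtr U hU l m x := by
  rw [rtr, rtr, ext_add_smul hm, add_smul]
  abel

theorem rtr_smul {t : ℝ} (ht : 0 ≤ t) : rtr U hU l m (t • x) = t • rtr U hU l m x := by
  rw [rtr, rtr, ext_smul ht, smul_sub, smul_smul]

theorem rtr_rtr (hm : ∀ i ∈ U, l i m < 0) : rtr U hU l m (rtr U hU l m x) = rtr U hU l m x := by
  obtain ⟨i, hi, h⟩ := exists_rtr_eq_zero (hU := hU) (x := x) hm
  exact rtr_eq_self hm (fun j hj => rtr_le hm hj) hi h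

/-- two points on the same ray from `m` in outer faces are equal -/
theorem eq_of_ray (hm : ∀ i ∈ U, l i m < 0) {y : V} {s t : ℝ} (hs : 0 < s)
    (hx : ∀ i ∈ U, l i x ≤ 0) (hy : ∀ i ∈ U, l i y ≤ 0) {i j : S} (hi : i ∈ U) (hj : j ∈ U)
    (hix : l i x = 0) (hjy : l j y = 0) (h : y = s • x + t • m) : y = s • x := by
  have hU : U.Nonempty := ⟨i, hi⟩
  have h1 : rtr U hU l m y = y := rtr_eq_self hm hy hj hjy
  have h2 : rtr U hU l m x = x := rtr_eq_self hm hx hi hix
  rw [← h1, h, rtr_add_smul hm, rtr_smul hs.le, h2]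

section Top

variable [TopologicalSpace V]

theorem continuous_ext (hl : ∀ i ∈ U, Continuous (l i)) : Continuous (ext U hU l m) := by
  unfold ext
  exact Continuous.finset_inf'_apply hU fun i hi => (hl i hi).div_const _

theorem continuous_rtr [IsTopologicalAddGroup V] [ContinuousSMul ℝ V]
    (hl : ∀ i ∈ U, Continuous (l i)) : Continuous (rtr U hU l m) := by
  unfold rtr
  exact continuous_id.sub ((continuous_ext hl).smul continuous_const)

end Top

end Bld
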