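import Pool.Agent.Work.MP_de2d29_al.HalfDef

/-!
# Half buildings: rays from a point of the open half of the central chamber (block F, piece F2)

Base point `b = X.mk hP Δ c b₀` with `lor b₀ (e s) < 0`.
* `X.ret_rad`, `X.sd_rad`: radial points from `b` in the retraction centred at `c`.
* `X.asyA c s b₀ z`: the asymptotic coefficient of the coordinate along the ray `z`;
  `X.sd_ray : sd c s (pr t z) = (A e^t - (A - 2 α) e^(-t)) / 2`, `α = lor b₀ (e s)`.
* `X.crT`: the crossing time, for `0 < A`; `X.VO c' s`: the open set of the generalised rays which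
  enter the open half of `c'`.
-/

set_option autoImplicit false

open Set Metric Topology Filter
open scoped NNReal ENNReal

namespace BD

open RadSp (pr)

variable {d : ℕ} {ι : Type} {M : CoxeterMatrix ι} {C : Type} {e : ι → Mink d}

/-- uniqueness of the point of a geodesic segment -/
theorem eq_geo {x y z : Mink d} (hx : x ∈ Hyp d) (hy : y ∈ Hyp d) (hz : z ∈ Hyp d) (hne : x ≠ y)
    {t : ℝ} (h0 : 0 ≤ t) (h1 : t ≤ hdist x y) (h2 : hdist x z = t)
    (h3 : hdist z y ≤ hdist x y - t) : z = geo x y t := by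
  have hg := geo_mem hx hy hne h0 h1
  refine (eq_of_lor_eq hg hz (le_antisymm ?_ (one_le_neg_lor hg hz))).symm
  have hD := hdist_pos hx hy hne
  have sD : 0 < Real.sinh (hdist x y) := Real.sinh_pos_iff.2 hD
  have h4 : -lor x z = Real.cosh t := by rw [← h2, cosh_hdist hx hz]
  have h5 : -lor y z ≤ Real.cosh (hdist x y - t) := by
    rw [lor_symm, ← cosh_hdist hz hy, Real.cosh_le_cosh, abs_of_nonneg (hdist_nonneg hz hy),
      abs_of_nonneg (by linarith)]
    exact h3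
  unfold geo
  rw [lor_add_left, lor_smul_left, lor_smul_left]
  have h6 : Real.sinh (hdist x y) = Real.sinh (hdist x y - t) * Real.cosh t +
      Real.sinh t * Real.cosh (hdist x y - t) := by
    have : hdist x y = (hdist x y - t) + t := by ring
    conv_lhs => rw [this, Real.sinh_add]
    ring
  have h7 : 0 ≤ Real.sinh t := Real.sinh_nonneg_iff.2 h0
  have h8 : -(Real.sinh (hdist x y - t) / Real.sinh (hdist x y) * lor x z +
      Real.sinh t / Real.sinh (hdist x y) * lor y z) =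
      (Real.sinh (hdist x y - t) * -lor x z + Real.sinh t * -lor y z) /
        Real.sinh (hdist x y) := by
    field_simp
    ring
  rw [h8, div_le_one sD, h4, h6]
  have := mul_le_mul_of_nonneg_left h5 h7
  linarith

variable (hP : CoxPoly M e) (Δ : Building M C) [Finite ι]

/-- the compactification of the building with base point `b` -/
abbrev X.Hat (b : X hP Δ) : Type := XHat b ((X.mdl hP Δ).rad b)

/-- the boundary -/
abbrev X.Bd (b : X hP Δ) : Set (X.Hat hP Δ b) := HBdry b ((X.mdl hP Δ).rad b)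

/-- the point of the generalised ray `z` at distance `t` -/
noncomputable abbrev X.pr (b : X hP Δ) (t : ℝ) (z : X.Hat hP Δ b) : X hP Δ :=
  RadSp.pr b ((X.mdl hP Δ).rad b) t z

variable {hP Δ}

theorem X.radSp (hL : Δ.LocFinite) (b : X hP Δ) : RadSp (X hP Δ) b ((X.mdl hP Δ).rad b) :=
  (X.mdl hP Δ).radSp' hL b

/-- radial points from the central chamber -/
theorem X.ret_rad (c : C) (b₀ : poly e) {x : X hP Δ} (hne : X.mk hP Δ c b₀ ≠ x) {t : ℝ}
    (h0 : 0 ≤ t) (h1 : t ≤ dist (X.mk hP Δ c b₀) x) :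
    X.ret hP Δ c ((X.mdl hP Δ).rad (X.mk hP Δ c b₀) t x) = geo (b₀ : Mink d) (X.ret hP Δ c x) t := by
  obtain ⟨h2, h3⟩ := ((X.mdl hP Δ).hcat (X.mk hP Δ c b₀)).dist_left h0 h1
  rw [X.dist_eq_ret] at h2 h1
  rw [X.dist_eq_ret hP Δ c b₀ x] at h3
  have hne' : (b₀ : Mink d) ≠ X.ret hP Δ c x := by
    intro h
    apply hne
    rw [← dist_eq_zero, X.dist_eq_ret, ← h]
    exact hdist_self b₀.2.1
  refine eq_geo b₀.2.1 (X.ret_mem hP Δ c x) (X.ret_mem hP Δ c _) hne' h0 h1 h2 ?_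
  rw [← h3]
  exact X.hdist_ret_le hP Δ c _ _

/-- the coordinate along a radial segment from the central chamber -/
theorem X.sd_rad (c : C) (s : ι) (b₀ : poly e) {x : X hP Δ} (hne : X.mk hP Δ c b₀ ≠ x) {t : ℝ}
    (h0 : 0 ≤ t) (h1 : t ≤ dist (X.mk hP Δ c b₀) x) :
    X.sd hP Δ c s ((X.mdl hP Δ).rad (X.mk hP Δ c b₀) t x) * Real.sinh (dist (X.mk hP Δ c b₀) x) =
      Real.sinh (dist (X.mk hP Δ c b₀) x - t) * lor (b₀ : Mink d) (e s) +
        Real.sinh t * X.sd hP Δ c s x := by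
  have hD : 0 < dist (X.mk hP Δ c b₀) x := dist_pos.2 hne
  have sD : Real.sinh (dist (X.mk hP Δ c b₀) x) ≠ 0 := (Real.sinh_pos_iff.2 hD).ne'
  unfold X.sd
  rw [X.ret_rad c b₀ hne h0 h1]
  unfold geo
  rw [lor_add_left, lor_smul_left, lor_smul_left, ← X.dist_eq_ret hP Δ c b₀ x]
  field_simp

/-! ## Rays -/

section ray

variable (c : C) (s : ι) (b₀ : poly e)

/-- the asymptotic coefficient of the coordinate along a generalised ray -/
noncomputable def X.asyA (z : X.Hat hP Δ (X.mk hP Δ c b₀)) : ℝ :=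
  lor (b₀ : Mink d) (e s) + (X.sd hP Δ c s (X.pr hP Δ _ 1 z) -
    lor (b₀ : Mink d) (e s) * Real.cosh 1) / Real.sinh 1

variable {c s b₀}

theorem X.continuous_asyA (hL : Δ.LocFinite) :
    Continuous (X.asyA (hP := hP) (Δ := Δ) c s b₀) :=
  continuous_const.add ((((X.continuous_sd hP Δ c s).comp
    ((X.radSp hL _).continuous_pr zero_le_one)).sub continuous_const).div_const _)

/-- **the coordinate along a ray** -/
theorem X.sd_ray (hL : Δ.LocFinite) {z : X.Hat hP Δ (X.mk hP Δ c b₀)}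
    (hz : z ∈ X.Bd hP Δ (X.mk hP Δ c b₀)) {t : ℝ} (ht : 0 ≤ t) :
    X.sd hP Δ c s (X.pr hP Δ _ t z) = (X.asyA c s b₀ z * Real.exp t -
      (X.asyA c s b₀ z - 2 * lor (b₀ : Mink d) (e s)) * Real.exp (-t)) / 2 := by
  have h := X.radSp (hP := hP) hL (X.mk hP Δ c b₀)
  have s1 : 0 < Real.sinh 1 := Real.sinh_pos_iff.2 one_pos
  -- it is enough to show the formula with hyperbolic functions
  suffices H : X.sd hP Δ c s (X.pr hP Δ _ t z) * Real.sinh 1 =
      Real.sinh (1 - t) * lor (b₀ : Mink d) (e s) +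
        Real.sinh t * X.sd hP Δ c s (X.pr hP Δ _ 1 z) by
    have h1 : X.asyA c s b₀ z * Real.sinh 1 = lor (b₀ : Mink d) (e s) * Real.sinh 1 +
        (X.sd hP Δ c s (X.pr hP Δ _ 1 z) - lor (b₀ : Mink d) (e s) * Real.cosh 1) := by
      unfold X.asyA
      rw [add_mul, div_mul_cancel₀ _ s1.ne']
    have h2 : Real.exp t = Real.cosh t + Real.sinh t := (Real.cosh_add_sinh t).symm
    have h3 : Real.exp (-t) = Real.cosh t - Real.sinh t := (Real.cosh_sub_sinh t).symm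
    have h4 : X.sd hP Δ c s (X.pr hP Δ _ t z) * Real.sinh 1 =
        (X.asyA c s b₀ z * Real.exp t -
      (X.asyA c s b₀ z - 2 * lor (b₀ : Mink d) (e s)) * Real.exp (-t)) / 2 * Real.sinh 1 := by
      rw [H, h2, h3, Real.sinh_sub]
      linear_combination -(Real.sinh t) * h1
    exact mul_right_cancel₀ s1.ne' h4
  have hnorm : ∀ {r : ℝ}, 0 ≤ r → dist (X.mk hP Δ c b₀) (X.pr hP Δ _ r z) = r :=
    fun hr => h.norm_pr_bdry hr hz
  have hne : ∀ {r : ℝ}, 0 < r → X.mk hP Δ c b₀ ≠ X.pr hP Δ _ r z := by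
    intro r hr h1
    have h2 := hnorm hr.le
    rw [← h1, dist_self] at h2
    linarith
  rcases ht.eq_or_lt with h0 | h0
  · -- `t = 0`
    subst h0
    have h1 : X.pr hP Δ (X.mk hP Δ c b₀) 0 z = X.mk hP Δ c b₀ :=
      (dist_eq_zero.1 (hnorm le_rfl)).symm
    rw [h1, sub_zero, Real.sinh_zero, zero_mul, add_zero]
    show lor (X.ret hP Δ c (X.mk hP Δ c b₀)) (e s) * Real.sinh 1 = Real.sinh 1 * _
    rw [X.ret_self, mul_comm]
  rcases le_total t 1 with h1 | h1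
  · have h2 := hnorm zero_le_one
    have h3 := X.sd_rad c s b₀ (hne one_pos) ht (by rw [h2]; exact h1)
    rw [h2] at h3
    have h4 : (X.mdl hP Δ).rad (X.mk hP Δ c b₀) t (X.pr hP Δ _ 1 z) = X.pr hP Δ _ t z :=
      h.pr_pr ht h1 z
    rw [h4] at h3
    exact h3
  · have h2 := hnorm ht
    have h3 := X.sd_rad c s b₀ (hne h0) zero_le_one (by rw [h2]; exact h1)
    rw [h2] at h3
    have h4 : (X.mdl hP Δ).rad (X.mk hP Δ c b₀) 1 (X.pr hP Δ _ t z) = X.pr hP Δ _ 1 z :=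
      h.pr_pr zero_le_one h1 z
    rw [h4] at h3
    have s0 : 0 < Real.sinh t := Real.sinh_pos_iff.2 h0
    have h5 : Real.sinh 1 = Real.sinh t * Real.cosh (t - 1) - Real.cosh t * Real.sinh (t - 1) := by
      rw [← Real.sinh_sub]
      congr 1
      ring
    have h6 : Real.sinh (1 - t) = -Real.sinh (t - 1) := by rw [← Real.sinh_neg]; congr 1; ring
    rw [h6]
    linarith

theorem X.sd_ray' (hL : Δ.LocFinite) {z : X.Hat hP Δ (X.mk hP Δ c b₀)}
    (hz : z ∈ X.Bd hP Δ (X.mk hP Δ c b₀)) {t : ℝ} (ht : 0 ≤ t) :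
    2 * (X.sd hP Δ c s (X.pr hP Δ _ t z) * Real.exp t) = X.asyA c s b₀ z * Real.exp (2 * t) -
      (X.asyA c s b₀ z - 2 * lor (b₀ : Mink d) (e s)) := by
  rw [X.sd_ray hL hz ht]
  have h1 : Real.exp (2 * t) = Real.exp t * Real.exp t := by rw [← Real.exp_add]; congr 1; ring
  have h2 : Real.exp (-t) * Real.exp t = 1 := by rw [← Real.exp_add]; simp
  rw [h1]
  linear_combination -(X.asyA c s b₀ z - 2 * lor (b₀ : Mink d) (e s)) * h2

/-- rays with non-positive asymptotic coefficient stay in the open half of the centre -/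
theorem X.sd_ray_neg (hL : Δ.LocFinite) (hb : lor (b₀ : Mink d) (e s) < 0)
    {z : X.Hat hP Δ (X.mk hP Δ c b₀)} (hz : z ∈ X.Bd hP Δ (X.mk hP Δ c b₀))
    (hA : X.asyA c s b₀ z ≤ 0) {t : ℝ} (ht : 0 ≤ t) :
    X.sd hP Δ c s (X.pr hP Δ _ t z) < 0 := by
  have h1 := X.sd_ray' (s := s) hL hz ht
  have h2 : 1 ≤ Real.exp (2 * t) := Real.one_le_exp (by linarith)
  have h3 : 0 < Real.exp t := Real.exp_pos t
  have h4 : X.sd hP Δ c s (X.pr hP Δ _ t z) * Real.exp t < 0 := by nlinarith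
  by_contra hc
  push Not at hc
  nlinarith

variable (c s b₀) in
/-- the crossing time -/
noncomputable def X.crT (z : X.Hat hP Δ (X.mk hP Δ c b₀)) : ℝ :=
  Real.log ((X.asyA c s b₀ z - 2 * lor (b₀ : Mink d) (e s)) / X.asyA c s b₀ z) / 2

theorem X.exp_crT (hb : lor (b₀ : Mink d) (e s) < 0) {z : X.Hat hP Δ (X.mk hP Δ c b₀)}
    (hA : 0 < X.asyA c s b₀ z) : Real.exp (2 * X.crT c s b₀ z) * X.asyA c s b₀ z =
      X.asyA c s b₀ z - 2 * lor (b₀ : Mink d) (e s) := by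
  unfold X.crT
  have h1 : 0 < (X.asyA c s b₀ z - 2 * lor (b₀ : Mink d) (e s)) / X.asyA c s b₀ z :=
    div_pos (by linarith) hA
  rw [mul_div_cancel₀ _ two_ne_zero, Real.exp_log h1, div_mul_cancel₀ _ hA.ne']

theorem X.crT_pos (hb : lor (b₀ : Mink d) (e s) < 0) {z : X.Hat hP Δ (X.mk hP Δ c b₀)}
    (hA : 0 < X.asyA c s b₀ z) : 0 < X.crT c s b₀ z := by
  unfold X.crT
  have h1 : 1 < (X.asyA c s b₀ z - 2 * lor (b₀ : Mink d) (e s)) / X.asyA c s b₀ z := by
    rw [one_lt_div hA]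
    linarith
  have := Real.log_pos h1
  linarith

/-- the sign of the coordinate before and after the crossing -/
theorem X.sd_ray_sign (hL : Δ.LocFinite) (hb : lor (b₀ : Mink d) (e s) < 0)
    {z : X.Hat hP Δ (X.mk hP Δ c b₀)} (hz : z ∈ X.Bd hP Δ (X.mk hP Δ c b₀))
    (hA : 0 < X.asyA c s b₀ z) {t : ℝ} (ht : 0 ≤ t) :
    2 * (X.sd hP Δ c s (X.pr hP Δ _ t z) * Real.exp t) =
      X.asyA c s b₀ z * (Real.exp (2 * t) - Real.exp (2 * X.crT c s b₀ z)) := by
  rw [X.sd_ray' hL hz ht, ← X.exp_crT hb hA]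
  ring

theorem X.sd_ray_before (hL : Δ.LocFinite) (hb : lor (b₀ : Mink d) (e s) < 0)
    {z : X.Hat hP Δ (X.mk hP Δ c b₀)} (hz : z ∈ X.Bd hP Δ (X.mk hP Δ c b₀))
    (hA : 0 < X.asyA c s b₀ z) {t : ℝ} (ht : 0 ≤ t) (htT : t < X.crT c s b₀ z) :
    X.sd hP Δ c s (X.pr hP Δ _ t z) < 0 := by
  have h1 := X.sd_ray_sign hL hb hz hA ht
  have h2 : Real.exp (2 * t) < Real.exp (2 * X.crT c s b₀ z) := Real.exp_lt_exp.2 (by linarith)
  have h3 : 0 < Real.exp t := Real.exp_pos t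
  have h4 : X.sd hP Δ c s (X.pr hP Δ _ t z) * Real.exp t < 0 := by nlinarith
  by_contra hc
  push Not at hc
  nlinarith

theorem X.sd_ray_at (hL : Δ.LocFinite) (hb : lor (b₀ : Mink d) (e s) < 0)
    {z : X.Hat hP Δ (X.mk hP Δ c b₀)} (hz : z ∈ X.Bd hP Δ (X.mk hP Δ c b₀))
    (hA : 0 < X.asyA c s b₀ z) :
    X.sd hP Δ c s (X.pr hP Δ _ (X.crT c s b₀ z) z) = 0 := by
  have h1 := X.sd_ray_sign hL hb hz hA (X.crT_pos hb hA).le
  rw [sub_self, mul_zero] at h1
  have h3 : 0 < Real.exp (X.crT c s b₀ z) := Real.exp_pos _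
  have h4 : X.sd hP Δ c s (X.pr hP Δ _ (X.crT c s b₀ z) z) * Real.exp (X.crT c s b₀ z) = 0 := by
    linarith
  exact (mul_eq_zero.1 h4).resolve_right h3.ne'

theorem X.sd_ray_after (hL : Δ.LocFinite) (hb : lor (b₀ : Mink d) (e s) < 0)
    {z : X.Hat hP Δ (X.mk hP Δ c b₀)} (hz : z ∈ X.Bd hP Δ (X.mk hP Δ c b₀))
    (hA : 0 < X.asyA c s b₀ z) {t : ℝ} (htT : X.crT c s b₀ z < t) :
    0 < X.sd hP Δ c s (X.pr hP Δ _ t z) := by
  have h1 := X.sd_ray_sign hL hb hz hA ((X.crT_pos hb hA).le.trans htT.le)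
  have h2 : Real.exp (2 * X.crT c s b₀ z) < Real.exp (2 * t) := Real.exp_lt_exp.2 (by linarith)
  have h3 : 0 < Real.exp t := Real.exp_pos t
  have h4 : 0 < X.sd hP Δ c s (X.pr hP Δ _ t z) * Real.exp t := by nlinarith
  by_contra hc
  push Not at hc
  nlinarith

/-- a ray which is outside the open half of the centre at some time has positive coefficient -/
theorem X.asyA_pos_of_sd (hL : Δ.LocFinite) (hb : lor (b₀ : Mink d) (e s) < 0)
    {z : X.Hat hP Δ (X.mk hP Δ c b₀)} (hz : z ∈ X.Bd hP Δ (X.mk hP Δ c b₀)) {t : ℝ} (ht : 0 ≤ t)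
    (h : 0 ≤ X.sd hP Δ c s (X.pr hP Δ _ t z)) : 0 < X.asyA c s b₀ z := by
  by_contra hc
  push Not at hc
  exact absurd (X.sd_ray_neg hL hb hz hc ht) (not_lt.2 h)

theorem X.crT_lt_of_sd (hL : Δ.LocFinite) (hb : lor (b₀ : Mink d) (e s) < 0)
    {z : X.Hat hP Δ (X.mk hP Δ c b₀)} (hz : z ∈ X.Bd hP Δ (X.mk hP Δ c b₀)) {t : ℝ} (ht : 0 ≤ t)
    (h : 0 < X.sd hP Δ c s (X.pr hP Δ _ t z)) : X.crT c s b₀ z < t := by
  have hA := X.asyA_pos_of_sd hL hb hz ht h.le
  by_contra hc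
  push Not at hc
  rcases hc.eq_or_lt with h1 | h1
  · rw [h1, X.sd_ray_at hL hb hz hA] at h
    exact lt_irrefl _ h
  · exact absurd (X.sd_ray_before hL hb hz hA ht h1) (not_lt.2 h.le)

theorem X.continuousOn_crT (hL : Δ.LocFinite) (hb : lor (b₀ : Mink d) (e s) < 0) :
    ContinuousOn (X.crT (hP := hP) (Δ := Δ) c s b₀) {z | 0 < X.asyA c s b₀ z} := by
  have hc := (X.continuous_asyA (hP := hP) (c := c) (s := s) (b₀ := b₀) hL).continuousOn
    (s := {z | 0 < X.asyA c s b₀ z})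
  refine ContinuousOn.div_const (ContinuousOn.log ((hc.sub continuousOn_const).div hc
    fun z hz => (show 0 < X.asyA c s b₀ z from hz).ne') fun z hz => ?_) 2
  have hz' : 0 < X.asyA c s b₀ z := hz
  have h1 : 0 < X.asyA c s b₀ z - 2 * lor (b₀ : Mink d) (e s) := by linarith
  exact (div_pos h1 hz').ne'

/-! ### The labels -/

variable (b₀) in
/-- the generalised rays which enter the open half of the chamber `c'` -/
def X.VO (c c' : C) (s : ι) : Set (X.Hat hP Δ (X.mk hP Δ c b₀)) :=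
  {z | ∃ t, 0 ≤ t ∧ X.sd hP Δ c' s (X.pr hP Δ _ t z) < 0}

theorem X.isOpen_VO (hL : Δ.LocFinite) (c' : C) :
    IsOpen (X.VO (hP := hP) (Δ := Δ) b₀ c c' s) := by
  have : X.VO (hP := hP) (Δ := Δ) b₀ c c' s = ⋃ (t : ℝ) (_ : 0 ≤ t),
      {z | X.sd hP Δ c' s (X.pr hP Δ _ t z) < 0} := by
    ext z
    simp only [X.VO, mem_ofPred_eq, mem_iUnion, exists_prop]
  rw [this]
  exact isOpen_iUnion fun t => isOpen_iUnion fun ht => isOpen_lt
    ((X.continuous_sd hP Δ c' s).comp ((X.radSp hL _).continuous_pr ht)) continuous_const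

theorem X.continuousOn_pr_time (hL : Δ.LocFinite) (b : X hP Δ) (z : X.Hat hP Δ b) :
    ContinuousOn (fun t : ℝ => X.pr hP Δ b t z) (Ici 0) := by
  refine Metric.continuousOn_iff.2 fun t ht ε hε => ⟨ε, hε, fun r hr hd => ?_⟩
  exact ((X.radSp hL b).dist_pr hr ht z).trans_lt hd

/-- **the label of a ray is constant after the crossing** -/
theorem X.vo_iff (hL : Δ.LocFinite) (hb : lor (b₀ : Mink d) (e s) < 0) {c' : C}
    (hc' : PanAdj Δ s c c') (hne : c ≠ c') {z : X.Hat hP Δ (X.mk hP Δ c b₀)}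
    (hz : z ∈ X.Bd hP Δ (X.mk hP Δ c b₀)) : z ∈ X.VO b₀ c c' s ↔
      0 < X.asyA c s b₀ z ∧ ∀ t, X.crT c s b₀ z < t → X.sd hP Δ c' s (X.pr hP Δ _ t z) < 0 := by
  constructor
  · rintro ⟨t, ht, h1⟩
    have h2 := X.sd_pos_of_neg hc' hne h1
    have hA := X.asyA_pos_of_sd hL hb hz ht h2.le
    have hT := X.crT_lt_of_sd hL hb hz ht h2
    refine ⟨hA, fun r hr => ?_⟩
    by_contra hc
    push Not at hc
    -- a zero in between
    have hcont : ContinuousOn (fun u : ℝ => X.sd hP Δ c' s (X.pr hP Δ _ u z)) (uIcc t r) := by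
      refine (X.continuous_sd hP Δ c' s).comp_continuousOn
        ((X.continuousOn_pr_time hL _ z).mono ?_)
      intro u hu
      have h3 : min t r ≤ u := hu.1
      have h4 : X.crT c s b₀ z < min t r := lt_min hT hr
      exact (X.crT_pos hb hA).le.trans (h4.le.trans h3)
    have h0 : (0 : ℝ) ∈ uIcc (X.sd hP Δ c' s (X.pr hP Δ _ t z))
        (X.sd hP Δ c' s (X.pr hP Δ _ r z)) := by
      rw [uIcc_of_le (h1.le.trans hc)]
      exact ⟨h1.le, hc⟩
    obtain ⟨u, hu, hu0⟩ := intermediate_value_uIcc hcont h0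
    have h5 : X.crT c s b₀ z < u := (lt_min hT hr).trans_le hu.1
    have h6 := X.sd_ray_after hL hb hz hA h5
    have h7 : X.sd hP Δ c s (X.pr hP Δ _ u z) = 0 :=
      (X.sd_eq_zero_iff hc' _).1 hu0
    linarith
  · rintro ⟨hA, h1⟩
    exact ⟨X.crT c s b₀ z + 1, by linarith [X.crT_pos hb hA], h1 _ (by linarith)⟩

theorem X.vo_disj (hL : Δ.LocFinite) (hb : lor (b₀ : Mink d) (e s) < 0) {c' c'' : C}
    (hc' : PanAdj Δ s c c') (hne : c ≠ c') (hc'' : PanAdj Δ s c c'') (hne' : c ≠ c'')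
    {z : X.Hat hP Δ (X.mk hP Δ c b₀)} (hz : z ∈ X.Bd hP Δ (X.mk hP Δ c b₀))
    (h' : z ∈ X.VO b₀ c c' s) (h'' : z ∈ X.VO b₀ c c'' s) : c' = c'' := by
  obtain ⟨hA, h1⟩ := (X.vo_iff hL hb hc' hne hz).1 h'
  obtain ⟨-, h2⟩ := (X.vo_iff hL hb hc'' hne' hz).1 h''
  exact X.eq_of_sd_neg (hc'.symm.trans hc'') (h1 (X.crT c s b₀ z + 1) (by linarith))
    (h2 _ (by linarith))

theorem X.vo_cover (hL : Δ.LocFinite) (hb : lor (b₀ : Mink d) (e s) < 0)
    {z : X.Hat hP Δ (X.mk hP Δ c b₀)} (hz : z ∈ X.Bd hP Δ (X.mk hP Δ c b₀))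
    (hA : 0 < X.asyA c s b₀ z) : ∃ c', PanAdj Δ s c c' ∧ c ≠ c' ∧ z ∈ X.VO b₀ c c' s := by
  have h1 := X.sd_ray_after hL hb hz hA (t := X.crT c s b₀ z + 1) (by linarith)
  obtain ⟨c', hc', h2⟩ := X.exists_halfO c s h1.ne'
  refine ⟨c', hc', ?_, _, by linarith [X.crT_pos hb hA], h2⟩
  rintro rfl
  linarith

/-- `V_c'` together with the boundary of the wall is closed -/
theorem X.isClosed_vo_dm (hL : Δ.LocFinite) (hb : lor (b₀ : Mink d) (e s) < 0) {c' : C}
    (hc' : PanAdj Δ s c c') (hne : c ≠ c') :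
    IsClosed (X.Bd hP Δ (X.mk hP Δ c b₀) ∩ (X.VO b₀ c c' s ∪ {z | X.asyA c s b₀ z = 0})) := by
  have h1 : X.Bd hP Δ (X.mk hP Δ c b₀) ∩ (X.VO b₀ c c' s ∪ {z | X.asyA c s b₀ z = 0}) =
      X.Bd hP Δ (X.mk hP Δ c b₀) ∩ ({z | 0 ≤ X.asyA c s b₀ z} ∩
        ⋂ (c'' : C) (_ : PanAdj Δ s c c'' ∧ c ≠ c'' ∧ c'' ≠ c'), (X.VO b₀ c c'' s)ᶜ) := by
    ext z
    refine and_congr_right fun hz => ?_
    constructor
    · rintro (h | h)
      · refine ⟨((X.vo_iff hL hb hc' hne hz).1 h).1.le, mem_iInter₂.2 fun c'' h2 h3 => ?_⟩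
        exact h2.2.2 (X.vo_disj hL hb h2.1 h2.2.1 hc' hne hz h3 h)
      · have h' : X.asyA c s b₀ z = 0 := h
        refine ⟨h'.ge, mem_iInter₂.2 fun c'' h2 h3 => ?_⟩
        have := ((X.vo_iff hL hb h2.1 h2.2.1 hz).1 h3).1
        linarith
    · rintro ⟨h2, h3⟩
      have h2' : 0 ≤ X.asyA c s b₀ z := h2
      rcases h2'.eq_or_lt with h4 | h4
      · exact Or.inr h4.symm
      · left
        obtain ⟨c'', h5, h6, h7⟩ := X.vo_cover hL hb hz h4
        by_cases h8 : c'' = c'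
        · exact h8 ▸ h7
        · exact absurd h7 (mem_iInter₂.1 h3 c'' ⟨h5, h6, h8⟩)
  rw [h1]
  exact isClosed_HBdry.inter ((isClosed_le continuous_const (X.continuous_asyA hL)).inter
    (isClosed_iInter fun c'' => isClosed_iInter fun _ => (X.isOpen_VO hL c'').isClosed_compl))

/-- **exit lemma** -/
theorem X.vo_of_dist {c' : C} {z : X.Hat hP Δ (X.mk hP Δ c b₀)} {x : X hP Δ} {κ t : ℝ}
    (hκ : 0 ≤ κ) (ht : 0 ≤ t) (hx : X.sd hP Δ c' s x < -Real.sinh κ)
    (hd : dist x (X.pr hP Δ _ t z) ≤ κ) : z ∈ X.VO b₀ c c' s :=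
  ⟨t, ht, X.sd_neg_of_dist hκ hx hd⟩

/-! ### The crossing point -/

variable (c s b₀) in
/-- the crossing point -/
noncomputable def X.cross (z : X.Hat hP Δ (X.mk hP Δ c b₀)) : X hP Δ :=
  X.pr hP Δ _ (X.crT c s b₀ z) z

theorem X.cross_mem (hL : Δ.LocFinite) (hb : lor (b₀ : Mink d) (e s) < 0)
    {z : X.Hat hP Δ (X.mk hP Δ c b₀)} (hz : z ∈ X.Bd hP Δ (X.mk hP Δ c b₀))
    (hA : 0 < X.asyA c s b₀ z) : X.cross c s b₀ z ∈ X.Wl hP Δ c s :=
  X.sd_ray_at hL hb hz hA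

theorem X.continuousOn_cross (hL : Δ.LocFinite) (hb : lor (b₀ : Mink d) (e s) < 0) :
    ContinuousOn (X.cross (hP := hP) (Δ := Δ) c s b₀) {z | 0 < X.asyA c s b₀ z} := by
  have h1 := (X.radSp (hP := hP) hL (X.mk hP Δ c b₀)).continuous_uncurry_pr
  have h2 : ContinuousOn (fun z : X.Hat hP Δ (X.mk hP Δ c b₀) => (z, (X.crT c s b₀ z).toNNReal))
      {z | 0 < X.asyA c s b₀ z} :=
    continuousOn_id.prodMk (continuous_real_toNNReal.comp_continuousOn (X.continuousOn_crT hL hb))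
  refine (h1.comp_continuousOn h2).congr fun z hz => ?_
  show X.pr hP Δ _ (X.crT c s b₀ z) z = X.pr hP Δ _ ((X.crT c s b₀ z).toNNReal : ℝ) z
  rw [Real.coe_toNNReal _ (X.crT_pos hb hz).le]

end ray

/-- points far out on a generalised ray are close to it -/
theorem RadSp.dist_ι_pr_le {Y : Type} [MetricSpace Y] {o : Y} {p : ℝ → Y → Y} (h : RadSp Y o p)
    {t : ℝ} (ht : 0 ≤ t) (z : XHat o p) : dist (h.ι (pr o p t z)) z ≤ Real.exp (-t) := by
  refine XHat.dist_le fun r => ?_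
  rw [h.ι_coord]
  have hr : (0 : ℝ) ≤ r := Nat.cast_nonneg r
  rcases le_total (r : ℝ) t with h1 | h1
  · rw [h.pr_pr hr h1, h.pr_nat, dist_self, mul_zero]
    exact (Real.exp_pos _).le
  · have h2 : p r (pr o p t z) = pr o p t z :=
      h.fix _ _ ((h.norm_pr ht z).trans h1)
    rw [h2, ← h.pr_nat r z]
    have h3 := h.dist_pr ht hr z
    rw [abs_sub_comm, abs_of_nonneg (by linarith)] at h3
    have h4 : (r : ℝ) - t ≤ Real.exp (r - t) := by
      have := Real.add_one_le_exp ((r : ℝ) - t)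
      linarith
    calc Real.exp (-r) * dist (pr o p t z) (pr o p r z)
        ≤ Real.exp (-r) * Real.exp (r - t) :=
          mul_le_mul_of_nonneg_left (h3.trans h4) (Real.exp_pos _).le
      _ = Real.exp (-t) := by rw [← Real.exp_add]; congr 1; ring

/-! ### Moving off the wall -/

/-- a small move towards the interior of a chamber of the panel takes the wall to the open half of
this chamber -/
theorem X.off_wall (hL : Δ.LocFinite) (c' : C) (s : ι) {ε : ℝ} (hε : 0 < ε) :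
    ∃ g : X hP Δ → X hP Δ, Continuous g ∧ (∀ x, dist (g x) x ≤ ε) ∧
      ∀ x, X.sd hP Δ c' s x = 0 → X.sd hP Δ c' s (g x) < 0 := by
  obtain ⟨b₁, hb₁, hb₁'⟩ := hP.inter
  let b' : poly e := ⟨b₁, hb₁, fun i => (hb₁' i).le⟩
  set b := X.mk hP Δ c' b' with hbdef
  have h := X.radSp (hP := hP) hL b
  refine ⟨fun x => (X.mdl hP Δ).rad b (max (dist b x - ε) 0) x, ?_, fun x => ?_, fun x hx => ?_⟩
  · exact h.continuous_joint (((continuous_const.dist continuous_id).sub continuous_const).max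
      continuous_const) (fun x => le_max_right _ _) continuous_id
  · have h1 := h.move' (le_max_right (dist b x - ε) 0) (dist_nonneg (x := b) (y := x)) x
    rw [h.fix (dist b x) x le_rfl] at h1
    refine h1.trans ?_
    rw [abs_sub_comm, abs_of_nonneg]
    · have := le_max_left (dist b x - ε) 0
      linarith
    · have : max (dist b x - ε) 0 ≤ dist b x := max_le (by linarith) dist_nonneg
      linarith
  · have hne : b ≠ x := by
      intro h1
      rw [← h1] at hx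
      have h2 : X.sd hP Δ c' s b = lor b₁ (e s) := by
        show lor (X.ret hP Δ c' (X.mk hP Δ c' b')) (e s) = _
        rw [X.ret_self]
      rw [h2] at hx
      exact absurd hx (hb₁' s).ne
    have hD : 0 < dist b x := dist_pos.2 hne
    have h1 : max (dist b x - ε) 0 < dist b x := max_lt (by linarith) hD
    have h2 := X.sd_rad c' s b' hne (le_max_right (dist b x - ε) 0) h1.le
    rw [hx, mul_zero, add_zero] at h2
    have h3 : 0 < Real.sinh (dist b x) := Real.sinh_pos_iff.2 hD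
    have h4 : 0 < Real.sinh (dist b x - max (dist b x - ε) 0) := Real.sinh_pos_iff.2 (by linarith)
    have h5 : Real.sinh (dist b x - max (dist b x - ε) 0) * lor (b' : Mink d) (e s) < 0 :=
      mul_neg_of_pos_of_neg h4 (hb₁' s)
    rw [← h2] at h5
    by_contra hc
    push Not at hc
    have := mul_nonneg hc h3.le
    linarith

end BD
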