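import Pool.Agent.Work.MP_de2d29_al.XPOut
import Pool.Agent.Work.MP_de2d29_al.HalfB

/-!
# BUILDING: the system of the pushing theorem with the exit property

`X.exists_sys_exit`: the input `hS`, `h0`, `hlim`, `hexit` of `fold_of`: chains which start deep in
the open half building of `c'` have their limits in the half `X.VO b₀ c c' s` of the boundary.
-/

set_option autoImplicit false

open Set Metric Topology Filter

namespace BD

variable {n : ℕ} {ι C : Type} {M : CoxeterMatrix ι} {e : ι → Mink (n + 1)}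
  {hP : CoxPoly M e} {Δ : Building M C} [Finite ι]

/-- **The system with the exit property.** -/
theorem X.exists_sys_exit (hL : Δ.LocFinite) (c : C) (b₀ : poly e) :
    ∃ K Q : ℕ → Set (X.Hat hP Δ (X.mk hP Δ c b₀)), Sys n K Q ∧ K 0 = univ ∧
      Lim K = X.Bd hP Δ (X.mk hP Δ c b₀) ∧
      Lim K = (range (X.radSp hL (X.mk hP Δ c b₀)).ι)ᶜ ∧
      ∀ (c' : C) (s : ι) (x : X hP Δ), X.sd hP Δ c' s x < -Real.sinh hP.poC →
        ∀ y : ℕ → X.Hat hP Δ (X.mk hP Δ c b₀), y 0 = (X.radSp hL (X.mk hP Δ c b₀)).ι x →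
        IsChain K Q y → ∀ ζ ∈ Lim K, Tendsto y atTop (𝓝 ζ) →
        ζ ∈ X.Bd hP Δ (X.mk hP Δ c b₀) ∩ X.VO b₀ c c' s := by
  obtain ⟨K, Q, hS, h0, hlim, hctl⟩ := X.sys_ctl hP Δ hL (X.mk hP Δ c b₀)
  refine ⟨K, Q, hS, h0, hlim, ?_, fun c' s x hx y hy0 hy ζ hζ hyζ => ?_⟩
  · rw [hlim]
    ext z
    rw [mem_compl_iff, ← (X.radSp hL (X.mk hP Δ c b₀)).not_mem_HBdry, not_not]
  · rw [hlim] at hζ
    have h1 := hctl y x hy0 hy ζ hζ hyζ
    rw [dist_comm] at h1
    exact ⟨hζ, X.vo_of_dist hP.poC_nonneg dist_nonneg hx h1⟩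

end BD
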