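import Pool.Agent.Work.MP_de2d29_al.APushC

/-!
# BUILDING, block F: the abstract part of the folding of a half building

* `Level n C A A'`: one level of a filtration of a proper metric space: `A` is covered by `A'` and a
  locally finite family of compact sets of diameter at most `C`, which meet only in `A'` and whose
  intersections with `A'` are absolute extensors in dimension `≤ n`.
* `level_step`, `levels`: a proper map into `A` is changed into a map into `A'`, by at most `C`.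
* `Asym`: a map `F : V → X` such that `F z` tends to `z₀` if `z` tends to the point `z₀` of `L`.
* `fold_of`: the folding: a continuous map `V ∪ L → W ∪ L`, identity on `L`, which maps `V` to `W`.
-/

set_option autoImplicit false

open Set Metric Topology Filter

namespace BD

open MG (IsMap)
open Pool.Agent.Work.MP_017613_gt (PushOff)
open Pool.Agent.Work.MP_017613_gt.Rnd (AEk)

section Level

variable {γ X : Type} [MetricSpace γ] [MetricSpace X]

/-- the map `F` is proper on `D` -/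
def Pr (F : γ → X) (D : Set γ) : Prop := ∀ Q : Set X, IsCompact Q → IsCompact (D ∩ F ⁻¹' Q)

/-- one level of a filtration by closed sets -/
def Level (n : ℕ) (C : ℝ) (A A' : Set X) : Prop :=
  ∃ (I : Type) (Q : I → Set X), (∀ m, IsCompact (Q m)) ∧ LocallyFinite Q ∧
    A ⊆ A' ∪ ⋃ m, Q m ∧ (∀ m m', m ≠ m' → Q m ∩ Q m' ⊆ A') ∧ (∀ m, AEk n (Q m ∩ A')) ∧
    ∀ m, ∀ x ∈ Q m, ∀ y ∈ Q m, dist x y ≤ C

/-- a map at bounded distance from a proper map is proper -/
theorem Pr.of_dist [ProperSpace X] {F G : γ → X} {D : Set γ} (hF : Pr F D)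
    (hG : ContinuousOn G D) {C : ℝ} (h : ∀ z ∈ D, dist (G z) (F z) ≤ C) : Pr G D := by
  intro Q hQ
  have h1 : IsCompact (D ∩ F ⁻¹' cthickening C Q) := hF _ hQ.cthickening
  have h2 : D ∩ G ⁻¹' Q = (D ∩ F ⁻¹' cthickening C Q) ∩ G ⁻¹' Q := by
    ext z
    constructor
    · rintro ⟨hz, hz'⟩
      refine ⟨⟨hz, ?_⟩, hz'⟩
      refine mem_cthickening_of_dist_le (F z) (G z) C Q hz' ?_
      rw [dist_comm]
      exact h z hz
    · rintro ⟨⟨hz, -⟩, hz'⟩
      exact ⟨hz, hz'⟩
  rw [h2]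
  exact h1.of_isClosed_subset ((hG.mono inter_subset_left).preimage_isClosed_of_isClosed
    h1.isClosed hQ.isClosed) inter_subset_left

/-- **One level.** -/
theorem level_step {n : ℕ} {C : ℝ} (hC : 0 ≤ C) {A A' : Set X} (hA' : IsClosed A')
    (hL : Level n C A A') {D : Set γ} {F : γ → X} (hF : IsMap F D A) (hp : Pr F D)
    (dD : ∀ N ⊆ D, IsCompact N → PushOff n N) :
    ∃ G : γ → X, IsMap G D A' ∧ ∀ z ∈ D, dist (G z) (F z) ≤ C := by
  classical
  obtain ⟨I, Q, cQ, lf, hA, hdis, hae, hdiam⟩ := hL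
  -- the extensions
  have hE : ∀ m, ∃ E : γ → X, ContinuousOn E (D ∩ F ⁻¹' Q m) ∧
      MapsTo E (D ∩ F ⁻¹' Q m) (Q m ∩ A') ∧ EqOn E F (D ∩ F ⁻¹' (Q m ∩ A')) := by
    intro m
    have cN : IsCompact (D ∩ F ⁻¹' Q m) := hp _ (cQ m)
    have cB : IsCompact (D ∩ F ⁻¹' (Q m ∩ A')) := hp _ ((cQ m).inter_right hA')
    have hBN : D ∩ F ⁻¹' (Q m ∩ A') ⊆ D ∩ F ⁻¹' Q m := fun z hz => ⟨hz.1, hz.2.1⟩
    exact (hae m).2 γ _ _ ⟨cN, dD _ inter_subset_left cN, cB.isClosed, hBN⟩ F
      (hF.cont.mono inter_subset_left) fun z hz => hz.2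
  choose E hEc hEm hEe using hE
  let G : γ → X := fun z => if h : F z ∉ A' ∧ ∃ m, F z ∈ Q m then E h.2.choose z else F z
  have hG1 : ∀ z, F z ∈ A' → G z = F z := fun z hz => by
    simp only [G]
    rw [dif_neg (fun h => h.1 hz)]
  have hG2 : ∀ m, ∀ z ∈ D, F z ∈ Q m → G z = E m z := by
    intro m z hz hm
    by_cases h : F z ∈ A'
    · rw [hG1 z h]
      exact (hEe m ⟨hz, hm, h⟩).symm
    · have h1 : F z ∉ A' ∧ ∃ m, F z ∈ Q m := ⟨h, m, hm⟩
      have h2 : G z = E h1.2.choose z := by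
        simp only [G]
        rw [dif_pos h1]
      rw [h2]
      by_cases h3 : h1.2.choose = m
      · rw [h3]
      · exact absurd (hdis _ _ h3 ⟨h1.2.choose_spec, hm⟩) h
  have hcov : ∀ z ∈ D, F z ∈ A' ∨ ∃ m, F z ∈ Q m := by
    intro z hz
    rcases hA (hF.maps hz) with h | h
    · exact Or.inl h
    · exact Or.inr (mem_iUnion.1 h)
  refine ⟨G, ⟨?_, ?_⟩, ?_⟩
  · rw [continuousOn_iff_continuous_domRestrict]
    have hFc : Continuous (D.domRestrict F) := by
      rw [← continuousOn_iff_continuous_domRestrict]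
      exact hF.cont
    have hfam : LocallyFinite fun i : Option I => D.domRestrict F ⁻¹' Option.elim' A' Q i :=
      (lf.option_elim' A').preimage_continuous hFc
    refine hfam.continuous ?_ ?_ ?_
    · rw [eq_univ_iff_forall]
      intro z
      rcases hcov z z.2 with h | ⟨m, h⟩
      · exact mem_iUnion.2 ⟨none, h⟩
      · exact mem_iUnion.2 ⟨some m, h⟩
    · intro i
      cases i with
      | none => exact hA'.preimage hFc
      | some m => exact (cQ m).isClosed.preimage hFc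
    · intro i
      cases i with
      | none =>
        refine hFc.continuousOn.congr ?_
        intro z hz
        exact hG1 z hz
      | some m =>
        have h1 : ContinuousOn (fun z : D => E m z) (D.domRestrict F ⁻¹' Q m) :=
          (hEc m).comp continuous_subtype_val.continuousOn fun z hz => ⟨z.2, hz⟩
        refine h1.congr ?_
        intro z hz
        exact hG2 m z z.2 hz
  · intro z hz
    rcases hcov z hz with h | ⟨m, h⟩
    · rw [hG1 z h]
      exact h
    · rw [hG2 m z hz h]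
      exact (hEm m ⟨hz, h⟩).2
  · intro z hz
    rcases hcov z hz with h | ⟨m, h⟩
    · rw [hG1 z h, dist_self]
      exact hC
    · rw [hG2 m z hz h]
      exact hdiam m _ (hEm m ⟨hz, h⟩).1 _ h

/-- **Finitely many levels.** -/
theorem levels [ProperSpace X] {n : ℕ} {C : ℝ} (hC : 0 ≤ C) {A : ℕ → Set X}
    (hA : ∀ k, IsClosed (A k)) {D : Set γ} (dD : ∀ N ⊆ D, IsCompact N → PushOff n N) (N : ℕ)
    (hL : ∀ k < N, Level n C (A k) (A (k + 1))) {F : γ → X} (hF : IsMap F D (A 0))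
    (hp : Pr F D) : ∃ G : γ → X, IsMap G D (A N) ∧ ∀ z ∈ D, dist (G z) (F z) ≤ N * C := by
  induction N with
  | zero => exact ⟨F, hF, fun z _ => by simp⟩
  | succ N ih =>
    obtain ⟨G, hG, hd⟩ := ih fun k hk => hL k (by omega)
    obtain ⟨G', hG', hd'⟩ := level_step hC (hA (N + 1)) (hL N (by omega)) hG
      (hp.of_dist hG.cont hd) dD
    refine ⟨G', hG', fun z hz => (dist_triangle _ (G z) _).trans ?_⟩
    have h1 := hd z hz
    have h2 := hd' z hz
    push_cast
    linarith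

end Level

/-! ## Maps which are asymptotic to the identity -/

section Asym

variable {X β : Type} [MetricSpace X] [MetricSpace β]

/-- `F z` tends to the point `z₀` of `L` if `z`, in `V`, tends to `z₀` -/
def Asym (i : X → β) (F : β → X) (V L : Set β) : Prop :=
  ∀ z₀ ∈ L, ∀ ε > 0, ∃ δ > 0, ∀ z ∈ V, dist z z₀ < δ → dist (i (F z)) z₀ < ε

/-- bounded sets are small near infinity -/
def Small (i : X → β) (Z : Set β) : Prop :=
  ∀ C : ℝ, ∀ z₀ ∈ Z, ∀ ε > 0, ∃ δ > 0, ∀ x x' : X, dist (i x) z₀ < δ → dist x' x ≤ C →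
    dist (i x') z₀ < ε

theorem Asym.of_dist {i : X → β} {F G : β → X} {V L Z : Set β} (hs : Small i Z) (hLZ : L ⊆ Z)
    (hF : Asym i F V L) {C : ℝ} (h : ∀ z ∈ V, dist (G z) (F z) ≤ C) : Asym i G V L := by
  intro z₀ hz₀ ε hε
  obtain ⟨δ, hδ, h1⟩ := hs C z₀ (hLZ hz₀) ε hε
  obtain ⟨δ', hδ', h2⟩ := hF z₀ hz₀ δ hδ
  exact ⟨δ', hδ', fun z hz hzz => h1 _ _ (h2 z hz hzz) (h z hz)⟩

open Classical in
/-- the extension by the identity on `L` -/
noncomputable def extL (i : X → β) (F : β → X) (L : Set β) (z : β) : β :=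
  if z ∈ L then z else i (F z)

theorem extL_of_mem {i : X → β} {F : β → X} {L : Set β} {z : β} (h : z ∈ L) :
    extL i F L z = z := if_pos h

theorem extL_of_notMem {i : X → β} {F : β → X} {L : Set β} {z : β} (h : z ∉ L) :
    extL i F L z = i (F z) := if_neg h

theorem continuousOn_extL {i : X → β} (ci : Continuous i) {F : β → X} {V L : Set β}
    (hF : ContinuousOn F V) (hL : IsClosed L) (hd : Disjoint V L) (ha : Asym i F V L) :
    ContinuousOn (extL i F L) (V ∪ L) := by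
  intro z₀ hz₀
  by_cases h0 : z₀ ∈ L
  · rw [ContinuousWithinAt, Metric.tendsto_nhdsWithin_nhds, extL_of_mem h0]
    intro ε hε
    obtain ⟨δ, hδ, h1⟩ := ha z₀ h0 ε hε
    refine ⟨min δ ε, lt_min hδ hε, fun {z} hz hzz => ?_⟩
    by_cases hzL : z ∈ L
    · rw [extL_of_mem hzL]
      exact hzz.trans_le (min_le_right _ _)
    · rw [extL_of_notMem hzL]
      exact h1 z (hz.resolve_right hzL) (hzz.trans_le (min_le_left _ _))
  · have hV : z₀ ∈ V := hz₀.resolve_right h0
    have h1 : ContinuousWithinAt (fun z => i (F z)) V z₀ := (ci.continuousAt).comp_continuousWithinAt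
      (hF z₀ hV)
    have h2 : ContinuousWithinAt (fun z => i (F z)) (V ∪ L) z₀ := by
      have h3 : Lᶜ ∈ 𝓝 z₀ := hL.isOpen_compl.mem_nhds h0
      rw [← continuousWithinAt_inter h3]
      refine h1.mono ?_
      rintro z ⟨hz | hz, hz'⟩
      · exact hz
      · exact absurd hz hz'
    refine h2.congr_of_eventuallyEq ?_ (extL_of_notMem h0)
    filter_upwards [mem_nhdsWithin_of_mem_nhds (hL.isOpen_compl.mem_nhds h0)] with z hz
    exact extL_of_notMem hz

theorem pr_of_asym {i : X → β} (ci : Continuous i) (hi : Function.Injective i) {F : β → X}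
    {V L Z : Set β} (hZ : Disjoint (range i) Z) (hLZ : L ⊆ Z) (cVL : IsCompact (V ∪ L))
    (hF : ContinuousOn F V) (hL : IsClosed L) (hd : Disjoint V L) (ha : Asym i F V L) :
    Pr F V := by
  intro Q hQ
  have h1 : V ∩ F ⁻¹' Q = (V ∪ L) ∩ extL i F L ⁻¹' (i '' Q) := by
    ext z
    constructor
    · rintro ⟨hz, hz'⟩
      refine ⟨Or.inl hz, ?_⟩
      have hzL : z ∉ L := fun h => Set.disjoint_left.1 hd hz h
      show extL i F L z ∈ i '' Q
      rw [extL_of_notMem hzL]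
      exact ⟨_, hz', rfl⟩
    · rintro ⟨hz, hz'⟩
      by_cases hzL : z ∈ L
      · exfalso
        have h2 : extL i F L z ∈ i '' Q := hz'
        rw [extL_of_mem hzL] at h2
        obtain ⟨x, -, hx⟩ := h2
        exact Set.disjoint_left.1 hZ ⟨x, hx⟩ (hLZ hzL)
      · have h2 : extL i F L z ∈ i '' Q := hz'
        rw [extL_of_notMem hzL] at h2
        obtain ⟨x, hx, hxz⟩ := h2
        refine ⟨hz.resolve_right hzL, ?_⟩
        show F z ∈ Q
        rw [← hi hxz]
        exact hx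
  rw [h1]
  exact cVL.of_isClosed_subset ((continuousOn_extL ci hF hL hd ha).preimage_isClosed_of_isClosed
    cVL.isClosed (hQ.image ci).isClosed) inter_subset_left

end Asym

/-! ## The folding -/

section Fold

variable {X β : Type} [MetricSpace X] [ProperSpace X] [MetricSpace β] [CompactSpace β]

/-- **The abstract folding theorem**, with a black box for the last push. `β`: the compactification
of `X`, `Z`: the boundary; `L`: the limit points of the wall, `V` a half of the boundary, `W` the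
half to which it is folded, `U`: the half building, `A 0 ⊇ A 1 ⊇ …`: the filtration of `U` by the
depth, `R x ζ`: the point `ζ` of the boundary is in the shadow of `x`. -/
theorem fold_of_push {n : ℕ} {i : X → β} (ci : Continuous i) (hi : Function.Injective i)
    {Z : Set β} (hZ : Disjoint (range i) Z) (dZ : PushOff n Z) (hsm : Small i Z)
    {V L W : Set β} (hVZ : V ⊆ Z) (hLZ : L ⊆ Z) (hL : IsClosed L)
    (hVL : IsClosed (V ∪ L)) (hd : Disjoint V L)
    {U : Set X} {F : β → X} (hF : IsMap F V U) (ha : Asym i F V L)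
    {A : ℕ → Set X} (hA : ∀ k, IsClosed (A k)) {r : X → X} (hr : IsMap r U (A 0)) {C : ℝ}
    (hC : 0 ≤ C) (hrd : ∀ x ∈ U, dist (r x) x ≤ C) {N : ℕ}
    (hLev : ∀ k < N, Level n C (A k) (A (k + 1)))
    {R : X → β → Prop}
    (hpush : ∀ F : β → β, ContinuousOn F (V ∪ L) → ∃ G : β → β, IsMap G (V ∪ L) Z ∧
      (∀ z ∈ V ∪ L, F z ∈ Z → G z = F z) ∧ ∀ z ∈ V ∪ L, ∀ x, F z = i x → R x (G z))
    (hexit : ∀ x ∈ A N, ∀ ζ ∈ Z, R x ζ → ζ ∈ W) :
    ∃ Ψ : β → β, ContinuousOn Ψ (V ∪ L) ∧ EqOn Ψ id L ∧ MapsTo Ψ V W := by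
  have cVL : IsCompact (V ∪ L) := hVL.isCompact
  have hVLZ : V ∪ L ⊆ Z := union_subset hVZ hLZ
  have dV : ∀ N' ⊆ V, IsCompact N' → PushOff n N' := fun N' h1 h2 =>
    dZ.mono h2 (h1.trans hVZ)
  -- after the retraction
  have h1 : IsMap (fun z => r (F z)) V (A 0) :=
    ⟨hr.cont.comp hF.cont hF.maps, fun z hz => hr.maps (hF.maps hz)⟩
  have h2 : ∀ z ∈ V, dist (r (F z)) (F z) ≤ C := fun z hz => hrd _ (hF.maps hz)
  have ha1 : Asym i (fun z => r (F z)) V L := ha.of_dist hsm hLZ h2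
  have hp1 : Pr (fun z => r (F z)) V := pr_of_asym ci hi hZ hLZ cVL h1.cont hL hd ha1
  -- the levels
  obtain ⟨G, hG, hGd⟩ := levels hC hA dV N hLev h1 hp1
  have ha2 : Asym i G V L := ha1.of_dist hsm hLZ hGd
  -- the push
  have cE : ContinuousOn (extL i G L) (V ∪ L) := continuousOn_extL ci hG.cont hL hd ha2
  obtain ⟨Ψ, hΨ, hΨ1, hΨ2⟩ := hpush _ cE
  refine ⟨Ψ, hΨ.cont, ?_, ?_⟩
  · intro z hz
    have h3 := hΨ1 z (Or.inr hz) (by rw [extL_of_mem hz]; exact hLZ hz)
    rw [h3, extL_of_mem hz]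
    rfl
  · intro z hz
    have hzL : z ∉ L := fun h => Set.disjoint_left.1 hd hz h
    exact hexit (G z) (hG.maps hz) _ (hΨ.maps (Or.inl hz))
      (hΨ2 z (Or.inl hz) (G z) (extL_of_notMem hzL))

/-- **The abstract folding theorem.** `K`, `Q`: the system of the pushing theorem. -/
theorem fold_of {n : ℕ} {i : X → β} (ci : Continuous i) (hi : Function.Injective i)
    {K Q : ℕ → Set β} (hS : Sys n K Q) (h0 : K 0 = univ) (hlim : Lim K = (range i)ᶜ)
    (dZ : PushOff n (Lim K)) (hsm : Small i (Lim K))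
    {V L W : Set β} (hVZ : V ⊆ Lim K) (hLZ : L ⊆ Lim K) (hL : IsClosed L)
    (hVL : IsClosed (V ∪ L)) (hd : Disjoint V L)
    {U : Set X} {F : β → X} (hF : IsMap F V U) (ha : Asym i F V L)
    {A : ℕ → Set X} (hA : ∀ k, IsClosed (A k)) {r : X → X} (hr : IsMap r U (A 0)) {C : ℝ}
    (hC : 0 ≤ C) (hrd : ∀ x ∈ U, dist (r x) x ≤ C) {N : ℕ}
    (hLev : ∀ k < N, Level n C (A k) (A (k + 1)))
    (hexit : ∀ x ∈ A N, ∀ y : ℕ → β, y 0 = i x → IsChain K Q y → ∀ ζ ∈ Lim K,
      Tendsto y atTop (𝓝 ζ) → ζ ∈ W) :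
    ∃ Ψ : β → β, ContinuousOn Ψ (V ∪ L) ∧ EqOn Ψ id L ∧ MapsTo Ψ V W := by
  have hZ : Disjoint (range i) (Lim K) := by
    rw [hlim]
    exact disjoint_compl_right
  have hVLZ : V ∪ L ⊆ Lim K := union_subset hVZ hLZ
  refine fold_of_push ci hi hZ dZ hsm hVZ hLZ hL hVL hd hF ha hA hr hC hrd hLev
    (R := fun x ζ => ∃ y : ℕ → β, y 0 = i x ∧ IsChain K Q y ∧ Tendsto y atTop (𝓝 ζ)) ?_ ?_
  · intro F' hF'
    obtain ⟨Ψ, hΨ, hΨ1, hΨ2⟩ := push_all hS.clK hS.clQ hS.un (fun e he => hS.drift e he)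
      hVL.isCompact
      (fun j N' A' cN cA hAN hNP f hf => by
        obtain ⟨g, g1, g2, g3⟩ := (hS.ae j).2 β N' A' ⟨cN, dZ.mono cN (hNP.trans hVLZ), cA, hAN⟩ f
          hf.cont hf.maps
        exact ⟨g, ⟨g1, g2⟩, g3⟩)
      (F := F') ⟨hF', fun z _ => by rw [h0]; exact mem_univ _⟩
    refine ⟨Ψ, hΨ, fun z hz hzZ => hΨ1 z hz fun j => mem_iInter.1 hzZ j, fun z hz x hx => ?_⟩
    obtain ⟨y, hy0, hy, hyt⟩ := hΨ2 z hz
    exact ⟨y, hy0.trans hx, hy, hyt⟩
  · rintro x hx ζ hζ ⟨y, hy0, hy, hyt⟩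
    exact hexit x hx y hy0 hy ζ hζ hyt

end Fold

end BD
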