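import Pool.Agent.Work.MP_de2d29_al.NearPt

/-!
# The cone of a compact polytope in the hyperboloid model

`kc e` is the set of non-zero vectors `x` with `mb x (e i) ≤ 0` for all `i`. If the polytope
`kc e ∩ {IsPt}` is bounded and there is an interior point, then all elements of `kc e` are future
timelike vectors.
-/

open Real Set

namespace Bld

variable {E : Type*} [NormedAddCommGroup E] [InnerProductSpace ℝ E] {S : Type*}

/-- the cone -/
def kc (e : S → E × ℝ) : Set (E × ℝ) := {x | x ≠ 0 ∧ ∀ i, mb x (e i) ≤ 0}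

theorem mb_zero_left (q : E × ℝ) : mb 0 q = 0 := by simp [mb]

theorem mb_zero_right (q : E × ℝ) : mb q 0 = 0 := by simp [mb]

theorem continuous_mb_left (q : E × ℝ) : Continuous fun p : E × ℝ => mb p q := by
  unfold mb
  fun_prop

theorem continuous_mb_right (q : E × ℝ) : Continuous fun p : E × ℝ => mb q p := by
  unfold mb
  fun_prop

/-- normalisation -/
noncomputable def nrm (p : E × ℝ) : E × ℝ := (√(-mb p p))⁻¹ • p

theorem sqrt_pos_of_fut {p : E × ℝ} (hp : Fut p) : 0 < √(-mb p p) :=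
  Real.sqrt_pos.2 (by have := hp.1; linarith)

theorem isPt_nrm {p : E × ℝ} (hp : Fut p) : IsPt (nrm p) := by
  have h0 := sqrt_pos_of_fut hp
  refine ⟨?_, (hp.smul (inv_pos.2 h0)).2⟩
  have h1 : √(-mb p p) ^ 2 = -mb p p := Real.sq_sqrt (by have := hp.1; linarith)
  rw [nrm, mb_smul_left, mb_smul_right]
  have h2 : mb p p = -√(-mb p p) ^ 2 := by rw [h1]; ring
  have h3 : (√(-mb p p))⁻¹ * ((√(-mb p p))⁻¹ * mb p p) = (√(-mb p p))⁻¹ ^ 2 * mb p p := by ring
  rw [h3]
  nth_rewrite 2 [h2]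
  field_simp

theorem nrm_of_isPt {p : E × ℝ} (hp : IsPt p) : nrm p = p := by
  rw [nrm, hp.1]
  simp

theorem nrm_smul {p : E × ℝ} {t : ℝ} (ht : 0 < t) : nrm (t • p) = nrm p := by
  have h1 : -mb (t • p) (t • p) = t ^ 2 * -mb p p := by
    rw [mb_smul_left, mb_smul_right]
    ring
  rw [nrm, nrm, h1, Real.sqrt_mul (by positivity), Real.sqrt_sq ht.le, smul_smul, mul_inv]
  congr 1
  field_simp

theorem nrm_mem_kc {e : S → E × ℝ} {p : E × ℝ} (hp : p ∈ kc e) (hF : Fut p) : nrm p ∈ kc e := by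
  have h0 := inv_pos.2 (sqrt_pos_of_fut hF)
  refine ⟨smul_ne_zero h0.ne' hp.1, fun i => ?_⟩
  rw [nrm, mb_smul_left]
  exact mul_nonpos_of_nonneg_of_nonpos h0.le (hp.2 i)

/-- elements of the cone which are timelike are uniformly timelike -/
theorem norm_le_of_bdd {e : S → E × ℝ} {M : ℝ} (hM : 1 ≤ M)
    (hb : ∀ p ∈ kc e, IsPt p → p.2 ≤ M) {y : E × ℝ} (hy : y ∈ kc e) (hF : Fut y) :
    ‖y.1‖ ≤ √(1 - (M ^ 2)⁻¹) * y.2 := by
  have h0 := sqrt_pos_of_fut hF
  have h1 := hb _ (nrm_mem_kc hy hF) (isPt_nrm hF)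
  have h2 : (nrm y).2 = (√(-mb y y))⁻¹ * y.2 := rfl
  rw [h2, inv_mul_le_iff₀ h0] at h1
  have h3 : √(-mb y y) ^ 2 = y.2 ^ 2 - ‖y.1‖ ^ 2 := by
    rw [Real.sq_sqrt (by have := hF.1; linarith)]
    simp only [mb, real_inner_self_eq_norm_sq]
    ring
  have hy2 : 0 < y.2 := hF.2
  have h4 : y.2 ^ 2 ≤ (y.2 ^ 2 - ‖y.1‖ ^ 2) * M ^ 2 := by
    rw [← h3, ← mul_pow]
    exact pow_le_pow_left₀ hy2.le h1 2
  have hM0 : 0 < M ^ 2 := by positivity
  have h5 : y.2 ^ 2 * (M ^ 2)⁻¹ ≤ y.2 ^ 2 - ‖y.1‖ ^ 2 := by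
    rw [← div_eq_mul_inv, div_le_iff₀ hM0]
    exact h4
  have h6 : ‖y.1‖ ^ 2 ≤ (1 - (M ^ 2)⁻¹) * y.2 ^ 2 := by linarith
  have h7 : 0 ≤ 1 - (M ^ 2)⁻¹ := by
    have : (M ^ 2)⁻¹ ≤ 1 := inv_le_one_of_one_le₀ (one_le_pow₀ hM)
    linarith
  have h8 : (√(1 - (M ^ 2)⁻¹) * y.2) ^ 2 = (1 - (M ^ 2)⁻¹) * y.2 ^ 2 := by
    rw [mul_pow, Real.sq_sqrt h7]
  exact abs_le_of_sq_le_sq' (by rw [h8]; exact h6) (by positivity) |>.2

theorem kappa_lt {M : ℝ} (hM : 1 ≤ M) : √(1 - (M ^ 2)⁻¹) < 1 := by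
  have h1 : 0 < (M ^ 2)⁻¹ := by positivity
  rw [show (1:ℝ) = √1 by simp]
  exact Real.sqrt_lt_sqrt (by
    have : (M ^ 2)⁻¹ ≤ 1 := inv_le_one_of_one_le₀ (one_le_pow₀ hM)
    simpa using this) (by simpa using h1)

/-- **The cone of a compact polytope consists of future timelike vectors.** -/
theorem fut_of_mem_kc [Nonempty S] {e : S → E × ℝ} {M : ℝ} (hM : 1 ≤ M)
    (hb : ∀ p ∈ kc e, IsPt p → p.2 ≤ M) {p₀ : E × ℝ} (hp₀ : IsPt p₀)
    (hint : ∀ i, mb p₀ (e i) < 0) {x : E × ℝ} (hx : x ∈ kc e) : Fut x := by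
  set κ : ℝ := √(1 - (M ^ 2)⁻¹) with hκ
  have κ0 : 0 ≤ κ := Real.sqrt_nonneg _
  have κ1 : κ < 1 := kappa_lt hM
  -- the segment
  have hseg : ∀ y ∈ segment ℝ p₀ x, y ∈ kc e := by
    rintro y ⟨a, b, ha, hb', hab, rfl⟩
    have h1 : ∀ i, mb (a • p₀ + b • x) (e i) ≤ 0 := fun i => by
      rw [mb_add_left, mb_smul_left, mb_smul_left]
      have := mul_nonpos_of_nonneg_of_nonpos ha (hint i).le
      have := mul_nonpos_of_nonneg_of_nonpos hb' (hx.2 i)
      linarith
    refine ⟨fun h0 => ?_, h1⟩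
    obtain ⟨i⟩ := ‹Nonempty S›
    have h2 : mb (a • p₀ + b • x) (e i) = 0 := by rw [h0, mb_zero_left]
    rw [mb_add_left, mb_smul_left, mb_smul_left] at h2
    have h3 := mul_nonpos_of_nonneg_of_nonpos hb' (hx.2 i)
    rcases ha.eq_or_lt with ha0 | ha0
    · rw [← ha0] at hab h0
      rw [zero_smul, zero_add, show b = 1 by linarith, one_smul] at h0
      exact hx.1 h0
    · have := mul_neg_of_pos_of_neg ha0 (hint i)
      linarith
  have hopen : IsOpen {y : E × ℝ | Fut y} := by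
    have : {y : E × ℝ | Fut y} = {y | ‖y.1‖ < y.2} := by
      ext y
      exact fut_iff
    rw [this]
    exact isOpen_lt (by fun_prop) (by fun_prop)
  have hpre : IsPreconnected (segment ℝ p₀ x) := (convex_segment p₀ x).isPreconnected
  have key := hpre.subset_of_closure_inter_subset hopen
    ⟨p₀, left_mem_segment ℝ p₀ x, hp₀.fut⟩ (by
      rintro y ⟨hy, hys⟩
      have hy1 : ‖y.1‖ ≤ y.2 := by
        have h1 : closure {y : E × ℝ | Fut y} ⊆ {y | ‖y.1‖ ≤ y.2} :=
          closure_minimal (fun y hy => (fut_iff.1 hy).le) (isClosed_le (by fun_prop) (by fun_prop))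
        exact h1 hy
      have hyk := hseg y hys
      -- `‖y.1‖ ≤ κ y.2`
      have hy2 : ‖y.1‖ ≤ κ * y.2 := by
        have h2 : ∀ t ∈ Ioo (0:ℝ) 1,
            ‖((1 - t) • y + t • p₀).1‖ ≤ κ * ((1 - t) • y + t • p₀).2 := by
          intro t ht
          have h3 : (1 - t) • y + t • p₀ ∈ segment ℝ p₀ x := by
            have h4 := convex_segment (𝕜 := ℝ) p₀ x
            exact h4 hys (left_mem_segment ℝ p₀ x) (by linarith [ht.2]) ht.1.le (by ring)
          refine norm_le_of_bdd hM hb (hseg _ h3) ?_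
          rw [fut_iff]
          simp only [Prod.fst_add, Prod.snd_add, Prod.smul_fst, Prod.smul_snd, smul_eq_mul]
          have h5 := fut_iff.1 hp₀.fut
          calc ‖(1 - t) • y.1 + t • p₀.1‖ ≤ (1 - t) * ‖y.1‖ + t * ‖p₀.1‖ := by
                refine (norm_add_le _ _).trans ?_
                rw [norm_smul, norm_smul, Real.norm_eq_abs, Real.norm_eq_abs,
                  abs_of_pos ht.1, abs_of_pos (by linarith [ht.2])]
            _ < (1 - t) * y.2 + t * p₀.2 := by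
                have h6 := mul_le_mul_of_nonneg_left hy1 (by linarith [ht.2] : (0:ℝ) ≤ 1 - t)
                have h7 := mul_lt_mul_of_pos_left h5 ht.1
                linarith
        have h8 : Filter.Tendsto (fun t : ℝ => ‖((1 - t) • y + t • p₀).1‖)
            (nhdsWithin 0 (Ioo 0 1)) (nhds ‖y.1‖) := by
          have : Continuous fun t : ℝ => ‖((1 - t) • y + t • p₀).1‖ := by fun_prop
          have h9 := (this.tendsto 0).mono_left (nhdsWithin_le_nhds (s := Ioo (0:ℝ) 1))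
          simpa using h9
        have h10 : Filter.Tendsto (fun t : ℝ => κ * ((1 - t) • y + t • p₀).2)
            (nhdsWithin 0 (Ioo 0 1)) (nhds (κ * y.2)) := by
          have : Continuous fun t : ℝ => κ * ((1 - t) • y + t • p₀).2 := by fun_prop
          have h9 := (this.tendsto 0).mono_left (nhdsWithin_le_nhds (s := Ioo (0:ℝ) 1))
          simpa using h9
        have : (nhdsWithin (0:ℝ) (Ioo 0 1)).NeBot := by
          rw [← mem_closure_iff_nhdsWithin_neBot, closure_Ioo (by norm_num)]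
          simp
        exact le_of_tendsto_of_tendsto h8 h10
          (Filter.eventually_of_mem self_mem_nhdsWithin fun t ht => h2 t ht)
      have hpos : 0 < y.2 := by
        rcases lt_or_ge 0 y.2 with h | h
        · exact h
        · exfalso
          have h3 : y.2 = 0 := by
            have := norm_nonneg y.1
            linarith
          have h4 : ‖y.1‖ = 0 := le_antisymm (by rw [h3] at hy1; exact hy1) (norm_nonneg _)
          exact hyk.1 (Prod.ext (norm_eq_zero.1 h4) h3)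
      show Fut y
      rw [fut_iff]
      have := mul_lt_mul_of_pos_right κ1 hpos
      linarith)
  exact key (right_mem_segment ℝ p₀ x)

end Bld
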