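import Pool.Agent.Work.MP_de2d29_al.Defs
import Pool.Agent.Work.MP_de2d29_al.Poly

/-!
# Hyperbolic space in the hyperboloid model: basic geometry of `Mink d`, `lor`, `hdist`

Calculus of `lor`; `Fut x` (future timelike vectors); `lor` is positive definite on the orthogonal
complement of a timelike vector; reversed Cauchy-Schwarz; the triangle inequality; nearest points
in convex cones (criterion, existence, uniqueness, Pythagoras, drift); the radial estimate; the
cone of a compact polytope.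
-/

set_option autoImplicit false

open Real Set

namespace BD

variable {d : ℕ}

/-! ## Calculus of the form -/

theorem lor_symm (x y : Mink d) : lor x y = lor y x := by
  simp only [lor, mul_comm]

theorem lor_add_left (x y z : Mink d) : lor (x + y) z = lor x z + lor y z := by
  simp only [lor, Pi.add_apply, add_mul, Finset.sum_add_distrib]
  ring

theorem lor_add_right (x y z : Mink d) : lor x (y + z) = lor x y + lor x z := by
  rw [lor_symm, lor_add_left, lor_symm y, lor_symm z]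

theorem lor_smul_left (t : ℝ) (x y : Mink d) : lor (t • x) y = t * lor x y := by
  simp only [lor, Pi.smul_apply, smul_eq_mul, mul_assoc, ← Finset.mul_sum]
  ring

theorem lor_smul_right (t : ℝ) (x y : Mink d) : lor x (t • y) = t * lor x y := by
  rw [lor_symm, lor_smul_left, lor_symm]

theorem lor_neg_left (x y : Mink d) : lor (-x) y = -lor x y := by
  have := lor_smul_left (-1) x y
  simpa using this

theorem lor_neg_right (x y : Mink d) : lor x (-y) = -lor x y := by
  rw [lor_symm, lor_neg_left, lor_symm]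

theorem lor_sub_left (x y z : Mink d) : lor (x - y) z = lor x z - lor y z := by
  rw [sub_eq_add_neg, lor_add_left, lor_neg_left]
  ring

theorem lor_sub_right (x y z : Mink d) : lor x (y - z) = lor x y - lor x z := by
  rw [sub_eq_add_neg, lor_add_right, lor_neg_right]
  ring

theorem lor_zero_left (y : Mink d) : lor 0 y = 0 := by simp [lor]

theorem lor_zero_right (y : Mink d) : lor y 0 = 0 := by simp [lor]

@[fun_prop]
theorem continuous_lor_left (y : Mink d) : Continuous fun x : Mink d => lor x y := by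
  unfold lor
  fun_prop

@[fun_prop]
theorem continuous_lor_right (y : Mink d) : Continuous fun x : Mink d => lor y x := by
  unfold lor
  fun_prop

theorem continuous_lor : Continuous fun p : Mink d × Mink d => lor p.1 p.2 := by
  unfold lor
  fun_prop

/-- the linear functional `x ↦ lor x a` -/
def lorL (a : Mink d) : Mink d →ₗ[ℝ] ℝ where
  toFun x := lor x a
  map_add' x y := lor_add_left x y a
  map_smul' t x := lor_smul_left t x a

@[simp] theorem lorL_apply (a x : Mink d) : lorL a x = lor x a := rfl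

/-! ## Transfer -/

/-- the comparison with the product of a euclidean space with `ℝ` -/
noncomputable def phi (x : Mink d) : EuclideanSpace ℝ (Fin d) × ℝ :=
  (WithLp.toLp 2 fun i => x i.succ, x 0)

/-- the inverse -/
noncomputable def psi (p : EuclideanSpace ℝ (Fin d) × ℝ) : Mink d := Fin.cons p.2 fun i => p.1 i

theorem phi_psi (p : EuclideanSpace ℝ (Fin d) × ℝ) : phi (psi p) = p := by
  refine Prod.ext ?_ ?_
  · ext i
    simp [phi, psi]
  · simp [phi, psi]

theorem psi_phi (x : Mink d) : psi (phi x) = x := by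
  funext i
  refine Fin.cases ?_ (fun i => ?_) i
  · simp [phi, psi]
  · simp [phi, psi]

theorem phi_inj {x y : Mink d} (h : phi x = phi y) : x = y := by
  rw [← psi_phi x, h, psi_phi]

theorem mb_phi (x y : Mink d) : Bld.mb (phi x) (phi y) = lor x y := by
  simp only [Bld.mb, phi, lor, PiLp.inner_apply]
  congr 1
  exact Finset.sum_congr rfl fun i _ => by
    simp [mul_comm]

theorem phi_add (x y : Mink d) : phi (x + y) = phi x + phi y := by
  refine Prod.ext ?_ rfl
  ext i
  simp [phi]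

theorem phi_smul (t : ℝ) (x : Mink d) : phi (t • x) = t • phi x := by
  refine Prod.ext ?_ rfl
  ext i
  simp [phi]

theorem phi_zero : phi (0 : Mink d) = 0 := by
  refine Prod.ext ?_ rfl
  ext i
  simp [phi]

theorem continuous_phi : Continuous (phi (d := d)) := by
  unfold phi
  refine Continuous.prodMk ?_ (continuous_apply 0)
  exact (PiLp.continuous_toLp 2 _).comp (continuous_pi fun i => continuous_apply i.succ)

theorem continuous_psi : Continuous (psi (d := d)) := by
  unfold psi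
  refine continuous_pi fun i => ?_
  refine Fin.cases ?_ (fun i => ?_) i
  · simpa using continuous_snd
  · simp only [Fin.cons_succ]
    exact (EuclideanSpace.proj i).continuous.comp continuous_fst

theorem phi_isPt {x : Mink d} : Bld.IsPt (phi x) ↔ x ∈ Hyp d := by
  rw [Bld.IsPt, mb_phi]
  exact Iff.rfl

theorem hd_phi (x y : Mink d) : Bld.hd (phi x) (phi y) = hdist x y := by
  rw [Bld.hd, mb_phi, hdist]

/-! ## Timelike vectors -/

/-- future timelike vectors -/
def Fut (x : Mink d) : Prop := lor x x < 0 ∧ 0 < x 0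

theorem phi_fut {x : Mink d} : Bld.Fut (phi x) ↔ Fut x := by
  rw [Bld.Fut, mb_phi]
  exact Iff.rfl

theorem fut_of_hyp {x : Mink d} (h : x ∈ Hyp d) : Fut x := ⟨by rw [h.1]; norm_num, h.2⟩

theorem Fut.add {x y : Mink d} (hx : Fut x) (hy : Fut y) : Fut (x + y) := by
  rw [← phi_fut, phi_add]
  exact (phi_fut.2 hx).add (phi_fut.2 hy)

theorem Fut.smul {x : Mink d} (hx : Fut x) {t : ℝ} (ht : 0 < t) : Fut (t • x) := by
  rw [← phi_fut, phi_smul]
  exact (phi_fut.2 hx).smul ht

theorem Fut.lor_neg {x y : Mink d} (hx : Fut x) (hy : Fut y) : lor x y < 0 := by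
  rw [← mb_phi]
  exact (phi_fut.2 hx).mb_neg (phi_fut.2 hy)

theorem Fut.ne_zero {x : Mink d} (hx : Fut x) : x ≠ 0 := fun h => by
  have := hx.2
  rw [h] at this
  simp at this

theorem isOpen_fut : IsOpen {x : Mink d | Fut x} := by
  have h1 : IsOpen {x : Mink d | lor x x < 0} :=
    isOpen_lt (continuous_lor.comp (continuous_id.prodMk continuous_id)) continuous_const
  have h2 : IsOpen {x : Mink d | 0 < x 0} := isOpen_lt continuous_const (continuous_apply 0)
  exact h1.inter h2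

/-- the form is positive definite on the orthogonal complement of a timelike vector -/
theorem lor_self_nonneg {x v : Mink d} (hx : Fut x) (h : lor x v = 0) : 0 ≤ lor v v := by
  rw [← mb_phi]
  exact Bld.mb_self_nonneg (phi_fut.2 hx) (by rw [mb_phi, h])

theorem lor_self_pos {x v : Mink d} (hx : Fut x) (h : lor x v = 0) (hv : v ≠ 0) :
    0 < lor v v := by
  rw [← mb_phi]
  exact Bld.mb_self_pos (phi_fut.2 hx) (by rw [mb_phi, h]) fun h0 => hv (phi_inj (by
    rw [h0, phi_zero]))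

theorem lor_sq_le {y u v : Mink d} (hy : Fut y) (hu : lor y u = 0) (hv : lor y v = 0) :
    lor u v ^ 2 ≤ lor u u * lor v v := by
  have := Bld.mb_sq_le (phi_fut.2 hy) (u := phi u) (v := phi v) (by rw [mb_phi, hu])
    (by rw [mb_phi, hv])
  simpa only [mb_phi] using this

theorem one_le_neg_lor {x y : Mink d} (hx : x ∈ Hyp d) (hy : y ∈ Hyp d) : 1 ≤ -lor x y := by
  have := Bld.one_le_neg_mb (phi_isPt.2 hx) (phi_isPt.2 hy)
  rwa [mb_phi] at this

theorem eq_of_lor_eq {x y : Mink d} (hx : x ∈ Hyp d) (hy : y ∈ Hyp d) (h : -lor x y = 1) :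
    x = y := phi_inj (Bld.eq_of_mb_eq (phi_isPt.2 hx) (phi_isPt.2 hy) (by rw [mb_phi, h]))

/-! ## The distance -/

theorem hdist_nonneg {x y : Mink d} (hx : x ∈ Hyp d) (hy : y ∈ Hyp d) : 0 ≤ hdist x y :=
  arcosh_nonneg (one_le_neg_lor hx hy)

theorem cosh_hdist {x y : Mink d} (hx : x ∈ Hyp d) (hy : y ∈ Hyp d) :
    cosh (hdist x y) = -lor x y := cosh_arcosh (one_le_neg_lor hx hy)

theorem hdist_symm (x y : Mink d) : hdist x y = hdist y x := by rw [hdist, hdist, lor_symm]

theorem hdist_self {x : Mink d} (hx : x ∈ Hyp d) : hdist x x = 0 := by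
  rw [hdist, hx.1, neg_neg, arcosh_zero]

theorem eq_of_hdist {x y : Mink d} (hx : x ∈ Hyp d) (hy : y ∈ Hyp d) (h : hdist x y = 0) :
    x = y := by
  apply eq_of_lor_eq hx hy
  rw [← cosh_hdist hx hy, h, cosh_zero]

theorem hdist_triangle {x y z : Mink d} (hx : x ∈ Hyp d) (hy : y ∈ Hyp d) (hz : z ∈ Hyp d) :
    hdist x z ≤ hdist x y + hdist y z := by
  simp only [← hd_phi]
  exact Bld.hd_triangle (phi_isPt.2 hx) (phi_isPt.2 hy) (phi_isPt.2 hz)

theorem hdist_le_hdist {x y z w : Mink d} (hx : x ∈ Hyp d) (hy : y ∈ Hyp d) (hz : z ∈ Hyp d)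
    (hw : w ∈ Hyp d) : hdist x y ≤ hdist z w ↔ -lor x y ≤ -lor z w := by
  have h1 := one_le_neg_lor hx hy
  have h2 := one_le_neg_lor hz hw
  exact arcosh_le_arcosh (by linarith) (by linarith)

/-! ## Nearest points -/

/-- convex cones of future timelike vectors -/
structure FCone (K : Set (Mink d)) : Prop where
  add : ∀ x ∈ K, ∀ y ∈ K, x + y ∈ K
  smul : ∀ x ∈ K, ∀ t : ℝ, 0 < t → t • x ∈ K
  fut : ∀ x ∈ K, Fut x

theorem FCone.phi {K : Set (Mink d)} (h : FCone K) : Bld.FCone (BD.phi '' K) where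
  add := by
    rintro _ ⟨x, hx, rfl⟩ _ ⟨y, hy, rfl⟩
    exact ⟨x + y, h.add x hx y hy, phi_add x y⟩
  smul := by
    rintro _ ⟨x, hx, rfl⟩ t ht
    exact ⟨t • x, h.smul x hx t ht, phi_smul t x⟩
  fut := by
    rintro _ ⟨x, hx, rfl⟩
    exact phi_fut.2 (h.fut x hx)

/-- criterion for the nearest point: necessity -/
theorem lor_le_of_nearest {K : Set (Mink d)} (hK : FCone K) {o m : Mink d} (ho : o ∈ Hyp d)
    (hm : m ∈ Hyp d) (hmK : m ∈ K) (hmin : ∀ y ∈ K, y ∈ Hyp d → hdist o m ≤ hdist o y)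
    {y : Mink d} (hy : y ∈ K) : lor (o + lor o m • m) y ≤ 0 := by
  have h := Bld.criterion hK.phi (phi_isPt.2 ho) (phi_isPt.2 hm) (mem_image_of_mem _ hmK) (by
    rintro _ ⟨z, hz, rfl⟩ hzp
    rw [mb_phi, mb_phi]
    exact (hdist_le_hdist ho hm ho (phi_isPt.1 hzp)).1 (hmin z hz (phi_isPt.1 hzp)))
    (mem_image_of_mem _ hy)
  rwa [mb_phi, ← phi_smul, ← phi_add, mb_phi] at h

/-- Pythagoras inequality -/
theorem cosh_mul_cosh_le {o m y : Mink d} (ho : o ∈ Hyp d) (hm : m ∈ Hyp d) (hy : y ∈ Hyp d)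
    (h : lor (o + lor o m • m) y ≤ 0) :
    cosh (hdist o m) * cosh (hdist m y) ≤ cosh (hdist o y) := by
  rw [cosh_hdist ho hm, cosh_hdist hm hy, cosh_hdist ho hy]
  rw [lor_add_left, lor_smul_left] at h
  linarith

/-- criterion for the nearest point: sufficiency -/
theorem hdist_le_of_lor_le {o m y : Mink d} (ho : o ∈ Hyp d) (hm : m ∈ Hyp d) (hy : y ∈ Hyp d)
    (h : lor (o + lor o m • m) y ≤ 0) : hdist o m ≤ hdist o y := by
  rw [hdist_le_hdist ho hm ho hy]
  rw [lor_add_left, lor_smul_left] at h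
  have h2 := one_le_neg_lor hm hy
  have h3 := one_le_neg_lor ho hm
  nlinarith

/-- uniqueness of the nearest point -/
theorem eq_of_hdist_le {o m y : Mink d} (ho : o ∈ Hyp d) (hm : m ∈ Hyp d) (hy : y ∈ Hyp d)
    (h : lor (o + lor o m • m) y ≤ 0) (h' : hdist o y ≤ hdist o m) : y = m := by
  rw [← hd_phi, ← hd_phi] at h'
  exact phi_inj (Bld.eq_of_hd_le (phi_isPt.2 ho) (phi_isPt.2 hm) (phi_isPt.2 hy)
    (by rw [mb_phi, ← phi_smul, ← phi_add, mb_phi]; exact h) h')

/-- drift -/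
theorem hdist_sq_le {o m y : Mink d} (ho : o ∈ Hyp d) (hm : m ∈ Hyp d) (hy : y ∈ Hyp d)
    (h : lor (o + lor o m • m) y ≤ 0) {δ : ℝ} (hδ : hdist o y ≤ hdist o m + δ) :
    hdist m y ^ 2 ≤ 2 * (exp δ - 1) := by
  rw [← hd_phi, ← hd_phi] at hδ
  rw [← hd_phi]
  exact Bld.hd_sq_le (phi_isPt.2 ho) (phi_isPt.2 hm) (phi_isPt.2 hy)
    (by rw [mb_phi, ← phi_smul, ← phi_add, mb_phi]; exact h) hδ

/-- nearest points exist -/
theorem exists_nearest {K : Set (Mink d)} (hK : FCone K) {o : Mink d} (ho : o ∈ Hyp d)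
    (hc : IsCompact (K ∩ Hyp d)) (hne : (K ∩ Hyp d).Nonempty) :
    ∃ m ∈ K, m ∈ Hyp d ∧ ∀ y ∈ K, lor (o + lor o m • m) y ≤ 0 := by
  have hcont : Continuous fun p : Mink d => -lor o p := by fun_prop
  obtain ⟨m, hm, hmin⟩ := hc.exists_isMinOn hne hcont.continuousOn
  refine ⟨m, hm.1, hm.2, fun y hy => lor_le_of_nearest hK ho hm.2 hm.1 (fun z hz hz' => ?_) hy⟩
  rw [hdist_le_hdist ho hm.2 ho hz']
  exact isMinOn_iff.1 hmin z ⟨hz, hz'⟩

/-! ## Normalisation -/

/-- the point of hyperbolic space on the ray of a timelike vector -/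
noncomputable def nrm (x : Mink d) : Mink d := (√(-lor x x))⁻¹ • x

theorem phi_nrm (x : Mink d) : phi (nrm x) = Bld.nrm (phi x) := by
  rw [nrm, Bld.nrm, phi_smul, mb_phi]

theorem nrm_mem {x : Mink d} (hx : Fut x) : nrm x ∈ Hyp d := by
  rw [← phi_isPt, phi_nrm]
  exact Bld.isPt_nrm (phi_fut.2 hx)

theorem sqrt_lor_pos {x : Mink d} (hx : Fut x) : 0 < √(-lor x x) :=
  Real.sqrt_pos.2 (by have := hx.1; linarith)

theorem nrm_of_hyp {x : Mink d} (hx : x ∈ Hyp d) : nrm x = x := by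
  rw [nrm, hx.1]
  simp

theorem nrm_smul {x : Mink d} {t : ℝ} (ht : 0 < t) : nrm (t • x) = nrm x := by
  apply phi_inj
  rw [phi_nrm, phi_smul, phi_nrm, Bld.nrm_smul ht]

theorem sqrt_smul_nrm {x : Mink d} (hx : Fut x) : √(-lor x x) • nrm x = x := by
  rw [nrm, smul_smul, mul_inv_cancel₀ (sqrt_lor_pos hx).ne', one_smul]

theorem continuousOn_nrm : ContinuousOn (nrm (d := d)) {x | Fut x} := by
  unfold nrm
  refine ContinuousOn.smul (ContinuousOn.inv₀ ?_ fun x hx => (sqrt_lor_pos hx).ne')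
    continuousOn_id
  refine Continuous.continuousOn ?_
  refine Real.continuous_sqrt.comp ?_
  exact (continuous_lor.comp (continuous_id.prodMk continuous_id)).neg

/-! ## Radial estimate -/

/-- the point at distance `a` from `(1, 0)` in the direction `ξ` -/
noncomputable def rpt (ξ : EuclideanSpace ℝ (Fin d)) (a : ℝ) : Mink d :=
  psi (Bld.pt ξ a)

theorem rpt_mem {ξ : EuclideanSpace ℝ (Fin d)} (hξ : ‖ξ‖ = 1) (a : ℝ) : rpt ξ a ∈ Hyp d := by
  rw [← phi_isPt, rpt, phi_psi]
  refine ⟨?_, cosh_pos a⟩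
  have := Bld.neg_mb_pt hξ hξ a a
  simp only [sub_self, cosh_zero, norm_zero] at this
  linarith

theorem hdist_rpt_le {ξ η : EuclideanSpace ℝ (Fin d)} (hξ : ‖ξ‖ = 1) (hη : ‖η‖ = 1)
    {a b r s D : ℝ} (hr : 0 ≤ r) (hrs : r ≤ s) (hs : 0 < s) (ha : s ≤ a) (hb : s ≤ b)
    (hD : 0 ≤ D) (h : hdist (rpt ξ a) (rpt η b) ≤ D) :
    hdist (rpt ξ r) (rpt η r) ≤ 2 * sinh (D / 2) * exp (r - s) := by
  rw [← hd_phi, rpt, rpt, phi_psi, phi_psi]
  refine Bld.radial_le hξ hη hr hrs hs ha hb hD ?_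
  have h1 := cosh_hdist (rpt_mem hξ a) (rpt_mem hη b)
  have h2 : cosh (hdist (rpt ξ a) (rpt η b)) ≤ cosh D := by
    rw [cosh_le_cosh, abs_of_nonneg (hdist_nonneg (rpt_mem hξ a) (rpt_mem hη b)),
      abs_of_nonneg hD]
    exact h
  rw [h1, ← mb_phi, rpt, rpt, phi_psi, phi_psi] at h2
  exact h2

/-! ## The cone of a polytope -/

variable {ι : Type}

/-- the cone over `poly e` (non-zero vectors) -/
def pcone (e : ι → Mink d) : Set (Mink d) := {x | x ≠ 0 ∧ ∀ i, lor x (e i) ≤ 0}

/-- **The cone over a compact polytope consists of future timelike vectors.** -/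
theorem fut_of_mem_pcone [Nonempty ι] {e : ι → Mink d} (hc : IsCompact (poly e)) {p₀ : Mink d}
    (hp₀ : p₀ ∈ Hyp d) (hint : ∀ i, lor p₀ (e i) < 0) {x : Mink d} (hx : x ∈ pcone e) :
    Fut x := by
  obtain ⟨M, hM⟩ := hc.bddAbove_image (f := fun x : Mink d => x 0)
    (continuous_apply 0).continuousOn
  have key := Bld.fut_of_mem_kc (e := fun i => phi (e i)) (M := max M 1) (le_max_right _ _) (by
    intro p hp hpt
    rw [← phi_psi p] at hp hpt ⊢
    have h1 : psi p ∈ poly e := ⟨phi_isPt.1 hpt, fun i => by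
      have := hp.2 i
      rwa [mb_phi] at this⟩
    exact (hM (mem_image_of_mem _ h1)).trans (le_max_left _ _)) (phi_isPt.2 hp₀)
    (fun i => by rw [mb_phi]; exact hint i) (x := phi x)
    ⟨fun h0 => hx.1 (phi_inj (by rw [h0, phi_zero])), fun i => by rw [mb_phi]; exact hx.2 i⟩
  exact phi_fut.1 key

theorem nrm_mem_poly {e : ι → Mink d} {x : Mink d} (hx : x ∈ pcone e) (hF : Fut x) :
    nrm x ∈ poly e := by
  refine ⟨nrm_mem hF, fun i => ?_⟩
  rw [nrm, lor_smul_left]
  exact mul_nonpos_of_nonneg_of_nonpos (inv_pos.2 (sqrt_lor_pos hF)).le (hx.2 i)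

theorem mem_pcone_of_poly {e : ι → Mink d} {x : Mink d} (hx : x ∈ poly e) : x ∈ pcone e :=
  ⟨(fut_of_hyp hx.1).ne_zero, hx.2⟩

/-- the cone over the face of type `T` -/
def fcone (e : ι → Mink d) (T : Set ι) : Set (Mink d) :=
  {x | x ∈ pcone e ∧ ∀ i ∈ T, lor x (e i) = 0}

/-- the face of type `T` -/
def face (e : ι → Mink d) (T : Set ι) : Set (Mink d) :=
  {x | x ∈ poly e ∧ ∀ i ∈ T, lor x (e i) = 0}

theorem fcone_fcone {e : ι → Mink d} (hF : ∀ x ∈ pcone e, Fut x) (T : Set ι) :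
    FCone (fcone e T) where
  add := by
    rintro x ⟨hx, hx'⟩ y ⟨hy, hy'⟩
    refine ⟨⟨((hF x hx).add (hF y hy)).ne_zero, fun i => ?_⟩, fun i hi => ?_⟩
    · rw [lor_add_left]
      exact add_nonpos (hx.2 i) (hy.2 i)
    · rw [lor_add_left, hx' i hi, hy' i hi, add_zero]
  smul := by
    rintro x ⟨hx, hx'⟩ t ht
    refine ⟨⟨smul_ne_zero ht.ne' hx.1, fun i => ?_⟩, fun i hi => ?_⟩
    · rw [lor_smul_left]
      exact mul_nonpos_of_nonneg_of_nonpos ht.le (hx.2 i)
    · rw [lor_smul_left, hx' i hi, mul_zero]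
  fut := fun x hx => hF x hx.1

theorem fcone_inter_hyp (e : ι → Mink d) (T : Set ι) : fcone e T ∩ Hyp d = face e T := by
  ext x
  constructor
  · rintro ⟨h1, h2⟩
    exact ⟨⟨h2, h1.1.2⟩, h1.2⟩
  · rintro ⟨h1, h2⟩
    exact ⟨⟨mem_pcone_of_poly h1, h2⟩, h1.1⟩

theorem isClosed_face (e : ι → Mink d) (T : Set ι) :
    IsClosed {x : Mink d | ∀ i ∈ T, lor x (e i) = 0} := by
  simp only [ofPred_forall]
  exact isClosed_iInter fun i => isClosed_iInter fun _ =>
    isClosed_eq (continuous_lor_left _) continuous_const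

theorem isCompact_face {e : ι → Mink d} (hc : IsCompact (poly e)) (T : Set ι) :
    IsCompact (face e T) := hc.inter_right (isClosed_face e T)

/-- the nearest point of a face to a point `o` -/
theorem exists_nearest_face {e : ι → Mink d} (hc : IsCompact (poly e))
    (hF : ∀ x ∈ pcone e, Fut x) {T : Set ι} (hT : (face e T).Nonempty) {o : Mink d}
    (ho : o ∈ Hyp d) : ∃ m ∈ face e T, ∀ y ∈ fcone e T, lor (o + lor o m • m) y ≤ 0 := by
  obtain ⟨m, h1, h2, h3⟩ := exists_nearest (fcone_fcone hF T) ho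
    (by rw [fcone_inter_hyp]; exact isCompact_face hc T) (by rw [fcone_inter_hyp]; exact hT)
  refine ⟨m, ?_, h3⟩
  rw [← fcone_inter_hyp]
  exact ⟨h1, h2⟩

end BD
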