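import Pool.Agent.Work.MP_de2d29_al.CoverRep
import Pool.Agent.Work.MP_de2d29_al.HypT

/-!
# BUILDING: finitely many walls near the polytope (joint L1)

* `rf_abs_le`: the coordinate orthogonal to a hyperplane changes in a controlled way.
* `CoxPoly.rf_ne`: an interior point of the polytope lies on no wall.
* `CoxPoly.finite_near`: only finitely many roots `w (e s)` satisfy `|lor y b| ≤ S` for some point
  `y` of the polytope.
* `CoxPoly.finite_near_all`: the same for all types `s` together.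
* `CoxPoly.finite_vals`: the minima, in `(0, S]`, of roots on faces form a finite set.
-/

set_option autoImplicit false
set_option maxHeartbeats 200000

open Set

namespace BD

variable {d : ℕ} {ι : Type} {M : CoxeterMatrix ι} {e : ι → Mink d}

/-- the coordinate orthogonal to a hyperplane at two points -/
theorem rf_abs_le {p y b : Mink d} (hp : p ∈ Hyp d) (hy : y ∈ Hyp d) (hb : lor b b = 1)
    {S D : ℝ} (hS : |lor y b| ≤ S) (hD : -lor p y ≤ D) :
    |lor p b| ≤ D * S + D * (1 + S) := by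
  have hS0 : 0 ≤ S := (abs_nonneg _).trans hS
  have hc1 := one_le_neg_lor hp hy
  have hD0 : 0 ≤ D := by linarith
  set s := lor y b with hs
  set c := -lor p y with hc
  have e0 : lor p y = -c := by rw [hc, neg_neg]
  have e1 : lor y (b + s • y) = 0 := by
    rw [lor_add_right, lor_smul_right, hy.1, ← hs]
    ring
  have e2 : lor y (p + (-c) • y) = 0 := by
    rw [lor_add_right, lor_smul_right, hy.1, lor_symm y p, e0]
    ring
  have e3 := lor_sq_le (fut_of_hyp hy) e2 e1
  have e4 : lor (p + (-c) • y) (p + (-c) • y) = c ^ 2 - 1 := by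
    rw [lor_add_left, lor_add_right, lor_add_right, lor_smul_left, lor_smul_right, lor_smul_left,
      lor_smul_right, hp.1, hy.1, lor_symm y p, e0]
    ring
  have e5 : lor (b + s • y) (b + s • y) = 1 + s ^ 2 := by
    rw [lor_add_left, lor_add_right, lor_add_right, lor_smul_left, lor_smul_right, lor_smul_left,
      lor_smul_right, hb, hy.1, lor_symm b y, ← hs]
    ring
  have e6 : lor (p + (-c) • y) (b + s • y) = lor p b - c * s := by
    rw [lor_add_left, lor_add_right, lor_add_right, lor_smul_left, lor_smul_right, lor_smul_left,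
      lor_smul_right, hy.1, e0, ← hs]
    ring
  rw [e4, e5, e6] at e3
  have hs2 : |s| ≤ S := hS
  have h1 : |lor p b - c * s| ≤ D * (1 + S) := by
    refine abs_le_of_sq_le_sq (e3.trans ?_) (by positivity)
    have h2 : c ^ 2 ≤ D ^ 2 := pow_le_pow_left₀ (by linarith) hD 2
    have h3 : s ^ 2 ≤ S ^ 2 := by
      rw [← sq_abs s]
      exact pow_le_pow_left₀ (abs_nonneg _) hs2 2
    have h4 : 1 + s ^ 2 ≤ (1 + S) ^ 2 := by nlinarith
    calc (c ^ 2 - 1) * (1 + s ^ 2) ≤ D ^ 2 * (1 + S) ^ 2 := by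
          apply mul_le_mul (by linarith) h4 (by positivity) (by positivity)
      _ = (D * (1 + S)) ^ 2 := by ring
  have h2 : |c * s| ≤ D * S := by
    rw [abs_mul, abs_of_nonneg (by linarith : (0 : ℝ) ≤ c)]
    exact mul_le_mul hD hs2 (abs_nonneg _) hD0
  calc |lor p b| = |(lor p b - c * s) + c * s| := by ring_nf
    _ ≤ |lor p b - c * s| + |c * s| := abs_add_le _ _
    _ ≤ D * S + D * (1 + S) := by linarith

namespace CoxPoly

/-- the reflection in the wall of a root -/
theorem rf_reflection (h : CoxPoly M e) (w : M.Group) (s : ι) (x : Mink d) :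
    h.rep (w * M.simple s * w⁻¹) x = x - (2 * lor x (h.rep w (e s))) • h.rep w (e s) := by
  rw [h.rep_mul, h.rep_mul, h.rep_simple, refl, map_sub, map_smul, h.rep_apply_inv,
    h.lor_rep_right]

/-- an interior point of the polytope lies on no wall -/
theorem rf_ne (h : CoxPoly M e) {p : Mink d} (hp : ∀ j, lor p (e j) < 0) (w : M.Group) (s : ι) :
    lor p (h.rep w (e s)) ≠ 0 := by
  intro h0
  have h1 : ¬ lor p (h.rep w (e s)) < 0 := by rw [h0]; exact lt_irrefl _
  have h2 : ¬ 0 < lor p (h.rep w (e s)) := by rw [h0]; exact lt_irrefl _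
  rw [h.right_lt_iff hp, not_not] at h1
  rw [h.right_gt_iff hp] at h2
  exact h2 h1

theorem rf_unit (h : CoxPoly M e) (w : M.Group) (s : ι) :
    lor (h.rep w (e s)) (h.rep w (e s)) = 1 := by
  rw [h.lor_rep, h.unit]

/-- **finitely many walls near the polytope** -/
theorem finite_near_all [Finite ι] (h : CoxPoly M e) (S : ℝ) :
    {b : Mink d | (∃ (s : ι) (w : M.Group), b = h.rep w (e s)) ∧
      ∃ y ∈ poly e, |lor y b| ≤ S}.Finite := by
  obtain ⟨p, hpH, hp⟩ := h.inter
  obtain ⟨D, hD1, hD⟩ := h.exists_bound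
  set K : ℝ := D * S + D * (1 + S) with hK
  have hT : {t : M.Group | -lor (h.rep t p) p ≤ 1 + 2 * K ^ 2}.Finite :=
    h.titsRep.finite_lor hpH hp hpH _
  set f : M.Group → Mink d := fun t =>
    (2 * √((-lor (h.rep t p) p - 1) / 2))⁻¹ • (h.rep t p - p) with hf
  refine ((hT.image f).union (hT.image fun t => -f t)).subset ?_
  rintro b ⟨⟨s, w, rfl⟩, y, hy, hyS⟩
  set b := h.rep w (e s) with hb
  have hb1 : lor b b = 1 := h.rf_unit w s
  have hc0 : lor p b ≠ 0 := h.rf_ne hp w s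
  set c := lor p b with hc
  have hcK : |c| ≤ K := rf_abs_le hpH hy.1 hb1 hyS (hD p ⟨hpH, fun i => (hp i).le⟩ y hy)
  set t := w * M.simple s * w⁻¹ with ht
  have e1 : h.rep t p = p - (2 * c) • b := h.rf_reflection w s p
  have e2 : -lor (h.rep t p) p = 1 + 2 * c ^ 2 := by
    rw [e1, lor_sub_left, lor_smul_left, hpH.1, lor_symm b p, ← hc]
    ring
  have ht' : t ∈ {t : M.Group | -lor (h.rep t p) p ≤ 1 + 2 * K ^ 2} := by
    show -lor (h.rep t p) p ≤ 1 + 2 * K ^ 2
    rw [e2]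
    have : c ^ 2 ≤ K ^ 2 := by
      rw [← sq_abs c]
      exact pow_le_pow_left₀ (abs_nonneg _) hcK 2
    linarith
  have e3 : √((-lor (h.rep t p) p - 1) / 2) = |c| := by
    rw [e2, show (1 + 2 * c ^ 2 - 1) / 2 = c ^ 2 by ring, Real.sqrt_sq_eq_abs]
  have e4 : f t = (2 * |c|)⁻¹ • ((-(2 * c)) • b) := by
    rw [hf]
    simp only
    rw [e3, e1]
    congr 1
    rw [neg_smul]
    abel
  rcases lt_or_gt_of_ne hc0 with hneg | hpos
  · refine Or.inl ⟨t, ht', ?_⟩
    rw [e4, abs_of_neg hneg, smul_smul]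
    have : (2 * -c)⁻¹ * -(2 * c) = 1 := by
      rw [show -(2 * c) = 2 * -c by ring]
      exact inv_mul_cancel₀ (by linarith)
    rw [this, one_smul]
  · refine Or.inr ⟨t, ht', ?_⟩
    simp only
    rw [e4, abs_of_pos hpos, smul_smul, ← neg_smul]
    have : -((2 * c)⁻¹ * -(2 * c)) = 1 := by
      rw [mul_neg, neg_neg]
      exact inv_mul_cancel₀ (by linarith)
    rw [this, one_smul]

/-- **finitely many walls of type `s` near the polytope** -/
theorem finite_near [Finite ι] (h : CoxPoly M e) (s : ι) (S : ℝ) :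
    {b : Mink d | (∃ w : M.Group, b = h.rep w (e s)) ∧ ∃ y ∈ poly e, |lor y b| ≤ S}.Finite :=
  (h.finite_near_all S).subset fun _ hb => ⟨⟨s, hb.1⟩, hb.2⟩

/-- **finitely many values of minima of roots on faces, all types** -/
theorem finite_vals_all [Finite ι] (h : CoxPoly M e) (S : ℝ) :
    {t : ℝ | 0 < t ∧ t ≤ S ∧ ∃ (s : ι) (w : M.Group) (T : Set ι),
      IsLeast ((fun y => lor y (h.rep w (e s))) '' face e T) t}.Finite := by
  set B := {b : Mink d | (∃ (s : ι) (w : M.Group), b = h.rep w (e s)) ∧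
      ∃ y ∈ poly e, |lor y b| ≤ S} with hB
  have hBf : B.Finite := h.finite_near_all S
  have h1 : (B ×ˢ (univ : Set (Set ι))).Finite := hBf.prod finite_univ
  refine (h1.image fun q : Mink d × Set ι => sInf ((fun y => lor y q.1) '' face e q.2)).subset ?_
  rintro t ⟨ht0, htS, s, w, T, hl⟩
  refine ⟨(h.rep w (e s), T), ⟨⟨⟨s, w, rfl⟩, ?_⟩, mem_univ _⟩, hl.csInf_eq⟩
  obtain ⟨y, hy, hyt⟩ := hl.1
  refine ⟨y, hy.1, ?_⟩
  have hyt' : lor y (h.rep w (e s)) = t := hyt
  rw [hyt', abs_of_pos ht0]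
  exact htS

/-- **finitely many values of minima of roots of type `s` on faces** -/
theorem finite_vals [Finite ι] (h : CoxPoly M e) (s : ι) (S : ℝ) :
    {t : ℝ | 0 < t ∧ t ≤ S ∧ ∃ (w : M.Group) (T : Set ι),
      IsLeast ((fun y => lor y (h.rep w (e s))) '' face e T) t}.Finite :=
  (h.finite_vals_all S).subset fun _ ht => ⟨ht.1, ht.2.1, s, ht.2.2⟩

/-- the same for minimum points -/
theorem finite_vals_pt [Finite ι] (h : CoxPoly M e) (s : ι) (S : ℝ) :
    {t : ℝ | 0 < t ∧ t ≤ S ∧ ∃ (w : M.Group) (T : Set ι), ∃ m ∈ face e T,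
      lor m (h.rep w (e s)) = t ∧ ∀ y ∈ face e T, t ≤ lor y (h.rep w (e s))}.Finite := by
  refine (h.finite_vals s S).subset ?_
  rintro t ⟨h0, h1, w, T, m, hm, hmt, hle⟩
  refine ⟨h0, h1, w, T, ⟨m, hm, hmt⟩, ?_⟩
  rintro _ ⟨y, hy, rfl⟩
  exact hle y hy

/-- consecutive levels: a finite strictly increasing list of levels from `0` to beyond `S` -/
theorem exists_gap_above [Finite ι] (h : CoxPoly M e) (s : ι) {t S : ℝ} (ht : 0 ≤ t) (htS : t < S) :
    ∃ t' : ℝ, t < t' ∧ t' ≤ S ∧ ∀ (w : M.Group) (T : Set ι), ∀ m ∈ face e T,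
      (∀ y ∈ face e T, lor m (h.rep w (e s)) ≤ lor y (h.rep w (e s))) →
      t < lor m (h.rep w (e s)) → t' ≤ lor m (h.rep w (e s)) := by
  have hf := h.finite_vals_pt s S
  by_cases hne : ∃ r ∈ {t : ℝ | 0 < t ∧ t ≤ S ∧ ∃ (w : M.Group) (T : Set ι), ∃ m ∈ face e T,
      lor m (h.rep w (e s)) = t ∧ ∀ y ∈ face e T, t ≤ lor y (h.rep w (e s))}, t < r
  · obtain ⟨r, hr, htr⟩ := hne
    obtain ⟨r', ⟨hr', htr'⟩, hmin⟩ := (hf.inter_of_left (Ioi t)).exists_minimalFor id _
      ⟨r, hr, htr⟩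
    refine ⟨r', htr', hr'.2.1, fun w T m hm hle hlt => ?_⟩
    by_contra hcon
    push Not at hcon
    have h1 : lor m (h.rep w (e s)) ∈ {t : ℝ | 0 < t ∧ t ≤ S ∧ ∃ (w : M.Group) (T : Set ι),
        ∃ m ∈ face e T, lor m (h.rep w (e s)) = t ∧ ∀ y ∈ face e T,
          t ≤ lor y (h.rep w (e s))} ∩ Ioi t :=
      ⟨⟨ht.trans_lt hlt, hcon.le.trans hr'.2.1, w, T, m, hm, rfl, hle⟩, hlt⟩
    exact absurd (hmin h1 hcon.le) (not_le.2 hcon)
  · refine ⟨S, htS, le_rfl, fun w T m hm hle hlt => ?_⟩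
    by_contra hcon
    push Not at hcon
    exact hne ⟨lor m (h.rep w (e s)), ⟨ht.trans_lt hlt, hcon.le, w, T, m, hm, rfl, hle⟩, hlt⟩

end CoxPoly

end BD
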