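import Pool.Agent.Work.MP_de2d29_al.FinCh
import Pool.Agent.Work.MP_de2d29_al.CellSys

/-!
# BUILDING: the cell complex of the compactified realisation

* `RadSp.gH`: the function `exp (-height)` on `XHat`.
* `Mdl.np c J`: the nearest point of the face `J` of the chamber `c` (in the chart of `c`).
* `Mdl.cx`: the cells `(c, J)` as a `CellCx` in `XHat`.
* `Mdl.exists_sys`: the system of sets, if the links are absolute extensors.
* `Mdl.bdry_core`: the properties of the boundary, if the links are absolute extensors.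
-/

set_option autoImplicit false

open Set Metric Topology Filter
open Pool.Agent.Work.MP_de2d29_al RootBasis

namespace BD

open Pool.Agent.Work.MP_017613_gt.Rnd (AEk)

/-! ## The height -/

section height

variable {X : Type} [MetricSpace X] {o : X} {p : ℝ → X → X}

/-- `exp (-height)` -/
noncomputable def gH (x : XHat o p) : ℝ := ⨅ r : ℕ, Real.exp (-dist o (x.1 r))

theorem gH_bdd (x : XHat o p) : BddBelow (range fun r : ℕ => Real.exp (-dist o (x.1 r))) :=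
  ⟨0, by rintro _ ⟨r, rfl⟩; exact (Real.exp_pos _).le⟩

theorem gH_nonneg (x : XHat o p) : 0 ≤ gH x := le_ciInf fun _ => (Real.exp_pos _).le

theorem gH_le (x : XHat o p) (r : ℕ) : gH x ≤ Real.exp (-dist o (x.1 r)) := ciInf_le (gH_bdd x) r

theorem gH_bdry {x : XHat o p} (hx : x ∈ HBdry o p) : gH x = 0 := by
  refine le_antisymm ?_ (gH_nonneg x)
  refine ge_of_tendsto' (x := atTop) (f := fun r : ℕ => Real.exp (-(r : ℝ))) ?_ fun r => ?_
  · exact Real.tendsto_exp_neg_atTop_nhds_zero.comp tendsto_natCast_atTop_atTop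
  · have := gH_le x r
    rwa [hx r] at this

variable (h : RadSp X o p)
include h

theorem RadSp.gH_ι (y : X) : gH (h.ι y) = Real.exp (-dist o y) := by
  refine le_antisymm ?_ (le_ciInf fun r => ?_)
  · obtain ⟨r, hr⟩ := exists_nat_ge (dist o y)
    have h1 := gH_le (h.ι y) r
    rwa [h.ι_coord, h.fix _ _ hr] at h1
  · rw [h.ι_coord, h.nrm _ (Nat.cast_nonneg r)]
    exact Real.exp_le_exp.2 (neg_le_neg (min_le_right _ _))

theorem RadSp.gH_eq_zero {x : XHat o p} : gH x = 0 ↔ x ∈ HBdry o p := by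
  constructor
  · intro h0
    by_contra hx
    obtain ⟨y, rfl⟩ := h.not_mem_HBdry.1 hx
    rw [h.gH_ι] at h0
    exact (Real.exp_pos _).ne' h0
  · exact gH_bdry

theorem RadSp.gH_pos {x : XHat o p} (hx : 0 < gH x) : ∃ y, h.ι y = x := by
  have : x ∉ HBdry o p := fun h0 => hx.ne' (gH_bdry h0)
  exact h.not_mem_HBdry.1 this

theorem RadSp.continuous_gH : Continuous (gH (o := o) (p := p)) := by
  have hu : TendstoUniformly (fun (r : ℕ) (x : XHat o p) => Real.exp (-dist o (x.1 r))) gH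
      atTop := by
    rw [Metric.tendstoUniformly_iff]
    intro ε hε
    have h1 : Tendsto (fun r : ℕ => Real.exp (-(r : ℝ))) atTop (𝓝 0) :=
      Real.tendsto_exp_neg_atTop_nhds_zero.comp tendsto_natCast_atTop_atTop
    filter_upwards [h1.eventually (gt_mem_nhds hε)] with r hr x
    refine lt_of_le_of_lt ?_ hr
    have h2 := gH_le x r
    rw [Real.dist_eq, abs_sub_comm, abs_of_nonneg (by linarith)]
    rcases (x.2 r).1.eq_or_lt with h3 | h3
    · have := gH_nonneg x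
      rw [h3]
      linarith
    · have h4 := h.eq_ι h3
      have h5 := h.gH_ι (x.1 r)
      rw [← h4] at h5
      rw [h5, sub_self]
      exact (Real.exp_pos _).le
  refine hu.continuous (Frequently.of_forall fun r => ?_)
  exact Real.continuous_exp.comp (continuous_const.dist (XHat.continuous_coord r)).neg

end height

/-! ## The hyperbolic space as a metric space -/

/-- hyperbolic space with its metric -/
def Hp (d : ℕ) : Type := {x : Mink d // x ∈ Hyp d}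

noncomputable instance (d : ℕ) : MetricSpace (Hp d) where
  dist x y := hdist x.1 y.1
  dist_self x := hdist_self x.2
  dist_comm x y := hdist_symm x.1 y.1
  dist_triangle x y z := hdist_triangle x.2 y.2 z.2
  eq_of_dist_eq_zero {x y} hxy := Subtype.ext (eq_of_hdist x.2 y.2 hxy)

theorem Hp.dist_def {d : ℕ} (x y : Hp d) : dist x y = hdist x.1 y.1 := rfl

/-- the cone over the polytope consists of future timelike vectors -/
theorem CoxPoly.fut {n : ℕ} {ι : Type} {M : CoxeterMatrix ι} {e : ι → Mink (n + 1)}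
    (h : CoxPoly M e) : ∀ x ∈ pcone e, Fut x := by
  have hne : Nonempty ι := by
    by_contra hcon
    rw [not_nonempty_iff] at hcon
    obtain ⟨B, hB⟩ := h.compact.bddAbove_image (f := fun x : Mink (n + 1) => x 0)
      (continuous_apply 0).continuousOn
    set t : ℝ := |B| + 1 with ht
    have ht0 : 0 ≤ t := by positivity
    set x : Mink (n + 1) := Fin.cons (Real.cosh t) (fun i => if i = 0 then Real.sinh t else 0)
      with hx
    have hx0 : x 0 = Real.cosh t := rfl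
    have hxs : ∀ i : Fin (n + 1), x i.succ = if i = 0 then Real.sinh t else 0 := fun i => rfl
    have hmem : x ∈ poly e := by
      refine ⟨⟨?_, ?_⟩, fun i => (hcon.false i).elim⟩
      · have h1 : ∑ i : Fin (n + 1), x i.succ * x i.succ = Real.sinh t * Real.sinh t := by
          rw [Finset.sum_eq_single 0]
          · rw [hxs, if_pos rfl]
          · intro i _ hi
            rw [hxs, if_neg hi, mul_zero]
          · exact fun h0 => (h0 (Finset.mem_univ _)).elim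
        rw [lor, h1, hx0]
        have := Real.cosh_sq t
        nlinarith
      · rw [hx0]
        exact Real.cosh_pos t
    have h1 := hB (mem_image_of_mem _ hmem)
    have h2 : t < Real.cosh t := by
      have h3 : Real.sinh t < Real.cosh t := Real.sinh_lt_cosh t
      have h4 := Real.self_le_sinh_iff.2 ht0
      linarith
    have h5 : x 0 ≤ B := h1
    rw [hx0] at h5
    have h6 := le_abs_self B
    linarith
  obtain ⟨p, -, hp⟩ := h.inter
  obtain ⟨q, hq, hq'⟩ := h.inter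
  exact fun x hx => fut_of_mem_pcone h.compact hq hq' hx

/-- the indices of the cells: a chamber and the type of a non-empty face -/
abbrev CIdx {d : ℕ} {ι : Type} (C : Type) (e : ι → Mink d) : Type :=
  {p : C × Set ι // (face e p.2).Nonempty}

variable {ι C X : Type} {d : ℕ} {M : CoxeterMatrix ι} {e : ι → Mink d} [MetricSpace X]
  {h : CoxPoly M e} {Δ : Building M C} {mk : C → poly e → X}

/-- the cell `(c, J)` in `X` -/
def cellX (mk : C → poly e → X) (p : C × Set ι) : Set X :=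
  mk p.1 '' {x : poly e | (x : Mink d) ∈ face e p.2}

omit [MetricSpace X] in
theorem mem_cellX {p : C × Set ι} {q : X} : q ∈ cellX mk p ↔
    ∃ x : poly e, (x : Mink d) ∈ face e p.2 ∧ mk p.1 x = q := Iff.rfl

namespace Mdl

variable (m : Mdl h Δ mk)
include m

theorem compact_cellX (p : C × Set ι) : IsCompact (cellX mk p) := by
  have : CompactSpace (poly e) := isCompact_iff_compactSpace.1 h.compact
  refine IsCompact.image ?_ (m.continuous_mk p.1)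
  refine IsClosed.isCompact ?_
  exact (isCompact_face h.compact p.2).isClosed.preimage continuous_subtype_val

/-- equality of points -/
theorem mk_eq_iff (c c' : C) (x y : poly e) : mk c x = mk c' y ↔
    (x : Mink d) = y ∧ Δ.δ c c' ∈ parab M (wallsOf e (x : Mink d)) := by
  rw [← dist_eq_zero, m.dist_mk]
  constructor
  · intro h0
    have h1 := eq_of_hdist x.2.1 (h.rep_mem_Hyp _ y.2.1) h0
    have h2 := (h.rep_eq_iff x.2 y.2 1 (Δ.δ c c')).1 (by rw [h.rep_one]; exact h1)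
    rwa [inv_one, one_mul] at h2
  · rintro ⟨h1, h2⟩
    have h3 : (x : Mink d) = h.rep (Δ.δ c c') y := by
      have := (h.rep_eq_iff x.2 y.2 1 (Δ.δ c c')).2 ⟨h1, by rwa [inv_one, one_mul]⟩
      rwa [h.rep_one] at this
    rw [← h3]
    exact hdist_self x.2.1

/-- the smallest cell containing a point -/
theorem carrier (q : X) : ∃ τ : CIdx C e, q ∈ cellX mk τ.1 ∧
    ∀ σ : C × Set ι, q ∈ cellX mk σ → cellX mk τ.1 ⊆ cellX mk σ := by
  obtain ⟨c, x, rfl⟩ := m.surj q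
  refine ⟨⟨(c, wallsOf e (x : Mink d)), ⟨x, x.2, fun i hi => hi⟩⟩, ⟨x, ⟨x.2, fun i hi => hi⟩, rfl⟩,
    ?_⟩
  rintro ⟨c', J⟩ ⟨y, hy, hxy⟩
  have h0 : mk c' y = mk c x := hxy
  obtain ⟨h1, h2⟩ := (m.mk_eq_iff c c' x y).1 h0.symm
  rintro _ ⟨z, hz, rfl⟩
  have hz' : ∀ i ∈ wallsOf e (x : Mink d), lor (z : Mink d) (e i) = 0 := hz.2
  refine ⟨z, ⟨z.2, fun i hi => hz' i ?_⟩, ?_⟩
  · show lor (x : Mink d) (e i) = 0
    rw [h1]
    exact hy.2 i hi
  · show mk c' z = mk c z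
    refine ((m.mk_eq_iff c c' z z).2 ⟨rfl, ?_⟩).symm
    refine Subgroup.closure_mono (image_mono ?_) h2
    exact fun i hi => hz' i hi

variable (c₀ : C) (o₀ : poly e)

omit m in
variable (h Δ) in
/-- the base point in the chart of `c` -/
noncomputable def bp (c₀ : C) (o₀ : poly e) (c : C) : Mink d := h.rep (Δ.δ c c₀) o₀

omit m in
theorem bp_mem (c : C) : bp h Δ c₀ o₀ c ∈ Hyp d := h.rep_mem_Hyp _ o₀.2.1

theorem dist_o (c : C) (x : poly e) :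
    dist (mk c₀ o₀) (mk c x) = hdist (bp h Δ c₀ o₀ c) x := by
  rw [dist_comm, m.dist_mk, hdist_symm]
  rfl

omit m in
variable (h Δ) in
theorem exists_np (hF : ∀ x ∈ pcone e, Fut x) (σ : CIdx C e) :
    ∃ q ∈ face e σ.1.2, ∀ y ∈ fcone e σ.1.2,
      lor (bp h Δ c₀ o₀ σ.1.1 + lor (bp h Δ c₀ o₀ σ.1.1) q • q) y ≤ 0 :=
  exists_nearest_face h.compact hF σ.2 (bp_mem c₀ o₀ σ.1.1)

omit m in
variable (h Δ) in
/-- the nearest point of a cell, in the chart of its chamber -/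
noncomputable def np (hF : ∀ x ∈ pcone e, Fut x) (c₀ : C) (o₀ : poly e) (σ : CIdx C e) : Mink d :=
  (exists_np h Δ c₀ o₀ hF σ).choose

variable (hF : ∀ x ∈ pcone e, Fut x)

omit m in
theorem np_mem (σ : CIdx C e) : np h Δ hF c₀ o₀ σ ∈ face e σ.1.2 :=
  (exists_np h Δ c₀ o₀ hF σ).choose_spec.1

omit m in
theorem np_le (σ : CIdx C e) {y : Mink d} (hy : y ∈ fcone e σ.1.2) :
    lor (bp h Δ c₀ o₀ σ.1.1 + lor (bp h Δ c₀ o₀ σ.1.1) (np h Δ hF c₀ o₀ σ) •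
      np h Δ hF c₀ o₀ σ) y ≤ 0 :=
  (exists_np h Δ c₀ o₀ hF σ).choose_spec.2 y hy

omit m in
theorem fcone_of_face {T : Set ι} {y : Mink d} (hy : y ∈ face e T) : y ∈ fcone e T := by
  rw [← fcone_inter_hyp] at hy
  exact hy.1

omit m in
theorem hdist_np_le (σ : CIdx C e) {y : Mink d} (hy : y ∈ face e σ.1.2) :
    hdist (bp h Δ c₀ o₀ σ.1.1) (np h Δ hF c₀ o₀ σ) ≤ hdist (bp h Δ c₀ o₀ σ.1.1) y :=
  hdist_le_of_lor_le (bp_mem c₀ o₀ σ.1.1) (np_mem c₀ o₀ hF σ).1.1 hy.1.1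
    (np_le c₀ o₀ hF σ (fcone_of_face hy))

omit m in
theorem eq_np (σ : CIdx C e) {y : Mink d} (hy : y ∈ face e σ.1.2)
    (h' : hdist (bp h Δ c₀ o₀ σ.1.1) y ≤ hdist (bp h Δ c₀ o₀ σ.1.1) (np h Δ hF c₀ o₀ σ)) :
    y = np h Δ hF c₀ o₀ σ :=
  eq_of_hdist_le (bp_mem c₀ o₀ σ.1.1) (np_mem c₀ o₀ hF σ).1.1 hy.1.1
    (np_le c₀ o₀ hF σ (fcone_of_face hy)) h'

omit m in
variable (h Δ mk) in
/-- the nearest point of a cell -/
noncomputable def npt (hF : ∀ x ∈ pcone e, Fut x) (c₀ : C) (o₀ : poly e) (σ : CIdx C e) : X :=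
  mk σ.1.1 ⟨np h Δ hF c₀ o₀ σ, (np_mem c₀ o₀ hF σ).1⟩

omit m [MetricSpace X] in
theorem npt_mem (σ : CIdx C e) : npt h Δ mk hF c₀ o₀ σ ∈ cellX mk σ.1 :=
  ⟨⟨np h Δ hF c₀ o₀ σ, (np_mem c₀ o₀ hF σ).1⟩, np_mem c₀ o₀ hF σ, rfl⟩

theorem dist_npt (σ : CIdx C e) : dist (mk c₀ o₀) (npt h Δ mk hF c₀ o₀ σ) =
    hdist (bp h Δ c₀ o₀ σ.1.1) (np h Δ hF c₀ o₀ σ) := m.dist_o c₀ o₀ _ _

theorem dist_npt_le (σ : CIdx C e) {q : X} (hq : q ∈ cellX mk σ.1) :
    dist (mk c₀ o₀) (npt h Δ mk hF c₀ o₀ σ) ≤ dist (mk c₀ o₀) q := by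
  obtain ⟨x, hx, rfl⟩ := hq
  rw [m.dist_npt, m.dist_o]
  exact hdist_np_le c₀ o₀ hF σ hx

theorem dist_npt_lt (σ : CIdx C e) {q : X} (hq : q ∈ cellX mk σ.1)
    (hne : q ≠ npt h Δ mk hF c₀ o₀ σ) :
    dist (mk c₀ o₀) (npt h Δ mk hF c₀ o₀ σ) < dist (mk c₀ o₀) q := by
  obtain ⟨x, hx, rfl⟩ := hq
  by_contra hcon
  rw [not_lt, m.dist_npt, m.dist_o] at hcon
  refine hne ?_
  have h1 := eq_np c₀ o₀ hF σ hx hcon
  rw [npt]
  exact congrArg _ (Subtype.ext h1)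

/-! ### The cell complex -/

section

variable [Finite ι] (hL : Δ.LocFinite)

/-- **The cells in the compactification.** -/
noncomputable def cx : CellCx (XHat (mk c₀ o₀) (m.rad (mk c₀ o₀))) (CIdx C e) where
  cell σ := (m.radSp' hL (mk c₀ o₀)).ι '' cellX mk σ.1
  g := gH
  m σ := (m.radSp' hL (mk c₀ o₀)).ι (npt h Δ mk hF c₀ o₀ σ)
  closed σ := ((m.compact_cellX σ.1).image (m.radSp' hL (mk c₀ o₀)).continuous_ι).isClosed
  cont := (m.radSp' hL (mk c₀ o₀)).continuous_gH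
  nonneg u := gH_nonneg u
  pos σ := by
    rintro _ ⟨q, -, rfl⟩
    rw [(m.radSp' hL (mk c₀ o₀)).gH_ι]
    exact Real.exp_pos _
  mem σ := ⟨_, npt_mem c₀ o₀ hF σ, rfl⟩
  max σ := by
    rintro _ ⟨q, hq, rfl⟩ hne
    rw [(m.radSp' hL (mk c₀ o₀)).gH_ι, (m.radSp' hL (mk c₀ o₀)).gH_ι]
    refine Real.exp_lt_exp.2 (neg_lt_neg (m.dist_npt_lt c₀ o₀ hF σ hq fun h0 => hne ?_))
    rw [h0]
  carrier u hu := by
    obtain ⟨q, rfl⟩ := (m.radSp' hL (mk c₀ o₀)).gH_pos hu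
    obtain ⟨τ, h1, h2⟩ := m.carrier q
    refine ⟨τ, mem_image_of_mem _ h1, fun σ hσ => image_mono (h2 σ.1 ?_)⟩
    obtain ⟨q', hq', h3⟩ := hσ
    rwa [← (m.radSp' hL (mk c₀ o₀)).ι_injective h3]
  fin t ht := by
    have h1 : ({c : C | ∃ x : poly e, dist (mk c₀ o₀) (mk c x) ≤ -Real.log t} ×ˢ
        (univ : Set (Set ι))).Finite := (m.hfin hL (mk c₀ o₀) _).prod finite_univ
    refine Set.Finite.of_finite_image (f := Subtype.val) (h1.subset ?_)
      Subtype.val_injective.injOn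
    rintro _ ⟨σ, hσ, rfl⟩
    refine ⟨⟨⟨np h Δ hF c₀ o₀ σ, (np_mem c₀ o₀ hF σ).1⟩, ?_⟩, mem_univ _⟩
    have h2 : t ≤ gH ((m.radSp' hL (mk c₀ o₀)).ι (npt h Δ mk hF c₀ o₀ σ)) := hσ
    rw [(m.radSp' hL (mk c₀ o₀)).gH_ι] at h2
    have h3 := Real.log_le_log ht h2
    rw [Real.log_exp] at h3
    show dist (mk c₀ o₀) (npt h Δ mk hF c₀ o₀ σ) ≤ -Real.log t
    linarith

theorem cx_cell (σ : CIdx C e) : (m.cx c₀ o₀ hF hL).cell σ =
    (m.radSp' hL (mk c₀ o₀)).ι '' cellX mk σ.1 := rfl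

theorem cx_m (σ : CIdx C e) : (m.cx c₀ o₀ hF hL).m σ =
    (m.radSp' hL (mk c₀ o₀)).ι (npt h Δ mk hF c₀ o₀ σ) := rfl

theorem cx_g (u : XHat (mk c₀ o₀) (m.rad (mk c₀ o₀))) : (m.cx c₀ o₀ hF hL).g u = gH u := rfl

theorem cx_bd : (m.cx c₀ o₀ hF hL).bd = HBdry (mk c₀ o₀) (m.rad (mk c₀ o₀)) := by
  ext u
  exact (m.radSp' hL (mk c₀ o₀)).gH_eq_zero

/-- the link of a class is the image of a subset of `X` -/
theorem cx_link (σ : CIdx C e) : (m.cx c₀ o₀ hF hL).link ((m.cx c₀ o₀ hF hL).m σ) =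
    (m.radSp' hL (mk c₀ o₀)).ι '' {q | ∃ σ' : CIdx C e,
      npt h Δ mk hF c₀ o₀ σ' = npt h Δ mk hF c₀ o₀ σ ∧ ∃ τ : CIdx C e,
      cellX mk τ.1 ⊆ cellX mk σ'.1 ∧ npt h Δ mk hF c₀ o₀ τ ≠ npt h Δ mk hF c₀ o₀ σ ∧
      q ∈ cellX mk τ.1} := by
  have hi := (m.radSp' hL (mk c₀ o₀)).ι_injective
  ext u
  rw [CellCx.mem_link]
  constructor
  · rintro ⟨σ', h1, τ, h2, h3, q, hq, rfl⟩
    refine ⟨q, ⟨σ', hi h1, τ, ?_, fun h4 => h3 ?_, hq⟩, rfl⟩
    swap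
    · rw [m.cx_m, m.cx_m, h4]
    intro y hy
    obtain ⟨z, hz, hzy⟩ := h2 (mem_image_of_mem _ hy)
    rwa [← hi hzy]
  · rintro ⟨q, ⟨σ', h1, τ, h2, h3, hq⟩, rfl⟩
    refine ⟨σ', ?_, τ, image_mono h2, fun h4 => h3 (hi h4), q, hq, rfl⟩
    rw [m.cx_m, m.cx_m, h1]

/-! ### Size, near, ball -/

theorem size : ∃ K : ℝ, 0 ≤ K ∧ ∀ σ, ∀ u ∈ (m.cx c₀ o₀ hF hL).cell σ,
    dist ((m.cx c₀ o₀ hF hL).m σ) u ≤ K * (m.cx c₀ o₀ hF hL).g ((m.cx c₀ o₀ hF hL).m σ) := by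
  obtain ⟨D, hD0, hD⟩ := h.exists_diam
  refine ⟨2 * Real.sinh (D / 2), ?_, ?_⟩
  · have := Real.sinh_nonneg_iff.2 (show 0 ≤ D / 2 by linarith)
    linarith
  · intro σ u hu
    obtain ⟨q, hq, rfl⟩ := hu
    rw [m.cx_g, m.cx_m, (m.radSp' hL (mk c₀ o₀)).gH_ι]
    refine (m.hcat (mk c₀ o₀)).size (m.radSp' hL (mk c₀ o₀)) dist_nonneg le_rfl
      (m.dist_npt_le c₀ o₀ hF σ hq) ?_
    obtain ⟨x, hx, rfl⟩ := hq
    rw [npt, m.isometry_like]
    exact hD _ (np_mem c₀ o₀ hF σ).1 _ x.2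

omit [Finite ι] in
/-- the retractions are 1-Lipschitz -/
theorem hdist_ret_le (a c c' : C) (x y : poly e) :
    hdist (h.rep (Δ.δ a c) x) (h.rep (Δ.δ a c') y) ≤ dist (mk c x) (mk c' y) := by
  have h1 : lor (x : Mink d) (h.rep (Δ.δ c c') y) ≤
      lor (h.rep (Δ.δ a c) x) (h.rep (Δ.δ a c') y) :=
    retr_le h.rootBasis Δ x.2.2 y.2.2 a c c'
  rw [m.dist_mk, hdist_le_hdist (h.rep_mem_Hyp _ x.2.1) (h.rep_mem_Hyp _ y.2.1) x.2.1
    (h.rep_mem_Hyp _ y.2.1)]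
  linarith

omit m [Finite ι] in
variable (h Δ mk) in
/-- the image of a point of `X` in hyperbolic space under the retraction centred at `c₀` -/
noncomputable def zz (m : Mdl h Δ mk) (c₀ : C) (q : X) : Hp d :=
  ⟨h.rep (Δ.δ c₀ (m.surj q).choose) (m.surj q).choose_spec.choose,
    h.rep_mem_Hyp _ (m.surj q).choose_spec.choose.2.1⟩

omit [Finite ι] in
theorem zz_mk (c : C) (x : poly e) : (zz h Δ mk m c₀ (mk c x)).1 = h.rep (Δ.δ c₀ c) x := by
  have h1 := (m.surj (mk c x)).choose_spec.choose_spec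
  have h2 := m.hdist_ret_le c₀ (m.surj (mk c x)).choose c
    (m.surj (mk c x)).choose_spec.choose x
  rw [h1, dist_self] at h2
  have h3 := (zz h Δ mk m c₀ (mk c x)).2
  exact eq_of_hdist h3 (h.rep_mem_Hyp _ x.2.1)
    (le_antisymm h2 (hdist_nonneg h3 (h.rep_mem_Hyp _ x.2.1)))

/-- the retraction on the compactification (only the values on `X` matter) -/
noncomputable def zH (u : XHat (mk c₀ o₀) (m.rad (mk c₀ o₀))) : Hp d :=
  zz h Δ mk m c₀ (@Function.invFun _ _ ⟨mk c₀ o₀⟩ (m.radSp' hL (mk c₀ o₀)).ι u)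

theorem zH_ι (q : X) : m.zH c₀ o₀ hL ((m.radSp' hL (mk c₀ o₀)).ι q) = zz h Δ mk m c₀ q := by
  have := @Function.leftInverse_invFun _ _ ⟨mk c₀ o₀⟩ _
    (m.radSp' hL (mk c₀ o₀)).ι_injective q
  rw [zH, this]

theorem near {δ : ℝ} (σ τ : CIdx C e)
    (h1 : (m.cx c₀ o₀ hF hL).m τ ∈ (m.cx c₀ o₀ hF hL).cell σ)
    (h2 : (m.cx c₀ o₀ hF hL).g ((m.cx c₀ o₀ hF hL).m σ) <
      Real.exp δ * (m.cx c₀ o₀ hF hL).g ((m.cx c₀ o₀ hF hL).m τ)) :
    dist (m.zH c₀ o₀ hL ((m.cx c₀ o₀ hF hL).m σ)) (m.zH c₀ o₀ hL ((m.cx c₀ o₀ hF hL).m τ)) ^ 2 ≤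
      2 * (Real.exp δ - 1) := by
  obtain ⟨q, hq, h3⟩ := h1
  have h4 := (m.radSp' hL (mk c₀ o₀)).ι_injective h3
  rw [m.cx_g, m.cx_g, m.cx_m, m.cx_m, (m.radSp' hL (mk c₀ o₀)).gH_ι,
    (m.radSp' hL (mk c₀ o₀)).gH_ι, ← h4, ← Real.exp_add, Real.exp_lt_exp] at h2
  rw [m.cx_m, m.cx_m, m.zH_ι, m.zH_ι, ← h4]
  obtain ⟨x, hx, rfl⟩ := hq
  rw [m.dist_npt, m.dist_o] at h2
  rw [Hp.dist_def, npt, m.zz_mk, m.zz_mk, h.hdist_rep]
  exact hdist_sq_le (bp_mem c₀ o₀ σ.1.1) (np_mem c₀ o₀ hF σ).1.1 x.2.1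
    (np_le c₀ o₀ hF σ (fcone_of_face hx)) (by linarith)

theorem ball : ∃ N : ℕ, ∀ F : Finset (XHat (mk c₀ o₀) (m.rad (mk c₀ o₀))),
    (∀ p ∈ F, p ∈ range (m.cx c₀ o₀ hF hL).m) →
    (∀ p ∈ F, ∀ q ∈ F, (m.cx c₀ o₀ hF hL).g p = (m.cx c₀ o₀ hF hL).g q → p = q) →
    (∃ y, ∀ p ∈ F, dist (m.zH c₀ o₀ hL p) y ≤ 1) → F.card ≤ N := by
  classical
  obtain ⟨N, hN⟩ := h.exists_card_tiles_dist 1
  refine ⟨N * Nat.card (Set ι), fun F h1 h2 h3 => ?_⟩
  obtain ⟨y, hy⟩ := h3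
  obtain ⟨hfin, hcard⟩ := hN y.1 y.2
  set T : Set M.Group := {w | ∃ y' ∈ poly e, hdist y.1 (h.rep w y') ≤ 1} with hT
  have hc : Nonempty (CIdx C e) := ⟨⟨(c₀, ∅), ⟨o₀, o₀.2, fun i hi => hi.elim⟩⟩⟩
  let s : XHat (mk c₀ o₀) (m.rad (mk c₀ o₀)) → CIdx C e := fun p =>
    if hp : p ∈ range (m.cx c₀ o₀ hF hL).m then hp.choose else hc.some
  have hs : ∀ p ∈ F, (m.cx c₀ o₀ hF hL).m (s p) = p := fun p hp => by
    simp only [s]
    rw [dif_pos (h1 p hp)]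
    exact (h1 p hp).choose_spec
  let f : XHat (mk c₀ o₀) (m.rad (mk c₀ o₀)) → M.Group × Set ι := fun p =>
    (Δ.δ c₀ (s p).1.1, (s p).1.2)
  have hf : ∀ p ∈ F, f p ∈ T ×ˢ (univ : Set (Set ι)) := fun p hp => by
    refine ⟨⟨np h Δ hF c₀ o₀ (s p), (np_mem c₀ o₀ hF (s p)).1, ?_⟩, mem_univ _⟩
    have h4 := hy p hp
    rw [← hs p hp, m.cx_m, m.zH_ι, npt, dist_comm, Hp.dist_def, m.zz_mk] at h4
    exact h4
  have hinj : Set.InjOn f F := fun p hp q hq hpq => by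
    refine h2 p hp q hq ?_
    rw [← hs p hp, ← hs q hq, m.cx_g, m.cx_g, m.cx_m, m.cx_m,
      (m.radSp' hL (mk c₀ o₀)).gH_ι, (m.radSp' hL (mk c₀ o₀)).gH_ι, m.dist_npt, m.dist_npt]
    have e1 : Δ.δ c₀ (s p).1.1 = Δ.δ c₀ (s q).1.1 := (Prod.ext_iff.1 hpq).1
    have e2 : (s p).1.2 = (s q).1.2 := (Prod.ext_iff.1 hpq).2
    have e3 : bp h Δ c₀ o₀ (s p).1.1 = bp h Δ c₀ o₀ (s q).1.1 := by
      rw [bp, bp, Δ.δ_symm c₀ (s p).1.1, Δ.δ_symm c₀ (s q).1.1, e1]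
    have l1 := hdist_np_le (Δ := Δ) (h := h) c₀ o₀ hF (s p)
      (y := np h Δ hF c₀ o₀ (s q)) (by rw [e2]; exact np_mem c₀ o₀ hF (s q))
    have l2 := hdist_np_le (Δ := Δ) (h := h) c₀ o₀ hF (s q)
      (y := np h Δ hF c₀ o₀ (s p)) (by rw [← e2]; exact np_mem c₀ o₀ hF (s p))
    rw [← e3] at l2
    rw [← e3, le_antisymm l1 l2]
  have hP : (T ×ˢ (univ : Set (Set ι))).Finite := hfin.prod finite_univ
  calc F.card = (f '' (F : Set _)).ncard := by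
        rw [hinj.ncard_image, Set.ncard_coe_finset]
    _ ≤ (T ×ˢ (univ : Set (Set ι))).ncard := by
        refine Set.ncard_le_ncard ?_ hP
        rintro _ ⟨p, hp, rfl⟩
        exact hf p hp
    _ = T.ncard * Nat.card (Set ι) := by
        rw [Set.ncard_prod, Set.ncard_univ]
    _ ≤ N * Nat.card (Set ι) := Nat.mul_le_mul_right _ hcard

/-- **The system of sets of the building.** -/
theorem exists_sys {n : ℕ} (ae : ∀ σ, AEk n ((m.cx c₀ o₀ hF hL).link ((m.cx c₀ o₀ hF hL).m σ))) :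
    ∃ K Q : ℕ → Set (XHat (mk c₀ o₀) (m.rad (mk c₀ o₀))), Sys n K Q ∧ K 0 = univ ∧
      Lim K = HBdry (mk c₀ o₀) (m.rad (mk c₀ o₀)) := by
  have := (m.radSp' hL (mk c₀ o₀)).compactSpace
  have hc : Nonempty (CIdx C e) := ⟨⟨(c₀, ∅), ⟨o₀, o₀.2, fun i hi => hi.elim⟩⟩⟩
  obtain ⟨K, hK0, hK⟩ := m.size c₀ o₀ hF hL
  obtain ⟨N, hN⟩ := m.ball c₀ o₀ hF hL
  -- the width of the windows
  set a : ℝ := 1 / ((N : ℝ) + 1) with ha
  have ha0 : 0 < a := by positivity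
  have hδ : 0 < Real.log (1 + a ^ 2 / 2) := Real.log_pos (by nlinarith [pow_pos ha0 2])
  obtain ⟨μ, -, -, h1, h2, h3⟩ := (m.cx c₀ o₀ hF hL).sys ae hK0 hK (z := m.zH c₀ o₀ hL) (N := N)
    hδ (fun σ τ h1 h2 => by
      have h3 := m.near c₀ o₀ hF hL σ τ h1 h2
      rw [Real.exp_log (by positivity)] at h3
      refine le_of_sq_le_sq ?_ ha0.le
      rw [← ha]
      linarith) hN
  exact ⟨_, _, h1, h3, h2.trans (m.cx_bd c₀ o₀ hF hL)⟩

end

end Mdl

/-- **The boundary of the building**: dimension at most `n`, uniformly locally `(n-1)`-connected and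
`(n-1)`-connected, if the links of all classes are absolute extensors in dimension `≤ n`. -/
theorem Mdl.bdry_core {n : ℕ} {e : ι → Mink (n + 1)} {h : CoxPoly M e} {mk : C → poly e → X}
    [Finite ι] (m : Mdl h Δ mk) (hL : Δ.LocFinite)
    (ae : ∀ (c₀ : C) (o₀ : poly e) (σ : CIdx C e),
      AEk n ((m.cx c₀ o₀ h.fut hL).link ((m.cx c₀ o₀ h.fut hL).m σ))) (o : X) :
    Pool.Agent.Work.MP_017613_gt.PushOff n (HBdry o (m.rad o)) ∧ MG.ULC n (HBdry o (m.rad o)) ∧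
      MG.Conn n (HBdry o (m.rad o)) := by
  obtain ⟨c₀, o₀, rfl⟩ := m.surj o
  obtain ⟨K, Q, h1, h2, h3⟩ := m.exists_sys c₀ o₀ h.fut hL (ae c₀ o₀)
  exact m.bdry_of hL _ h1 h2 h3

end BD
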