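import Pool.Agent.Work.MP_de2d29_al.LinkAE2
import Pool.Agent.Work.MP_de2d29_al.XCell
import Pool.Agent.Work.MP_de2d29_al.FoldAbs
import Pool.Agent.Work.MP_de2d29_al.RootFin
import Pool.Agent.Work.MP_de2d29_al.CSt2

/-!
# The levels of a half building (block F, F5b)

The half building is `{sd c s < 0}`, the depth is `f = - sd c s`. On a cell on which `f > 0` the
function `f` has exactly one lowest point. `X.offT c s t` is the union of the cells on which `f > t`.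

* `X.isClosed_offT`.
* `X.level_offT`: if no cell with `f > t` has its minimum in `(t, t')`, then
  `Level n K (offT t) (offT t')`.
* `X.levels_geo`: the filtration of the union of the cells in the open half building, down to the
  depth `S`.
-/

set_option autoImplicit false

open Set Metric Topology Filter

namespace BD

open Pool.Agent.Work.MP_017613_gt.Rnd (AEk)

namespace LV

/-! ## Lowest points of faces -/

section low

variable {d : ℕ} {ι : Type} (e : ι → Mink d)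

/-- `m` is the lowest point of the face `J` for the function `x ↦ - lor b x`, which is positive
there -/
def Low (b : Mink d) (J : Set ι) (m : Mink d) : Prop :=
  m ∈ face e J ∧ lor b m < 0 ∧ ∀ y ∈ face e J, lor (b + lor b m • m) y ≤ 0

variable {e} {b : Mink d} {J : Set ι} {m m' y : Mink d}

theorem Low.le (h : Low e b J m) (hy : y ∈ face e J) : lor b y ≤ lor b m * -lor m y := by
  have h1 := h.2.2 y hy
  rw [lor_add_left, lor_smul_left] at h1
  linarith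

theorem Low.le' (h : Low e b J m) (hy : y ∈ face e J) : lor b y ≤ lor b m := by
  have h1 := h.le hy
  have h2 := one_le_neg_lor h.1.1.1 hy.1.1
  have h3 := h.2.1
  nlinarith

theorem Low.lt (h : Low e b J m) (hy : y ∈ face e J) (hne : y ≠ m) : lor b y < lor b m := by
  have h1 := h.le hy
  have h2 := one_le_neg_lor h.1.1.1 hy.1.1
  have h3 := h.2.1
  have h4 : 1 < -lor m y := lt_of_le_of_ne h2 fun h5 =>
    hne (eq_of_lor_eq h.1.1.1 hy.1.1 h5.symm).symm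
  nlinarith

/-- the lowest point is unique -/
theorem Low.unique (h : Low e b J m) (h' : Low e b J m') : m = m' := by
  by_contra hne
  have h1 := h.lt h'.1 fun h0 => hne h0.symm
  have h2 := h'.lt h.1 hne
  linarith

/-- the lowest point exists -/
theorem exists_low (hc : IsCompact (poly e)) (hJ : (face e J).Nonempty)
    (hneg : ∀ y ∈ face e J, lor b y < 0) : ∃ m, Low e b J m := by
  obtain ⟨m, hm, hmax⟩ := (isCompact_face hc J).exists_isMaxOn hJ
    (f := fun y => lor b y) (continuous_lor_right _).continuousOn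
  refine ⟨m, hm, hneg m hm, fun y hy => ?_⟩
  set α : ℝ := -lor b m with hα
  set β : ℝ := -lor b y with hβ
  set γ : ℝ := -lor m y with hγ
  have α0 : 0 < α := by have := hneg m hm; linarith
  have β0 : 0 < β := by have := hneg y hy; linarith
  have γ1 : 1 ≤ γ := one_le_neg_lor hm.1.1 hy.1.1
  rw [lor_add_left, lor_smul_left]
  have e1 : lor b m = -α := by rw [hα]; ring
  have e2 : lor b y = -β := by rw [hβ]; ring
  have e3 : lor m y = -γ := by rw [hγ]; ring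
  rw [e1, e2, e3]
  by_contra hcon
  push Not at hcon
  have hbc : β < α * γ := by linarith
  -- for all `t > 0`, `a ^ 2 (1 + 2 t c + t ^ 2) ≤ (a + t b) ^ 2`
  have key : ∀ t > 0, α ^ 2 * (1 + 2 * t * γ + t ^ 2) ≤ (α + t * β) ^ 2 := by
    intro t ht
    have hzF : Fut (m + t • y) := (fut_of_hyp hm.1.1).add ((fut_of_hyp hy.1.1).smul ht)
    set n2 : ℝ := 1 + 2 * t * γ + t ^ 2 with hn2
    have hn : -lor (m + t • y) (m + t • y) = n2 := by
      rw [lor_add_left, lor_add_right, lor_add_right, lor_smul_left, lor_smul_left, lor_smul_right,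
        lor_smul_right, hm.1.1.1, hy.1.1.1, lor_symm y m, e3, hn2]
      ring
    have n20 : 0 < n2 := by rw [← hn]; have := hzF.1; linarith
    set r : ℝ := √n2 with hr
    have r0 : 0 < r := Real.sqrt_pos.2 n20
    have hr2 : r ^ 2 = n2 := Real.sq_sqrt n20.le
    have hz : nrm (m + t • y) = r⁻¹ • (m + t • y) := by rw [nrm, hn]
    have hmem : nrm (m + t • y) ∈ face e J := by
      refine ⟨⟨nrm_mem hzF, fun i => ?_⟩, fun i hi => ?_⟩
      · rw [hz, lor_smul_left, lor_add_left, lor_smul_left]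
        refine mul_nonpos_of_nonneg_of_nonpos (inv_pos.2 r0).le ?_
        have h1 := hm.1.2 i
        have h2 := mul_nonpos_of_nonneg_of_nonpos ht.le (hy.1.2 i)
        linarith
      · rw [hz, lor_smul_left, lor_add_left, lor_smul_left, hm.2 i hi, hy.2 i hi]
        ring
    have h2 : lor b (nrm (m + t • y)) ≤ lor b m := isMaxOn_iff.1 hmax _ hmem
    have h3 : lor b (nrm (m + t • y)) = -(r⁻¹ * (α + t * β)) := by
      rw [hz, lor_smul_right, lor_add_right, lor_smul_right, e1, e2]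
      ring
    rw [h3, e1, neg_le_neg_iff, inv_mul_eq_div, le_div_iff₀ r0] at h2
    rw [← hr2, ← mul_pow]
    exact pow_le_pow_left₀ (mul_pos α0 r0).le h2 2
  have h4 : 0 < α * γ - β := by linarith
  have t0 : 0 < α * (α * γ - β) / (β ^ 2 + 1) := by positivity
  have h5 := key _ t0
  set t : ℝ := α * (α * γ - β) / (β ^ 2 + 1) with ht
  have h6 : t * (β ^ 2 + 1) = α * (α * γ - β) := by
    rw [ht]
    field_simp
  have h7 : 0 ≤ α ^ 2 * t ^ 2 := by positivity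
  have h8 : 2 * t * (α * (α * γ - β)) ≤ t ^ 2 * β ^ 2 := by nlinarith
  have h9 : 2 * (α * (α * γ - β)) ≤ t * β ^ 2 := by
    have : t * (2 * (α * (α * γ - β))) ≤ t * (t * β ^ 2) := by nlinarith
    exact le_of_mul_le_mul_left this t0
  nlinarith [mul_pos α0 h4]

end low

/-! ## Cells -/

section cells

variable {d : ℕ} {ι Ch : Type} {M : CoxeterMatrix ι} {e : ι → Mink d} (hP : CoxPoly M e)
  (Δ : Building M Ch)

/-- the vector of the wall in the chart of the chamber `a` -/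
noncomputable def bv (c : Ch) (s : ι) (a : Ch) : Mink d := hP.rep (Δ.δ a c) (e s)

variable [Finite ι]

theorem sd_mk (c : Ch) (s : ι) (a : Ch) (y : poly e) :
    X.sd hP Δ c s (X.mk hP Δ a y) = lor (bv hP Δ c s a) y := by
  rw [X.sd_mk, hP.lor_rep_left, lor_symm, bv, Δ.δ_symm c a]

variable {hP Δ}

/-- the cell `(a, walls x)` is the smallest cell containing `(a, x)` -/
theorem sub_of_mem {a : Ch} {x : poly e} {σ : Ch × Set ι}
    (h : X.mk hP Δ a x ∈ cellX (X.mk hP Δ) σ) :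
    cellX (X.mk hP Δ) (a, wallsOf e (x : Mink d)) ⊆ cellX (X.mk hP Δ) σ := by
  obtain ⟨y, hy, h0⟩ := h
  obtain ⟨h1, h2⟩ := (X.mk_eq_iff hP Δ a σ.1 x y).1 h0.symm
  rintro _ ⟨z, hz, rfl⟩
  have hz' : ∀ i ∈ wallsOf e (x : Mink d), lor (z : Mink d) (e i) = 0 := hz.2
  refine ⟨z, ⟨z.2, fun i hi => hz' i ?_⟩, ?_⟩
  · show lor (x : Mink d) (e i) = 0
    rw [h1]
    exact hy.2 i hi
  · refine ((X.mk_eq_iff hP Δ a σ.1 z z).2 ⟨rfl, ?_⟩).symm
    exact Subgroup.closure_mono (image_mono fun i hi => hz' i hi) h2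

variable (hP Δ) in
/-- the union of the cells with lowest point `p` -/
def Qs (c : Ch) (s : ι) (p : X hP Δ) : Set (X hP Δ) :=
  {q | ∃ (a : Ch) (J : Set ι) (m : poly e), Low e (bv hP Δ c s a) J m ∧ X.mk hP Δ a m = p ∧
    q ∈ cellX (X.mk hP Δ) (a, J)}

theorem sd_of_low {c : Ch} {s : ι} {a : Ch} {J : Set ι} {m : poly e} {q : X hP Δ}
    (h : Low e (bv hP Δ c s a) J m) (hq : q ∈ cellX (X.mk hP Δ) (a, J)) :
    X.sd hP Δ c s q ≤ X.sd hP Δ c s (X.mk hP Δ a m) := by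
  obtain ⟨y, hy, rfl⟩ := hq
  rw [sd_mk, sd_mk]
  exact h.le' hy

theorem sd_lt_of_low {c : Ch} {s : ι} {a : Ch} {J : Set ι} {m : poly e} {q : X hP Δ}
    (h : Low e (bv hP Δ c s a) J m) (hq : q ∈ cellX (X.mk hP Δ) (a, J))
    (hne : q ≠ X.mk hP Δ a m) : X.sd hP Δ c s q < X.sd hP Δ c s (X.mk hP Δ a m) := by
  obtain ⟨y, hy, rfl⟩ := hq
  rw [sd_mk, sd_mk]
  refine h.lt hy fun h0 => hne ?_
  rw [Subtype.ext h0]

/-- the cells form a locally finite family -/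
theorem lf_cells (hL : Δ.LocFinite) : LocallyFinite (cellX (X.mk hP Δ)) := by
  intro q
  refine ⟨ball q 1, ball_mem_nhds q one_pos, ?_⟩
  refine (((X.mdl hP Δ).hfin hL q 1).prod (finite_univ (α := Set ι))).subset ?_
  rintro σ ⟨p, ⟨x, hx, rfl⟩, hp⟩
  refine ⟨⟨x, ?_⟩, mem_univ _⟩
  rw [dist_comm]
  exact (mem_ball.1 hp).le

theorem isCompact_Qs (hL : Δ.LocFinite) (c : Ch) (s : ι) (p : X hP Δ) :
    IsCompact (Qs hP Δ c s p) := by
  have h1 : Qs hP Δ c s p = ⋃ σ ∈ {σ : Ch × Set ι | ∃ m : poly e,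
      Low e (bv hP Δ c s σ.1) σ.2 m ∧ X.mk hP Δ σ.1 m = p}, cellX (X.mk hP Δ) σ := by
    ext q
    simp only [mem_iUnion, Set.mem_ofPred_eq]
    constructor
    · rintro ⟨a, J, m, h1, h2, h3⟩
      exact ⟨(a, J), ⟨m, h1, h2⟩, h3⟩
    · rintro ⟨σ, ⟨m, h1, h2⟩, h3⟩
      exact ⟨σ.1, σ.2, m, h1, h2, h3⟩
  rw [h1]
  refine Set.Finite.isCompact_biUnion ?_ fun σ _ => (X.mdl hP Δ).compact_cellX σ
  refine (((X.mdl hP Δ).hfin hL p 0).prod (finite_univ (α := Set ι))).subset ?_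
  rintro σ ⟨m, -, rfl⟩
  exact ⟨⟨m, (dist_self _).le⟩, mem_univ _⟩

end cells

end LV

section off

variable {d : ℕ} {ι Ch : Type} {M : CoxeterMatrix ι} {e : ι → Mink d} (hP : CoxPoly M e)
  (Δ : Building M Ch) [Finite ι]

/-- the union of the cells on which `sd c s < - t` -/
def X.offT (c : Ch) (s : ι) (t : ℝ) : Set (X hP Δ) :=
  {q | ∃ (a : Ch) (J : Set ι), q ∈ cellX (X.mk hP Δ) (a, J) ∧
    ∀ p ∈ cellX (X.mk hP Δ) (a, J), X.sd hP Δ c s p < -t}

theorem X.isClosed_offT (hL : Δ.LocFinite) (c : Ch) (s : ι) (t : ℝ) :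
    IsClosed (X.offT hP Δ c s t) := by
  have h1 : X.offT hP Δ c s t = ⋃ σ : {σ : Ch × Set ι // ∀ p ∈ cellX (X.mk hP Δ) σ,
      X.sd hP Δ c s p < -t}, cellX (X.mk hP Δ) σ.1 := by
    ext q
    rw [mem_iUnion]
    constructor
    · rintro ⟨a, J, h1, h2⟩
      exact ⟨⟨(a, J), h2⟩, h1⟩
    · rintro ⟨σ, h1⟩
      exact ⟨σ.1.1, σ.1.2, h1, σ.2⟩
  rw [h1]
  refine LocallyFinite.isClosed_iUnion ?_ fun σ => ((X.mdl hP Δ).compact_cellX σ.1).isClosed
  exact (LV.lf_cells hL).comp_injective Subtype.val_injective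

variable {hP Δ}

/-- the intersection of the class of `p` with the next set of the filtration -/
theorem LV.link_eq {n : ℕ} {ι Ch : Type} [Fintype ι] {M : CoxeterMatrix ι} {e : ι → Mink (n + 1)}
    {hP : CoxPoly M e} {Δ : Building M Ch} {c : Ch} {s : ι} {a₁ : Ch} {J₁ : Set ι} {m : poly e}
    (hm : LV.Low e (LV.bv hP Δ c s a₁) J₁ m) :
    LV.Qs hP Δ c s (X.mk hP Δ a₁ m) ∩ X.offT hP Δ c s (-X.sd hP Δ c s (X.mk hP Δ a₁ m)) =
      X.Bm hP Δ m (e s) c a₁ := by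
  ext q
  constructor
  · rintro ⟨⟨a, J, m₀, hlow, hp, hq⟩, a', J', hq', hneg⟩
    obtain ⟨hmm, hpar⟩ := (X.mk_eq_iff hP Δ a a₁ m₀ m).1 hp
    have hmm' : m₀ = m := Subtype.ext hmm
    subst hmm'
    obtain ⟨x, hx, rfl⟩ := hq
    have hsub := LV.sub_of_mem hq'
    have hout : (x : Mink (n + 1)) ∈ outer e (m₀ : Mink (n + 1)) := by
      refine ⟨x.2, ?_⟩
      by_contra hcon
      push Not at hcon
      have h1 : X.mk hP Δ a m₀ ∈ cellX (X.mk hP Δ) (a, wallsOf e (x : Mink (n + 1))) := by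
        refine ⟨m₀, ⟨m₀.2, fun i hi => ?_⟩, rfl⟩
        have h2 := m₀.2.2 i
        rcases h2.eq_or_lt with h3 | h3
        · exact h3
        · exact absurd hi (hcon i h3)
      have h2 := hneg _ (hsub h1)
      rw [hp] at h2
      linarith
    refine ⟨a, ?_, x, hout, rfl, fun y hy hyx => ?_⟩
    · rw [Δ.δ_symm a a₁]
      exact inv_mem hpar
    · exact hlow.2.2 y ⟨hy, fun i hi => hyx i (hlow.1.2 i hi) (hx.2 i hi)⟩
  · rintro ⟨a, hpar, x, hout, rfl, hcond⟩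
    have hp : X.mk hP Δ a₁ m = X.mk hP Δ a m := (X.mk_eq_iff hP Δ a₁ a m m).2 ⟨rfl, hpar⟩
    set J : Set ι := wallsOf e (m : Mink (n + 1)) ∩ wallsOf e (x : Mink (n + 1)) with hJ
    have hlow : LV.Low e (LV.bv hP Δ c s a) J m := by
      refine ⟨⟨m.2, fun i hi => hi.1⟩, ?_, fun y hy => hcond y hy.1 fun i h1 h2 => hy.2 i ⟨h1, h2⟩⟩
      rw [← LV.sd_mk, ← hp, LV.sd_mk]
      exact hm.2.1
    refine ⟨⟨a, J, m, hlow, hp.symm, x, ⟨x.2, fun i hi => hi.2⟩, rfl⟩, a,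
      wallsOf e (x : Mink (n + 1)), ⟨x, ⟨x.2, fun i hi => hi⟩, rfl⟩, ?_⟩
    rintro _ ⟨y, hy, rfl⟩
    rw [neg_neg, hp]
    refine LV.sd_lt_of_low hlow ⟨y, ⟨y.2, fun i hi => hy.2 i hi.2⟩, rfl⟩ fun h0 => ?_
    obtain ⟨-, i, h1, h2⟩ := hout
    have h3 := ((X.mk_eq_iff hP Δ a a y m).1 h0).1
    have h4 : lor (y : Mink (n + 1)) (e i) = 0 := hy.2 i h2
    rw [h3] at h4
    linarith

/-- the links of the classes are absolute extensors in dimension `≤ n` -/
theorem LV.aek_link {n : ℕ} {ι Ch : Type} [Fintype ι] {M : CoxeterMatrix ι} {e : ι → Mink (n + 1)}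
    {hP : CoxPoly M e} {Δ : Building M Ch} (hmain : C.J_MAIN2) (hL : Δ.LocFinite) {c : Ch} {s : ι}
    {a₁ : Ch} {J₁ : Set ι} {m : poly e} (hm : LV.Low e (LV.bv hP Δ c s a₁) J₁ m) :
    AEk n (LV.Qs hP Δ c s (X.mk hP Δ a₁ m) ∩
      X.offT hP Δ c s (-X.sd hP Δ c s (X.mk hP Δ a₁ m))) := by
  rw [LV.link_eq hm]
  refine X.aek_Bm hP Δ hmain hL m.2 (e s) c a₁ fun a ha y hy hyw => ?_
  have h1 : X.mk hP Δ a₁ m = X.mk hP Δ a m := (X.mk_eq_iff hP Δ a₁ a m m).2 ⟨rfl, ha⟩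
  have h2 : X.mk hP Δ a₁ ⟨y, hy⟩ = X.mk hP Δ a ⟨y, hy⟩ :=
    (X.mk_eq_iff hP Δ a₁ a ⟨y, hy⟩ ⟨y, hy⟩).2
      ⟨rfl, Subgroup.closure_mono (image_mono fun i hi => hyw i hi) ha⟩
  have h3 := congrArg (X.sd hP Δ c s) h1
  have h4 := congrArg (X.sd hP Δ c s) h2
  rw [LV.sd_mk, LV.sd_mk] at h3 h4
  have h5 := hm.2.2 y ⟨hy, fun i hi => hyw i (hm.1.2 i hi)⟩
  rw [lor_add_left, lor_smul_left] at h5
  show lor (LV.bv hP Δ c s a + lor (LV.bv hP Δ c s a) m • (m : Mink (n + 1))) y ≤ 0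
  rw [lor_add_left, lor_smul_left, ← h3, ← h4]
  exact h5

/-- **One level.** -/
theorem X.level_offT {n : ℕ} {ι Ch : Type} [Fintype ι] {M : CoxeterMatrix ι}
    {e : ι → Mink (n + 1)} {hP : CoxPoly M e} {Δ : Building M Ch} (hmain : C.J_MAIN2)
    (hL : Δ.LocFinite) {D : ℝ} (hD : ∀ x ∈ poly e, ∀ y ∈ poly e, hdist x y ≤ D) {c : Ch} {s : ι}
    {t t' : ℝ} (ht : 0 ≤ t)
    (hv : ∀ a J m, LV.Low e (LV.bv hP Δ c s a) J m → t < -lor (LV.bv hP Δ c s a) m →
      t' ≤ -lor (LV.bv hP Δ c s a) m) :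
    Level n (D + D) (X.offT hP Δ c s t) (X.offT hP Δ c s t') := by
  refine ⟨{p : X hP Δ // X.sd hP Δ c s p = -t' ∧ ∃ (a : Ch) (J : Set ι) (m : poly e),
    LV.Low e (LV.bv hP Δ c s a) J m ∧ X.mk hP Δ a m = p}, fun p => LV.Qs hP Δ c s p.1,
    fun p => LV.isCompact_Qs hL c s p.1, ?_, ?_, ?_, ?_, ?_⟩
  · -- local finiteness
    intro q
    refine ⟨ball q 1, ball_mem_nhds q one_pos, ?_⟩
    obtain ⟨T, hT, hfin⟩ : ∃ T : Set (Ch × Set ι), (∀ σ, (cellX (X.mk hP Δ) σ ∩ ball q 1).Nonempty →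
        σ ∈ T) ∧ T.Finite := by
      refine ⟨_, ?_, ((X.mdl hP Δ).hfin hL q 1).prod (finite_univ (α := Set ι))⟩
      rintro σ ⟨p, ⟨x, hx, rfl⟩, hp⟩
      refine ⟨⟨x, ?_⟩, mem_univ _⟩
      rw [dist_comm]
      exact (mem_ball.1 hp).le
    refine Set.Finite.subset (Set.Finite.biUnion hfin (t := fun σ => {p | ∃ m : poly e,
      LV.Low e (LV.bv hP Δ c s σ.1) σ.2 m ∧ X.mk hP Δ σ.1 m = p.1}) fun σ _ => ?_) ?_
    · refine Set.Subsingleton.finite ?_
      rintro p ⟨m, h1, h2⟩ p' ⟨m', h1', h2'⟩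
      refine Subtype.ext ?_
      rw [← h2, ← h2', Subtype.ext (h1.unique h1')]
    · rintro p ⟨r, ⟨a, J, m, h1, h2, h3⟩, hr⟩
      exact mem_biUnion (hT (a, J) ⟨r, h3, hr⟩) ⟨m, h1, h2⟩
  · -- the cover
    rintro q ⟨a, J, hq, hneg⟩
    have hq0 := hq
    obtain ⟨x, hx, -⟩ := hq0
    obtain ⟨m, hm⟩ := LV.exists_low (b := LV.bv hP Δ c s a) hP.compact ⟨_, hx⟩ fun y hy => by
      have h1 := hneg (X.mk hP Δ a ⟨y, hy.1⟩) ⟨⟨y, hy.1⟩, hy, rfl⟩
      rw [LV.sd_mk] at h1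
      exact h1.trans_le (by linarith)
    have hm' : LV.Low e (LV.bv hP Δ c s a) J (⟨m, hm.1.1⟩ : poly e) := hm
    have h1 := hneg (X.mk hP Δ a ⟨m, hm.1.1⟩) ⟨⟨m, hm.1.1⟩, hm.1, rfl⟩
    rw [LV.sd_mk] at h1
    rcases (hv a J m hm (by linarith)).eq_or_lt with h2 | h2
    · refine Or.inr (mem_iUnion.2 ⟨⟨X.mk hP Δ a ⟨m, hm.1.1⟩, ?_, a, J, _, hm', rfl⟩, a, J, _, hm',
        rfl, hq⟩)
      rw [LV.sd_mk, h2, neg_neg]
    · refine Or.inl ⟨a, J, hq, fun p hp => ?_⟩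
      have h3 := LV.sd_of_low hm' hp
      rw [LV.sd_mk] at h3
      linarith
  · -- disjointness
    rintro ⟨p, hp, hpp⟩ ⟨p', hp', hpp'⟩ hne q ⟨⟨a, J, m, h1, h2, h3⟩, ⟨a', J', m', h1', h2', h3'⟩⟩
    change X.mk hP Δ a m = p at h2
    change X.mk hP Δ a' m' = p' at h2'
    obtain ⟨x, hx, rfl⟩ := h3
    refine ⟨a, wallsOf e (x : Mink (n + 1)), ⟨x, ⟨x.2, fun i hi => hi⟩, rfl⟩, fun r hr => ?_⟩
    have hr1 := LV.sub_of_mem (σ := (a, J)) ⟨x, hx, rfl⟩ hr
    have hr2 := LV.sub_of_mem h3' hr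
    by_cases h4 : r = p
    · have h5 : r ≠ p' := fun h6 => hne (Subtype.ext (h4.symm.trans h6))
      rw [← hp']
      have h6 := LV.sd_lt_of_low h1' hr2 (by rw [h2']; exact h5)
      rwa [h2'] at h6
    · rw [← hp]
      have h6 := LV.sd_lt_of_low h1 hr1 (by rw [h2]; exact h4)
      rwa [h2] at h6
  · -- the links
    rintro ⟨p, hp, a, J, m, h1, rfl⟩
    have h2 := LV.aek_link hmain hL h1
    rwa [hp, neg_neg] at h2
  · -- the diameter
    rintro ⟨p, hp, hpp⟩ q ⟨a, J, m, h1, h2, x, hx, rfl⟩ q' ⟨a', J', m', h1', h2', x', hx', rfl⟩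
    change X.mk hP Δ a m = p at h2
    change X.mk hP Δ a' m' = p at h2'
    refine (dist_triangle _ p _).trans (add_le_add ?_ ?_)
    · rw [← h2, X.dist_mk_self]
      exact hD _ x.2 _ m.2
    · rw [← h2', X.dist_mk_self]
      exact hD _ m'.2 _ x'.2

/-- **The filtration of a half building** down to the depth `S`, if there are finitely many walls
near a chamber. -/
theorem X.levels_of {n : ℕ} {ι Ch : Type} [Fintype ι] {M : CoxeterMatrix ι}
    {e : ι → Mink (n + 1)} (hP : CoxPoly M e) (Δ : Building M Ch) (hmain : C.J_MAIN2)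
    (hL : Δ.LocFinite) (c : Ch) (s : ι) {S : ℝ}
    (hfin : {b | (∃ w, b = hP.rep w (e s)) ∧ ∃ y ∈ poly e, |lor y b| ≤ S}.Finite) :
    ∃ (K : ℝ) (N : ℕ) (A : ℕ → Set (X hP Δ)), 0 ≤ K ∧ (∀ k, IsClosed (A k)) ∧
      A 0 = X.offT hP Δ c s 0 ∧ (∀ k < N, Level n K (A k) (A (k + 1))) ∧
      ∀ x ∈ A N, X.sd hP Δ c s x < -S := by
  classical
  obtain ⟨D, hD0, hD⟩ := hP.exists_diam
  -- the values
  set V : Set ℝ := {v | v ≤ S ∧ ∃ (a : Ch) (J : Set ι) (m : Mink (n + 1)),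
    LV.Low e (LV.bv hP Δ c s a) J m ∧ v = -lor (LV.bv hP Δ c s a) m} with hV
  have hVfin : V.Finite := by
    refine Set.Finite.subset (Set.Finite.biUnion (hfin.prod (finite_univ (α := Set ι)))
      (t := fun σ => {v | ∃ m, LV.Low e σ.1 σ.2 m ∧ v = -lor σ.1 m}) fun σ _ => ?_) ?_
    · refine Set.Subsingleton.finite ?_
      rintro v ⟨m, h1, h2⟩ v' ⟨m', h1', h2'⟩
      rw [h2, h2', h1.unique h1']
    · rintro v ⟨hvS, a, J, m, h1, h2⟩
      refine mem_biUnion (x := (LV.bv hP Δ c s a, J)) ⟨⟨⟨_, rfl⟩, m, h1.1.1, ?_⟩, mem_univ _⟩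
        ⟨m, h1, h2⟩
      have h3 := h1.2.1
      rw [lor_symm, abs_of_neg h3, ← h2]
      exact hvS
  have key : ∀ (k : ℕ) (t : ℝ), 0 ≤ t → (hVfin.toFinset.filter (t < ·)).card = k →
      ∃ (N : ℕ) (τ : ℕ → ℝ), τ 0 = t ∧ (∀ k < N, Level n (D + D) (X.offT hP Δ c s (τ k))
        (X.offT hP Δ c s (τ (k + 1)))) ∧ 0 ≤ τ N ∧ ∀ v ∈ V, v ≤ τ N := by
    intro k
    induction k using Nat.strong_induction_on with
    | _ k ih =>
      intro t ht hk
      by_cases hne : (hVfin.toFinset.filter (t < ·)).Nonempty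
      · set t' := (hVfin.toFinset.filter (t < ·)).min' hne with ht'
        have h1 := Finset.min'_mem _ hne
        rw [← ht', Finset.mem_filter, Set.Finite.mem_toFinset] at h1
        obtain ⟨h1, h2⟩ := h1
        have h3 : ∀ v ∈ V, t < v → t' ≤ v := fun v hv hv' => Finset.min'_le _ _ (by
          rw [Finset.mem_filter, Set.Finite.mem_toFinset]
          exact ⟨hv, hv'⟩)
        have hlt : (hVfin.toFinset.filter (t' < ·)).card < k := by
          rw [← hk]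
          refine Finset.card_lt_card ?_
          rw [Finset.ssubset_iff_subset_ne]
          refine ⟨fun v hv => ?_, fun h4 => ?_⟩
          · rw [Finset.mem_filter] at hv ⊢
            exact ⟨hv.1, h2.trans hv.2⟩
          · have h5 : t' ∈ hVfin.toFinset.filter (t < ·) := by
              rw [Finset.mem_filter, Set.Finite.mem_toFinset]
              exact ⟨h1, h2⟩
            rw [← h4, Finset.mem_filter] at h5
            exact lt_irrefl _ h5.2
        obtain ⟨N, τ, h4, h5, h6, h7⟩ := ih _ hlt t' (ht.trans h2.le) rfl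
        refine ⟨N + 1, fun i => Nat.casesOn i t fun j => τ j, rfl, fun i hi => ?_, h6, h7⟩
        cases i with
        | zero =>
          show Level n (D + D) (X.offT hP Δ c s t) (X.offT hP Δ c s (τ 0))
          rw [h4]
          refine X.level_offT hmain hL hD ht fun a J m hm hm' => ?_
          by_cases h8 : -lor (LV.bv hP Δ c s a) m ≤ S
          · exact h3 _ ⟨h8, a, J, m, hm, rfl⟩ hm'
          · have h9 := h1.1
            linarith
        | succ i => exact h5 i (by omega)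
      · rw [Finset.not_nonempty_iff_eq_empty] at hne
        refine ⟨0, fun _ => t, rfl, fun i hi => absurd hi (by omega), ht, fun v hv => ?_⟩
        by_contra hcon
        have h1 : v ∈ hVfin.toFinset.filter (t < ·) := by
          rw [Finset.mem_filter, Set.Finite.mem_toFinset]
          exact ⟨hv, not_le.1 hcon⟩
        rw [hne] at h1
        exact absurd h1 (Finset.notMem_empty v)
  obtain ⟨N, τ, h1, h2, h3, h4⟩ := key _ 0 le_rfl rfl
  refine ⟨D + D, N, fun k => X.offT hP Δ c s (τ k), by linarith, fun k =>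
    X.isClosed_offT hP Δ hL c s _, congrArg (X.offT hP Δ c s) h1, h2, ?_⟩
  rintro q ⟨a, J, hq, hneg⟩
  have hq0 := hq
  obtain ⟨x, hx, -⟩ := hq0
  obtain ⟨m, hm⟩ := LV.exists_low (b := LV.bv hP Δ c s a) hP.compact ⟨_, hx⟩ fun y hy => by
    have h1 := hneg (X.mk hP Δ a ⟨y, hy.1⟩) ⟨⟨y, hy.1⟩, hy, rfl⟩
    rw [LV.sd_mk] at h1
    exact h1.trans_le (by linarith)
  have hm' : LV.Low e (LV.bv hP Δ c s a) J (⟨m, hm.1.1⟩ : poly e) := hm
  have h5 := hneg (X.mk hP Δ a ⟨m, hm.1.1⟩) ⟨⟨m, hm.1.1⟩, hm.1, rfl⟩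
  have h6 := LV.sd_of_low hm' hq
  rw [LV.sd_mk] at h5 h6
  by_contra hcon
  have h7 := h4 (-lor (LV.bv hP Δ c s a) m) ⟨by linarith, a, J, m, hm, rfl⟩
  linarith

/-- `X.offT` for `t = 0`: the union of the cells in the open half building -/
theorem X.offT_zero (c : Ch) (s : ι) : X.offT hP Δ c s 0 =
    ⋃ (τ : CIdx Ch e) (_ : cellX (X.mk hP Δ) τ.1 ⊆ X.HalfO hP Δ c s),
      cellX (X.mk hP Δ) τ.1 := by
  ext q
  simp only [mem_iUnion]
  constructor
  · rintro ⟨a, J, h1, h2⟩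
    have h3 := h1
    obtain ⟨x, hx, -⟩ := h3
    refine ⟨⟨(a, J), ⟨_, hx⟩⟩, fun p hp => ?_, h1⟩
    have h4 := h2 p hp
    rwa [neg_zero] at h4
  · rintro ⟨τ, h1, h2⟩
    refine ⟨τ.1.1, τ.1.2, h2, fun p hp => ?_⟩
    rw [neg_zero]
    exact h1 hp

/-- **The filtration of a half building** down to the depth `S`. -/
theorem X.levels_geo {n : ℕ} {ι Ch : Type} [Fintype ι] {M : CoxeterMatrix ι}
    {e : ι → Mink (n + 1)} (hP : CoxPoly M e) (Δ : Building M Ch)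
    (hL : Δ.LocFinite) (c : Ch) (s : ι) (S : ℝ) :
    ∃ (K : ℝ) (N : ℕ) (A : ℕ → Set (X hP Δ)), 0 ≤ K ∧ (∀ k, IsClosed (A k)) ∧
      A 0 = ⋃ (τ : CIdx Ch e) (_ : cellX (X.mk hP Δ) τ.1 ⊆ X.HalfO hP Δ c s),
        cellX (X.mk hP Δ) τ.1 ∧
      (∀ k < N, Level n K (A k) (A (k + 1))) ∧ ∀ x ∈ A N, X.sd hP Δ c s x < -S := by
  obtain ⟨K, N, A, h1, h2, h3, h4, h5⟩ :=
    X.levels_of hP Δ C.j_MAIN2 hL c s (S := S) (hP.finite_near s S)
  exact ⟨K, N, A, h1, h2, h3.trans (X.offT_zero c s), h4, h5⟩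

end off

end BD
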