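import Pool.Agent.Work.MP_de2d29_al.HalfDef
import Pool.Agent.Work.MP_de2d29_al.Boost

/-!
# Continuity of the charts; a Coxeter polytope has a facet
-/

set_option autoImplicit false

open Set Topology Filter

namespace BD

section index

variable {n : ℕ} {ι : Type} {M : CoxeterMatrix ι} {e : ι → Mink (n + 1)}

/-- a compact polytope in hyperbolic space of positive dimension has a facet -/
theorem CoxPoly.nonempty_index (h : CoxPoly M e) : Nonempty ι := by
  by_contra hne
  rw [not_nonempty_iff] at hne
  obtain ⟨K, hK⟩ := h.compact.bddAbove_image (f := fun x : Mink (n + 1) => x 0)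
    (continuous_apply 0).continuousOn
  set s : ℝ := |K| + 1 with hs
  set y : Mink (n + 1) := fun i => if i = 0 then Real.sqrt (1 + s ^ 2) else
    if i = Fin.succ 0 then s else 0 with hy
  have hy0 : y 0 = Real.sqrt (1 + s ^ 2) := by simp [hy]
  have hss : Real.sqrt (1 + s ^ 2) * Real.sqrt (1 + s ^ 2) = 1 + s ^ 2 :=
    Real.mul_self_sqrt (by positivity)
  have hyH : y ∈ Hyp (n + 1) := by
    refine ⟨?_, ?_⟩
    · rw [lor, hy0, hss, Fin.sum_univ_succ]
      have h1 : y (Fin.succ 0) = s := by simp [hy]
      have h2 : ∀ i : Fin n, y (Fin.succ (Fin.succ i)) = 0 := fun i => by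
        show (if Fin.succ (Fin.succ i) = 0 then Real.sqrt (1 + s ^ 2) else
          if Fin.succ (Fin.succ i) = Fin.succ 0 then s else 0) = 0
        rw [if_neg (Fin.succ_ne_zero _), if_neg]
        intro h
        exact Fin.succ_ne_zero i (Fin.succ_injective _ h)
      have h3 : ∑ i : Fin n, y (Fin.succ (Fin.succ i)) * y (Fin.succ (Fin.succ i)) = 0 :=
        Finset.sum_eq_zero fun i _ => by rw [h2, mul_zero]
      rw [h1, h3]
      ring
    · rw [hy0]
      exact Real.sqrt_pos.2 (by positivity)
  have h1 : y 0 ≤ K := hK ⟨y, ⟨hyH, fun i => (hne.false i).elim⟩, rfl⟩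
  have h2 : s ≤ Real.sqrt (1 + s ^ 2) := Real.le_sqrt_of_sq_le (by linarith)
  have h3 := le_abs_self K
  rw [hy0] at h1
  linarith

end index

section ret

variable {d : ℕ} {ι : Type} {M : CoxeterMatrix ι} {C : Type} {e : ι → Mink d}
  (hP : CoxPoly M e) (Δ : Building M C) [Finite ι]

theorem X.continuous_mk (c : C) : Continuous (X.mk hP Δ c) := (X.mdl hP Δ).continuous_mk c

end ret

end BD
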