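import Pool.Agent.Work.MP_de2d29_al.XCell
import Pool.Agent.Work.MP_de2d29_al.XRet

/-!
# BUILDING, block F: away from the vertices of a wall

* `X.continuousOn_of_charts`: maps which are continuous in the charts are continuous.
* `vlam`, `vmap e v`: the radial projection of the polytope from its vertex `v`.
* `X.offW c s`: the union of the cells contained in the open half building of `c`.
* `X.exists_vertOff`: a map of the open half building to `X.offW c s` at bounded distance from the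
  identity.
-/

set_option autoImplicit false

open Set Metric Topology Filter

namespace BD

open MG (IsMap)

/-! ## The model: the projection from a vertex -/

section model

variable {d : ℕ} {ι : Type} {e : ι → Mink d}

theorem eq_of_smul_hyp {x v : Mink d} (hx : x ∈ Hyp d) (hv : v ∈ Hyp d) {t : ℝ} (h : x = t • v) :
    x = v := by
  have h1 : lor x x = -1 := hx.1
  have h2 : 0 < x 0 := hx.2
  rw [h, lor_smul_left, lor_smul_right, hv.1] at h1
  have h3 : x 0 = t * v 0 := by rw [h]; rfl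
  rw [h3] at h2
  have h4 : 0 < t := (pos_iff_pos_of_mul_pos h2).2 hv.2
  have h5 : t = 1 := by nlinarith
  rw [h, h5, one_smul]

/-- the largest multiple of `v` which can be subtracted from `x` inside the cone -/
noncomputable def vlam (e : ι → Mink d) (v x : Mink d) : ℝ :=
  ⨅ i : {i // lor v (e i) ≠ 0}, lor x (e i) / lor v (e i)

theorem vlam_nonneg {v x : Mink d} (hv : v ∈ poly e) (hx : x ∈ poly e) : 0 ≤ vlam e v x :=
  Real.iInf_nonneg fun i => div_nonneg_of_nonpos (hx.2 i) (hv.2 i)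

variable [Finite ι]

theorem vlam_le (v x : Mink d) {i : ι} (hi : lor v (e i) ≠ 0) :
    vlam e v x ≤ lor x (e i) / lor v (e i) :=
  ciInf_le (f := fun i : {i // lor v (e i) ≠ 0} => lor x (e i) / lor v (e i))
    (Set.finite_range _).bddBelow ⟨i, hi⟩

theorem vlam_sub_le {v x : Mink d} (hv : v ∈ poly e) (hx : x ∈ poly e) (i : ι) :
    lor (x - vlam e v x • v) (e i) ≤ 0 := by
  rw [lor_sub_left, lor_smul_left]
  by_cases hi : lor v (e i) = 0
  · rw [hi, mul_zero, sub_zero]
    exact hx.2 i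
  · have h1 : lor v (e i) < 0 := lt_of_le_of_ne (hv.2 i) hi
    have h2 := vlam_le (e := e) v x hi
    rw [le_div_iff_of_neg h1] at h2
    linarith

theorem exists_vlam_eq {v : Mink d} (x : Mink d) (hne : ∃ i, lor v (e i) ≠ 0) :
    ∃ i, lor v (e i) ≠ 0 ∧ lor (x - vlam e v x • v) (e i) = 0 := by
  obtain ⟨i₀, hi₀⟩ := hne
  have : Nonempty {i // lor v (e i) ≠ 0} := ⟨⟨i₀, hi₀⟩⟩
  obtain ⟨i, hi⟩ := exists_eq_ciInf_of_finite
    (f := fun i : {i // lor v (e i) ≠ 0} => lor x (e i) / lor v (e i))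
  refine ⟨i, i.2, ?_⟩
  have h1 : vlam e v x = lor x (e i) / lor v (e i) := hi.symm
  rw [lor_sub_left, lor_smul_left, h1, div_mul_cancel₀ _ i.2, sub_self]

theorem vlam_eq_zero {v x : Mink d} (hv : v ∈ poly e) (hx : x ∈ poly e) {i : ι}
    (hi : lor v (e i) ≠ 0) (hxi : lor x (e i) = 0) : vlam e v x = 0 :=
  le_antisymm ((vlam_le v x hi).trans (by rw [hxi, zero_div])) (vlam_nonneg hv hx)

omit [Finite ι] in
theorem exists_lor_ne (hF : ∀ x ∈ pcone e, Fut x) {v x : Mink d} (hv : v ∈ poly e)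
    (hx : x ∈ poly e) (hne : x ≠ v) : ∃ i, lor v (e i) ≠ 0 := by
  by_contra hcon
  push Not at hcon
  have hv0 : 0 < v 0 := hv.1.2
  have h1 : x - (x 0 / v 0) • v ∈ pcone e :=
    ⟨fun h0 => hne (eq_of_smul_hyp hx.1 hv.1 (sub_eq_zero.1 h0)), fun i => by
      rw [lor_sub_left, lor_smul_left, hcon i, mul_zero, sub_zero]
      exact hx.2 i⟩
  have h2 : 0 < (x - (x 0 / v 0) • v) 0 := (hF _ h1).2
  have h3 : (x - (x 0 / v 0) • v) 0 = x 0 - x 0 / v 0 * v 0 := rfl
  rw [h3, div_mul_cancel₀ _ hv0.ne', sub_self] at h2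
  exact lt_irrefl _ h2

theorem continuous_vlam (v : Mink d) : Continuous (vlam e v) := by
  rcases isEmpty_or_nonempty {i // lor v (e i) ≠ 0} with h | h
  · have h1 : vlam e v = fun _ => 0 := funext fun x => Real.iInf_of_isEmpty _
    rw [h1]
    exact continuous_const
  · have := Fintype.ofFinite {i // lor v (e i) ≠ 0}
    have h1 : vlam e v = fun x => Finset.univ.inf' Finset.univ_nonempty
        fun i : {i // lor v (e i) ≠ 0} => lor x (e i) / lor v (e i) :=
      funext fun x => (Finset.inf'_univ_eq_ciInf _).symm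
    rw [h1]
    exact Continuous.finset_inf'_apply _ fun i _ => (continuous_lor_left _).div_const _

theorem sub_vlam_mem {v x : Mink d} (hv : v ∈ poly e) (hx : x ∈ poly e) (hne : x ≠ v) :
    x - vlam e v x • v ∈ pcone e :=
  ⟨fun h0 => hne (eq_of_smul_hyp hx.1 hv.1 (sub_eq_zero.1 h0)), vlam_sub_le hv hx⟩

open Classical in
/-- the radial projection from the vertex `v` -/
noncomputable def vmap (e : ι → Mink d) (v : Mink d) (x : poly e) : poly e :=
  if h : nrm ((x : Mink d) - vlam e v x • v) ∈ poly e then ⟨_, h⟩ else x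

theorem vmap_val (hF : ∀ x ∈ pcone e, Fut x) {v : Mink d} (hv : v ∈ poly e) {x : poly e}
    (hne : (x : Mink d) ≠ v) : (vmap e v x : Mink d) = nrm ((x : Mink d) - vlam e v x • v) := by
  have h1 := sub_vlam_mem hv x.2 hne
  have h2 := nrm_mem_poly h1 (hF _ h1)
  rw [vmap, dif_pos h2]

omit [Finite ι] in
theorem vmap_of_zero {v : Mink d} {x : poly e} (h : vlam e v x = 0) : vmap e v x = x := by
  have h1 : nrm ((x : Mink d) - vlam e v x • v) = x := by
    rw [h, zero_smul, sub_zero, nrm_of_hyp x.2.1]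
  have h2 : nrm ((x : Mink d) - vlam e v x • v) ∈ poly e := by
    rw [h1]
    exact x.2
  rw [vmap, dif_pos h2]
  exact Subtype.ext h1

theorem vmap_eq_self {v : Mink d} (hv : v ∈ poly e) {x : poly e} {i : ι}
    (hi : lor v (e i) ≠ 0) (hxi : lor (x : Mink d) (e i) = 0) : vmap e v x = x :=
  vmap_of_zero (vlam_eq_zero hv x.2 hi hxi)

theorem walls_vmap {v : Mink d} (hv : v ∈ poly e) (x : poly e) :
    wallsOf e (x : Mink d) ⊆ wallsOf e (vmap e v x : Mink d) := by
  intro i hi
  have hi' : lor (x : Mink d) (e i) = 0 := hi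
  by_cases hvi : lor v (e i) = 0
  · by_cases h : nrm ((x : Mink d) - vlam e v x • v) ∈ poly e
    · rw [vmap, dif_pos h]
      show lor (nrm ((x : Mink d) - vlam e v x • v)) (e i) = 0
      have h1 : lor ((x : Mink d) - vlam e v x • v) (e i) = 0 := by
        rw [lor_sub_left, lor_smul_left, hvi, hi', mul_zero, sub_zero]
      rw [nrm, lor_smul_left, h1, mul_zero]
    · rw [vmap, dif_neg h]
      exact hi
  · rw [vmap_eq_self hv hvi hi']
    exact hi

theorem walls_vmap_not (hF : ∀ x ∈ pcone e, Fut x) {v : Mink d} (hv : v ∈ poly e) {x : poly e}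
    (hne : (x : Mink d) ≠ v) : ¬ wallsOf e (vmap e v x : Mink d) ⊆ wallsOf e v := by
  obtain ⟨i, h1, h2⟩ := exists_vlam_eq (x : Mink d) (exists_lor_ne hF hv x.2 hne)
  intro h
  refine h1 (h (?_ : lor (vmap e v x : Mink d) (e i) = 0))
  rw [vmap_val hF hv hne, nrm, lor_smul_left, h2, mul_zero]

theorem lor_vmap_neg (hF : ∀ x ∈ pcone e, Fut x) {v : Mink d} (hv : v ∈ poly e) {x : poly e}
    {b : Mink d} (hvb : lor v b = 0) (hxb : lor (x : Mink d) b < 0) :
    lor (vmap e v x : Mink d) b < 0 := by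
  have hne : (x : Mink d) ≠ v := fun h => by
    rw [h, hvb] at hxb
    exact lt_irrefl _ hxb
  have h1 : lor ((x : Mink d) - vlam e v x • v) b = lor (x : Mink d) b := by
    rw [lor_sub_left, lor_smul_left, hvb, mul_zero, sub_zero]
  rw [vmap_val hF hv hne, nrm, lor_smul_left, h1]
  exact mul_neg_of_pos_of_neg (inv_pos.2 (sqrt_lor_pos (hF _ (sub_vlam_mem hv x.2 hne)))) hxb

theorem continuousOn_vmap (hF : ∀ x ∈ pcone e, Fut x) {v : Mink d} (hv : v ∈ poly e) :
    ContinuousOn (vmap e v) {x : poly e | (x : Mink d) ≠ v} := by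
  have h1 : ContinuousOn (fun x : poly e => nrm ((x : Mink d) - vlam e v x • v))
      {x : poly e | (x : Mink d) ≠ v} := by
    refine continuousOn_nrm.comp (Continuous.continuousOn ?_)
      fun x hx => hF _ (sub_vlam_mem hv x.2 hx)
    exact continuous_subtype_val.sub
      (((continuous_vlam v).comp continuous_subtype_val).smul continuous_const)
  rw [IsInducing.subtypeVal.continuousOn_iff]
  exact h1.congr fun x hx => vmap_val hF hv hx

/-- `v` is a vertex of the polytope -/
def IsVx (e : ι → Mink d) (v : Mink d) : Prop :=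
  v ∈ poly e ∧ ∀ x ∈ poly e, wallsOf e v ⊆ wallsOf e x → x = v

theorem finite_vx : {v : Mink d | IsVx e v}.Finite := by
  refine Set.Finite.of_finite_image (f := wallsOf e) (Set.toFinite _) ?_
  intro v hv w hw hvw
  exact hw.2 v hv.1 hvw.symm.subset

/-- a face on which a linear function is at most `0` and which contains a zero has a vertex at which
the function is `0` -/
theorem exists_vx (hF : ∀ x ∈ pcone e, Fut x) {J : Set ι} {b : Mink d}
    (hb : ∀ y ∈ face e J, lor y b ≤ 0) {y : Mink d} (hy : y ∈ face e J) (hyb : lor y b = 0) :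
    ∃ v, IsVx e v ∧ v ∈ face e J ∧ lor v b = 0 := by
  have key : ∀ k : ℕ, ∀ y ∈ face e J, lor y b = 0 → (wallsOf e y)ᶜ.ncard ≤ k →
      ∃ v, IsVx e v ∧ v ∈ face e J ∧ lor v b = 0 := by
    intro k
    induction k with
    | zero =>
      intro y hy hyb hk
      have h1 : (wallsOf e y)ᶜ = ∅ := by
        rw [← Set.ncard_eq_zero]
        omega
      refine ⟨y, ⟨hy.1, fun x hx hxy => ?_⟩, hy, hyb⟩
      by_contra hne
      obtain ⟨i, hi⟩ := exists_lor_ne hF hx hy.1 (Ne.symm hne)
      have h2 : i ∈ wallsOf e y := by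
        by_contra h3
        exact (h1 ▸ (show i ∈ (wallsOf e y)ᶜ from h3) : i ∈ (∅ : Set ι))
      exact hi (hxy h2)
    | succ k ih =>
      intro y hy hyb hk
      by_cases hv : IsVx e y
      · exact ⟨y, hv, hy, hyb⟩
      · have h1 : ∃ x ∈ poly e, wallsOf e y ⊆ wallsOf e x ∧ x ≠ y := by
          by_contra hcon
          push Not at hcon
          exact hv ⟨hy.1, hcon⟩
        obtain ⟨x, hx, hxy, hne⟩ := h1
        have hxJ : x ∈ face e J := ⟨hx, fun i hi => hxy (hy.2 i hi)⟩
        set u : Mink d := y - vlam e x y • x with hu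
        have huc : u ∈ pcone e := sub_vlam_mem hx hy.1 (Ne.symm hne)
        have huF := hF _ huc
        have hwu : wallsOf e y ⊆ wallsOf e u := by
          intro i hi
          have h2 : lor y (e i) = 0 := hi
          have h3 : lor x (e i) = 0 := hxy hi
          show lor (y - vlam e x y • x) (e i) = 0
          rw [lor_sub_left, lor_smul_left, h2, h3, mul_zero, sub_zero]
        have hwn : wallsOf e (nrm u) = wallsOf e u := by
          ext i
          show lor (nrm u) (e i) = 0 ↔ lor u (e i) = 0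
          rw [nrm, lor_smul_left, mul_eq_zero]
          exact or_iff_right (inv_pos.2 (sqrt_lor_pos huF)).ne'
        have hnJ : nrm u ∈ face e J := ⟨nrm_mem_poly huc huF, fun i hi => by
          have h2 : i ∈ wallsOf e (nrm u) := by
            rw [hwn]
            exact hwu (hy.2 i hi)
          exact h2⟩
        have hub : lor u b = 0 := by
          have h2 : lor u b = -(vlam e x y * lor x b) := by
            show lor (y - vlam e x y • x) b = _
            rw [lor_sub_left, lor_smul_left, hyb, zero_sub]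
          have h3 : 0 ≤ lor u b := by
            rw [h2]
            have := mul_nonpos_of_nonneg_of_nonpos (vlam_nonneg hx hy.1) (hb x hxJ)
            linarith
          have h4 := hb _ hnJ
          rw [nrm, lor_smul_left] at h4
          have h5 := inv_pos.2 (sqrt_lor_pos huF)
          by_contra hne0
          have h6 : 0 < lor u b := lt_of_le_of_ne h3 (Ne.symm hne0)
          exact absurd h4 (not_le.2 (mul_pos h5 h6))
        refine ih (nrm u) hnJ (by rw [nrm, lor_smul_left, hub, mul_zero]) ?_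
        obtain ⟨i, hi1, hi2⟩ := exists_vlam_eq y (exists_lor_ne hF hx hy.1 (Ne.symm hne))
        have h2 : (wallsOf e (nrm u))ᶜ.ncard < (wallsOf e y)ᶜ.ncard := by
          refine Set.ncard_lt_ncard ?_ (Set.toFinite _)
          rw [hwn]
          refine ⟨compl_subset_compl.2 hwu, fun h3 => ?_⟩
          have h4 : i ∈ (wallsOf e y)ᶜ := fun h5 => hi1 (hxy h5)
          exact h3 h4 hi2
        omega
  exact key _ y hy hyb le_rfl

end model

/-! ## Gluing -/

section glue

variable {d : ℕ} {ι : Type} {M : CoxeterMatrix ι} {C : Type} {e : ι → Mink d}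
  {hP : CoxPoly M e} {Δ : Building M C} [Finite ι]

theorem X.locallyFinite_charts (hL : Δ.LocFinite) :
    LocallyFinite fun c : C => range (X.mk hP Δ c) := by
  intro q
  refine ⟨ball q 1, ball_mem_nhds q one_pos, ?_⟩
  refine ((X.mdl hP Δ).hfin hL q 1).subset ?_
  rintro c ⟨_, ⟨x, rfl⟩, hx⟩
  refine ⟨x, ?_⟩
  rw [dist_comm]
  exact (mem_ball.1 hx).le

theorem X.isClosedEmbedding_mk (c : C) : IsClosedEmbedding (X.mk hP Δ c) := by
  have : CompactSpace (poly e) := isCompact_iff_compactSpace.1 hP.compact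
  exact (X.continuous_mk hP Δ c).isClosedEmbedding ((X.mdl hP Δ).injective_mk c)

/-- maps which are continuous in the charts are continuous -/
theorem X.continuousOn_of_charts (hL : Δ.LocFinite) {Y : Type*} [TopologicalSpace Y]
    {U : Set (X hP Δ)} {g : X hP Δ → Y}
    (h : ∀ c, ContinuousOn (fun x : poly e => g (X.mk hP Δ c x)) {x | X.mk hP Δ c x ∈ U}) :
    ContinuousOn g U := by
  rw [continuousOn_iff_continuous_domRestrict]
  have hlf : LocallyFinite fun c : C => (Subtype.val : U → X hP Δ) ⁻¹' range (X.mk hP Δ c) :=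
    (X.locallyFinite_charts hL).preimage_continuous continuous_subtype_val
  refine hlf.continuous ?_ (fun c => ?_) fun c => ?_
  · rw [eq_univ_iff_forall]
    intro q
    obtain ⟨c, x, hx⟩ := X.exists_mk hP Δ q
    exact mem_iUnion.2 ⟨c, x, hx⟩
  · exact (X.isClosedEmbedding_mk c).isClosed_range.preimage continuous_subtype_val
  · obtain ⟨p₀, hp₀, hint⟩ := hP.inter
    have : Nonempty (poly e) := ⟨⟨p₀, hp₀, fun i => (hint i).le⟩⟩
    set κ : X hP Δ → poly e := Function.invFun (X.mk hP Δ c) with hκ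
    have hκ1 : ∀ q ∈ range (X.mk hP Δ c), X.mk hP Δ c (κ q) = q := fun q hq =>
      Function.invFun_eq hq
    have hκc : ContinuousOn κ (range (X.mk hP Δ c)) := by
      rw [(X.isClosedEmbedding_mk c).isInducing.continuousOn_iff]
      exact continuousOn_id.congr fun q hq => hκ1 q hq
    have h1 : ContinuousOn (fun q : U => g (X.mk hP Δ c (κ q)))
        ((Subtype.val : U → X hP Δ) ⁻¹' range (X.mk hP Δ c)) := by
      refine (h c).comp (hκc.comp continuous_subtype_val.continuousOn fun q hq => hq) ?_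
      intro q hq
      show X.mk hP Δ c (κ q) ∈ U
      rw [hκ1 _ hq]
      exact q.2
    refine h1.congr fun q hq => ?_
    show g q = g (X.mk hP Δ c (κ q))
    rw [hκ1 _ hq]

end glue

/-! ## Removing the vertices of the wall -/

section off

variable {d : ℕ} {ι : Type} {M : CoxeterMatrix ι} {C : Type} {e : ι → Mink d}
  (hP : CoxPoly M e) (Δ : Building M C) [Finite ι]

/-- the union of the cells contained in the open half building of `c` -/
def X.offW (c : C) (s : ι) : Set (X hP Δ) :=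
  ⋃ (τ : CIdx C e) (_ : cellX (X.mk hP Δ) τ.1 ⊆ X.HalfO hP Δ c s), cellX (X.mk hP Δ) τ.1

open Classical in
/-- the projection from the vertex `v` of the chamber `a`, if it lies in the wall -/
noncomputable def X.rvc (c : C) (s : ι) (v : poly e) (a : C) (x : poly e) : X hP Δ :=
  if X.sd hP Δ c s (X.mk hP Δ a v) = 0 then X.mk hP Δ a (vmap e v x) else X.mk hP Δ a x

variable {hP Δ}

theorem X.sd_mk_lin (c : C) (s : ι) (a : C) (y : poly e) :
    X.sd hP Δ c s (X.mk hP Δ a y) = lor (y : Mink d) (hP.rep (Δ.δ c a)⁻¹ (e s)) := by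
  rw [X.sd_mk, hP.lor_rep_left]

/-- a chamber which contains a point of the open half building is contained in the half building -/
theorem X.sd_le_of_neg {c : C} {s : ι} {a : C} {x : poly e}
    (hx : X.sd hP Δ c s (X.mk hP Δ a x) < 0) (y : poly e) :
    X.sd hP Δ c s (X.mk hP Δ a y) ≤ 0 := by
  rw [X.sd_mk] at hx ⊢
  by_cases hd : M.toCoxeterSystem.IsLeftDescent (Δ.δ c a) s
  · exact absurd hx (not_lt.2 (hP.left_ge x.2.2 hd))
  · exact hP.left_le y.2.2 hd

/-- the chamber does not matter -/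
theorem X.mk_congr {a a' : C} {x y : poly e} (h : X.mk hP Δ a x = X.mk hP Δ a' x)
    (hw : wallsOf e (x : Mink d) ⊆ wallsOf e (y : Mink d)) :
    X.mk hP Δ a y = X.mk hP Δ a' y := by
  rw [X.mk_eq_iff] at h ⊢
  exact ⟨rfl, Subgroup.closure_mono (image_mono hw) h.2⟩

theorem X.rvc_congr {c : C} {s : ι} {v : poly e} {a a' : C} {x x' : poly e}
    (h : X.mk hP Δ a x = X.mk hP Δ a' x') : X.rvc hP Δ c s v a x = X.rvc hP Δ c s v a' x' := by
  have h1 : x = x' := Subtype.ext ((X.mk_eq_iff hP Δ a a' x x').1 h).1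
  subst h1
  by_cases hw : wallsOf e (x : Mink d) ⊆ wallsOf e (v : Mink d)
  · unfold X.rvc
    rw [X.mk_congr h hw, h, X.mk_congr h (walls_vmap v.2 x)]
  · obtain ⟨i, hi1, hi2⟩ := not_subset.1 hw
    have h2 : vmap e (v : Mink d) x = x := vmap_eq_self v.2 hi2 hi1
    unfold X.rvc
    rw [h2, ite_self, ite_self, h]

variable (hP Δ) in
/-- the projection from the vertices of type `v` in the wall -/
noncomputable def X.rv (c : C) (s : ι) (v : poly e) (q : X hP Δ) : X hP Δ :=
  X.rvc hP Δ c s v (X.exists_mk hP Δ q).choose (X.exists_mk hP Δ q).choose_spec.choose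

theorem X.rv_mk (c : C) (s : ι) (v : poly e) (a : C) (x : poly e) :
    X.rv hP Δ c s v (X.mk hP Δ a x) = X.rvc hP Δ c s v a x :=
  X.rvc_congr (X.exists_mk hP Δ (X.mk hP Δ a x)).choose_spec.choose_spec

variable (hP Δ) in
/-- the smallest cell containing `q` has no vertex of type `v` in the wall -/
def X.Gd (c : C) (s : ι) (v : poly e) (q : X hP Δ) : Prop :=
  ∀ a x, X.mk hP Δ a x = q → wallsOf e (x : Mink d) ⊆ wallsOf e (v : Mink d) →
    X.sd hP Δ c s (X.mk hP Δ a v) ≠ 0

theorem X.gd_mk {c : C} {s : ι} {v : poly e} {a : C} {x : poly e}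
    (h : wallsOf e (x : Mink d) ⊆ wallsOf e (v : Mink d) → X.sd hP Δ c s (X.mk hP Δ a v) ≠ 0) :
    X.Gd hP Δ c s v (X.mk hP Δ a x) := by
  intro a' x' h1 h2
  have h3 : x' = x := Subtype.ext ((X.mk_eq_iff hP Δ a' a x' x).1 h1).1
  subst h3
  rw [X.mk_congr h1 h2]
  exact h h2

theorem X.rv_half (hF : ∀ x ∈ pcone e, Fut x) {c : C} {s : ι} (v : poly e) {q : X hP Δ}
    (hq : X.sd hP Δ c s q < 0) : X.sd hP Δ c s (X.rv hP Δ c s v q) < 0 := by
  obtain ⟨a, x, rfl⟩ := X.exists_mk hP Δ q
  rw [X.rv_mk, X.rvc]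
  split_ifs with h
  · rw [X.sd_mk_lin] at h hq ⊢
    exact lor_vmap_neg hF v.2 h hq
  · exact hq

theorem X.rv_gd_self (hF : ∀ x ∈ pcone e, Fut x) {c : C} {s : ι} (v : poly e) {q : X hP Δ}
    (hq : X.sd hP Δ c s q < 0) : X.Gd hP Δ c s v (X.rv hP Δ c s v q) := by
  obtain ⟨a, x, rfl⟩ := X.exists_mk hP Δ q
  rw [X.rv_mk, X.rvc]
  split_ifs with h
  · refine X.gd_mk fun h1 => absurd h1 (walls_vmap_not hF v.2 ?_)
    intro h2
    rw [show x = v from Subtype.ext h2, h] at hq
    exact lt_irrefl _ hq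
  · exact X.gd_mk fun _ => h

theorem X.rv_gd {c : C} {s : ι} (v : poly e) {w : poly e} {q : X hP Δ}
    (hq : X.Gd hP Δ c s w q) : X.Gd hP Δ c s w (X.rv hP Δ c s v q) := by
  obtain ⟨a, x, rfl⟩ := X.exists_mk hP Δ q
  rw [X.rv_mk, X.rvc]
  split_ifs with h
  · exact X.gd_mk fun h1 => hq a x rfl ((walls_vmap v.2 x).trans h1)
  · exact hq

theorem X.continuousOn_rv (hL : Δ.LocFinite) (hF : ∀ x ∈ pcone e, Fut x) (c : C) (s : ι)
    (v : poly e) : ContinuousOn (X.rv hP Δ c s v) (X.HalfO hP Δ c s) := by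
  refine X.continuousOn_of_charts hL fun a => ?_
  by_cases h : X.sd hP Δ c s (X.mk hP Δ a v) = 0
  · have h1 : ContinuousOn (fun x : poly e => X.mk hP Δ a (vmap e v x))
        {x | X.mk hP Δ a x ∈ X.HalfO hP Δ c s} := by
      refine (X.continuous_mk hP Δ a).comp_continuousOn ((continuousOn_vmap hF v.2).mono ?_)
      intro x hx h2
      have h3 : X.sd hP Δ c s (X.mk hP Δ a x) < 0 := hx
      rw [show x = v from Subtype.ext h2, h] at h3
      exact lt_irrefl _ h3
    refine h1.congr fun x _ => ?_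
    rw [X.rv_mk, X.rvc, if_pos h]
  · refine (X.continuous_mk hP Δ a).continuousOn.congr fun x _ => ?_
    rw [X.rv_mk, X.rvc, if_neg h]

theorem X.dist_rv_le {K : ℝ} (hK0 : 0 ≤ K) (hK : ∀ x ∈ poly e, ∀ y ∈ poly e, hdist x y ≤ K)
    (c : C) (s : ι) (v : poly e) (q : X hP Δ) : dist (X.rv hP Δ c s v q) q ≤ K := by
  obtain ⟨a, x, rfl⟩ := X.exists_mk hP Δ q
  rw [X.rv_mk, X.rvc]
  split_ifs with h
  · rw [X.dist_mk_self]
    exact hK _ (Subtype.prop _) _ x.2
  · rw [dist_self]
    exact hK0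

/-- a point of the open half whose carrier has no vertex in the wall -/
theorem X.mem_offW (hF : ∀ x ∈ pcone e, Fut x) {c : C} {s : ι} {q : X hP Δ}
    (hq : X.sd hP Δ c s q < 0) (hG : ∀ v : poly e, IsVx e (v : Mink d) → X.Gd hP Δ c s v q) :
    q ∈ X.offW hP Δ c s := by
  obtain ⟨a, x, rfl⟩ := X.exists_mk hP Δ q
  have hx : (x : Mink d) ∈ face e (wallsOf e (x : Mink d)) := ⟨x.2, fun i hi => hi⟩
  refine mem_iUnion₂.2 ⟨⟨(a, wallsOf e (x : Mink d)), ⟨x, hx⟩⟩, ?_, ⟨x, hx, rfl⟩⟩
  rintro _ ⟨y, hy, rfl⟩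
  have hb : ∀ y ∈ face e (wallsOf e (x : Mink d)), lor y (hP.rep (Δ.δ c a)⁻¹ (e s)) ≤ 0 := by
    intro y hy
    have h1 := X.sd_le_of_neg hq ⟨y, hy.1⟩
    rwa [X.sd_mk_lin] at h1
  show X.sd hP Δ c s (X.mk hP Δ a y) < 0
  refine lt_of_le_of_ne (X.sd_le_of_neg hq y) fun h0 => ?_
  rw [X.sd_mk_lin] at h0
  obtain ⟨v, hv1, hv2, hv3⟩ := exists_vx hF hb hy h0
  refine hG ⟨v, hv1.1⟩ hv1 a x rfl (fun i hi => hv2.2 i hi) ?_
  rw [X.sd_mk_lin]
  exact hv3

/-- **Off the wall**: the open half building can be moved to the union of its cells, by a bounded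
distance -/
theorem X.exists_vertOff' (hL : Δ.LocFinite) (hF : ∀ x ∈ pcone e, Fut x) (c : C) (s : ι) :
    ∃ (r : X hP Δ → X hP Δ) (K : ℝ), 0 ≤ K ∧
      IsMap r (X.HalfO hP Δ c s) (X.offW hP Δ c s) ∧ ∀ q, dist (r q) q ≤ K := by
  obtain ⟨K, hK0, hK⟩ := hP.exists_diam
  have key : ∀ T : Finset (poly e), ∃ (r : X hP Δ → X hP Δ) (K : ℝ), 0 ≤ K ∧
      IsMap r (X.HalfO hP Δ c s) (X.HalfO hP Δ c s) ∧ (∀ q, dist (r q) q ≤ K) ∧
      ∀ q ∈ X.HalfO hP Δ c s, ∀ v ∈ T, X.Gd hP Δ c s v (r q) := by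
    classical
    intro T
    induction T using Finset.induction_on with
    | empty =>
      refine ⟨id, 0, le_rfl, ⟨continuousOn_id, fun _ h => h⟩, fun q => by simp, fun q _ v hv => ?_⟩
      exact absurd hv (Finset.notMem_empty v)
    | insert v T hv ih =>
      obtain ⟨r, K', hK', hr, hd, hG⟩ := ih
      refine ⟨fun q => X.rv hP Δ c s v (r q), K + K', by positivity,
        ⟨(X.continuousOn_rv hL hF c s v).comp hr.cont hr.maps,
          fun q hq => X.rv_half hF v (hr.maps hq)⟩, fun q => ?_, fun q hq w hw => ?_⟩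
      · exact (dist_triangle _ (r q) _).trans (add_le_add (X.dist_rv_le hK0 hK c s v _) (hd q))
      · rcases Finset.mem_insert.1 hw with rfl | hw
        · exact X.rv_gd_self hF w (hr.maps hq)
        · exact X.rv_gd v (hG q hq w hw)
  have hfin : {v : poly e | IsVx e (v : Mink d)}.Finite :=
    (finite_vx (e := e)).preimage Subtype.val_injective.injOn
  obtain ⟨r, K', hK', hr, hd, hG⟩ := key hfin.toFinset
  refine ⟨r, K', hK', ⟨hr.cont, fun q hq => ?_⟩, hd⟩
  exact X.mem_offW hF (hr.maps hq) fun v hv => hG q hq v (hfin.mem_toFinset.2 hv)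

end off

/-- **Off the wall** -/
theorem X.exists_vertOff {n : ℕ} {ι : Type} {M : CoxeterMatrix ι} {C : Type}
    {e : ι → Mink (n + 1)} {hP : CoxPoly M e} {Δ : Building M C} [Finite ι] (hL : Δ.LocFinite)
    (c : C) (s : ι) : ∃ (r : X hP Δ → X hP Δ) (K : ℝ), 0 ≤ K ∧
      IsMap r (X.HalfO hP Δ c s) (X.offW hP Δ c s) ∧ ∀ q, dist (r q) q ≤ K :=
  X.exists_vertOff' hL hP.fut c s

end BD
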