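import Pool.Agent.Work.MP_de2d29_al.LinkAE2
import Pool.Agent.Work.MP_de2d29_al.XCell
import Pool.Agent.Work.MP_de2d29_al.CSt2

/-!
# The links of the classes of the cell complex of the building are absolute extensors

`X.link_aek`: the hypothesis of `Mdl.exists_sys` and `Mdl.bdry_core` for the realization `X hP Δ`,
from the main theorem of block C.
-/

set_option autoImplicit false

open Set Metric Topology Filter
open Pool.Agent.Work.MP_de2d29_al RootBasis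

namespace BD

open Pool.Agent.Work.MP_017613_gt.Rnd (AEk)
open Mdl (bp np npt np_mem np_le npt_mem)

/-- images of absolute extensors under embeddings -/
theorem aek_image {A B : Type} [MetricSpace A] [MetricSpace B] {k : ℕ} {K : Set A}
    (hK : AEk k K) {f : A → B} (hf : IsEmbedding f) : AEk k (f '' K) := by
  have : Nonempty A := hK.1.to_type
  have h1 : ∀ a, Function.invFun f (f a) = a := Function.leftInverse_invFun hf.injective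
  refine Lk.aek_of_retract hK (t := Function.invFun f) (s := f) ?_ ?_ hf.continuous.continuousOn
    (fun a ha => mem_image_of_mem f ha) ?_
  · rw [hf.continuousOn_iff]
    refine continuousOn_id.congr ?_
    rintro _ ⟨a, -, rfl⟩
    show f (Function.invFun f (f a)) = f a
    rw [h1]
  · rintro _ ⟨a, ha, rfl⟩
    rwa [h1]
  · rintro _ ⟨a, -, rfl⟩
    rw [h1]

variable {n : ℕ} {ι Ch : Type} {M : CoxeterMatrix ι} {e : ι → Mink (n + 1)}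
  (hP : CoxPoly M e) (Δ : Building M Ch)

/-- the direction of the pole in the charts of the residue of `m`, on the smallest cell -/
theorem X.lor_uc_eq {m ξ y : Mink (n + 1)} {c₀ c c' : Ch}
    (h : Δ.δ c c' ∈ parab M (wallsOf e m)) (hy : ∀ i, lor m (e i) = 0 → lor y (e i) = 0) :
    lor (X.uc hP Δ m ξ c₀ c) y = lor (X.uc hP Δ m ξ c₀ c') y := by
  obtain ⟨v, hv, h1⟩ := Δ.δ_par_left (J := wallsOf e m) c₀ h
  have hv' : v ∈ parab M (wallsOf e m) := hv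
  have h2 : ∀ z : Mink (n + 1), (∀ i, lor m (e i) = 0 → lor z (e i) = 0) →
      lor (hP.rep (Δ.δ c c₀) ξ) z = lor (hP.rep (Δ.δ c' c₀) ξ) z := by
    intro z hz
    have h3 : v⁻¹ ∈ parab M (wallsOf e z) :=
      Subgroup.inv_mem _ (Subgroup.closure_mono (image_mono fun i hi => hz i hi) hv')
    rw [h1, hP.rep_mul, hP.lor_rep_left, hP.parab_fix h3]
  rw [X.uc, X.uc, lor_add_left, lor_add_left, lor_smul_left, lor_smul_left, h2 y hy,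
    h2 m fun i hi => hi]

variable (c₀ : Ch) (o₀ : poly e)

theorem X.uc_eq_bp (m : Mink (n + 1)) (c : Ch) : X.uc hP Δ m (o₀ : Mink (n + 1)) c₀ c =
    bp hP Δ c₀ o₀ c + lor (bp hP Δ c₀ o₀ c) m • m := rfl

variable [Finite ι]

/-- the link of a class -/
theorem X.link_eq (σ : CIdx Ch e) :
    {q : X hP Δ | ∃ σ' : CIdx Ch e, npt hP Δ (X.mk hP Δ) hP.fut c₀ o₀ σ' =
      npt hP Δ (X.mk hP Δ) hP.fut c₀ o₀ σ ∧ ∃ τ : CIdx Ch e,
      cellX (X.mk hP Δ) τ.1 ⊆ cellX (X.mk hP Δ) σ'.1 ∧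
      npt hP Δ (X.mk hP Δ) hP.fut c₀ o₀ τ ≠ npt hP Δ (X.mk hP Δ) hP.fut c₀ o₀ σ ∧
      q ∈ cellX (X.mk hP Δ) τ.1} =
    X.Bm hP Δ (np hP Δ hP.fut c₀ o₀ σ) o₀ c₀ σ.1.1 := by
  set m₀ := np hP Δ hP.fut c₀ o₀ σ with hm₀
  have hm₀' : m₀ ∈ face e σ.1.2 := np_mem c₀ o₀ hP.fut σ
  have hmp : m₀ ∈ poly e := hm₀'.1
  have hσ : npt hP Δ (X.mk hP Δ) hP.fut c₀ o₀ σ = X.mk hP Δ σ.1.1 ⟨m₀, hmp⟩ := rfl
  ext q
  constructor
  · rintro ⟨σ', h1, τ, h2, h3, h4⟩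
    -- the nearest points are equal
    have h5 : X.mk hP Δ σ.1.1 ⟨m₀, hmp⟩ =
        X.mk hP Δ σ'.1.1 ⟨np hP Δ hP.fut c₀ o₀ σ', (np_mem c₀ o₀ hP.fut σ').1⟩ := h1.symm
    rw [X.mk_eq_iff] at h5
    obtain ⟨h5, h6⟩ := h5
    have h5' : np hP Δ hP.fut c₀ o₀ σ' = m₀ := h5.symm
    have h6' : Δ.δ σ.1.1 σ'.1.1 ∈ parab M (wallsOf e m₀) := h6
    have hmσ' : m₀ ∈ face e σ'.1.2 := by
      rw [← h5']
      exact np_mem c₀ o₀ hP.fut σ'
    -- `p` is not in the cell `τ`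
    have hp : npt hP Δ (X.mk hP Δ) hP.fut c₀ o₀ σ ∉ cellX (X.mk hP Δ) τ.1 := by
      intro h7
      have h8 := (X.mdl hP Δ).dist_npt_lt c₀ o₀ hP.fut τ h7 (Ne.symm h3)
      have h9 := (X.mdl hP Δ).dist_npt_le c₀ o₀ hP.fut σ'
        (h2 (npt_mem (h := hP) (Δ := Δ) (mk := X.mk hP Δ) c₀ o₀ hP.fut τ))
      rw [h1] at h9
      exact absurd h8 (not_lt.2 h9)
    obtain ⟨x, hx, rfl⟩ := h2 h4
    obtain ⟨x'', hx'', hxx⟩ := h4
    have hxx' : X.mk hP Δ τ.1.1 x'' = X.mk hP Δ σ'.1.1 x := hxx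
    rw [X.mk_eq_iff] at hxx'
    obtain ⟨e1, e2⟩ := hxx'
    have e3 : x'' = x := Subtype.ext e1
    subst e3
    refine ⟨σ'.1.1, h6', x'', ⟨x''.2, ?_⟩, rfl, fun y hy hyx => ?_⟩
    · by_contra hcon
      push Not at hcon
      -- all walls of `x` contain `m₀`
      have h7 : ∀ i, lor (x'' : Mink (n + 1)) (e i) = 0 → lor m₀ (e i) = 0 := fun i hi =>
        le_antisymm (hmp.2 i) (not_lt.1 fun h8 => hcon i h8 hi)
      refine hp ⟨⟨m₀, hmp⟩, ⟨hmp, fun i hi => h7 i (hx''.2 i hi)⟩, ?_⟩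
      rw [hσ]
      show X.mk hP Δ τ.1.1 ⟨m₀, hmp⟩ = X.mk hP Δ σ.1.1 ⟨m₀, hmp⟩
      rw [X.mk_eq_iff]
      refine ⟨rfl, ?_⟩
      have h8 : Δ.δ τ.1.1 σ'.1.1 ∈ parab M (wallsOf e m₀) :=
        Subgroup.closure_mono (image_mono fun i hi => h7 i hi) e2
      exact Δ.res_trans (J := wallsOf e m₀) h8 (Δ.res_symm h6')
    · rw [X.uc_eq_bp]
      have h7 := np_le (h := hP) (Δ := Δ) c₀ o₀ hP.fut σ' (y := y) (Mdl.fcone_of_face ⟨hy, fun i hi =>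
        hyx i (hmσ'.2 i hi) (hx.2 i hi)⟩)
      rw [h5'] at h7
      exact h7
  · rintro ⟨c, hc, x, hx, rfl, hcl⟩
    have hmem : m₀ ∈ face e {i | lor m₀ (e i) = 0 ∧ lor (x : Mink (n + 1)) (e i) = 0} :=
      ⟨hmp, fun i hi => hi.1⟩
    set σ' : CIdx Ch e := ⟨(c, {i | lor m₀ (e i) = 0 ∧ lor (x : Mink (n + 1)) (e i) = 0}),
      ⟨m₀, hmem⟩⟩ with hσ'
    set τ : CIdx Ch e := ⟨(c, wallsOf e (x : Mink (n + 1))), ⟨x, x.2, fun i hi => hi⟩⟩ with hτ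
    have h1 : np hP Δ hP.fut c₀ o₀ σ' = m₀ := by
      have h2 : np hP Δ hP.fut c₀ o₀ σ' ∈ face e σ'.1.2 := np_mem c₀ o₀ hP.fut σ'
      refine (Mdl.eq_np c₀ o₀ hP.fut σ' (y := m₀) hmem ?_).symm
      refine hdist_le_of_lor_le (Mdl.bp_mem c₀ o₀ c) hmp.1 h2.1.1 ?_
      have h3 := hcl _ h2.1 fun i hi1 hi2 => h2.2 i ⟨hi1, hi2⟩
      rwa [X.uc_eq_bp] at h3
    refine ⟨σ', ?_, τ, ?_, ?_, x, ⟨x.2, fun i hi => hi⟩, rfl⟩
    · have h3 : npt hP Δ (X.mk hP Δ) hP.fut c₀ o₀ σ' = X.mk hP Δ c ⟨m₀, hmp⟩ :=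
        congrArg (X.mk hP Δ c) (Subtype.ext h1)
      rw [h3, hσ, X.mk_eq_iff]
      exact ⟨rfl, Δ.res_symm (J := wallsOf e m₀) hc⟩
    · rintro _ ⟨z, hz, rfl⟩
      exact ⟨z, ⟨z.2, fun i hi => hz.2 i hi.2⟩, rfl⟩
    · intro h3
      have h4 : X.mk hP Δ c ⟨np hP Δ hP.fut c₀ o₀ τ, (np_mem c₀ o₀ hP.fut τ).1⟩ =
          X.mk hP Δ σ.1.1 ⟨m₀, hmp⟩ := h3
      rw [X.mk_eq_iff] at h4
      have h5 : np hP Δ hP.fut c₀ o₀ τ = m₀ := h4.1
      have h6 : m₀ ∈ face e (wallsOf e (x : Mink (n + 1))) := by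
        rw [← h5]
        exact np_mem c₀ o₀ hP.fut τ
      obtain ⟨-, i, hi1, hi2⟩ := hx
      exact absurd (h6.2 i hi2) hi1.ne

variable (hL : Δ.LocFinite)

/-- **The links of the classes are absolute extensors in dimension `≤ n`.** -/
theorem X.link_aek (hmain : C.J_MAIN2) (σ : CIdx Ch e) :
    AEk n (((X.mdl hP Δ).cx c₀ o₀ hP.fut hL).link
      (((X.mdl hP Δ).cx c₀ o₀ hP.fut hL).m σ)) := by
  have : Fintype ι := Fintype.ofFinite ι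
  have hmp : np hP Δ hP.fut c₀ o₀ σ ∈ poly e := (np_mem c₀ o₀ hP.fut σ).1
  have key : AEk n (X.Bm hP Δ (np hP Δ hP.fut c₀ o₀ σ) o₀ c₀ σ.1.1) := by
    refine X.aek_Bm hP Δ hmain hL hmp o₀ c₀ σ.1.1 fun c hc y hy hyT => ?_
    rw [← X.lor_uc_eq hP Δ (c := σ.1.1) hc hyT, X.uc_eq_bp]
    exact np_le c₀ o₀ hP.fut σ (Mdl.fcone_of_face ⟨hy, fun i hi =>
      hyT i ((np_mem c₀ o₀ hP.fut σ).2 i hi)⟩)
  rw [(X.mdl hP Δ).cx_link, X.link_eq]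
  exact aek_image key ((X.mdl hP Δ).radSp' hL (X.mk hP Δ c₀ o₀)).isOpenEmbedding_ι.isEmbedding

omit c₀ o₀ in
/-- **The boundary of the building**, from the main theorem of block C: dimension at most `n`,
uniformly locally `(n-1)`-connected and `(n-1)`-connected. -/
theorem X.bdry_core (hL : Δ.LocFinite) (hmain : C.J_MAIN2) (o : X hP Δ) :
    Pool.Agent.Work.MP_017613_gt.PushOff n (HBdry o ((X.mdl hP Δ).rad o)) ∧
      MG.ULC n (HBdry o ((X.mdl hP Δ).rad o)) ∧ MG.Conn n (HBdry o ((X.mdl hP Δ).rad o)) :=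
  (X.mdl hP Δ).bdry_core hL (fun c₀ o₀ σ => X.link_aek hP Δ c₀ o₀ hL hmain σ) o

/-- **The boundary of the building**: dimension at most `n`, uniformly locally `(n-1)`-connected
and `(n-1)`-connected. -/
theorem X.bdry {n : ℕ} {ι Ch : Type} {M : CoxeterMatrix ι} {e : ι → Mink (n + 1)} [Finite ι]
    (hP : CoxPoly M e) (Δ : Building M Ch) (hL : Δ.LocFinite) (o : X hP Δ) :
    Pool.Agent.Work.MP_017613_gt.PushOff n (HBdry o ((X.mdl hP Δ).rad o)) ∧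
      MG.ULC n (HBdry o ((X.mdl hP Δ).rad o)) ∧ MG.Conn n (HBdry o ((X.mdl hP Δ).rad o)) :=
  X.bdry_core hP Δ hL C.j_MAIN2 o

/-- the system of sets of the building -/
theorem X.exists_sys {n : ℕ} {ι Ch : Type} {M : CoxeterMatrix ι} {e : ι → Mink (n + 1)} [Finite ι]
    (hP : CoxPoly M e) (Δ : Building M Ch) (hL : Δ.LocFinite) (c₀ : Ch) (o₀ : poly e) :
    ∃ K Q : ℕ → Set (XHat (X.mk hP Δ c₀ o₀) ((X.mdl hP Δ).rad (X.mk hP Δ c₀ o₀))), Sys n K Q ∧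
      K 0 = univ ∧ Lim K = HBdry (X.mk hP Δ c₀ o₀) ((X.mdl hP Δ).rad (X.mk hP Δ c₀ o₀)) :=
  (X.mdl hP Δ).exists_sys c₀ o₀ hP.fut hL fun σ => X.link_aek hP Δ c₀ o₀ hL C.j_MAIN2 σ

end BD
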