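import Pool.Agent.Work.MP_de2d29_al.POut
import Pool.Agent.Work.MP_de2d29_al.XLink
import Pool.Agent.Work.MP_de2d29_al.CSt2

/-!
# BUILDING: the pushing theorems for the realization `X hP Δ`, without hypotheses

`X.bdry_three`, `X.sys_ctl`, `X.push_out`: `Mdl.bdry_core`, `Mdl.sys_ctl_of`, `Mdl.push_out_of` with
`X.link_aek` and `C.j_MAIN2`.
-/

set_option autoImplicit false

open Set Metric Topology Filter
open Pool.Agent.Work.MP_de2d29_al RootBasis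

namespace BD

open MG (IsMap)
open Pool.Agent.Work.MP_017613_gt (PushOff)
open Pool.Agent.Work.MP_017613_gt.Rnd (AEk)

variable {n : ℕ} {ι Ch : Type} {M : CoxeterMatrix ι} {e : ι → Mink (n + 1)}
  (hP : CoxPoly M e) (Δ : Building M Ch) [Finite ι] (hL : Δ.LocFinite)
include hL

/-- **The boundary**: dimension at most `n`, `ULC n`, `Conn n`. -/
theorem X.bdry_three (o : X hP Δ) :
    PushOff n (HBdry o ((X.mdl hP Δ).rad o)) ∧ MG.ULC n (HBdry o ((X.mdl hP Δ).rad o)) ∧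
      MG.Conn n (HBdry o ((X.mdl hP Δ).rad o)) := X.bdry_core hP Δ hL C.j_MAIN2 o

/-- **The system of sets with chain control.** -/
theorem X.sys_ctl (b : X hP Δ) :
    ∃ K Q : ℕ → Set (XHat b ((X.mdl hP Δ).rad b)), Sys n K Q ∧ K 0 = univ ∧
      Lim K = HBdry b ((X.mdl hP Δ).rad b) ∧
      ∀ (u : ℕ → XHat b ((X.mdl hP Δ).rad b)) (y : X hP Δ),
        u 0 = ((X.mdl hP Δ).radSp' hL b).ι y → IsChain K Q u →
        ∀ ζ ∈ HBdry b ((X.mdl hP Δ).rad b), Tendsto u atTop (𝓝 ζ) →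
        dist (RadSp.pr b ((X.mdl hP Δ).rad b) (dist b y) ζ) y ≤ hP.poC :=
  (X.mdl hP Δ).sys_ctl_of hL (fun c₀ o₀ σ => X.link_aek hP Δ c₀ o₀ hL C.j_MAIN2 σ) b

/-- **Pushing out to infinity with control.** -/
theorem X.push_out (b : X hP Δ) {α : Type} [MetricSpace α] {P : Set α} (cP : IsCompact P)
    (dP : PushOff n P) {F : α → XHat b ((X.mdl hP Δ).rad b)} (cF : ContinuousOn F P) :
    ∃ G : α → XHat b ((X.mdl hP Δ).rad b), IsMap G P (HBdry b ((X.mdl hP Δ).rad b)) ∧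
      (∀ x ∈ P, F x ∈ HBdry b ((X.mdl hP Δ).rad b) → G x = F x) ∧
      ∀ x ∈ P, ∀ y, F x = ((X.mdl hP Δ).radSp' hL b).ι y →
        dist (RadSp.pr b ((X.mdl hP Δ).rad b) (dist b y) (G x)) y ≤ hP.poC :=
  (X.mdl hP Δ).push_out_of hL (fun c₀ o₀ σ => X.link_aek hP Δ c₀ o₀ hL C.j_MAIN2 σ) b cP dP cF

end BD
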