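import Pool.Agent.Work.MP_de2d29_al.HalfC
import Pool.Agent.Work.MP_de2d29_al.XPOut

/-!
# BUILDING, block F: the folding of a half of the boundary (piece FOLD)

`OffWall hP Δ c s W`: the half building of `c` is retracted, with bounded displacement, to the set
`W` (off the vertices of the wall). `LevelsTo n hP Δ c s W`: the set `W` is filtered to any depth.
`X.fold_panel`: the folding of the half of `c₁` onto the half of `c₂`, relative to the wall.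
-/

set_option autoImplicit false
set_option linter.unusedSectionVars false

open Set Metric Topology Filter

namespace BD

open MG (IsMap)
open Pool.Agent.Work.MP_017613_gt (PushOff DD)
open Pool.Agent.Work.MP_017613_gt.Rnd (AEk)

theorem Level.mono {X : Type} [MetricSpace X] {n : ℕ} {C C' : ℝ} (hC : C ≤ C') {A A' : Set X}
    (h : Level n C A A') : Level n C' A A' := by
  obtain ⟨I, Q, h1, h2, h3, h4, h5, h6⟩ := h
  exact ⟨I, Q, h1, h2, h3, h4, h5, fun m x hx y hy => (h6 m x hx y hy).trans hC⟩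

variable {n : ℕ} {ι : Type} [Finite ι] {M : CoxeterMatrix ι} {C : Type} {e : ι → Mink (n + 1)}

/-- off the vertices of the wall (V): the open half of `c` is mapped, with bounded displacement,
to the set `W` -/
def OffWall {d : ℕ} {ι : Type} [Finite ι] {M : CoxeterMatrix ι} {C : Type} {e : ι → Mink d}
    (hP : CoxPoly M e) (Δ : Building M C) (c : C) (s : ι) (W : Set (X hP Δ)) : Prop :=
  ∃ (r : X hP Δ → X hP Δ) (K : ℝ), IsMap r (X.HalfO hP Δ c s) W ∧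
    ∀ x ∈ X.HalfO hP Δ c s, dist (r x) x ≤ K

/-- the levels (L3): the set `W` is filtered to any depth in the half of `c` -/
def LevelsTo (n : ℕ) {ι : Type} [Finite ι] {M : CoxeterMatrix ι} {C : Type}
    {e : ι → Mink (n + 1)} (hP : CoxPoly M e) (Δ : Building M C) (c : C) (s : ι)
    (W : Set (X hP Δ)) : Prop :=
  ∀ S : ℝ, ∃ (K : ℝ) (N : ℕ) (A : ℕ → Set (X hP Δ)), 0 ≤ K ∧ (∀ k, IsClosed (A k)) ∧ A 0 = W ∧
    (∀ k < N, Level n K (A k) (A (k + 1))) ∧ ∀ x ∈ A N, X.sd hP Δ c s x < -S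

variable {hP : CoxPoly M e} {Δ : Building M C}

theorem X.proper (hL : Δ.LocFinite) : ProperSpace (X hP Δ) :=
  ⟨fun o r => (X.radSp hL o).cpt r⟩

/-- **The folding of a half of the boundary.** -/
theorem X.fold_panel (hL : Δ.LocFinite) {c c₁ c₂ : C} {s : ι} {b₀ : poly e}
    (hb : lor (b₀ : Mink (n + 1)) (e s) < 0) (h1 : PanAdj Δ s c c₁) (n1 : c ≠ c₁)
    (h2 : PanAdj Δ s c c₂) {W : Set (X hP Δ)} (hV : OffWall hP Δ c₂ s W)
    (hLev : LevelsTo n hP Δ c₂ s W) :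
    ∃ Ψ : X.Hat hP Δ (X.mk hP Δ c b₀) → X.Hat hP Δ (X.mk hP Δ c b₀),
      ContinuousOn Ψ ((X.Bd hP Δ (X.mk hP Δ c b₀) ∩ X.VO b₀ c c₁ s) ∪
        (X.Bd hP Δ (X.mk hP Δ c b₀) ∩ {z | X.asyA c s b₀ z = 0})) ∧
      EqOn Ψ id (X.Bd hP Δ (X.mk hP Δ c b₀) ∩ {z | X.asyA c s b₀ z = 0}) ∧
      MapsTo Ψ (X.Bd hP Δ (X.mk hP Δ c b₀) ∩ X.VO b₀ c c₁ s)
        (X.Bd hP Δ (X.mk hP Δ c b₀) ∩ X.VO b₀ c c₂ s) := by
  set b := X.mk hP Δ c b₀ with hbdef
  have hR := X.radSp (hP := hP) hL b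
  have : CompactSpace (X.Hat hP Δ b) := hR.compactSpace
  have : ProperSpace (X hP Δ) := X.proper hL
  obtain ⟨F, hF, -, ha⟩ := X.start_fold (hP := hP) hL hb h2 one_pos
  obtain ⟨r, K₁, hr, hrK⟩ := hV
  obtain ⟨K₂, N, A, hK₂, hA, hA0, hAL, hAN⟩ := hLev (Real.sinh hP.poC)
  set K : ℝ := max K₁ K₂ with hK
  have hK0 : 0 ≤ K := hK₂.trans (le_max_right _ _)
  have hVsub := X.vo_subset (hP := hP) hL hb h1 n1
  have hL' := X.isClosed_dm (hP := hP) (c := c) (s := s) (b₀ := b₀) hL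
  have hVL : IsClosed ((X.Bd hP Δ b ∩ X.VO b₀ c c₁ s) ∪ (X.Bd hP Δ b ∩ {z | X.asyA c s b₀ z = 0})) := by
    rw [← inter_union_distrib_left]
    exact X.isClosed_vo_dm hL hb h1 n1
  have hd : Disjoint (X.Bd hP Δ b ∩ X.VO b₀ c c₁ s)
      (X.Bd hP Δ b ∩ {z | X.asyA c s b₀ z = 0}) := by
    rw [Set.disjoint_left]
    rintro z hz ⟨-, hz'⟩
    have h3 : 0 < X.asyA c s b₀ z := (hVsub hz).2
    have h4 : X.asyA c s b₀ z = 0 := hz'
    exact h3.ne' h4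
  have hZ : Disjoint (range hR.ι) (X.Bd hP Δ b) := by
    rw [Set.disjoint_left]
    rintro _ ⟨x, rfl⟩ hx
    exact hR.ι_not_mem x hx
  have dZ : PushOff n (X.Bd hP Δ b) := (X.bdry_three hP Δ hL b).1
  refine fold_of_push (n := n) hR.continuous_ι hR.ι_injective hZ dZ (X.small hL b)
    inter_subset_left inter_subset_left hL' hVL hd (U := X.HalfO hP Δ c₂ s) (F := F)
    ⟨hF.cont.mono hVsub, hF.maps.mono_left hVsub⟩ ?_ hA (r := r) (by rw [hA0]; exact hr) hK0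
    (fun x hx => (hrK x hx).trans (le_max_left _ _)) (N := N)
    (fun k hk => (hAL k hk).mono (le_max_right _ _))
    (R := fun x ζ => dist (X.pr hP Δ b (dist b x) ζ) x ≤ hP.poC) ?_ ?_
  · intro z₀ hz₀ ε hε
    obtain ⟨δ, hδ, h3⟩ := ha z₀ hz₀ ε hε
    exact ⟨δ, hδ, fun z hz hzz => h3 z (hVsub hz) hzz⟩
  · intro F' hF'
    exact X.push_out hP Δ hL b hVL.isCompact (dZ.mono hVL.isCompact
      (union_subset inter_subset_left inter_subset_left)) hF'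
  · intro x hx ζ hζ hxζ
    have h3 : dist x (X.pr hP Δ b (dist b x) ζ) ≤ hP.poC := by
      rw [dist_comm]
      exact hxζ
    exact ⟨hζ, X.vo_of_dist (t := dist b x) hP.poC_nonneg dist_nonneg (hAN x hx) h3⟩

/-- the folding in the form used for the device of a panel -/
theorem X.fold_dev (hL : Δ.LocFinite) {c c₁ c₂ : C} {s : ι} {b₀ : poly e}
    (hb : lor (b₀ : Mink (n + 1)) (e s) < 0) (h1 : PanAdj Δ s c c₁) (n1 : c ≠ c₁)
    (h2 : PanAdj Δ s c c₂) {W : Set (X hP Δ)} (hV : OffWall hP Δ c₂ s W)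
    (hLev : LevelsTo n hP Δ c₂ s W) :
    ∃ Ψ : X.Hat hP Δ (X.mk hP Δ c b₀) → X.Hat hP Δ (X.mk hP Δ c b₀),
      ContinuousOn Ψ (X.Bd hP Δ (X.mk hP Δ c b₀) ∩ (X.VO b₀ c c₁ s ∪ {z | X.asyA c s b₀ z = 0})) ∧
      (∀ z ∈ X.Bd hP Δ (X.mk hP Δ c b₀), X.asyA c s b₀ z = 0 → Ψ z = z) ∧
      ∀ z ∈ X.Bd hP Δ (X.mk hP Δ c b₀), z ∈ X.VO b₀ c c₁ s →
        Ψ z ∈ X.Bd hP Δ (X.mk hP Δ c b₀) ∧ Ψ z ∈ X.VO b₀ c c₂ s := by
  obtain ⟨Ψ, h3, h4, h5⟩ := X.fold_panel hL hb h1 n1 h2 hV hLev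
  refine ⟨Ψ, by rw [inter_union_distrib_left]; exact h3, fun z hz hz' => h4 ⟨hz, hz'⟩,
    fun z hz hz' => h5 ⟨hz, hz'⟩⟩

end BD
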