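import Pool.Agent.Work.MP_de2d29_al.DDX
import Pool.Agent.Work.MP_de2d29_al.FoldPan
import Pool.Agent.Work.MP_de2d29_al.DevMdl

/-!
# BUILDING: disjoint approximations on the boundary (assembly of block F)

`X.dd_of`: the boundary has the disjoint approximation property `DD`, if every open half can be
moved off its wall (`OffWall`, V) and be filtered to any depth (`LevelsTo`, L3).
-/

set_option autoImplicit false

open Set Metric Topology Filter
open Pool.Agent.Work.MP_017613_gt (DD)

namespace BD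

variable {n : ℕ} {ι : Type} [Finite ι] {M : CoxeterMatrix ι} {C : Type} {e : ι → Mink (n + 1)}
  {hP : CoxPoly M e} {Δ : Building M C}

/-- the foldings -/
theorem X.folds_of (hL : Δ.LocFinite)
    (H : ∀ (c : C) (s : ι), ∃ W, OffWall hP Δ c s W ∧ LevelsTo n hP Δ c s W) : X.Folds hP Δ := by
  intro c s b₀ hb₀ c' c'' h1 n1 h2 _ _
  obtain ⟨W, hV, hLev⟩ := H c'' s
  exact X.fold_panel hL (hb₀ s) h1 n1 h2 hV hLev

/-- **The boundary has the property `DD`.** -/
theorem X.dd_of (hL : Δ.LocFinite) (hT : Δ.Thick)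
    (H : ∀ (c : C) (s : ι), ∃ W, OffWall hP Δ c s W ∧ LevelsTo n hP Δ c s W) (o : X hP Δ) :
    DD (X.Bd hP Δ o) := by
  obtain ⟨C₁, hC₁⟩ := X.exists_dev_o hP
  exact (X.mdl hP Δ).dd_of_dev hL o C₁ (hC₁ C Δ hL hT (X.folds_of hL H) o)

end BD
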