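import Pool.Agent.Work.MP_de2d29_al.TopB
import Pool.Agent.Work.MP_de2d29_al.Andreev
import Pool.Agent.Work.MP_de2d29_al.XPOut
import Pool.Agent.Work.MP_de2d29_al.XDD
import Pool.Agent.Work.MP_de2d29_al.VertOff
import Pool.Agent.Work.MP_de2d29_al.LevelStep

/-!
# BUILDING: the final assembly

* `X.homeo_mu`: the boundary is a Menger compactum, from disjoint approximations of the identity.
* `X.bdry_homeo`: the boundary as a space of rays.
* `main_of_dd`: the main statement, from disjoint approximations of the identity of the boundary.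
* `main_of_walls`: the main statement, from `OffWall` and `LevelsTo`.
* `main`: the main statement.
-/

set_option autoImplicit false

open Set Metric Topology Filter
open scoped NNReal ENNReal

namespace BD

open Pool.Agent.Work.MP_017613_gt (PushOff DD Men)

/-- connectivity of a subset and of the subtype -/
theorem conn_sub {k : ℕ} {α : Type} [MetricSpace α] {K : Set α} (h : MG.Conn k K) :
    MG.Conn k (univ : Set K) := by
  intro j hj f hf
  obtain ⟨F, h1, h2⟩ := h j hj (fun x => (f x : α))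
    (Pool.Agent.Work.MP_017613_gt.ChiT.ofSub hf)
  obtain ⟨F', h4, h5⟩ := Pool.Agent.Work.MP_017613_gt.ChiT.toSub (MG.Cu_nonempty j) h1
  exact ⟨F', h4, fun x hx => Subtype.ext ((h5 x (MG.dCu_subset j hx)).trans (h2 hx))⟩

/-- a set with the connectivity property is non-empty -/
theorem nonempty_of_conn {k : ℕ} {α : Type} [MetricSpace α] {K : Set α} (h : MG.Conn k K)
    (hα : Nonempty α) : K.Nonempty := by
  obtain ⟨a⟩ := hα
  obtain ⟨F, h1, -⟩ := h 0 (Nat.zero_le k) (fun _ => a) (by
    rw [MG.dCu_zero]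
    exact MG.IsMap.empty)
  obtain ⟨x, hx⟩ := MG.Cu_nonempty 0
  exact ⟨F x, h1.maps hx⟩

/-- a compact set with the properties of a Menger space -/
theorem menger_char {n : ℕ} (hn : 1 ≤ n) {α : Type} [MetricSpace α] (hα : Nonempty α) {K : Set α}
    (cK : IsCompact K) (dK : PushOff n K) (uK : MG.ULC n K) (hK : MG.Conn n K) (hD : DD K)
    {m : ℕ} (hm : 2 * n + 1 ≤ m) : Nonempty (K ≃ₜ MG.mu n m) := by
  have cK' : CompactSpace K := isCompact_iff_compactSpace.1 cK
  exact homeo_mu hn hm (nonempty_of_conn hK hα).to_subtype ⟨MG.pushOff_subtype dK,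
    Pool.Agent.Work.MP_017613_gt.ChiT.ulc_sub uK, Pool.Agent.Work.MP_017613_gt.DD.zd hD⟩
    (conn_sub hK)

section building

variable {n : ℕ} {ι C : Type} {M : CoxeterMatrix ι} {e : ι → Mink (n + 1)} [Finite ι]

/-- **The boundary of the building is a Menger compactum**, from disjoint approximations. -/
theorem X.homeo_mu (hn : 1 ≤ n) (hP : CoxPoly M e) (Δ : Building M C) (hL : Δ.LocFinite)
    (o : X hP Δ) (hD : DD (X.Bd hP Δ o)) {m : ℕ} (hm : 2 * n + 1 ≤ m) :
    Nonempty (X.Bd hP Δ o ≃ₜ MG.mu n m) := by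
  have hrad := X.radSp (hP := hP) hL o
  have cX := hrad.compactSpace
  obtain ⟨h1, h2, h3⟩ := X.bdry_three hP Δ hL o
  exact menger_char hn ⟨hrad.ι o⟩ isClosed_HBdry.isCompact h1 h2 h3 hD hm

/-- a point of the realization as a point of the metric space -/
def X.pt (hP : CoxPoly M e) (Δ : Building M C) (o : Space e Δ) : X hP Δ := o

/-- **The boundary as a space of rays of the realization.** -/
theorem X.bdry_homeo (hP : CoxPoly M e) (Δ : Building M C) (hL : Δ.LocFinite)
    (o : Space e Δ) : Nonempty (X.Bd hP Δ (X.pt hP Δ o) ≃ₜ Bdry e Δ o) :=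
  ⟨(X.radSp (hP := hP) hL (X.pt hP Δ o)).rayHomeo⟩

end building

/-- **The main statement, from disjoint approximations.** -/
theorem main_of_dd (hDD : ∀ (n : ℕ), 1 ≤ n → ∀ (ι : Type) [Finite ι] (M : CoxeterMatrix ι)
    (e : ι → Mink (n + 1)) (hP : CoxPoly M e) (C : Type) (Δ : Building M C),
    Δ.Thick → Δ.LocFinite → ∀ o : X hP Δ, DD (X.Bd hP Δ o)) : MainStatement := by
  intro n hn ι _ M e hP C Δ hT hL o m hm
  obtain ⟨h1⟩ := X.bdry_homeo hP.coxPoly Δ hL o
  obtain ⟨h2⟩ := X.homeo_mu hn hP.coxPoly Δ hL (X.pt hP.coxPoly Δ o)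
    (hDD n hn ι M e hP.coxPoly C Δ hT hL _) hm
  exact ⟨h1.symm.trans h2⟩

/-- **The main statement, from the two open joints** -/
theorem main_of_walls
    (H : ∀ (n : ℕ), 1 ≤ n → ∀ (ι : Type) [Finite ι] (M : CoxeterMatrix ι)
      (e : ι → Mink (n + 1)) (hP : CoxPoly M e) (C : Type) (Δ : Building M C),
      Δ.LocFinite → ∀ (c : C) (s : ι), ∃ W, OffWall hP Δ c s W ∧ LevelsTo n hP Δ c s W) :
    MainStatement :=
  main_of_dd fun n hn ι _ M e hP C Δ hT hL o =>
    X.dd_of hL hT (H n hn ι M e hP C Δ hL) o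

/-- **The main theorem.** -/
theorem main : MainStatement := by
  refine main_of_walls fun n _ ι _ M e hP C Δ hL c s => ?_
  have : Fintype ι := Fintype.ofFinite ι
  obtain ⟨r, K, -, hr, hrK⟩ := X.exists_vertOff (hP := hP) hL c s
  exact ⟨X.offW hP Δ c s, ⟨r, K, hr, fun x _ => hrK x⟩, fun S => X.levels_geo hP Δ hL c s S⟩

end BD
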