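import Pool.Agent.Work.MP_de2d29_al.GoodX
import Pool.Agent.Work.MP_de2d29_al.HalfB

/-!
# BUILDING: good panels, final form (block F, piece F8)

`X.good_final`: for every ray `z` from `o` and every integer time `r` there are a panel `(c, s)` and
a point `b = mk c b₀` in the open half of `c`, such that, for every map `β` of the boundary seen
from `o` to the boundary seen from `b` at bounded distance, the ray `β z` crosses the wall, and the
set of the rays `x` such that `β x` crosses the wall is `C₁`-thin at the time `r`.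
-/

set_option autoImplicit false

open Set Metric Topology Filter

namespace BD

variable {d : ℕ} {ι C : Type} {M : CoxeterMatrix ι} {e : ι → Mink d} {hP : CoxPoly M e}
  {Δ : Building M C} [Finite ι]

/-- points near a point far beyond the wall are beyond the wall -/
theorem X.sd_pos_of_dist {c : C} {s : ι} {x y : X hP Δ} {K : ℝ} (hK : 0 ≤ K)
    (hx : Real.sinh K < X.sd hP Δ c s x) (hxy : dist x y ≤ K) : 0 < X.sd hP Δ c s y := by
  have h1 : lor (-e s) (-e s) = 1 := by rw [lor_neg_left, lor_neg_right, neg_neg, hP.unit s]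
  have h2 := side_of_hdist (a := -e s) h1 (X.ret_mem hP Δ c x) (X.ret_mem hP Δ c y) hK (by
    rw [lor_neg_right]
    exact neg_lt_neg hx) ((X.hdist_ret_le hP Δ c x y).trans hxy)
  rw [lor_neg_right] at h2
  exact neg_lt_zero.1 h2

/-- along a ray with positive coefficient the coordinate tends to infinity -/
theorem X.tendsto_sd_ray (hL : Δ.LocFinite) {c : C} {s : ι} {b₀ : poly e}
    {z : X.Hat hP Δ (X.mk hP Δ c b₀)}
    (hz : z ∈ X.Bd hP Δ (X.mk hP Δ c b₀)) (hA : 0 < X.asyA c s b₀ z) :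
    Tendsto (fun N : ℕ => X.sd hP Δ c s (z.1 N)) atTop atTop := by
  have h := X.radSp (hP := hP) hL (X.mk hP Δ c b₀)
  have h1 : Tendsto (fun N : ℕ => (X.asyA c s b₀ z * N -
      |X.asyA c s b₀ z - 2 * lor (b₀ : Mink d) (e s)|) / 2) atTop atTop := by
    refine Tendsto.atTop_div_const two_pos ?_
    exact tendsto_atTop_add_const_right _ _ (tendsto_natCast_atTop_atTop.const_mul_atTop hA)
  refine tendsto_atTop_mono (fun N => ?_) h1
  have h2 := X.sd_ray (s := s) hL hz (t := (N : ℝ)) (Nat.cast_nonneg N)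
  have h3 : X.pr hP Δ _ (N : ℝ) z = z.1 N := h.pr_nat N z
  rw [h3] at h2
  rw [h2]
  refine div_le_div_of_nonneg_right ?_ two_pos.le
  have h4 : (N : ℝ) ≤ Real.exp N := by
    have := Real.add_one_le_exp (N : ℝ)
    linarith
  have h5 : Real.exp (-(N : ℝ)) ≤ 1 := Real.exp_le_one_iff.2 (by
    have : (0 : ℝ) ≤ N := Nat.cast_nonneg N
    linarith)
  have h6 := mul_le_mul_of_nonneg_left h4 hA.le
  have h7 : (X.asyA c s b₀ z - 2 * lor (b₀ : Mink d) (e s)) * Real.exp (-(N : ℝ)) ≤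
      |X.asyA c s b₀ z - 2 * lor (b₀ : Mink d) (e s)| := by
    calc (X.asyA c s b₀ z - 2 * lor (b₀ : Mink d) (e s)) * Real.exp (-(N : ℝ))
        ≤ |X.asyA c s b₀ z - 2 * lor (b₀ : Mink d) (e s)| * Real.exp (-(N : ℝ)) :=
          mul_le_mul_of_nonneg_right (le_abs_self _) (Real.exp_pos _).le
      _ ≤ |X.asyA c s b₀ z - 2 * lor (b₀ : Mink d) (e s)| * 1 :=
          mul_le_mul_of_nonneg_left h5 (abs_nonneg _)
      _ = _ := mul_one _
  linarith

/-- **Good panels, final form** -/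
theorem X.good_final (hP : CoxPoly M e) : ∃ C₁ : ℝ, ∀ (C : Type) (Δ : Building M C),
    Δ.LocFinite → ∀ (o : X hP Δ) (z : X.Bd hP Δ o) (r : ℕ), ∃ (c : C) (s : ι) (b₀ : poly e),
      (∀ i, lor (b₀ : Mink d) (e i) < 0) ∧
      ∀ (β : X.Bd hP Δ o → X.Bd hP Δ (X.mk hP Δ c b₀)) (K : ℝ),
        (∀ (x : X.Bd hP Δ o) (N : ℕ), dist (x.1.1 N) ((β x).1.1 N) ≤ K) →
        0 < X.asyA c s b₀ (β z).1 ∧
        ∀ x y : X.Bd hP Δ o, 0 < X.asyA c s b₀ (β x).1 → 0 < X.asyA c s b₀ (β y).1 →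
          dist (x.1.1 r) (y.1.1 r) ≤ C₁ := by
  obtain ⟨R, hR⟩ := X.good_panels hP
  obtain ⟨p₀, hp₀, hp₀'⟩ := hP.inter
  refine ⟨R + R, ?_⟩
  intro C Δ hL o z r
  obtain ⟨c₀, x₀, rfl⟩ := X.exists_mk hP Δ o
  obtain ⟨c, s, -, h2, h3⟩ := hR C Δ c₀ x₀ _ (X.radSp hL _) ((X.mdl hP Δ).hcat _) z.1 z.2 r
  refine ⟨c, s, ⟨p₀, hp₀, fun i => (hp₀' i).le⟩, hp₀', ?_⟩
  intro β K hK
  have hK0 : 0 ≤ K := dist_nonneg.trans (hK z 0)
  have hb := hp₀' s
  have hrad := X.radSp (hP := hP) hL (X.mk hP Δ c ⟨p₀, hp₀, fun i => (hp₀' i).le⟩)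
  refine ⟨?_, ?_⟩
  · obtain ⟨N, hN⟩ := (h2.eventually_gt_atTop (Real.sinh K)).exists
    have h4 := X.sd_pos_of_dist hK0 hN (hK z N)
    have h5 := hrad.pr_nat N (β z).1
    rw [← h5] at h4
    exact X.asyA_pos_of_sd hL hb (β z).2 (Nat.cast_nonneg N) h4.le
  · have key : ∀ x : X.Bd hP Δ (X.mk hP Δ c₀ x₀),
        0 < X.asyA c s ⟨p₀, hp₀, fun i => (hp₀' i).le⟩ (β x).1 → dist (x.1.1 r) (z.1.1 r) ≤ R := by
      intro x hx
      refine h3 x.1 x.2 ?_
      have h4 := X.tendsto_sd_ray hL (β x).2 hx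
      refine Eventually.frequently ?_
      filter_upwards [h4.eventually_gt_atTop (Real.sinh K)] with N hN
      exact (X.sd_pos_of_dist hK0 hN (by rw [dist_comm]; exact hK x N)).le
    intro x y hx hy
    have h4 := key x hx
    have h5 := key y hy
    rw [dist_comm] at h5
    exact (dist_triangle _ _ _).trans (add_le_add h4 h5)

end BD
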