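import Pool.Agent.Work.MP_de2d29_al.HypT
import Pool.Agent.Work.MP_017613_gt.PushOff

/-!
# BUILDING: spheres in hyperbolic space of dimension `n + 1` have dimension at most `n`
-/

set_option autoImplicit false

open Set Metric Topology Filter
open Pool.Agent.Work.MP_017613_gt (PushOff)

namespace BD

/-- pull back along an injective map of a compact set -/
theorem pushOff_of_injOn {k : ℕ} {α β : Type*} [MetricSpace α] [MetricSpace β] {K : Set β}
    {φ : β → α} (cK : IsCompact K) (hφ : ContinuousOn φ K) (hi : InjOn φ K)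
    (h : PushOff k (φ '' K)) : PushOff k K := by
  intro f hf ε hε
  have : CompactSpace K := isCompact_iff_compactSpace.1 cK
  have hemb : IsClosedEmbedding (K.domRestrict φ) := by
    apply Continuous.isClosedEmbedding hφ.domRestrict
    exact hi.injective
  obtain ⟨G, hG⟩ := ContinuousMap.exists_extension' hemb
    (⟨K.domRestrict f, hf.domRestrict⟩ : C(K, Fin (k + 1) → ℝ))
  have key : ∀ x ∈ K, G (φ x) = f x := by
    intro x hx
    exact congrFun hG ⟨x, hx⟩
  obtain ⟨g, hg, hgd, hg0⟩ := h G G.continuous.continuousOn ε hε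
  refine ⟨fun x => g (φ x), hg.comp hφ (mapsTo_image _ _), fun x hx => ?_, fun x hx => ?_⟩
  · rw [← key x hx]
    exact hgd _ (mem_image_of_mem φ hx)
  · exact hg0 _ (mem_image_of_mem φ hx)

variable {n : ℕ}

/-- a unit vector orthogonal to a point of hyperbolic space -/
theorem exists_unit_orth {o : Mink (n + 1)} (ho : o ∈ Hyp (n + 1)) :
    ∃ a : Mink (n + 1), lor a a = 1 ∧ lor o a = 0 := by
  set v : Mink (n + 1) := Pi.single 1 1 with hv
  have hvv : lor v v = 1 := by
    simp only [lor, hv]
    rw [Finset.sum_eq_single (0 : Fin (n + 1))]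
    · simp
    · intro i _ hi
      rw [Pi.single_eq_of_ne]
      · simp
      · intro hc
        exact hi (Fin.succ_injective _ (by simpa using hc))
    · intro h
      exact (h (Finset.mem_univ _)).elim
  set w : Mink (n + 1) := v + lor v o • o with hw
  have how : lor o w = 0 := by
    rw [hw, lor_add_right, lor_smul_right, ho.1, lor_symm o v]
    ring
  have hww : lor w w = 1 + lor v o ^ 2 := by
    have h1 : lor w w = lor v w := by
      conv_lhs => rw [hw, lor_add_left, lor_smul_left, how]
      ring
    rw [h1, hw, lor_add_right, lor_smul_right, hvv]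
    ring
  have hpos : 0 < lor w w := by rw [hww]; positivity
  refine ⟨(√(lor w w))⁻¹ • w, ?_, ?_⟩
  · rw [lor_smul_left, lor_smul_right]
    have h2 := Real.sq_sqrt hpos.le
    have h3 : 0 < √(lor w w) := Real.sqrt_pos.2 hpos
    field_simp
    exact h2.symm
  · rw [lor_smul_right, how, mul_zero]

/-- the space orthogonal to `o` and `a` -/
def orth2 (o a : Mink (n + 1)) : Submodule ℝ (Mink (n + 1)) :=
  LinearMap.ker ((lorL o).prod (lorL a))

theorem finrank_orth2 {o a : Mink (n + 1)} (ho : lor o o = -1) (ha : lor a a = 1)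
    (hoa : lor o a = 0) : Module.finrank ℝ (orth2 o a) = n := by
  have h1 := LinearMap.finrank_range_add_finrank_ker ((lorL o).prod (lorL a))
  have h2 : LinearMap.range ((lorL o).prod (lorL a)) = ⊤ := by
    rw [LinearMap.range_eq_top]
    rintro ⟨s, t⟩
    refine ⟨(-s) • o + t • a, ?_⟩
    show (lor ((-s) • o + t • a) o, lor ((-s) • o + t • a) a) = (s, t)
    rw [lor_add_left, lor_add_left, lor_smul_left, lor_smul_left, lor_smul_left, lor_smul_left,
      ho, ha, hoa, lor_symm a o, hoa]
    refine Prod.ext ?_ ?_ <;> simp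
  rw [h2, finrank_top, Module.finrank_prod, Module.finrank_self, Module.finrank_fin_fun] at h1
  show Module.finrank ℝ (LinearMap.ker ((lorL o).prod (lorL a))) = n
  omega

/-- the hemisphere -/
theorem pushOff_hemi {o a : Mink (n + 1)} (ho : lor o o = -1) (ha : lor a a = 1)
    (hoa : lor o a = 0) {K : Set (Mink (n + 1))} (cK : IsCompact K) {c : ℝ}
    (hK : ∀ x ∈ K, lor x x = -1 ∧ lor x o = c ∧ 0 ≤ lor x a) : PushOff n K := by
  have hmem : ∀ x : Mink (n + 1), x + lor x o • o - lor x a • a ∈ orth2 o a := fun x => by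
    show ((lorL o).prod (lorL a)) _ = 0
    show (lor (x + lor x o • o - lor x a • a) o, lor (x + lor x o • o - lor x a • a) a) = (0, 0)
    rw [lor_sub_left, lor_sub_left, lor_add_left, lor_add_left, lor_smul_left, lor_smul_left,
      lor_smul_left, lor_smul_left, ho, ha, hoa, lor_symm a o, hoa]
    refine Prod.ext ?_ ?_ <;> simp
  set ψ : Mink (n + 1) → orth2 o a := fun x => ⟨x + lor x o • o - lor x a • a, hmem x⟩ with hψ
  have hc : Continuous ψ := by
    refine Continuous.subtype_mk ?_ _
    exact (continuous_id.add ((continuous_lor_left o).smul continuous_const)).sub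
      ((continuous_lor_left a).smul continuous_const)
  have hi : InjOn ψ K := by
    intro x hx y hy hxy
    obtain ⟨hx1, hx2, hx3⟩ := hK x hx
    obtain ⟨hy1, hy2, hy3⟩ := hK y hy
    have h1 : x + lor x o • o - lor x a • a = y + lor y o • o - lor y a • a :=
      congrArg Subtype.val hxy
    rw [hx2, hy2] at h1
    have h2 : x - lor x a • a = y - lor y a • a := by
      have : x + c • o - lor x a • a = (x - lor x a • a) + c • o := by abel
      rw [this] at h1
      have : y + c • o - lor y a • a = (y - lor y a • a) + c • o := by abel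
      rw [this] at h1
      exact add_right_cancel h1
    have h3 : ∀ z : Mink (n + 1), lor z z = -1 →
        lor (z - lor z a • a) (z - lor z a • a) = -1 - lor z a ^ 2 := fun z hz => by
      rw [lor_sub_left, lor_sub_right, lor_sub_right, lor_smul_left, lor_smul_right,
        lor_smul_left, lor_smul_right, hz, ha, lor_symm a z]
      ring
    have h4 : lor x a ^ 2 = lor y a ^ 2 := by
      have e1 := h3 x hx1
      have e2 := h3 y hy1
      rw [h2, e2] at e1
      linarith
    have h5 : lor x a = lor y a := by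
      rwa [sq_eq_sq₀ hx3 hy3] at h4
    rw [h5] at h2
    exact sub_left_injective h2
  exact pushOff_of_injOn cK hc.continuousOn hi
    (Pool.Agent.Work.MP_017613_gt.pushOff_of_finrank (finrank_orth2 ho ha hoa).le
      (cK.image hc))

/-- **Compact subsets of spheres** -/
theorem pushOff_hsphere {o : Mink (n + 1)} (ho : o ∈ Hyp (n + 1)) {K : Set (Mink (n + 1))}
    (cK : IsCompact K) {c : ℝ} (hK : ∀ x ∈ K, lor x x = -1 ∧ lor x o = c) : PushOff n K := by
  obtain ⟨a, ha, hoa⟩ := exists_unit_orth ho
  have c1 : IsCompact (K ∩ {x | 0 ≤ lor x a}) :=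
    cK.inter_right (isClosed_le continuous_const (continuous_lor_left a))
  have c2 : IsCompact (K ∩ {x | 0 ≤ lor x (-a)}) :=
    cK.inter_right (isClosed_le continuous_const (continuous_lor_left (-a)))
  have h1 := pushOff_hemi ho.1 ha hoa c1 (c := c) fun x hx =>
    ⟨(hK x hx.1).1, (hK x hx.1).2, hx.2⟩
  have h2 := pushOff_hemi (a := -a) ho.1 (by rw [lor_neg_left, lor_neg_right, neg_neg, ha])
    (by rw [lor_neg_right, hoa, neg_zero]) c2 (c := c) fun x hx =>
    ⟨(hK x hx.1).1, (hK x hx.1).2, hx.2⟩
  have h3 : K = (K ∩ {x | 0 ≤ lor x a}) ∪ (K ∩ {x | 0 ≤ lor x (-a)}) := by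
    ext x
    simp only [mem_union, mem_inter_iff, mem_ofPred_eq, lor_neg_right, Left.nonneg_neg_iff]
    constructor
    · intro hx
      rcases le_total 0 (lor x a) with h | h
      · exact Or.inl ⟨hx, h⟩
      · exact Or.inr ⟨hx, h⟩
    · rintro (h | h)
      · exact h.1
      · exact h.1
  rw [h3]
  exact h1.union h2 c1 c2

/-- compact subsets of the sphere `hdist o x = t` -/
theorem pushOff_hdist {o : Mink (n + 1)} (ho : o ∈ Hyp (n + 1)) {K : Set (Mink (n + 1))}
    (cK : IsCompact K) {t : ℝ} (hK : ∀ x ∈ K, x ∈ Hyp (n + 1) ∧ hdist o x = t) :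
    PushOff n K :=
  pushOff_hsphere ho cK (c := -Real.cosh t) fun x hx => ⟨(hK x hx).1.1, by
    have h1 := cosh_hdist ho (hK x hx).1
    rw [(hK x hx).2] at h1
    rw [h1, neg_neg, lor_symm]⟩

end BD
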