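import Pool.Agent.Work.MP_de2d29_al.XHat

/-!
# BUILDING: balls are `ULC n`

If the metric space `X` has radial maps at every point, then small spheres contract radially, and
the radial map at `o` retracts `X` onto the balls with centre `o`.
-/

set_option autoImplicit false

open Set Metric Topology Filter

namespace BD

variable {X : Type} [MetricSpace X] {o : X} {p : ℝ → X → X}

theorem RadSp.continuousOn_joint (h : RadSp X o p) :
    ContinuousOn (fun z : ℝ × X => p z.1 z.2) (Ici (0 : ℝ) ×ˢ univ) := by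
  rw [continuousOn_iff_continuous_domRestrict]
  exact h.continuous_joint (T := (Ici (0 : ℝ) ×ˢ (univ : Set X) : Set (ℝ × X)))
    (f := fun z => z.1.1) (g := fun z => z.1.2) (continuous_fst.comp continuous_subtype_val)
    (fun z => z.2.1) (continuous_snd.comp continuous_subtype_val)

/-- the radial map is a retraction onto the ball -/
theorem RadSp.mem_ball (h : RadSp X o p) {t : ℝ} (ht : 0 ≤ t) (x : X) :
    p t x ∈ closedBall o t := by
  rw [mem_closedBall, dist_comm, h.nrm t ht]
  exact min_le_left _ _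

theorem RadSp.of_mem_ball (h : RadSp X o p) {t : ℝ} {x : X} (hx : x ∈ closedBall o t) :
    p t x = x := by
  rw [mem_closedBall, dist_comm] at hx
  exact h.fix t x hx

/-- **Balls are `ULC n`** -/
theorem RadSp.ulc_closedBall (h : RadSp X o p) (hall : ∀ x : X, ∃ q, RadSp X x q) (n : ℕ) {t : ℝ}
    (ht : 0 ≤ t) : MG.ULC n (closedBall o t) := by
  intro ε hε
  refine ⟨ε / 2, by positivity, fun j hj y hy a ha had => ?_⟩
  obtain ⟨q, hq⟩ := hall y
  have hH : MG.IsMap (fun z : (Fin j → ℝ) × ℝ => p t (q ((1 - z.2) * (ε / 2)) (a z.1)))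
      (MG.dCu j ×ˢ Icc (0 : ℝ) 1) (closedBall o t) := by
    refine ⟨(h.continuous t ht).comp_continuousOn ?_, fun z _ => h.mem_ball ht _⟩
    refine hq.continuousOn_joint.comp (g := fun z : ℝ × X => q z.1 z.2)
      (f := fun z : (Fin j → ℝ) × ℝ => ((1 - z.2) * (ε / 2), a z.1))
      (ContinuousOn.prodMk ?_ ?_) ?_
    · exact ((continuous_const.sub continuous_snd).mul continuous_const).continuousOn
    · exact ha.cont.comp continuousOn_fst fun z hz => hz.1
    · intro z hz
      have hz2 : z.2 ≤ 1 := hz.2.2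
      have hz3 : (0 : ℝ) ≤ (1 - z.2) * (ε / 2) := mul_nonneg (by linarith) (by positivity)
      exact ⟨hz3, trivial⟩
  obtain ⟨F, hF, hF0, hFv⟩ := MG.collar (T := closedBall o t) (G := fun _ => y)
    (H := fun z => p t (q ((1 - z.2) * (ε / 2)) (a z.1))) (MG.IsMap.const hy) hH
    (fun x hx => by
      show p t (q ((1 - 1) * (ε / 2)) (a x)) = y
      rw [sub_self, zero_mul, hq.zero]
      exact h.of_mem_ball hy) one_pos
  refine ⟨F, hF, fun x hx => ?_, fun x hx => ?_⟩
  · rw [hF0 x hx]
    show p t (q ((1 - 0) * (ε / 2)) (a x)) = a x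
    rw [sub_zero, one_mul, hq.fix _ _ (by rw [dist_comm]; exact (had x hx).le)]
    exact h.of_mem_ball (ha.maps hx)
  · show dist (F x) y < ε
    rcases hFv x hx with ⟨x', hx', s, hs, he, -⟩ | ⟨x', hx', he, -⟩
    · rw [he]
      show dist (p t (q ((1 - s) * (ε / 2)) (a x'))) y < ε
      have h1 := h.lip t (q ((1 - s) * (ε / 2)) (a x')) y ht
      rw [h.of_mem_ball hy] at h1
      refine h1.trans_lt ?_
      rw [dist_comm, hq.nrm _ (mul_nonneg (by linarith [hs.2]) (by positivity))]
      refine (min_le_right _ _).trans_lt ?_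
      have h2 : dist (a x') y < ε / 2 := had x' hx'
      rw [dist_comm]
      linarith
    · rw [he, dist_self]
      exact hε

/-- the hypothesis `hb` of `bdry_props` -/
theorem RadSp.ball_in_ulc (h : RadSp X o p) (hall : ∀ x : X, ∃ q, RadSp X x q) (n : ℕ) (t : ℝ) :
    ∃ C : Set X, IsCompact C ∧ MG.ULC n C ∧ closedBall o t ⊆ C :=
  ⟨closedBall o (max t 0), h.cpt _, h.ulc_closedBall hall n (le_max_right _ _),
    closedBall_subset_closedBall (le_max_left _ _)⟩

end BD
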