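import Pool.Agent.Work.MP_de2d29_al.XCat
import Pool.Agent.Work.MP_de2d29_al.XBall
import Pool.Agent.Work.MP_de2d29_al.SphDim
import Pool.Agent.Work.MP_de2d29_al.Lift
import Pool.Agent.Work.MP_de2d29_al.CoverRep

/-!
# BUILDING: radial maps of the realisation

`Mdl h Δ mk`: a metric space `X` with charts `mk c : poly e → X` in which the distance of `mk c x`
and `mk c' y` is the hyperbolic distance of `x` and `δ(c,c') y`. It has radial maps at every point
(`Mdl.hcat`), which satisfy the comparison inequality.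
-/

set_option autoImplicit false

open Set Metric Topology Filter
open Pool.Agent.Work.MP_de2d29_al RootBasis

namespace BD

variable {ι C X : Type} {n d : ℕ} {M : CoxeterMatrix ι} {e : ι → Mink d} [MetricSpace X]

/-- a metric model of the realisation of a building -/
structure Mdl (h : CoxPoly M e) (Δ : Building M C) (mk : C → poly e → X) : Prop where
  surj : ∀ q : X, ∃ c x, mk c x = q
  dist_mk : ∀ c (x : poly e) c' (y : poly e),
    dist (mk c x) (mk c' y) = hdist (x : Mink d) (h.rep (Δ.δ c c') y)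

/-- a point of a geodesic segment -/
theorem combo_mem_hyp {x y : Mink d} (hx : x ∈ Hyp d) (hy : y ∈ Hyp d) {D t : ℝ}
    (hD : 0 < D) (hxy : -lor x y = Real.cosh D) (h0 : 0 ≤ t) (h1 : t ≤ D) :
    (Real.sinh t / Real.sinh D) • y + (Real.sinh (D - t) / Real.sinh D) • x ∈ Hyp d := by
  have hs : 0 < Real.sinh D := Real.sinh_pos_iff.2 hD
  have h2 : 0 ≤ Real.sinh (D - t) := Real.sinh_nonneg_iff.2 (by linarith)
  have h3 : 0 ≤ Real.sinh t := Real.sinh_nonneg_iff.2 h0
  constructor
  · rw [lor_add_left, lor_add_right, lor_add_right, lor_smul_left, lor_smul_right, lor_smul_left,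
      lor_smul_right, lor_smul_left, lor_smul_right, lor_smul_left, lor_smul_right, hx.1, hy.1,
      lor_symm y x]
    have h4 : lor x y = -Real.cosh D := by linarith
    rw [h4]
    have h5 : Real.sinh t ^ 2 + Real.sinh (D - t) ^ 2 +
        2 * Real.sinh t * Real.sinh (D - t) * Real.cosh D = Real.sinh D ^ 2 := by
      have e1 := Real.cosh_sq D
      have e2 := Real.cosh_sq t
      rw [Real.sinh_sub]
      have e3 : Real.sinh t ^ 2 + (Real.sinh D * Real.cosh t - Real.cosh D * Real.sinh t) ^ 2 +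
          2 * Real.sinh t * (Real.sinh D * Real.cosh t - Real.cosh D * Real.sinh t) *
            Real.cosh D = Real.sinh t ^ 2 + Real.sinh D ^ 2 * Real.cosh t ^ 2 -
              Real.cosh D ^ 2 * Real.sinh t ^ 2 := by ring
      rw [e3, e1, e2]
      ring
    field_simp
    linear_combination -h5
  · have h4 : 0 < y 0 := hy.2
    have h5 : 0 < x 0 := hx.2
    show 0 < (Real.sinh t / Real.sinh D) * y 0 + (Real.sinh (D - t) / Real.sinh D) * x 0
    rcases h0.eq_or_lt with h6 | h6
    · rw [← h6, Real.sinh_zero, zero_div, zero_mul, zero_add, sub_zero, div_self hs.ne', one_mul]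
      exact h5
    · have h7 : 0 < Real.sinh t := Real.sinh_pos_iff.2 h6
      have h8 : 0 < (Real.sinh t / Real.sinh D) * y 0 := by positivity
      have h9 : 0 ≤ (Real.sinh (D - t) / Real.sinh D) * x 0 := by positivity
      linarith

namespace Mdl

variable {h : CoxPoly M e} {Δ : Building M C} {mk : C → poly e → X} (m : Mdl h Δ mk)
include m

theorem cosh_dist (c : C) (x : poly e) (c' : C) (y : poly e) :
    Real.cosh (dist (mk c x) (mk c' y)) = -lor (x : Mink d) (h.rep (Δ.δ c c') y) := by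
  rw [m.dist_mk, cosh_hdist x.2.1 (h.rep_mem_Hyp _ y.2.1)]

theorem key [Finite ι] (o q : X) (t : ℝ) (h0 : 0 ≤ t) (h1 : t < dist o q) :
    ∃ z : X, ∀ y, Real.cosh (dist z y) * Real.sinh (dist o q) ≤
      Real.sinh (dist o q - t) * Real.cosh (dist o y) + Real.sinh t * Real.cosh (dist q y) := by
  obtain ⟨c₀, o₀, rfl⟩ := m.surj o
  obtain ⟨c, x₀, rfl⟩ := m.surj q
  set D := dist (mk c₀ o₀) (mk c x₀) with hDdef
  have hD : 0 < D := h0.trans_lt h1
  have hs : 0 < Real.sinh D := Real.sinh_pos_iff.2 hD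
  set y₀ : Mink d := h.rep (Δ.δ c₀ c) x₀ with hy₀
  have hy₀H : y₀ ∈ Hyp d := h.rep_mem_Hyp _ x₀.2.1
  have hcD : -lor (o₀ : Mink d) y₀ = Real.cosh D := by rw [hDdef, m.cosh_dist]
  set a : ℝ := Real.sinh (D - t) / Real.sinh D with ha
  set b : ℝ := Real.sinh t / Real.sinh D with hb
  have ha0 : 0 ≤ a := div_nonneg (Real.sinh_nonneg_iff.2 (by linarith)) hs.le
  have hb0 : 0 ≤ b := div_nonneg (Real.sinh_nonneg_iff.2 h0) hs.le
  set z₀ : Mink d := b • y₀ + a • (o₀ : Mink d) with hz₀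
  have hz₀H : z₀ ∈ Hyp d := combo_mem_hyp o₀.2.1 hy₀H hD hcD h0 h1.le
  have hI : (Int (lorB d) e).Nonempty := by
    obtain ⟨p, -, hp⟩ := h.inter
    exact ⟨p, hp⟩
  have hT : z₀ ∈ TC h.rootBasis := by
    obtain ⟨w, x, hx, hw⟩ := h.cover hz₀H
    exact ⟨w, x, hx.2, hw⟩
  obtain ⟨c', d', hg⟩ := exists_lift (Δ := Δ) h.rootBasis hI c₀ c (v := (x₀ : Mink d)) (y := z₀)
    x₀.2.2 hT (leq_combo M.toCoxeterSystem h.rootBasis (y := y₀) (p := (o₀ : Mink d)) o₀.2.2
      hb0 ha0)
  obtain ⟨hd1, hd2, hd3⟩ := hg c (by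
    rw [(Δ.eq_one c c).2 rfl]
    exact one_mem _)
  have hd2' : h.rep (Δ.δ c₀ c') d' = z₀ := hd2
  have hdH : d' ∈ Hyp d := by
    rw [← h.rep_mem_Hyp_iff (Δ.δ c₀ c'), hd2']
    exact hz₀H
  refine ⟨mk c' ⟨d', hdH, hd1⟩, fun y => ?_⟩
  obtain ⟨f, w, rfl⟩ := m.surj y
  rw [m.cosh_dist, m.cosh_dist, m.cosh_dist]
  set W : Mink d := h.rep (Δ.δ c' f) w with hW
  have e1 : h.rep (Δ.δ c' c₀) y₀ = h.rep (Δ.δ c' c) x₀ := by
    rw [hy₀, hd3.1, h.rep_mul, Δ.δ_symm c₀ c', h.rep_inv_apply]
  have e2 : d' = b • h.rep (Δ.δ c' c) x₀ + a • h.rep (Δ.δ c' c₀) (o₀ : Mink d) := by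
    have e0 : h.rep (Δ.δ c' c₀) z₀ = d' := by
      rw [← hd2', Δ.δ_symm c₀ c', h.rep_inv_apply]
    rw [← e0, hz₀, map_add, map_smul, map_smul, e1]
  have e3 : lor (x₀ : Mink d) (h.rep (Δ.δ c f) w) ≤ lor (h.rep (Δ.δ c' c) x₀) W :=
    retr_le h.rootBasis Δ x₀.2.2 w.2.2 c' c f
  have e4 : lor (o₀ : Mink d) (h.rep (Δ.δ c₀ f) w) ≤ lor (h.rep (Δ.δ c' c₀) o₀) W :=
    retr_le h.rootBasis Δ o₀.2.2 w.2.2 c' c₀ f
  have e5 : lor d' W = b * lor (h.rep (Δ.δ c' c) x₀) W + a * lor (h.rep (Δ.δ c' c₀) o₀) W := by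
    conv_lhs => rw [e2]
    rw [lor_add_left, lor_smul_left, lor_smul_left]
  have e6 := mul_le_mul_of_nonneg_left e3 hb0
  have e7 := mul_le_mul_of_nonneg_left e4 ha0
  have e8 : b * Real.sinh D = Real.sinh t := div_mul_cancel₀ _ hs.ne'
  have e9 : a * Real.sinh D = Real.sinh (D - t) := div_mul_cancel₀ _ hs.ne'
  rw [← e8, ← e9]
  show -lor d' W * Real.sinh D ≤ _
  rw [e5]
  nlinarith

/-- the radial maps -/
noncomputable def rad [Finite ι] (o : X) (t : ℝ) (q : X) : X := by
  classical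
  exact if hq : 0 ≤ t ∧ t < dist o q then (m.key o q t hq.1 hq.2).choose else q

/-- **the comparison inequality** -/
theorem hcat [Finite ι] (o : X) : HCat X o (m.rad o) where
  big t x hx := by
    unfold rad
    rw [dif_neg]
    rintro ⟨-, h2⟩
    exact absurd hx (not_le.2 h2)
  cat t x y h0 h1 := by
    unfold rad
    rw [dif_pos ⟨h0, h1⟩]
    exact (m.key o x t h0 h1).choose_spec y

/-! ### Charts, balls -/

theorem isometry_like (c : C) (x y : poly e) :
    dist (mk c x) (mk c y) = hdist (x : Mink d) y := by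
  rw [m.dist_mk, (Δ.eq_one c c).2 rfl, h.rep_one]

theorem continuous_mk (c : C) : Continuous (mk c) := by
  rw [continuous_iff_continuousAt]
  intro x
  rw [ContinuousAt, tendsto_iff_dist_tendsto_zero]
  have h1 : Continuous fun y : poly e => -lor (y : Mink d) (x : Mink d) :=
    ((continuous_lor_left (x : Mink d)).comp continuous_subtype_val).neg
  have h2 : ∀ y : poly e, dist (mk c y) (mk c x) = Real.arcosh (-lor (y : Mink d) (x : Mink d)) :=
    fun y => m.isometry_like c y x
  simp only [h2]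
  have h3 : Real.arcosh (-lor (x : Mink d) (x : Mink d)) = 0 := hdist_self x.2.1
  rw [← h3]
  have h4 : ContinuousOn Real.arcosh (Ici 1) := Real.continuousOn_arcosh
  have h5 : ContinuousWithinAt Real.arcosh (Ici 1) (-lor (x : Mink d) (x : Mink d)) :=
    h4 _ (one_le_neg_lor x.2.1 x.2.1)
  have h6 : Tendsto (fun y : poly e => -lor (y : Mink d) (x : Mink d)) (𝓝 x)
      (𝓝[Ici 1] (-lor (x : Mink d) (x : Mink d))) :=
    tendsto_nhdsWithin_iff.2 ⟨h1.tendsto x, Eventually.of_forall fun y =>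
      one_le_neg_lor y.2.1 x.2.1⟩
  have h7 := Filter.Tendsto.comp (g := Real.arcosh)
    (f := fun y : poly e => -lor (y : Mink d) (x : Mink d)) h5 h6
  exact h7

theorem injective_mk (c : C) : Function.Injective (mk c) := by
  intro x y hxy
  have h1 := m.isometry_like c x y
  rw [hxy, dist_self] at h1
  exact Subtype.ext (eq_of_hdist x.2.1 y.2.1 h1.symm)

theorem compact_range (c : C) : IsCompact (range (mk c)) := by
  have : CompactSpace (poly e) := isCompact_iff_compactSpace.1 h.compact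
  exact isCompact_range (m.continuous_mk c)

/-- balls are compact, if finitely many chambers meet each ball -/
theorem cpt (hfin : ∀ (o : X) (r : ℝ), {c : C | ∃ x : poly e, dist o (mk c x) ≤ r}.Finite)
    (o : X) (r : ℝ) : IsCompact (closedBall o r) := by
  have h1 : IsCompact (⋃ c ∈ {c : C | ∃ x : poly e, dist o (mk c x) ≤ r}, range (mk c)) :=
    (hfin o r).isCompact_biUnion fun c _ => m.compact_range c
  refine h1.of_isClosed_subset isClosed_closedBall fun q hq => ?_
  obtain ⟨c, x, rfl⟩ := m.surj q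
  rw [mem_closedBall, dist_comm] at hq
  exact mem_biUnion (show c ∈ {c : C | ∃ x : poly e, dist o (mk c x) ≤ r} from ⟨x, hq⟩) ⟨x, rfl⟩

/-- **radial maps at every point** -/
theorem radSp [Finite ι]
    (hfin : ∀ (o : X) (r : ℝ), {c : C | ∃ x : poly e, dist o (mk c x) ≤ r}.Finite) (o : X) :
    RadSp X o (m.rad o) := (m.hcat o).radSp (m.cpt hfin o)

end Mdl

/-- **spheres in the realisation have dimension at most `n`** -/
theorem Mdl.pushOff_sphere {e : ι → Mink (n + 1)} {h : CoxPoly M e} {Δ : Building M C}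
    {mk : C → poly e → X} (m : Mdl h Δ mk)
    (hfin : ∀ (o : X) (r : ℝ), {c : C | ∃ x : poly e, dist o (mk c x) ≤ r}.Finite)
    (o : X) (t : ℝ) : Pool.Agent.Work.MP_017613_gt.PushOff n (sphere o t) := by
  have cS : IsCompact (sphere o t) :=
    (m.cpt hfin o t).of_isClosed_subset isClosed_sphere sphere_subset_closedBall
  set F := {c : C | ∃ x : poly e, dist o (mk c x) ≤ t} with hF
  have : Finite F := (hfin o t).to_subtype
  obtain ⟨c₀, o₀, rfl⟩ := m.surj o
  -- the pieces
  set A : C → Set (poly e) := fun c => {x : poly e | dist (mk c₀ o₀) (mk c x) = t} with hA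
  have hAc : ∀ c, IsCompact (A c) := fun c => by
    have : CompactSpace (poly e) := isCompact_iff_compactSpace.1 h.compact
    exact (isClosed_eq (continuous_const.dist (m.continuous_mk c)) continuous_const).isCompact
  have hAp : ∀ c, Pool.Agent.Work.MP_017613_gt.PushOff n (A c) := fun c => by
    refine pushOff_of_injOn (φ := Subtype.val) (hAc c) continuous_subtype_val.continuousOn
      Subtype.val_injective.injOn ?_
    have ho : h.rep (Δ.δ c₀ c)⁻¹ (o₀ : Mink (n + 1)) ∈ Hyp (n + 1) := h.rep_mem_Hyp _ o₀.2.1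
    refine pushOff_hdist ho ((hAc c).image continuous_subtype_val) (t := t) ?_
    rintro _ ⟨x, hx, rfl⟩
    refine ⟨x.2.1, ?_⟩
    have h1 : dist (mk c₀ o₀) (mk c x) = t := hx
    rw [m.dist_mk] at h1
    rw [← h1, ← h.hdist_rep (Δ.δ c₀ c), h.rep_apply_inv]
  have h2 : ∀ c, Pool.Agent.Work.MP_017613_gt.PushOff n (mk c '' A c) := fun c =>
    (hAp c).image (hAc c) (m.continuous_mk c).continuousOn (m.injective_mk c).injOn
  have h3 : sphere (mk c₀ o₀) t = ⋃ c : F, mk c.1 '' A c.1 := by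
    ext q
    rw [mem_iUnion]
    constructor
    · intro hq
      obtain ⟨c, x, rfl⟩ := m.surj q
      rw [mem_sphere, dist_comm] at hq
      exact ⟨⟨c, x, hq.le⟩, x, hq, rfl⟩
    · rintro ⟨c, x, hx, rfl⟩
      rw [mem_sphere, dist_comm]
      exact hx
  rw [h3]
  exact Pool.Agent.Work.MP_017613_gt.PushOff.iUnion (fun c => h2 c.1) fun c =>
    (hAc c.1).image (m.continuous_mk c.1)

end BD
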