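import Pool.Agent.Work.MP_de2d29_al.XDef
import Pool.Agent.Work.MP_de2d29_al.XRad

/-!
# BUILDING: good panels (block F, piece F8)

* `CoxPoly.exists_beyond`: a point far from the polytope is beyond one of its walls, by a uniform
  amount.
* `lor_cross`: the algebra of a geodesic crossing a wall.
* `shadow_alg`: the geodesic from `o` to a point beyond a good wall passes near the wall point.
-/

set_option autoImplicit false

open Set Real

namespace BD

variable {d : ℕ} {ι : Type} {M : CoxeterMatrix ι} {e : ι → Mink d}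

namespace CoxPoly

/-- uniform bounds for the walls at the points of the polytope -/
theorem exists_wall_bound [Finite ι] (h : CoxPoly M e) :
    ∃ H : ℝ, 0 ≤ H ∧ ∀ x ∈ poly e, ∀ i, -lor x (e i) ≤ H := by
  have h1 : ∀ i, ∃ H : ℝ, ∀ x ∈ poly e, -lor x (e i) ≤ H := fun i => by
    obtain ⟨H, hH⟩ := (h.compact.image (continuous_lor_left (e i)).neg).bddAbove
    exact ⟨H, fun x hx => hH ⟨x, hx, rfl⟩⟩
  choose H hH using h1
  obtain ⟨B, hB⟩ := (Set.finite_range H).bddAbove
  exact ⟨max B 0, le_max_right _ _, fun x hx i =>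
    ((hH i x hx).trans (hB ⟨i, rfl⟩)).trans (le_max_left _ _)⟩

/-- a point which is far from the polytope is beyond one of its walls, by a uniform amount -/
theorem exists_beyond [Finite ι] (h : CoxPoly M e) : ∃ G m : ℝ, 0 < m ∧ ∀ q ∈ Hyp d,
    (∀ x ∈ poly e, G ≤ -lor x q) → ∃ i, m ≤ lor q (e i) := by
  obtain ⟨p₀, hp₀, hint⟩ := h.inter
  obtain ⟨D, hD1, hD⟩ := h.exists_bound
  have hp₀P : p₀ ∈ poly e := ⟨hp₀, fun i => (hint i).le⟩
  obtain ⟨ε, hε, hεi⟩ : ∃ ε : ℝ, 0 < ε ∧ ∀ i, lor p₀ (e i) ≤ -ε := by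
    rcases isEmpty_or_nonempty ι with hι | hι
    · exact ⟨1, one_pos, fun i => (hι.false i).elim⟩
    · obtain ⟨i₀, hi₀⟩ := Finite.exists_max fun i => lor p₀ (e i)
      exact ⟨-lor p₀ (e i₀), by linarith [hint i₀], fun i => by linarith [hi₀ i]⟩
  set μ : ℝ := 1 / (2 * D ^ 2) with hμ
  have hD0 : 0 < D := by linarith
  have hμ0 : 0 < μ := by positivity
  refine ⟨2 * D + 2, ε * μ, by positivity, fun q hq hG => ?_⟩
  by_contra hcon
  push Not at hcon
  have hG0 := hG p₀ hp₀P
  set G := -lor p₀ q with hGdef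
  have hfut : Fut (q + μ • p₀) := (fut_of_hyp hq).add ((fut_of_hyp hp₀).smul hμ0)
  have hx'P : nrm (q + μ • p₀) ∈ poly e := by
    refine nrm_mem_poly ⟨hfut.ne_zero, fun i => ?_⟩ hfut
    rw [lor_add_left, lor_smul_left]
    have h1 := hcon i
    have h2 := mul_le_mul_of_nonneg_left (hεi i) hμ0.le
    nlinarith
  have h1 := hD p₀ hp₀P _ hx'P
  have h2 : lor (q + μ • p₀) (q + μ • p₀) = -(1 + 2 * μ * G + μ ^ 2) := by
    rw [lor_add_left, lor_add_right, lor_add_right, lor_smul_left, lor_smul_right, lor_smul_left,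
      lor_smul_right, hq.1, hp₀.1, lor_symm q p₀, hGdef]
    ring
  have h3 : -lor p₀ (q + μ • p₀) = G + μ := by
    rw [lor_add_right, lor_smul_right, hp₀.1, hGdef]
    ring
  have h4 : -lor p₀ (nrm (q + μ • p₀)) = (√(1 + 2 * μ * G + μ ^ 2))⁻¹ * (G + μ) := by
    rw [nrm, lor_smul_right, h2, neg_neg, ← h3]
    ring
  rw [h4] at h1
  have hG1 : 0 < G := by linarith
  have hpos : 0 < 1 + 2 * μ * G + μ ^ 2 := by positivity
  have hs : 0 < √(1 + 2 * μ * G + μ ^ 2) := Real.sqrt_pos.2 hpos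
  have h5 : G + μ ≤ D * √(1 + 2 * μ * G + μ ^ 2) := by
    rw [inv_mul_le_iff₀ hs] at h1
    linarith
  have h6 : (G + μ) ^ 2 ≤ D ^ 2 * (1 + 2 * μ * G + μ ^ 2) := by
    have h7 := pow_le_pow_left₀ (by positivity) h5 2
    rw [mul_pow, Real.sq_sqrt hpos.le] at h7
    exact h7
  have h7 : D ^ 2 * μ = 1 / 2 := by
    rw [hμ]
    field_simp
  have hμ1 : μ ≤ 1 / 2 := by
    rw [hμ]
    apply div_le_div_of_nonneg_left (by norm_num) (by norm_num)
    nlinarith
  nlinarith [mul_pos hμ0 hG1, mul_pos hμ0 hμ0]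

/-- the same in terms of the distance -/
theorem exists_beyond_dist [Finite ι] (h : CoxPoly M e) : ∃ L : ℕ, 0 < L ∧ ∃ m : ℝ, 0 < m ∧
    ∀ y ∈ poly e, ∀ q ∈ Hyp d, (L : ℝ) ≤ hdist y q → ∃ i, m ≤ lor q (e i) := by
  obtain ⟨G, m, hm, hG⟩ := h.exists_beyond
  obtain ⟨D, hD0, hD⟩ := h.exists_diam
  obtain ⟨L, hL⟩ := exists_nat_ge (max (D + G) 1)
  have hL1 : (1 : ℝ) ≤ L := (le_max_right _ _).trans hL
  refine ⟨L, by exact_mod_cast (lt_of_lt_of_le one_pos hL1), m, hm, fun y hy q hq hLq => ?_⟩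
  refine hG q hq fun x hx => ?_
  have h1 := hdist_triangle hy.1 hx.1 hq
  have h2 := hD y hy x hx
  have h3 : G ≤ hdist x q := by
    have := (le_max_left _ _).trans hL
    linarith
  have h4 := hdist_nonneg hx.1 hq
  rw [← cosh_hdist hx.1 hq]
  have h5 := (self_le_sinh_iff.2 h4).trans (sinh_lt_cosh _).le
  linarith

end CoxPoly

/-! ### A geodesic crossing a wall -/

/-- `T = A + B`, values `f(A) ≤ 0` and `f(A + L) ≥ m` of `f(s) sinh T = sinh (T - s) α + sinh s β` -/
theorem cross_alg {α β t L T m : ℝ} (ht : 0 < t) (hL : 0 < L) (hT : t + L ≤ T) (hm : 0 ≤ m)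
    (h1 : sinh (T - t) * α + sinh t * β ≤ 0)
    (h2 : m * sinh T ≤ sinh (T - (t + L)) * α + sinh (t + L) * β) :
    m * sinh t ≤ -α * sinh L ∧ m * sinh T ≤ sinh (t + L) * β := by
  have sT : 0 < sinh T := sinh_pos_iff.2 (by linarith)
  have st : 0 < sinh t := sinh_pos_iff.2 ht
  have sL : 0 < sinh L := sinh_pos_iff.2 hL
  have stL : 0 < sinh (t + L) := sinh_pos_iff.2 (by linarith)
  have key : sinh (t + L) * sinh (T - t) - sinh t * sinh (T - (t + L)) = sinh T * sinh L := by
    have e1 : T - (t + L) = (T - t) - L := by ring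
    have e2 : sinh T = sinh t * cosh (T - t) + cosh t * sinh (T - t) := by
      rw [← sinh_add]
      congr 1
      ring
    rw [e1, sinh_add t L, sinh_sub (T - t) L, e2]
    ring
  have h3 : m * sinh t ≤ -α * sinh L := by
    have h4 := mul_le_mul_of_nonneg_left h2 st.le
    have h5 := mul_le_mul_of_nonneg_left h1 stL.le
    have h6 : (m * sinh t) * sinh T ≤ (-α * sinh L) * sinh T := by
      have : (-α * sinh L) * sinh T = -α * (sinh (t + L) * sinh (T - t) -
          sinh t * sinh (T - (t + L))) := by rw [key]; ring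
      rw [this]
      nlinarith
    exact le_of_mul_le_mul_right h6 sT
  refine ⟨h3, ?_⟩
  have hα : α ≤ 0 := by
    have : 0 ≤ -α * sinh L := le_trans (by positivity) h3
    by_contra hc
    push Not at hc
    nlinarith
  have h7 : 0 ≤ sinh (T - (t + L)) := sinh_nonneg_iff.2 (by linarith)
  nlinarith [mul_nonneg h7 (neg_nonneg.2 hα)]

theorem lor_geo_mul {x y : Mink d} (hx : x ∈ Hyp d) (hy : y ∈ Hyp d) (hne : x ≠ y) (t : ℝ)
    (a : Mink d) : lor (geo x y t) a * sinh (hdist x y) =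
      sinh (hdist x y - t) * lor x a + sinh t * lor y a := by
  have hs : sinh (hdist x y) ≠ 0 := (sinh_pos_iff.2 (hdist_pos hx hy hne)).ne'
  rw [geo, lor_add_left, lor_smul_left, lor_smul_left]
  field_simp

/-! ### The shadow of a good wall -/

/-- If `a` is a wall with `κ cosh d(o,x) ≤ sinh d(o,a)` and `x` is near the wall, then the broken
geodesic `o, x, q` is almost geodesic for `q` beyond the wall. -/
theorem shadow_alg {o x q a : Mink d} {κ H : ℝ} (ho : o ∈ Hyp d) (hx : x ∈ Hyp d) (hq : q ∈ Hyp d)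
    (ha : lor a a = 1) (hκ : 0 < κ) (hH : 0 ≤ H) (hA : κ * (-lor o x) ≤ -lor o a)
    (hxa : lor x a ≤ 0) (hxH : -lor x a ≤ H) (hqa : 0 ≤ lor q a) :
    κ ^ 2 / (2 * (1 + H * κ)) * (-lor o x) * (-lor x q) ≤ -lor o q := by
  set c : ℝ := κ ^ 2 / (2 * (1 + H * κ)) with hc
  set l : ℝ := -lor o x with hl
  set A : ℝ := -lor o a with hAdef
  have hl1 : 1 ≤ l := one_le_neg_lor ho hx
  have hden : 0 < 2 * (1 + H * κ) := by positivity
  have hc0 : 0 < c := by positivity
  have hA0 : 0 < A := lt_of_lt_of_le (by positivity) hA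
  -- the key estimate
  have hk : 2 * (c * l) * l + 2 * (c * l) * A * H ≤ A ^ 2 := by
    have h1 : (κ * l) ^ 2 ≤ A ^ 2 := pow_le_pow_left₀ (by positivity) hA 2
    have h2 : (κ * l) * A ≤ A * A := mul_le_mul_of_nonneg_right hA hA0.le
    have h3 : (2 * (c * l) * l + 2 * (c * l) * A * H) * (1 + H * κ) =
        (κ * l) ^ 2 + (H * κ) * ((κ * l) * A) := by
      rw [hc]
      field_simp
    have h4 : (2 * (c * l) * l + 2 * (c * l) * A * H) * (1 + H * κ) ≤ A ^ 2 * (1 + H * κ) := by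
      rw [h3]
      have h5 : (H * κ) * ((κ * l) * A) ≤ (H * κ) * (A * A) :=
        mul_le_mul_of_nonneg_left h2 (by positivity)
      nlinarith
    exact le_of_mul_le_mul_right h4 (by positivity)
  set s : ℝ := c * l with hs
  have hs0 : 0 < s := by positivity
  set u : Mink d := o - s • x + A • a with hu
  have e1 : lor o x = -l := by rw [hl]; ring
  have e2 : lor o a = -A := by rw [hAdef]; ring
  have h5 : 2 * s * A * (-lor x a) ≤ 2 * s * A * H :=
    mul_le_mul_of_nonneg_left hxH (by positivity)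
  have huu : lor u u < 0 := by
    have e3 : lor u u = -1 - s ^ 2 + A ^ 2 + 2 * s * l - 2 * A * A + 2 * s * A * (-lor x a) := by
      rw [hu]
      simp only [lor_add_left, lor_add_right, lor_sub_left, lor_sub_right, lor_smul_left,
        lor_smul_right]
      rw [ho.1, hx.1, ha, lor_symm x o, lor_symm a o, lor_symm a x, e1, e2]
      ring
    rw [e3]
    nlinarith [sq_nonneg s]
  have hou : lor o u < 0 := by
    have e4 : lor o u = -1 + s * l - A * A := by
      rw [hu, lor_add_right, lor_sub_right, lor_smul_right, lor_smul_right, ho.1, e1, e2]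
      ring
    rw [e4]
    have h6 : 0 ≤ 2 * s * A * H := by positivity
    nlinarith
  have hFu : Fut u := ⟨huu, Cov.pos_of_lor_neg (Cov.Hyp.le ho) ho.2.le huu hou⟩
  have h7 := hFu.lor_neg (fut_of_hyp hq)
  rw [hu, lor_add_left, lor_sub_left, lor_smul_left, lor_smul_left, lor_symm a q] at h7
  have h8 := mul_nonneg hA0.le hqa
  show s * (-lor x q) ≤ -lor o q
  linarith

end BD
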