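import Pool.Agent.Work.MP_de2d29_al.XDef
import Pool.Agent.Work.MP_de2d29_al.FinCh

/-!
# Half buildings (BUILDING, block F, piece F2)

Panels are given by a chamber `c` and a type `s`; `PanAdj Δ s c c'`: `c'` is a chamber of the panel.
* `X.sd c s x`: the coordinate of `x` orthogonal to the wall of the panel, in the retraction centred
  at `c` (it is `sinh` of the signed distance to the wall, negative on the side of `c`).
* `X.Half c s = {x | sd c s x ≤ 0}`: the points whose projection on the panel is `c`;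
  `X.HalfO c s`: its interior; `X.Wl c s = {x | sd c s x = 0}`: the wall `M` of the panel.
* the halves of the chambers of the panel cover `X`, two of them meet in `M`.
-/

set_option autoImplicit false

open Set Metric Topology Filter
open scoped NNReal ENNReal

namespace BD

/-! ## Hyperbolic estimates -/

section hyp

variable {d : ℕ}

/-- the distance of a point to a hyperplane: if `x`, `y` lie on different sides of the hyperplane
orthogonal to the unit vector `a`, then `lor x a ^ 2 + 1 ≤ (lor x y) ^ 2` -/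
theorem cosh_wall_le {a x y : Mink d} (ha : lor a a = 1) (hx : x ∈ Hyp d) (hy : y ∈ Hyp d)
    (h1 : lor x a ≤ 0) (h2 : 0 ≤ lor y a) : √(1 + lor x a ^ 2) ≤ -lor x y := by
  -- the components orthogonal to `a`
  have hxs : lor (x - lor x a • a) (x - lor x a • a) = -(1 + lor x a ^ 2) := by
    rw [lor_sub_left, lor_sub_right, lor_sub_right, lor_smul_left, lor_smul_right, lor_smul_left,
      lor_smul_right, lor_symm a x, ha, hx.1]
    ring
  have hys : lor (y - lor y a • a) (y - lor y a • a) = -(1 + lor y a ^ 2) := by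
    rw [lor_sub_left, lor_sub_right, lor_sub_right, lor_smul_left, lor_smul_right, lor_smul_left,
      lor_smul_right, lor_symm a y, ha, hy.1]
    ring
  have hxy : lor (x - lor x a • a) (y - lor y a • a) = lor x y - lor x a * lor y a := by
    rw [lor_sub_left, lor_sub_right, lor_sub_right, lor_smul_left, lor_smul_right, lor_smul_left,
      lor_smul_right, lor_symm a y, ha]
    ring
  set x' := x - lor x a • a with hx'
  set y' := y - lor y a • a with hy'
  have hax : 0 < 1 + lor x a ^ 2 := by positivity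
  have hay : 0 < 1 + lor y a ^ 2 := by positivity
  -- `x'`, `y'` are timelike; they are in the same half since they are limits of segments
  have hneg : ∀ u v : Mink d, u ∈ Hyp d → lor v v < 0 → lor u v < 0 → 0 < v 0 := by
    intro u v hu hv huv
    by_contra hc
    push Not at hc
    have hv0 : v 0 ≠ 0 := by
      intro h0
      have : 0 ≤ lor v v := by
        unfold lor
        rw [h0, mul_zero, sub_zero]
        exact Finset.sum_nonneg fun i _ => mul_self_nonneg _
      linarith
    have hF : Fut (-v) := by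
      refine ⟨?_, ?_⟩
      · rw [lor_neg_left, lor_neg_right, neg_neg]
        exact hv
      · show 0 < -v 0
        have := lt_of_le_of_ne hc hv0
        linarith
    have h3 := (fut_of_hyp hu).lor_neg hF
    rw [lor_neg_right] at h3
    linarith
  have fx : Fut x' := by
    refine ⟨by rw [hxs]; linarith, hneg x x' hx (by rw [hxs]; linarith) ?_⟩
    rw [hx', lor_sub_right, lor_smul_right, hx.1]
    nlinarith
  have fy : Fut y' := by
    refine ⟨by rw [hys]; linarith, hneg y y' hy (by rw [hys]; linarith) ?_⟩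
    rw [hy', lor_sub_right, lor_smul_right, hy.1]
    nlinarith
  have h3 := one_le_neg_lor (nrm_mem fx) (nrm_mem fy)
  have h4 : -lor x' y' = √(-lor x' x') * (√(-lor y' y') * -lor (nrm x') (nrm y')) := by
    conv_lhs => rw [← sqrt_smul_nrm fx, ← sqrt_smul_nrm fy]
    rw [lor_smul_left, lor_smul_right]
    ring
  have h5 : 1 ≤ √(-lor y' y') := by
    rw [hys, Real.one_le_sqrt]
    nlinarith [sq_nonneg (lor y a)]
  have h6 : √(1 + lor x a ^ 2) ≤ -lor x' y' := by
    rw [h4, hxs, neg_neg]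
    have h7 : 0 ≤ √(1 + lor x a ^ 2) := Real.sqrt_nonneg _
    have h8 : 1 ≤ √(-lor y' y') * -lor (nrm x') (nrm y') := by nlinarith
    nlinarith
  rw [hxy] at h6
  nlinarith [mul_nonneg (neg_nonneg.2 h1) h2]

/-- a point at distance more than `κ` from a hyperplane: the ball of radius `κ` stays on the side -/
theorem side_of_hdist {a x y : Mink d} (ha : lor a a = 1) (hx : x ∈ Hyp d) (hy : y ∈ Hyp d)
    {κ : ℝ} (hκ : 0 ≤ κ) (h1 : lor x a < -Real.sinh κ) (h2 : hdist x y ≤ κ) : lor y a < 0 := by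
  by_contra hc
  push Not at hc
  have h0 : 0 ≤ Real.sinh κ := Real.sinh_nonneg_iff.2 hκ
  have h3 := cosh_wall_le ha hx hy (by linarith) hc
  rw [← cosh_hdist hx hy] at h3
  have h4 : Real.cosh (hdist x y) ≤ Real.cosh κ := by
    rw [Real.cosh_le_cosh, abs_of_nonneg (hdist_nonneg hx hy), abs_of_nonneg hκ]
    exact h2
  have h5 : Real.cosh κ < √(1 + lor x a ^ 2) := by
    rw [Real.lt_sqrt (Real.cosh_pos κ).le, Real.cosh_sq]
    nlinarith
  linarith

/-- convergence in hyperbolic space -/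
theorem tendsto_of_hdist {T : Type*} {l : Filter T} {f : T → Mink d} {x : Mink d}
    (hx : x ∈ Hyp d) (hf : ∀ t, f t ∈ Hyp d) (h : Tendsto (fun t => hdist x (f t)) l (𝓝 0)) :
    Tendsto f l (𝓝 x) := by
  -- all closed balls are compact, so it is enough to look at cluster points
  have hc : IsCompact {y : Mink d | y ∈ Hyp d ∧ hdist x y ≤ 1} := by
    have h1 : {y : Mink d | y ∈ Hyp d ∧ hdist x y ≤ 1} ⊆
        {y : Mink d | y ∈ Hyp d ∧ y 0 ≤ 2 * x 0 * Real.cosh 1} := by
      rintro y ⟨hy, h2⟩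
      refine ⟨hy, ?_⟩
      have h3 : -lor x y ≤ Real.cosh 1 := by
        rw [← cosh_hdist hx hy, Real.cosh_le_cosh, abs_of_nonneg (hdist_nonneg hx hy), abs_one]
        exact h2
      have h4 := Cov.height_le hx hy
      nlinarith [one_le_time hx, one_le_time hy]
    refine (Cov.isCompact_height _).of_isClosed_subset ?_ h1
    have h5 : {y : Mink d | y ∈ Hyp d ∧ hdist x y ≤ 1} =
        Hyp d ∩ {y | -lor x y ≤ Real.cosh 1} := by
      ext y
      refine and_congr_right fun hy => ?_
      show hdist x y ≤ 1 ↔ -lor x y ≤ Real.cosh 1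
      rw [← cosh_hdist hx hy, Real.cosh_le_cosh, abs_of_nonneg (hdist_nonneg hx hy), abs_one]
    rw [h5]
    exact Cov.isClosed_Hyp.inter (isClosed_le (continuous_lor_right x).neg continuous_const)
  rw [tendsto_iff_ultrafilter]
  intro g hg
  have h6 : Tendsto (fun t => hdist x (f t)) g (𝓝 0) := h.mono_left hg
  have h7 : ∀ᶠ t in (g : Filter T), f t ∈ {y : Mink d | y ∈ Hyp d ∧ hdist x y ≤ 1} := by
    filter_upwards [h6.eventually (gt_mem_nhds one_pos)] with t ht
    exact ⟨hf t, ht.le⟩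
  obtain ⟨y, ⟨hy, -⟩, hgy⟩ := hc.ultrafilter_le_nhds (g.map f) (by
    rw [le_principal_iff]
    exact h7)
  have h8 : Tendsto f g (𝓝 y) := hgy
  have h9 : Tendsto (fun t => -lor x (f t)) g (𝓝 (-lor x y)) :=
    ((continuous_lor_right x).tendsto y).comp h8 |>.neg
  have h10 : Tendsto (fun t => -lor x (f t)) g (𝓝 1) := by
    have := (Real.continuous_cosh.tendsto 0).comp h6
    rw [Real.cosh_zero] at this
    refine this.congr fun t => ?_
    exact cosh_hdist hx (hf t)
  have h11 : -lor x y = 1 := tendsto_nhds_unique h9 h10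
  rw [eq_of_lor_eq hx hy h11]
  exact h8

end hyp

variable {d : ℕ} {ι : Type} {M : CoxeterMatrix ι} {C : Type} {e : ι → Mink d}

/-- `c'` belongs to the `s`-panel of `c` -/
def PanAdj (Δ : Building M C) (s : ι) (c c' : C) : Prop := c = c' ∨ Δ.δ c c' = M.simple s

namespace PanAdj

variable {Δ : Building M C} {s : ι} {a b c : C}

theorem refl (a : C) : PanAdj Δ s a a := Or.inl rfl

theorem symm (h : PanAdj Δ s a b) : PanAdj Δ s b a := by
  rcases h with rfl | h
  · exact Or.inl rfl
  · exact Or.inr (Δ.adj_symm h)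

theorem trans (h : PanAdj Δ s a b) (h' : PanAdj Δ s b c) : PanAdj Δ s a c := by
  rcases h with rfl | h
  · exact h'
  · rcases h' with rfl | h'
    · exact Or.inr h
    · exact Δ.adj_trans h h'

theorem adj (h : PanAdj Δ s a b) (hne : a ≠ b) : Δ.δ a b = M.simple s := h.resolve_left hne

end PanAdj

variable (hP : CoxPoly M e) (Δ : Building M C)

section

variable [Finite ι]

/-- the model -/
theorem X.mdl : Mdl hP Δ (X.mk hP Δ) :=
  ⟨fun q => X.exists_mk hP Δ q, fun c x c' y => X.dist_mk hP Δ c c' x y⟩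

theorem X.continuous_ret (c : C) : Continuous (X.ret hP Δ c) := by
  rw [continuous_iff_continuousAt]
  intro x
  refine tendsto_of_hdist (X.ret_mem hP Δ c x) (fun y => X.ret_mem hP Δ c y) ?_
  refine squeeze_zero (fun y => hdist_nonneg (X.ret_mem hP Δ c x) (X.ret_mem hP Δ c y))
    (fun y => X.hdist_ret_le hP Δ c x y) ?_
  have := (continuous_const (y := x)).dist continuous_id |>.tendsto x
  simpa using this

/-- the coordinate orthogonal to the wall of the panel `s` of `c` -/
noncomputable def X.sd (c : C) (s : ι) (x : X hP Δ) : ℝ := lor (X.ret hP Δ c x) (e s)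

theorem X.continuous_sd (c : C) (s : ι) : Continuous (X.sd hP Δ c s) :=
  (continuous_lor_left (e s)).comp (X.continuous_ret hP Δ c)

theorem X.sd_mk (c : C) (s : ι) (a : C) (y : poly e) :
    X.sd hP Δ c s (X.mk hP Δ a y) = lor (hP.rep (Δ.δ c a) y) (e s) := rfl

/-- the half building of the chamber `c` of the `s`-panel of `c` -/
def X.Half (c : C) (s : ι) : Set (X hP Δ) := {x | X.sd hP Δ c s x ≤ 0}

/-- its interior -/
def X.HalfO (c : C) (s : ι) : Set (X hP Δ) := {x | X.sd hP Δ c s x < 0}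

/-- the wall of the `s`-panel of `c` -/
def X.Wl (c : C) (s : ι) : Set (X hP Δ) := {x | X.sd hP Δ c s x = 0}

theorem X.isClosed_Half (c : C) (s : ι) : IsClosed (X.Half hP Δ c s) :=
  isClosed_le (X.continuous_sd hP Δ c s) continuous_const

theorem X.isOpen_HalfO (c : C) (s : ι) : IsOpen (X.HalfO hP Δ c s) :=
  isOpen_lt (X.continuous_sd hP Δ c s) continuous_const

theorem X.isClosed_Wl (c : C) (s : ι) : IsClosed (X.Wl hP Δ c s) :=
  isClosed_eq (X.continuous_sd hP Δ c s) continuous_const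

variable {hP Δ}

theorem refl_fix {a x : Mink d} (h : lor x a = 0) : refl a x = x := by
  unfold refl
  rw [h, mul_zero, zero_smul, sub_zero]

theorem lor_refl_self {a x : Mink d} (ha : lor a a = 1) : lor (refl a x) a = -lor x a := by
  unfold refl
  rw [lor_sub_left, lor_smul_left, ha]
  ring

/-- change of the central chamber inside a panel, on the half of the old centre -/
theorem X.ret_adj {c c' : C} {s : ι} (h : Δ.δ c c' = M.simple s) {x : X hP Δ}
    (hx : X.sd hP Δ c s x ≤ 0) : X.ret hP Δ c' x = refl (e s) (X.ret hP Δ c x) := by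
  obtain ⟨a, y, rfl⟩ := X.exists_mk hP Δ x
  rw [X.sd_mk] at hx
  rw [X.ret_mk, X.ret_mk]
  have h1 : M.simple s * Δ.δ c a = M.simple s * Δ.δ c a := rfl
  by_cases hd : M.toCoxeterSystem.IsLeftDescent (Δ.δ c a) s
  · have h2 : lor (hP.rep (Δ.δ c a) (y : Mink d)) (e s) = 0 :=
      le_antisymm hx (hP.left_ge y.2.2 hd)
    rw [refl_fix h2]
    rcases Δ.step c' c a s (Δ.adj_symm h) with h3 | h3
    · rw [h3, hP.rep_mul, hP.rep_simple, refl_fix h2]
    · rw [h3]
  · have h2 := Δ.step_up c' c a s (Δ.adj_symm h) (by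
      have h3 := (M.toCoxeterSystem.not_isLeftDescent_iff).1 hd
      rwa [M.toCoxeterSystem_simple] at h3)
    rw [h2, hP.rep_mul, hP.rep_simple]

theorem X.sd_adj {c c' : C} {s : ι} (h : Δ.δ c c' = M.simple s) {x : X hP Δ}
    (hx : X.sd hP Δ c s x ≤ 0) : X.sd hP Δ c' s x = -X.sd hP Δ c s x := by
  unfold X.sd
  rw [X.ret_adj h hx, lor_refl_self (hP.unit s)]

/-- on the other halves nothing changes -/
theorem X.ret_adj_out {c c' : C} {s : ι} (h : Δ.δ c c' = M.simple s) {x : X hP Δ}
    (hx : 0 ≤ X.sd hP Δ c s x) (hx' : 0 ≤ X.sd hP Δ c' s x) :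
    X.ret hP Δ c' x = X.ret hP Δ c x := by
  rcases hx.eq_or_lt with h0 | h0
  · rw [X.ret_adj h h0.ge]
    exact refl_fix h0.symm
  · obtain ⟨a, y, rfl⟩ := X.exists_mk hP Δ x
    rw [X.sd_mk] at h0 hx'
    rw [X.ret_mk, X.ret_mk]
    rcases Δ.step c' c a s (Δ.adj_symm h) with h3 | h3
    · rw [h3, hP.rep_mul, hP.rep_simple, lor_refl_self (hP.unit s)] at hx'
      linarith
    · rw [h3]

theorem X.sd_adj_out {c c' : C} {s : ι} (h : Δ.δ c c' = M.simple s) {x : X hP Δ}
    (hx : 0 ≤ X.sd hP Δ c s x) (hx' : 0 ≤ X.sd hP Δ c' s x) :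
    X.sd hP Δ c' s x = X.sd hP Δ c s x := by
  unfold X.sd
  rw [X.ret_adj_out h hx hx']

/-- every point lies in the half of some chamber of the panel -/
theorem X.exists_half (c : C) (s : ι) (x : X hP Δ) :
    ∃ c', PanAdj Δ s c c' ∧ X.sd hP Δ c' s x ≤ 0 := by
  rcases le_or_gt (X.sd hP Δ c s x) 0 with h0 | h0
  · exact ⟨c, PanAdj.refl c, h0⟩
  · obtain ⟨a, y, rfl⟩ := X.exists_mk hP Δ x
    obtain ⟨c', h1, h2⟩ := Δ.exist c a s
    refine ⟨c', Or.inr (Δ.adj_symm h1), ?_⟩
    rw [X.sd_mk] at h0 ⊢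
    rw [h2, hP.rep_mul, hP.rep_simple, lor_refl_self (hP.unit s)]
    linarith

theorem X.abs_sd {c c' : C} {s : ι} (h : PanAdj Δ s c c') (x : X hP Δ) :
    |X.sd hP Δ c' s x| = |X.sd hP Δ c s x| := by
  rcases h with rfl | h
  · rfl
  rcases le_total (X.sd hP Δ c s x) 0 with h0 | h0
  · rw [X.sd_adj h h0, abs_neg]
  · rcases le_total (X.sd hP Δ c' s x) 0 with h1 | h1
    · rw [X.sd_adj (Δ.adj_symm h) h1, abs_neg]
    · rw [X.sd_adj_out h h0 h1]

theorem X.sd_eq_zero_iff {c c' : C} {s : ι} (h : PanAdj Δ s c c') (x : X hP Δ) :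
    X.sd hP Δ c' s x = 0 ↔ X.sd hP Δ c s x = 0 := by
  rw [← abs_eq_zero, X.abs_sd h x, abs_eq_zero]

/-- the wall of a panel -/
theorem X.Wl_eq {c c' : C} {s : ι} (h : PanAdj Δ s c c') : X.Wl hP Δ c' s = X.Wl hP Δ c s :=
  Set.ext fun x => X.sd_eq_zero_iff h x

/-- if a point is in the open half of `c'`, then its coordinate for another chamber is positive -/
theorem X.sd_pos_of_neg {c c' : C} {s : ι} (h : PanAdj Δ s c c') (hne : c ≠ c') {x : X hP Δ}
    (hx : X.sd hP Δ c' s x < 0) : 0 < X.sd hP Δ c s x := by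
  rw [X.sd_adj (Δ.adj_symm (h.adj hne)) hx.le]
  linarith

theorem X.sd_eq_neg {c c' : C} {s : ι} (h : PanAdj Δ s c c') (hne : c ≠ c') {x : X hP Δ}
    (hx : X.sd hP Δ c' s x ≤ 0) : X.sd hP Δ c s x = -X.sd hP Δ c' s x :=
  X.sd_adj (Δ.adj_symm (h.adj hne)) hx

/-- the open halves are disjoint -/
theorem X.eq_of_sd_neg {c c' : C} {s : ι} (h : PanAdj Δ s c c') {x : X hP Δ}
    (hx : X.sd hP Δ c s x < 0) (hx' : X.sd hP Δ c' s x < 0) : c = c' := by
  by_contra hne
  exact absurd (X.sd_pos_of_neg h hne hx') (not_lt.2 hx.le)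

/-- a point off the wall lies in an open half -/
theorem X.exists_halfO (c : C) (s : ι) {x : X hP Δ} (hx : X.sd hP Δ c s x ≠ 0) :
    ∃ c', PanAdj Δ s c c' ∧ X.sd hP Δ c' s x < 0 := by
  obtain ⟨c', h1, h2⟩ := X.exists_half c s x
  refine ⟨c', h1, lt_of_le_of_ne h2 fun h3 => hx ?_⟩
  rwa [X.sd_eq_zero_iff h1] at h3

/-- a ball around a point far from the wall stays in the half -/
theorem X.sd_neg_of_dist {c : C} {s : ι} {x y : X hP Δ} {κ : ℝ} (hκ : 0 ≤ κ)
    (hx : X.sd hP Δ c s x < -Real.sinh κ) (hxy : dist x y ≤ κ) : X.sd hP Δ c s y < 0 :=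
  side_of_hdist (hP.unit s) (X.ret_mem hP Δ c x) (X.ret_mem hP Δ c y) hκ hx
    ((X.hdist_ret_le hP Δ c x y).trans hxy)

end

end BD
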