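import Pool.Agent.Work.MP_de2d29_al.GoodP
import Pool.Agent.Work.MP_de2d29_al.HalfDef

/-!
# BUILDING: covering by good panels, shadow bound (block F, piece F8)

* `X.exists_gate`: the gate chamber of a point of a geodesic issuing from the chamber `c₀`.
* `X.exists_good`: for every ray `z` and every time `t ≥ 1` there is a panel of a chamber at
  `z t`, whose wall is crossed by the ray within time `L`, at an angle bounded from below.
* `X.shadow`: the points beyond the wall of a good panel lie in the shadow of a ball.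
* `X.good_panels`: both together.
-/

set_option autoImplicit false

open Set Metric Topology Filter
open Pool.Agent.Work.MP_de2d29_al RootBasis

namespace BD

variable {d : ℕ} {ι C : Type} {M : CoxeterMatrix ι} {e : ι → Mink d}

section

variable {hP : CoxPoly M e} {Δ : Building M C}

theorem par_eq_parab {J : Set ι} {w : M.Group} : w ∈ Building.Par M J ↔ w ∈ parab M J := Iff.rfl

variable [Finite ι]

/-- the gate chamber of a point of a geodesic -/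
theorem X.exists_gate {c₀ : C} {x₀ : poly e} {p : ℝ → X hP Δ → X hP Δ}
    (hr : RadSp (X hP Δ) (X.mk hP Δ c₀ x₀) p) {t : ℝ} {q : X hP Δ} (h0 : 0 ≤ t)
    (h1 : t < dist (X.mk hP Δ c₀ x₀) q) :
    ∃ c x, X.mk hP Δ c x = p t q ∧ Δ.IsProj (walls (lorB d) e (x : Mink d)) c₀ c ∧
      (∀ c' y, X.mk hP Δ c' y = q → Δ.Btw c₀ c c') ∧
      X.ret hP Δ c₀ (p t q) = geo x₀ (X.ret hP Δ c₀ q) t := by
  obtain ⟨c', y, rfl⟩ := X.exists_mk hP Δ q
  set D := dist (X.mk hP Δ c₀ x₀) (X.mk hP Δ c' y) with hDdef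
  have hD : 0 < D := h0.trans_lt h1
  set y₀ : Mink d := hP.rep (Δ.δ c₀ c') y with hy₀
  have hy₀H : y₀ ∈ Hyp d := hP.rep_mem_Hyp _ y.2.1
  have hDh : hdist (x₀ : Mink d) y₀ = D := by rw [hDdef, X.dist_mk]
  have hne : (x₀ : Mink d) ≠ y₀ := by
    intro h
    rw [← h, hdist_self x₀.2.1] at hDh
    linarith
  set z₀ : Mink d := geo x₀ y₀ t with hz₀
  have hz₀H : z₀ ∈ Hyp d := geo_mem x₀.2.1 hy₀H hne h0 (by rw [hDh]; exact h1.le)
  have hI : (Int (lorB d) e).Nonempty := by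
    obtain ⟨p, -, hp⟩ := hP.inter
    exact ⟨p, hp⟩
  have hT : z₀ ∈ TC hP.rootBasis := by
    obtain ⟨w, x, hx, hw⟩ := hP.cover hz₀H
    exact ⟨w, x, hx.2, hw⟩
  have hs : 0 < Real.sinh D := Real.sinh_pos_iff.2 hD
  have ha0 : 0 ≤ Real.sinh (D - t) / Real.sinh D :=
    div_nonneg (Real.sinh_nonneg_iff.2 (by linarith)) hs.le
  have hb0 : 0 ≤ Real.sinh t / Real.sinh D := div_nonneg (Real.sinh_nonneg_iff.2 h0) hs.le
  have hleq : Leq M.toCoxeterSystem hP.rootBasis z₀ y₀ := by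
    have h2 := leq_combo M.toCoxeterSystem hP.rootBasis (y := y₀) (p := (x₀ : Mink d)) x₀.2.2
      hb0 ha0
    have h3 : z₀ = (Real.sinh t / Real.sinh D) • y₀ +
        (Real.sinh (D - t) / Real.sinh D) • (x₀ : Mink d) := by
      rw [hz₀, geo, hDh, add_comm]
    rwa [h3]
  obtain ⟨c'', d', hg⟩ := exists_lift (Δ := Δ) hP.rootBasis hI c₀ c' (v := (y : Mink d))
    (y := z₀) y.2.2 hT hleq
  obtain ⟨c, hc1, hc2⟩ := Δ.exists_proj (walls (lorB d) e d') c₀ c''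
  obtain ⟨hd1, hd2, hd3⟩ := hg c' (Δ.res_self c')
  have hb : Δ.Btw c₀ c c' := (hc2.btw hc1).trans₂ hd3
  have hd2' : hP.rep (Δ.δ c₀ c) d' = z₀ := by
    have h3 : act hP.rootBasis (Δ.δ c₀ c'') d' = act hP.rootBasis (Δ.δ c₀ c) d' := by
      rw [(hc2.btw hc1).1, act_mul, act_par hP.rootBasis hc1]
    rw [h3] at hd2
    exact hd2
  have hdH : d' ∈ Hyp d := by
    rw [← hP.rep_mem_Hyp_iff (Δ.δ c₀ c), hd2']
    exact hz₀H
  have hdP : d' ∈ poly e := ⟨hdH, hd1⟩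
  have hdist1 : dist (X.mk hP Δ c₀ x₀) (X.mk hP Δ c ⟨d', hdP⟩) = t := by
    rw [X.dist_mk]
    show hdist (x₀ : Mink d) (hP.rep (Δ.δ c₀ c) d') = t
    rw [hd2', hz₀, hdist_geo_left x₀.2.1 hy₀H hne h0]
  have hdist2 : dist (X.mk hP Δ c ⟨d', hdP⟩) (X.mk hP Δ c' y) = D - t := by
    rw [X.dist_mk]
    show hdist d' (hP.rep (Δ.δ c c') y) = D - t
    rw [← hP.hdist_rep (Δ.δ c₀ c), ← hP.rep_mul, ← hb.1, hd2', ← hy₀, hz₀,
      hdist_geo_right x₀.2.1 hy₀H hne (by rw [hDh]; exact h1.le), hDh]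
  have hpt : X.mk hP Δ c ⟨d', hdP⟩ = p t (X.mk hP Δ c' y) := by
    have h3 := hr.uniq (X.mk hP Δ c' y) (X.mk hP Δ c ⟨d', hdP⟩) (by
      rw [hdist1, hdist2]
      ring)
    rwa [hdist1] at h3
  refine ⟨c, ⟨d', hdP⟩, hpt, hc2, ?_, ?_⟩
  · intro c₂ y₂ h2
    have h3 := (X.mk_eq_iff hP Δ c₂ c' y₂ y).1 h2
    have h4 : Δ.δ c' c₂ ∈ Building.Par M (walls (lorB d) e (y : Mink d)) := by
      apply Δ.res_symm
      have h5 := h3.2
      rw [h3.1] at h5
      exact h5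
    exact (hc2.btw hc1).trans₂ (hg c₂ h4).2.2
  · rw [← hpt, X.ret_mk, X.ret_mk]
    exact hd2'

/-- the gate chamber is unique -/
theorem X.gate_unique {c₀ c c' : C} {x x' : poly e}
    (h : Δ.IsProj (walls (lorB d) e (x : Mink d)) c₀ c)
    (h' : Δ.IsProj (walls (lorB d) e (x' : Mink d)) c₀ c')
    (heq : X.mk hP Δ c x = X.mk hP Δ c' x') : c = c' ∧ x = x' := by
  obtain ⟨h1, h2⟩ := (X.mk_eq_iff hP Δ c c' x x').1 heq
  have h3 : x = x' := Subtype.ext h1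
  subst h3
  exact ⟨h.unique h' h2, rfl⟩

/-- beyond the gate the retractions are related by the group -/
theorem X.ret_of_btw {c₀ c : C} {q : X hP Δ} (h : ∀ c' y, X.mk hP Δ c' y = q → Δ.Btw c₀ c c') :
    hP.rep (Δ.δ c₀ c) (X.ret hP Δ c q) = X.ret hP Δ c₀ q := by
  obtain ⟨c', y, hq⟩ := X.exists_mk hP Δ q
  have h1 := h c' y hq
  rw [← hq, X.ret_mk, X.ret_mk, h1.1, hP.rep_mul]

end

/-- the gates along a ray -/
theorem X.gate_ray [Finite ι] {hP : CoxPoly M e} {Δ : Building M C} {c₀ : C} {x₀ : poly e}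
    {p : ℝ → X hP Δ → X hP Δ} (hr : RadSp (X hP Δ) (X.mk hP Δ c₀ x₀) p)
    {z : XHat (X.mk hP Δ c₀ x₀) p} (hz : z ∈ HBdry (X.mk hP Δ c₀ x₀) p) (t : ℕ) :
    ∃ c x, X.mk hP Δ c x = z.1 t ∧ ∀ N : ℕ, t < N →
      (∀ c' y, X.mk hP Δ c' y = z.1 N → Δ.Btw c₀ c c') ∧
      X.ret hP Δ c₀ (z.1 t) = geo x₀ (X.ret hP Δ c₀ (z.1 N)) t := by
  have hg : ∀ N : ℕ, t < N → ∃ c x, X.mk hP Δ c x = z.1 t ∧
      Δ.IsProj (walls (lorB d) e (x : Mink d)) c₀ c ∧
      (∀ c' y, X.mk hP Δ c' y = z.1 N → Δ.Btw c₀ c c') ∧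
      X.ret hP Δ c₀ (z.1 t) = geo x₀ (X.ret hP Δ c₀ (z.1 N)) t := by
    intro N hN
    obtain ⟨c, x, h1, h2, h3, h4⟩ := X.exists_gate hr (t := (t : ℝ)) (q := z.1 N)
      (Nat.cast_nonneg t) (by rw [hz N]; exact_mod_cast hN)
    rw [hr.coord_min hN.le z] at h1 h4
    exact ⟨c, x, h1, h2, h3, h4⟩
  obtain ⟨c, x, h1, h2, -, -⟩ := hg (t + 1) (Nat.lt_succ_self t)
  refine ⟨c, x, h1, fun N hN => ?_⟩
  obtain ⟨c', x', h1', h2', h3', h4'⟩ := hg N hN
  obtain ⟨rfl, rfl⟩ := X.gate_unique h2 h2' (h1.trans h1'.symm)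
  exact ⟨h3', h4'⟩

/-- **Covering by good panels** -/
theorem X.exists_good [Finite ι] (hP : CoxPoly M e) : ∃ L : ℕ, ∃ κ m : ℝ, 0 < κ ∧ 0 < m ∧
    ∀ (C : Type) (Δ : Building M C) (c₀ : C) (x₀ : poly e) (p : ℝ → X hP Δ → X hP Δ)
      (_ : RadSp (X hP Δ) (X.mk hP Δ c₀ x₀) p) (z : XHat (X.mk hP Δ c₀ x₀) p),
      z ∈ HBdry (X.mk hP Δ c₀ x₀) p → ∀ t : ℕ, 1 ≤ t → ∃ c x i, X.mk hP Δ c x = z.1 t ∧
        κ * (-lor (x₀ : Mink d) (hP.rep (Δ.δ c₀ c) x)) ≤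
          -lor (x₀ : Mink d) (hP.rep (Δ.δ c₀ c) (e i)) ∧
        ∀ N : ℕ, t + L ≤ N → m * Real.sinh N ≤ Real.sinh (t + L) * X.sd hP Δ c i (z.1 N) := by
  obtain ⟨L, hL, m, hm, hB⟩ := hP.exists_beyond_dist
  have hL' : (0 : ℝ) < L := by exact_mod_cast hL
  have sL : 0 < Real.sinh (L : ℝ) := Real.sinh_pos_iff.2 hL'
  refine ⟨L, m / (2 * Real.sinh L), m, by positivity, hm, ?_⟩
  intro C Δ c₀ x₀ p hr z hz t ht
  have ht' : (1 : ℝ) ≤ t := by exact_mod_cast ht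
  have ht0 : (0 : ℝ) < t := by linarith
  obtain ⟨c, x, hx, hg⟩ := X.gate_ray hr hz t
  set w := Δ.δ c₀ c with hw
  have hret : ∀ N : ℕ, t < N → hP.rep w (X.ret hP Δ c (z.1 N)) = X.ret hP Δ c₀ (z.1 N) :=
    fun N hN => X.ret_of_btw (hg N hN).1
  have htL : t < t + L := Nat.lt_add_of_pos_right hL
  -- the wall
  have hmv := hr.dist_pr (s := (t : ℝ)) (t := ((t + L : ℕ) : ℝ)) (Nat.cast_nonneg _)
    (Nat.cast_nonneg _) z
  have hdL : (L : ℝ) ≤ hdist (x : Mink d) (X.ret hP Δ c (z.1 (t + L))) := by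
    rw [← X.dist_eq_ret, hx]
    have h1 := hz t
    have h2 := hz (t + L)
    have h3 := dist_triangle (X.mk hP Δ c₀ x₀) (z.1 t) (z.1 (t + L))
    rw [h1, h2] at h3
    push_cast at h3
    linarith
  obtain ⟨i, hi⟩ := hB x x.2 _ (X.ret_mem hP Δ c _) hdL
  refine ⟨c, x, i, hx, ?_⟩
  -- crossing
  have hcross : ∀ N : ℕ, t + L ≤ N →
      m * Real.sinh t ≤ -lor (x₀ : Mink d) (hP.rep w (e i)) * Real.sinh L ∧
      m * Real.sinh N ≤ Real.sinh (t + L) * X.sd hP Δ c i (z.1 N) := by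
    intro N hN
    have hN0 : (0 : ℝ) < N := by
      have : t < N := htL.trans_le hN
      have : (t : ℝ) < N := by exact_mod_cast this
      linarith
    set rN := X.ret hP Δ c₀ (z.1 N) with hrN
    have hrNH : rN ∈ Hyp d := X.ret_mem hP Δ c₀ _
    have hdN : hdist (x₀ : Mink d) rN = N := by
      rw [hrN, ← X.dist_eq_ret, hz N]
    have hne : (x₀ : Mink d) ≠ rN := by
      intro h
      rw [← h, hdist_self x₀.2.1] at hdN
      linarith
    have e1 : X.ret hP Δ c₀ (z.1 t) = geo x₀ rN t := (hg N (htL.trans_le hN)).2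
    have e2 : X.ret hP Δ c₀ (z.1 (t + L)) = geo x₀ rN ((t : ℝ) + L) := by
      rcases hN.eq_or_lt with h | h
      · have h3 : (t : ℝ) + L = hdist (x₀ : Mink d) rN := by rw [hdN, ← h]; push_cast; ring
        rw [h3, geo_end x₀.2.1 hrNH hne, hrN, h]
      · obtain ⟨c', x', hx', hg'⟩ := X.gate_ray hr hz (t + L)
        have h3 := (hg' N h).2
        push_cast at h3
        exact h3
    have f1 := lor_geo_mul x₀.2.1 hrNH hne (t : ℝ) (hP.rep w (e i))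
    have f2 := lor_geo_mul x₀.2.1 hrNH hne ((t : ℝ) + L) (hP.rep w (e i))
    rw [← e1, hdN] at f1
    rw [← e2, hdN, ← hret _ htL, hP.lor_rep] at f2
    have g1 : lor (X.ret hP Δ c₀ (z.1 t)) (hP.rep w (e i)) ≤ 0 := by
      rw [← hx, X.ret_mk, hP.lor_rep]
      exact x.2.2 i
    have hsN : 0 < Real.sinh (N : ℝ) := Real.sinh_pos_iff.2 hN0
    have hsd : X.sd hP Δ c i (z.1 N) = lor rN (hP.rep w (e i)) := by
      rw [hrN, ← hret N (htL.trans_le hN), hP.lor_rep]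
      rfl
    rw [hsd]
    refine cross_alg ht0 hL' ?_ hm.le ?_ ?_
    · exact_mod_cast hN
    · rw [← f1]
      exact mul_nonpos_of_nonpos_of_nonneg g1 hsN.le
    · rw [← f2]
      exact mul_le_mul_of_nonneg_right hi hsN.le
  refine ⟨?_, fun N hN => (hcross N hN).2⟩
  have h1 := (hcross (t + L) le_rfl).1
  have h2 : -lor (x₀ : Mink d) (hP.rep w x) = Real.cosh t := by
    rw [← cosh_hdist x₀.2.1 (hP.rep_mem_Hyp _ x.2.1), hw, ← X.dist_mk hP Δ, hx, hz t]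
  rw [h2]
  have h3 : Real.cosh (t : ℝ) ≤ 2 * Real.sinh t := by
    have h4 : (t : ℝ) ≤ Real.sinh t := Real.self_le_sinh_iff.2 ht0.le
    have h5 : Real.cosh (t : ℝ) - Real.sinh t = Real.exp (-t) := Real.cosh_sub_sinh _
    have h6 : Real.exp (-(t : ℝ)) ≤ 1 := Real.exp_le_one_iff.2 (by linarith)
    linarith
  rw [div_mul_eq_mul_div, div_le_iff₀ (by positivity)]
  have h4 := mul_le_mul_of_nonneg_left h3 hm.le
  nlinarith

/-- **The shadow bound** -/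
theorem X.shadow [Finite ι] (hP : CoxPoly M e) {κ : ℝ} (hκ : 0 < κ) : ∃ R : ℝ,
    ∀ (C : Type) (Δ : Building M C) (c₀ : C) (x₀ : poly e) (p : ℝ → X hP Δ → X hP Δ)
      (_ : HCat (X hP Δ) (X.mk hP Δ c₀ x₀) p) (c : C) (x : poly e) (i : ι) (q : X hP Δ),
      κ * (-lor (x₀ : Mink d) (hP.rep (Δ.δ c₀ c) x)) ≤
          -lor (x₀ : Mink d) (hP.rep (Δ.δ c₀ c) (e i)) →
      1 ≤ dist (X.mk hP Δ c₀ x₀) q →
      dist (X.mk hP Δ c₀ x₀) (X.mk hP Δ c x) ≤ dist (X.mk hP Δ c₀ x₀) q →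
      0 ≤ X.sd hP Δ c i q →
      dist (p (dist (X.mk hP Δ c₀ x₀) (X.mk hP Δ c x)) q) (X.mk hP Δ c x) ≤ R := by
  obtain ⟨H, hH0, hH⟩ := hP.exists_wall_bound
  set k : ℝ := κ ^ 2 / (2 * (1 + H * κ)) with hk
  have hk0 : 0 < k := by positivity
  refine ⟨1 + 2 / k, ?_⟩
  intro C Δ c₀ x₀ p hc c x i q hgood hD1 hTD hsd
  set w := Δ.δ c₀ c with hw
  set T := dist (X.mk hP Δ c₀ x₀) (X.mk hP Δ c x) with hT
  set D := dist (X.mk hP Δ c₀ x₀) q with hD
  -- the retraction to the chamber of the panel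
  have ho : X.ret hP Δ c (X.mk hP Δ c₀ x₀) = hP.rep w⁻¹ x₀ := by
    rw [X.ret_mk, Δ.δ_symm c₀ c]
  have h1 := shadow_alg (o := X.ret hP Δ c (X.mk hP Δ c₀ x₀)) (x := (x : Mink d))
    (q := X.ret hP Δ c q) (a := e i) (κ := κ) (H := H) (X.ret_mem hP Δ c _) x.2.1
    (X.ret_mem hP Δ c _) (hP.unit i) hκ hH0 (by
      rw [ho, hP.lor_rep_left, hP.lor_rep_left, inv_inv]
      exact hgood) (x.2.2 i) (hH x x.2 i) hsd
  have e1 : -lor (X.ret hP Δ c (X.mk hP Δ c₀ x₀)) (x : Mink d) = Real.cosh T := by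
    rw [hT, dist_comm, X.dist_eq_ret, cosh_hdist x.2.1 (X.ret_mem hP Δ c _), lor_symm]
  have e2 : -lor (x : Mink d) (X.ret hP Δ c q) = Real.cosh (dist q (X.mk hP Δ c x)) := by
    rw [dist_comm, X.dist_eq_ret, cosh_hdist x.2.1 (X.ret_mem hP Δ c _)]
  have e3 : -lor (X.ret hP Δ c (X.mk hP Δ c₀ x₀)) (X.ret hP Δ c q) ≤ Real.cosh D := by
    rw [← cosh_hdist (X.ret_mem hP Δ c _) (X.ret_mem hP Δ c _), Real.cosh_le_cosh,
      abs_of_nonneg (hdist_nonneg (X.ret_mem hP Δ c _) (X.ret_mem hP Δ c _)),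
      abs_of_nonneg dist_nonneg]
    exact X.hdist_ret_le hP Δ c _ _
  rw [e1, e2, ← hk] at h1
  have h2 : k * Real.cosh T * Real.cosh (dist q (X.mk hP Δ c x)) ≤ Real.cosh D := h1.trans e3
  have hT0 : 0 ≤ T := dist_nonneg
  have le_cosh : ∀ a : ℝ, 0 ≤ a → a ≤ Real.cosh a := fun a ha =>
    (Real.self_le_sinh_iff.2 ha).trans (Real.sinh_lt_cosh a).le
  refine (le_cosh _ dist_nonneg).trans ?_
  rcases hTD.eq_or_lt with h3 | h3
  · rw [hc.big T q h3.ge]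
    rw [h3] at h2
    have h4 : k * Real.cosh (dist q (X.mk hP Δ c x)) ≤ 1 := by
      have h5 := Real.cosh_pos D
      have h6 : (k * Real.cosh (dist q (X.mk hP Δ c x))) * Real.cosh D ≤ 1 * Real.cosh D := by
        linarith
      exact le_of_mul_le_mul_right h6 h5
    have h5 : Real.cosh (dist q (X.mk hP Δ c x)) ≤ 1 / k := by
      rw [le_div_iff₀ hk0]
      linarith
    have h6 : 1 / k ≤ 2 / k := div_le_div_of_nonneg_right (by norm_num) hk0.le
    linarith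
  · have h4 := hc.cat T q (X.mk hP Δ c x) hT0 h3
    rw [← hT, ← hD] at h4
    have sD : 0 < Real.sinh D := Real.sinh_pos_iff.2 (by linarith)
    have sT : 0 ≤ Real.sinh T := Real.sinh_nonneg_iff.2 hT0
    have h5 : Real.sinh T * Real.cosh (dist q (X.mk hP Δ c x)) ≤ Real.cosh D / k := by
      rw [le_div_iff₀ hk0]
      have h6 := (Real.sinh_lt_cosh T).le
      have h7 := Real.cosh_pos (dist q (X.mk hP Δ c x))
      have h8 := mul_le_mul_of_nonneg_right h6 (mul_pos hk0 h7).le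
      linarith
    have h6 : Real.sinh (D - T) * Real.cosh T ≤ Real.sinh D := by
      have h7 : Real.sinh D = Real.sinh (D - T) * Real.cosh T +
          Real.cosh (D - T) * Real.sinh T := by
        rw [← Real.sinh_add]
        congr 1
        ring
      have h8 := mul_nonneg (Real.cosh_pos (D - T)).le sT
      linarith
    have h7 : Real.cosh D ≤ 2 * Real.sinh D := by
      have h8 : D ≤ Real.sinh D := Real.self_le_sinh_iff.2 (by linarith)
      have h9 : Real.cosh D - Real.sinh D = Real.exp (-D) := Real.cosh_sub_sinh _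
      have h10 : Real.exp (-D) ≤ 1 := Real.exp_le_one_iff.2 (by linarith)
      linarith
    have h8 : Real.cosh D / k ≤ 2 * Real.sinh D / k := div_le_div_of_nonneg_right h7 hk0.le
    have h9 : Real.cosh (dist (p T q) (X.mk hP Δ c x)) * Real.sinh D ≤
        (1 + 2 / k) * Real.sinh D := by
      have h10 : (1 + 2 / k) * Real.sinh D = Real.sinh D + 2 * Real.sinh D / k := by ring
      rw [h10]
      linarith
    exact le_of_mul_le_mul_right h9 sD

/-- **Good panels**: for every ray `z` and every time `t` there is a panel whose wall is crossed by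
the ray, such that all rays which are beyond the wall are close to `z` at the time `t`. -/
theorem X.good_panels [Finite ι] (hP : CoxPoly M e) : ∃ R : ℝ,
    ∀ (C : Type) (Δ : Building M C) (c₀ : C) (x₀ : poly e) (p : ℝ → X hP Δ → X hP Δ)
      (_ : RadSp (X hP Δ) (X.mk hP Δ c₀ x₀) p) (_ : HCat (X hP Δ) (X.mk hP Δ c₀ x₀) p)
      (z : XHat (X.mk hP Δ c₀ x₀) p), z ∈ HBdry (X.mk hP Δ c₀ x₀) p → ∀ t : ℕ,
      ∃ (c : C) (i : ι), X.sd hP Δ c i (X.mk hP Δ c₀ x₀) < 0 ∧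
        Tendsto (fun N : ℕ => X.sd hP Δ c i (z.1 N)) atTop atTop ∧
        ∀ z' ∈ HBdry (X.mk hP Δ c₀ x₀) p, (∃ᶠ N : ℕ in atTop, 0 ≤ X.sd hP Δ c i (z'.1 N)) →
          dist (z'.1 t) (z.1 t) ≤ R := by
  obtain ⟨L, κ, m, hκ, hm, hG⟩ := X.exists_good hP
  obtain ⟨R, hR⟩ := X.shadow hP hκ
  refine ⟨max R 0, ?_⟩
  intro C Δ c₀ x₀ p hr hc z hz t
  obtain ⟨c, x, i, hx, hgood, hN⟩ := hG C Δ c₀ x₀ p hr z hz (max t 1) (le_max_right _ _)
  set T := max t 1 with hTdef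
  refine ⟨c, i, ?_, ?_, ?_⟩
  · have h1 : X.sd hP Δ c i (X.mk hP Δ c₀ x₀) = lor (x₀ : Mink d) (hP.rep (Δ.δ c₀ c) (e i)) := by
      rw [X.sd_mk, Δ.δ_symm c₀ c, hP.lor_rep_left, inv_inv]
    rw [h1]
    have h2 := one_le_neg_lor x₀.2.1 (hP.rep_mem_Hyp (Δ.δ c₀ c) x.2.1)
    have h3 : κ ≤ κ * (-lor (x₀ : Mink d) (hP.rep (Δ.δ c₀ c) x)) :=
      le_mul_of_one_le_right hκ.le h2
    linarith
  · have hS : 0 < Real.sinh ((T : ℝ) + L) := Real.sinh_pos_iff.2 (by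
      have h1 : (1 : ℝ) ≤ T := by exact_mod_cast le_max_right t 1
      have h2 : (0 : ℝ) ≤ L := Nat.cast_nonneg L
      linarith)
    have h1 : Tendsto (fun N : ℕ => m / Real.sinh ((T : ℝ) + L) * (N : ℝ)) atTop atTop :=
      tendsto_natCast_atTop_atTop.const_mul_atTop (by positivity)
    refine tendsto_atTop_mono' _ ?_ h1
    filter_upwards [eventually_ge_atTop (T + L)] with N hNL
    have h2 := hN N hNL
    have h3 : (N : ℝ) ≤ Real.sinh N := Real.self_le_sinh_iff.2 (Nat.cast_nonneg N)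
    rw [div_mul_eq_mul_div, div_le_iff₀ hS]
    have h4 := mul_le_mul_of_nonneg_left h3 hm.le
    linarith
  · intro z' hz' hfr
    obtain ⟨N, h1, h2⟩ := (hfr.and_eventually (eventually_ge_atTop T)).exists
    have hN1 : 1 ≤ N := (le_max_right t 1).trans h2
    have hdT : dist (X.mk hP Δ c₀ x₀) (X.mk hP Δ c x) = T := by rw [hx, hz T]
    have h3 := hR C Δ c₀ x₀ p hc c x i (z'.1 N) hgood (by rw [hz' N]; exact_mod_cast hN1)
      (by rw [hdT, hz' N]; exact_mod_cast h2) h1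
    rw [hdT, hr.coord_min h2 z', hx] at h3
    -- from the time `T` to the time `t`
    have ht : t ≤ T := le_max_left t 1
    have h4 := hr.lip (t : ℝ) (z'.1 T) (z.1 T) (Nat.cast_nonneg t)
    rw [hr.coord_min ht z', hr.coord_min ht z] at h4
    exact (h4.trans h3).trans (le_max_left _ _)

end BD
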