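import Pool.Agent.Work.MP_de2d29_al.HalfB
import Pool.Agent.Work.MP_de2d29_al.FoldAbs

/-!
# Half buildings: the starting map of the folding (block F, piece F2)

* `X.small`: bounded sets are small near infinity in the compactification.
* `X.asym_cross`: the crossing point tends to the ray at the boundary of the wall.
* `X.start_fold`: the map `F₁` to the open half of `c'`, close to the crossing point.
-/

set_option autoImplicit false

open Set Metric Topology Filter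
open scoped NNReal ENNReal

namespace BD

open MG (IsMap)

/-- bounded sets are small near infinity -/
theorem HCat.small {Y : Type} [MetricSpace Y] {o : Y} {p : ℝ → Y → Y} (h : HCat Y o p)
    (hX : RadSp Y o p) : Small hX.ι (HBdry o p) := by
  intro D z₀ hz₀ ε hε
  -- the bound at distance `r - 1`
  have ht : Tendsto (fun r : ℕ => 2 * Real.sinh (|D| / 2) * Real.exp (-((r : ℝ) - 1 - |D|)))
      atTop (𝓝 0) := by
    have h1 : Tendsto (fun r : ℕ => Real.exp (-((r : ℝ) - 1 - |D|))) atTop (𝓝 0) := by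
      refine Real.tendsto_exp_neg_atTop_nhds_zero.comp ?_
      have h2 : Tendsto (fun r : ℕ => (r : ℝ) + (-1 - |D|)) atTop atTop :=
        tendsto_atTop_add_const_right _ _ tendsto_natCast_atTop_atTop
      refine h2.congr fun r => by ring
    have := h1.const_mul (2 * Real.sinh (|D| / 2))
    rwa [mul_zero] at this
  obtain ⟨R, hR⟩ := eventually_atTop.1 (ht.eventually (gt_mem_nhds (half_pos hε)))
  obtain ⟨r, hrR, hrD⟩ : ∃ r : ℕ, R ≤ r ∧ 1 + |D| ≤ r := by
    obtain ⟨N, hN⟩ := exists_nat_ge (1 + |D|)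
    exact ⟨max R N, le_max_left _ _, hN.trans (by exact_mod_cast le_max_right _ _)⟩
  refine ⟨min (ε / 2) (Real.exp (-(r : ℝ))), lt_min (half_pos hε) (Real.exp_pos _),
    fun x x' hx hxx' => ?_⟩
  have hD : 0 ≤ |D| := abs_nonneg D
  have hxx : dist x' x ≤ |D| := hxx'.trans (le_abs_self D)
  -- `x` is far out
  have h1 := XHat.coord_le (hX.ι x) z₀ r
  rw [hX.ι_coord] at h1
  have h2 : Real.exp r * dist (hX.ι x) z₀ ≤ 1 := by
    have h3 := mul_le_mul_of_nonneg_left (hx.le.trans (min_le_right _ _)) (Real.exp_pos (r : ℝ)).le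
    rwa [← Real.exp_add, add_neg_cancel, Real.exp_zero] at h3
  have h3 : (r : ℝ) ≤ dist o (p r x) + dist (p r x) (z₀.1 r) := by
    have h4 := dist_triangle o (p r x) (z₀.1 r)
    rwa [hz₀ r] at h4
  have h4 : dist o (p r x) ≤ dist o x := by
    rw [hX.nrm r (Nat.cast_nonneg r)]
    exact min_le_right _ _
  have h5 : (r : ℝ) - 1 ≤ dist o x := by linarith
  have h6 : (r : ℝ) - 1 - |D| ≤ dist o x' := by
    have h7 := dist_triangle o x' x
    linarith
  have h7 := h.size hX (s := (r : ℝ) - 1 - |D|) (δ := |D|) (x := x') (y := x) (by linarith) h6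
    (by linarith) hxx
  have h8 := hR r hrR
  have h9 := dist_triangle (hX.ι x') (hX.ι x) z₀
  have h10 : dist (hX.ι x) z₀ < ε / 2 := hx.trans_le (min_le_left _ _)
  linarith

variable {d : ℕ} {ι : Type} {M : CoxeterMatrix ι} {C : Type} {e : ι → Mink d}
  {hP : CoxPoly M e} {Δ : Building M C} [Finite ι]

theorem X.small (hL : Δ.LocFinite) (b : X hP Δ) : Small (X.radSp hL b).ι (X.Bd hP Δ b) :=
  ((X.mdl hP Δ).hcat b).small (X.radSp hL b)

section

variable {c : C} {s : ι} {b₀ : poly e}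

/-- the crossing time is large near the boundary of the wall -/
theorem X.exp_neg_crT_sq (hb : lor (b₀ : Mink d) (e s) < 0) {z : X.Hat hP Δ (X.mk hP Δ c b₀)}
    (hA : 0 < X.asyA c s b₀ z) : Real.exp (-X.crT c s b₀ z) ^ 2 * (-2 * lor (b₀ : Mink d) (e s)) ≤
      X.asyA c s b₀ z := by
  have h1 := X.exp_crT hb hA
  have h2 : Real.exp (-X.crT c s b₀ z) ^ 2 * Real.exp (2 * X.crT c s b₀ z) = 1 := by
    rw [sq, ← Real.exp_add, ← Real.exp_add]
    ring_nf
    exact Real.exp_zero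
  have h3 : Real.exp (-X.crT c s b₀ z) ^ 2 * (X.asyA c s b₀ z - 2 * lor (b₀ : Mink d) (e s)) =
      X.asyA c s b₀ z := by
    rw [← h1]
    linear_combination (X.asyA c s b₀ z) * h2
  have h4 : 0 ≤ Real.exp (-X.crT c s b₀ z) ^ 2 * X.asyA c s b₀ z := by positivity
  linarith

/-- the crossing point tends to the ray at the boundary of the wall -/
theorem X.asym_cross (hL : Δ.LocFinite) (hb : lor (b₀ : Mink d) (e s) < 0) :
    Asym (X.radSp hL (X.mk hP Δ c b₀)).ι (X.cross c s b₀)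
      (X.Bd hP Δ (X.mk hP Δ c b₀) ∩ {z | 0 < X.asyA c s b₀ z})
      (X.Bd hP Δ (X.mk hP Δ c b₀) ∩ {z | X.asyA c s b₀ z = 0}) := by
  rintro z₀ ⟨-, h0⟩ ε hε
  have h0' : X.asyA c s b₀ z₀ = 0 := h0
  have hα : 0 < -2 * lor (b₀ : Mink d) (e s) := by linarith
  have h1 : Tendsto (X.asyA (hP := hP) (Δ := Δ) c s b₀) (𝓝 z₀) (𝓝 0) := by
    rw [← h0']
    exact (X.continuous_asyA hL).tendsto z₀
  have h2 : ∀ᶠ z in 𝓝 z₀, X.asyA c s b₀ z < (ε / 2) ^ 2 * (-2 * lor (b₀ : Mink d) (e s)) :=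
    h1.eventually (gt_mem_nhds (by positivity))
  obtain ⟨δ, hδ, h3⟩ := Metric.eventually_nhds_iff.1 h2
  refine ⟨min δ (ε / 2), lt_min hδ (half_pos hε), fun z hz hzz => ?_⟩
  obtain ⟨hzB, hzA⟩ := hz
  have hzA' : 0 < X.asyA c s b₀ z := hzA
  have h4 := X.exp_neg_crT_sq hb hzA'
  have h5 := h3 (hzz.trans_le (min_le_left _ _))
  have h6 : Real.exp (-X.crT c s b₀ z) < ε / 2 := by
    by_contra hc
    push Not at hc
    have h7 : (ε / 2) ^ 2 ≤ Real.exp (-X.crT c s b₀ z) ^ 2 := pow_le_pow_left₀ (by positivity) hc 2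
    have h8 := mul_le_mul_of_nonneg_right h7 hα.le
    linarith
  have h7 : dist ((X.radSp hL (X.mk hP Δ c b₀)).ι (X.cross c s b₀ z)) z ≤
      Real.exp (-X.crT c s b₀ z) :=
    RadSp.dist_ι_pr_le (X.radSp hL (X.mk hP Δ c b₀)) (X.crT_pos hb hzA').le z
  have h8 := dist_triangle ((X.radSp hL (X.mk hP Δ c b₀)).ι (X.cross c s b₀ z)) z z₀
  have h9 : dist z z₀ < ε / 2 := hzz.trans_le (min_le_right _ _)
  linarith

/-- **the starting map of the folding** -/
theorem X.start_fold (hL : Δ.LocFinite) (hb : lor (b₀ : Mink d) (e s) < 0) {c' : C}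
    (hc' : PanAdj Δ s c c') {ε : ℝ} (hε : 0 < ε) :
    ∃ F : X.Hat hP Δ (X.mk hP Δ c b₀) → X hP Δ,
      IsMap F (X.Bd hP Δ (X.mk hP Δ c b₀) ∩ {z | 0 < X.asyA c s b₀ z}) (X.HalfO hP Δ c' s) ∧
      (∀ z, dist (F z) (X.cross c s b₀ z) ≤ ε) ∧
      Asym (X.radSp hL (X.mk hP Δ c b₀)).ι F
        (X.Bd hP Δ (X.mk hP Δ c b₀) ∩ {z | 0 < X.asyA c s b₀ z})
        (X.Bd hP Δ (X.mk hP Δ c b₀) ∩ {z | X.asyA c s b₀ z = 0}) := by
  obtain ⟨g, hg, hgd, hgs⟩ := X.off_wall (hP := hP) hL c' s hε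
  refine ⟨fun z => g (X.cross c s b₀ z), ⟨?_, ?_⟩, fun z => hgd _, ?_⟩
  · exact hg.comp_continuousOn ((X.continuousOn_cross hL hb).mono inter_subset_right)
  · rintro z ⟨hz, hA⟩
    exact hgs _ ((X.sd_eq_zero_iff hc' _).2 (X.cross_mem hL hb hz hA))
  · exact (X.asym_cross hL hb).of_dist (X.small hL _) inter_subset_left
      fun z _ => hgd _

/-- the boundary of the wall is closed -/
theorem X.isClosed_dm (hL : Δ.LocFinite) :
    IsClosed (X.Bd hP Δ (X.mk hP Δ c b₀) ∩ {z | X.asyA c s b₀ z = 0}) :=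
  isClosed_HBdry.inter (isClosed_eq (X.continuous_asyA hL) continuous_const)

/-- `V_c' ⊆ {0 < A}` -/
theorem X.vo_subset (hL : Δ.LocFinite) (hb : lor (b₀ : Mink d) (e s) < 0) {c' : C}
    (hc' : PanAdj Δ s c c') (hne : c ≠ c') : X.Bd hP Δ (X.mk hP Δ c b₀) ∩ X.VO b₀ c c' s ⊆
      X.Bd hP Δ (X.mk hP Δ c b₀) ∩ {z | 0 < X.asyA c s b₀ z} :=
  fun _ hz => ⟨hz.1, ((X.vo_iff hL hb hc' hne hz.1).1 hz.2).1⟩

end

end BD
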