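import Pool.Agent.Work.MP_de2d29_al.Statement
import Pool.Agent.Work.MP_de2d29_al.Geo
import Pool.Agent.Work.MP_de2d29_al.Rep

/-!
# J_CHAIN: the length metric of the realization in closed form

`ldist_eq`: `ldist (c, x) (c', y) = hdist x (rep (δ c c') y)`.

* `chain_lower`: the retraction centred at a chamber does not increase the lengths of chains.
* `exists_chain`: there is a chain of length `hdist x (rep (δ c c') y)`, by induction on the length
  of `δ c c'`: the geodesic from `x` to `rep (δ c c') y` leaves `P` through a facet `i` which is a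
  left descent of `δ c c'`.
-/

set_option autoImplicit false

open Set

namespace BD

variable {d : ℕ} {ι : Type} {M : CoxeterMatrix ι} {C : Type} {e : ι → Mink d} {Δ : Building M C}

/-! ## The Weyl distance is symmetric -/

namespace Building

theorem length_simple_mul_lt {w : M.Group} (hw : w ≠ 1) :
    ∃ i, M.toCoxeterSystem.length (M.simple i * w) < M.toCoxeterSystem.length w := by
  obtain ⟨i, hi⟩ := M.toCoxeterSystem.exists_leftDescent_of_ne_one hw
  refine ⟨i, ?_⟩
  have := hi
  unfold CoxeterSystem.IsLeftDescent at this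
  rwa [M.toCoxeterSystem_simple] at this

theorem length_succ {w : M.Group} {i : ι}
    (h : M.toCoxeterSystem.length (M.simple i * w) < M.toCoxeterSystem.length w) :
    M.toCoxeterSystem.length w = M.toCoxeterSystem.length (M.simple i * w) + 1 := by
  have h1 := M.toCoxeterSystem.length_simple_mul w i
  rw [M.toCoxeterSystem_simple] at h1
  omega

theorem simple_mul_simple (i : ι) : M.simple i * M.simple i = 1 := by
  have := M.toCoxeterSystem.simple_mul_simple_self i
  rwa [M.toCoxeterSystem_simple] at this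

theorem simple_inv (i : ι) : (M.simple i)⁻¹ = M.simple i :=
  inv_eq_of_mul_eq_one_left (simple_mul_simple i)

variable (Δ)

/-- extension of a reduced gallery on the right -/
theorem delta_right (n : ℕ) : ∀ (d c₁ c : C) (i : ι), M.toCoxeterSystem.length (Δ.δ d c₁) = n →
    Δ.δ c₁ c = M.simple i → M.toCoxeterSystem.length (Δ.δ d c₁ * M.simple i) = n + 1 →
    Δ.δ d c = Δ.δ d c₁ * M.simple i := by
  induction n with
  | zero =>
    intro d c₁ c i h0 h1 _
    have h2 : Δ.δ d c₁ = 1 := M.toCoxeterSystem.length_eq_zero_iff.1 h0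
    have h3 : d = c₁ := (Δ.eq_one d c₁).1 h2
    subst h3
    rw [h2, one_mul, h1]
  | succ n ih =>
    intro d c₁ c i h0 h1 h2
    have hv : Δ.δ d c₁ ≠ 1 := fun h => by
      rw [h, M.toCoxeterSystem.length_one] at h0
      omega
    obtain ⟨j, hj⟩ := length_simple_mul_lt hv
    have hj' := length_succ hj
    obtain ⟨d₁, h3, h4⟩ := Δ.exist d c₁ j
    have h5 : M.toCoxeterSystem.length (Δ.δ d₁ c₁) = n := by rw [h4]; omega
    have h6 : Δ.δ d c₁ = M.simple j * Δ.δ d₁ c₁ := by
      rw [h4, ← mul_assoc, simple_mul_simple, one_mul]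
    have h7 : M.toCoxeterSystem.length (Δ.δ d₁ c₁ * M.simple i) = n + 1 := by
      have e1 := M.toCoxeterSystem.length_mul_le (Δ.δ d₁ c₁) (M.simple i)
      have e2 := M.toCoxeterSystem.length_mul_le (M.simple j) (Δ.δ d₁ c₁ * M.simple i)
      have e3 := M.toCoxeterSystem.length_simple i
      have e4 := M.toCoxeterSystem.length_simple j
      rw [M.toCoxeterSystem_simple] at e3 e4
      rw [← mul_assoc, ← h6] at e2
      omega
    have h8 := ih d₁ c₁ c i h5 h1 h7
    have h9 : Δ.δ d d₁ = M.simple j := Δ.adj_symm h3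
    rw [Δ.step_up d d₁ c j h9 (by
      rw [h8, h7, ← mul_assoc, ← h6, h2]), h8, h6, mul_assoc]

/-- the Weyl distance is symmetric -/
theorem delta_inv (n : ℕ) : ∀ c d : C, M.toCoxeterSystem.length (Δ.δ c d) = n →
    Δ.δ d c = (Δ.δ c d)⁻¹ := by
  induction n with
  | zero =>
    intro c d h0
    have h2 : Δ.δ c d = 1 := M.toCoxeterSystem.length_eq_zero_iff.1 h0
    have h3 : c = d := (Δ.eq_one c d).1 h2
    subst h3
    rw [h2, inv_one]
  | succ n ih =>
    intro c d h0
    have hv : Δ.δ c d ≠ 1 := fun h => by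
      rw [h, M.toCoxeterSystem.length_one] at h0
      omega
    obtain ⟨j, hj⟩ := length_simple_mul_lt hv
    have hj' := length_succ hj
    obtain ⟨c₁, h3, h4⟩ := Δ.exist c d j
    have h5 : M.toCoxeterSystem.length (Δ.δ c₁ d) = n := by rw [h4]; omega
    have h6 := ih c₁ d h5
    have h7 : Δ.δ d c₁ * M.simple j = (Δ.δ c d)⁻¹ := by
      rw [h6, h4, mul_inv_rev, simple_inv, mul_assoc, simple_mul_simple, mul_one]
    rw [← h7]
    refine Δ.delta_right n d c₁ c j ?_ h3 ?_
    · rw [h6, M.toCoxeterSystem.length_inv, h5]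
    · rw [h7, M.toCoxeterSystem.length_inv, h0]

end Building

/-! ## Lower bound -/

/-- the retraction centred at `c`, on the points of the chambers -/
noncomputable def rho (hP : CoxPoly M e) (Δ : Building M C) (c : C) (p : C × poly e) : Mink d :=
  hP.rep (Δ.δ c p.1) p.2

theorem rho_mem (hP : CoxPoly M e) (c : C) (p : C × poly e) : rho hP Δ c p ∈ Hyp d :=
  hP.rep_mem_Hyp _ p.2.2.1

theorem rho_self (hP : CoxPoly M e) (c : C) (x : poly e) : rho hP Δ c (c, x) = x := by
  unfold rho
  rw [(Δ.eq_one c c).2 rfl, hP.rep_one]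

/-- passing through a facet does not move the image of a point -/
theorem rho_pass (hP : CoxPoly M e) (c : C) {c₁ c₂ : C}
    {i : ι} {x : poly e} (h : Δ.δ c₁ c₂ = M.simple i) (hx : lor (x : Mink d) (e i) = 0) :
    rho hP Δ c (c₁, x) = rho hP Δ c (c₂, x) := by
  have hs : hP.rep (M.simple i) (x : Mink d) = x := by
    rw [hP.rep_simple, refl, hx]
    simp
  have hinv : ∀ c d, Δ.δ d c = (Δ.δ c d)⁻¹ := fun c d => Δ.delta_inv _ c d rfl
  unfold rho
  show hP.rep (Δ.δ c c₁) x = hP.rep (Δ.δ c c₂) x
  have h1 : Δ.δ c₂ c₁ = M.simple i := Δ.adj_symm h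
  rcases Δ.step c₂ c₁ c i h1 with h2 | h2
  · have h3 : Δ.δ c c₂ = Δ.δ c c₁ * M.simple i := by
      rw [hinv c₂ c, h2, mul_inv_rev, Building.simple_inv, ← hinv c₁ c]
    rw [h3, hP.rep_mul, hs]
  · have h3 : Δ.δ c c₂ = Δ.δ c c₁ := by rw [hinv c₂ c, h2, ← hinv c₁ c]
    rw [h3]

theorem chain_lower (hP : CoxPoly M e) (c : C)
    {p q : C × poly e} {L : ℝ} (h : Chain e Δ p q L) :
    hdist (rho hP Δ c p) (rho hP Δ c q) ≤ L := by
  induction h with
  | nil p => rw [hdist_self (rho_mem hP c p)]
  | move c' x y q L _ ih =>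
    refine (hdist_triangle (rho_mem hP c _) (rho_mem (Δ := Δ) hP c (c', y))
      (rho_mem hP c _)).trans ?_
    have : hdist (rho hP Δ c (c', x)) (rho hP Δ c (c', y)) = hdist (x : Mink d) y :=
      hP.hdist_rep _ _ _
    rw [this]
    exact add_le_add_right ih _
  | pass c₁ c₂ i x q L h1 h2 _ ih =>
    rw [rho_pass hP c h1 h2]
    exact ih

/-! ## Upper bound -/

/-- the last point of a segment in the polytope -/
theorem exists_exit [Finite ι] {x y : Mink d} (hx : x ∈ poly e) (hy : y ∈ Hyp d)
    (hxy : y ∉ poly e) : ∃ z ∈ poly e, hdist x y = hdist x z + hdist z y ∧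
      ∃ i, lor z (e i) = 0 ∧ 0 < lor y (e i) := by
  have hne : x ≠ y := fun h => hxy (h ▸ hx)
  set D := hdist x y with hD
  have hD0 : 0 < D := hdist_pos hx.1 hy hne
  have hs : 0 < Real.sinh D := Real.sinh_pos_iff.2 hD0
  have hgl : ∀ i t, lor (geo x y t) (e i) =
      (Real.sinh (D - t) * lor x (e i) + Real.sinh t * lor y (e i)) / Real.sinh D := by
    intro i t
    unfold geo
    rw [lor_add_left, lor_smul_left, lor_smul_left, ← hD]
    field_simp
  have hcl : IsClosed {t : ℝ | ∀ i, lor (geo x y t) (e i) ≤ 0} := by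
    rw [ofPred_forall]
    refine isClosed_iInter fun i => isClosed_le ?_ continuous_const
    exact (continuous_lor_left (e i)).comp (continuous_geo x y)
  have hcomp : IsCompact (Icc 0 D ∩ {t : ℝ | ∀ i, lor (geo x y t) (e i) ≤ 0}) :=
    isCompact_Icc.inter_right hcl
  have h0 : (0 : ℝ) ∈ Icc 0 D ∩ {t : ℝ | ∀ i, lor (geo x y t) (e i) ≤ 0} := by
    refine ⟨⟨le_rfl, hD0.le⟩, fun i => ?_⟩
    rw [geo_zero hx.1 hy hne]
    exact hx.2 i
  obtain ⟨t, ⟨⟨ht0, htD⟩, htP⟩, htmax⟩ := hcomp.exists_isGreatest ⟨0, h0⟩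
  have hz : geo x y t ∈ poly e := ⟨geo_mem hx.1 hy hne ht0 htD, htP⟩
  have htD' : t < D := by
    refine lt_of_le_of_ne htD fun h => hxy ?_
    rw [h, hD, geo_end hx.1 hy hne] at hz
    exact hz
  refine ⟨geo x y t, hz, ?_, ?_⟩
  · rw [hdist_geo_left hx.1 hy hne ht0, hdist_geo_right hx.1 hy hne htD]
    ring
  · by_contra hcon
    push Not at hcon
    -- a little beyond `t` the geodesic is still in the polytope
    have h1 : ∀ i, ∀ᶠ u in nhdsWithin t (Ioi t), lor (geo x y u) (e i) ≤ 0 := by
      intro i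
      rcases (htP i).lt_or_eq with h | h
      · have h2 : ∀ᶠ u in nhds t, lor (geo x y u) (e i) < 0 :=
          ((continuous_lor_left (e i)).comp (continuous_geo x y)).continuousAt.eventually_lt
            continuousAt_const h
        exact (h2.filter_mono nhdsWithin_le_nhds).mono fun u hu => hu.le
      · have hyi := hcon i h
        have h3 : ∀ᶠ u in nhdsWithin t (Ioi t), u < D :=
          (eventually_lt_nhds htD').filter_mono nhdsWithin_le_nhds
        filter_upwards [h3, self_mem_nhdsWithin] with u hu hut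
        rw [hgl]
        apply div_nonpos_of_nonpos_of_nonneg _ hs.le
        have h4 : 0 ≤ Real.sinh (D - u) := Real.sinh_nonneg_iff.2 (by linarith)
        have h5 : 0 ≤ Real.sinh u := Real.sinh_nonneg_iff.2 (by
          have : t < u := hut
          linarith)
        have h6 := mul_nonpos_of_nonneg_of_nonpos h4 (hx.2 i)
        have h7 := mul_nonpos_of_nonneg_of_nonpos h5 hyi
        linarith
    have h2 : ∀ᶠ u in nhdsWithin t (Ioi t), ∀ i, lor (geo x y u) (e i) ≤ 0 :=
      Filter.eventually_all.2 h1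
    have h3 : ∀ᶠ u in nhdsWithin t (Ioi t), u < D :=
      (eventually_lt_nhds htD').filter_mono nhdsWithin_le_nhds
    obtain ⟨u, ⟨hu1, hu2⟩, hu3⟩ := ((h2.and h3).and self_mem_nhdsWithin).exists
    have hu3' : t < u := hu3
    have := htmax ⟨⟨by linarith, hu2.le⟩, hu1⟩
    linarith

/-- **there is a chain of the right length** -/
theorem exists_chain [Finite ι] (hP : CoxPoly M e) (n : ℕ) : ∀ (c c' : C) (x y : poly e),
    M.toCoxeterSystem.length (Δ.δ c c') = n →
    Chain e Δ (c, x) (c', y) (hdist (x : Mink d) (hP.rep (Δ.δ c c') y)) := by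
  induction n with
  | zero =>
    intro c c' x y hl
    have h1 : Δ.δ c c' = 1 := M.toCoxeterSystem.length_eq_zero_iff.1 hl
    have h2 : c = c' := (Δ.eq_one c c').1 h1
    subst h2
    rw [h1, hP.rep_one, ← add_zero (hdist _ _)]
    exact Chain.move c x y _ _ (Chain.nil _)
  | succ n ih =>
    intro c c' x y hl
    set w := Δ.δ c c' with hw
    have hyw : hP.rep w (y : Mink d) ∈ Hyp d := hP.rep_mem_Hyp _ y.2.1
    -- a point `z` and a descent `i`
    have key : ∃ z : poly e, hdist (x : Mink d) (hP.rep w y) =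
        hdist (x : Mink d) z + hdist (z : Mink d) (hP.rep w y) ∧ ∃ i, lor (z : Mink d) (e i) = 0 ∧
        M.toCoxeterSystem.IsLeftDescent w i := by
      by_cases hin : hP.rep w (y : Mink d) ∈ poly e
      · have hw1 : w ≠ 1 := fun h => by
          rw [h, M.toCoxeterSystem.length_one] at hl
          omega
        obtain ⟨i, hi⟩ := M.toCoxeterSystem.exists_leftDescent_of_ne_one hw1
        refine ⟨⟨_, hin⟩, by rw [hdist_self hyw, add_zero], i, ?_, hi⟩
        exact le_antisymm (hin.2 i) (hP.left_ge y.2.2 hi)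
      · obtain ⟨z, hz, h1, i, h2, h3⟩ := exists_exit x.2 hyw hin
        refine ⟨⟨z, hz⟩, h1, i, h2, ?_⟩
        by_contra hi
        have := hP.left_le y.2.2 hi
        linarith
    obtain ⟨z, hxz, i, hzi, hi⟩ := key
    obtain ⟨c₁, h1, h2⟩ := Δ.exist c c' i
    have h3 : M.toCoxeterSystem.length (Δ.δ c₁ c') = n := by
      have h4 := M.toCoxeterSystem.isLeftDescent_iff.1 hi
      rw [M.toCoxeterSystem_simple] at h4
      rw [h2, ← hw]
      omega
    have h4 := ih c₁ c' z y h3
    have h5 : hdist (z : Mink d) (hP.rep (Δ.δ c₁ c') y) = hdist (z : Mink d) (hP.rep w y) := by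
      have hs : hP.rep (M.simple i) (z : Mink d) = z := by
        rw [hP.rep_simple, refl, hzi]
        simp
      rw [h2, hP.rep_mul]
      conv_lhs => rw [← hs]
      exact hP.hdist_rep _ _ _
    rw [h5] at h4
    rw [hxz]
    exact Chain.move c x z _ _ (Chain.pass c c₁ i z _ _ (Δ.adj_symm h1) hzi h4)

/-- **The length metric in closed form.** -/
theorem ldist_eq [Finite ι] (hP : CoxPoly M e) (c c' : C) (x y : poly e) :
    ldist e Δ (c, x) (c', y) = ENNReal.ofReal (hdist (x : Mink d) (hP.rep (Δ.δ c c') y)) := by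
  apply le_antisymm
  · exact iInf₂_le _ (exists_chain hP _ c c' x y rfl)
  · refine le_iInf₂ fun L hL => ENNReal.ofReal_le_ofReal ?_
    have := chain_lower hP c hL
    rwa [rho_self] at this

end BD
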