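import Pool.Agent.Work.MP_de2d29_al.POut

/-!
# BUILDING: unions of cells of the realisation

* `Mdl.lg_locallyFinite`, `Mdl.lg_isClosed`: the cells are locally finite, unions of cells are closed.
* `Mdl.lg_finite_at`, `Mdl.lg_isCompact_star`, `Mdl.lg_dist_star`: families of cells with a common
  point are finite, their union is compact of diameter `≤ 2 poD`.
* `Mdl.lg_locallyFinite_family`: disjoint families of cells have locally finite unions.
* `Mdl.lg_proper`: the realisation is a proper space.
-/

set_option autoImplicit false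

open Set Metric Topology Filter
open Pool.Agent.Work.MP_de2d29_al RootBasis

namespace BD

variable {ι C X : Type} {d : ℕ} {M : CoxeterMatrix ι} {e : ι → Mink d} [MetricSpace X]
  {h : CoxPoly M e} {Δ : Building M C} {mk : C → poly e → X}

namespace Mdl

variable (m : Mdl h Δ mk)
include m

/-- two points of a cell -/
theorem lg_dist_cell {p : C × Set ι} {x y : X} (hx : x ∈ cellX mk p) (hy : y ∈ cellX mk p) :
    dist x y ≤ h.poD := by
  obtain ⟨x', -, rfl⟩ := hx
  obtain ⟨y', -, rfl⟩ := hy
  rw [m.isometry_like]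
  exact h.hdist_le_poD x'.2 y'.2

/-- two points of a union of cells with a common point -/
theorem lg_dist_star {q : X} {S : Set (C × Set ι)} (hS : ∀ p ∈ S, q ∈ cellX mk p) {x y : X}
    (hx : x ∈ ⋃ p ∈ S, cellX mk p) (hy : y ∈ ⋃ p ∈ S, cellX mk p) : dist x y ≤ 2 * h.poD := by
  simp only [mem_iUnion, exists_prop] at hx hy
  obtain ⟨p, hp, hx⟩ := hx
  obtain ⟨p', hp', hy⟩ := hy
  have h1 := m.lg_dist_cell hx (hS p hp)
  have h2 := m.lg_dist_cell (hS p' hp') hy
  have h3 := dist_triangle x q y
  linarith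

variable [Finite ι] (hL : Δ.LocFinite)
include hL

/-- finitely many cells meet a ball -/
theorem lg_finite (o : X) (r : ℝ) : {p : C × Set ι | (cellX mk p ∩ closedBall o r).Nonempty}.Finite := by
  refine ((m.hfin hL o r).prod (finite_univ (α := Set ι))).subset ?_
  rintro ⟨c, J⟩ ⟨_, ⟨x, -, rfl⟩, hx⟩
  refine ⟨⟨x, ?_⟩, mem_univ _⟩
  rw [dist_comm]
  exact mem_closedBall.1 hx

/-- the cells are locally finite -/
theorem lg_locallyFinite : LocallyFinite fun p : C × Set ι => cellX mk p := by
  intro q
  refine ⟨closedBall q 1, closedBall_mem_nhds q one_pos, m.lg_finite hL q 1⟩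

/-- unions of cells are closed -/
theorem lg_isClosed (S : Set (C × Set ι)) : IsClosed (⋃ p ∈ S, cellX mk p) := by
  rw [biUnion_eq_iUnion]
  refine ((m.lg_locallyFinite hL).comp_injective Subtype.val_injective).isClosed_iUnion
    fun p => (m.compact_cellX p.1).isClosed

/-- finitely many cells contain a point -/
theorem lg_finite_at (q : X) : {p : C × Set ι | q ∈ cellX mk p}.Finite :=
  (m.lg_finite hL q 0).subset fun _ hp => ⟨q, hp, mem_closedBall_self le_rfl⟩

/-- unions of cells with a common point are compact -/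
theorem lg_isCompact_star {q : X} {S : Set (C × Set ι)} (hS : ∀ p ∈ S, q ∈ cellX mk p) :
    IsCompact (⋃ p ∈ S, cellX mk p) :=
  ((m.lg_finite_at hL q).subset hS).isCompact_biUnion fun p _ => m.compact_cellX p

/-- the unions of disjoint families of cells are locally finite -/
theorem lg_locallyFinite_family {I : Type*} {S : I → Set (C × Set ι)}
    (hd : ∀ i j, i ≠ j → Disjoint (S i) (S j)) :
    LocallyFinite fun i => ⋃ p ∈ S i, cellX mk p := by
  intro q
  obtain ⟨t, ht, hf⟩ := m.lg_locallyFinite hL q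
  refine ⟨t, ht, ?_⟩
  refine (hf.biUnion (t := fun p => {i | p ∈ S i}) fun p _ => ?_).subset ?_
  · refine Set.Subsingleton.finite fun i hi j hj => ?_
    by_contra hne
    exact Set.disjoint_left.1 (hd i j hne) hi hj
  · rintro i ⟨x, hx, hxt⟩
    simp only [mem_iUnion, exists_prop] at hx
    obtain ⟨p, hp, hx⟩ := hx
    simp only [mem_iUnion, exists_prop]
    exact ⟨p, ⟨x, hx, hxt⟩, hp⟩

/-- the same for cells given by `CIdx` -/
theorem lg_locallyFinite_idx {I : Type*} {S : I → Set (CIdx C e)}
    (hd : ∀ i j, i ≠ j → Disjoint (S i) (S j)) :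
    LocallyFinite fun i => ⋃ σ ∈ S i, cellX mk σ.1 := by
  have h1 := m.lg_locallyFinite_family hL (S := fun i => Subtype.val '' S i) fun i j hij =>
    (Set.disjoint_image_iff Subtype.val_injective).2 (hd i j hij)
  simpa only [biUnion_image] using h1

/-- the same for cells given by `CIdx` -/
theorem lg_isClosed_idx (S : Set (CIdx C e)) : IsClosed (⋃ σ ∈ S, cellX mk σ.1) := by
  have h1 := m.lg_isClosed hL (Subtype.val '' S)
  simpa only [biUnion_image] using h1

/-- the same for cells given by `CIdx` -/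
theorem lg_isCompact_star_idx {q : X} {S : Set (CIdx C e)} (hS : ∀ σ ∈ S, q ∈ cellX mk σ.1) :
    IsCompact (⋃ σ ∈ S, cellX mk σ.1) := by
  have h1 := m.lg_isCompact_star hL (q := q) (S := Subtype.val '' S) (by
    rintro _ ⟨σ, hσ, rfl⟩
    exact hS σ hσ)
  simpa only [biUnion_image] using h1

/-- the realisation is proper -/
theorem lg_proper : ProperSpace X := ⟨fun x r => (m.radSp' hL x).cpt r⟩

omit [Finite ι] hL in
/-- the same for cells given by `CIdx` -/
theorem lg_dist_star_idx {q : X} {S : Set (CIdx C e)} (hS : ∀ σ ∈ S, q ∈ cellX mk σ.1) {x y : X}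
    (hx : x ∈ ⋃ σ ∈ S, cellX mk σ.1) (hy : y ∈ ⋃ σ ∈ S, cellX mk σ.1) :
    dist x y ≤ 2 * h.poD := by
  simp only [mem_iUnion, exists_prop] at hx hy
  obtain ⟨p, hp, hx⟩ := hx
  obtain ⟨p', hp', hy⟩ := hy
  have h1 := m.lg_dist_cell hx (hS p hp)
  have h2 := m.lg_dist_cell (hS p' hp') hy
  have h3 := dist_triangle x q y
  linarith

end Mdl

end BD
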