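import Pool.Agent.Work.MP_de2d29_al.HypT
import Pool.Agent.Work.MP_de2d29_al.Exit

/-!
# The tangent cone of a compact polytope at a point, and the radial projection

`m ∈ poly e`; `TT e m = {i | lor m (e i) = 0}`. `tdir m x = x + lor x m • m` is the direction of `x`
at `m` (a vector orthogonal to `m`). `tcone e m`: the non-zero vectors `v` orthogonal to `m` with
`lor v (e i) ≤ 0` for `i ∈ TT e m`. `back e m v` is the point where the ray from `m` in the direction
`v` leaves the polytope. `outer e m`: the points of `poly e` in the faces which do not contain `m`.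
-/

set_option autoImplicit false

open Real Set

namespace BD

variable {d : ℕ} {ι : Type}

/-- the walls through `m` -/
def TT (e : ι → Mink d) (m : Mink d) : Set ι := {i | lor m (e i) = 0}

/-- the direction at `m` -/
def tdir (m x : Mink d) : Mink d := x + lor x m • m

theorem lor_tdir_self {m : Mink d} (hm : m ∈ Hyp d) (x : Mink d) : lor (tdir m x) m = 0 := by
  rw [tdir, lor_add_left, lor_smul_left, hm.1]
  ring

theorem lor_tdir {m a : Mink d} (h : lor m a = 0) (x : Mink d) : lor (tdir m x) a = lor x a := by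
  rw [tdir, lor_add_left, lor_smul_left, h]
  ring

theorem tdir_ne_zero {m x : Mink d} (hm : m ∈ Hyp d) (hx : x ∈ Hyp d) (h : x ≠ m) :
    tdir m x ≠ 0 := by
  intro h0
  have h1 : lor (tdir m x) x = 0 := by rw [h0, lor_zero_left]
  rw [tdir, lor_add_left, lor_smul_left, hx.1, lor_symm m x] at h1
  have h2 := one_le_neg_lor hx hm
  have h3 : -lor x m = 1 := by nlinarith
  exact h (eq_of_lor_eq hx hm h3)

theorem continuous_tdir (m : Mink d) : Continuous (tdir m) := by
  unfold tdir
  exact continuous_id.add ((continuous_lor_left m).smul continuous_const)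

theorem tdir_of_perp {m v : Mink d} (h : lor v m = 0) : tdir m v = v := by
  rw [tdir, h, zero_smul, add_zero]

theorem tdir_smul (m x : Mink d) (t : ℝ) : tdir m (t • x) = t • tdir m x := by
  rw [tdir, tdir, lor_smul_left, smul_add, smul_smul]

theorem tdir_sub_smul {m : Mink d} (hm : m ∈ Hyp d) (x : Mink d) (t : ℝ) :
    tdir m (x - t • m) = tdir m x := by
  rw [tdir, tdir, lor_sub_left, lor_smul_left, hm.1]
  module

/-- the tangent cone, without `0` -/
def tcone (e : ι → Mink d) (m : Mink d) : Set (Mink d) :=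
  {v | v ≠ 0 ∧ lor v m = 0 ∧ ∀ i ∈ TT e m, lor v (e i) ≤ 0}

/-- the points in the faces which do not contain `m` -/
def outer (e : ι → Mink d) (m : Mink d) : Set (Mink d) :=
  {x | x ∈ poly e ∧ ∃ i, lor m (e i) < 0 ∧ lor x (e i) = 0}

theorem ne_of_mem_outer {e : ι → Mink d} {m x : Mink d} (hx : x ∈ outer e m) : x ≠ m := by
  rintro rfl
  obtain ⟨-, i, h1, h2⟩ := hx
  linarith

theorem tdir_mem_tcone {e : ι → Mink d} {m x : Mink d} (hm : m ∈ Hyp d) (hx : x ∈ poly e)
    (h : x ≠ m) : tdir m x ∈ tcone e m :=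
  ⟨tdir_ne_zero hm hx.1 h, lor_tdir_self hm x, fun i hi => by rw [lor_tdir hi]; exact hx.2 i⟩

section

variable [Fintype ι] {e : ι → Mink d} {m : Mink d}

open Classical in
/-- the walls not through `m` -/
noncomputable def UU (e : ι → Mink d) (m : Mink d) : Finset ι :=
  Finset.univ.filter fun i => lor m (e i) < 0

theorem mem_UU {i : ι} : i ∈ UU e m ↔ lor m (e i) < 0 := by
  simp [UU]

theorem mem_TT_or_UU (hm : m ∈ poly e) (i : ι) : i ∈ TT e m ∨ i ∈ UU e m := by
  rcases (hm.2 i).eq_or_lt with h | h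
  · exact Or.inl h
  · exact Or.inr (mem_UU.2 h)

/-- there is a wall not through `m` -/
theorem UU_nonempty (hF : ∀ x ∈ pcone e, Fut x) (hm : m ∈ poly e) : (UU e m).Nonempty := by
  by_contra hc
  rw [Finset.not_nonempty_iff_eq_empty] at hc
  have h1 : -m ∈ pcone e := by
    refine ⟨neg_ne_zero.2 (fut_of_hyp hm.1).ne_zero, fun i => ?_⟩
    rcases mem_TT_or_UU hm i with h | h
    · rw [lor_neg_left, h, neg_zero]
    · rw [hc] at h
      exact absurd h (Finset.notMem_empty i)
  have h2 := (hF _ h1).2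
  have h3 := hm.1.2
  simp only [Pi.neg_apply] at h2
  linarith

/-- the vector of the ray from `m` in the direction `v` at the exit from the cone -/
noncomputable def brt (hU : (UU e m).Nonempty) (v : Mink d) : Mink d :=
  Bld.rtr (UU e m) hU (fun i => lorL (e i)) m v

/-- the point where the ray from `m` in the direction `v` leaves the polytope -/
noncomputable def back (hU : (UU e m).Nonempty) (v : Mink d) : Mink d := nrm (brt hU v)

theorem UU_neg : ∀ i ∈ UU e m, (fun i => lorL (e i)) i m < 0 := fun _ hi => mem_UU.1 hi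

variable {hU : (UU e m).Nonempty}

theorem brt_eq (v : Mink d) : ∃ t : ℝ, brt hU v = v - t • m := ⟨_, rfl⟩

theorem lor_brt_of_mem_TT {i : ι} (hi : i ∈ TT e m) (v : Mink d) :
    lor (brt hU v) (e i) = lor v (e i) := by
  obtain ⟨t, ht⟩ := brt_eq (hU := hU) v
  rw [ht, lor_sub_left, lor_smul_left, hi]
  ring

theorem brt_mem {v : Mink d} (hm : m ∈ poly e) (hv : v ∈ tcone e m) : brt hU v ∈ pcone e := by
  refine ⟨fun h0 => hv.1 ?_, fun i => ?_⟩
  · obtain ⟨t, ht⟩ := brt_eq (hU := hU) v
    have h1 : tdir m (brt hU v) = v := by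
      rw [ht, tdir_sub_smul hm.1, tdir_of_perp hv.2.1]
    rw [← h1, h0, tdir, lor_zero_left, zero_smul, add_zero]
  · rcases mem_TT_or_UU hm i with h | h
    · rw [lor_brt_of_mem_TT h]
      exact hv.2.2 i h
    · exact Bld.rtr_le (l := fun i => lorL (e i)) UU_neg h

theorem tdir_brt {v : Mink d} (hm : m ∈ Hyp d) (hv : lor v m = 0) : tdir m (brt hU v) = v := by
  obtain ⟨t, ht⟩ := brt_eq (hU := hU) v
  rw [ht, tdir_sub_smul hm, tdir_of_perp hv]

theorem exists_brt_eq_zero (v : Mink d) : ∃ i, lor m (e i) < 0 ∧ lor (brt hU v) (e i) = 0 := by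
  obtain ⟨i, hi, h⟩ := Bld.exists_rtr_eq_zero (hU := hU) (l := fun i => lorL (e i)) (x := v)
    UU_neg
  exact ⟨i, mem_UU.1 hi, h⟩

variable (hF : ∀ x ∈ pcone e, Fut x)

include hF in
theorem back_mem {v : Mink d} (hm : m ∈ poly e) (hv : v ∈ tcone e m) :
    back hU v ∈ outer e m := by
  have h1 := brt_mem (hU := hU) hm hv
  refine ⟨nrm_mem_poly h1 (hF _ h1), ?_⟩
  obtain ⟨i, hi, h⟩ := exists_brt_eq_zero (hU := hU) v
  refine ⟨i, hi, ?_⟩
  rw [back, nrm, lor_smul_left, h, mul_zero]

include hF in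
/-- `back` preserves the walls through `m` -/
theorem lor_back_eq_zero_iff {v : Mink d} (hm : m ∈ poly e) (hv : v ∈ tcone e m) {i : ι}
    (hi : i ∈ TT e m) : lor (back hU v) (e i) = 0 ↔ lor v (e i) = 0 := by
  have h1 := brt_mem (hU := hU) hm hv
  have h2 := inv_pos.2 (sqrt_lor_pos (hF _ h1))
  rw [back, nrm, lor_smul_left, lor_brt_of_mem_TT hi, mul_eq_zero, or_iff_right h2.ne']

include hF in
/-- `tdir` after `back` is a positive multiple -/
theorem tdir_back {v : Mink d} (hm : m ∈ poly e) (hv : v ∈ tcone e m) :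
    tdir m (back hU v) = (√(-lor (brt hU v) (brt hU v)))⁻¹ • v ∧
      0 < (√(-lor (brt hU v) (brt hU v)))⁻¹ := by
  have h1 := brt_mem (hU := hU) hm hv
  refine ⟨?_, inv_pos.2 (sqrt_lor_pos (hF _ h1))⟩
  rw [back, nrm, tdir_smul, tdir_brt hm.1 hv.2.1]

/-- `back` after `tdir` is the identity on the outer faces -/
theorem back_tdir {x : Mink d} (hx : x ∈ outer e m) : back hU (tdir m x) = x := by
  obtain ⟨hxp, i, hi, h⟩ := hx
  have h1 : brt hU (tdir m x) = x := by
    rw [brt, tdir, Bld.rtr_add_smul UU_neg]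
    exact Bld.rtr_eq_self UU_neg (fun j _ => hxp.2 j) (mem_UU.2 hi) h
  rw [back, h1, nrm_of_hyp hxp.1]

/-- `back` is homogeneous of degree `0` -/
theorem back_smul {v : Mink d} {t : ℝ} (ht : 0 < t) : back hU (t • v) = back hU v := by
  rw [back, brt, Bld.rtr_smul ht.le, nrm_smul ht]
  rfl

include hF in
theorem continuousOn_back (hm : m ∈ poly e) : ContinuousOn (back hU) (tcone e m) := by
  unfold back
  refine continuousOn_nrm.comp ?_ fun v hv => hF _ (brt_mem hm hv)
  exact (Bld.continuous_rtr fun i _ => continuous_lor_left _).continuousOn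

/-! ## Classes -/

include hF in
/-- a linear functional vanishing at `m` is `≤ 0` on the face of type `T` of the polytope iff it is
`≤ 0` on the face of type `T` of the tangent cone -/
theorem le_on_face_iff (hm : m ∈ poly e) {T : Set ι} (hT : T ⊆ TT e m) {u : Mink d}
    (hu : lor u m = 0) :
    (∀ y ∈ poly e, (∀ i ∈ T, lor y (e i) = 0) → lor u y ≤ 0) ↔
      ∀ v ∈ tcone e m, (∀ i ∈ T, lor v (e i) = 0) → lor u v ≤ 0 := by
  constructor
  · intro h v hv hvT
    have hU := UU_nonempty hF hm
    have h1 := h (back hU v) (back_mem hF hm hv).1 fun i hi =>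
      (lor_back_eq_zero_iff hF hm hv (hT hi)).2 (hvT i hi)
    obtain ⟨h2, h3⟩ := tdir_back (hU := hU) hF hm hv
    have h4 : lor u (tdir m (back hU v)) = lor u (back hU v) := by
      rw [lor_symm, lor_tdir (by rw [lor_symm]; exact hu), lor_symm]
    rw [← h4, h2, lor_smul_right] at h1
    exact nonpos_of_mul_nonpos_right h1 h3
  · intro h y hy hyT
    rcases eq_or_ne y m with rfl | hne
    · rw [hu]
    · have h1 := h (tdir m y) (tdir_mem_tcone hm.1 hy hne) fun i hi => by
        rw [lor_tdir (hT hi)]; exact hyT i hi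
      rwa [lor_symm, lor_tdir (by rw [lor_symm]; exact hu), lor_symm] at h1

end

end BD
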