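import Pool.Agent.Work.MP_de2d29_al.CSkel
import Pool.Agent.Work.MP_de2d29_al.Tan
import Pool.Agent.Work.MP_de2d29_al.Boost

/-!
# The upper link of a class is an absolute extensor (point (3) of the plan)

`X` is any space with points `pt c x` (`c` a chamber, `x ∈ poly e`) and continuous retractions `ret`.
`m ∈ poly e` is the nearest point of a class, `R` the residue of the chambers containing it, of type
`T = TT e m`, `e₀` the projection of the base chamber to `R`. `Bm`: the union of the faces, not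
containing `m`, of the cells of the class. `link_aek`: `Bm` is `AEk n`.
-/

set_option autoImplicit false
set_option linter.unusedSectionVars false

open Set Topology

namespace BD

namespace Lk

open Pool.Agent.Work.MP_de2d29_al
open Pool.Agent.Work.MP_017613_gt
open Pool.Agent.Work.MP_017613_gt.Chi (TP)
open Pool.Agent.Work.MP_017613_gt.Rnd (AEk)
open scoped InnerProductSpace

/-- a function is continuous on `K` if it is so on the intersections with finitely many closed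
sets covering `K` -/
theorem continuousOn_of_pieces {A B κ : Type*} [TopologicalSpace A] [TopologicalSpace B] [Finite κ]
    {K : Set A} {F : κ → Set A} {g : A → B} (hF : ∀ i, IsClosed (F i)) (hK : K ⊆ ⋃ i, F i)
    (h : ∀ i, ContinuousOn g (K ∩ F i)) : ContinuousOn g K := by
  rw [continuousOn_iff_continuous_domRestrict]
  refine (locallyFinite_of_finite fun i => ((↑) ⁻¹' F i : Set K)).continuous ?_
    (fun i => (hF i).preimage continuous_subtype_val) fun i => ?_
  · rw [eq_univ_iff_forall]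
    intro x
    obtain ⟨i, hi⟩ := mem_iUnion.1 (hK x.2)
    exact mem_iUnion.2 ⟨i, hi⟩
  · exact (h i).comp continuous_subtype_val.continuousOn fun x hx => ⟨x.2, hx⟩

/-- absolute extensors pass to retracts -/
theorem aek_of_retract {A B : Type} [MetricSpace A] [MetricSpace B] {k : ℕ} {K : Set A}
    {Y : Set B} (hK : AEk k K) {t : B → A} {s : A → B} (ht : ContinuousOn t Y) (mt : MapsTo t Y K)
    (hs : ContinuousOn s K) (ms : MapsTo s K Y) (hst : ∀ y ∈ Y, s (t y) = y) : AEk k Y := by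
  obtain ⟨x, hx⟩ := hK.1
  refine ⟨⟨s x, ms hx⟩, ?_⟩
  intro γ _ P Q hP f₀ hc hm
  obtain ⟨F, h1, h2, h3⟩ := hK.2 γ P Q hP (fun x => t (f₀ x)) (ht.comp hc hm)
    fun x hx => mt (hm hx)
  refine ⟨fun x => s (F x), hs.comp h1 h2, fun x hx => ms (h2 hx), fun x hx => ?_⟩
  show s (F x) = f₀ x
  rw [h3 hx, hst _ (hm hx)]

section

variable {d : ℕ} {ι Ch R : Type} [Fintype ι] {M : CoxeterMatrix ι} {e : ι → Mink d}
  {B : LinearMap.BilinForm ℝ (Mink d)} (hB : ∀ x y, B x y = lor x y) (h : RootBasis M B e)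
  {m : Mink d} (hm : m ∈ poly e) {MT : CoxeterMatrix (TT e m)} (hMT : ∀ i j, MT i j = M i j)
  {φ : MT.Group →* M.Group} (hφ : ∀ i, φ (MT.simple i) = M.simple i)

/-- the roots of the walls through `m`, in the tangent space -/
noncomputable def eT (e : ι → Mink d) (m : Mink d) (i : TT e m) : EuclideanSpace ℝ (Fin d) :=
  tout m (e i)

omit [Fintype ι] in
theorem lor_e_m (i : TT e m) : lor (e i) m = 0 := by
  rw [lor_symm]
  exact i.2

omit [Fintype ι] in
include hB h hm hMT in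
theorem rootBasis_T : RootBasis MT (C.ip (EuclideanSpace ℝ (Fin d))) (eT e m) where
  symm x y := by
    show ⟪x, y⟫_ℝ = ⟪y, x⟫_ℝ
    exact real_inner_comm _ _
  fin i j hij := by
    show ⟪eT e m i, eT e m j⟫_ℝ = _
    rw [eT, eT, inner_tout hm.1 (lor_e_m i) (lor_e_m j), ← hB, hMT,
      h.fin _ _ (by rwa [hMT] at hij)]
  inf i j hij := by
    show ⟪eT e m i, eT e m j⟫_ℝ ≤ _
    rw [eT, eT, inner_tout hm.1 (lor_e_m i) (lor_e_m j), ← hB]
    exact h.inf _ _ (by rwa [hMT] at hij)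

/-- the action on Minkowski space -/
noncomputable abbrev rp (h : RootBasis M B e) (w : M.Group) (x : Mink d) : Mink d :=
  h.rho M.toCoxeterSystem w x

omit [Fintype ι] in
include hB in
theorem rp_simple (i : ι) (x : Mink d) : rp h (M.simple i) x = x - (2 * lor x (e i)) • e i := by
  have h1 := h.rho_simple_apply M.toCoxeterSystem i x
  rw [M.toCoxeterSystem_simple, hB, lor_symm] at h1
  exact h1

omit [Fintype ι] in
include hB in
theorem lor_rp (w : M.Group) (x y : Mink d) : lor (rp h w x) (rp h w y) = lor x y := by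
  rw [← hB, ← hB]
  exact h.B_rho _ w x y

omit [Fintype ι] in
include hB in
theorem lor_rp_left (w : M.Group) (x y : Mink d) : lor (rp h w x) y = lor x (rp h w⁻¹ y) := by
  rw [← hB, ← hB]
  exact h.B_rho_left _ w x y

omit [Fintype ι] in
include hB hφ in
/-- the group of the residue fixes `m` -/
theorem rp_phi_m (w : MT.Group) : rp h (φ w) m = m := by
  induction w using RootBasis.simple_induction MT.toCoxeterSystem with
  | one => rw [map_one]; exact h.rho_one _ m
  | mul i w ih =>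
    rw [map_mul, MT.toCoxeterSystem_simple, hφ, rp, h.rho_mul]
    change rp h (M.simple i) (rp h (φ w) m) = m
    rw [ih, rp_simple hB h, show lor m (e i) = 0 from i.2]
    simp

variable (hT : RootBasis MT (C.ip (EuclideanSpace ℝ (Fin d))) (eT e m))

omit [Fintype ι] in
include hB hφ hm in
/-- the action on the tangent space -/
theorem tin_act (w : MT.Group) (v : EuclideanSpace ℝ (Fin d)) :
    tin m (C.act hT w v) = rp h (φ w) (tin m v) := by
  induction w using RootBasis.simple_induction MT.toCoxeterSystem with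
  | one =>
    rw [map_one, C.act, hT.rho_one]
    exact (h.rho_one _ _).symm
  | mul i w ih =>
    rw [map_mul, C.act, hT.rho_mul, hT.rho_simple_apply, MT.toCoxeterSystem_simple, hφ, rp,
      h.rho_mul]
    change tin m (C.act hT w v - (2 * ⟪eT e m i, C.act hT w v⟫_ℝ) • eT e m i) =
      rp h (M.simple i) (rp h (φ w) (tin m v))
    rw [← ih, rp_simple hB h, map_sub, map_smul, eT, tin_tout hm.1 (lor_e_m i),
      inner_tout_left hm.1 (lor_e_m i), lor_symm (e i)]

omit [Fintype ι] in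
include hB hφ hm in
theorem act_eq (w : MT.Group) (v : EuclideanSpace ℝ (Fin d)) :
    C.act hT w v = tout m (rp h (φ w) (tin m v)) := by
  rw [← tin_act hB h hm hφ hT, tout_tin hm.1]

omit [Fintype ι] in
include hB hφ in
theorem tdir_rp (w : MT.Group) (x : Mink d) :
    tdir m (rp h (φ w) x) = rp h (φ w) (tdir m x) := by
  have h1 := lor_rp hB h (φ w) x m
  have h2 := rp_phi_m hB h hφ w
  rw [h2] at h1
  have h3 : rp h (φ w) (x + lor x m • m) = rp h (φ w) x + lor x m • rp h (φ w) m := by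
    rw [rp, map_add, map_smul]
  rw [tdir, h1, tdir, h3, h2]

/-! ### The tangent cone in the tangent space -/

omit [Fintype ι] in
include hm in
theorem inner_eT (i : TT e m) (v : EuclideanSpace ℝ (Fin d)) :
    ⟪v, eT e m i⟫_ℝ = lor (tin m v) (e i) := by
  rw [real_inner_comm, eT, inner_tout_left hm.1 (lor_e_m i), lor_symm]

omit [Fintype ι] in
include hm in
theorem mem_Dom {v : EuclideanSpace ℝ (Fin d)} :
    v ∈ RootBasis.Dom (C.ip (EuclideanSpace ℝ (Fin d))) (eT e m) ↔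
      ∀ i ∈ TT e m, lor (tin m v) (e i) ≤ 0 := by
  constructor
  · intro h i hi
    rw [← inner_eT hm ⟨i, hi⟩]
    exact h ⟨i, hi⟩
  · intro h i
    show ⟪v, eT e m i⟫_ℝ ≤ 0
    rw [inner_eT hm]
    exact h i i.2

omit [Fintype ι] in
include hm in
theorem mem_walls {v : EuclideanSpace ℝ (Fin d)} {i : TT e m} :
    i ∈ RootBasis.walls (C.ip (EuclideanSpace ℝ (Fin d))) (eT e m) v ↔
      lor (tin m v) (e i) = 0 := by
  show ⟪v, eT e m i⟫_ℝ = 0 ↔ _
  rw [inner_eT hm]

omit [Fintype ι] in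
include hm in
theorem tin_mem {v : EuclideanSpace ℝ (Fin d)} (h0 : v ≠ 0)
    (hv : v ∈ RootBasis.Dom (C.ip (EuclideanSpace ℝ (Fin d))) (eT e m)) :
    tin m v ∈ tcone e m := by
  refine ⟨fun h1 => h0 ?_, lor_tin_self hm.1 v, (mem_Dom hm).1 hv⟩
  rw [← tout_tin hm.1 v, h1, map_zero]

omit [Fintype ι] in
include hm in
theorem tout_mem {y : Mink d} (hy : y ∈ tcone e m) :
    tout m y ≠ 0 ∧ tout m y ∈ RootBasis.Dom (C.ip (EuclideanSpace ℝ (Fin d))) (eT e m) := by
  refine ⟨fun h1 => hy.1 ?_, (mem_Dom hm).2 ?_⟩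
  · rw [← tin_tout hm.1 hy.2.1, h1, map_zero]
  · rw [tin_tout hm.1 hy.2.1]
    exact hy.2.2

/-! ### The space `X` -/

variable {X : Type} [MetricSpace X] {Δ : Building M Ch} {ΔR : Building MT R} {j : R → Ch}
  (hj : ∀ a b, Δ.δ (j a) (j b) = φ (ΔR.δ a b)) {pt : Ch → Mink d → X} {ret : Ch → X → Mink d}
  (hret : ∀ a c, ∀ x ∈ poly e, ret a (pt c x) = rp h (Δ.δ a c) x)
  (cret : ∀ a, Continuous (ret a)) (cpt : ∀ c, ContinuousOn (pt c) (poly e))
  (hpt : ∀ c c', ∀ x ∈ poly e,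
    Δ.δ c c' ∈ RootBasis.par M.toCoxeterSystem (RootBasis.walls B e x) → pt c x = pt c' x)
  {c₀ : Ch} {o : Mink d}

/-- the direction of the base point, seen from the chamber `c` -/
noncomputable def uc (h : RootBasis M B e) (Δ : Building M Ch) (m : Mink d) (c₀ : Ch) (o : Mink d)
    (c : Ch) : Mink d :=
  rp h (Δ.δ c c₀) o + lor (rp h (Δ.δ c c₀) o) m • m

variable (m) in
/-- the union of the faces, not containing `m`, of the cells of the class -/
def Bm (h : RootBasis M B e) (Δ : Building M Ch) (j : R → Ch) (pt : Ch → Mink d → X) (c₀ : Ch)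
    (o : Mink d) : Set X :=
  {f | ∃ c, ∃ x ∈ outer e m, f = pt (j c) x ∧ ∀ y ∈ poly e,
    (∀ i ∈ TT e m, lor x (e i) = 0 → lor y (e i) = 0) → lor (uc h Δ m c₀ o (j c)) y ≤ 0}

omit [Fintype ι] in
include hm in
theorem lor_uc (c : Ch) : lor (uc h Δ m c₀ o c) m = 0 := by
  rw [uc, lor_add_left, lor_smul_left, hm.1.1]
  ring

omit [Fintype ι] in
include hB hφ hm in
theorem mk_apply (c a : R) (v : EuclideanSpace ℝ (Fin d)) :
    C.mk hT ΔR c v a = tout m (rp h (φ (ΔR.δ a c)) (tin m v)) := act_eq hB h hm hφ hT _ _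

variable {e₀ : R}
  (hgate : ∀ c, Δ.δ (j c) c₀ = Δ.δ (j c) (j e₀) * Δ.δ (j e₀) c₀)

omit [Fintype ι] in
include hB hφ hj hgate in
theorem uc_eq (c : R) : uc h Δ m c₀ o (j c) =
    rp h (φ (ΔR.δ c e₀)) (uc h Δ m c₀ o (j e₀)) := by
  have h1 : rp h (Δ.δ (j c) c₀) o = rp h (φ (ΔR.δ c e₀)) (rp h (Δ.δ (j e₀) c₀) o) := by
    rw [hgate, hj, rp, h.rho_mul]
  have h2 : uc h Δ m c₀ o (j c) = tdir m (rp h (Δ.δ (j c) c₀) o) := rfl
  have h3 : uc h Δ m c₀ o (j e₀) = tdir m (rp h (Δ.δ (j e₀) c₀) o) := rfl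
  rw [h2, h3, h1, tdir_rp hB h hφ]

/-- the points of the residue in the tangent picture, back in `X` -/
noncomputable def sig (hU : (UU e m).Nonempty)
    (hT : RootBasis MT (C.ip (EuclideanSpace ℝ (Fin d))) (eT e m)) (ΔR : Building MT R)
    (j : R → Ch) (pt : Ch → Mink d → X) (x₀ : X) (g : R → EuclideanSpace ℝ (Fin d)) : X :=
  open Classical in
  if H : ∃ c, ∃ v ∈ RootBasis.Dom (C.ip (EuclideanSpace ℝ (Fin d))) (eT e m),
      v ≠ 0 ∧ g = C.mk hT ΔR c v then pt (j H.choose) (back hU (tin m (g H.choose))) else x₀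

omit [Fintype ι] in
theorem mk_self (c : R) (v : EuclideanSpace ℝ (Fin d)) : C.mk hT ΔR c v c = v := by
  rw [C.mk, (ΔR.eq_one c c).2 rfl]
  exact hT.rho_one _ v

variable {hU : (UU e m).Nonempty} (hF : ∀ x ∈ pcone e, Fut x) {x₀ : X}

omit [Fintype ι] in
theorem mk_eq {c c' : R} {v v' : EuclideanSpace ℝ (Fin d)}
    (hv : v ∈ RootBasis.Dom (C.ip (EuclideanSpace ℝ (Fin d))) (eT e m))
    (hv' : v' ∈ RootBasis.Dom (C.ip (EuclideanSpace ℝ (Fin d))) (eT e m))
    (H : C.mk hT ΔR c v = C.mk hT ΔR c' v') : v' = v ∧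
      ΔR.δ c c' ∈ RootBasis.par MT.toCoxeterSystem
        (RootBasis.walls (C.ip (EuclideanSpace ℝ (Fin d))) (eT e m) v') := by
  have h1 := congrFun H c
  rw [mk_self] at h1
  have h2 : C.act hT (ΔR.δ c c') v' ∈ RootBasis.Dom (C.ip (EuclideanSpace ℝ (Fin d))) (eT e m) := by
    have h3 : C.mk hT ΔR c' v' c = C.act hT (ΔR.δ c c') v' := rfl
    rw [← h3, ← h1]
    exact hv
  obtain ⟨h3, h4⟩ := hT.fundamental MT.toCoxeterSystem hv' _ h2
  exact ⟨h3.symm.trans h1.symm, h4⟩

include hB hφ hj hpt hF hm in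
theorem pt_eq {c c' : R} {v v' : EuclideanSpace ℝ (Fin d)} (h0 : v ≠ 0)
    (hv : v ∈ RootBasis.Dom (C.ip (EuclideanSpace ℝ (Fin d))) (eT e m))
    (hv' : v' ∈ RootBasis.Dom (C.ip (EuclideanSpace ℝ (Fin d))) (eT e m))
    (H : C.mk hT ΔR c v = C.mk hT ΔR c' v') :
    pt (j c) (back hU (tin m v)) = pt (j c') (back hU (tin m v')) := by
  obtain ⟨rfl, h2⟩ := mk_eq hT hv hv' H
  have h3 := tin_mem hm h0 hv
  refine hpt _ _ _ (back_mem hF hm h3).1 ?_
  rw [hj]
  have h4 : RootBasis.par MT.toCoxeterSystem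
      (RootBasis.walls (C.ip (EuclideanSpace ℝ (Fin d))) (eT e m) v') ≤
      (RootBasis.par M.toCoxeterSystem (RootBasis.walls B e (back hU (tin m v')))).comap φ := by
    rw [RootBasis.par, Subgroup.closure_le]
    rintro _ ⟨i, hi, rfl⟩
    show φ (MT.simple i) ∈ RootBasis.par M.toCoxeterSystem
      (RootBasis.walls B e (back hU (tin m v')))
    rw [hφ]
    refine RootBasis.simple_mem_par M.toCoxeterSystem ?_
    show B _ (e i) = 0
    rw [hB, lor_back_eq_zero_iff hF hm h3 i.2]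
    exact (mem_walls hm).1 hi
  exact h4 h2

include hB hφ hj hpt hF hm in
theorem sig_mk {c : R} {v : EuclideanSpace ℝ (Fin d)} (h0 : v ≠ 0)
    (hv : v ∈ RootBasis.Dom (C.ip (EuclideanSpace ℝ (Fin d))) (eT e m)) :
    sig hU hT ΔR j pt x₀ (C.mk hT ΔR c v) = pt (j c) (back hU (tin m v)) := by
  classical
  have H : ∃ c', ∃ v' ∈ RootBasis.Dom (C.ip (EuclideanSpace ℝ (Fin d))) (eT e m),
      v' ≠ 0 ∧ C.mk hT ΔR c v = C.mk hT ΔR c' v' := ⟨c, v, hv, h0, rfl⟩
  rw [sig, dif_pos H]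
  obtain ⟨v', hv', h1, h2⟩ := H.choose_spec
  have h3 : C.mk hT ΔR c v H.choose = v' :=
    (congrFun h2 H.choose).trans (mk_self hT H.choose v')
  rw [h3]
  exact (pt_eq hB hm hφ hT hj hpt hF h0 hv hv' h2).symm

variable (hsymm : ∀ a b, ΔR.δ b a = (ΔR.δ a b)⁻¹)

omit [Fintype ι] in
include hB hφ hj hgate hm hsymm in
/-- the hemisphere condition in terms of the class -/
theorem inner_mk (c : R) (v : EuclideanSpace ℝ (Fin d)) :
    ⟪tout m (uc h Δ m c₀ o (j e₀)), C.mk hT ΔR c v e₀⟫_ℝ =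
      lor (uc h Δ m c₀ o (j c)) (tin m v) := by
  have h1 : C.mk hT ΔR c v e₀ = C.act hT (ΔR.δ e₀ c) v := rfl
  rw [h1, inner_tout_left hm.1 (lor_uc h hm _), tin_act hB h hm hφ hT,
    uc_eq hB h hφ hj hgate c, lor_rp_left hB h, ← map_inv, ← hsymm]

include hB hφ hj hgate hm hsymm hF in
/-- the hemisphere condition is the condition of the class -/
theorem class_iff (c : R) (v : EuclideanSpace ℝ (Fin d)) {x : Mink d}
    (hx : ∀ i ∈ TT e m, lor x (e i) = 0 ↔ lor (tin m v) (e i) = 0) :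
    (∀ y ∈ RootBasis.Dom (C.ip (EuclideanSpace ℝ (Fin d))) (eT e m),
      RootBasis.walls (C.ip (EuclideanSpace ℝ (Fin d))) (eT e m) v ⊆
        RootBasis.walls (C.ip (EuclideanSpace ℝ (Fin d))) (eT e m) y →
      ⟪tout m (uc h Δ m c₀ o (j e₀)), C.mk hT ΔR c y e₀⟫_ℝ ≤ 0) ↔
    ∀ y ∈ poly e, (∀ i ∈ TT e m, lor x (e i) = 0 → lor y (e i) = 0) →
      lor (uc h Δ m c₀ o (j c)) y ≤ 0 := by
  have h1 := le_on_face_iff hF hm (T := {i | i ∈ TT e m ∧ lor x (e i) = 0}) (fun i hi => hi.1)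
    (u := uc h Δ m c₀ o (j c)) (lor_uc h hm _)
  constructor
  · intro H y hy hyx
    refine h1.2 ?_ y hy fun i hi => hyx i hi.1 hi.2
    intro w hw hwx
    obtain ⟨h2, h3⟩ := tout_mem hm hw
    have h4 := H (tout m w) h3 fun i hi => by
      rw [mem_walls hm] at hi ⊢
      rw [tin_tout hm.1 hw.2.1]
      exact hwx i ⟨i.2, (hx i i.2).2 hi⟩
    rwa [inner_mk hB h hm hφ hT hj hgate hsymm, tin_tout hm.1 hw.2.1] at h4
  · intro H y hy hyv
    rw [inner_mk hB h hm hφ hT hj hgate hsymm]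
    rcases eq_or_ne y 0 with rfl | hy0
    · rw [map_zero, lor_zero_right]
    · refine h1.1 (fun z hz hzx => H z hz fun i hi hix => hzx i ⟨hi, hix⟩) _ (tin_mem hm hy0 hy) ?_
      rintro i ⟨hi, hix⟩
      have h5 := hyv (show (⟨i, hi⟩ : TT e m) ∈ _ from (mem_walls hm).2 ((hx i hi).1 hix))
      exact (mem_walls hm).1 h5

/-- the tangent picture of a point -/
noncomputable def tau (m : Mink d) (j : R → Ch) (ret : Ch → X → Mink d) (f : X) :
    R → EuclideanSpace ℝ (Fin d) := fun a => tout m (tdir m (ret (j a) f))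

omit [Fintype ι] in
include hB hφ hj hm hret in
theorem tau_pt (c : R) {x : Mink d} (hx : x ∈ poly e) :
    tau m j ret (pt (j c) x) = C.mk hT ΔR c (tout m (tdir m x)) := by
  funext a
  rw [tau, hret _ _ x hx, hj, tdir_rp hB h hφ, mk_apply hB h hm hφ hT,
    tin_tout hm.1 (lor_tdir_self hm.1 x)]

include cret in
omit [Fintype ι] in
theorem continuous_tau : Continuous (tau m j ret) :=
  continuous_pi fun a => (continuous_tout m).comp ((continuous_tdir m).comp (cret (j a)))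

include hB hφ hj hm hpt hF cpt in
theorem continuousOn_sig [Finite R] :
    ContinuousOn (sig hU hT ΔR j pt x₀) (C.Cone hT ΔR \ {0}) := by
  have hmk : ∀ c : R, Continuous fun v : EuclideanSpace ℝ (Fin d) => C.mk hT ΔR c v := fun c =>
    continuous_pi fun a => (hT.rho MT.toCoxeterSystem
      (ΔR.δ a c)).toLinearMap.continuous_of_finiteDimensional
  have hD : IsClosed (RootBasis.Dom (C.ip (EuclideanSpace ℝ (Fin d))) (eT e m)) := by
    have : RootBasis.Dom (C.ip (EuclideanSpace ℝ (Fin d))) (eT e m) =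
        ⋂ i, {v | ⟪v, eT e m i⟫_ℝ ≤ 0} := by
      ext v
      rw [mem_iInter]
      exact Iff.rfl
    rw [this]
    exact isClosed_iInter fun i => isClosed_le (by fun_prop) continuous_const
  refine continuousOn_of_pieces (F := fun c : R => {g | g c ∈ RootBasis.Dom
    (C.ip (EuclideanSpace ℝ (Fin d))) (eT e m) ∧ g = C.mk hT ΔR c (g c)}) (fun c => ?_) ?_
    fun c => ?_
  · exact (hD.preimage (continuous_apply c)).inter
      (isClosed_eq continuous_id ((hmk c).comp (continuous_apply c)))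
  · rintro g ⟨⟨c, v, hv, rfl⟩, -⟩
    refine mem_iUnion.2 ⟨c, ?_⟩
    rw [mem_ofPred_eq, mk_self]
    exact ⟨hv, rfl⟩
  · have h1 : EqOn (sig hU hT ΔR j pt x₀) (fun g => pt (j c) (back hU (tin m (g c))))
        ((C.Cone hT ΔR \ {0}) ∩ {g | g c ∈ RootBasis.Dom
          (C.ip (EuclideanSpace ℝ (Fin d))) (eT e m) ∧ g = C.mk hT ΔR c (g c)}) := by
      rintro g ⟨⟨-, hg0⟩, hg1, hg2⟩
      have h0 : g c ≠ 0 := fun h0 => hg0 (by
        rw [mem_singleton_iff, hg2, h0]
        funext a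
        exact map_zero _)
      have h2 := sig_mk (hU := hU) (x₀ := x₀) hB hm hφ hT hj hpt hF (c := c) h0 hg1
      rw [← hg2] at h2
      exact h2
    refine ContinuousOn.congr ?_ h1
    have h3 : ∀ g ∈ ((C.Cone hT ΔR \ {0}) ∩ {g | g c ∈ RootBasis.Dom
          (C.ip (EuclideanSpace ℝ (Fin d))) (eT e m) ∧ g = C.mk hT ΔR c (g c)}),
        tin m (g c) ∈ tcone e m := by
      rintro g ⟨⟨-, hg0⟩, hg1, hg2⟩
      refine tin_mem hm (fun h0 => hg0 ?_) hg1
      rw [mem_singleton_iff, hg2, h0]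
      funext a
      exact map_zero _
    exact (cpt (j c)).comp ((continuousOn_back (hU := hU) hF hm).comp
      ((continuous_tin m).comp (continuous_apply c)).continuousOn h3)
      fun g hg => (back_mem hF hm (h3 g hg)).1

omit [Fintype ι] in
theorem mk_ne_zero {c : R} {v : EuclideanSpace ℝ (Fin d)} (h0 : v ≠ 0) :
    C.mk hT ΔR c v ≠ 0 := fun H => h0 (by
  rw [← mk_self hT (ΔR := ΔR) c v, H]
  rfl)

include hB hφ hj hm hpt hF cpt hret cret hgate hsymm hMT in
/-- **The upper link of a class is an absolute extensor in dimension `≤ n`.** -/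
theorem link_aek [Fintype R] [Finite MT.Group] (hmain : C.J_MAIN) {n : ℕ} (hd : d = n + 1)
    {p₀ : Mink d} (hint : ∀ i, lor p₀ (e i) < 0)
    (u1 : ∀ i ∈ TT e m, lor (rp h (Δ.δ (j e₀) c₀) o) (e i) ≤ 0)
    (u2 : ∀ y ∈ poly e, (∀ i ∈ TT e m, lor y (e i) = 0) →
      lor (uc h Δ m c₀ o (j e₀)) y ≤ 0) :
    AEk n (Bm m h Δ j pt c₀ o) := by
  have hT := rootBasis_T hB h hm hMT
  have hU : (UU e m).Nonempty := UU_nonempty hF hm
  have huc := lor_uc (Δ := Δ) (c₀ := c₀) (o := o) h hm (j e₀)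
  have key := hmain (TT e m) (EuclideanSpace ℝ (Fin d)) R MT (eT e m) hT ΔR e₀
    (tout m (uc h Δ m c₀ o (j e₀))) n ?_ ?_ ?_ ?_
  · -- the retraction
    have x₀ : X := pt c₀ m
    refine aek_of_retract key (t := tau m j ret) (s := sig hU hT ΔR j pt x₀)
      (continuous_tau cret).continuousOn ?_ ((continuousOn_sig (x₀ := x₀) hB hm hφ hT hj cpt hpt
        hF).mono ?_) ?_ ?_
    · rintro _ ⟨c, x, hx, rfl, hcl⟩
      have h1 := tdir_mem_tcone hm.1 hx.1 (ne_of_mem_outer hx)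
      obtain ⟨h2, h3⟩ := tout_mem hm h1
      rw [tau_pt hB h hm hφ hT hj hret c hx.1]
      refine ⟨⟨c, _, h3, rfl, (class_iff hB h hm hφ hT hj hgate hF hsymm c _ ?_).2 hcl⟩,
        mk_ne_zero hT h2⟩
      intro i hi
      rw [tin_tout hm.1 h1.2.1, lor_tdir hi]
    · rintro g ⟨⟨c, v, hv, rfl, -⟩, h0⟩
      exact ⟨⟨c, v, hv, rfl⟩, h0⟩
    · rintro g ⟨⟨c, v, hv, rfl, hcl⟩, h0⟩
      have hv0 : v ≠ 0 := fun h1 => h0 (by
        rw [mem_singleton_iff, h1]
        funext a
        exact map_zero _)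
      rw [sig_mk hB hm hφ hT hj hpt hF hv0 hv]
      have h1 := tin_mem hm hv0 hv
      exact ⟨c, _, back_mem hF hm h1, rfl, (class_iff hB h hm hφ hT hj hgate hF hsymm c v
        fun i hi => lor_back_eq_zero_iff hF hm h1 hi).1 hcl⟩
    · rintro _ ⟨c, x, hx, rfl, hcl⟩
      have h1 := tdir_mem_tcone hm.1 hx.1 (ne_of_mem_outer hx)
      obtain ⟨h2, h3⟩ := tout_mem hm h1
      rw [tau_pt hB h hm hφ hT hj hret c hx.1, sig_mk hB hm hφ hT hj hpt hF h2 h3,
        tin_tout hm.1 h1.2.1, back_tdir hx]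
  · -- an interior point
    refine ⟨tout m (tdir m p₀), fun i => ?_⟩
    show ⟪tout m (tdir m p₀), eT e m i⟫_ℝ < 0
    rw [inner_eT hm, tin_tout hm.1 (lor_tdir_self hm.1 _), lor_tdir i.2]
    exact hint i
  · refine (mem_Dom hm).2 fun i hi => ?_
    rw [tin_tout hm.1 huc, uc, lor_add_left, lor_smul_left, show lor m (e i) = 0 from hi,
      mul_zero, add_zero]
    exact u1 i hi
  · intro v hv
    rw [inner_tout_left hm.1 huc]
    rcases eq_or_ne v 0 with rfl | hv0
    · rw [map_zero, lor_zero_right]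
    · have h1 := (le_on_face_iff hF hm (T := TT e m) Subset.rfl huc).1 u2
      have h2 : ∀ i ∈ TT e m, lor (tin m v) (e i) = 0 := fun i hi => by
        rw [← inner_eT hm ⟨i, hi⟩]
        exact hv ⟨i, hi⟩
      have h3 : tin m v ∈ tcone e m :=
        tin_mem hm hv0 ((mem_Dom hm).2 fun i hi => (h2 i hi).le)
      have h4 : -tin m v ∈ tcone e m := by
        refine ⟨neg_ne_zero.2 h3.1, by rw [lor_neg_left, h3.2.1, neg_zero], fun i hi => ?_⟩
        rw [lor_neg_left, h2 i hi, neg_zero]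
      have h5 := h1 _ h3 h2
      have h6 := h1 _ h4 fun i hi => by rw [lor_neg_left, h2 i hi, neg_zero]
      rw [lor_neg_right] at h6
      linarith
  · rw [finrank_euclideanSpace_fin, hd]

end

end Lk

end BD
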