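import Pool.Agent.Work.MP_de2d29_al.CoxComb
import Pool.Agent.Work.MP_de2d29_al.Gal

/-!
# Residues of a building are buildings

`subM M T`: the restriction of a Coxeter matrix to a set `T` of types. `subφ M T`: the injection of
its Coxeter group into the Coxeter group of `M`, with image `Par M T`; it preserves lengths and
descents. `Building.residue Δ T c`: the residue of type `T` of the chamber `c`, as a building of
type `subM M T`.
-/

set_option autoImplicit false

open Set

namespace BD

open Pool.Agent.Work.MP_de2d29_al Building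

variable {ι : Type}

/-- the restriction of a Coxeter matrix -/
def subM (M : CoxeterMatrix ι) (T : Set ι) : CoxeterMatrix T where
  M := Matrix.of fun i j => M i j
  isSymm := by
    ext i j
    exact M.symmetric j i
  diagonal := fun i => M.diagonal i
  off_diagonal := fun i j h => M.off_diagonal i j fun h' => h (Subtype.ext h')

variable (M : CoxeterMatrix ι) (T : Set ι)

@[simp] theorem subM_apply (i j : T) : subM M T i j = M i j := rfl

/-- the injection of the Coxeter group of `subM M T` -/
noncomputable def subφ : (subM M T).Group →* M.Group :=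
  (subM M T).toCoxeterSystem.lift ⟨fun i : T => M.simple i, fun i j =>
    M.toCoxeterSystem.simple_mul_simple_pow (i : ι) (j : ι)⟩

theorem subφ_simple (i : T) : subφ M T ((subM M T).simple i) = M.simple i :=
  (subM M T).toCoxeterSystem.lift_apply_simple (f := fun i : T => M.simple i) (fun i j =>
    M.toCoxeterSystem.simple_mul_simple_pow (i : ι) (j : ι)) i

section root

variable {M}
variable {V : Type*} [AddCommGroup V] [Module ℝ V] {B : LinearMap.BilinForm ℝ V} {e : ι → V}

/-- the restriction of a root basis -/
theorem rootBasis_sub (h : RootBasis M B e) : RootBasis (subM M T) B (fun i : T => e i) where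
  symm := h.symm
  fin := fun i j hij => h.fin i j hij
  inf := fun i j hij => h.inf i j hij

theorem rho_sub (h : RootBasis M B e) (w : (subM M T).Group) (x : V) :
    (rootBasis_sub T h).rho (subM M T).toCoxeterSystem w x =
      h.rho M.toCoxeterSystem (subφ M T w) x := by
  induction w using RootBasis.simple_induction (subM M T).toCoxeterSystem with
  | one => rw [RootBasis.rho_one, map_one (subφ M T), RootBasis.rho_one]
  | mul s w ih =>
    rw [map_mul (subφ M T), RootBasis.rho_mul, RootBasis.rho_mul, ih, RootBasis.rho_simple_apply,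
      (subM M T).toCoxeterSystem_simple, subφ_simple, ← M.toCoxeterSystem_simple,
      RootBasis.rho_simple_apply]

end root

variable {M} {T}

/-- right descents of an element of the parabolic subgroup -/
theorem subφ_right_iff {w : (subM M T).Group} {i : T} :
    M.toCoxeterSystem.IsRightDescent (subφ M T w) i ↔
      (subM M T).toCoxeterSystem.IsRightDescent w i := by
  have h := stdRoot M
  have hT := rootBasis_sub T h
  have key : ∀ {w : (subM M T).Group} {i : T},
      ¬ (subM M T).toCoxeterSystem.IsRightDescent w i →
      ¬ M.toCoxeterSystem.IsRightDescent (subφ M T w) i := by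
    intro w i hw
    have h1 := hT.tits (subM M T).toCoxeterSystem hw
    rw [rho_sub T h] at h1
    have h2 : RootBasis.cone (fun i : T => stdE ι (i : ι)) ≤ RootBasis.cone (stdE ι) :=
      Submodule.span_mono (by rintro _ ⟨i, rfl⟩; exact ⟨i, rfl⟩)
    have h3 := mem_cone_std.1 (h2 h1)
    exact (Cox.not_descent_iff M.toCoxeterSystem).2 h3
  constructor
  · intro h1
    by_contra hcon
    exact key hcon h1
  · intro h1
    have h2 := key ((subM M T).toCoxeterSystem.isRightDescent_iff_not_isRightDescent_mul.1 h1)
    rw [map_mul, (subM M T).toCoxeterSystem_simple, subφ_simple, ← M.toCoxeterSystem_simple] at h2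
    exact M.toCoxeterSystem.isRightDescent_iff_not_isRightDescent_mul.2 h2

theorem ll_subφ (w : (subM M T).Group) : ll M (subφ M T w) = ll (subM M T) w := by
  induction w using right_induction with
  | one => rw [map_one, ll_one, ll_one]
  | mul u i hu ih =>
    have h1 : (subM M T).toCoxeterSystem.IsRightDescent (u * (subM M T).simple i) i := by
      rw [(subM M T).toCoxeterSystem.isRightDescent_iff, (subM M T).toCoxeterSystem_simple,
        mul_simple_cancel]
      exact hu.symm
    have h2 := M.toCoxeterSystem.isRightDescent_iff.1 (subφ_right_iff.2 h1)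
    rw [map_mul, subφ_simple, M.toCoxeterSystem_simple, mul_simple_cancel] at h2
    rw [map_mul, subφ_simple, hu, ← ih]
    exact h2.symm

theorem subφ_injective : Function.Injective (subφ M T) := by
  rw [injective_iff_map_eq_one]
  intro w hw
  rw [← ll_eq_zero, ← ll_subφ, hw, ll_one]

theorem range_subφ : (subφ M T).range = Par M T := by
  rw [MonoidHom.range_eq_map, ← (subM M T).toCoxeterSystem.subgroup_closure_range_simple,
    MonoidHom.map_closure]
  congr 1
  ext x
  constructor
  · rintro ⟨_, ⟨i, rfl⟩, rfl⟩
    exact ⟨i, i.2, by rw [(subM M T).toCoxeterSystem_simple, subφ_simple]; rfl⟩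
  · rintro ⟨i, hi, rfl⟩
    exact ⟨_, ⟨⟨i, hi⟩, rfl⟩, by rw [(subM M T).toCoxeterSystem_simple, subφ_simple]; rfl⟩

theorem subφ_mem (w : (subM M T).Group) : subφ M T w ∈ Par M T := by
  rw [← range_subφ]
  exact ⟨w, rfl⟩

theorem exists_subφ {u : M.Group} (hu : u ∈ Par M T) : ∃ w, subφ M T w = u := by
  rw [← range_subφ] at hu
  exact hu

theorem finite_subM (h : (Par M T : Set M.Group).Finite) : Finite (subM M T).Group := by
  have := h.to_subtype
  exact Finite.of_injective (fun w => (⟨subφ M T w, subφ_mem w⟩ : (Par M T : Set M.Group)))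
    fun a b hab => subφ_injective (congrArg Subtype.val hab)

namespace Building

variable {C : Type} (Δ : Building M C)

variable (T) in
/-- the set of chambers of the residue of type `T` of `c` -/
abbrev ResT (c : C) : Type := {c' : C // Δ.δ c c' ∈ Par M T}

theorem res_mem {c : C} (a b : Δ.ResT T c) : Δ.δ a b ∈ Par M T :=
  Δ.res_trans (Δ.res_symm a.2) b.2

variable (T) in
/-- the Weyl distance of a residue -/
noncomputable def resδ (c : C) (a b : Δ.ResT T c) : (subM M T).Group :=
  Classical.choose (exists_subφ (Δ.res_mem a b))

theorem subφ_resδ (c : C) (a b : Δ.ResT T c) : subφ M T (Δ.resδ T c a b) = Δ.δ a b :=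
  Classical.choose_spec (exists_subφ (Δ.res_mem a b))

variable (T) in
/-- the residue of type `T` of `c` is a building -/
noncomputable def residue (c : C) : Building (subM M T) (Δ.ResT T c) where
  δ := Δ.resδ T c
  ne := ⟨⟨c, Δ.res_self c⟩⟩
  eq_one := fun a b => by
    rw [← subφ_injective.eq_iff, map_one, subφ_resδ, Δ.eq_one]
    exact Subtype.ext_iff.symm
  step := fun a' a b i h => by
    rw [← subφ_injective.eq_iff, subφ_resδ, subφ_simple] at h
    rw [← subφ_injective.eq_iff, ← subφ_injective.eq_iff (a := Δ.resδ T c a' b), map_mul,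
      subφ_simple, subφ_resδ, subφ_resδ]
    exact Δ.step _ _ _ _ h
  step_up := fun a' a b i h hl => by
    rw [← subφ_injective.eq_iff, subφ_resδ, subφ_simple] at h
    rw [← subφ_injective.eq_iff, map_mul, subφ_simple, subφ_resδ, subφ_resδ]
    refine Δ.step_up _ _ _ _ h ?_
    have h1 := ll_subφ ((subM M T).simple i * Δ.resδ T c a b)
    have h2 := ll_subφ (Δ.resδ T c a b)
    rw [map_mul, subφ_simple, subφ_resδ] at h1
    rw [subφ_resδ] at h2
    show ll M _ = ll M _ + 1
    rw [h1, h2]
    exact hl
  exist := fun a b i => by
    obtain ⟨c', h1, h2⟩ := Δ.exist a b i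
    have h3 : Δ.δ c c' ∈ Par M T := by
      refine Δ.res_trans a.2 (Δ.res_symm ?_)
      rw [h1]
      exact simple_mem_Par i.2
    refine ⟨⟨c', h3⟩, ?_, ?_⟩
    · rw [← subφ_injective.eq_iff, subφ_resδ, subφ_simple]
      exact h1
    · rw [← subφ_injective.eq_iff, map_mul, subφ_resδ, subφ_resδ, subφ_simple]
      exact h2

theorem residue_δ (c : C) (a b : Δ.ResT T c) : subφ M T ((Δ.residue T c).δ a b) = Δ.δ a b :=
  Δ.subφ_resδ c a b

/-- residues of thick buildings are thick -/
theorem Thick.residue {Δ : Building M C} (h : Δ.Thick) (c : C) : (Δ.residue T c).Thick := by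
  intro a i
  obtain ⟨c', c'', hne, h1, h2⟩ := h a i
  have hm : ∀ b, Δ.δ b a = M.simple i → Δ.δ c b ∈ Par M T := fun b hb => by
    refine Δ.res_trans a.2 (Δ.res_symm ?_)
    rw [hb]
    exact simple_mem_Par i.2
  refine ⟨⟨c', hm _ h1⟩, ⟨c'', hm _ h2⟩, fun h' => hne (congrArg Subtype.val h'), ?_, ?_⟩
  · rw [← subφ_injective.eq_iff, residue_δ, subφ_simple]
    exact h1
  · rw [← subφ_injective.eq_iff, residue_δ, subφ_simple]
    exact h2

/-- residues of locally finite buildings are locally finite -/
theorem LocFinite.residue {Δ : Building M C} (h : Δ.LocFinite) (c : C) :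
    (Δ.residue T c).LocFinite := by
  intro a i
  refine Set.Finite.of_finite_image ((h a i).subset ?_) Subtype.val_injective.injOn
  rintro _ ⟨b, hb, rfl⟩
  have hb' : (Δ.residue T c).δ b a = (subM M T).simple i := hb
  show Δ.δ b a = M.simple i
  rw [← residue_δ Δ c b a, hb', subφ_simple]

/-- in a locally finite building there are finitely many chambers at a given Weyl distance -/
theorem LocFinite.finite_δ {Δ : Building M C} (h : Δ.LocFinite) (c : C) (w : M.Group) :
    {c' | Δ.δ c c' = w}.Finite := by
  induction w using right_induction with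
  | one =>
    refine (Set.finite_singleton c).subset fun c' hc' => ?_
    exact (Δ.eq_of_δ hc').symm
  | mul u i hu ih =>
    refine (ih.biUnion fun b _ => h b i).subset fun c' hc' => ?_
    obtain ⟨b, h1, h2⟩ := Δ.exists_between c c' u (M.simple i) hc'
    rw [mem_iUnion₂]
    exact ⟨b, h1, Δ.adj_symm h2⟩

/-- spherical residues of locally finite buildings are finite -/
theorem LocFinite.finite_res {Δ : Building M C} (h : Δ.LocFinite)
    (hT : (Par M T : Set M.Group).Finite) (c : C) : Finite (Δ.ResT T c) := by
  have h1 : {c' | Δ.δ c c' ∈ Par M T}.Finite := by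
    refine (hT.biUnion fun w _ => h.finite_δ c w).subset fun c' hc' => ?_
    rw [mem_iUnion₂]
    exact ⟨_, hc', rfl⟩
  exact h1.to_subtype

end Building

end BD
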