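import Pool.Agent.Work.MP_de2d29_al.CHemi2
import Pool.Agent.Work.MP_de2d29_al.LinkAE
import Pool.Agent.Work.MP_de2d29_al.Res
import Pool.Agent.Work.MP_de2d29_al.XRet
import Pool.Agent.Work.MP_de2d29_al.CoverRep

/-!
# The link of a class for an arbitrary functional (block F, F4)

`link_aek2`: `link_aek` for an arbitrary vector `ξ` (the pole) and an arbitrary centre chamber
`c₀`: the function is `x ↦ - lor (δ(c₀, c) x) ξ`, `x` in the chamber `c`.
`X.link_aek`: the same in the realization `X hP Δ` of a locally finite building.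
-/

set_option autoImplicit false
set_option linter.unusedSectionVars false

open Set Topology

namespace BD

namespace Lk

open Pool.Agent.Work.MP_de2d29_al
open Pool.Agent.Work.MP_017613_gt
open Pool.Agent.Work.MP_017613_gt.Chi (TP)
open Pool.Agent.Work.MP_017613_gt.Rnd (AEk)
open scoped InnerProductSpace

section

variable {d : ℕ} {ι Ch R : Type} [Fintype ι] {M : CoxeterMatrix ι} {e : ι → Mink d}
  {B : LinearMap.BilinForm ℝ (Mink d)} (hB : ∀ x y, B x y = lor x y) (h : RootBasis M B e)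
  {m : Mink d} (hm : m ∈ poly e) {MT : CoxeterMatrix (TT e m)} (hMT : ∀ i j, MT i j = M i j)
  {φ : MT.Group →* M.Group} (hφ : ∀ i, φ (MT.simple i) = M.simple i)
  {X : Type} [MetricSpace X] {Δ : Building M Ch} {ΔR : Building MT R} {j : R → Ch}
  (hj : ∀ a b, Δ.δ (j a) (j b) = φ (ΔR.δ a b)) {pt : Ch → Mink d → X} {ret : Ch → X → Mink d}
  (hret : ∀ a c, ∀ x ∈ poly e, ret a (pt c x) = rp h (Δ.δ a c) x)
  (cret : ∀ a, Continuous (ret a)) (cpt : ∀ c, ContinuousOn (pt c) (poly e))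
  (hpt : ∀ c c', ∀ x ∈ poly e,
    Δ.δ c c' ∈ RootBasis.par M.toCoxeterSystem (RootBasis.walls B e x) → pt c x = pt c' x)
  {c₀ : Ch} {o : Mink d} {e₀ : R}
  (hgate : ∀ c, Δ.δ (j c) c₀ = Δ.δ (j c) (j e₀) * Δ.δ (j e₀) c₀)
  (hF : ∀ x ∈ pcone e, Fut x) (hsymm : ∀ a b, ΔR.δ b a = (ΔR.δ a b)⁻¹)

include hB hφ hj hm hpt hF cpt hret cret hgate hsymm hMT in
/-- **The upper link of a class is an absolute extensor in dimension `≤ n`**, for an arbitrary
vector `o` (the pole) and an arbitrary centre `c₀`. -/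
theorem link_aek2 [Fintype R] [Finite MT.Group] (hmain : C.J_MAIN2) {n : ℕ} (hd : d = n + 1)
    {p₀ : Mink d} (hint : ∀ i, lor p₀ (e i) < 0)
    (u2 : ∀ y ∈ poly e, (∀ i ∈ TT e m, lor y (e i) = 0) →
      lor (uc h Δ m c₀ o (j e₀)) y ≤ 0) :
    AEk n (Bm m h Δ j pt c₀ o) := by
  have hT := rootBasis_T hB h hm hMT
  have hU : (UU e m).Nonempty := UU_nonempty hF hm
  have huc := lor_uc (Δ := Δ) (c₀ := c₀) (o := o) h hm (j e₀)
  have key := hmain (TT e m) (EuclideanSpace ℝ (Fin d)) R MT (eT e m) hT ΔR e₀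
    (tout m (uc h Δ m c₀ o (j e₀))) n ?_ ?_ ?_
  · -- the retraction
    have x₀ : X := pt c₀ m
    refine aek_of_retract key (t := tau m j ret) (s := sig hU hT ΔR j pt x₀)
      (continuous_tau cret).continuousOn ?_ ((continuousOn_sig (x₀ := x₀) hB hm hφ hT hj cpt hpt
        hF).mono ?_) ?_ ?_
    · rintro _ ⟨c, x, hx, rfl, hcl⟩
      have h1 := tdir_mem_tcone hm.1 hx.1 (ne_of_mem_outer hx)
      obtain ⟨h2, h3⟩ := tout_mem hm h1
      rw [tau_pt hB h hm hφ hT hj hret c hx.1]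
      refine ⟨⟨c, _, h3, rfl, (class_iff hB h hm hφ hT hj hgate hF hsymm c _ ?_).2 hcl⟩,
        mk_ne_zero hT h2⟩
      intro i hi
      rw [tin_tout hm.1 h1.2.1, lor_tdir hi]
    · rintro g ⟨⟨c, v, hv, rfl, -⟩, h0⟩
      exact ⟨⟨c, v, hv, rfl⟩, h0⟩
    · rintro g ⟨⟨c, v, hv, rfl, hcl⟩, h0⟩
      have hv0 : v ≠ 0 := fun h1 => h0 (by
        rw [mem_singleton_iff, h1]
        funext a
        exact map_zero _)
      rw [sig_mk hB hm hφ hT hj hpt hF hv0 hv]
      have h1 := tin_mem hm hv0 hv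
      exact ⟨c, _, back_mem hF hm h1, rfl, (class_iff hB h hm hφ hT hj hgate hF hsymm c v
        fun i hi => lor_back_eq_zero_iff hF hm h1 hi).1 hcl⟩
    · rintro _ ⟨c, x, hx, rfl, hcl⟩
      have h1 := tdir_mem_tcone hm.1 hx.1 (ne_of_mem_outer hx)
      obtain ⟨h2, h3⟩ := tout_mem hm h1
      rw [tau_pt hB h hm hφ hT hj hret c hx.1, sig_mk hB hm hφ hT hj hpt hF h2 h3,
        tin_tout hm.1 h1.2.1, back_tdir hx]
  · -- an interior point
    refine ⟨tout m (tdir m p₀), fun i => ?_⟩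
    show ⟪tout m (tdir m p₀), eT e m i⟫_ℝ < 0
    rw [inner_eT hm, tin_tout hm.1 (lor_tdir_self hm.1 _), lor_tdir i.2]
    exact hint i
  · intro v hv
    rw [inner_tout_left hm.1 huc]
    rcases eq_or_ne v 0 with rfl | hv0
    · rw [map_zero, lor_zero_right]
    · have h1 := (le_on_face_iff hF hm (T := TT e m) Subset.rfl huc).1 u2
      have h2 : ∀ i ∈ TT e m, lor (tin m v) (e i) = 0 := fun i hi => by
        rw [← inner_eT hm ⟨i, hi⟩]
        exact hv ⟨i, hi⟩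
      have h3 : tin m v ∈ tcone e m :=
        tin_mem hm hv0 ((mem_Dom hm).2 fun i hi => (h2 i hi).le)
      have h4 : -tin m v ∈ tcone e m := by
        refine ⟨neg_ne_zero.2 h3.1, by rw [lor_neg_left, h3.2.1, neg_zero], fun i hi => ?_⟩
        rw [lor_neg_left, h2 i hi, neg_zero]
      have h5 := h1 _ h3 h2
      have h6 := h1 _ h4 fun i hi => by rw [lor_neg_left, h2 i hi, neg_zero]
      rw [lor_neg_right] at h6
      linarith
  · rw [finrank_euclideanSpace_fin, hd]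

end

end Lk

section concrete

open Pool.Agent.Work.MP_de2d29_al
open Pool.Agent.Work.MP_017613_gt.Rnd (AEk)

variable {n : ℕ} {ι Ch : Type} [Fintype ι] {M : CoxeterMatrix ι} {e : ι → Mink (n + 1)}
  (hP : CoxPoly M e) (Δ : Building M Ch)

/-- the direction of the pole `ξ` at `m`, in the chart of the chamber `c`; the centre is the
chamber `c₀` -/
noncomputable def X.uc (m ξ : Mink (n + 1)) (c₀ c : Ch) : Mink (n + 1) :=
  hP.rep (Δ.δ c c₀) ξ + lor (hP.rep (Δ.δ c c₀) ξ) m • m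

/-- the union of the faces, not containing the point `(c₁, m)`, of the cells of its class -/
def X.Bm (m ξ : Mink (n + 1)) (c₀ c₁ : Ch) : Set (X hP Δ) :=
  {p | ∃ c, Δ.δ c₁ c ∈ parab M (wallsOf e m) ∧ ∃ x : poly e, (x : Mink (n + 1)) ∈ outer e m ∧
    p = X.mk hP Δ c x ∧ ∀ y ∈ poly e,
      (∀ i, lor m (e i) = 0 → lor (x : Mink (n + 1)) (e i) = 0 → lor y (e i) = 0) →
      lor (X.uc hP Δ m ξ c₀ c) y ≤ 0}

/-- **The link of a class in `X` is an absolute extensor in dimension `≤ n`**, for an arbitrary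
centre `c₀` and an arbitrary pole `ξ`. The condition `h2`: `m` is the nearest point of the
smallest cell that contains it. -/
theorem X.aek_Bm (hmain : C.J_MAIN2) (hL : Δ.LocFinite) {m : Mink (n + 1)} (hm : m ∈ poly e)
    (ξ : Mink (n + 1)) (c₀ c₁ : Ch)
    (h2 : ∀ c, Δ.δ c₁ c ∈ parab M (wallsOf e m) → ∀ y ∈ poly e,
      (∀ i, lor m (e i) = 0 → lor y (e i) = 0) → lor (X.uc hP Δ m ξ c₀ c) y ≤ 0) :
    AEk n (X.Bm hP Δ m ξ c₀ c₁) := by
  classical
  have : Nonempty ι := hP.nonempty_index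
  obtain ⟨p₀, hp₀, hint⟩ := hP.inter
  have hp : p₀ ∈ poly e := ⟨hp₀, fun i => (hint i).le⟩
  have hF : ∀ x ∈ pcone e, Fut x := fun x hx => fut_of_mem_pcone hP.compact hp₀ hint hx
  set T : Set ι := TT e m with hT
  have hfin : (Building.Par M T : Set M.Group).Finite := hP.finite_parab hm.1
  have : Finite (subM M T).Group := finite_subM hfin
  have : Finite (Δ.ResT T c₁) := hL.finite_res hfin c₁
  have : Fintype (Δ.ResT T c₁) := Fintype.ofFinite _
  -- the gate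
  obtain ⟨g, hg1, hg2⟩ := Δ.exists_proj T c₀ c₁
  have hg3 : Δ.δ c₁ g ∈ Building.Par M T := Δ.res_symm hg1
  set e₀ : Δ.ResT T c₁ := ⟨g, hg3⟩ with he₀
  have hgate : ∀ c : Δ.ResT T c₁, Δ.δ (c : Ch) c₀ = Δ.δ (c : Ch) (e₀ : Ch) * Δ.δ (e₀ : Ch) c₀ := by
    intro c
    have h3 : Δ.δ g (c : Ch) ∈ Building.Par M T := Δ.res_trans hg1 c.2
    have h4 := (hg2.btw h3).1
    rw [Δ.δ_symm c₀ (c : Ch), h4, mul_inv_rev, ← Δ.δ_symm, ← Δ.δ_symm]
  -- the points
  set pt : Ch → Mink (n + 1) → X hP Δ := fun c x =>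
    if hx : x ∈ poly e then X.mk hP Δ c ⟨x, hx⟩ else X.mk hP Δ c ⟨p₀, hp⟩ with hpt
  have hpt1 : ∀ c (x : poly e), pt c x = X.mk hP Δ c x := fun c x => by
    rw [hpt]
    exact dif_pos x.2
  have key := Lk.link_aek2 (n := n) (fun x y => lorB_apply x y) hP.rootBasis hm (MT := subM M T)
    (fun i j => rfl) (φ := subφ M T) (fun i => subφ_simple M T i) (ΔR := Δ.residue T c₁)
    (j := Subtype.val) (fun a b => (Δ.residue_δ c₁ a b).symm) (pt := pt)
    (ret := fun a => X.ret hP Δ a) (fun a c x hx => ?_) (fun a => X.continuous_ret hP Δ a)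
    (fun c => ?_) (fun c c' x hx h => ?_) (c₀ := c₀) (o := ξ) (e₀ := e₀) hgate hF
    (fun a b => (Δ.residue T c₁).δ_symm a b) hmain rfl hint fun y hy hyT =>
      h2 g hg3 y hy fun i hi => hyT i hi
  · refine (iff_of_eq (congrArg (AEk n) ?_)).1 key
    ext p
    constructor
    · rintro ⟨c, x, hx, h3, h4⟩
      refine ⟨c, c.2, ⟨x, hx.1⟩, hx, ?_, fun y hy hyx => h4 y hy hyx⟩
      rw [h3]
      exact hpt1 c ⟨x, hx.1⟩
    · rintro ⟨c, hc, x, hx, h3, h4⟩
      refine ⟨⟨c, hc⟩, x, hx, ?_, fun y hy hyx => h4 y hy hyx⟩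
      rw [h3]
      exact (hpt1 c x).symm
  · show X.ret hP Δ a (pt c x) = _
    rw [show pt c x = X.mk hP Δ c ⟨x, hx⟩ from hpt1 c ⟨x, hx⟩, X.ret_mk]
    rfl
  · rw [continuousOn_iff_continuous_domRestrict]
    refine (X.continuous_mk hP Δ c).congr fun x => ?_
    exact (hpt1 c x).symm
  · rw [show pt c x = X.mk hP Δ c ⟨x, hx⟩ from hpt1 c ⟨x, hx⟩,
      show pt c' x = X.mk hP Δ c' ⟨x, hx⟩ from hpt1 c' ⟨x, hx⟩, X.mk_eq_iff]
    exact ⟨rfl, h⟩

end concrete

end BD
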