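import Pool.Agent.Work.MP_de2d29_al.Fin
import Pool.Agent.Work.MP_017613_gt.Literal

/-!
# BUILDING: the main theorem, with the literal definition of the Menger compactum
-/

set_option autoImplicit false

open Set
open scoped NNReal ENNReal

namespace BD

/-- **The main theorem**, with the literal Menger compactum `MG.menger n m`. -/
theorem main_menger (n : ℕ) (hn : 1 ≤ n) (ι : Type) [Finite ι] (M : CoxeterMatrix ι)
    (e : ι → Mink (n + 1)) (hP : IsCoxeterPolytope M e) (C : Type) (Δ : Building M C)
    (hT : Δ.Thick) (hL : Δ.LocFinite) (o : Space e Δ) (m : ℕ) (hm : 2 * n + 1 ≤ m) :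
    Nonempty (Bdry e Δ o ≃ₜ (MG.menger n m : Set (Fin m → ℝ))) := by
  rw [MG.menger_eq_mu]
  exact main n hn ι M e hP C Δ hT hL o m hm

end BD
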