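import Pool.Agent.Work.MP_de2d29_al.Rad

/-!
# Nearest points in convex cones of the hyperboloid model

`C` is a convex cone of future timelike vectors. `m ∈ C`, `mb m m = -1`, minimizes `-mb o` on the
unit vectors of `C` iff `mb (o + mb o m • m) y ≤ 0` for all `y ∈ C`. Then
`cosh h(y) ≥ cosh h(m) * cosh d(m, y)`.
-/

open Real

namespace Bld

variable {E : Type*} [NormedAddCommGroup E] [InnerProductSpace ℝ E]

/-! ## The form -/

theorem mb_comm (p q : E × ℝ) : mb p q = mb q p := by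
  simp only [mb, real_inner_comm, mul_comm]

theorem mb_add_left (p q r : E × ℝ) : mb (p + q) r = mb p r + mb q r := by
  simp only [mb, Prod.fst_add, Prod.snd_add, inner_add_left]
  ring

theorem mb_add_right (p q r : E × ℝ) : mb p (q + r) = mb p q + mb p r := by
  rw [mb_comm, mb_add_left, mb_comm q, mb_comm r]

theorem mb_smul_left (t : ℝ) (p q : E × ℝ) : mb (t • p) q = t * mb p q := by
  simp only [mb, Prod.smul_fst, Prod.smul_snd, real_inner_smul_left, smul_eq_mul]
  ring

theorem mb_smul_right (t : ℝ) (p q : E × ℝ) : mb p (t • q) = t * mb p q := by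
  rw [mb_comm, mb_smul_left, mb_comm]

theorem mb_neg_left (p q : E × ℝ) : mb (-p) q = -mb p q := by
  have := mb_smul_left (-1) p q
  simpa using this

theorem mb_neg_right (p q : E × ℝ) : mb p (-q) = -mb p q := by
  rw [mb_comm, mb_neg_left, mb_comm]

theorem mb_sub_left (p q r : E × ℝ) : mb (p - q) r = mb p r - mb q r := by
  rw [sub_eq_add_neg, mb_add_left, mb_neg_left]
  ring

theorem mb_sub_right (p q r : E × ℝ) : mb p (q - r) = mb p q - mb p r := by
  rw [sub_eq_add_neg, mb_add_right, mb_neg_right]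
  ring

/-- future timelike vectors -/
def Fut (p : E × ℝ) : Prop := mb p p < 0 ∧ 0 < p.2

/-- points of the hyperboloid -/
def IsPt (p : E × ℝ) : Prop := mb p p = -1 ∧ 0 < p.2

theorem IsPt.fut {p : E × ℝ} (h : IsPt p) : Fut p := ⟨by rw [h.1]; norm_num, h.2⟩

theorem Fut.norm_lt {p : E × ℝ} (h : Fut p) : ‖p.1‖ < p.2 := by
  have h1 := h.1
  simp only [mb, real_inner_self_eq_norm_sq] at h1
  exact abs_lt_of_sq_lt_sq' (by nlinarith) h.2.le |>.2

theorem fut_iff {p : E × ℝ} : Fut p ↔ ‖p.1‖ < p.2 := by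
  refine ⟨Fut.norm_lt, fun h => ⟨?_, (norm_nonneg _).trans_lt h⟩⟩
  simp only [mb, real_inner_self_eq_norm_sq]
  have := norm_nonneg p.1
  nlinarith

theorem Fut.add {p q : E × ℝ} (hp : Fut p) (hq : Fut q) : Fut (p + q) := by
  rw [fut_iff] at hp hq ⊢
  exact (norm_add_le _ _).trans_lt (add_lt_add hp hq)

theorem Fut.smul {p : E × ℝ} (hp : Fut p) {t : ℝ} (ht : 0 < t) : Fut (t • p) := by
  rw [fut_iff] at hp ⊢
  simp only [Prod.smul_fst, Prod.smul_snd, norm_smul, smul_eq_mul, Real.norm_eq_abs, abs_of_pos ht]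
  exact mul_lt_mul_of_pos_left hp ht

theorem Fut.mb_neg {p q : E × ℝ} (hp : Fut p) (hq : Fut q) : mb p q < 0 := by
  rw [fut_iff] at hp hq
  have h1 := real_inner_le_norm p.1 q.1
  have h2 : ‖p.1‖ * ‖q.1‖ < p.2 * q.2 :=
    mul_lt_mul'' hp hq (norm_nonneg _) (norm_nonneg _)
  simp only [mb]
  linarith

/-- the form is positive on the orthogonal complement of a timelike vector -/
theorem mb_self_nonneg {p v : E × ℝ} (hp : Fut p) (h : mb p v = 0) : 0 ≤ mb v v := by
  have h1 := fut_iff.1 hp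
  have h0 : 0 < p.2 := hp.2
  simp only [mb] at h ⊢
  rw [real_inner_self_eq_norm_sq]
  have h2 : |p.2 * v.2| ≤ ‖p.1‖ * ‖v.1‖ := by
    rw [← sub_eq_zero.1 h]
    exact abs_real_inner_le_norm _ _
  rw [abs_mul, abs_of_pos h0] at h2
  have h3 : |v.2| ≤ ‖v.1‖ := by
    by_contra hc
    push Not at hc
    have h4 : ‖p.1‖ * ‖v.1‖ ≤ p.2 * ‖v.1‖ :=
      mul_le_mul_of_nonneg_right h1.le (norm_nonneg _)
    have h5 := mul_lt_mul_of_pos_left hc h0
    linarith
  have h6 := pow_le_pow_left₀ (abs_nonneg _) h3 2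
  rw [sq_abs] at h6
  linarith

theorem mb_self_pos {p v : E × ℝ} (hp : Fut p) (h : mb p v = 0) (hv : v ≠ 0) : 0 < mb v v := by
  refine lt_of_le_of_ne (mb_self_nonneg hp h) fun h0 => hv ?_
  have h1 := fut_iff.1 hp
  have hp0 : 0 < p.2 := hp.2
  simp only [mb] at h h0
  rw [real_inner_self_eq_norm_sq] at h0
  have h2 : |p.2 * v.2| ≤ ‖p.1‖ * ‖v.1‖ := by
    rw [← sub_eq_zero.1 h]
    exact abs_real_inner_le_norm _ _
  rw [abs_mul, abs_of_pos hp0] at h2
  have h3 : |v.2| = ‖v.1‖ := by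
    rw [← abs_of_nonneg (norm_nonneg v.1), ← sq_eq_sq_iff_abs_eq_abs]
    linarith
  rw [h3] at h2
  have h4 : ‖v.1‖ = 0 := by
    by_contra hc
    have h5 : 0 < ‖v.1‖ := lt_of_le_of_ne (norm_nonneg _) (Ne.symm hc)
    have h6 := mul_lt_mul_of_pos_right h1 h5
    linarith
  refine Prod.ext (norm_eq_zero.1 h4) ?_
  rw [h4] at h3
  exact abs_eq_zero.1 h3

/-- reversed Cauchy-Schwarz, for points of the hyperboloid -/
theorem one_le_neg_mb {p q : E × ℝ} (hp : IsPt p) (hq : IsPt q) : 1 ≤ -mb p q := by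
  have h1 : mb p (q + mb p q • p) = 0 := by
    rw [mb_add_right, mb_smul_right, hp.1]
    ring
  have h2 := mb_self_nonneg hp.fut h1
  rw [mb_add_left, mb_add_right, mb_add_right, mb_smul_left, mb_smul_left, mb_smul_right,
    mb_smul_right, hp.1, hq.1, mb_comm q p] at h2
  have h3 := hp.fut.mb_neg hq.fut
  nlinarith

theorem eq_of_mb_eq {p q : E × ℝ} (hp : IsPt p) (hq : IsPt q) (h : -mb p q = 1) : p = q := by
  have h1 : mb p (q + mb p q • p) = 0 := by
    rw [mb_add_right, mb_smul_right, hp.1]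
    ring
  have h2 : mb (q + mb p q • p) (q + mb p q • p) = 0 := by
    rw [mb_add_left, mb_add_right, mb_add_right, mb_smul_left, mb_smul_left, mb_smul_right,
      mb_smul_right, hp.1, hq.1, mb_comm q p]
    have h3 : mb p q = -1 := by linarith
    rw [h3]
    ring
  by_contra hne
  have h3 : q + mb p q • p ≠ 0 := by
    have h4 : mb p q = -1 := by linarith
    rw [h4]
    intro h5
    apply hne
    have : q - p = 0 := by rw [← h5]; module
    exact (sub_eq_zero.1 this).symm
  have := mb_self_pos hp.fut h1 h3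
  linarith

/-! ## Nearest points -/

/-- convex cones of future timelike vectors -/
structure FCone (C : Set (E × ℝ)) : Prop where
  add : ∀ x ∈ C, ∀ y ∈ C, x + y ∈ C
  smul : ∀ x ∈ C, ∀ t : ℝ, 0 < t → t • x ∈ C
  fut : ∀ x ∈ C, Fut x

/-- the criterion implies the estimate -/
theorem cosh_mul_le {o m y : E × ℝ} (h : mb (o + mb o m • m) y ≤ 0) :
    -mb o m * -mb m y ≤ -mb o y := by
  rw [mb_add_left, mb_smul_left] at h
  linarith

/-- the minimum has the property of the criterion -/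
theorem criterion {C : Set (E × ℝ)} (hC : FCone C) {o m : E × ℝ} (ho : IsPt o)
    (hm : IsPt m) (hmC : m ∈ C) (hmin : ∀ y ∈ C, IsPt y → -mb o m ≤ -mb o y) {y : E × ℝ}
    (hy : y ∈ C) : mb (o + mb o m • m) y ≤ 0 := by
  rw [mb_add_left, mb_smul_left]
  by_contra hc
  push Not at hc
  set a : ℝ := -mb o m with ha
  set b : ℝ := -mb o y with hb
  set c : ℝ := -mb m y with hcdef
  set q : ℝ := -mb y y with hq
  have hyF := hC.fut y hy
  have q0 : 0 < q := by have := hyF.1; linarith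
  have a0 : 0 < a := by have := ho.fut.mb_neg hm.fut; linarith
  have b0 : 0 < b := by have := ho.fut.mb_neg hyF; linarith
  have c0 : 0 < c := by have := hm.fut.mb_neg hyF; linarith
  have hbc : b < a * c := by
    have e1 : mb o y = -b := by rw [hb]; ring
    have e2 : mb o m = -a := by rw [ha]; ring
    have e3 : mb m y = -c := by rw [hcdef]; ring
    rw [e1, e2, e3] at hc
    linarith
  -- for all `t > 0`, `a ^ 2 (1 + 2 t c + t ^ 2 q) ≤ (a + t b) ^ 2`
  have key : ∀ t > 0, a ^ 2 * (1 + 2 * t * c + t ^ 2 * q) ≤ (a + t * b) ^ 2 := by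
    intro t ht
    have hz : m + t • y ∈ C := hC.add _ hmC _ (hC.smul _ hy t ht)
    have hzF := hC.fut _ hz
    set n2 : ℝ := 1 + 2 * t * c + t ^ 2 * q with hn2
    have hn : -mb (m + t • y) (m + t • y) = n2 := by
      rw [mb_add_left, mb_add_right, mb_add_right, mb_smul_left, mb_smul_left, mb_smul_right,
        mb_smul_right, hm.1, mb_comm y m, hn2, hcdef, hq]
      ring
    have n20 : 0 < n2 := by rw [← hn]; have := hzF.1; linarith
    set s : ℝ := √n2 with hs
    have s0 : 0 < s := Real.sqrt_pos.2 n20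
    have hs2 : s ^ 2 = n2 := Real.sq_sqrt n20.le
    have hp : IsPt (s⁻¹ • (m + t • y)) := by
      refine ⟨?_, (hzF.smul (inv_pos.2 s0)).2⟩
      rw [mb_smul_left, mb_smul_right]
      have h1 : mb (m + t • y) (m + t • y) = -s ^ 2 := by rw [hs2, ← hn]; ring
      rw [h1]
      field_simp
    have h2 := hmin _ (hC.smul _ hz _ (inv_pos.2 s0)) hp
    have h3 : -mb o (s⁻¹ • (m + t • y)) = s⁻¹ * (a + t * b) := by
      rw [mb_smul_right, mb_add_right, mb_smul_right, ha, hb]
      ring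
    rw [h3, inv_mul_eq_div, le_div_iff₀ s0] at h2
    rw [← hs2, ← mul_pow]
    exact pow_le_pow_left₀ (mul_pos a0 s0).le h2 2
  -- small `t`
  have h4 : 0 < a * c - b := by linarith
  have h5 := key (a * (a * c - b) / (b ^ 2 + 1)) (by positivity)
  set t : ℝ := a * (a * c - b) / (b ^ 2 + 1) with ht
  have t0 : 0 < t := by positivity
  have h6 : t * (b ^ 2 + 1) = a * (a * c - b) := by
    rw [ht]
    field_simp
  have h7 : 0 ≤ a ^ 2 * (t ^ 2 * q) := by positivity
  have h8 : 2 * t * (a * (a * c - b)) ≤ t ^ 2 * b ^ 2 := by nlinarith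
  have h9 : 2 * (a * (a * c - b)) ≤ t * b ^ 2 := by
    have : t * (2 * (a * (a * c - b))) ≤ t * (t * b ^ 2) := by nlinarith
    exact le_of_mul_le_mul_left this t0
  nlinarith [mul_pos a0 h4]

/-- hyperbolic distance -/
noncomputable def hd (p q : E × ℝ) : ℝ := arcosh (-mb p q)

theorem hd_nonneg {p q : E × ℝ} (hp : IsPt p) (hq : IsPt q) : 0 ≤ hd p q :=
  arcosh_nonneg (one_le_neg_mb hp hq)

theorem cosh_hd {p q : E × ℝ} (hp : IsPt p) (hq : IsPt q) : cosh (hd p q) = -mb p q :=
  cosh_arcosh (one_le_neg_mb hp hq)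

theorem hd_comm (p q : E × ℝ) : hd p q = hd q p := by rw [hd, hd, mb_comm]

theorem hd_self {p : E × ℝ} (hp : IsPt p) : hd p p = 0 := by
  rw [hd, hp.1, neg_neg, arcosh_zero]

theorem eq_of_hd {p q : E × ℝ} (hp : IsPt p) (hq : IsPt q) (h : hd p q = 0) : p = q := by
  apply eq_of_mb_eq hp hq
  rw [← cosh_hd hp hq, h, cosh_zero]

theorem hd_le_hd {p q r s : E × ℝ} (hp : IsPt p) (hq : IsPt q) (hr : IsPt r) (hs : IsPt s) :
    hd p q ≤ hd r s ↔ -mb p q ≤ -mb r s := by
  have h1 := one_le_neg_mb hp hq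
  have h2 := one_le_neg_mb hr hs
  exact arcosh_le_arcosh (by linarith) (by linarith)

/-- Cauchy-Schwarz on the orthogonal complement of a timelike vector -/
theorem mb_sq_le {y u v : E × ℝ} (hy : Fut y) (hu : mb y u = 0) (hv : mb y v = 0) :
    mb u v ^ 2 ≤ mb u u * mb v v := by
  have h1 : ∀ s t : ℝ, 0 ≤ s ^ 2 * mb u u + 2 * (s * t) * mb u v + t ^ 2 * mb v v := by
    intro s t
    have h2 := mb_self_nonneg (v := s • u + t • v) hy (by
      rw [mb_add_right, mb_smul_right, mb_smul_right, hu, hv]; ring)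
    rw [mb_add_left, mb_add_right, mb_add_right, mb_smul_left, mb_smul_left, mb_smul_left,
      mb_smul_left, mb_smul_right, mb_smul_right, mb_smul_right, mb_smul_right, mb_comm v u] at h2
    nlinarith
  have hu0 := mb_self_nonneg hy hu
  have hv0 := mb_self_nonneg hy hv
  rcases hu0.eq_or_lt with h0 | h0
  · -- `mb u u = 0`
    have h3 : mb u v = 0 := by
      by_contra hc
      have h4 := h1 (-(mb v v + 1) / mb u v) 1
      rw [← h0] at h4
      have h5 : (-(mb v v + 1) / mb u v * 1) * mb u v = -(mb v v + 1) := by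
        field_simp
      nlinarith
    rw [h3, ← h0]
    simp
  · have h4 := h1 (-mb u v) (mb u u)
    have h5 : 0 ≤ mb u u * (mb u u * mb v v - mb u v ^ 2) := by nlinarith
    have h6 := nonneg_of_mul_nonneg_right h5 h0
    linarith

/-- the triangle inequality -/
theorem hd_triangle {x y z : E × ℝ} (hx : IsPt x) (hy : IsPt y) (hz : IsPt z) :
    hd x z ≤ hd x y + hd y z := by
  have a0 := hd_nonneg hx hy
  have b0 := hd_nonneg hy hz
  set a := hd x y with ha
  set b := hd y z with hb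
  have ca : cosh a = -mb x y := cosh_hd hx hy
  have cb : cosh b = -mb y z := cosh_hd hy hz
  apply arcosh_le_of_le_cosh (one_le_neg_mb hx hz) (by positivity)
  have h1 : mb y (x + mb x y • y) = 0 := by
    rw [mb_add_right, mb_smul_right, hy.1, mb_comm y x]; ring
  have h2 : mb y (z + mb y z • y) = 0 := by
    rw [mb_add_right, mb_smul_right, hy.1]; ring
  have h3 := mb_sq_le hy.fut h1 h2
  have h4 : mb (x + mb x y • y) (z + mb y z • y) = mb x z + mb x y * mb y z := by
    rw [mb_add_left, mb_add_right, mb_add_right, mb_smul_left, mb_smul_left, mb_smul_right,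
      mb_smul_right, hy.1]
    ring
  have h5 : mb (x + mb x y • y) (x + mb x y • y) = sinh a ^ 2 := by
    rw [mb_add_left, mb_add_right, mb_add_right, mb_smul_left, mb_smul_left, mb_smul_right,
      mb_smul_right, hy.1, hx.1, mb_comm y x, sinh_sq, ca]
    ring
  have h6 : mb (z + mb y z • y) (z + mb y z • y) = sinh b ^ 2 := by
    rw [mb_add_left, mb_add_right, mb_add_right, mb_smul_left, mb_smul_left, mb_smul_right,
      mb_smul_right, hy.1, hz.1, mb_comm z y, sinh_sq, cb]
    ring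
  rw [h4, h5, h6, ← mul_pow] at h3
  have h7 : 0 ≤ sinh a * sinh b := mul_nonneg (sinh_nonneg_iff.2 a0) (sinh_nonneg_iff.2 b0)
  have h8 := abs_le_of_sq_le_sq h3 h7
  rw [cosh_add, ca, cb]
  nlinarith [(abs_le.1 h8).1]

/-- **Estimate for nearest points.** -/
theorem cosh_hd_mul_le {o m y : E × ℝ} (ho : IsPt o) (hm : IsPt m) (hy : IsPt y)
    (h : mb (o + mb o m • m) y ≤ 0) : cosh (hd o m) * cosh (hd m y) ≤ cosh (hd o y) := by
  rw [cosh_hd ho hm, cosh_hd hm hy, cosh_hd ho hy]
  exact cosh_mul_le h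

theorem hd_le_of_criterion {o m y : E × ℝ} (ho : IsPt o) (hm : IsPt m) (hy : IsPt y)
    (h : mb (o + mb o m • m) y ≤ 0) : hd o m ≤ hd o y := by
  rw [hd_le_hd ho hm ho hy]
  have h1 := cosh_mul_le h
  have h2 := one_le_neg_mb hm hy
  have h3 := one_le_neg_mb ho hm
  nlinarith

/-- the nearest point is unique -/
theorem eq_of_hd_le {o m y : E × ℝ} (ho : IsPt o) (hm : IsPt m) (hy : IsPt y)
    (h : mb (o + mb o m • m) y ≤ 0) (h' : hd o y ≤ hd o m) : y = m := by
  rw [hd_le_hd ho hy ho hm] at h'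
  have h1 := cosh_mul_le h
  have h2 := one_le_neg_mb hm hy
  have h3 := one_le_neg_mb ho hm
  symm
  apply eq_of_mb_eq hm hy
  nlinarith

/-- **Drift.** If the height grows by at most `δ` from the nearest point `m` to `y`, then `y` is
close to `m`. -/
theorem hd_sq_le {o m y : E × ℝ} (ho : IsPt o) (hm : IsPt m) (hy : IsPt y)
    (h : mb (o + mb o m • m) y ≤ 0) {δ : ℝ} (hδ : hd o y ≤ hd o m + δ) :
    hd m y ^ 2 ≤ 2 * (exp δ - 1) := by
  have h0 := hd_nonneg hm hy
  have h1 := cosh_hd_mul_le ho hm hy h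
  have hh := hd_nonneg ho hm
  have h2 : cosh (hd o y) ≤ cosh (hd o m) * exp δ := by
    have hle := hd_le_of_criterion ho hm hy h
    have hd0 : 0 ≤ δ := by linarith
    have h3 : cosh (hd o y) ≤ cosh (hd o m + δ) := by
      rw [cosh_le_cosh, abs_of_nonneg (hd_nonneg ho hy), abs_of_nonneg (by linarith)]
      exact hδ
    refine h3.trans ?_
    rw [cosh_eq, cosh_eq, neg_add, exp_add, exp_add]
    have h4 : exp (-δ) ≤ exp δ := exp_le_exp.2 (by linarith)
    have h5 := exp_pos (-hd o m)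
    nlinarith
  have h3 := cosh_pos (hd o m)
  have h4 : cosh (hd m y) ≤ exp δ := by
    have h5 : cosh (hd o m) * cosh (hd m y) ≤ cosh (hd o m) * exp δ := h1.trans h2
    exact le_of_mul_le_mul_left h5 h3
  have h5 := one_add_sq_le_cosh (hd m y / 2)
  have h6 : 2 * (hd m y / 2) = hd m y := by ring
  rw [h6] at h5
  nlinarith

/-- nearest points exist -/
theorem exists_nearest {C : Set (E × ℝ)} (hC : FCone C) {o : E × ℝ} (ho : IsPt o)
    (hc : IsCompact {p | p ∈ C ∧ IsPt p}) (hne : {p | p ∈ C ∧ IsPt p}.Nonempty) :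
    ∃ m ∈ C, IsPt m ∧ ∀ y ∈ C, mb (o + mb o m • m) y ≤ 0 := by
  have hcont : Continuous fun p : E × ℝ => -mb o p := by
    unfold mb
    fun_prop
  obtain ⟨m, hm, hmin⟩ := hc.exists_isMinOn hne hcont.continuousOn
  exact ⟨m, hm.1, hm.2, fun y hy => criterion hC ho hm.2 hm.1
    (fun z hz hz' => isMinOn_iff.1 hmin z ⟨hz, hz'⟩) hy⟩

end Bld
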