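import Pool.Agent.Work.MP_de2d29_al.XCell

/-!
# BUILDING: pushing out to infinity, with control

* `CellCx.drift_bound`: the drift of chains in a cell complex, for an arbitrary distance function.
* `CoxPoly.poC`: the constant, it depends only on the polytope.
* `Mdl.push_out`: every map `F : P → XHat` of a compact space of dimension `≤ n` is changed to a
  map `G : P → HBdry` with `G = F` over `HBdry`, such that the ray `G x` passes at distance
  `≤ poC` from `y` at the time `dist o y`, if `F x = ι y`.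
-/

set_option autoImplicit false

open Set Metric Topology Filter
open Pool.Agent.Work.MP_de2d29_al RootBasis

namespace BD

open MG (IsMap)
open Pool.Agent.Work.MP_017613_gt (PushOff)
open Pool.Agent.Work.MP_017613_gt.Rnd (AEk)

/-! ## Cell complexes -/

/-- **The drift of chains in a cell complex.** -/
theorem CellCx.drift_bound {β : Type} {ι : Type*} [TopologicalSpace β] (X : CellCx β ι)
    {Y : Type*} [MetricSpace Y] {z : β → Y} {N : ℕ} {δ : ℝ} (hδ : 0 < δ)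
    (near : ∀ σ τ, X.m τ ∈ X.cell σ → X.g (X.m σ) < Real.exp δ * X.g (X.m τ) →
      dist (z (X.m σ)) (z (X.m τ)) ≤ 1 / (N + 1))
    (ball : ∀ F : Finset β, (∀ p ∈ F, p ∈ range X.m) → (∀ p ∈ F, ∀ q ∈ F, X.g p = X.g q → p = q) →
      (∃ y, ∀ p ∈ F, dist (z p) y ≤ 1) → F.card ≤ N)
    {μ : ℕ → β} (hinj : Function.Injective μ) (hrange : range μ = range X.m)
    (hanti : ∀ i j, i ≤ j → X.g (μ j) ≤ X.g (μ i))
    {D : β → β → ℝ} (D0 : ∀ u, D u u = 0) (Dt : ∀ u v w, D u w ≤ D u v + D v w) {C : ℝ}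
    (hC : 0 ≤ C) (hE : ∀ p, ∀ u ∈ X.star p, ∀ v ∈ X.star p, D u v ≤ C * X.g p)
    {y : ℕ → β} (hy : IsChain (X.K μ) (fun j => X.star (μ j)) y) {a b : ℕ} (hab : a ≤ b) :
    D (y a) (y b) ≤ C * (N * (1 - Real.exp (-δ))⁻¹) * X.g (μ a) := by
  have hμ : ∀ j, ∃ σ, X.m σ = μ j := fun j => by
    have : μ j ∈ range X.m := by rw [← hrange]; exact ⟨j, rfl⟩
    exact this
  have hpos : ∀ j, 0 < X.g (μ j) := fun j => by
    obtain ⟨σ, hσ⟩ := hμ j
    rw [← hσ]
    exact X.pos σ _ (X.mem σ)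
  let h : ℕ → ℝ := fun j => -Real.log (X.g (μ j))
  have hexp : ∀ j, Real.exp (-h j) = X.g (μ j) := fun j => by
    simp only [h, neg_neg]
    exact Real.exp_log (hpos j)
  have hmono : Monotone h := fun i j hij => by
    simp only [h]
    have := Real.log_le_log (hpos j) (hanti i j hij)
    linarith
  rw [← hexp]
  refine chain_drift (K := X.K μ) (Q := fun j => X.star (μ j)) (h := h)
      (z := fun j => z (μ j)) (N := N) hδ hmono ?_ ?_ D0 Dt hC ?_ hy hab
  · -- consecutive moves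
    intro i j hij u hi _ hj hj'
    obtain ⟨σ, hσ, hp⟩ := exists_cell_of_move hrange hanti hi hj hj'
    obtain ⟨τ, hτ⟩ := hμ j
    have hne : μ j ≠ X.m σ := by
      rw [hσ]
      intro h
      have := hinj h
      omega
    have h1 := X.max σ _ hp hne
    rw [hσ] at h1
    constructor
    · simp only [h]
      have := Real.log_lt_log (hpos j) h1
      linarith
    · intro h2
      have h3 : X.g (X.m σ) < Real.exp δ * X.g (X.m τ) := by
        rw [hσ, hτ, ← hexp i, ← hexp j, ← Real.exp_add]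
        apply Real.exp_lt_exp.2
        linarith
      have h4 := near σ τ (by rw [hτ]; exact hp) h3
      rw [hσ, hτ] at h4
      exact h4
  · -- the ball
    classical
    intro F hF hy
    have h1 : (F.image μ).card = F.card := Finset.card_image_of_injective F hinj
    rw [← h1]
    refine ball _ ?_ ?_ ?_
    · intro p hp
      obtain ⟨i, -, rfl⟩ := Finset.mem_image.1 hp
      rw [← hrange]
      exact ⟨i, rfl⟩
    · intro p hp q hq hpq
      obtain ⟨i, hi, rfl⟩ := Finset.mem_image.1 hp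
      obtain ⟨j, hj, rfl⟩ := Finset.mem_image.1 hq
      have h2 : h i = h j := by simp only [h, hpq]
      rcases lt_trichotomy i j with h3 | h3 | h3
      · exact absurd h2 (hF i hi j hj h3).ne
      · rw [h3]
      · exact absurd h2 (hF j hj i hi h3).ne'
    · obtain ⟨w, hw⟩ := hy
      refine ⟨w, fun p hp => ?_⟩
      obtain ⟨i, hi, rfl⟩ := Finset.mem_image.1 hp
      exact hw i hi
  · -- the size
    intro j u hu v hv
    rw [hexp]
    exact hE _ u hu v hv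

/-! ## The constants -/

variable {ι C X : Type} {d : ℕ} {M : CoxeterMatrix ι} {e : ι → Mink d} [MetricSpace X]

/-- the diameter of the polytope -/
noncomputable def CoxPoly.poD (h : CoxPoly M e) : ℝ := h.exists_diam.choose

theorem CoxPoly.poD_nonneg (h : CoxPoly M e) : 0 ≤ h.poD := h.exists_diam.choose_spec.1

theorem CoxPoly.hdist_le_poD (h : CoxPoly M e) {x y : Mink d} (hx : x ∈ poly e)
    (hy : y ∈ poly e) : hdist x y ≤ h.poD := h.exists_diam.choose_spec.2 x hx y hy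

/-- the number of cells in a unit ball -/
noncomputable def CoxPoly.poN [Finite ι] (h : CoxPoly M e) : ℕ :=
  (h.exists_card_tiles_dist 1).choose * Nat.card (Set ι)

/-- the width of the windows -/
noncomputable def CoxPoly.poW [Finite ι] (h : CoxPoly M e) : ℝ :=
  Real.log (1 + (1 / ((h.poN : ℝ) + 1)) ^ 2 / 2)

theorem CoxPoly.poW_pos [Finite ι] (h : CoxPoly M e) : 0 < h.poW := by
  have ha0 : 0 < 1 / ((h.poN : ℝ) + 1) := by positivity
  exact Real.log_pos (by nlinarith [pow_pos ha0 2])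

/-- the number of moves up to a constant -/
noncomputable def CoxPoly.poA [Finite ι] (h : CoxPoly M e) : ℝ :=
  h.poN * (1 - Real.exp (-h.poW))⁻¹

theorem CoxPoly.poA_nonneg [Finite ι] (h : CoxPoly M e) : 0 ≤ h.poA := by
  have h1 : Real.exp (-h.poW) < 1 := by
    rw [Real.exp_lt_one_iff]
    linarith [h.poW_pos]
  have h2 : 0 ≤ (1 - Real.exp (-h.poW))⁻¹ := inv_nonneg.2 (by linarith)
  exact mul_nonneg (Nat.cast_nonneg _) h2

/-- **the constant of the push-out theorem** -/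
noncomputable def CoxPoly.poC [Finite ι] (h : CoxPoly M e) : ℝ :=
  2 * Real.sinh h.poD * h.poA * Real.exp h.poD

theorem CoxPoly.poC_nonneg [Finite ι] (h : CoxPoly M e) : 0 ≤ h.poC := by
  have h1 := Real.sinh_nonneg_iff.2 h.poD_nonneg
  have h2 := h.poA_nonneg
  have h3 := (Real.exp_pos h.poD).le
  unfold CoxPoly.poC
  positivity

variable {h : CoxPoly M e} {Δ : Building M C} {mk : C → poly e → X}

namespace Mdl

variable (m : Mdl h Δ mk) (c₀ : C) (o₀ : poly e) (hF : ∀ x ∈ pcone e, Fut x) [Finite ι]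
  (hL : Δ.LocFinite)
include m

theorem po_near (σ τ : CIdx C e)
    (h1 : (m.cx c₀ o₀ hF hL).m τ ∈ (m.cx c₀ o₀ hF hL).cell σ)
    (h2 : (m.cx c₀ o₀ hF hL).g ((m.cx c₀ o₀ hF hL).m σ) <
      Real.exp h.poW * (m.cx c₀ o₀ hF hL).g ((m.cx c₀ o₀ hF hL).m τ)) :
    dist (m.zH c₀ o₀ hL ((m.cx c₀ o₀ hF hL).m σ)) (m.zH c₀ o₀ hL ((m.cx c₀ o₀ hF hL).m τ)) ≤
      1 / ((h.poN : ℝ) + 1) := by
  have h3 := m.near c₀ o₀ hF hL σ τ h1 h2
  rw [CoxPoly.poW, Real.exp_log (by positivity)] at h3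
  have ha0 : 0 < 1 / ((h.poN : ℝ) + 1) := by positivity
  refine le_of_sq_le_sq ?_ ha0.le
  linarith

theorem po_ball (F : Finset (XHat (mk c₀ o₀) (m.rad (mk c₀ o₀))))
    (h1 : ∀ p ∈ F, p ∈ range (m.cx c₀ o₀ hF hL).m)
    (h2 : ∀ p ∈ F, ∀ q ∈ F, (m.cx c₀ o₀ hF hL).g p = (m.cx c₀ o₀ hF hL).g q → p = q)
    (h3 : ∃ y, ∀ p ∈ F, dist (m.zH c₀ o₀ hL p) y ≤ 1) : F.card ≤ h.poN := by
  classical
  have hN := (h.exists_card_tiles_dist 1).choose_spec
  rw [CoxPoly.poN]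
  set N := (h.exists_card_tiles_dist 1).choose with hNdef
  obtain ⟨y, hy⟩ := h3
  obtain ⟨hfin, hcard⟩ := hN y.1 y.2
  set T : Set M.Group := {w | ∃ y' ∈ poly e, hdist y.1 (h.rep w y') ≤ 1} with hT
  have hc : Nonempty (CIdx C e) := ⟨⟨(c₀, ∅), ⟨o₀, o₀.2, fun i hi => hi.elim⟩⟩⟩
  let s : XHat (mk c₀ o₀) (m.rad (mk c₀ o₀)) → CIdx C e := fun p =>
    if hp : p ∈ range (m.cx c₀ o₀ hF hL).m then hp.choose else hc.some
  have hs : ∀ p ∈ F, (m.cx c₀ o₀ hF hL).m (s p) = p := fun p hp => by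
    simp only [s]
    rw [dif_pos (h1 p hp)]
    exact (h1 p hp).choose_spec
  let f : XHat (mk c₀ o₀) (m.rad (mk c₀ o₀)) → M.Group × Set ι := fun p =>
    (Δ.δ c₀ (s p).1.1, (s p).1.2)
  have hf : ∀ p ∈ F, f p ∈ T ×ˢ (univ : Set (Set ι)) := fun p hp => by
    refine ⟨⟨np h Δ hF c₀ o₀ (s p), (np_mem c₀ o₀ hF (s p)).1, ?_⟩, mem_univ _⟩
    have h4 := hy p hp
    rw [← hs p hp, m.cx_m, m.zH_ι, npt, dist_comm, Hp.dist_def, m.zz_mk] at h4
    exact h4
  have hinj : Set.InjOn f F := fun p hp q hq hpq => by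
    refine h2 p hp q hq ?_
    rw [← hs p hp, ← hs q hq, m.cx_g, m.cx_g, m.cx_m, m.cx_m,
      (m.radSp' hL (mk c₀ o₀)).gH_ι, (m.radSp' hL (mk c₀ o₀)).gH_ι, m.dist_npt, m.dist_npt]
    have e1 : Δ.δ c₀ (s p).1.1 = Δ.δ c₀ (s q).1.1 := (Prod.ext_iff.1 hpq).1
    have e2 : (s p).1.2 = (s q).1.2 := (Prod.ext_iff.1 hpq).2
    have e3 : bp h Δ c₀ o₀ (s p).1.1 = bp h Δ c₀ o₀ (s q).1.1 := by
      rw [bp, bp, Δ.δ_symm c₀ (s p).1.1, Δ.δ_symm c₀ (s q).1.1, e1]
    have l1 := hdist_np_le (Δ := Δ) (h := h) c₀ o₀ hF (s p)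
      (y := np h Δ hF c₀ o₀ (s q)) (by rw [e2]; exact np_mem c₀ o₀ hF (s q))
    have l2 := hdist_np_le (Δ := Δ) (h := h) c₀ o₀ hF (s q)
      (y := np h Δ hF c₀ o₀ (s p)) (by rw [← e2]; exact np_mem c₀ o₀ hF (s p))
    rw [← e3] at l2
    rw [← e3, le_antisymm l1 l2]
  have hP : (T ×ˢ (univ : Set (Set ι))).Finite := hfin.prod finite_univ
  calc F.card = (f '' (F : Set _)).ncard := by
        rw [hinj.ncard_image, Set.ncard_coe_finset]
    _ ≤ (T ×ˢ (univ : Set (Set ι))).ncard := by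
        refine Set.ncard_le_ncard ?_ hP
        rintro _ ⟨p, hp, rfl⟩
        exact hf p hp
    _ = T.ncard * Nat.card (Set ι) := by
        rw [Set.ncard_prod, Set.ncard_univ]
    _ ≤ N * Nat.card (Set ι) := Nat.mul_le_mul_right _ hcard

/-- two points of a star have distance `≤ 2 poD` and height at least the height of the centre -/
theorem po_star {p u : XHat (mk c₀ o₀) (m.rad (mk c₀ o₀))}
    (hu : u ∈ (m.cx c₀ o₀ hF hL).star p) :
    ∃ q u', (m.radSp' hL (mk c₀ o₀)).ι q = p ∧ (m.radSp' hL (mk c₀ o₀)).ι u' = u ∧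
      dist q u' ≤ h.poD ∧ dist (mk c₀ o₀) q ≤ dist (mk c₀ o₀) u' := by
  obtain ⟨σ, hσ, u', hu', rfl⟩ := CellCx.mem_star.1 hu
  refine ⟨npt h Δ mk hF c₀ o₀ σ, u', hσ, rfl, ?_, m.dist_npt_le c₀ o₀ hF σ hu'⟩
  obtain ⟨x, hx, rfl⟩ := hu'
  rw [npt, m.isometry_like]
  exact h.hdist_le_poD (np_mem c₀ o₀ hF σ).1 x.2

/-- the radial projections of a star are small -/
theorem po_size {r : ℝ} (hr : 0 ≤ r) (p u v : XHat (mk c₀ o₀) (m.rad (mk c₀ o₀)))
    (hu : u ∈ (m.cx c₀ o₀ hF hL).star p) (hv : v ∈ (m.cx c₀ o₀ hF hL).star p) :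
    dist (RadSp.pr (mk c₀ o₀) (m.rad (mk c₀ o₀)) r u) (RadSp.pr (mk c₀ o₀) (m.rad (mk c₀ o₀)) r v) ≤
      2 * Real.sinh h.poD * Real.exp r * (m.cx c₀ o₀ hF hL).g p := by
  have R := m.radSp' hL (mk c₀ o₀)
  have H := m.hcat (mk c₀ o₀)
  obtain ⟨q, u', hq, rfl, h1, h2⟩ := m.po_star c₀ o₀ hF hL hu
  obtain ⟨q', v', hq', rfl, h3, h4⟩ := m.po_star c₀ o₀ hF hL hv
  obtain rfl : q' = q := R.ι_injective (hq'.trans hq.symm)
  have hd : dist u' v' ≤ 2 * h.poD := by
    have := dist_triangle u' q' v'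
    rw [dist_comm u' q'] at this
    linarith
  have hD := h.poD_nonneg
  have hsD := Real.sinh_nonneg_iff.2 hD
  rw [← hq, m.cx_g, R.gH_ι, R.pr_ι hr, R.pr_ι hr, mul_assoc, ← Real.exp_add, ← sub_eq_add_neg]
  rcases le_or_gt r (dist (mk c₀ o₀) q') with hrs | hrs
  · rcases (dist_nonneg (x := mk c₀ o₀) (y := q')).eq_or_lt with h0 | h0
    · have hr0 : r = 0 := le_antisymm (by rw [h0]; exact hrs) hr
      rw [hr0, R.zero, R.zero, dist_self]
      have := Real.exp_pos (0 - dist (mk c₀ o₀) q')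
      positivity
    · have h5 := H.visual hr hrs h0 h2 h4 hd
      have h6 : 2 * h.poD / 2 = h.poD := by ring
      rwa [h6] at h5
  · have h5 : dist (m.rad (mk c₀ o₀) r u') (m.rad (mk c₀ o₀) r v') ≤ 2 * h.poD :=
      (H.lip hr _ _).trans hd
    have h6 := Real.self_le_sinh_iff.2 hD
    have h7 : 1 ≤ Real.exp (r - dist (mk c₀ o₀) q') := Real.one_le_exp (by linarith)
    calc dist (m.rad (mk c₀ o₀) r u') (m.rad (mk c₀ o₀) r v') ≤ 2 * Real.sinh h.poD * 1 := by
          linarith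
      _ ≤ _ := mul_le_mul_of_nonneg_left h7 (by positivity)

/-- **The system of sets of the building, with chain control**, modulo the links. -/
theorem exists_sys_ctl {n : ℕ}
    (ae : ∀ σ, AEk n ((m.cx c₀ o₀ hF hL).link ((m.cx c₀ o₀ hF hL).m σ))) :
    ∃ K Q : ℕ → Set (XHat (mk c₀ o₀) (m.rad (mk c₀ o₀))), Sys n K Q ∧ K 0 = univ ∧
      Lim K = HBdry (mk c₀ o₀) (m.rad (mk c₀ o₀)) ∧
      ∀ (u : ℕ → XHat (mk c₀ o₀) (m.rad (mk c₀ o₀))) (y : X),
        u 0 = (m.radSp' hL (mk c₀ o₀)).ι y → IsChain K Q u →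
        ∀ ζ ∈ HBdry (mk c₀ o₀) (m.rad (mk c₀ o₀)), Tendsto u atTop (𝓝 ζ) →
        dist (RadSp.pr (mk c₀ o₀) (m.rad (mk c₀ o₀)) (dist (mk c₀ o₀) y) ζ) y ≤ h.poC := by
  have R := m.radSp' hL (mk c₀ o₀)
  have H := m.hcat (mk c₀ o₀)
  have := R.compactSpace
  have hc : Nonempty (CIdx C e) := ⟨⟨(c₀, ∅), ⟨o₀, o₀.2, fun i hi => hi.elim⟩⟩⟩
  obtain ⟨μ, hinj, hrange, hanti⟩ := (m.cx c₀ o₀ hF hL).exists_enum fun σ => (ae σ).1
  have hlim : Lim ((m.cx c₀ o₀ hF hL).K μ) = HBdry (mk c₀ o₀) (m.rad (mk c₀ o₀)) :=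
    ((m.cx c₀ o₀ hF hL).iInter_K hinj hrange).trans (m.cx_bd c₀ o₀ hF hL)
  have hbound : ∀ {D : XHat (mk c₀ o₀) (m.rad (mk c₀ o₀)) →
      XHat (mk c₀ o₀) (m.rad (mk c₀ o₀)) → ℝ} (D0 : ∀ u, D u u = 0)
      (Dt : ∀ u v w, D u w ≤ D u v + D v w) {A : ℝ} (hA : 0 ≤ A)
      (hE : ∀ p, ∀ u ∈ (m.cx c₀ o₀ hF hL).star p, ∀ v ∈ (m.cx c₀ o₀ hF hL).star p,
        D u v ≤ A * (m.cx c₀ o₀ hF hL).g p)
      {y : ℕ → XHat (mk c₀ o₀) (m.rad (mk c₀ o₀))}
      (hy : IsChain ((m.cx c₀ o₀ hF hL).K μ) (fun j => (m.cx c₀ o₀ hF hL).star (μ j)) y)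
      {a b : ℕ} (hab : a ≤ b),
      D (y a) (y b) ≤ A * h.poA * (m.cx c₀ o₀ hF hL).g (μ a) := by
    intro D D0 Dt A hA hE y hy a b hab
    exact (m.cx c₀ o₀ hF hL).drift_bound h.poW_pos (m.po_near c₀ o₀ hF hL)
      (m.po_ball c₀ o₀ hF hL) hinj hrange hanti D0 Dt hA hE hy hab
  obtain ⟨K, hK0, hK⟩ := m.size c₀ o₀ hF hL
  refine ⟨(m.cx c₀ o₀ hF hL).K μ, fun j => (m.cx c₀ o₀ hF hL).star (μ j), ⟨?_, ?_, ?_, ?_, ?_, ?_,
    ?_⟩, CellCx.K_zero hrange, hlim, ?_⟩
  · exact isClosed_univ.isCompact.of_isClosed_subset (CellCx.isClosed_K μ 0) (subset_univ _)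
  · exact fun j => CellCx.isClosed_K μ j
  · exact fun j => CellCx.isClosed_star _
  · exact CellCx.K_eq μ
  · intro j
    rw [CellCx.star_inter_K hrange hanti hinj j]
    obtain ⟨σ, hσ⟩ : μ j ∈ range (m.cx c₀ o₀ hF hL).m := by rw [← hrange]; exact ⟨j, rfl⟩
    rw [← hσ]
    exact ae σ
  · intro j
    rw [hlim, Set.disjoint_left]
    intro u hu hu0
    obtain ⟨σ, -, u', -, rfl⟩ := CellCx.mem_star.1 hu
    exact R.ι_not_mem u' hu0
  · intro ε hε
    have hA := h.poA_nonneg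
    obtain ⟨J, hJ⟩ := (Metric.tendsto_atTop.1 (CellCx.tendsto_g hinj hrange))
      (ε / (2 * K * h.poA + 1)) (by positivity)
    refine ⟨J, fun y _ hy a ha b hb => ?_⟩
    have h1 := hJ a ha
    rw [Real.dist_eq, sub_zero, abs_of_nonneg ((m.cx c₀ o₀ hF hL).nonneg _)] at h1
    have h2 := hbound (D := fun u v => dist u v) (fun u => dist_self u)
      (fun u v w => dist_triangle u v w) (A := 2 * K) (by positivity) (fun p u hu v hv => by
        obtain ⟨σ, hσ, hu⟩ := CellCx.mem_star.1 hu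
        obtain ⟨σ', hσ', hv⟩ := CellCx.mem_star.1 hv
        have h1 := hK σ u hu
        have h2 := hK σ' v hv
        rw [hσ] at h1
        rw [hσ'] at h2
        have h3 := dist_triangle u p v
        rw [dist_comm u p] at h3
        show dist u v ≤ 2 * K * (m.cx c₀ o₀ hF hL).g p
        linarith) hy hb
    calc dist (y a) (y b) ≤ 2 * K * h.poA * (m.cx c₀ o₀ hF hL).g (μ a) := h2
      _ ≤ (2 * K * h.poA + 1) * (ε / (2 * K * h.poA + 1)) := by
          refine mul_le_mul (by linarith) h1.le ((m.cx c₀ o₀ hF hL).nonneg _) (by positivity)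
      _ = ε := by field_simp
  · intro u y hu0 hu ζ hζ hul
    set r : ℝ := dist (mk c₀ o₀) y with hr
    have hr0 : 0 ≤ r := dist_nonneg
    -- there is a first move
    have hmove : ∃ a, u a ∉ (m.cx c₀ o₀ hF hL).K μ (a + 1) := by
      by_contra hcon
      push Not at hcon
      have h1 : ∀ j, u j = u 0 := fun j => hu.const (Nat.zero_le j) fun k _ _ => hcon k
      have h2 : u 0 = ζ := by
        exact tendsto_nhds_unique (tendsto_const_nhds.congr fun j => (h1 j).symm) hul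
      rw [← h2, hu0] at hζ
      exact R.ι_not_mem y hζ
    classical
    let a := Nat.find hmove
    have ha : u a ∉ (m.cx c₀ o₀ hF hL).K μ (a + 1) := Nat.find_spec hmove
    have hua : u a = R.ι y := by
      rw [← hu0]
      refine hu.const (Nat.zero_le a) fun k _ hk => ?_
      exact not_not.1 (Nat.find_min hmove hk)
    have hstar : R.ι y ∈ (m.cx c₀ o₀ hF hL).star (μ a) := by
      rcases hu a with ⟨h1, -⟩ | ⟨h1, -⟩
      · exact absurd h1 ha
      · rwa [hua] at h1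
    -- the height of the first class
    have hg : (m.cx c₀ o₀ hF hL).g (μ a) ≤ Real.exp (-(r - h.poD)) := by
      obtain ⟨q, u', hq, hu', h1, h2⟩ := m.po_star c₀ o₀ hF hL hstar
      obtain rfl := R.ι_injective hu'
      rw [← hq, m.cx_g, R.gH_ι, Real.exp_le_exp]
      have := dist_triangle (mk c₀ o₀) q u'
      linarith
    have hD : ∀ b ≥ a, dist (RadSp.pr (mk c₀ o₀) (m.rad (mk c₀ o₀)) r (R.ι y))
        (RadSp.pr (mk c₀ o₀) (m.rad (mk c₀ o₀)) r (u b)) ≤ h.poC := by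
      intro b hb
      have h1 := hbound (D := fun u v => dist (RadSp.pr (mk c₀ o₀) (m.rad (mk c₀ o₀)) r u)
        (RadSp.pr (mk c₀ o₀) (m.rad (mk c₀ o₀)) r v)) (fun u => dist_self _)
        (fun u v w => dist_triangle _ _ _) (A := 2 * Real.sinh h.poD * Real.exp r)
        (by
          have := Real.sinh_nonneg_iff.2 h.poD_nonneg
          positivity)
        (fun p u hu v hv => m.po_size c₀ o₀ hF hL hr0 p u v hu hv) hu hb
      rw [hua] at h1
      refine h1.trans ?_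
      have h2 : 0 ≤ 2 * Real.sinh h.poD * Real.exp r * h.poA := by
        have := Real.sinh_nonneg_iff.2 h.poD_nonneg
        have := h.poA_nonneg
        positivity
      refine (mul_le_mul_of_nonneg_left hg h2).trans (le_of_eq ?_)
      have h3 : Real.exp (-(r - h.poD)) = Real.exp (-r) * Real.exp h.poD := by
        rw [← Real.exp_add]
        congr 1
        ring
      have h4 : Real.exp r * Real.exp (-r) = 1 := by
        rw [← Real.exp_add, add_neg_cancel, Real.exp_zero]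
      rw [h3, CoxPoly.poC]
      linear_combination (2 * Real.sinh h.poD * h.poA * Real.exp h.poD) * h4
    have h1 : Tendsto (fun b => dist (RadSp.pr (mk c₀ o₀) (m.rad (mk c₀ o₀)) r (R.ι y))
        (RadSp.pr (mk c₀ o₀) (m.rad (mk c₀ o₀)) r (u b))) atTop
        (𝓝 (dist (RadSp.pr (mk c₀ o₀) (m.rad (mk c₀ o₀)) r (R.ι y))
          (RadSp.pr (mk c₀ o₀) (m.rad (mk c₀ o₀)) r ζ))) :=
      tendsto_const_nhds.dist (((R.continuous_pr hr0).tendsto _).comp hul)
    have h2 := le_of_tendsto h1 (by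
      filter_upwards [eventually_ge_atTop a] with b hb
      exact hD b hb)
    rw [dist_comm, R.pr_ι hr0, R.fix _ _ le_rfl] at h2
    exact h2

/-- **Pushing out to infinity with control**, modulo the links. -/
theorem push_out_core {n : ℕ}
    (ae : ∀ σ, AEk n ((m.cx c₀ o₀ hF hL).link ((m.cx c₀ o₀ hF hL).m σ)))
    {α : Type} [MetricSpace α] {P : Set α} (cP : IsCompact P) (dP : PushOff n P)
    {F : α → XHat (mk c₀ o₀) (m.rad (mk c₀ o₀))} (cF : ContinuousOn F P) :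
    ∃ G : α → XHat (mk c₀ o₀) (m.rad (mk c₀ o₀)),
      IsMap G P (HBdry (mk c₀ o₀) (m.rad (mk c₀ o₀))) ∧
      (∀ x ∈ P, F x ∈ HBdry (mk c₀ o₀) (m.rad (mk c₀ o₀)) → G x = F x) ∧
      ∀ x ∈ P, ∀ y, F x = (m.radSp' hL (mk c₀ o₀)).ι y →
        dist (RadSp.pr (mk c₀ o₀) (m.rad (mk c₀ o₀)) (dist (mk c₀ o₀) y) (G x)) y ≤ h.poC := by
  have := (m.radSp' hL (mk c₀ o₀)).compactSpace
  obtain ⟨K, Q, hS, h0, hlim, hctl⟩ := m.exists_sys_ctl c₀ o₀ hF hL ae
  obtain ⟨G, hG, hG1, hG2⟩ := push_all hS.clK hS.clQ hS.un (fun e he => hS.drift e he) cP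
    (fun j N A cN cA hAN hNP f hf => by
      obtain ⟨g, hg1, hg2, hg3⟩ := (hS.ae j).2 α N A ⟨cN, dP.mono cN hNP, cA, hAN⟩ f hf.cont hf.maps
      exact ⟨g, ⟨hg1, hg2⟩, hg3⟩)
    (F := F) ⟨cF, fun x _ => by rw [h0]; trivial⟩
  have hG' : IsMap G P (HBdry (mk c₀ o₀) (m.rad (mk c₀ o₀))) := by rw [← hlim]; exact hG
  refine ⟨G, hG', fun x hx hxB => hG1 x hx fun j => ?_, fun x hx y hxy => ?_⟩
  · rw [← hlim] at hxB
    exact mem_iInter.1 hxB j
  · obtain ⟨u, hu0, hu, hul⟩ := hG2 x hx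
    exact hctl u y (hu0.trans hxy) hu _ (hG'.maps hx) hul

end Mdl

/-! ## Corollaries -/

namespace HCat

variable {X : Type} [MetricSpace X] {o : X} {p : ℝ → X → X}

/-- the ray stays close at all earlier times -/
theorem po_visual (H : HCat X o p) (R : RadSp X o p) {x : XHat o p} (hx : x ∈ HBdry o p) {y : X}
    {B t : ℝ} (hB : dist (RadSp.pr o p (dist o y) x) y ≤ B) (ht : 0 ≤ t) (hty : t ≤ dist o y) :
    dist (RadSp.pr o p t x) (p t y) ≤ 2 * Real.sinh (B / 2) * Real.exp (t - dist o y) := by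
  have hB0 : 0 ≤ B := dist_nonneg.trans hB
  rcases (dist_nonneg (x := o) (y := y)).eq_or_lt with h0 | h0
  · have ht0 : t = 0 := le_antisymm (by rw [h0]; exact hty) ht
    rw [ht0, RadSp.pr, R.zero, R.zero, dist_self]
    have h1 := Real.sinh_nonneg_iff.2 (show 0 ≤ B / 2 by linarith)
    have h2 := (Real.exp_pos (0 - dist o y)).le
    positivity
  · have h1 := H.visual (r := t) (s := dist o y) (x := RadSp.pr o p (dist o y) x) (y := y) ht hty h0
      (R.norm_pr_bdry dist_nonneg hx).ge le_rfl hB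
    rwa [R.pr_pr ht hty] at h1

/-- distance in `XHat` -/
theorem po_dist (H : HCat X o p) (R : RadSp X o p) {x : XHat o p} (hx : x ∈ HBdry o p) {y : X}
    {B : ℝ} (hB : dist (RadSp.pr o p (dist o y) x) y ≤ B) :
    dist x (R.ι y) ≤ (2 * Real.sinh (B / 2) + 1) * Real.exp (-dist o y) := by
  have hB0 : 0 ≤ B := dist_nonneg.trans hB
  have hs := Real.self_le_sinh_iff.2 (show 0 ≤ B / 2 by linarith)
  refine XHat.dist_le fun r => ?_
  rw [R.ι_coord]
  have hr : (0 : ℝ) ≤ r := Nat.cast_nonneg r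
  rcases le_or_gt (r : ℝ) (dist o y) with h1 | h1
  · have h2 := H.po_visual R hx hB hr h1
    rw [R.pr_nat] at h2
    have h3 := mul_le_mul_of_nonneg_left h2 (Real.exp_pos (-(r : ℝ))).le
    refine h3.trans ?_
    have h4 : Real.exp (-(r : ℝ)) * (2 * Real.sinh (B / 2) * Real.exp (r - dist o y)) =
        2 * Real.sinh (B / 2) * Real.exp (-dist o y) := by
      have h5 : Real.exp (-(r : ℝ)) * Real.exp (r - dist o y) = Real.exp (-dist o y) := by
        rw [← Real.exp_add]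
        congr 1
        ring
      rw [← h5]
      ring
    rw [h4]
    have h6 := (Real.exp_pos (-dist o y)).le
    nlinarith
  · have h2 : dist (x.1 r) (p r y) ≤ B + (r - dist o y) := by
      rw [R.fix _ _ h1.le]
      have h3 := R.dist_pr hr (dist_nonneg (x := o) (y := y)) x
      rw [R.pr_nat, abs_of_nonneg (by linarith)] at h3
      have h4 := dist_triangle (x.1 r) (RadSp.pr o p (dist o y) x) y
      linarith
    set w : ℝ := r - dist o y with hw
    have hw0 : 0 ≤ w := by linarith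
    have h3 : Real.exp (-(r : ℝ)) = Real.exp (-w) * Real.exp (-dist o y) := by
      rw [← Real.exp_add]
      congr 1
      rw [hw]
      ring
    have h4 : Real.exp (-w) * (B + w) ≤ 2 * Real.sinh (B / 2) + 1 := by
      have h5 : Real.exp (-w) ≤ 1 := Real.exp_le_one_iff.2 (by linarith)
      have h6 : Real.exp (-w) * w ≤ 1 := by
        have h7 : w ≤ Real.exp w := by linarith [Real.add_one_le_exp w]
        have h8 := mul_le_mul_of_nonneg_left h7 (Real.exp_pos (-w)).le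
        rwa [← Real.exp_add, neg_add_cancel, Real.exp_zero] at h8
      have h7 : Real.exp (-w) * B ≤ B := by nlinarith
      linarith
    calc Real.exp (-(r : ℝ)) * dist (x.1 r) (p r y)
        ≤ Real.exp (-(r : ℝ)) * (B + w) := mul_le_mul_of_nonneg_left h2 (Real.exp_pos _).le
      _ = Real.exp (-w) * (B + w) * Real.exp (-dist o y) := by rw [h3]; ring
      _ ≤ _ := mul_le_mul_of_nonneg_right h4 (Real.exp_pos _).le

end HCat

/-- **The system of sets with chain control** at an arbitrary base point, modulo the links. -/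
theorem Mdl.sys_ctl_of {n : ℕ} {e : ι → Mink (n + 1)} {h : CoxPoly M e} {mk : C → poly e → X}
    [Finite ι] (m : Mdl h Δ mk) (hL : Δ.LocFinite)
    (ae : ∀ (c₀ : C) (o₀ : poly e) (σ : CIdx C e),
      AEk n ((m.cx c₀ o₀ h.fut hL).link ((m.cx c₀ o₀ h.fut hL).m σ))) (b : X) :
    ∃ K Q : ℕ → Set (XHat b (m.rad b)), Sys n K Q ∧ K 0 = univ ∧
      Lim K = HBdry b (m.rad b) ∧
      ∀ (u : ℕ → XHat b (m.rad b)) (y : X), u 0 = (m.radSp' hL b).ι y → IsChain K Q u →
        ∀ ζ ∈ HBdry b (m.rad b), Tendsto u atTop (𝓝 ζ) →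
        dist (RadSp.pr b (m.rad b) (dist b y) ζ) y ≤ h.poC := by
  obtain ⟨c₀, o₀, rfl⟩ := m.surj b
  exact m.exists_sys_ctl c₀ o₀ h.fut hL (ae c₀ o₀)

/-- **Pushing out to infinity with control**, at an arbitrary base point, modulo the links. -/
theorem Mdl.push_out_of {n : ℕ} {e : ι → Mink (n + 1)} {h : CoxPoly M e} {mk : C → poly e → X}
    [Finite ι] (m : Mdl h Δ mk) (hL : Δ.LocFinite)
    (ae : ∀ (c₀ : C) (o₀ : poly e) (σ : CIdx C e),
      AEk n ((m.cx c₀ o₀ h.fut hL).link ((m.cx c₀ o₀ h.fut hL).m σ))) (b : X)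
    {α : Type} [MetricSpace α] {P : Set α} (cP : IsCompact P) (dP : PushOff n P)
    {F : α → XHat b (m.rad b)} (cF : ContinuousOn F P) :
    ∃ G : α → XHat b (m.rad b), IsMap G P (HBdry b (m.rad b)) ∧
      (∀ x ∈ P, F x ∈ HBdry b (m.rad b) → G x = F x) ∧
      ∀ x ∈ P, ∀ y, F x = (m.radSp' hL b).ι y →
        dist (RadSp.pr b (m.rad b) (dist b y) (G x)) y ≤ h.poC := by
  obtain ⟨c₀, o₀, rfl⟩ := m.surj b
  exact m.push_out_core c₀ o₀ h.fut hL (ae c₀ o₀) cP dP cF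

end BD
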