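import Mathlib

/-!
# Radial estimates in hyperbolic space (hyperboloid model)

`mb p q = ⟪p.1, q.1⟫ - p.2 * q.2` on `E × ℝ`. `pt ξ a = (sinh a • ξ, cosh a)` is the point at
distance `a` from `o = (0, 1)` in the direction `ξ`.
-/

open Real

namespace Bld

variable {E : Type*} [NormedAddCommGroup E] [InnerProductSpace ℝ E]

/-- the Minkowski form -/
def mb (p q : E × ℝ) : ℝ := inner ℝ p.1 q.1 - p.2 * q.2

/-- the point at distance `a` from the base point, in the direction `ξ` -/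
noncomputable def pt (ξ : E) (a : ℝ) : E × ℝ := (sinh a • ξ, cosh a)

theorem neg_mb_pt {ξ η : E} (hξ : ‖ξ‖ = 1) (hη : ‖η‖ = 1) (a b : ℝ) :
    -mb (pt ξ a) (pt η b) = cosh (a - b) + sinh a * sinh b * (‖ξ - η‖ ^ 2 / 2) := by
  have h1 : ‖ξ - η‖ ^ 2 = 2 - 2 * inner ℝ ξ η := by
    rw [norm_sub_sq_real, hξ, hη]
    ring
  simp only [mb, pt, real_inner_smul_left, real_inner_smul_right]
  rw [h1, cosh_sub]
  ring

theorem sinh_div_le {r s : ℝ} (hr : r ≤ s) (hs : 0 < s) : sinh r / sinh s ≤ exp (r - s) := by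
  have h1 : 0 < sinh s := sinh_pos_iff.2 hs
  rw [div_le_iff₀ h1, sinh_eq, sinh_eq]
  have e1 : exp (r - s) * ((exp s - exp (-s)) / 2) = (exp r - exp (r - 2 * s)) / 2 := by
    have h2 : exp (r - s) * exp s = exp r := by rw [← exp_add]; congr 1; ring
    have h3 : exp (r - s) * exp (-s) = exp (r - 2 * s) := by rw [← exp_add]; congr 1; ring
    rw [mul_div_assoc', mul_sub, h2, h3]
  rw [e1]
  have h4 : exp (r - 2 * s) ≤ exp (-r) := exp_le_exp.2 (by linarith)
  linarith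

theorem one_add_sq_le_cosh (z : ℝ) : 1 + 2 * z ^ 2 ≤ cosh (2 * z) := by
  rw [cosh_two_mul]
  have h1 := cosh_sq z
  have h2 : z ^ 2 ≤ sinh z ^ 2 := by
    rw [← sq_abs z, ← sq_abs (sinh z), abs_sinh]
    have h0 : 0 ≤ |z| := abs_nonneg z
    exact pow_le_pow_left₀ h0 (self_le_sinh_iff.2 h0) 2
  nlinarith

/-- distance from the value of the form -/
theorem arcosh_le_of_le_cosh {x D : ℝ} (hx : 1 ≤ x) (hD : 0 ≤ D) (h : x ≤ cosh D) :
    arcosh x ≤ D := by
  rw [← arcosh_cosh hD]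
  exact (arcosh_le_arcosh (by linarith) (cosh_pos D)).2 h

/-- **Radial estimate.** Radial projection to the sphere of radius `r` contracts sets outside the
ball of radius `s` by the factor `e^(r-s)`. -/
theorem radial_le {ξ η : E} (hξ : ‖ξ‖ = 1) (hη : ‖η‖ = 1) {a b r s D : ℝ} (hr : 0 ≤ r)
    (hrs : r ≤ s) (hs : 0 < s) (ha : s ≤ a) (hb : s ≤ b) (hD : 0 ≤ D)
    (h : -mb (pt ξ a) (pt η b) ≤ cosh D) :
    arcosh (-mb (pt ξ r) (pt η r)) ≤ 2 * sinh (D / 2) * exp (r - s) := by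
  have s1 : 0 < sinh s := sinh_pos_iff.2 hs
  have s2 : sinh s ≤ sinh a := sinh_le_sinh.2 ha
  have s3 : sinh s ≤ sinh b := sinh_le_sinh.2 hb
  have s4 : 0 ≤ sinh r := sinh_nonneg_iff.2 hr
  set q : ℝ := ‖ξ - η‖ ^ 2 / 2 with hq
  have q0 : 0 ≤ q := by positivity
  rw [neg_mb_pt hξ hη, ← hq] at h
  rw [neg_mb_pt hξ hη, ← hq, sub_self, cosh_zero]
  have h1 : sinh s ^ 2 * q ≤ cosh D - 1 := by
    have h2 : 1 ≤ cosh (a - b) := one_le_cosh _
    have h3 : sinh s ^ 2 ≤ sinh a * sinh b := by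
      rw [sq]
      exact mul_le_mul s2 s3 s1.le (s1.le.trans s2)
    have h4 := mul_le_mul_of_nonneg_right h3 q0
    linarith
  have h5 : cosh D = 1 + 2 * sinh (D / 2) ^ 2 := by
    have h6 := cosh_two_mul (D / 2)
    have h7 := cosh_sq (D / 2)
    have h8 : 2 * (D / 2) = D := by ring
    rw [h8] at h6
    rw [h6]
    linarith
  set z : ℝ := sinh (D / 2) * exp (r - s) with hz
  have z0 : 0 ≤ z := mul_nonneg (sinh_nonneg_iff.2 (by linarith)) (exp_pos _).le
  have h9 : sinh r * sinh r * q ≤ 2 * z ^ 2 := by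
    have h10 : sinh r ≤ exp (r - s) * sinh s := by
      rw [← div_le_iff₀ s1]
      exact sinh_div_le hrs hs
    have h11 : sinh r ^ 2 ≤ exp (r - s) ^ 2 * sinh s ^ 2 := by
      rw [← mul_pow]
      exact pow_le_pow_left₀ s4 h10 2
    have h12 : sinh r * sinh r * q ≤ exp (r - s) ^ 2 * (sinh s ^ 2 * q) := by
      have := mul_le_mul_of_nonneg_right h11 q0
      nlinarith
    have h13 : exp (r - s) ^ 2 * (sinh s ^ 2 * q) ≤ exp (r - s) ^ 2 * (2 * sinh (D / 2) ^ 2) := by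
      apply mul_le_mul_of_nonneg_left _ (by positivity)
      linarith
    rw [hz]
    nlinarith
  have h14 : 2 * sinh (D / 2) * exp (r - s) = 2 * z := by rw [hz]; ring
  rw [h14]
  apply arcosh_le_of_le_cosh _ (by linarith)
  · exact (by linarith : 1 + sinh r * sinh r * q ≤ 1 + 2 * z ^ 2).trans (one_add_sq_le_cosh z)
  · have : 0 ≤ sinh r * sinh r * q := mul_nonneg (mul_nonneg s4 s4) q0
    linarith

end Bld
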