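import Pool.Agent.Work.MP_de2d29_al.Defs
import Pool.Agent.Work.MP_017613_gt.DigA

/-!
# The geometric realization of a building and the final statement (problem de2d29)

* `Pts e Δ`: the points of the chambers, pairs of a chamber and a point of the polytope.
* `Chain Δ p q L`: a chain of total length `L` from `p` to `q`; its steps are moves inside a chamber
  and passages from a chamber to an adjacent chamber through the common facet.
* `Space e Δ`: the space obtained by gluing the chambers along the facets of adjacent chambers, with
  the length metric (the infimum of the lengths of chains).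
* `Bdry Δ o`: the boundary, geodesic rays issuing from `o` with the compact-open topology.
-/

set_option autoImplicit false

open Set
open scoped NNReal ENNReal

namespace BD

variable {d : ℕ} {ι : Type} {M : CoxeterMatrix ι} {C : Type}

/-- points of the chambers -/
def Pts (e : ι → Mink d) (_Δ : Building M C) : Type := C × poly e

/-- a chain of total length `L` -/
inductive Chain (e : ι → Mink d) (Δ : Building M C) : C × poly e → C × poly e → ℝ → Prop
  /-- the trivial chain -/
  | nil (p : C × poly e) : Chain e Δ p p 0
  /-- a move inside the chamber `c` -/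
  | move (c : C) (x y : poly e) (q : C × poly e) (L : ℝ) :
      Chain e Δ (c, y) q L → Chain e Δ (c, x) q (hdist (x : Mink d) y + L)
  /-- the passage from `c` to the `i`-adjacent chamber `c'` in a point of the facet `i` -/
  | pass (c c' : C) (i : ι) (x : poly e) (q : C × poly e) (L : ℝ) :
      Δ.δ c c' = M.simple i → lor (x : Mink d) (e i) = 0 →
      Chain e Δ (c', x) q L → Chain e Δ (c, x) q L

/-- the length pseudometric -/
noncomputable def ldist (e : ι → Mink d) (Δ : Building M C) (p q : C × poly e) : ℝ≥0∞ :=
  ⨅ (L : ℝ) (_ : Chain e Δ p q L), ENNReal.ofReal L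

section basic

variable {e : ι → Mink d} {Δ : Building M C}

theorem lor_comm (x y : Mink d) : lor x y = lor y x := by
  unfold lor
  congr 1
  · exact Finset.sum_congr rfl fun i _ => mul_comm _ _
  · exact mul_comm _ _

theorem hdist_comm (x y : Mink d) : hdist x y = hdist y x := by
  unfold hdist
  rw [lor_comm]

theorem simple_ne_one (M : CoxeterMatrix ι) (i : ι) : M.simple i ≠ 1 := by
  intro h
  have h1 := M.toCoxeterSystem.length_simple i
  rw [M.toCoxeterSystem_simple] at h1
  rw [h, M.toCoxeterSystem.length_one] at h1
  exact absurd h1 (by norm_num)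

/-- adjacency is symmetric -/
theorem Building.adj_symm (Δ : Building M C) {c c' : C} {i : ι} (h : Δ.δ c c' = M.simple i) :
    Δ.δ c' c = M.simple i := by
  rcases Δ.step c c' c i h with h1 | h1
  · rw [(Δ.eq_one c c).2 rfl] at h1
    have h2 : M.simple i * M.simple i = 1 := by
      have := M.toCoxeterSystem.simple_mul_simple_self i
      rwa [M.toCoxeterSystem_simple] at this
    calc Δ.δ c' c = M.simple i * (M.simple i * Δ.δ c' c) := by rw [← mul_assoc, h2, one_mul]
      _ = M.simple i := by rw [← h1, mul_one]
  · rw [(Δ.eq_one c c).2 rfl] at h1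
    have h2 : c' = c := (Δ.eq_one c' c).1 h1.symm
    rw [h2, (Δ.eq_one c c).2 rfl] at h
    exact absurd h.symm (simple_ne_one M i)

theorem Chain.append {p q r : C × poly e} {L L' : ℝ} (h : Chain e Δ p q L)
    (h' : Chain e Δ q r L') : Chain e Δ p r (L + L') := by
  induction h with
  | nil p => rw [zero_add]; exact h'
  | move c x y q L _ ih =>
    rw [add_assoc]
    exact Chain.move c x y r _ (ih h')
  | pass c c' i x q L h1 h2 _ ih => exact Chain.pass c c' i x r _ h1 h2 (ih h')

theorem Chain.symm {p q : C × poly e} {L : ℝ} (h : Chain e Δ p q L) : Chain e Δ q p L := by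
  induction h with
  | nil p => exact Chain.nil p
  | move c x y q L _ ih =>
    have h1 : Chain e Δ (c, y) (c, x) (hdist (y : Mink d) x + 0) :=
      Chain.move c y x _ _ (Chain.nil _)
    rw [add_comm, hdist_comm, ← add_zero (hdist _ _)]
    exact ih.append h1
  | pass c c' i x q L h1 h2 _ ih =>
    have h3 : Chain e Δ (c', x) (c, x) 0 := Chain.pass c' c i x _ _ (Δ.adj_symm h1) h2 (Chain.nil _)
    rw [← add_zero L]
    exact ih.append h3

theorem ldist_self (p : C × poly e) : ldist e Δ p p = 0 := by
  refine le_antisymm ?_ bot_le
  refine (iInf₂_le (0 : ℝ) (Chain.nil p)).trans ?_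
  simp

theorem ldist_comm (p q : C × poly e) : ldist e Δ p q = ldist e Δ q p := by
  refine le_antisymm ?_ ?_
  · exact le_iInf₂ fun L hL => iInf₂_le L hL.symm
  · exact le_iInf₂ fun L hL => iInf₂_le L hL.symm

theorem ldist_triangle (p q r : C × poly e) :
    ldist e Δ p r ≤ ldist e Δ p q + ldist e Δ q r := by
  have h : ∀ L, Chain e Δ p q L → ∀ L', Chain e Δ q r L' →
      ldist e Δ p r ≤ ENNReal.ofReal L + ENNReal.ofReal L' := by
    intro L hL L' hL'
    refine (iInf₂_le (L + L') (hL.append hL')).trans ?_
    exact ENNReal.ofReal_add_le
  rw [ldist.eq_def e Δ p q, ldist.eq_def e Δ q r]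
  simp only [ENNReal.iInf_add, ENNReal.add_iInf]
  exact le_iInf fun L' => le_iInf fun hL' => le_iInf fun L => le_iInf fun hL => h L hL L' hL'

end basic

/-- the points of the chambers form a pseudometric space -/
noncomputable instance (e : ι → Mink d) (Δ : Building M C) : PseudoEMetricSpace (Pts e Δ) where
  edist p q := ldist e Δ p q
  edist_self p := ldist_self p
  edist_comm p q := ldist_comm p q
  edist_triangle p q r := ldist_triangle p q r

/-- **The geometric realization** of the building `Δ` with chamber `poly e`: the chambers are glued
along the facets of adjacent chambers, with the length metric. -/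
abbrev Space (e : ι → Mink d) (Δ : Building M C) : Type := SeparationQuotient (Pts e Δ)

/-- **The ideal boundary**: the space of the geodesic rays issuing from the point `o`, with the
compact-open topology. -/
abbrev Bdry (e : ι → Mink d) (Δ : Building M C) (o : Space e Δ) : Type :=
  {γ : C(ℝ≥0, Space e Δ) // Isometry γ ∧ γ 0 = o}

/-- **The main statement** (Q1, affirmative answer): for every compact Coxeter polytope in
hyperbolic space of dimension `n + 1` and every thick, locally finite building with this chamber,
the ideal boundary is homeomorphic to the stable `n`-dimensional Menger space. -/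
def MainStatement : Prop :=
  ∀ (n : ℕ), 1 ≤ n → ∀ (ι : Type) [Finite ι] (M : CoxeterMatrix ι) (e : ι → Mink (n + 1)),
    IsCoxeterPolytope M e → ∀ (C : Type) (Δ : Building M C), Δ.Thick → Δ.LocFinite →
    ∀ (o : Space e Δ) (m : ℕ), 2 * n + 1 ≤ m → Nonempty (Bdry e Δ o ≃ₜ MG.mu n m)

end BD
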