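import Pool.Agent.Work.MP_de2d29_al.Statement
import Pool.Agent.Work.MP_017613_gt.Top

/-!
# Assembly (problem de2d29)

* `homeo_mu`: a non-empty compact Menger space of dimension `n` which is `Conn n` is homeomorphic to
  the Menger compactum `mu n m`, for all `m ≥ 2 n + 1`.
* `main_of`: the main statement from its joints.
-/

set_option autoImplicit false

open Set
open Pool.Agent.Work.MP_017613_gt (Men)

namespace BD

/-- **Characterisation of the Menger compacta.** -/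
theorem homeo_mu {n m : ℕ} (hn : 1 ≤ n) (hm : 2 * n + 1 ≤ m) {Y : Type} [MetricSpace Y]
    [CompactSpace Y] (hne : Nonempty Y) (hY : Men n Y) (hc : MG.Conn n (univ : Set Y)) :
    Nonempty (Y ≃ₜ MG.mu n m) := by
  have hW : Pool.Agent.Work.MP_017613_gt.ZS (∅ : Set Y) := Pool.Agent.Work.MP_017613_gt.ZS.empty
  have hW' : Pool.Agent.Work.MP_017613_gt.ZS (∅ : Set (MG.mu n m)) :=
    Pool.Agent.Work.MP_017613_gt.ZS.empty
  let g : (∅ : Set Y) ≃ₜ (∅ : Set (MG.mu n m)) := Homeomorph.empty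
  obtain ⟨h, -⟩ := MG.tpt_of (Pool.Agent.Work.MP_017613_gt.TrB.trelP_rnd MG.Tr.j_s_all hn) Y
    (MG.mu n m) hne inferInstance hY (MG.men_mu hm) hc (MG.connU_mu n m) ∅ ∅ hW hW' g
  exact ⟨h⟩

/-- **The main statement from its joints**: the combinatorial form of Coxeter polytopes, and a
compact model of the boundary. -/
theorem main_of
    (andreev : ∀ (n : ℕ), 1 ≤ n → ∀ (ι : Type) [Finite ι] (M : CoxeterMatrix ι)
      (e : ι → Mink (n + 1)), IsCoxeterPolytope M e → CoxPoly M e)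
    (model : ∀ (n : ℕ), 1 ≤ n → ∀ (ι : Type) [Finite ι] (M : CoxeterMatrix ι)
      (e : ι → Mink (n + 1)), CoxPoly M e → ∀ (C : Type) (Δ : Building M C), Δ.Thick →
      Δ.LocFinite → ∀ o : Space e Δ, ∃ (Y : Type) (_ : MetricSpace Y) (_ : CompactSpace Y),
        Nonempty Y ∧ Men n Y ∧ MG.Conn n (univ : Set Y) ∧ Nonempty (Bdry e Δ o ≃ₜ Y)) :
    MainStatement := by
  intro n hn ι _ M e hP C Δ hT hL o m hm
  obtain ⟨Y, _, _, hne, hY, hc, ⟨θ⟩⟩ := model n hn ι M e (andreev n hn ι M e hP) C Δ hT hL o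
  obtain ⟨φ⟩ := homeo_mu hn hm hne hY hc
  exact ⟨θ.trans φ⟩

end BD
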