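import Pool.Agent.Work.MP_de2d29_al.CoverRep

/-!
# Long geodesics cross walls transversally

* `CoxPoly.exists_tile`: two points which no wall separates strictly lie in one tile.
* `CoxPoly.transv`: the walls separate the points `y, q` with `a ≤ -lor y q ≤ b` in a uniform way, if
  `a` is larger than all `-lor x x'` with `x, x'` in the polytope.
* `lor_base_le`: if `y, q` are the points at distance `s`, `s + T` from `o` on a geodesic, a wall which
  separates `y` and `q` is far away from `o`.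
* `shadow_le`: a point on one side of a wall whose foot point is near `y` and a point on the other
  side: the geodesic joining them passes near `y`.
-/

set_option autoImplicit false

open Set

namespace BD

variable {d : ℕ} {ι : Type} {M : CoxeterMatrix ι} {e : ι → Mink d}

namespace Tr

open Cov

theorem lor_self_nonneg_of_perp {y u : Mink d} (hy : y ∈ Hyp d) (hu : lor u y = 0) :
    0 ≤ lor u u := by
  by_contra hcon
  push Not at hcon
  have key : ∀ v : Mink d, lor v y = 0 → lor v v < 0 → 0 ≤ v 0 → False := by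
    intro v hv hvv hv0
    have h1 := lor_sq_ge hvv.le hv0 (Hyp.le hy) hy.2.le
    rw [hv, hy.1] at h1
    nlinarith
  rcases le_total 0 (u 0) with h | h
  · exact key u hu hcon h
  · refine key (-u) ?_ ?_ (by simpa using h)
    · rw [lor_neg_left, hu, neg_zero]
    · rw [lor_neg_left, lor_neg_right, neg_neg]
      exact hcon

/-- the Cauchy-Schwarz inequality on the orthogonal complement of a point of hyperbolic space -/
theorem lor_sq_le {y u v : Mink d} (hy : y ∈ Hyp d) (hu : lor u y = 0) (hv : lor v y = 0) :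
    lor u v ^ 2 ≤ lor u u * lor v v := by
  have h1 : ∀ s t : ℝ, 0 ≤ s ^ 2 * lor u u + 2 * (s * t) * lor u v + t ^ 2 * lor v v := by
    intro s t
    have h2 := lor_self_nonneg_of_perp (u := s • u + t • v) hy (by
      rw [lor_add_left, lor_smul_left, lor_smul_left, hu, hv]
      ring)
    rw [lor_add_left, lor_add_right, lor_add_right, lor_smul_left, lor_smul_left, lor_smul_left,
      lor_smul_left, lor_smul_right, lor_smul_right, lor_smul_right, lor_smul_right,
      lor_comm v u] at h2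
    nlinarith
  have hu0 := lor_self_nonneg_of_perp hy hu
  have hv0 := lor_self_nonneg_of_perp hy hv
  rcases hu0.eq_or_lt with h0 | h0
  · have h3 : lor u v = 0 := by
      by_contra hc
      have h4 := h1 (-(lor v v + 1) / lor u v) 1
      rw [← h0] at h4
      have h5 : (-(lor v v + 1) / lor u v * 1) * lor u v = -(lor v v + 1) := by
        field_simp
      nlinarith
    rw [h3, ← h0]
    simp
  · have h4 := h1 (-lor u v) (lor u u)
    have h5 : 0 ≤ lor u u * (lor u u * lor v v - lor u v ^ 2) := by nlinarith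
    have h6 := nonneg_of_mul_nonneg_right h5 h0
    linarith

/-- the normalised sum of two points -/
theorem exists_mid {y q : Mink d} (hy : y ∈ Hyp d) (hq : q ∈ Hyp d) :
    ∃ c : ℝ, 0 < c ∧ c • (y + q) ∈ Hyp d := by
  have h1 := one_le_neg_lor hy hq
  have h2 : lor (y + q) (y + q) = -2 + 2 * lor y q := by
    rw [lor_add_left, lor_add_right, lor_add_right, hy.1, hq.1, lor_comm q y]
    ring
  have h3 : 0 < 2 - 2 * lor y q := by linarith
  refine ⟨(√(2 - 2 * lor y q))⁻¹, by positivity, ?_, ?_⟩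
  · rw [lor_smul_left, lor_smul_right, h2, ← mul_assoc]
    have h4 : (√(2 - 2 * lor y q))⁻¹ * (√(2 - 2 * lor y q))⁻¹ = (2 - 2 * lor y q)⁻¹ := by
      rw [← mul_inv, Real.mul_self_sqrt h3.le]
    rw [h4, show -2 + 2 * lor y q = -(2 - 2 * lor y q) by ring, mul_neg, inv_mul_cancel₀ h3.ne']
  · have h5 : 0 < y 0 + q 0 := add_pos hy.2 hq.2
    simp only [Pi.smul_apply, Pi.add_apply, smul_eq_mul]
    positivity

end Tr

namespace CoxPoly

/-- two points which no wall separates strictly lie in one tile -/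
theorem exists_tile [Finite ι] (h : CoxPoly M e) {y q : Mink d} (hy : y ∈ Hyp d) (hq : q ∈ Hyp d)
    (hns : ∀ (w : M.Group) (i : ι), 0 ≤ lor y (h.rep w (e i)) * lor q (h.rep w (e i))) :
    ∃ w : M.Group, h.rep w⁻¹ y ∈ poly e ∧ h.rep w⁻¹ q ∈ poly e := by
  obtain ⟨c, hc, hm⟩ := Tr.exists_mid hy hq
  obtain ⟨w, hw⟩ := h.cover_inv hm
  have h1 : ∀ i, lor y (h.rep w (e i)) ≤ 0 ∧ lor q (h.rep w (e i)) ≤ 0 := by
    intro i
    have h2 := hw.2 i
    rw [map_smul, map_add, Cov.lor_smul_left, Cov.lor_add_left, lor_rep_left, lor_rep_left,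
      inv_inv] at h2
    have h3 : lor y (h.rep w (e i)) + lor q (h.rep w (e i)) ≤ 0 := by
      by_contra hcon
      push Not at hcon
      exact absurd h2 (not_le.2 (mul_pos hc hcon))
    have h4 := hns w i
    constructor
    · by_contra hcon
      push Not at hcon
      nlinarith
    · by_contra hcon
      push Not at hcon
      nlinarith
  refine ⟨w, ⟨h.rep_mem_Hyp _ hy, fun i => ?_⟩, ⟨h.rep_mem_Hyp _ hq, fun i => ?_⟩⟩
  · rw [lor_rep_left, inv_inv]
    exact (h1 i).1
  · rw [lor_rep_left, inv_inv]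
    exact (h1 i).2

/-- the two roots of a wall -/
theorem rep_mul_simple_root (h : CoxPoly M e) (w : M.Group) (i : ι) :
    h.rep (w * M.simple i) (e i) = -h.rep w (e i) := by
  rw [h.rep_mul, h.rep_simple, refl, h.unit i, mul_one, two_smul, ← sub_sub, sub_self, zero_sub,
    map_neg]

/-- two points far apart are separated strictly by a wall -/
theorem exists_sep [Finite ι] (h : CoxPoly M e) {D : ℝ}
    (hD : ∀ x ∈ poly e, ∀ y ∈ poly e, -lor x y ≤ D) {y q : Mink d} (hy : y ∈ Hyp d)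
    (hq : q ∈ Hyp d) (hyq : D < -lor y q) :
    ∃ (w : M.Group) (i : ι), lor y (h.rep w (e i)) < 0 ∧ 0 < lor q (h.rep w (e i)) := by
  by_contra hcon
  push Not at hcon
  obtain ⟨w, h1, h2⟩ := h.exists_tile hy hq (fun w i => by
    rcases lt_trichotomy (lor y (h.rep w (e i))) 0 with h3 | h3 | h3
    · exact mul_nonneg_of_nonpos_of_nonpos h3.le (hcon w i h3)
    · rw [h3, zero_mul]
    · have h4 := hcon (w * M.simple i) i
      rw [rep_mul_simple_root, Cov.lor_neg_right, Cov.lor_neg_right] at h4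
      exact mul_nonneg h3.le (by linarith [h4 (by linarith)]))
  have h3 := hD _ h1 _ h2
  rw [h.lor_rep] at h3
  linarith

/-- **Uniform separation**: the points `y, q` with `a ≤ -lor y q ≤ b` are separated by a wall in a
uniform way. -/
theorem transv [Finite ι] (h : CoxPoly M e) {D : ℝ}
    (hD : ∀ x ∈ poly e, ∀ y ∈ poly e, -lor x y ≤ D) {a : ℝ} (ha : D < a) (b : ℝ) :
    ∃ θ : ℝ, 0 < θ ∧ ∀ y ∈ Hyp d, ∀ q ∈ Hyp d, a ≤ -lor y q → -lor y q ≤ b →
      ∃ (w : M.Group) (i : ι), lor y (h.rep w (e i)) ≤ -θ ∧ θ ≤ lor q (h.rep w (e i)) := by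
  -- a compact set of pairs
  obtain ⟨B, hB⟩ := (h.compact.image (continuous_apply (0 : Fin (d + 1)))).bddAbove
  have hB' : ∀ y ∈ poly e, y 0 ≤ B := fun y hy => hB ⟨y, hy, rfl⟩
  set K : Set (Mink d × Mink d) := {p | p.1 ∈ poly e ∧ p.2 ∈ Hyp d ∧ a ≤ -lor p.1 p.2 ∧
    -lor p.1 p.2 ≤ b} with hKdef
  have hK : IsCompact K := by
    refine (h.compact.prod (Cov.isCompact_height (2 * max B 0 * max b 0))).of_isClosed_subset ?_ ?_
    · have h1 : K = (poly e ×ˢ Hyp d) ∩ ({p | a ≤ -lor p.1 p.2} ∩ {p | -lor p.1 p.2 ≤ b}) := by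
        ext p
        simp only [hKdef, mem_ofPred_eq, mem_inter_iff, mem_prod]
        tauto
      rw [h1]
      refine (h.compact.isClosed.prod Cov.isClosed_Hyp).inter (IsClosed.inter ?_ ?_)
      · exact isClosed_le continuous_const Cov.continuous_lor.neg
      · exact isClosed_le Cov.continuous_lor.neg continuous_const
    · rintro ⟨y, q⟩ ⟨hy, hq, h1, h2⟩
      refine ⟨hy, hq, ?_⟩
      have h3 := Cov.height_le hy.1 hq
      have h4 := Cov.one_le_neg_lor hy.1 hq
      have h5 := hB' y hy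
      have h6 := hy.1.2
      show q 0 ≤ 2 * max B 0 * max b 0
      have h7 : y 0 ≤ max B 0 := h5.trans (le_max_left _ _)
      have h8 : -lor y q ≤ max b 0 := h2.trans (le_max_left _ _)
      calc q 0 ≤ 2 * y 0 * -lor y q := h3
        _ ≤ 2 * max B 0 * max b 0 := by
          apply mul_le_mul _ h8 (by linarith) (by positivity)
          linarith
  -- the open cover
  set U : ℕ → Set (Mink d × Mink d) := fun n => ⋃ w : M.Group, ⋃ i : ι,
    {p | lor p.1 (h.rep w (e i)) < -(1 / ((n : ℝ) + 1))} ∩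
      {p | 1 / ((n : ℝ) + 1) < lor p.2 (h.rep w (e i))} with hUdef
  have hUo : ∀ n, IsOpen (U n) := by
    intro n
    refine isOpen_iUnion fun w => isOpen_iUnion fun i => IsOpen.inter ?_ ?_
    · exact isOpen_lt ((Cov.continuous_lor_left _).comp continuous_fst) continuous_const
    · exact isOpen_lt continuous_const ((Cov.continuous_lor_left _).comp continuous_snd)
  have hmono : Monotone U := by
    intro n m hnm p hp
    simp only [hUdef, mem_iUnion, mem_inter_iff, mem_ofPred_eq] at hp ⊢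
    obtain ⟨w, i, h1, h2⟩ := hp
    have h3 : 1 / ((m : ℝ) + 1) ≤ 1 / ((n : ℝ) + 1) := by
      apply one_div_le_one_div_of_le (by positivity)
      have : (n : ℝ) ≤ m := by exact_mod_cast hnm
      linarith
    exact ⟨w, i, by linarith, by linarith⟩
  have hcov : K ⊆ ⋃ n, U n := by
    rintro ⟨y, q⟩ ⟨hy, hq, h1, h2⟩
    obtain ⟨w, i, h3, h4⟩ := h.exists_sep hD hy.1 hq (ha.trans_le h1)
    obtain ⟨n, hn⟩ := exists_nat_one_div_lt (lt_min (neg_pos.2 h3) h4)
    simp only [hUdef, mem_iUnion, mem_inter_iff, mem_ofPred_eq]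
    refine ⟨n, w, i, ?_, ?_⟩
    · have := hn.trans_le (min_le_left _ _)
      linarith
    · exact hn.trans_le (min_le_right _ _)
  obtain ⟨n, hn⟩ := hK.elim_directed_cover U hUo hcov hmono.directed_le
  refine ⟨1 / ((n : ℝ) + 1), by positivity, fun y hy q hq h1 h2 => ?_⟩
  obtain ⟨w₀, hw₀⟩ := h.cover_inv hy
  have hmem : (h.rep w₀⁻¹ y, h.rep w₀⁻¹ q) ∈ K := by
    refine ⟨hw₀, h.rep_mem_Hyp _ hq, ?_, ?_⟩
    · show a ≤ -lor (h.rep w₀⁻¹ y) (h.rep w₀⁻¹ q)
      rw [h.lor_rep]
      exact h1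
    · show -lor (h.rep w₀⁻¹ y) (h.rep w₀⁻¹ q) ≤ b
      rw [h.lor_rep]
      exact h2
  have h3 := hn hmem
  simp only [hUdef, mem_iUnion, mem_inter_iff, mem_ofPred_eq] at h3
  obtain ⟨w, i, h4, h5⟩ := h3
  rw [lor_rep_left, inv_inv, ← rep_mul] at h4 h5
  exact ⟨w₀ * w, i, h4.le, h5.le⟩

end CoxPoly

/-- if `y, q` are the points at distance `s`, `s + T` from `o` on a geodesic, a wall which separates
`y` and `q` is far away from `o` -/
theorem lor_base_le {o y q β : Mink d} {s T θ : ℝ} (hs : 0 ≤ s) (hT : 0 < T) (hθ : 0 ≤ θ)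
    (hcol : Real.sinh (s + T) • y = Real.sinh s • q + Real.sinh T • o)
    (h1 : lor y β ≤ -θ) (h2 : θ ≤ lor q β) : lor o β ≤ -(θ * Real.cosh s) := by
  have e1 : Real.sinh (s + T) * lor y β = Real.sinh s * lor q β + Real.sinh T * lor o β := by
    rw [← Cov.lor_smul_left, hcol, Cov.lor_add_left, Cov.lor_smul_left, Cov.lor_smul_left]
  have hsT : 0 < Real.sinh T := Real.sinh_pos_iff.2 hT
  have hss : 0 ≤ Real.sinh s := Real.sinh_nonneg_iff.2 hs
  have hst : 0 ≤ Real.sinh (s + T) := Real.sinh_nonneg_iff.2 (by linarith)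
  have e2 : Real.sinh T * Real.cosh s ≤ Real.sinh (s + T) := by
    rw [Real.sinh_add]
    have := Real.cosh_pos T
    nlinarith [mul_nonneg hss this.le]
  have e3 : Real.sinh (s + T) * lor y β ≤ Real.sinh (s + T) * (-θ) :=
    mul_le_mul_of_nonneg_left h1 hst
  have e4 : 0 ≤ Real.sinh s * lor q β := mul_nonneg hss (hθ.trans h2)
  have e5 : Real.sinh T * lor o β ≤ Real.sinh T * -(θ * Real.cosh s) := by
    nlinarith [mul_le_mul_of_nonneg_left e2 hθ]
  exact le_of_mul_le_mul_left e5 hsT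

/-- **Transversality**: there are `L, θ > 0` such that every geodesic segment of length `L` crosses a
wall transversally. -/
theorem CoxPoly.exists_transv [Finite ι] (h : CoxPoly M e) :
    ∃ L θ : ℝ, 0 < L ∧ 0 < θ ∧ ∀ y ∈ Hyp d, ∀ q ∈ Hyp d, hdist y q = L →
      ∃ (w : M.Group) (i : ι), lor y (h.rep w (e i)) ≤ -θ ∧ θ ≤ lor q (h.rep w (e i)) := by
  obtain ⟨D, hD1, hD⟩ := h.exists_bound
  set L := Real.arcosh (D + 1) with hL
  have hL0 : 0 < L := by
    rw [hL]
    exact Real.arcosh_pos (by linarith)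
  obtain ⟨θ, hθ, hs⟩ := h.transv hD (a := D + 1) (by linarith) (D + 1)
  refine ⟨L, θ, hL0, hθ, fun y hy q hq hyq => ?_⟩
  have h1 : -lor y q = D + 1 := by
    have h2 := congrArg Real.cosh hyq
    rw [hdist, Real.cosh_arcosh (Cov.one_le_neg_lor hy hq), hL,
      Real.cosh_arcosh (by linarith)] at h2
    exact h2
  exact hs y hy q hq h1.ge h1.le

/-- **Transversality on rays**: `y, q` are the points at distance `s`, `s + L` from `o` on a
geodesic. -/
theorem CoxPoly.exists_transv_ray [Finite ι] (h : CoxPoly M e) :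
    ∃ L θ : ℝ, 0 < L ∧ 0 < θ ∧ ∀ (o y q : Mink d) (s : ℝ), y ∈ Hyp d → q ∈ Hyp d →
      hdist y q = L → 0 ≤ s → Real.sinh (s + L) • y = Real.sinh s • q + Real.sinh L • o →
      ∃ (w : M.Group) (i : ι), lor y (h.rep w (e i)) ≤ -θ ∧ θ ≤ lor q (h.rep w (e i)) ∧
        lor o (h.rep w (e i)) ≤ -(θ * Real.cosh s) := by
  obtain ⟨L, θ, hL, hθ, hs⟩ := h.exists_transv
  refine ⟨L, θ, hL, hθ, fun o y q s hy hq hyq hs0 hcol => ?_⟩
  obtain ⟨w, i, h1, h2⟩ := hs y hy q hq hyq
  exact ⟨w, i, h1, h2, lor_base_le hs0 hL hθ.le hcol h1 h2⟩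

/-- **Shadow inequality**: `y` lies on the wall `lor _ a = 0`, whose foot point (seen from `o`) is near
`y`; `q` is on the other side. -/
theorem shadow_le {o q y a : Mink d} {θ : ℝ} (ho : o ∈ Hyp d) (hq : q ∈ Hyp d) (hy : y ∈ Hyp d)
    (ha : lor a a = 1) (hya : lor y a = 0) (hθ : 0 ≤ θ) (hoa : lor o a ≤ θ * lor o y)
    (hqa : 0 ≤ lor q a) : θ ^ 2 / 2 * (lor o y * lor y q) ≤ -lor o q := by
  have hA := Cov.one_le_neg_lor ho hy
  have hB := Cov.one_le_neg_lor hq hy
  set A := -lor o y with hAd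
  set B := -lor q y with hBd
  set α := lor o a with hα
  set γ := lor q a with hγ
  -- components orthogonal to `y` and `a`
  have hay : lor a y = 0 := by rw [Cov.lor_comm, hya]
  have u1 : lor (o - A • y - α • a) y = 0 := by
    rw [Cov.lor_sub_left, Cov.lor_sub_left, Cov.lor_smul_left, Cov.lor_smul_left, hy.1, hay]
    simp only [hAd]
    ring
  have v1 : lor (q - B • y - γ • a) y = 0 := by
    rw [Cov.lor_sub_left, Cov.lor_sub_left, Cov.lor_smul_left, Cov.lor_smul_left, hy.1, hay]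
    simp only [hBd]
    ring
  have u2 : lor (o - A • y - α • a) (o - A • y - α • a) = A ^ 2 - 1 - α ^ 2 := by
    simp only [Cov.lor_sub_left, Cov.lor_sub_right, Cov.lor_smul_left, Cov.lor_smul_right, ho.1,
      hy.1, ha, hya, hay, Cov.lor_comm y o, Cov.lor_comm a o, ← hα]
    rw [show lor o y = -A by rw [hAd]; ring]
    ring
  have v2 : lor (q - B • y - γ • a) (q - B • y - γ • a) = B ^ 2 - 1 - γ ^ 2 := by
    simp only [Cov.lor_sub_left, Cov.lor_sub_right, Cov.lor_smul_left, Cov.lor_smul_right, hq.1,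
      hy.1, ha, hya, hay, Cov.lor_comm y q, Cov.lor_comm a q, ← hγ]
    rw [show lor q y = -B by rw [hBd]; ring]
    ring
  have uv : lor (o - A • y - α • a) (q - B • y - γ • a) = lor o q + A * B - α * γ := by
    simp only [Cov.lor_sub_left, Cov.lor_sub_right, Cov.lor_smul_left, Cov.lor_smul_right,
      hy.1, ha, hya, hay, Cov.lor_comm y q, Cov.lor_comm a q, ← hγ, ← hα]
    rw [show lor q y = -B by rw [hBd]; ring, show lor o y = -A by rw [hAd]; ring]
    ring
  have hcs := Tr.lor_sq_le hy u1 v1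
  have hu0 := Tr.lor_self_nonneg_of_perp hy u1
  have hv0 := Tr.lor_self_nonneg_of_perp hy v1
  rw [u2] at hu0
  rw [v2] at hv0
  rw [u2, v2, uv] at hcs
  have hα' : θ * A ≤ -α := by
    rw [hAd]
    linarith
  have hθA : 0 ≤ θ * A := by positivity
  have h1 : (θ * A) ^ 2 ≤ α ^ 2 := by nlinarith
  have h2 : A ^ 2 - 1 - α ^ 2 ≤ (1 - θ ^ 2) * A ^ 2 := by nlinarith
  have h3 : B ^ 2 - 1 - γ ^ 2 ≤ B ^ 2 := by nlinarith
  have hθ1 : θ ^ 2 ≤ 1 := by
    by_contra hcon
    push Not at hcon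
    nlinarith
  have h4 : (lor o q + A * B - α * γ) ^ 2 ≤ ((1 - θ ^ 2 / 2) * (A * B)) ^ 2 := by
    calc (lor o q + A * B - α * γ) ^ 2 ≤ (A ^ 2 - 1 - α ^ 2) * (B ^ 2 - 1 - γ ^ 2) := hcs
      _ ≤ ((1 - θ ^ 2) * A ^ 2) * B ^ 2 := by
        apply mul_le_mul h2 h3 hv0
        have : 0 ≤ 1 - θ ^ 2 := by linarith
        positivity
      _ ≤ ((1 - θ ^ 2 / 2) * (A * B)) ^ 2 := by
        have h41 : 1 - θ ^ 2 ≤ (1 - θ ^ 2 / 2) ^ 2 := by
          have h42 : (1 - θ ^ 2 / 2) ^ 2 = 1 - θ ^ 2 + (θ ^ 2 / 2) ^ 2 := by ring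
          rw [h42]
          linarith [sq_nonneg (θ ^ 2 / 2)]
        have hAB : 0 ≤ (A * B) ^ 2 := sq_nonneg _
        calc (1 - θ ^ 2) * A ^ 2 * B ^ 2 = (1 - θ ^ 2) * (A * B) ^ 2 := by ring
          _ ≤ (1 - θ ^ 2 / 2) ^ 2 * (A * B) ^ 2 := mul_le_mul_of_nonneg_right h41 hAB
          _ = ((1 - θ ^ 2 / 2) * (A * B)) ^ 2 := by ring
  have h5 : lor o q + A * B - α * γ ≤ (1 - θ ^ 2 / 2) * (A * B) := by
    refine (abs_le_of_sq_le_sq' h4 ?_).2
    have : 0 ≤ 1 - θ ^ 2 / 2 := by linarith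
    have hA0 : 0 ≤ A := by linarith
    have hB0 : 0 ≤ B := by linarith
    positivity
  have h6 : α * γ ≤ 0 := mul_nonpos_of_nonpos_of_nonneg (by linarith) hqa
  have h7 : lor o y * lor y q = A * B := by
    rw [Cov.lor_comm y q, hAd, hBd]
    ring
  rw [h7]
  linarith

end BD
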