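import Pool.Agent.Work.MP_de2d29_al.XHat
import Pool.Agent.Work.MP_de2d29_al.Rad

/-!
# BUILDING: radial maps from the hyperbolic comparison inequality

`RadSp.of_cat`: a system of radial maps satisfying the comparison inequality `HCat` (the CAT(-1)
inequality for the triangle `o, x, y` and the point `p t x` of its side) is a `RadSp`.
`HCat.visual`: the radial maps contract exponentially. `HCat.size`: small diameter of far sets in
`XHat`.
-/

set_option autoImplicit false

open Set Metric Topology Filter Real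

namespace BD

variable {X : Type} [MetricSpace X] {o : X} {p : ℝ → X → X}

/-- comparison inequality for radial maps -/
structure HCat (X : Type) [MetricSpace X] (o : X) (p : ℝ → X → X) : Prop where
  big : ∀ t x, dist o x ≤ t → p t x = x
  cat : ∀ t x y, 0 ≤ t → t < dist o x → cosh (dist (p t x) y) * sinh (dist o x) ≤
    sinh (dist o x - t) * cosh (dist o y) + sinh t * cosh (dist x y)

theorem le_of_cosh_le {a b : ℝ} (ha : 0 ≤ a) (hb : 0 ≤ b) (h : cosh a ≤ cosh b) : a ≤ b := by
  have := Real.cosh_le_cosh.1 h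
  rwa [abs_of_nonneg ha, abs_of_nonneg hb] at this

namespace HCat

variable (h : HCat X o p)
include h

theorem dist_left {t : ℝ} {x : X} (h0 : 0 ≤ t) (h1 : t ≤ dist o x) : dist o (p t x) = t ∧
    dist (p t x) x = dist o x - t := by
  rcases h1.eq_or_lt with he | hlt
  · rw [h.big t x he.ge, dist_self, he]
    exact ⟨rfl, by ring⟩
  have hD : 0 < dist o x := h0.trans_lt hlt
  have sD : 0 < sinh (dist o x) := sinh_pos_iff.2 hD
  have e1 : dist (p t x) o ≤ t := by
    refine le_of_cosh_le dist_nonneg h0 ?_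
    have h2 := h.cat t x o h0 hlt
    rw [dist_self, cosh_zero, mul_one, dist_comm x o, sinh_sub] at h2
    have h3 : cosh (dist (p t x) o) * sinh (dist o x) ≤ cosh t * sinh (dist o x) := by
      nlinarith
    exact le_of_mul_le_mul_right h3 sD
  have e2 : dist (p t x) x ≤ dist o x - t := by
    refine le_of_cosh_le dist_nonneg (by linarith) ?_
    have h2 := h.cat t x x h0 hlt
    rw [dist_self, cosh_zero, mul_one] at h2
    have h4 : sinh t = sinh (dist o x) * cosh (dist o x - t) -
        cosh (dist o x) * sinh (dist o x - t) := by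
      rw [← sinh_sub]
      congr 1
      ring
    have h3 : cosh (dist (p t x) x) * sinh (dist o x) ≤
        cosh (dist o x - t) * sinh (dist o x) := by
      rw [h4] at h2
      nlinarith
    exact le_of_mul_le_mul_right h3 sD
  have e3 := dist_triangle o (p t x) x
  rw [dist_comm o (p t x)] at e3 ⊢
  constructor <;> linarith

theorem uniq {x y : X} (hy : dist o y + dist y x = dist o x) : y = p (dist o y) x := by
  rcases (dist_nonneg (x := y) (y := x)).eq_or_lt with he | hlt
  · have h1 : y = x := dist_eq_zero.1 he.symm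
    rw [h1]
    exact (h.big _ _ le_rfl).symm
  have h0 : 0 ≤ dist o y := dist_nonneg
  have hD : dist o y < dist o x := by linarith
  have sD : 0 < sinh (dist o x) := sinh_pos_iff.2 (h0.trans_lt hD)
  have h1 := h.cat (dist o y) x y h0 hD
  have h2 : dist x y = dist o x - dist o y := by rw [dist_comm x y]; linarith
  rw [h2] at h1
  have h3 : sinh (dist o x) = sinh (dist o x - dist o y) * cosh (dist o y) +
      sinh (dist o y) * cosh (dist o x - dist o y) := by
    have : dist o x = (dist o x - dist o y) + dist o y := by ring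
    conv_lhs => rw [this, sinh_add]
    ring
  rw [← h3] at h1
  have h4 : cosh (dist (p (dist o y) x) y) ≤ 1 := by
    have : cosh (dist (p (dist o y) x) y) * sinh (dist o x) ≤ 1 * sinh (dist o x) := by
      rw [one_mul]; exact h1
    exact le_of_mul_le_mul_right this sD
  rw [← cosh_zero] at h4
  have h5 := le_of_cosh_le dist_nonneg le_rfl h4
  exact (dist_le_zero.1 h5).symm

/-- one-sided form -/
theorem one {t q : ℝ} {x y : X} (h0 : 0 ≤ t) (h1 : t ≤ dist o x)
    (hM : cosh (dist x y) ≤ cosh (dist o x - dist o y) +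
      sinh (dist o x) * sinh (dist o y) * q) :
    cosh (dist (p t x) y) ≤ cosh (t - dist o y) + sinh t * sinh (dist o y) * q := by
  rcases h1.eq_or_lt with he | hlt
  · rw [h.big t x he.ge, he]
    exact hM
  have sD : 0 < sinh (dist o x) := sinh_pos_iff.2 (h0.trans_lt hlt)
  have st : 0 ≤ sinh t := sinh_nonneg_iff.2 h0
  have h2 := h.cat t x y h0 hlt
  have h3 := mul_le_mul_of_nonneg_left hM st
  have h4 : sinh (dist o x - t) * cosh (dist o y) + sinh t * cosh (dist o x - dist o y) =
      cosh (t - dist o y) * sinh (dist o x) := by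
    rw [sinh_sub, cosh_sub, cosh_sub]
    ring
  have h5 : cosh (dist (p t x) y) * sinh (dist o x) ≤
      (cosh (t - dist o y) + sinh t * sinh (dist o y) * q) * sinh (dist o x) := by
    rw [add_mul, ← h4]
    nlinarith
  exact le_of_mul_le_mul_right h5 sD

/-- two-sided form -/
theorem two {s t q : ℝ} {x y : X} (hs0 : 0 ≤ s) (hs : s ≤ dist o x) (ht0 : 0 ≤ t)
    (ht : t ≤ dist o y) (hM : cosh (dist x y) ≤ cosh (dist o x - dist o y) +
      sinh (dist o x) * sinh (dist o y) * q) :
    cosh (dist (p s x) (p t y)) ≤ cosh (s - t) + sinh s * sinh t * q := by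
  have h1 := h.one hs0 hs hM
  have h2 := (h.dist_left hs0 hs).1
  have h3 := h.one (x := y) (y := p s x) (q := q) ht0 ht (by
    rw [dist_comm, h2]
    refine h1.trans (le_of_eq ?_)
    rw [← neg_sub, cosh_neg]
    ring)
  rw [h2, dist_comm] at h3
  refine h3.trans (le_of_eq ?_)
  rw [← neg_sub, cosh_neg]
  ring

omit h in
/-- the angle term -/
theorem angle {x y : X} (hx : 0 < dist o x) (hy : 0 < dist o y) :
    ∃ q : ℝ, 0 ≤ q ∧ cosh (dist x y) = cosh (dist o x - dist o y) +
      sinh (dist o x) * sinh (dist o y) * q := by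
  have s1 : 0 < sinh (dist o x) := sinh_pos_iff.2 hx
  have s2 : 0 < sinh (dist o y) := sinh_pos_iff.2 hy
  refine ⟨(cosh (dist x y) - cosh (dist o x - dist o y)) /
    (sinh (dist o x) * sinh (dist o y)), ?_, ?_⟩
  · refine div_nonneg ?_ (by positivity)
    rw [sub_nonneg, Real.cosh_le_cosh, abs_of_nonneg dist_nonneg]
    have := abs_dist_sub_le x y o
    rwa [dist_comm x o, dist_comm y o] at this
  · field_simp
    ring

theorem eq_min (t : ℝ) (x : X) : p t x = p (min t (dist o x)) x := by
  rcases le_total t (dist o x) with ht | ht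
  · rw [min_eq_left ht]
  · rw [min_eq_right ht, h.big t x ht, h.big _ x le_rfl]

theorem norm {t : ℝ} (ht : 0 ≤ t) (x : X) : dist o (p t x) = min t (dist o x) := by
  rw [h.eq_min t x]
  exact (h.dist_left (le_min ht dist_nonneg) (min_le_right _ _)).1

theorem lip {t : ℝ} (ht : 0 ≤ t) (x y : X) : dist (p t x) (p t y) ≤ dist x y := by
  have hz : ∀ z : X, dist o z ≤ 0 → z = o := fun z hz => (dist_le_zero.1 hz).symm
  rcases (dist_nonneg (x := o) (y := x)).eq_or_lt with hx | hx
  · have h1 := hz x hx.ge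
    rw [h.big t x (by rw [← hx]; exact ht), h1, h.norm ht]
    exact min_le_right _ _
  rcases (dist_nonneg (x := o) (y := y)).eq_or_lt with hy | hy
  · have h1 := hz y hy.ge
    rw [h.big t y (by rw [← hy]; exact ht), h1, dist_comm, h.norm ht, dist_comm x o]
    exact min_le_right _ _
  obtain ⟨q, hq, hM⟩ := angle hx hy
  have h2 := h.two (s := min t (dist o x)) (t := min t (dist o y)) (q := q) (le_min ht hx.le)
    (min_le_right _ _) (le_min ht hy.le) (min_le_right _ _) hM.le
  rw [← h.eq_min, ← h.eq_min] at h2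
  refine le_of_cosh_le dist_nonneg dist_nonneg (h2.trans ?_)
  rw [hM]
  refine add_le_add ?_ ?_
  · rw [Real.cosh_le_cosh]
    have := abs_min_sub_min_le_max t (dist o x) t (dist o y)
    rwa [sub_self, abs_zero, max_eq_right (abs_nonneg _)] at this
  · refine mul_le_mul_of_nonneg_right ?_ hq
    exact mul_le_mul (sinh_le_sinh.2 (min_le_right _ _)) (sinh_le_sinh.2 (min_le_right _ _))
      (sinh_nonneg_iff.2 (le_min ht hy.le)) (sinh_nonneg_iff.2 hx.le)

theorem comp {s t : ℝ} {x : X} (hs : 0 ≤ s) (hst : s ≤ t) : p s (p t x) = p s x := by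
  rcases le_total (dist o x) t with ht | ht
  · rw [h.big t x ht]
  have ht0 := hs.trans hst
  obtain ⟨e1, e2⟩ := h.dist_left ht0 ht
  obtain ⟨e3, e4⟩ := h.dist_left hs (x := p t x) (by rw [e1]; exact hst)
  have h1 := dist_triangle (p s (p t x)) (p t x) x
  have h2 := dist_triangle o (p s (p t x)) x
  have h3 := h.uniq (x := x) (y := p s (p t x)) (by
    rw [e3] at h2 ⊢
    rw [e2, e4, e1] at h1
    linarith)
  rw [e3] at h3
  exact h3

theorem move {s t : ℝ} {x : X} (hs : 0 ≤ s) (hst : s ≤ t) : dist (p s x) (p t x) ≤ t - s := by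
  rw [← h.comp hs hst]
  have h1 := h.norm (hs.trans hst) x
  rcases le_total (dist o (p t x)) s with h2 | h2
  · rw [h.big s _ h2, dist_self]
    linarith
  · rw [(h.dist_left hs h2).2, h1]
    have := min_le_left t (dist o x)
    linarith

/-- **radial maps from the comparison inequality** -/
theorem radSp (hc : ∀ r, IsCompact (closedBall o r)) : RadSp X o p where
  nrm _ ht x := h.norm ht x
  fix t x hx := h.big t x hx
  comp _ _ _ hs hst := h.comp hs hst
  lip _ x y ht := h.lip ht x y
  move _ _ _ hs hst := h.move hs hst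
  uniq _ _ hy := h.uniq hy
  cpt := hc

/-- **exponential contraction** -/
theorem visual {r s δ : ℝ} {x y : X} (hr : 0 ≤ r) (hrs : r ≤ s) (hs : 0 < s)
    (hx : s ≤ dist o x) (hy : s ≤ dist o y) (hd : dist x y ≤ δ) :
    dist (p r x) (p r y) ≤ 2 * sinh (δ / 2) * exp (r - s) := by
  have hδ : 0 ≤ δ := dist_nonneg.trans hd
  have hx0 : 0 < dist o x := hs.trans_le hx
  have hy0 : 0 < dist o y := hs.trans_le hy
  obtain ⟨q, hq, hM⟩ := angle hx0 hy0
  have h2 := h.two (s := r) (t := r) (q := q) hr (hrs.trans hx) hr (hrs.trans hy) hM.le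
  rw [sub_self, cosh_zero] at h2
  have s1 : 0 < sinh s := sinh_pos_iff.2 hs
  have s2 : sinh s ≤ sinh (dist o x) := sinh_le_sinh.2 hx
  have s3 : sinh s ≤ sinh (dist o y) := sinh_le_sinh.2 hy
  have s4 : 0 ≤ sinh r := sinh_nonneg_iff.2 hr
  have h1 : sinh s ^ 2 * q ≤ cosh δ - 1 := by
    have h3 : 1 ≤ cosh (dist o x - dist o y) := one_le_cosh _
    have h4 : sinh s ^ 2 ≤ sinh (dist o x) * sinh (dist o y) := by
      rw [sq]
      exact mul_le_mul s2 s3 s1.le (s1.le.trans s2)
    have h5 := mul_le_mul_of_nonneg_right h4 hq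
    have h6 : cosh (dist x y) ≤ cosh δ := by
      rw [Real.cosh_le_cosh, abs_of_nonneg dist_nonneg, abs_of_nonneg hδ]
      exact hd
    linarith
  have h5 : cosh δ = 1 + 2 * sinh (δ / 2) ^ 2 := by
    have h6 := cosh_two_mul (δ / 2)
    have h7 := cosh_sq (δ / 2)
    have h8 : 2 * (δ / 2) = δ := by ring
    rw [h8] at h6
    rw [h6]
    linarith
  set z : ℝ := sinh (δ / 2) * exp (r - s) with hz
  have z0 : 0 ≤ z := mul_nonneg (sinh_nonneg_iff.2 (by linarith)) (exp_pos _).le
  have h9 : sinh r * sinh r * q ≤ 2 * z ^ 2 := by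
    have h10 : sinh r ≤ exp (r - s) * sinh s := by
      rw [← div_le_iff₀ s1]
      exact Bld.sinh_div_le hrs hs
    have h11 : sinh r ^ 2 ≤ exp (r - s) ^ 2 * sinh s ^ 2 := by
      rw [← mul_pow]
      exact pow_le_pow_left₀ s4 h10 2
    have h12 : sinh r * sinh r * q ≤ exp (r - s) ^ 2 * (sinh s ^ 2 * q) := by
      have := mul_le_mul_of_nonneg_right h11 hq
      nlinarith
    have h13 : exp (r - s) ^ 2 * (sinh s ^ 2 * q) ≤
        exp (r - s) ^ 2 * (2 * sinh (δ / 2) ^ 2) := by
      apply mul_le_mul_of_nonneg_left _ (by positivity)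
      linarith
    rw [hz]
    nlinarith
  have h14 : 2 * sinh (δ / 2) * exp (r - s) = 2 * z := by rw [hz]; ring
  rw [h14]
  refine le_of_cosh_le dist_nonneg (by linarith) (h2.trans ?_)
  exact (by linarith : 1 + sinh r * sinh r * q ≤ 1 + 2 * z ^ 2).trans (Bld.one_add_sq_le_cosh z)

/-- **far sets are small in `XHat`** -/
theorem size (hX : RadSp X o p) {s δ : ℝ} {x y : X} (hs : 0 ≤ s)
    (hx : s ≤ dist o x) (hy : s ≤ dist o y) (hd : dist x y ≤ δ) :
    dist (hX.ι x) (hX.ι y) ≤ 2 * sinh (δ / 2) * exp (-s) := by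
  have hδ : 0 ≤ δ := dist_nonneg.trans hd
  have hδ' : δ ≤ 2 * sinh (δ / 2) := by
    have := self_le_sinh_iff.2 (show 0 ≤ δ / 2 by linarith)
    linarith
  refine XHat.dist_le fun r => ?_
  rw [hX.ι_coord, hX.ι_coord]
  have hr : (0 : ℝ) ≤ r := Nat.cast_nonneg r
  rcases le_or_gt (r : ℝ) s with hrs | hrs
  · rcases hs.eq_or_lt with h0 | h0
    · have hr0 : (r : ℝ) = 0 := le_antisymm (by rw [h0]; exact hrs) hr
      rw [hr0, hX.zero, hX.zero, dist_self, mul_zero]
      positivity
    · have h1 := mul_le_mul_of_nonneg_left (h.visual hr hrs h0 hx hy hd) (exp_pos (-(r : ℝ))).le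
      refine h1.trans (le_of_eq ?_)
      have h2 : exp (-s) = exp (-(r : ℝ)) * exp (r - s) := by rw [← exp_add]; congr 1; ring
      rw [h2]
      ring
  · have h1 : dist (p r x) (p r y) ≤ 2 * sinh (δ / 2) := ((h.lip hr x y).trans hd).trans hδ'
    have h2 : exp (-(r : ℝ)) ≤ exp (-s) := exp_le_exp.2 (by linarith)
    have h3 : 0 ≤ dist (p r x) (p r y) := dist_nonneg
    rw [mul_comm (2 * sinh (δ / 2))]
    exact mul_le_mul h2 h1 h3 (exp_pos _).le

end HCat

end BD
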