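import Pool.Agent.Work.MP_de2d29_al.JChain

/-!
# The realization of a building as a metric space

* `X hP Δ`: the realization `Space e Δ` as a metric space, `X.mk hP Δ c x`.
* `X.dist_mk`: `dist (mk c x) (mk c' y) = hdist x (rep (δ c c') y)`.
* `X.mk_eq_iff`: the equality of points.
* `X.ret c`: the retraction onto hyperbolic space centred at the chamber `c`.
-/

set_option autoImplicit false
set_option maxHeartbeats 200000

open Set
open scoped NNReal ENNReal

namespace BD

variable {d : ℕ} {ι : Type} {M : CoxeterMatrix ι} {C : Type} {e : ι → Mink d}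

/-- The realization of the building `Δ` with chamber `poly e`, as a metric space; the underlying
space is `Space e Δ`. -/
def X (_hP : CoxPoly M e) (Δ : Building M C) : Type := Space e Δ

/-- the point `x` of the chamber `c` -/
noncomputable def X.mk (hP : CoxPoly M e) (Δ : Building M C) (c : C) (x : poly e) : X hP Δ :=
  SeparationQuotient.mk ((c, x) : Pts e Δ)

variable (hP : CoxPoly M e) (Δ : Building M C)

theorem X.exists_mk (p : X hP Δ) : ∃ c x, X.mk hP Δ c x = p := by
  obtain ⟨q, hq⟩ := SeparationQuotient.surjective_mk (X := Pts e Δ) p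
  exact ⟨q.1, q.2, hq⟩

section metric

variable [Finite ι]

theorem edist_space_mk (c c' : C) (x y : poly e) :
    edist (SeparationQuotient.mk ((c, x) : Pts e Δ) : Space e Δ)
      (SeparationQuotient.mk ((c', y) : Pts e Δ)) =
      ENNReal.ofReal (hdist (x : Mink d) (hP.rep (Δ.δ c c') y)) := by
  rw [SeparationQuotient.edist_mk]
  exact ldist_eq hP c c' x y

include hP in
theorem edist_space_ne_top (p q : Space e Δ) : edist p q ≠ ⊤ := by
  obtain ⟨⟨c, x⟩, rfl⟩ := SeparationQuotient.surjective_mk p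
  obtain ⟨⟨c', y⟩, rfl⟩ := SeparationQuotient.surjective_mk q
  rw [edist_space_mk hP Δ c c' x y]
  exact ENNReal.ofReal_ne_top

noncomputable instance X.instMetric : MetricSpace (X hP Δ) :=
  @EMetricSpace.toMetricSpace (Space e Δ) _ (edist_space_ne_top hP Δ)

theorem X.edist_mk (c c' : C) (x y : poly e) :
    edist (X.mk hP Δ c x) (X.mk hP Δ c' y) =
      ENNReal.ofReal (hdist (x : Mink d) (hP.rep (Δ.δ c c') y)) :=
  edist_space_mk hP Δ c c' x y

theorem X.dist_mk (c c' : C) (x y : poly e) :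
    dist (X.mk hP Δ c x) (X.mk hP Δ c' y) = hdist (x : Mink d) (hP.rep (Δ.δ c c') y) := by
  rw [dist_edist, X.edist_mk,
    ENNReal.toReal_ofReal (hdist_nonneg x.2.1 (hP.rep_mem_Hyp _ y.2.1))]

theorem X.dist_mk_self (c : C) (x y : poly e) :
    dist (X.mk hP Δ c x) (X.mk hP Δ c y) = hdist (x : Mink d) y := by
  rw [X.dist_mk, (Δ.eq_one c c).2 rfl, hP.rep_one]

/-- equality of points -/
theorem X.mk_eq_iff (c c' : C) (x y : poly e) : X.mk hP Δ c x = X.mk hP Δ c' y ↔
    (x : Mink d) = y ∧ Δ.δ c c' ∈ parab M (wallsOf e (x : Mink d)) := by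
  rw [← dist_eq_zero, X.dist_mk]
  constructor
  · intro h
    have h1 := eq_of_hdist x.2.1 (hP.rep_mem_Hyp _ y.2.1) h
    have h2 := (hP.rep_eq_iff x.2 y.2 1 (Δ.δ c c')).1 (by rw [hP.rep_one]; exact h1)
    rwa [inv_one, one_mul] at h2
  · rintro ⟨h1, h2⟩
    have h3 : (x : Mink d) = hP.rep (Δ.δ c c') y := by
      have := (hP.rep_eq_iff x.2 y.2 1 (Δ.δ c c')).2 ⟨h1, by rwa [inv_one, one_mul]⟩
      rwa [hP.rep_one] at this
    rw [← h3]
    exact hdist_self x.2.1

/-! ## Retractions -/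

theorem rho_eq_of_ldist (c : C) {p q : C × poly e} (h : ldist e Δ p q = 0) :
    rho hP Δ c p = rho hP Δ c q := by
  have h5 : ENNReal.ofReal (hdist (rho hP Δ c p) (rho hP Δ c q)) ≤ ldist e Δ p q :=
    le_iInf₂ fun L hL => ENNReal.ofReal_le_ofReal (chain_lower hP c hL)
  rw [h] at h5
  have h6 := ENNReal.ofReal_eq_zero.1 (le_antisymm h5 bot_le)
  exact eq_of_hdist (rho_mem hP c _) (rho_mem hP c _)
    (le_antisymm h6 (hdist_nonneg (rho_mem hP c _) (rho_mem hP c _)))

/-- the retraction onto hyperbolic space centred at the chamber `c` -/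
noncomputable def X.ret (c : C) (p : X hP Δ) : Mink d :=
  SeparationQuotient.lift (X := Pts e Δ) (fun q : Pts e Δ => rho hP Δ c q)
    (fun _ _ h => rho_eq_of_ldist hP Δ c (EMetric.inseparable_iff.1 h)) p

theorem X.ret_mk (c c' : C) (y : poly e) :
    X.ret hP Δ c (X.mk hP Δ c' y) = hP.rep (Δ.δ c c') y := rfl

theorem X.ret_mem (c : C) (p : X hP Δ) : X.ret hP Δ c p ∈ Hyp d := by
  obtain ⟨c', y, rfl⟩ := X.exists_mk hP Δ p
  rw [X.ret_mk]
  exact hP.rep_mem_Hyp _ y.2.1

theorem X.ret_self (c : C) (x : poly e) : X.ret hP Δ c (X.mk hP Δ c x) = x := by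
  rw [X.ret_mk, (Δ.eq_one c c).2 rfl, hP.rep_one]

theorem X.hdist_ret_mk_le (c c₁ c₂ : C) (x y : poly e) :
    hdist (hP.rep (Δ.δ c c₁) (x : Mink d)) (hP.rep (Δ.δ c c₂) (y : Mink d)) ≤
      hdist (x : Mink d) (hP.rep (Δ.δ c₁ c₂) y) := by
  have h : Chain e Δ (c₁, x) (c₂, y) (hdist (x : Mink d) (hP.rep (Δ.δ c₁ c₂) y)) :=
    exists_chain hP _ c₁ c₂ x y rfl
  have h2 := chain_lower hP c h
  unfold rho at h2
  exact h2

/-- the retraction is `1`-Lipschitz -/
theorem X.hdist_ret_le (c : C) (p q : X hP Δ) :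
    hdist (X.ret hP Δ c p) (X.ret hP Δ c q) ≤ dist p q := by
  obtain ⟨c₁, x, hp⟩ := X.exists_mk hP Δ p
  obtain ⟨c₂, y, hq⟩ := X.exists_mk hP Δ q
  rw [← hp, ← hq, X.ret_mk, X.ret_mk, X.dist_mk]
  exact X.hdist_ret_mk_le hP Δ c c₁ c₂ x y

/-- the retraction preserves the distance to the points of the central chamber -/
theorem X.dist_eq_ret (c : C) (x : poly e) (q : X hP Δ) :
    dist (X.mk hP Δ c x) q = hdist (x : Mink d) (X.ret hP Δ c q) := by
  obtain ⟨c₂, y, rfl⟩ := X.exists_mk hP Δ q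
  rw [X.ret_mk, X.dist_mk]

end metric

end BD
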