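import Pool.Agent.Work.MP_de2d29_al.APushC
import Pool.Agent.Work.MP_017613_gt.Kit.Slide

/-!
# BUILDING: the compactification by generalised rays

`RadSp X o p`: a metric space with base point and radial maps `p t` (`p t x` is the point of the
geodesic from `o` to `x` at distance `min t (dist o x)` from `o`).
`XHat o p`: generalised rays from `o`, given by their values at integer times;
`HBdry o p`: the rays. `XHat` is a compact metric space, `X` is embedded by `ι`, `HBdry` is the
complement of the image; `XHat` is contracted to `ι o` by `Hh`; `HBdry` is homeomorphic to the space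
of isometric rays from `o` with the compact-open topology.
-/

set_option autoImplicit false
set_option linter.unusedSectionVars false

open Set Metric Topology Filter
open scoped NNReal

namespace BD

/-- a metric space with radial maps -/
structure RadSp (X : Type) [MetricSpace X] (o : X) (p : ℝ → X → X) : Prop where
  nrm : ∀ t, 0 ≤ t → ∀ x, dist o (p t x) = min t (dist o x)
  fix : ∀ t x, dist o x ≤ t → p t x = x
  comp : ∀ s t x, 0 ≤ s → s ≤ t → p s (p t x) = p s x
  lip : ∀ t x y, 0 ≤ t → dist (p t x) (p t y) ≤ dist x y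
  move : ∀ s t x, 0 ≤ s → s ≤ t → dist (p s x) (p t x) ≤ t - s
  uniq : ∀ x y, dist o y + dist y x = dist o x → y = p (dist o y) x
  cpt : ∀ r, IsCompact (closedBall o r)

namespace RadSp

variable {X : Type} [MetricSpace X] {o : X} {p : ℝ → X → X} (h : RadSp X o p)
include h

theorem zero (x : X) : p 0 x = o := by
  have h1 := h.nrm 0 le_rfl x
  rw [min_eq_left dist_nonneg] at h1
  exact (dist_eq_zero.1 h1).symm

theorem comp' {s t : ℝ} (hs : 0 ≤ s) (ht : 0 ≤ t) (x : X) : p s (p t x) = p (min s t) x := by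
  rcases le_total s t with hst | hst
  · rw [min_eq_left hst, h.comp s t x hs hst]
  · rw [min_eq_right hst]
    exact h.fix s _ (by rw [h.nrm t ht]; exact (min_le_left _ _).trans hst)

theorem move' {s t : ℝ} (hs : 0 ≤ s) (ht : 0 ≤ t) (x : X) : dist (p s x) (p t x) ≤ |s - t| := by
  rcases le_total s t with hst | hst
  · rw [abs_sub_comm, abs_of_nonneg (by linarith)]
    exact h.move s t x hs hst
  · rw [abs_of_nonneg (by linarith), dist_comm]
    exact h.move t s x ht hst

theorem joint {s t : ℝ} (hs : 0 ≤ s) (ht : 0 ≤ t) (x y : X) :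
    dist (p s x) (p t y) ≤ dist x y + |s - t| :=
  (dist_triangle _ (p s y) _).trans (add_le_add (h.lip s x y hs) (h.move' hs ht y))

theorem continuous (t : ℝ) (ht : 0 ≤ t) : Continuous (p t) :=
  (LipschitzWith.of_dist_le_mul (K := 1) fun x y => by simpa using h.lip t x y ht).continuous

theorem continuous_joint {T : Type*} [TopologicalSpace T] {f : T → ℝ} {g : T → X}
    (hf : Continuous f) (hf0 : ∀ a, 0 ≤ f a) (hg : Continuous g) :
    Continuous fun a => p (f a) (g a) := by
  rw [continuous_iff_continuousAt]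
  intro a
  rw [ContinuousAt, tendsto_iff_dist_tendsto_zero]
  refine squeeze_zero (fun _ => dist_nonneg) (fun b => h.joint (hf0 b) (hf0 a) (g b) (g a)) ?_
  have h1 : Tendsto (fun b => dist (g b) (g a)) (𝓝 a) (𝓝 0) := by
    have := (hg.tendsto a).dist (tendsto_const_nhds (x := g a))
    simpa using this
  have h2 : Tendsto (fun b => |f b - f a|) (𝓝 a) (𝓝 0) := by
    have := ((hf.tendsto a).sub (tendsto_const_nhds (x := f a))).abs
    simpa using this
  simpa using h1.add h2

end RadSp

section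

variable {X : Type} [MetricSpace X]

/-- generalised rays from `o`, by their values at integer times -/
def XHat (o : X) (p : ℝ → X → X) : Type :=
  {x : ℕ → X // ∀ r : ℕ, dist o (x r) ≤ r ∧ p r (x (r + 1)) = x r}

end

section

variable {X : Type} [MetricSpace X] {o : X} {p : ℝ → X → X}

namespace XHat

theorem term_le (x y : XHat o p) (r : ℕ) : Real.exp (-r) * dist (x.1 r) (y.1 r) ≤
    Real.exp (-r) * (2 * r) := by
  refine mul_le_mul_of_nonneg_left ?_ (Real.exp_pos _).le
  have h1 := (x.2 r).1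
  have h2 := (y.2 r).1
  rw [dist_comm] at h1
  have := dist_triangle (x.1 r) o (y.1 r)
  linarith

theorem bdd (x y : XHat o p) :
    BddAbove (range fun r : ℕ => Real.exp (-r) * dist (x.1 r) (y.1 r)) := by
  refine ⟨2, ?_⟩
  rintro _ ⟨r, rfl⟩
  refine (term_le x y r).trans ?_
  have h1 : (r : ℝ) ≤ Real.exp r := by
    have := Real.add_one_le_exp (r : ℝ)
    linarith
  have h2 : Real.exp (-r) * Real.exp r = 1 := by rw [← Real.exp_add]; simp
  have h3 := mul_le_mul_of_nonneg_left h1 (Real.exp_pos (-(r : ℝ))).le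
  linarith

noncomputable instance : MetricSpace (XHat o p) where
  dist x y := ⨆ r : ℕ, Real.exp (-r) * dist (x.1 r) (y.1 r)
  dist_self x := by simp
  dist_comm x y := by simp only [dist_comm]
  dist_triangle x y z := by
    refine ciSup_le fun r => ?_
    have h1 := le_ciSup (bdd x y) r
    have h2 := le_ciSup (bdd y z) r
    have h3 := mul_le_mul_of_nonneg_left (dist_triangle (x.1 r) (y.1 r) (z.1 r))
      (Real.exp_pos (-(r : ℝ))).le
    rw [mul_add] at h3
    exact h3.trans (add_le_add h1 h2)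
  eq_of_dist_eq_zero {x y} hxy := by
    refine Subtype.ext (funext fun r => ?_)
    have h1 := le_ciSup (bdd x y) r
    have h2 : Real.exp (-r) * dist (x.1 r) (y.1 r) ≤ 0 := by rw [← hxy]; exact h1
    have h3 := Real.exp_pos (-(r : ℝ))
    have h4 : dist (x.1 r) (y.1 r) ≤ 0 := by
      by_contra hc
      push Not at hc
      have := mul_pos h3 hc
      linarith
    exact dist_le_zero.1 h4

theorem dist_def (x y : XHat o p) :
    dist x y = ⨆ r : ℕ, Real.exp (-r) * dist (x.1 r) (y.1 r) := rfl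

theorem le_dist (x y : XHat o p) (r : ℕ) :
    Real.exp (-r) * dist (x.1 r) (y.1 r) ≤ dist x y := le_ciSup (bdd x y) r

theorem coord_le (x y : XHat o p) (r : ℕ) : dist (x.1 r) (y.1 r) ≤ Real.exp r * dist x y := by
  have h1 := mul_le_mul_of_nonneg_left (le_dist x y r) (Real.exp_pos (r : ℝ)).le
  rwa [← mul_assoc, ← Real.exp_add, add_neg_cancel, Real.exp_zero, one_mul] at h1

theorem dist_le {x y : XHat o p} {c : ℝ}
    (hc : ∀ r : ℕ, Real.exp (-r) * dist (x.1 r) (y.1 r) ≤ c) : dist x y ≤ c := ciSup_le hc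

theorem continuous_coord (r : ℕ) : Continuous fun x : XHat o p => x.1 r :=
  (LipschitzWith.of_dist_le_mul (K := ⟨Real.exp r, (Real.exp_pos _).le⟩)
    fun x y => coord_le x y r).continuous

/-- convergence is coordinatewise -/
theorem tendsto_iff {T : Type*} {l : Filter T} {f : T → XHat o p} {x : XHat o p} :
    Tendsto f l (𝓝 x) ↔ ∀ r, Tendsto (fun a => (f a).1 r) l (𝓝 (x.1 r)) := by
  constructor
  · exact fun hf r => ((continuous_coord r).tendsto x).comp hf
  · intro hf
    rw [Metric.tendsto_nhds]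
    intro ε hε
    have ht : Tendsto (fun r : ℕ => Real.exp (-r) * (2 * r)) atTop (𝓝 0) := by
      have h1 := (Real.tendsto_pow_mul_exp_neg_atTop_nhds_zero 1).comp
        (tendsto_natCast_atTop_atTop (R := ℝ))
      have h2 := h1.const_mul 2
      rw [mul_zero] at h2
      refine h2.congr fun r => ?_
      simp only [Function.comp, pow_one]
      ring
    obtain ⟨R, hR⟩ := eventually_atTop.1 (ht.eventually (gt_mem_nhds (half_pos hε)))
    have hfin : ∀ᶠ a in l, ∀ r ∈ Finset.range R, dist ((f a).1 r) (x.1 r) < ε / 2 := by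
      rw [Filter.eventually_all_finset]
      exact fun r _ => (Metric.tendsto_nhds.1 (hf r)) _ (half_pos hε)
    filter_upwards [hfin] with a ha
    refine (dist_le (c := ε / 2) fun r => ?_).trans_lt (by linarith)
    rcases lt_or_ge r R with hr | hr
    · have h1 := ha r (Finset.mem_range.2 hr)
      have h2 : Real.exp (-r) ≤ 1 := Real.exp_le_one_iff.2 (by
        have : (0 : ℝ) ≤ r := Nat.cast_nonneg r
        linarith)
      have h3 : 0 ≤ dist ((f a).1 r) (x.1 r) := dist_nonneg
      nlinarith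
    · exact (term_le _ _ r).trans (hR r hr).le

theorem continuous_iff {T : Type*} [TopologicalSpace T] {f : T → XHat o p} :
    Continuous f ↔ ∀ r, Continuous fun a => (f a).1 r := by
  simp only [continuous_iff_continuousAt, ContinuousAt, tendsto_iff]
  exact forall_comm

end XHat

/-- the rays -/
def HBdry (o : X) (p : ℝ → X → X) : Set (XHat o p) := {x | ∀ r : ℕ, dist o (x.1 r) = r}

theorem isClosed_HBdry : IsClosed (HBdry o p) := by
  have : HBdry o p = ⋂ r : ℕ, {x : XHat o p | dist o (x.1 r) = r} := by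
    ext x
    simp only [HBdry, mem_ofPred_eq, mem_iInter]
  rw [this]
  exact isClosed_iInter fun r => isClosed_eq (continuous_const.dist (XHat.continuous_coord r))
    continuous_const

end

namespace RadSp

variable {X : Type} [MetricSpace X] {o : X} {p : ℝ → X → X} (h : RadSp X o p)

section

/-- the embedding of `X` -/
def ι (h : RadSp X o p) (x : X) : XHat o p :=
  ⟨fun r => p r x, fun r => ⟨by rw [h.nrm r (Nat.cast_nonneg r)]; exact min_le_left _ _,
    h.comp _ _ x (Nat.cast_nonneg r) (by push_cast; linarith)⟩⟩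

theorem ι_coord (x : X) (r : ℕ) : (h.ι x).1 r = p r x := rfl

include h

theorem coord_min {r s : ℕ} (hrs : r ≤ s) (x : XHat o p) : p r (x.1 s) = x.1 r := by
  induction s, hrs using Nat.le_induction with
  | base => exact h.fix _ _ (x.2 r).1
  | succ s hs ih =>
    rw [← ih, ← (x.2 s).2, h.comp _ _ _ (Nat.cast_nonneg r) (by exact_mod_cast hs)]

theorem coord_min' {t : ℝ} (ht : 0 ≤ t) {r s : ℕ} (hr : t ≤ r) (hs : t ≤ s) (x : XHat o p) :
    p t (x.1 r) = p t (x.1 s) := by
  rcases le_total r s with hrs | hrs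
  · rw [← h.coord_min hrs x, h.comp _ _ _ ht hr]
  · rw [← h.coord_min hrs x, h.comp _ _ _ ht hs]

/-- a point of `XHat` with `dist o (x r) < r` comes from `X` -/
theorem eq_ι {x : XHat o p} {r : ℕ} (hr : dist o (x.1 r) < r) : x = h.ι (x.1 r) := by
  have hs : ∀ s, r ≤ s → x.1 s = x.1 r := by
    intro s hs
    have h1 := h.coord_min hs x
    have h2 := h.nrm r (Nat.cast_nonneg r) (x.1 s)
    rw [h1] at h2
    have h3 : dist o (x.1 s) ≤ r := by
      by_contra hc
      push Not at hc
      rw [min_eq_left hc.le] at h2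
      linarith
    rw [← h1, h.fix _ _ h3]
  refine Subtype.ext (funext fun q => ?_)
  rw [h.ι_coord]
  rcases le_total q r with hq | hq
  · exact (h.coord_min hq x).symm
  · rw [hs q hq, h.fix _ _ ((x.2 r).1.trans (by exact_mod_cast hq))]

theorem ι_not_mem (x : X) : h.ι x ∉ HBdry o p := by
  intro hx
  obtain ⟨r, hr⟩ := exists_nat_gt (dist o x)
  have h1 : dist o (p r x) = r := hx r
  rw [h.nrm r (Nat.cast_nonneg r), min_eq_right hr.le] at h1
  linarith

theorem not_mem_HBdry {x : XHat o p} : x ∉ HBdry o p ↔ x ∈ range h.ι := by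
  constructor
  · intro hx
    simp only [HBdry, mem_ofPred_eq, not_forall] at hx
    obtain ⟨r, hr⟩ := hx
    exact ⟨x.1 r, (h.eq_ι (lt_of_le_of_ne (x.2 r).1 hr)).symm⟩
  · rintro ⟨y, rfl⟩
    exact h.ι_not_mem y

theorem ι_injective : Function.Injective h.ι := by
  intro x y hxy
  obtain ⟨r, hr⟩ := exists_nat_gt (max (dist o x) (dist o y))
  have h1 := congrArg (fun z : XHat o p => z.1 r) hxy
  simp only [h.ι_coord] at h1
  rwa [h.fix _ _ ((le_max_left _ _).trans hr.le), h.fix _ _ ((le_max_right _ _).trans hr.le)] at h1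

theorem continuous_ι : Continuous h.ι :=
  XHat.continuous_iff.2 fun r => h.continuous r (Nat.cast_nonneg r)

/-- distance estimate in `XHat` from estimates of the radial projections -/
theorem dist_ι_le {x y : X} {c : ℝ}
    (hc : ∀ r : ℕ, dist (p r x) (p r y) ≤ Real.exp r * c) : dist (h.ι x) (h.ι y) ≤ c := by
  refine XHat.dist_le fun r => ?_
  rw [h.ι_coord, h.ι_coord]
  have h1 := mul_le_mul_of_nonneg_left (hc r) (Real.exp_pos (-(r : ℝ))).le
  rwa [← mul_assoc, ← Real.exp_add, neg_add_cancel, Real.exp_zero, one_mul] at h1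

/-- `XHat` is compact -/
theorem compactSpace : CompactSpace (XHat o p) := by
  let S : Set (ℕ → X) := {x | ∀ r : ℕ, dist o (x r) ≤ r ∧ p r (x (r + 1)) = x r}
  have hS : IsCompact S := by
    refine (isCompact_univ_pi fun r : ℕ => h.cpt r).of_isClosed_subset ?_ ?_
    · have : S = ⋂ r : ℕ, ({x : ℕ → X | dist o (x r) ≤ r} ∩ {x | p r (x (r + 1)) = x r}) := by
        ext x
        simp only [S, mem_ofPred_eq, mem_iInter, mem_inter_iff]
      rw [this]
      refine isClosed_iInter fun r => (isClosed_le ?_ continuous_const).inter (isClosed_eq ?_ ?_)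
      · exact continuous_const.dist (continuous_apply r)
      · exact (h.continuous r (Nat.cast_nonneg r)).comp (continuous_apply (r + 1))
      · exact continuous_apply r
    · intro x hx r _
      rw [mem_closedBall, dist_comm]
      exact (hx r).1
  have : CompactSpace S := isCompact_iff_compactSpace.1 hS
  let f : S → XHat o p := fun x => ⟨x.1, x.2⟩
  have hf : Continuous f :=
    XHat.continuous_iff.2 fun r => (continuous_apply r).comp continuous_subtype_val
  have hsurj : Function.Surjective f := fun x => ⟨⟨x.1, x.2⟩, rfl⟩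
  exact hsurj.compactSpace hf

theorem isOpenEmbedding_ι : IsOpenEmbedding h.ι := by
  refine ⟨⟨isInducing_iff_nhds.2 fun x => ?_, h.ι_injective⟩, ?_⟩
  · refine le_antisymm (h.continuous_ι.tendsto x).le_comap ?_
    rw [Metric.nhds_basis_ball.ge_iff]
    intro ε hε
    obtain ⟨r, hr⟩ := exists_nat_gt (dist o x + 1)
    have hxr : p r x = x := h.fix _ _ (by linarith)
    refine ⟨ball (h.ι x) (Real.exp (-r) * min 1 ε), ball_mem_nhds _ (by positivity), ?_⟩
    intro y hy
    have h1 := XHat.coord_le (h.ι y) (h.ι x) r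
    rw [h.ι_coord, h.ι_coord, hxr] at h1
    have h2 : Real.exp r * dist (h.ι y) (h.ι x) < min 1 ε := by
      have h3 := mul_lt_mul_of_pos_left (mem_ball.1 hy) (Real.exp_pos (r : ℝ))
      rwa [← mul_assoc, ← Real.exp_add, add_neg_cancel, Real.exp_zero, one_mul] at h3
    have h3 : dist (p r y) x < 1 := h1.trans_lt (h2.trans_le (min_le_left _ _))
    have h4 := h.nrm r (Nat.cast_nonneg r) y
    have h5 := dist_triangle o x (p r y)
    rw [dist_comm x] at h5
    have h6 : dist o y ≤ r := by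
      by_contra hc
      push Not at hc
      rw [min_eq_left hc.le] at h4
      linarith
    rw [h.fix _ _ h6] at h1
    exact mem_ball.2 (h1.trans_lt (h2.trans_le (min_le_right _ _)))
  · have : range h.ι = (HBdry o p)ᶜ := by
      ext x
      rw [mem_compl_iff, h.not_mem_HBdry]
    rw [this]
    exact isClosed_HBdry.isOpen_compl

/-! ## Radial projections of generalised rays -/

omit h in
/-- the point of a generalised ray at distance `t` -/
noncomputable def pr (o : X) (p : ℝ → X → X) (t : ℝ) (x : XHat o p) : X := p t (x.1 ⌈t⌉₊)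

theorem pr_eq {t : ℝ} (ht : 0 ≤ t) {r : ℕ} (hr : t ≤ r) (x : XHat o p) :
    pr o p t x = p t (x.1 r) := h.coord_min' ht (Nat.le_ceil t) hr x

theorem pr_nat (r : ℕ) (x : XHat o p) : pr o p r x = x.1 r := by
  rw [h.pr_eq (Nat.cast_nonneg r) le_rfl, h.fix _ _ (x.2 r).1]

theorem pr_ι {t : ℝ} (ht : 0 ≤ t) (x : X) : pr o p t (h.ι x) = p t x :=
  h.comp _ _ _ ht (Nat.le_ceil t)

theorem continuous_pr {t : ℝ} (ht : 0 ≤ t) : Continuous (pr o p t) :=
  (h.continuous t ht).comp (XHat.continuous_coord _)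

theorem norm_pr {t : ℝ} (ht : 0 ≤ t) (x : XHat o p) : dist o (pr o p t x) ≤ t := by
  rw [pr, h.nrm t ht]
  exact min_le_left _ _

theorem norm_pr_bdry {t : ℝ} (ht : 0 ≤ t) {x : XHat o p} (hx : x ∈ HBdry o p) :
    dist o (pr o p t x) = t := by
  rw [pr, h.nrm t ht, hx, min_eq_left (Nat.le_ceil t)]

theorem pr_pr {s t : ℝ} (hs : 0 ≤ s) (hst : s ≤ t) (x : XHat o p) :
    p s (pr o p t x) = pr o p s x := by
  rw [h.pr_eq hs (hst.trans (Nat.le_ceil t)), pr, h.comp _ _ _ hs hst]

theorem dist_pr {s t : ℝ} (hs : 0 ≤ s) (ht : 0 ≤ t) (x : XHat o p) :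
    dist (pr o p s x) (pr o p t x) ≤ |s - t| := by
  obtain ⟨r, hr⟩ := exists_nat_ge (max s t)
  rw [h.pr_eq hs ((le_max_left _ _).trans hr), h.pr_eq ht ((le_max_right _ _).trans hr)]
  exact h.move' hs ht _

theorem lip_pr {t : ℝ} (ht : 0 ≤ t) (x y : XHat o p) :
    dist (pr o p t x) (pr o p t y) ≤ Real.exp (t + 1) * dist x y := by
  refine (h.lip t _ _ ht).trans ((XHat.coord_le x y _).trans ?_)
  refine mul_le_mul_of_nonneg_right (Real.exp_le_exp.2 (Nat.ceil_lt_add_one ht).le) dist_nonneg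

/-! ## The contraction -/

omit h in
/-- `min r (-log (1 - u))` -/
noncomputable def mm (r : ℕ) (u : ℝ) : ℝ := -Real.log (max (1 - max 0 u) (Real.exp (-r)))

omit h in
theorem mm_pos (r : ℕ) (u : ℝ) : 0 < max (1 - max 0 u) (Real.exp (-(r : ℝ))) :=
  lt_max_of_lt_right (Real.exp_pos _)

omit h in
theorem mm_nonneg (r : ℕ) (u : ℝ) : 0 ≤ mm r u := by
  have h1 : max (1 - max 0 u) (Real.exp (-(r : ℝ))) ≤ 1 := by
    refine max_le (by linarith [le_max_left 0 u]) (Real.exp_le_one_iff.2 ?_)
    have : (0 : ℝ) ≤ r := Nat.cast_nonneg r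
    linarith
  have := Real.log_nonpos (mm_pos r u).le h1
  rw [mm]
  linarith

omit h in
theorem mm_le (r : ℕ) (u : ℝ) : mm r u ≤ r := by
  have h1 := Real.log_le_log (Real.exp_pos _) (le_max_right (1 - max 0 u) (Real.exp (-(r : ℝ))))
  rw [Real.log_exp] at h1
  rw [mm]
  linarith

omit h in
theorem continuous_mm (r : ℕ) : Continuous (mm r) := by
  unfold mm
  refine (Continuous.log ?_ fun u => (mm_pos r u).ne').neg
  fun_prop

omit h in
theorem mm_min {r s : ℕ} (hrs : r ≤ s) (u : ℝ) : mm r u = min (r : ℝ) (mm s u) := by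
  have h1 : Real.exp (-(s : ℝ)) ≤ Real.exp (-(r : ℝ)) := Real.exp_le_exp.2 (by
    have : (r : ℝ) ≤ s := by exact_mod_cast hrs
    linarith)
  have h2 : max (1 - max 0 u) (Real.exp (-(r : ℝ))) =
      max (Real.exp (-(r : ℝ))) (max (1 - max 0 u) (Real.exp (-(s : ℝ)))) := by
    rw [max_comm (Real.exp (-(r : ℝ))), max_assoc, max_eq_right h1]
  have key : ∀ a L : ℝ, -max (-a) L = min a (-L) := fun a L => by
    have := max_neg_neg a (-L)
    rw [neg_neg] at this
    rw [this, neg_neg]
  rw [mm, h2, Real.strictMonoOn_log.monotoneOn.map_max (Real.exp_pos _) (mm_pos s u), Real.log_exp,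
    mm, key]

omit h in
theorem mm_zero (r : ℕ) : mm r 0 = 0 := by
  have h1 : Real.exp (-(r : ℝ)) ≤ 1 := Real.exp_le_one_iff.2 (by
    have : (0 : ℝ) ≤ r := Nat.cast_nonneg r
    linarith)
  rw [mm, max_self, sub_zero, max_eq_left h1, Real.log_one, neg_zero]

omit h in
theorem mm_one (r : ℕ) : mm r 1 = r := by
  rw [mm, max_eq_right zero_le_one, sub_self, max_eq_right (Real.exp_pos _).le, Real.log_exp,
    neg_neg]

/-- the contraction of `XHat` to `ι o` -/
noncomputable def Hh (h : RadSp X o p) (q : ℝ × XHat o p) : XHat o p :=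
  ⟨fun r => p (mm r q.1) (q.2.1 r), fun r => by
    refine ⟨?_, ?_⟩
    · rw [h.nrm _ (mm_nonneg r q.1)]
      exact (min_le_left _ _).trans (mm_le r q.1)
    · rw [h.comp' (Nat.cast_nonneg r) (mm_nonneg (r + 1) q.1), ← mm_min (Nat.le_succ r)]
      exact h.coord_min' (mm_nonneg r q.1) ((mm_le r q.1).trans (by push_cast; linarith))
        (mm_le r q.1) q.2⟩

theorem Hh_coord (q : ℝ × XHat o p) (r : ℕ) : (h.Hh q).1 r = p (mm r q.1) (q.2.1 r) := rfl

theorem continuous_Hh : Continuous h.Hh := by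
  rw [XHat.continuous_iff]
  intro r
  refine h.continuous_joint ((continuous_mm r).comp continuous_fst) (fun q => mm_nonneg r q.1) ?_
  exact (XHat.continuous_coord r).comp continuous_snd

theorem rad : Rad (univ : Set (XHat o p)) (h.ι o) h.Hh where
  cont := h.continuous_Hh.continuousOn
  maps := fun _ _ => mem_univ _
  zero := fun x _ => by
    refine Subtype.ext (funext fun r => ?_)
    rw [h.Hh_coord, h.ι_coord]
    show p (mm r 0) (x.1 r) = p r o
    rw [mm_zero, h.zero, h.fix _ _ (by rw [dist_self]; exact Nat.cast_nonneg r)]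
  one := fun x _ => by
    refine Subtype.ext (funext fun r => ?_)
    rw [h.Hh_coord]
    show p (mm r 1) (x.1 r) = x.1 r
    rw [mm_one, h.fix _ _ (x.2 r).1]

/-- the stages of the contraction -/
theorem Hh_stage {u : ℝ} (hu : 0 ≤ u) (hu1 : u < 1) (x : XHat o p) :
    h.Hh (u, x) = h.ι (pr o p (-Real.log (1 - u)) x) := by
  have hpos : 0 < 1 - u := by linarith
  have hτ : 0 ≤ -Real.log (1 - u) := by
    have := Real.log_nonpos hpos.le (by linarith)
    linarith
  refine Subtype.ext (funext fun r => ?_)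
  rw [h.Hh_coord, h.ι_coord]
  show p (mm r u) (x.1 r) = p r (pr o p (-Real.log (1 - u)) x)
  obtain ⟨s, hs⟩ := exists_nat_ge (max (r : ℝ) (-Real.log (1 - u)))
  have hrs : r ≤ s := by exact_mod_cast (le_max_left _ _).trans hs
  have hτs : -Real.log (1 - u) ≤ s := (le_max_right _ _).trans hs
  have hms : mm s u = -Real.log (1 - u) := by
    rw [mm, max_eq_right hu, max_eq_left]
    have := Real.exp_le_exp.2 (neg_le_neg hτs)
    rwa [neg_neg, Real.exp_log hpos] at this
  rw [h.pr_eq hτ hτs, h.comp' (Nat.cast_nonneg r) hτ, ← hms, ← mm_min hrs]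
  exact h.coord_min' (mm_nonneg r u) (mm_le r u) ((mm_le r u).trans (by exact_mod_cast hrs)) x

/-! ## Properties of `XHat` and of the boundary -/

theorem ulc_image {n : ℕ} {C : Set X} (cC : IsCompact C) (uC : MG.ULC n C) :
    MG.ULC n (h.ι '' C) := by
  obtain ⟨t, ht⟩ : ∃ t : ℕ, ∀ x ∈ C, dist o x ≤ t := by
    obtain ⟨R, hR⟩ := cC.isBounded.subset_closedBall o
    obtain ⟨t, ht⟩ := exists_nat_ge R
    exact ⟨t, fun x hx => by
      have := mem_closedBall.1 (hR hx)
      rw [dist_comm] at this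
      exact this.trans ht⟩
  have hs : ∀ x ∈ C, pr o p t (h.ι x) = x := fun x hx => by
    rw [h.pr_ι (Nat.cast_nonneg t), h.fix _ _ (ht x hx)]
  have cc := h.continuous_pr (t := (t : ℝ)) (Nat.cast_nonneg t)
  refine MG.ULC.of_retract (p := h.ι) (s := pr o p t) uC
    ⟨h.continuous_ι.continuousOn, fun x hx => ⟨x, hx, rfl⟩⟩ ⟨cc.continuousOn, ?_⟩ ?_
    (cC.uniformContinuousOn_of_continuous h.continuous_ι.continuousOn)
    ((cC.image h.continuous_ι).uniformContinuousOn_of_continuous cc.continuousOn)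
  · rintro _ ⟨x, hx, rfl⟩
    rw [hs x hx]
    exact hx
  · rintro _ ⟨x, hx, rfl⟩
    rw [hs x hx]

/-- `XHat` is `ULC n` if the balls of `X` are contained in compact `ULC n` sets -/
theorem ulc_univ {n : ℕ} (hb : ∀ t : ℝ, ∃ C : Set X, IsCompact C ∧ MG.ULC n C ∧
    closedBall o t ⊆ C) : MG.ULC n (univ : Set (XHat o p)) := by
  have := h.compactSpace
  refine h.rad.ulc isCompact_univ fun t ht0 ht1 => ?_
  obtain ⟨C, cC, uC, hC⟩ := hb (-Real.log (1 - t))
  refine ⟨h.ι '' C, h.ulc_image cC uC, subset_univ _, fun x _ => ?_⟩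
  rw [h.Hh_stage ht0 ht1]
  refine ⟨_, hC ?_, rfl⟩
  rw [mem_closedBall, dist_comm]
  refine h.norm_pr ?_ x
  have := Real.log_nonpos (show (0 : ℝ) ≤ 1 - t by linarith) (by linarith)
  linarith

/-- **The boundary is `ULC n`, `Conn n` and of dimension at most `n`.** -/
theorem bdry_props {n : ℕ} {K Q : ℕ → Set (XHat o p)} (hS : Sys n K Q) (h0 : K 0 = univ)
    (hL : Lim K = HBdry o p)
    (hb : ∀ t : ℝ, ∃ C : Set X, IsCompact C ∧ MG.ULC n C ∧ closedBall o t ⊆ C)
    (hd : ∀ t : ℝ, 0 ≤ t → Pool.Agent.Work.MP_017613_gt.PushOff n (sphere o t)) :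
    Pool.Agent.Work.MP_017613_gt.PushOff n (HBdry o p) ∧ MG.ULC n (HBdry o p) ∧
      MG.Conn n (HBdry o p) := by
  have hR : Rad (K 0) (h.ι o) h.Hh := by rw [h0]; exact h.rad
  have hu : MG.ULC n (K 0) := by rw [h0]; exact h.ulc_univ hb
  rw [← hL]
  refine ⟨hS.pushOff hR fun t ht0 ht1 => ?_, hS.ulc hu, hS.conn hR ⟨h.ι o, by rw [h0]; trivial⟩⟩
  have hτ : 0 ≤ -Real.log (1 - t) := by
    have := Real.log_nonpos (show (0 : ℝ) ≤ 1 - t by linarith) (by linarith)
    linarith
  have cs : IsCompact (sphere o (-Real.log (1 - t))) :=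
    (h.cpt (-Real.log (1 - t))).of_isClosed_subset isClosed_sphere sphere_subset_closedBall
  refine ⟨h.ι '' sphere o (-Real.log (1 - t)), (hd _ hτ).image cs
    h.continuous_ι.continuousOn h.ι_injective.injOn, fun y hy => ?_⟩
  rw [h.Hh_stage ht0 ht1]
  refine ⟨_, ?_, rfl⟩
  rw [mem_sphere, dist_comm]
  rw [hL] at hy
  exact h.norm_pr_bdry hτ hy

/-! ## Rays -/

omit h in
theorem ray_norm {γ : C(ℝ≥0, X)} (hγ : Isometry γ) (h0 : γ 0 = o) (u : ℝ≥0) :
    dist o (γ u) = u := by
  have h1 := hγ.dist_eq 0 u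
  rw [h0, NNReal.dist_eq, NNReal.coe_zero, zero_sub, abs_neg] at h1
  rw [h1]
  exact abs_of_nonneg u.2

theorem ray_coord {γ : C(ℝ≥0, X)} (hγ : Isometry γ) (h0 : γ 0 = o) {s t : ℝ≥0} (hst : s ≤ t) :
    p s (γ t) = γ s := by
  have h1 := ray_norm hγ h0
  have h2 : dist (γ s) (γ t) = t - s := by
    rw [hγ.dist_eq, NNReal.dist_eq, abs_sub_comm, abs_of_nonneg]
    have : (s : ℝ) ≤ t := hst
    linarith
  have h3 := h.uniq (γ t) (γ s) (by rw [h1, h1, h2]; ring)
  rw [h1] at h3
  exact h3.symm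

/-- from isometric rays to sequences -/
noncomputable def ofRay (γ : {γ : C(ℝ≥0, X) // Isometry γ ∧ γ 0 = o}) : HBdry o p := by
  refine ⟨⟨fun r => γ.1 r, fun r => ⟨le_of_eq ?_, ?_⟩⟩, fun r => ?_⟩
  · exact ray_norm γ.2.1 γ.2.2 r
  · have h1 := h.ray_coord γ.2.1 γ.2.2 (s := (r : ℝ≥0)) (t := (r : ℝ≥0) + 1) (by simp)
    push_cast
    exact_mod_cast h1
  · exact ray_norm γ.2.1 γ.2.2 r

/-- from sequences to rays -/
noncomputable def toRayFun (x : HBdry o p) (t : ℝ≥0) : X := pr o p t x.1

theorem toRay_isometry (x : HBdry o p) : Isometry (toRayFun x) := by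
  refine Isometry.of_dist_eq fun s t => ?_
  have key : ∀ s t : ℝ≥0, s ≤ t → dist (toRayFun x s) (toRayFun x t) = (t : ℝ) - s := by
    intro s t hst
    have hst' : (s : ℝ) ≤ t := hst
    refine le_antisymm ?_ ?_
    · have h0 : (0 : ℝ) ≤ (t : ℝ) - s := sub_nonneg.2 hst'
      have h1 := h.dist_pr (s := (s : ℝ)) (t := (t : ℝ)) s.2 t.2 x.1
      rw [abs_sub_comm] at h1
      exact h1.trans_eq (abs_of_nonneg h0)
    · have h1 := h.norm_pr_bdry s.2 x.2
      have h2 := h.norm_pr_bdry t.2 x.2
      have h3 := dist_triangle o (toRayFun x s) (toRayFun x t)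
      have h4 : dist o (toRayFun x s) = s := h1
      have h5 : dist o (toRayFun x t) = t := h2
      linarith
  rcases le_total s t with hst | hst
  · rw [key s t hst, NNReal.dist_eq, abs_sub_comm, abs_of_nonneg]
    have : (s : ℝ) ≤ t := hst
    linarith
  · rw [dist_comm, key t s hst, NNReal.dist_eq, abs_of_nonneg]
    have : (t : ℝ) ≤ s := hst
    linarith

theorem continuous_uncurry_pr : Continuous fun q : XHat o p × ℝ≥0 => pr o p q.2 q.1 := by
  rw [continuous_iff_continuousAt]
  rintro ⟨x, t⟩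
  obtain ⟨N, hN⟩ := exists_nat_gt (t : ℝ)
  have h1 : (fun q : XHat o p × ℝ≥0 => pr o p q.2 q.1) =ᶠ[𝓝 (x, t)]
      fun q => p (q.2 : ℝ) (q.1.1 N) := by
    have hU : {q : XHat o p × ℝ≥0 | (q.2 : ℝ) < N} ∈ 𝓝 (x, t) :=
      (isOpen_lt (NNReal.continuous_coe.comp continuous_snd) continuous_const).mem_nhds hN
    filter_upwards [hU] with q hq
    have hq' : (q.2 : ℝ) < N := hq
    exact h.pr_eq q.2.2 hq'.le q.1
  refine ContinuousAt.congr ?_ h1.symm
  refine (h.continuous_joint (NNReal.continuous_coe.comp continuous_snd) (fun q => q.2.2)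
    ((XHat.continuous_coord N).comp continuous_fst)).continuousAt

/-- the ray of a boundary point -/
noncomputable def toRay (x : HBdry o p) : {γ : C(ℝ≥0, X) // Isometry γ ∧ γ 0 = o} :=
  ⟨⟨toRayFun x, (h.toRay_isometry x).continuous⟩, h.toRay_isometry x, by
    show pr o p ((0 : ℝ≥0) : ℝ) x.1 = o
    have := h.norm_pr_bdry (t := ((0 : ℝ≥0) : ℝ)) le_rfl x.2
    rw [NNReal.coe_zero] at this ⊢
    exact (dist_eq_zero.1 this).symm⟩

/-- **The boundary as a space of rays.** -/
noncomputable def rayHomeo : HBdry o p ≃ₜ {γ : C(ℝ≥0, X) // Isometry γ ∧ γ 0 = o} := by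
  have := h.compactSpace
  have : CompactSpace (HBdry o p) := isCompact_iff_compactSpace.1 isClosed_HBdry.isCompact
  let e : HBdry o p ≃ {γ : C(ℝ≥0, X) // Isometry γ ∧ γ 0 = o} :=
    { toFun := h.toRay
      invFun := h.ofRay
      left_inv := fun x => by
        refine Subtype.ext (Subtype.ext (funext fun r => ?_))
        show pr o p ((r : ℝ≥0) : ℝ) x.1 = x.1.1 r
        rw [NNReal.coe_natCast]
        exact h.pr_nat r x.1
      right_inv := fun γ => by
        refine Subtype.ext (ContinuousMap.ext fun t => ?_)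
        show p t (γ.1 (⌈(t : ℝ)⌉₊ : ℕ)) = γ.1 t
        refine h.ray_coord γ.2.1 γ.2.2 ?_
        rw [← NNReal.coe_le_coe]
        push_cast
        exact Nat.le_ceil _ }
  refine Continuous.homeoOfEquivCompactToT2 (f := e) ?_
  refine Continuous.subtype_mk ?_ _
  refine ContinuousMap.continuous_of_continuous_uncurry _ ?_
  exact h.continuous_uncurry_pr.comp (continuous_subtype_val.prodMap continuous_id)

end

end RadSp

end BD
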